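import Pool.Agent.Lib.MP_2805c2_an.SQ.Iface

set_option autoImplicit false

/-!
# ANA: analyticity of the family of operators on the unit square
-/

namespace Pool.SqDrum

open MeasureTheory Set Filter Topology
open scoped ENNReal ContDiff InnerProductSpace

noncomputable section

namespace AnaAux

/-- the monomials as multiplication operators -/
def Mo (i j : ℕ) : L2 →L[ℝ] L2 := mul (D.indicator fun x : P2 => x.1 ^ i * x.2 ^ j)

theorem mem_D {x : P2} (hx : x ∈ D) : |x.1| ≤ 1 / 2 ∧ |x.2| ≤ 1 / 2 := by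
  unfold D Sq at hx
  obtain ⟨⟨h1, h2⟩, h3, h4⟩ := hx
  exact ⟨abs_le.2 ⟨by linarith, by linarith⟩, abs_le.2 ⟨by linarith, by linarith⟩⟩

theorem D_meas : MeasurableSet D := by
  unfold D Sq
  exact measurableSet_Ioo.prod measurableSet_Ioo

theorem mono_le {x : P2} (hx : x ∈ D) (i j : ℕ) : |x.1 ^ i * x.2 ^ j| ≤ 1 := by
  obtain ⟨h1, h2⟩ := mem_D hx
  rw [abs_mul, abs_pow, abs_pow]
  have e1 : |x.1| ^ i ≤ 1 := pow_le_one₀ (abs_nonneg _) (by linarith)
  have e2 : |x.2| ^ j ≤ 1 := pow_le_one₀ (abs_nonneg _) (by linarith)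
  exact mul_le_one₀ e1 (pow_nonneg (abs_nonneg _) _) e2

theorem mo_mem (i j : ℕ) :
    MemLp (D.indicator fun x : P2 => x.1 ^ i * x.2 ^ j) ⊤ (volume : Measure P2) :=
  memLp_top_ind D_meas (Continuous.measurable (by fun_prop)) zero_le_one
    fun x hx => mono_le hx i j

/-- quadratic polynomials -/
def P (b : Fin 6 → ℝ) (x : P2) : ℝ :=
  b 0 + b 1 * x.1 + b 2 * x.2 + b 3 * x.1 ^ 2 + b 4 * (x.1 * x.2) + b 5 * x.2 ^ 2

/-- multiplication by quadratic polynomials -/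
def L6 (b : Fin 6 → ℝ) : L2 →L[ℝ] L2 :=
  b 0 • Mo 0 0 + b 1 • Mo 1 0 + b 2 • Mo 0 1 + b 3 • Mo 2 0 + b 4 • Mo 1 1 + b 5 • Mo 0 2

theorem P_ind (b : Fin 6 → ℝ) : D.indicator (P b) =
    b 0 • (D.indicator fun x : P2 => x.1 ^ 0 * x.2 ^ 0) +
    b 1 • (D.indicator fun x : P2 => x.1 ^ 1 * x.2 ^ 0) +
    b 2 • (D.indicator fun x : P2 => x.1 ^ 0 * x.2 ^ 1) +
    b 3 • (D.indicator fun x : P2 => x.1 ^ 2 * x.2 ^ 0) +
    b 4 • (D.indicator fun x : P2 => x.1 ^ 1 * x.2 ^ 1) +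
    b 5 • (D.indicator fun x : P2 => x.1 ^ 0 * x.2 ^ 2) := by
  funext x
  by_cases hx : x ∈ D
  · simp [hx, P]
  · simp [hx]

theorem mul_P (b : Fin 6 → ℝ) : mul (D.indicator (P b)) = L6 b := by
  have h0 := (mo_mem 0 0).const_smul (b 0)
  have h1 := (mo_mem 1 0).const_smul (b 1)
  have h2 := (mo_mem 0 1).const_smul (b 2)
  have h3 := (mo_mem 2 0).const_smul (b 3)
  have h4 := (mo_mem 1 1).const_smul (b 4)
  have h5 := (mo_mem 0 2).const_smul (b 5)
  rw [P_ind, mul_add ((((h0.add h1).add h2).add h3).add h4) h5,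
    mul_add (((h0.add h1).add h2).add h3) h4, mul_add ((h0.add h1).add h2) h3,
    mul_add (h0.add h1) h2, mul_add h0 h1, mul_smul _ (mo_mem 0 0), mul_smul _ (mo_mem 1 0),
    mul_smul _ (mo_mem 0 1), mul_smul _ (mo_mem 2 0), mul_smul _ (mo_mem 1 1),
    mul_smul _ (mo_mem 0 2)]
  rfl

theorem P_meas (b : Fin 6 → ℝ) : Measurable (P b) :=
  Continuous.measurable (by unfold P; fun_prop)

theorem P_le (b : Fin 6 → ℝ) {x : P2} (hx : x ∈ D) :
    |P b x| ≤ |b 0| + |b 1| + |b 2| + |b 3| + |b 4| + |b 5| := by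
  have h : ∀ (c : ℝ) (i j : ℕ), |c * (x.1 ^ i * x.2 ^ j)| ≤ |c| := fun c i j => by
    rw [abs_mul]
    exact mul_le_of_le_one_right (abs_nonneg _) (mono_le hx i j)
  have e : P b x = b 0 * (x.1 ^ 0 * x.2 ^ 0) + b 1 * (x.1 ^ 1 * x.2 ^ 0) +
      b 2 * (x.1 ^ 0 * x.2 ^ 1) + b 3 * (x.1 ^ 2 * x.2 ^ 0) + b 4 * (x.1 ^ 1 * x.2 ^ 1) +
      b 5 * (x.1 ^ 0 * x.2 ^ 2) := by unfold P; ring
  rw [e]
  refine (abs_add_le _ _).trans (add_le_add ?_ (h _ _ _))
  refine (abs_add_le _ _).trans (add_le_add ?_ (h _ _ _))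
  refine (abs_add_le _ _).trans (add_le_add ?_ (h _ _ _))
  refine (abs_add_le _ _).trans (add_le_add ?_ (h _ _ _))
  exact (abs_add_le _ _).trans (add_le_add (h _ _ _) (h _ _ _))

/-- the operator of multiplication by the Jacobian, extended by the identity -/
def Jm (a0 a1 a2 : ℝ) : L2 →L[ℝ] L2 :=
  1 + ((a0 - 1) • Mo 0 0 + a1 • Mo 1 0 + a2 • Mo 0 1)

theorem mul_one_fun : mul (fun _ : P2 => (1 : ℝ)) = 1 := by
  have h : MemLp (fun _ : P2 => (1 : ℝ)) ⊤ (volume : Measure P2) := memLp_top_const (1 : ℝ)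
  ext1 f
  refine Lp.ext ?_
  filter_upwards [mul_coe h f] with x hx
  rw [hx, one_mul]
  rfl

theorem Jm_eq (a0 a1 a2 : ℝ) :
    Jm a0 a1 a2 = mul ((fun _ : P2 => (1 : ℝ)) +
      D.indicator (P ![a0 - 1, a1, a2, 0, 0, 0])) := by
  rw [mul_add (memLp_top_const (1 : ℝ)) (memLp_top_ind D_meas (P_meas _) (by positivity)
    fun x hx => P_le _ hx), mul_one_fun, mul_P]
  simp [Jm, L6]

theorem key {g : P2 → ℝ} (hg : Measurable g) {a0 a1 a2 : ℝ} {b : Fin 6 → ℝ}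
    (ha : ∀ x ∈ D, 1 / 2 ≤ a0 + a1 * x.1 + a2 * x.2)
    (h : ∀ x ∈ D, g x * (a0 + a1 * x.1 + a2 * x.2) = P b x) :
    (mul (D.indicator g)).comp (Jm a0 a1 a2) = L6 b := by
  set C : ℝ := |b 0| + |b 1| + |b 2| + |b 3| + |b 4| + |b 5| with hC
  have hC0 : 0 ≤ C := by positivity
  have hgb : ∀ x ∈ D, |g x| ≤ 2 * C := fun x hx => by
    have h1 := ha x hx
    have h2 := h x hx
    have h3 : |g x| * (a0 + a1 * x.1 + a2 * x.2) ≤ C := by
      have : |g x| * (a0 + a1 * x.1 + a2 * x.2) = |P b x| := by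
        rw [← h2, abs_mul, abs_of_nonneg (by linarith : (0:ℝ) ≤ a0 + a1 * x.1 + a2 * x.2)]
      rw [this]
      exact P_le b hx
    nlinarith [abs_nonneg (g x)]
  have m1 : MemLp (D.indicator g) ⊤ (volume : Measure P2) :=
    memLp_top_ind D_meas hg (by positivity) hgb
  have m2 : MemLp ((fun _ : P2 => (1 : ℝ)) + D.indicator (P ![a0 - 1, a1, a2, 0, 0, 0])) ⊤
      (volume : Measure P2) :=
    (memLp_top_const (1 : ℝ)).add (memLp_top_ind D_meas (P_meas _) (by positivity)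
      fun x hx => P_le _ hx)
  have e : D.indicator g * ((fun _ : P2 => (1 : ℝ)) +
      D.indicator (P ![a0 - 1, a1, a2, 0, 0, 0])) = D.indicator (P b) := by
    funext x
    by_cases hx : x ∈ D
    · simp only [Pi.mul_apply, Pi.add_apply, indicator_of_mem hx, ← h x hx]
      simp [P]
      left
      ring
    · simp [hx]
  have m3 : MemLp (D.indicator g * ((fun _ : P2 => (1 : ℝ)) +
      D.indicator (P ![a0 - 1, a1, a2, 0, 0, 0]))) ⊤ (volume : Measure P2) := by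
    rw [e]
    exact memLp_top_ind D_meas (P_meas _) (by positivity) fun x hx => P_le _ hx
  rw [Jm_eq, mul_mul m1 m2 m3, e, mul_P]

/-- the Jacobian -/
def a0 (z : Z5) : ℝ := det2 (va z) (vb z)
def a1 (z : Z5) : ℝ := det2 (va z) (vw z)
def a2 (z : Z5) : ℝ := det2 (vw z) (vb z)

theorem det_eq (z : Z5) (x : P2) :
    det2 (px z x) (py z x) = a0 z + a1 z * x.1 + a2 z * x.2 := by
  simp only [det2, px, py, a0, a1, a2, Prod.fst_add, Prod.snd_add, Prod.smul_fst, Prod.smul_snd,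
    smul_eq_mul]
  ring

theorem an_of {f : Z5 → ℝ} (h : ContDiff ℝ ω f) : AnalyticAt ℝ f 0 :=
  (contDiff_omega_iff_analyticOnNhd.1 h) 0 (mem_univ _)

theorem an_a0 : AnalyticAt ℝ a0 0 := by
  refine an_of ?_
  unfold a0 det2 va vb
  simp only
  fun_prop

theorem an_a1 : AnalyticAt ℝ a1 0 := by
  refine an_of ?_
  unfold a1 det2 va vw
  simp only
  fun_prop

theorem an_a2 : AnalyticAt ℝ a2 0 := by
  refine an_of ?_
  unfold a2 det2 vb vw
  simp only
  fun_prop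

theorem a_zero : a0 0 = 1 ∧ a1 0 = 0 ∧ a2 0 = 0 := by
  simp [a0, a1, a2, det2, va, vb, vw]

theorem ev_det : ∀ᶠ z in 𝓝 (0 : Z5), ∀ x ∈ D, 1 / 2 ≤ a0 z + a1 z * x.1 + a2 z * x.2 := by
  obtain ⟨e0, e1, e2⟩ := a_zero
  have h0 : ∀ᶠ z in 𝓝 (0 : Z5), 3 / 4 < a0 z :=
    an_a0.continuousAt.eventually (lt_mem_nhds (by rw [e0]; norm_num))
  have h1 : ∀ᶠ z in 𝓝 (0 : Z5), |a1 z| < 1 / 8 :=
    an_a1.continuousAt.abs.eventually (gt_mem_nhds (by simp only [e1]; norm_num))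
  have h2 : ∀ᶠ z in 𝓝 (0 : Z5), |a2 z| < 1 / 8 :=
    an_a2.continuousAt.abs.eventually (gt_mem_nhds (by simp only [e2]; norm_num))
  filter_upwards [h0, h1, h2] with z g0 g1 g2 x hx
  obtain ⟨x1, x2⟩ := mem_D hx
  have t1 : |a1 z * x.1| ≤ 1 / 16 := by
    rw [abs_mul]; nlinarith [abs_nonneg (a1 z), abs_nonneg x.1]
  have t2 : |a2 z * x.2| ≤ 1 / 16 := by
    rw [abs_mul]; nlinarith [abs_nonneg (a2 z), abs_nonneg x.2]
  have := (abs_le.1 t1).1
  have := (abs_le.1 t2).1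
  linarith

theorem an_Jm : AnalyticAt ℝ (fun z => Jm (a0 z) (a1 z) (a2 z)) 0 := by
  unfold Jm
  exact analyticAt_const.add ((((an_a0.sub analyticAt_const).smul analyticAt_const).add
    (an_a1.smul analyticAt_const)).add (an_a2.smul analyticAt_const))

theorem Jm_zero : Jm (a0 0) (a1 0) (a2 0) = 1 := by
  obtain ⟨e0, e1, e2⟩ := a_zero
  simp [Jm, e0, e1, e2]

theorem an_inv : AnalyticAt ℝ (fun z => Ring.inverse (Jm (a0 z) (a1 z) (a2 z))) 0 := by
  have h : AnalyticAt ℝ (Ring.inverse : (L2 →L[ℝ] L2) → (L2 →L[ℝ] L2))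
      (Jm (a0 0) (a1 0) (a2 0)) := by
    rw [Jm_zero]
    exact analyticAt_inverse (1 : (L2 →L[ℝ] L2)ˣ)
  exact AnalyticAt.fun_comp (f := fun z => Jm (a0 z) (a1 z) (a2 z)) h an_Jm

theorem ev_unit : ∀ᶠ z in 𝓝 (0 : Z5), IsUnit (Jm (a0 z) (a1 z) (a2 z)) := by
  have h : {u : L2 →L[ℝ] L2 | IsUnit u} ∈ 𝓝 (Jm (a0 0) (a1 0) (a2 0)) := by
    rw [Jm_zero]
    exact Units.isOpen.mem_nhds isUnit_one
  exact an_Jm.continuousAt.eventually h

theorem an_L6 {b : Z5 → Fin 6 → ℝ} (hb : ∀ i, AnalyticAt ℝ (fun z => b z i) 0) :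
    AnalyticAt ℝ (fun z => L6 (b z)) 0 := by
  unfold L6
  exact ((((((hb 0).smul analyticAt_const).add ((hb 1).smul analyticAt_const)).add
    ((hb 2).smul analyticAt_const)).add ((hb 3).smul analyticAt_const)).add
    ((hb 4).smul analyticAt_const)).add ((hb 5).smul analyticAt_const)

theorem an_quot {g : Z5 → P2 → ℝ} (hg : ∀ z, Measurable (g z)) {b : Z5 → Fin 6 → ℝ}
    (hb : ∀ i, AnalyticAt ℝ (fun z => b z i) 0)
    (h : ∀ z x, 0 < a0 z + a1 z * x.1 + a2 z * x.2 →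
      g z x * (a0 z + a1 z * x.1 + a2 z * x.2) = P (b z) x) :
    AnalyticAt ℝ (fun z => mul (D.indicator (g z))) 0 := by
  refine ((an_L6 hb).mul an_inv).congr ?_
  filter_upwards [ev_det, ev_unit] with z h1 h2
  have e := key (hg z) h1 fun x hx => h z x (by linarith [h1 x hx])
  change L6 (b z) * Ring.inverse (Jm (a0 z) (a1 z) (a2 z)) = _
  rw [← e]
  exact Ring.mul_inverse_cancel_right _ _ h2

/-- composition with fixed operators -/
def Phi (A : L2 →L[ℝ] H D) (B : H D →L[ℝ] L2) : (L2 →L[ℝ] L2) →L[ℝ] (H D →L[ℝ] H D) where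
  toFun S := A.comp (S.comp B)
  map_add' S T := by ext1 x; simp
  map_smul' c S := by ext1 x; simp
  cont := continuous_const.clm_comp (continuous_id.clm_comp continuous_const)

theorem an_comp {T : Z5 → L2 →L[ℝ] L2} (hT : AnalyticAt ℝ T 0) (A : L2 →L[ℝ] H D)
    (B : H D →L[ℝ] L2) : AnalyticAt ℝ (fun z => A.comp ((T z).comp B)) 0 := by
  have h : AnalyticAt ℝ (fun S : L2 →L[ℝ] L2 => Phi A B S) (T 0) :=
    @ContinuousLinearMap.analyticAt ℝ _ (L2 →L[ℝ] L2) _ _ (H D →L[ℝ] H D) _ _ (Phi A B) (T 0)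
  exact AnalyticAt.fun_comp (g := fun S : L2 →L[ℝ] L2 => Phi A B S) (f := T) h hT

theorem an_frm {m11 m12 m22 m0 : Z5 → P2 → ℝ}
    (h11 : AnalyticAt ℝ (fun z => mul (D.indicator (m11 z))) 0)
    (h12 : AnalyticAt ℝ (fun z => mul (D.indicator (m12 z))) 0)
    (h22 : AnalyticAt ℝ (fun z => mul (D.indicator (m22 z))) 0)
    (h0 : AnalyticAt ℝ (fun z => mul (D.indicator (m0 z))) 0) :
    AnalyticAt ℝ (fun z => frm D (m11 z) (m12 z) (m22 z) (m0 z)) 0 := by
  unfold frm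
  exact ((((an_comp h11 _ _).add (an_comp h12 _ _)).add (an_comp h12 _ _)).add
    (an_comp h22 _ _)).add (an_comp h0 _ _)

theorem an_jc : AnalyticAt ℝ (fun z => mul (D.indicator (jc (px z) (py z)))) 0 := by
  have hb : ∀ i, AnalyticAt ℝ (fun z => (![a0 z, a1 z, a2 z, 0, 0, 0] : Fin 6 → ℝ) i) 0 := by
    intro i
    fin_cases i
    · exact an_a0
    · exact an_a1
    · exact an_a2
    all_goals exact analyticAt_const
  refine (an_L6 hb).congr ?_
  filter_upwards [ev_det] with z h1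
  rw [← mul_P]
  congr 1
  funext x
  by_cases hx : x ∈ D
  · have := h1 x hx
    simp only [indicator_of_mem hx, jc, det_eq]
    rw [abs_of_nonneg (by linarith)]
    simp [P]
  · simp [hx]

theorem an_c11 : AnalyticAt ℝ (fun z => mul (D.indicator (c11 (px z) (py z)))) 0 := by
  refine an_quot (b := fun z => ![dot2 (vb z) (vb z), 2 * dot2 (vb z) (vw z), 0,
    dot2 (vw z) (vw z), 0, 0]) (fun z => ?_) (fun i => ?_) fun z x hx => ?_
  · unfold c11 jc dot2 det2 px py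
    exact (Continuous.measurable (by fun_prop)).div (Continuous.measurable (by fun_prop))
  · fin_cases i <;> refine an_of ?_ <;> simp only [dot2, vb, vw, Fin.zero_eta, Fin.mk_one,
      Fin.reduceFinMk, Matrix.cons_val] <;> fun_prop
  · have e : |a0 z + a1 z * x.1 + a2 z * x.2| = a0 z + a1 z * x.1 + a2 z * x.2 :=
      abs_of_pos hx
    simp only [c11, jc, det_eq, e]
    rw [div_mul_cancel₀ _ hx.ne']
    simp [P, dot2, py]
    ring

theorem an_c12 : AnalyticAt ℝ (fun z => mul (D.indicator (c12 (px z) (py z)))) 0 := by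
  refine an_quot (b := fun z => ![-dot2 (va z) (vb z), -dot2 (va z) (vw z),
    -dot2 (vw z) (vb z), 0, -dot2 (vw z) (vw z), 0]) (fun z => ?_) (fun i => ?_)
    fun z x hx => ?_
  · unfold c12 jc dot2 det2 px py
    exact (Continuous.measurable (by fun_prop)).div (Continuous.measurable (by fun_prop))
  · fin_cases i <;> refine an_of ?_ <;> simp only [dot2, va, vb, vw, Fin.zero_eta, Fin.mk_one,
      Fin.reduceFinMk, Matrix.cons_val] <;> fun_prop
  · have e : |a0 z + a1 z * x.1 + a2 z * x.2| = a0 z + a1 z * x.1 + a2 z * x.2 :=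
      abs_of_pos hx
    simp only [c12, jc, det_eq, e]
    rw [div_mul_cancel₀ _ hx.ne']
    simp [P, dot2, px, py]
    ring

theorem an_c22 : AnalyticAt ℝ (fun z => mul (D.indicator (c22 (px z) (py z)))) 0 := by
  refine an_quot (b := fun z => ![dot2 (va z) (va z), 0, 2 * dot2 (va z) (vw z), 0, 0,
    dot2 (vw z) (vw z)]) (fun z => ?_) (fun i => ?_) fun z x hx => ?_
  · unfold c22 jc dot2 det2 px py
    exact (Continuous.measurable (by fun_prop)).div (Continuous.measurable (by fun_prop))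
  · fin_cases i <;> refine an_of ?_ <;> simp only [dot2, va, vw, Fin.zero_eta, Fin.mk_one,
      Fin.reduceFinMk, Matrix.cons_val] <;> fun_prop
  · have e : |a0 z + a1 z * x.1 + a2 z * x.2| = a0 z + a1 z * x.1 + a2 z * x.2 :=
      abs_of_pos hx
    simp only [c22, jc, det_eq, e]
    rw [div_mul_cancel₀ _ hx.ne']
    simp [P, dot2, px]
    ring

end AnaAux

open AnaAux in
theorem ana : AnaStatement := by
  have hz : AnalyticAt ℝ (fun _ : Z5 => mul (D.indicator (0 : P2 → ℝ))) 0 := analyticAt_const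
  exact ⟨an_frm an_c11 an_c12 an_c22 hz, an_frm hz hz hz an_jc⟩

end

end Pool.SqDrum
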