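import Pool.Agent.Lib.MP_2805c2_an.SQ.Iface

set_option autoImplicit false

/-!
ARE: the spectrum determines the area.
-/

namespace Pool.SqDrum

open MeasureTheory Set Filter Topology
open scoped ENNReal InnerProductSpace Pointwise

/-- scaling of the plane -/
def scl (L : ℝ) (x : P2) : P2 := (L * x.1, L * x.2)

theorem scl_sim (L : ℝ) : Sim L (scl L) :=
  ⟨L, 0, 0, 0, 1, Or.inl rfl, by ring, fun x => by simp [scl]⟩

theorem scl_image (L : ℝ) (Ω : Set P2) : scl L '' Ω = L • Ω := by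
  ext x
  constructor
  · rintro ⟨y, hy, rfl⟩
    exact ⟨y, hy, rfl⟩
  · rintro ⟨y, hy, rfl⟩
    exact ⟨y, hy, rfl⟩

theorem scl_inv_mem {L a b h : ℝ} (hL : 0 < L) {x : P2}
    (hx : x ∈ Sq (L * a) (L * b) (L * h)) : ((x.1 / L, x.2 / L) : P2) ∈ Sq a b h := by
  obtain ⟨⟨h1, h2⟩, h3, h4⟩ := hx
  refine ⟨⟨?_, ?_⟩, ?_, ?_⟩
  · show a < x.1 / L
    rw [lt_div_iff₀ hL]; linarith
  · show x.1 / L < a + h
    rw [div_lt_iff₀ hL]; linarith
  · show b < x.2 / L
    rw [lt_div_iff₀ hL]; linarith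
  · show x.2 / L < b + h
    rw [div_lt_iff₀ hL]; linarith

theorem are_le (hfsp : FspStatement) (hsim : SimStatement) (hsup : SupStatement)
    (hgrd : GrdStatement) (hupv : UpvStatement) (hthb : ThbStatement)
    (Ω Ω' : Set P2) (hΩ : IsOpen Ω) (hΩ' : IsOpen Ω') (hb : Bornology.IsBounded Ω)
    (hb' : Bornology.IsBounded Ω') (hiso : IsoSp Ω Ω') : volume.real Ω ≤ volume.real Ω' := by
  refine le_of_forall_pos_le_add fun ε hε => ?_
  obtain ⟨n, c, h, hh, hsub, hdis, hvol⟩ := hgrd Ω hΩ hb ε hε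
  have key : ∀ L : ℝ, 0 < L → (n : ℝ) * h ^ 2 - n * (Real.pi * h) / L ≤ volume.real Ω' := by
    intro L hL
    have o1 : IsOpen (scl L '' Ω) := by rw [scl_image]; exact hΩ.smul₀ hL.ne'
    have o2 : IsOpen (scl L '' Ω') := by rw [scl_image]; exact hΩ'.smul₀ hL.ne'
    have b1 : Bornology.IsBounded (scl L '' Ω) := by rw [scl_image]; exact hb.smul₀ L
    have b2 : Bornology.IsBounded (scl L '' Ω') := by rw [scl_image]; exact hb'.smul₀ L
    have iso : IsoSp (scl L '' Ω) (scl L '' Ω') := fun l => by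
      rw [hsim L (scl L) Ω hL (scl_sim L) hΩ l, hsim L (scl L) Ω' hL (scl_sim L) hΩ' l]
      exact hiso _
    have e1 := hfsp _ _ o1 o2 b1 b2 iso
    have e2 := hupv _ o2 b2
    have vol : volume.real (scl L '' Ω') = L ^ 2 * volume.real Ω' := by
      rw [scl_image, measureReal_def, Measure.addHaar_smul, ENNReal.toReal_mul]
      have : Module.finrank ℝ P2 = 2 := by simp [P2]
      rw [this, ENNReal.toReal_ofReal (abs_nonneg _), abs_of_pos (pow_pos hL 2)]
      rfl
    have e3 := hsup n (fun i => Sq (L * (c i).1) (L * (c i).2) (L * h)) (scl L '' Ω)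
      (fun i => isOpen_Ioo.prod isOpen_Ioo) o1
      (fun i x hx => ⟨(x.1 / L, x.2 / L), hsub i (scl_inv_mem hL hx), by
        simp only [scl]; ext <;> field_simp⟩)
      (fun i j hij => Set.disjoint_left.2 fun x hx hx' =>
        Set.disjoint_left.1 (hdis i j hij) (scl_inv_mem hL hx) (scl_inv_mem hL hx'))
    have e4 : ∑ i : Fin n, ENNReal.ofReal ((L * h) ^ 2 / (4 * Real.pi) - (L * h) / 4) ≤
        ∑ i : Fin n, hs (res (Sq (L * (c i).1) (L * (c i).2) (L * h))) :=
      Finset.sum_le_sum fun i _ => hthb _ _ (L * h) (mul_pos hL hh)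
    have e5 : ENNReal.ofReal (n * ((L * h) ^ 2 / (4 * Real.pi) - (L * h) / 4)) ≤
        ENNReal.ofReal (L ^ 2 * volume.real Ω' / (4 * Real.pi)) := by
      calc ENNReal.ofReal (n * ((L * h) ^ 2 / (4 * Real.pi) - (L * h) / 4))
          = ∑ i : Fin n, ENNReal.ofReal ((L * h) ^ 2 / (4 * Real.pi) - (L * h) / 4) := by
            rw [Finset.sum_const, Finset.card_univ, Fintype.card_fin, nsmul_eq_mul,
              ENNReal.ofReal_mul (Nat.cast_nonneg n), ENNReal.ofReal_natCast]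
        _ ≤ _ := e4
        _ ≤ _ := e3
        _ = _ := e1
        _ ≤ _ := e2
        _ = _ := by rw [vol]
    have hpi := Real.pi_pos
    have hv0 : 0 ≤ volume.real Ω' := measureReal_nonneg
    rw [ENNReal.ofReal_le_ofReal_iff (by positivity)] at e5
    have e6 := mul_le_mul_of_nonneg_right e5 (show 0 ≤ 4 * Real.pi / L ^ 2 by positivity)
    have e7 : (n : ℝ) * ((L * h) ^ 2 / (4 * Real.pi) - (L * h) / 4) * (4 * Real.pi / L ^ 2) =
        (n : ℝ) * h ^ 2 - n * (Real.pi * h) / L := by field_simp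
    have e8 : L ^ 2 * volume.real Ω' / (4 * Real.pi) * (4 * Real.pi / L ^ 2) =
        volume.real Ω' := by field_simp
    rw [e7, e8] at e6
    exact e6
  have hlim : Tendsto (fun L : ℝ => (n : ℝ) * h ^ 2 - n * (Real.pi * h) / L) atTop
      (𝓝 ((n : ℝ) * h ^ 2 - 0)) :=
    tendsto_const_nhds.sub (tendsto_const_nhds.div_atTop tendsto_id)
  have h1 : (n : ℝ) * h ^ 2 - 0 ≤ volume.real Ω' :=
    le_of_tendsto hlim ((eventually_gt_atTop 0).mono fun L hL => key L hL)
  linarith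

theorem are (hfsp : FspStatement) (hsim : SimStatement) (hsup : SupStatement)
    (hgrd : GrdStatement) (hupv : UpvStatement) (hthb : ThbStatement) : AreStatement :=
  fun Ω Ω' hΩ hΩ' hb hb' hiso => le_antisymm
    (are_le hfsp hsim hsup hgrd hupv hthb Ω Ω' hΩ hΩ' hb hb' hiso)
    (are_le hfsp hsim hsup hgrd hupv hthb Ω' Ω hΩ' hΩ hb' hb fun l => (hiso l).symm)

end Pool.SqDrum
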