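import Pool.Agent.Lib.MP_2805c2_an.SQ.Iface

set_option autoImplicit false

/-!
BIL: the spectrum of `dom z`.
-/

namespace Pool.SqDrum

open MeasureTheory Set Filter Topology
open scoped ENNReal ContDiff InnerProductSpace

/-- the vertices of `dom z` -/
noncomputable def bq (z : Z5) (i : Fin 4) : P2 := bil 0 (va z) (vb z) (vw z) (cor i)

theorem bq_c (z : Z5) : qc (bq z) = 0 := by
  ext <;> simp [qc, bq, bil, cor] <;> ring

theorem bq_a (z : Z5) : qa (bq z) = va z := by
  ext <;> simp [qa, bq, bil, cor] <;> ring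

theorem bq_b (z : Z5) : qb (bq z) = vb z := by
  ext <;> simp [qb, bq, bil, cor] <;> ring

theorem bq_w (z : Z5) : qw (bq z) = vw z := by
  ext <;> simp [qw, bq, bil, cor] <;> ring

theorem bq_cont (i : Fin 4) : Continuous fun z : Z5 => bq z i := by
  unfold bq bil va vb vw
  fun_prop

theorem bq_ccw : ∀ᶠ z in 𝓝 (0 : Z5), Ccw (bq z) := by
  unfold Ccw
  rw [eventually_all]
  intro i
  rw [eventually_all]
  intro j
  by_cases h1 : j = i
  · exact Eventually.of_forall fun z h => absurd h1 h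
  by_cases h2 : j = i + 1
  · exact Eventually.of_forall fun z _ h => absurd h2 h
  have hc : Continuous fun z : Z5 => det2 (bq z (i + 1) - bq z i) (bq z j - bq z i) := by
    have e1 := bq_cont (i + 1)
    have e2 := bq_cont i
    have e3 := bq_cont j
    unfold det2
    fun_prop
  have h0 : 0 < det2 (bq 0 (i + 1) - bq 0 i) (bq 0 j - bq 0 i) := by
    fin_cases i <;> fin_cases j <;>
      simp_all [bq, bil, cor, va, vb, vw, det2] <;> norm_num
  filter_upwards [hc.continuousAt.eventually (lt_mem_nhds h0)] with z hz _ _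
  exact hz

theorem bil_fderiv (c a b w : P2) (x : P2) : HasFDerivAt (bil c a b w)
    ((ContinuousLinearMap.fst ℝ ℝ ℝ).smulRight a + (ContinuousLinearMap.snd ℝ ℝ ℝ).smulRight b +
      (x.1 • ContinuousLinearMap.snd ℝ ℝ ℝ + x.2 • ContinuousLinearMap.fst ℝ ℝ ℝ).smulRight w)
    x := by
  unfold bil
  have h1 : HasFDerivAt (fun x : P2 => x.1) (ContinuousLinearMap.fst ℝ ℝ ℝ) x := hasFDerivAt_fst
  have h2 : HasFDerivAt (fun x : P2 => x.2) (ContinuousLinearMap.snd ℝ ℝ ℝ) x := hasFDerivAt_snd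
  exact (((h1.smul_const a).const_add c).add (h2.smul_const b)).add ((h1.mul h2).smul_const w)

theorem bil_smooth (c a b w : P2) : ContDiff ℝ ∞ (bil c a b w) := by
  unfold bil
  fun_prop

theorem bil_thm (htrf : TrfStatement) (hqda : QdaStatement) (hqdb : QdbStatement) :
    BilStatement := by
  filter_upwards [bq_ccw] with z hz
  obtain ⟨h1, h2, ⟨c, hc, h3⟩, h4, -⟩ := hqda (bq z) hz
  have h5 := hqdb (bq z) hz
  rw [bq_c, bq_a, bq_b, bq_w] at h1 h2
  rw [bq_a, bq_b, bq_w] at h3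
  rw [bq_a, bq_b] at h5
  have hdom : dom z = quad (bq z) := h1.symm
  have hopen : IsOpen (dom z) := by rw [hdom]; exact isOpen_interior
  have hx : ∀ x : P2, fderiv ℝ (bil 0 (va z) (vb z) (vw z)) x (1, 0) = px z x := fun x => by
    rw [(bil_fderiv 0 (va z) (vb z) (vw z) x).fderiv]
    simp [px]
  have hy : ∀ x : P2, fderiv ℝ (bil 0 (va z) (vb z) (vw z)) x (0, 1) = py z x := fun x => by
    rw [(bil_fderiv 0 (va z) (vb z) (vw z) x).fderiv]
    simp [py]
  refine ⟨hopen, by rw [hdom]; exact h4, by rw [hdom]; exact h5, fun l => ?_⟩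
  have hdiff : Diffeo (bil 0 (va z) (vb z) (vw z)) D (dom z) :=
    { smooth := bil_smooth _ _ _ _
      isOpen := isOpen_Ioo.prod isOpen_Ioo
      inj := h2
      img := rfl
      bdd := by
        have hK : IsCompact (Icc (-1/2 : ℝ) (-1/2 + 1) ×ˢ Icc (-1/2 : ℝ) (-1/2 + 1)) :=
          isCompact_Icc.prod isCompact_Icc
        have hcont : Continuous fun x : P2 => ‖fderiv ℝ (bil 0 (va z) (vb z) (vw z)) x‖ :=
          ((bil_smooth 0 (va z) (vb z) (vw z)).continuous_fderiv (by simp)).norm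
        obtain ⟨C, hC⟩ := hK.bddAbove_image hcont.continuousOn
        refine ⟨C, fun x hxD => hC ⟨x, ⟨⟨hxD.1.1.le, hxD.1.2.le⟩, hxD.2.1.le, hxD.2.2.le⟩, rfl⟩⟩
      det := ⟨c, hc, fun x hxD => by
        rw [hx, hy]
        exact (h3 x hxD).trans (le_abs_self _)⟩ }
  have h6 := htrf _ _ _ hdiff l
  have e1 : (fun x => fderiv ℝ (bil 0 (va z) (vb z) (vw z)) x (1, 0)) = px z := funext hx
  have e2 : (fun x => fderiv ℝ (bil 0 (va z) (vb z) (vw z)) x (0, 1)) = py z := funext hy
  rw [e1, e2] at h6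
  exact h6

end Pool.SqDrum
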