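import Mathlib

set_option autoImplicit false

/-!
# Nearly square drums: definitions and basic facts
-/

namespace Pool.SqDrum

open MeasureTheory Set Filter Topology
open scoped ENNReal ContDiff InnerProductSpace

noncomputable section

/-- the plane, with coordinates -/
abbrev P2 : Type := ℝ × ℝ

/-- real square integrable functions on the plane -/
abbrev L2 : Type := Lp ℝ 2 (volume : Measure P2)

/-- triples `(u, u₁, u₂)` of square integrable functions -/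
abbrev LL : Type := PiLp 2 (fun _ : Fin 3 => L2)

/-- the class of a function in `L2` (zero if it is not square integrable) -/
def cl (g : P2 → ℝ) : L2 := by
  classical
  exact if h : MemLp g 2 (volume : Measure P2) then h.toLp g else 0

theorem cl_coe {g : P2 → ℝ} (h : MemLp g 2 (volume : Measure P2)) : cl g =ᵐ[volume] g := by
  simp only [cl, dif_pos h]
  exact h.coeFn_toLp

theorem cl_eq {g : P2 → ℝ} (h : MemLp g 2 (volume : Measure P2)) : cl g = h.toLp g := by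
  simp only [cl, dif_pos h]

theorem cl_add {f g : P2 → ℝ} (hf : MemLp f 2 (volume : Measure P2))
    (hg : MemLp g 2 (volume : Measure P2)) : cl (f + g) = cl f + cl g := by
  rw [cl_eq hf, cl_eq hg, cl_eq (hf.add hg)]
  rfl

theorem cl_smul (c : ℝ) {f : P2 → ℝ} (hf : MemLp f 2 (volume : Measure P2)) :
    cl (c • f) = c • cl f := by
  rw [cl_eq hf, cl_eq (hf.const_smul c)]
  rfl

theorem cl_congr {f g : P2 → ℝ} (h : f =ᵐ[volume] g) : cl f = cl g := by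
  by_cases hf : MemLp f 2 (volume : Measure P2)
  · have hg : MemLp g 2 (volume : Measure P2) := (memLp_congr_ae h).1 hf
    rw [cl_eq hf, cl_eq hg]
    exact MemLp.toLp_congr hf hg h
  · have hg : ¬ MemLp g 2 (volume : Measure P2) := fun hg => hf ((memLp_congr_ae h).2 hg)
    simp only [cl, dif_neg hf, dif_neg hg]

/-- the inner product of `L2` is the integral of the product -/
theorem inner_eq (f g : L2) : ⟪f, g⟫_ℝ = ∫ x, f x * g x := by
  rw [L2.inner_def]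
  refine integral_congr_ae (Eventually.of_forall fun x => ?_)
  simp [mul_comm]

/-- multiplication by a bounded function (zero if the function is not essentially bounded) -/
def mul (m : P2 → ℝ) : L2 →L[ℝ] L2 := by
  classical
  exact if h : MemLp m ⊤ (volume : Measure P2) then
    (ContinuousLinearMap.mul ℝ ℝ).holderL (volume : Measure P2) ⊤ 2 2 (h.toLp m) else 0

theorem mul_coe {m : P2 → ℝ} (h : MemLp m ⊤ (volume : Measure P2)) (f : L2) :
    mul m f =ᵐ[volume] fun x => m x * f x := by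
  simp only [mul, dif_pos h]
  have h1 := (ContinuousLinearMap.mul ℝ ℝ).coeFn_holder (r := 2) (h.toLp m) f
  filter_upwards [h1, h.coeFn_toLp] with x hx hx2
  have : ((ContinuousLinearMap.mul ℝ ℝ).holderL (volume : Measure P2) ⊤ 2 2 (h.toLp m)) f
    = (ContinuousLinearMap.mul ℝ ℝ).holder 2 (h.toLp m) f := rfl
  rw [this, hx, hx2]
  rfl

/-- restriction to a measurable set -/
def ind (A : Set P2) : L2 →L[ℝ] L2 := mul (A.indicator 1)

theorem memLp_indicator_one {A : Set P2} (hA : MeasurableSet A) :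
    MemLp (A.indicator (1 : P2 → ℝ)) ⊤ (volume : Measure P2) :=
  (memLp_top_const (1 : ℝ)).indicator hA

theorem ind_coe {A : Set P2} (hA : MeasurableSet A) (f : L2) :
    ind A f =ᵐ[volume] A.indicator f := by
  refine (mul_coe (memLp_indicator_one hA) f).trans (Eventually.of_forall fun x => ?_)
  by_cases hx : x ∈ A <;> simp [hx]

/-- partial derivatives -/
def pd1 (φ : P2 → ℝ) (x : P2) : ℝ := fderiv ℝ φ x (1, 0)
def pd2 (φ : P2 → ℝ) (x : P2) : ℝ := fderiv ℝ φ x (0, 1)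

/-- test functions on `Ω` -/
structure Test (Ω : Set P2) (φ : P2 → ℝ) : Prop where
  smooth : ContDiff ℝ ∞ φ
  compact : HasCompactSupport φ
  sub : tsupport φ ⊆ Ω

/-- the triple of the classes of three functions -/
def trip (a b c : P2 → ℝ) : LL := WithLp.toLp 2 ![cl a, cl b, cl c]

@[simp] theorem trip_zero (a b c : P2 → ℝ) : trip a b c 0 = cl a := rfl
@[simp] theorem trip_one (a b c : P2 → ℝ) : trip a b c 1 = cl b := rfl
@[simp] theorem trip_two (a b c : P2 → ℝ) : trip a b c 2 = cl c := rfl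

/-- the triple `(φ, ∂₁φ, ∂₂φ)` -/
def jet (φ : P2 → ℝ) : LL := trip φ (pd1 φ) (pd2 φ)

/-- the Sobolev space `H¹₀(Ω)`, as the space of the triples `(u, ∂₁u, ∂₂u)` -/
def H (Ω : Set P2) : Submodule ℝ LL :=
  (Submodule.span ℝ {F : LL | ∃ φ, Test Ω φ ∧ F = jet φ}).topologicalClosure

instance (Ω : Set P2) : CompleteSpace (H Ω) := by unfold H; infer_instance

theorem H_isClosed (Ω : Set P2) : IsClosed (H Ω : Set LL) :=
  Submodule.isClosed_topologicalClosure _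

theorem jet_mem {Ω : Set P2} {φ : P2 → ℝ} (h : Test Ω φ) : jet φ ∈ H Ω :=
  Submodule.le_topologicalClosure _ (Submodule.subset_span ⟨φ, h, rfl⟩)

theorem Test.mono {Ω Ω' : Set P2} (h : Ω ⊆ Ω') {φ : P2 → ℝ} (hφ : Test Ω φ) : Test Ω' φ :=
  ⟨hφ.smooth, hφ.compact, hφ.sub.trans h⟩

theorem H_mono {Ω Ω' : Set P2} (h : Ω ⊆ Ω') : H Ω ≤ H Ω' := by
  refine Submodule.topologicalClosure_mono (Submodule.span_mono ?_)
  rintro F ⟨φ, hφ, rfl⟩
  exact ⟨φ, hφ.mono h, rfl⟩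

theorem LL_inner (F G : LL) : ⟪F, G⟫_ℝ = ⟪F 0, G 0⟫_ℝ + ⟪F 1, G 1⟫_ℝ + ⟪F 2, G 2⟫_ℝ := by
  rw [PiLp.inner_apply, Fin.sum_univ_three]

/-- the components, as operators on `H Ω` -/
def co (Ω : Set P2) (i : Fin 3) : H Ω →L[ℝ] L2 :=
  (PiLp.proj 2 (fun _ : Fin 3 => L2) i : LL →L[ℝ] L2).comp (H Ω).subtypeL

@[simp] theorem co_apply (Ω : Set P2) (i : Fin 3) (F : H Ω) : co Ω i F = (F : LL) i := rfl

/-- `(1 - Δ)⁻¹` on `L2`, for the Dirichlet Laplacian of `Ω` -/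
def res (Ω : Set P2) : L2 →L[ℝ] L2 := (co Ω 0).comp (co Ω 0).adjoint

/-- `(1 - Δ)⁻¹` on `H Ω` -/
def T (Ω : Set P2) : H Ω →L[ℝ] H Ω := (co Ω 0).adjoint.comp (co Ω 0)

/-- the eigenspace of the Dirichlet Laplacian of `Ω` for `lam` (weak formulation) -/
def Eig (Ω : Set P2) (lam : ℝ) : Submodule ℝ LL where
  carrier := {F | F ∈ H Ω ∧ ∀ G ∈ H Ω, ⟪F 1, G 1⟫_ℝ + ⟪F 2, G 2⟫_ℝ = lam * ⟪F 0, G 0⟫_ℝ}
  add_mem' := by
    rintro F F' ⟨hF, h⟩ ⟨hF', h'⟩
    refine ⟨(H Ω).add_mem hF hF', fun G hG => ?_⟩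
    have e1 := h G hG
    have e2 := h' G hG
    simp only [PiLp.add_apply, inner_add_left]
    linarith
  zero_mem' := ⟨(H Ω).zero_mem, fun G hG => by simp⟩
  smul_mem' := by
    rintro c F ⟨hF, h⟩
    refine ⟨(H Ω).smul_mem c hF, fun G hG => ?_⟩
    have e1 := h G hG
    simp only [PiLp.smul_apply, inner_smul_left, RCLike.conj_to_real]
    rw [← mul_add, e1]
    ring

/-- the multiplicity of `lam` as a Dirichlet eigenvalue of `Ω` -/
def mult (Ω : Set P2) (lam : ℝ) : ℕ := Module.finrank ℝ (Eig Ω lam)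

/-- two domains have the same Dirichlet spectrum, with multiplicities -/
def IsoSp (Ω Ω' : Set P2) : Prop := ∀ lam : ℝ, mult Ω lam = mult Ω' lam

/-- a Hilbert basis of `L2` -/
def stdB : Σ w : Set L2, HilbertBasis w ℝ L2 :=
  ⟨(exists_hilbertBasis ℝ L2).choose, (exists_hilbertBasis ℝ L2).choose_spec.choose⟩

/-- the square of the Hilbert–Schmidt norm -/
def hs (K : L2 →L[ℝ] L2) : ℝ≥0∞ := ∑' i, ‖K (stdB.2 i)‖ₑ ^ 2

/-- open squares -/
def Sq (x₀ y₀ M : ℝ) : Set P2 := Ioo x₀ (x₀ + M) ×ˢ Ioo y₀ (y₀ + M)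

/-- the unit square with centre `0` -/
def D : Set P2 := Sq (-1/2) (-1/2) 1

/-- the Dirichlet eigenfunctions of a square -/
def ef (x₀ y₀ M : ℝ) (k : ℕ × ℕ) (x : P2) : ℝ :=
  (2 / M) * (Real.sin (k.1 * Real.pi * (x.1 - x₀) / M) * Real.sin (k.2 * Real.pi * (x.2 - y₀) / M))

/-- the Dirichlet eigenvalues of a square -/
def lam (M : ℝ) (k : ℕ × ℕ) : ℝ := Real.pi ^ 2 * ((k.1 : ℝ) ^ 2 + (k.2 : ℝ) ^ 2) / M ^ 2

/-- the triples of the eigenfunctions -/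
def ET (x₀ y₀ M : ℝ) (k : ℕ × ℕ) : LL :=
  trip ((Sq x₀ y₀ M).indicator (ef x₀ y₀ M k)) ((Sq x₀ y₀ M).indicator (pd1 (ef x₀ y₀ M k)))
    ((Sq x₀ y₀ M).indicator (pd2 (ef x₀ y₀ M k)))

/-- similarities of the plane with ratio `r` -/
def Sim (r : ℝ) (ρ : P2 → P2) : Prop :=
  ∃ a b p q e : ℝ, (e = 1 ∨ e = -1) ∧ a ^ 2 + b ^ 2 = r ^ 2 ∧
    ∀ x : P2, ρ x = (a * x.1 - e * b * x.2 + p, b * x.1 + e * a * x.2 + q)

/-- congruent sets -/
def Cong (Ω Ω' : Set P2) : Prop := ∃ ρ : P2 → P2, Sim 1 ρ ∧ ρ '' Ω = Ω'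

/-! ## operators with coefficients -/

/-- the operator of `H Ω` of the form
`(F, G) ↦ ∫_Ω m₁₁ F₁ G₁ + m₁₂ (F₂ G₁ + F₁ G₂) + m₂₂ F₂ G₂ + m₀ F₀ G₀` -/
def frm (Ω : Set P2) (m11 m12 m22 m0 : P2 → ℝ) : H Ω →L[ℝ] H Ω :=
  (co Ω 1).adjoint.comp ((mul (Ω.indicator m11)).comp (co Ω 1)) +
  (co Ω 1).adjoint.comp ((mul (Ω.indicator m12)).comp (co Ω 2)) +
  (co Ω 2).adjoint.comp ((mul (Ω.indicator m12)).comp (co Ω 1)) +
  (co Ω 2).adjoint.comp ((mul (Ω.indicator m22)).comp (co Ω 2)) +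
  (co Ω 0).adjoint.comp ((mul (Ω.indicator m0)).comp (co Ω 0))

theorem frm_inner (Ω : Set P2) (m11 m12 m22 m0 : P2 → ℝ) (F G : H Ω) :
    ⟪frm Ω m11 m12 m22 m0 F, G⟫_ℝ =
      ⟪mul (Ω.indicator m11) ((F : LL) 1), (G : LL) 1⟫_ℝ +
      ⟪mul (Ω.indicator m12) ((F : LL) 2), (G : LL) 1⟫_ℝ +
      ⟪mul (Ω.indicator m12) ((F : LL) 1), (G : LL) 2⟫_ℝ +
      ⟪mul (Ω.indicator m22) ((F : LL) 2), (G : LL) 2⟫_ℝ +
      ⟪mul (Ω.indicator m0) ((F : LL) 0), (G : LL) 0⟫_ℝ := by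
  simp only [frm, _root_.add_apply, inner_add_left,
    ContinuousLinearMap.comp_apply, ContinuousLinearMap.adjoint_inner_left, co_apply]

/-- determinant of two vectors -/
def det2 (u v : P2) : ℝ := u.1 * v.2 - u.2 * v.1

/-- scalar product of two vectors -/
def dot2 (u v : P2) : ℝ := u.1 * v.1 + u.2 * v.2

/-- Euclidean length -/
def nrm (u : P2) : ℝ := Real.sqrt (dot2 u u)

/-- the Jacobian and the coefficients of the transformed Dirichlet form, for a map with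
partial derivatives `px`, `py` -/
def jc (px py : P2 → P2) (x : P2) : ℝ := |det2 (px x) (py x)|
def c11 (px py : P2 → P2) (x : P2) : ℝ := dot2 (py x) (py x) / jc px py x
def c12 (px py : P2 → P2) (x : P2) : ℝ := -dot2 (px x) (py x) / jc px py x
def c22 (px py : P2 → P2) (x : P2) : ℝ := dot2 (px x) (px x) / jc px py x

/-- stiffness and mass operators on a reference domain -/
def stf (Ω : Set P2) (px py : P2 → P2) : H Ω →L[ℝ] H Ω :=
  frm Ω (c11 px py) (c12 px py) (c22 px py) 0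
def mss (Ω : Set P2) (px py : P2 → P2) : H Ω →L[ℝ] H Ω := frm Ω 0 0 0 (jc px py)

/-- smooth changes of variables -/
structure Diffeo (Φ : P2 → P2) (Ω Ω' : Set P2) : Prop where
  smooth : ContDiff ℝ ∞ Φ
  isOpen : IsOpen Ω
  inj : InjOn Φ Ω
  img : Φ '' Ω = Ω'
  bdd : ∃ C : ℝ, ∀ x ∈ Ω, ‖fderiv ℝ Φ x‖ ≤ C
  det : ∃ c : ℝ, 0 < c ∧ ∀ x ∈ Ω, c ≤ |det2 (fderiv ℝ Φ x (1, 0)) (fderiv ℝ Φ x (0, 1))|

/-! ## quadrilaterals -/

/-- the open quadrilateral (convex hull) with given vertices -/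
def quad (q : Fin 4 → P2) : Set P2 := interior (convexHull ℝ (Set.range q))

/-- the vertices of a convex quadrilateral, in counterclockwise order -/
def Ccw (q : Fin 4 → P2) : Prop :=
  ∀ i j : Fin 4, j ≠ i → j ≠ i + 1 → 0 < det2 (q (i + 1) - q i) (q j - q i)

/-- perimeter -/
def per (q : Fin 4 → P2) : ℝ := ∑ i, nrm (q (i + 1) - q i)

/-- the coefficients of the bilinear parametrisation -/
def qc (q : Fin 4 → P2) : P2 := (1/4 : ℝ) • (q 0 + q 1 + q 2 + q 3)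
def qa (q : Fin 4 → P2) : P2 := (1/2 : ℝ) • (q 1 + q 2 - q 0 - q 3)
def qb (q : Fin 4 → P2) : P2 := (1/2 : ℝ) • (q 2 + q 3 - q 0 - q 1)
def qw (q : Fin 4 → P2) : P2 := q 0 - q 1 + q 2 - q 3

/-- bilinear maps of the unit square -/
def bil (c a b w : P2) (x : P2) : P2 := c + x.1 • a + x.2 • b + (x.1 * x.2) • w

/-- the corners of the unit square -/
def cor : Fin 4 → P2 := ![(-1/2, -1/2), (1/2, -1/2), (1/2, 1/2), (-1/2, 1/2)]

/-- open triangles with one side on the axis -/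
def tri (p q r h : ℝ) : Set P2 :=
  {x | 0 < x.2 ∧ x.2 < h ∧ p + (r - p) * x.2 / h < x.1 ∧ x.1 < q + (r - q) * x.2 / h}

/-- the boundary layer function -/
def psi (y : ℝ) : ℝ := ∫ t in Ioi (0 : ℝ), Real.exp (-t - y ^ 2 / t)

/-! ## the five parameters: `z = (σ, δ, τ, w₁, w₂)` -/

abbrev Z5 : Type := Fin 5 → ℝ

def va (z : Z5) : P2 := (1 + z 0 + z 1, z 2)
def vb (z : Z5) : P2 := (z 2, 1 + z 0 - z 1)
def vw (z : Z5) : P2 := (z 3, z 4)

/-- the family of quadrilaterals near the unit square -/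
def dom (z : Z5) : Set P2 := bil 0 (va z) (vb z) (vw z) '' D

def px (z : Z5) (x : P2) : P2 := va z + x.2 • vw z
def py (z : Z5) (x : P2) : P2 := vb z + x.1 • vw z

def AA (z : Z5) : H D →L[ℝ] H D := stf D (px z) (py z)
def BB (z : Z5) : H D →L[ℝ] H D := mss D (px z) (py z)

/-- the eigenfunctions of the unit square, as elements of `H D` -/
def ev (k : ℕ × ℕ) : H D := by
  classical
  exact if h : ET (-1/2) (-1/2) 1 k ∈ H D then ⟨ET (-1/2) (-1/2) 1 k, h⟩ else 0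

/-- the expansion of `AA - l BB` along the curve `t ζ + t² η`, `ζ = (0, 0, 0, a, b)`,
`η = (0, δ, τ, 0, 0)` -/
def curve (a b δ τ t : ℝ) : Z5 := ![0, δ * t ^ 2, τ * t ^ 2, a * t, b * t]
def K0 (l : ℝ) : H D →L[ℝ] H D := frm D 1 0 1 (fun _ => -l)
def K1 (l a b : ℝ) : H D →L[ℝ] H D :=
  frm D (fun x => b * x.1 - a * x.2) (fun x => -(a * x.1 + b * x.2))
    (fun x => a * x.2 - b * x.1) (fun x => -l * (a * x.2 + b * x.1))
def K2 (a b δ τ : ℝ) : H D →L[ℝ] H D :=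
  frm D (fun x => (x.1 ^ 2 + x.2 ^ 2) * a ^ 2 - 2 * δ)
    (fun x => (x.1 ^ 2 + x.2 ^ 2) * (a * b) - 2 * τ)
    (fun x => (x.1 ^ 2 + x.2 ^ 2) * b ^ 2 + 2 * δ) 0

/-- the symmetries of the square acting on the parameters -/
def symX (z : Z5) : Z5 := ![z 0, z 1, -z 2, z 3, -z 4]
def symY (z : Z5) : Z5 := ![z 0, z 1, -z 2, -z 3, z 4]
def symS (z : Z5) : Z5 := ![z 0, -z 1, z 2, z 4, z 3]

/-- the seven basic invariants -/
def gen (z : Z5) : Fin 7 → ℝ :=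
  ![z 0, z 3 ^ 2 + z 4 ^ 2, z 2 ^ 2, z 2 * z 3 * z 4, z 1 ^ 2, z 1 * (z 3 ^ 2 - z 4 ^ 2),
    (z 3 ^ 2 - z 4 ^ 2) ^ 2]

/-! ## numbers -/

/-- matrix elements: the coefficient of the eigenfunction `(k, l)` in
`2 y ∂₁²e + 2 x ∂₁∂₂e`, `e` the eigenfunction `(m, n)` -/
def Pm (i k : ℕ × ℕ) : ℝ :=
  if (k.1 + i.1) % 2 = 0 ∧ (k.2 + i.2) % 2 = 1 then
    (if k.1 = i.1 then
      4 * (i.2 : ℝ) * k.2 * (4 * (i.1 : ℝ) ^ 2 - ((k.2 : ℝ) ^ 2 - (i.2 : ℝ) ^ 2)) /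
        ((k.2 : ℝ) ^ 2 - (i.2 : ℝ) ^ 2) ^ 2
    else
      -(16 * (i.1 : ℝ) * i.2 * k.1 * k.2) /
        (((k.1 : ℝ) ^ 2 - (i.1 : ℝ) ^ 2) * ((k.2 : ℝ) ^ 2 - (i.2 : ℝ) ^ 2)))
  else 0

/-- the coefficient of `k` for the direction `(a, b)` -/
def Wm (a b : ℝ) (i k : ℕ × ℕ) : ℝ := a * Pm i k + b * Pm i.swap k.swap

/-- difference of energies, over `π²` -/
def En (i k : ℕ × ℕ) : ℝ := (k.1 : ℝ) ^ 2 + (k.2 : ℝ) ^ 2 - (i.1 : ℝ) ^ 2 - (i.2 : ℝ) ^ 2

/-- the second order sum -/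
def SS (a b : ℝ) (i j : ℕ × ℕ) : ℝ := ∑' k : ℕ × ℕ, Wm a b i k * Wm a b j k / En i k

def bas (m n : ℕ) : ℝ := (m * Real.pi) ^ 2 / 6 + 1 / 2 - (m : ℝ) ^ 2 / (2 * (n : ℝ) ^ 2)
def BN (m n : ℕ) : ℝ := bas m n - SS 1 0 (m, n) (m, n) / Real.pi ^ 2
def al (m n : ℕ) : ℝ := 2 * Real.pi ^ 2 * ((n : ℝ) ^ 2 - (m : ℝ) ^ 2)
def be (m n : ℕ) : ℝ := (BN m n - BN n m) / 2
def I0 (m n : ℕ) : ℝ := 4 * n / (Real.pi * ((n : ℝ) ^ 2 - (m : ℝ) ^ 2))
def I2 (m n : ℕ) : ℝ :=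
  (1 / (2 * ((n : ℝ) + m) * Real.pi) - 4 / (((n : ℝ) + m) * Real.pi) ^ 3) +
  (1 / (2 * ((n : ℝ) - m) * Real.pi) - 4 / (((n : ℝ) - m) * Real.pi) ^ 3)
def ka1 (m n : ℕ) : ℝ := -64 * (m : ℝ) ^ 2 * (n : ℝ) ^ 2 / ((n : ℝ) ^ 2 - (m : ℝ) ^ 2) ^ 2
def ka2 (m n : ℕ) : ℝ :=
  2 * Real.pi ^ 2 * ((m : ℝ) ^ 2 * I2 m n * I0 m n + (n : ℝ) ^ 2 * I2 n m * I0 n m) -
    SS 1 1 (m, n) (n, m) / Real.pi ^ 2
def G2 (m n : ℕ) : ℝ :=
  Real.pi ^ 4 * ((m : ℝ) ^ 4 + (m : ℝ) ^ 2 * (n : ℝ) ^ 2) / 3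
    - 2 * Real.pi ^ 2 * (m : ℝ) ^ 4 / (n : ℝ) ^ 2 + 2 * (n : ℝ) ^ 2 * Real.pi ^ 2
    - 2 * (m : ℝ) ^ 2 * Real.pi ^ 2

/-- `(m, n)` and `(n, m)` are the only modes with their energy -/
def Uniq (m n : ℕ) : Prop :=
  ∀ k l : ℕ, 0 < k → 0 < l → k ^ 2 + l ^ 2 = m ^ 2 + n ^ 2 →
    (k = m ∧ l = n) ∨ (k = n ∧ l = m)

/-! ## multiplication operators -/

theorem memLp_top {m : P2 → ℝ} (hm : Measurable m) {C : ℝ} (h : ∀ x, |m x| ≤ C) :
    MemLp m ⊤ (volume : Measure P2) :=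
  memLp_top_of_bound hm.aestronglyMeasurable C (Eventually.of_forall fun x => by
    rw [Real.norm_eq_abs]; exact h x)

theorem memLp_top_ind {Ω : Set P2} (hΩ : MeasurableSet Ω) {m : P2 → ℝ} (hm : Measurable m)
    {C : ℝ} (hC : 0 ≤ C) (h : ∀ x ∈ Ω, |m x| ≤ C) :
    MemLp (Ω.indicator m) ⊤ (volume : Measure P2) := by
  refine memLp_top (hm.indicator hΩ) (C := C) fun x => ?_
  by_cases hx : x ∈ Ω
  · simpa [hx] using h x hx
  · simpa [hx] using hC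

theorem mul_ext {f g : L2} (h : f =ᵐ[volume] g) : f = g := Lp.ext h

theorem mul_add {m m' : P2 → ℝ} (h : MemLp m ⊤ (volume : Measure P2))
    (h' : MemLp m' ⊤ (volume : Measure P2)) : mul (m + m') = mul m + mul m' := by
  ext1 f
  refine Lp.ext ?_
  have e := mul_coe (h.add h') f
  have e1 := mul_coe h f
  have e2 := mul_coe h' f
  have e3 := Lp.coeFn_add (mul m f) (mul m' f)
  rw [show (mul m + mul m') f = mul m f + mul m' f from rfl]
  filter_upwards [e, e1, e2, e3] with x hx h1 h2 h3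
  rw [hx, h3, Pi.add_apply (mul m f : P2 → ℝ), h1, h2, Pi.add_apply]
  ring

theorem mul_smul (c : ℝ) {m : P2 → ℝ} (h : MemLp m ⊤ (volume : Measure P2)) :
    mul (c • m) = c • mul m := by
  ext1 f
  refine Lp.ext ?_
  have e := mul_coe (h.const_smul c) f
  have e1 := mul_coe h f
  have e3 := Lp.coeFn_smul c (mul m f)
  rw [show (c • mul m) f = c • mul m f from rfl]
  filter_upwards [e, e1, e3] with x hx h1 h3
  rw [hx, h3, Pi.smul_apply c (mul m f : P2 → ℝ), h1, Pi.smul_apply, smul_eq_mul, smul_eq_mul]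
  ring

theorem mul_mul {m m' : P2 → ℝ} (h : MemLp m ⊤ (volume : Measure P2))
    (h' : MemLp m' ⊤ (volume : Measure P2)) (h'' : MemLp (m * m') ⊤ (volume : Measure P2)) :
    (mul m).comp (mul m') = mul (m * m') := by
  ext1 f
  refine Lp.ext ?_
  have e := mul_coe h'' f
  have e1 := mul_coe h (mul m' f)
  have e2 := mul_coe h' f
  rw [ContinuousLinearMap.comp_apply]
  filter_upwards [e, e1, e2] with x hx h1 h2
  rw [hx, h1, h2, Pi.mul_apply]
  ring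

theorem mul_symm (m : P2 → ℝ) (f g : L2) : ⟪mul m f, g⟫_ℝ = ⟪f, mul m g⟫_ℝ := by
  by_cases h : MemLp m ⊤ (volume : Measure P2)
  · rw [inner_eq, inner_eq]
    refine integral_congr_ae ?_
    filter_upwards [mul_coe h f, mul_coe h g] with x h1 h2
    rw [h1, h2]; ring
  · simp only [mul, dif_neg h]; simp

theorem mul_norm_le {m : P2 → ℝ} {C : ℝ} (hC : 0 ≤ C) (h : ∀ x, |m x| ≤ C) : ‖mul m‖ ≤ C := by
  by_cases hm : MemLp m ⊤ (volume : Measure P2)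
  · refine ContinuousLinearMap.opNorm_le_bound _ hC fun f => ?_
    have e := mul_coe hm f
    refine Lp.norm_le_mul_norm_of_ae_le_mul ?_
    filter_upwards [e] with x hx
    rw [hx, norm_mul]
    exact mul_le_mul_of_nonneg_right (by rw [Real.norm_eq_abs]; exact h x) (norm_nonneg _)
  · simp only [mul, dif_neg hm]; simpa using hC

theorem frm_symm (Ω : Set P2) (m11 m12 m22 m0 : P2 → ℝ) (F G : H Ω) :
    ⟪frm Ω m11 m12 m22 m0 F, G⟫_ℝ = ⟪F, frm Ω m11 m12 m22 m0 G⟫_ℝ := by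
  rw [real_inner_comm (frm Ω m11 m12 m22 m0 G) F, frm_inner, frm_inner]
  have e : ∀ (m : P2 → ℝ) (f g : L2), ⟪mul m f, g⟫_ℝ = ⟪mul m g, f⟫_ℝ := fun m f g => by
    rw [mul_symm, real_inner_comm]
  rw [e _ ((F : LL) 1) ((G : LL) 1), e _ ((F : LL) 2) ((G : LL) 1), e _ ((F : LL) 1) ((G : LL) 2),
    e _ ((F : LL) 2) ((G : LL) 2), e _ ((F : LL) 0) ((G : LL) 0)]
  ring

/-! ## test functions -/

theorem Test.cont {Ω : Set P2} {φ : P2 → ℝ} (h : Test Ω φ) : Continuous φ := h.smooth.continuous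

theorem Test.pd1_cont {Ω : Set P2} {φ : P2 → ℝ} (h : Test Ω φ) : Continuous (pd1 φ) := by
  have := (h.smooth.continuous_fderiv (by simp)).clm_apply (continuous_const (y := ((1, 0) : P2)))
  exact this

theorem Test.pd2_cont {Ω : Set P2} {φ : P2 → ℝ} (h : Test Ω φ) : Continuous (pd2 φ) := by
  have := (h.smooth.continuous_fderiv (by simp)).clm_apply (continuous_const (y := ((0, 1) : P2)))
  exact this

theorem fderiv_eq_zero_of_notMem_tsupport {φ : P2 → ℝ} {x : P2} (hx : x ∉ tsupport φ) :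
    fderiv ℝ φ x = 0 := by
  have := support_fderiv_subset ℝ (f := φ)
  by_contra h
  exact hx (this (Function.mem_support.2 h))

theorem Test.pd1_compact {Ω : Set P2} {φ : P2 → ℝ} (h : Test Ω φ) : HasCompactSupport (pd1 φ) :=
  (h.compact.fderiv ℝ).mono fun x hx h => hx (by
    have : fderiv ℝ φ x = 0 := h
    simp [pd1, this])

theorem Test.pd2_compact {Ω : Set P2} {φ : P2 → ℝ} (h : Test Ω φ) : HasCompactSupport (pd2 φ) :=
  (h.compact.fderiv ℝ).mono fun x hx h => hx (by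
    have : fderiv ℝ φ x = 0 := h
    simp [pd2, this])

theorem Test.memLp {Ω : Set P2} {φ : P2 → ℝ} (h : Test Ω φ) :
    MemLp φ 2 (volume : Measure P2) := h.cont.memLp_of_hasCompactSupport h.compact

theorem Test.pd1_memLp {Ω : Set P2} {φ : P2 → ℝ} (h : Test Ω φ) :
    MemLp (pd1 φ) 2 (volume : Measure P2) :=
  h.pd1_cont.memLp_of_hasCompactSupport h.pd1_compact

theorem Test.pd2_memLp {Ω : Set P2} {φ : P2 → ℝ} (h : Test Ω φ) :
    MemLp (pd2 φ) 2 (volume : Measure P2) :=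
  h.pd2_cont.memLp_of_hasCompactSupport h.pd2_compact

theorem Test.eq_zero {Ω : Set P2} {φ : P2 → ℝ} (h : Test Ω φ) {x : P2} (hx : x ∉ Ω) :
    φ x = 0 := image_eq_zero_of_notMem_tsupport fun h' => hx (h.sub h')

theorem Test.pd1_eq_zero {Ω : Set P2} {φ : P2 → ℝ} (h : Test Ω φ) {x : P2} (hx : x ∉ Ω) :
    pd1 φ x = 0 := by
  simp [pd1, fderiv_eq_zero_of_notMem_tsupport fun h' => hx (h.sub h')]

theorem Test.pd2_eq_zero {Ω : Set P2} {φ : P2 → ℝ} (h : Test Ω φ) {x : P2} (hx : x ∉ Ω) :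
    pd2 φ x = 0 := by
  simp [pd2, fderiv_eq_zero_of_notMem_tsupport fun h' => hx (h.sub h')]

theorem Test.add {Ω : Set P2} {φ ψ : P2 → ℝ} (h : Test Ω φ) (h' : Test Ω ψ) : Test Ω (φ + ψ) :=
  ⟨h.smooth.add h'.smooth, h.compact.add h'.compact,
    (tsupport_add φ ψ).trans (Set.union_subset h.sub h'.sub)⟩

theorem Test.smul {Ω : Set P2} (c : ℝ) {φ : P2 → ℝ} (h : Test Ω φ) : Test Ω (c • φ) :=
  ⟨contDiff_const.smul h.smooth, h.compact.smul_left (f := fun _ => c),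
    (tsupport_smul_subset_right (fun _ => c) φ).trans h.sub⟩

theorem test_zero (Ω : Set P2) : Test Ω 0 :=
  ⟨contDiff_const, HasCompactSupport.zero, by simp [tsupport]⟩

theorem Test.diff {Ω : Set P2} {φ : P2 → ℝ} (h : Test Ω φ) (x : P2) : DifferentiableAt ℝ φ x :=
  (h.smooth.differentiable (by simp)) x

theorem pd1_add {Ω : Set P2} {φ ψ : P2 → ℝ} (h : Test Ω φ) (h' : Test Ω ψ) :
    pd1 (φ + ψ) = pd1 φ + pd1 ψ := by
  funext x; simp [pd1, fderiv_add (h.diff x) (h'.diff x)]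

theorem pd2_add {Ω : Set P2} {φ ψ : P2 → ℝ} (h : Test Ω φ) (h' : Test Ω ψ) :
    pd2 (φ + ψ) = pd2 φ + pd2 ψ := by
  funext x; simp [pd2, fderiv_add (h.diff x) (h'.diff x)]

theorem pd1_smul (c : ℝ) {Ω : Set P2} {φ : P2 → ℝ} (h : Test Ω φ) :
    pd1 (c • φ) = c • pd1 φ := by
  funext x; simp [pd1, fderiv_const_smul (h.diff x) c]

theorem pd2_smul (c : ℝ) {Ω : Set P2} {φ : P2 → ℝ} (h : Test Ω φ) :
    pd2 (c • φ) = c • pd2 φ := by
  funext x; simp [pd2, fderiv_const_smul (h.diff x) c]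

theorem jet_add {Ω : Set P2} {φ ψ : P2 → ℝ} (h : Test Ω φ) (h' : Test Ω ψ) :
    jet (φ + ψ) = jet φ + jet ψ := by
  unfold jet trip
  rw [pd1_add h h', pd2_add h h', cl_add h.memLp h'.memLp, cl_add h.pd1_memLp h'.pd1_memLp,
    cl_add h.pd2_memLp h'.pd2_memLp]
  ext i : 1
  fin_cases i <;> rfl

theorem jet_smul (c : ℝ) {Ω : Set P2} {φ : P2 → ℝ} (h : Test Ω φ) :
    jet (c • φ) = c • jet φ := by
  unfold jet trip
  rw [pd1_smul c h, pd2_smul c h, cl_smul c h.memLp, cl_smul c h.pd1_memLp,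
    cl_smul c h.pd2_memLp]
  ext i : 1
  fin_cases i <;> rfl

/-- the subspace of jets of test functions -/
def jets (Ω : Set P2) : Submodule ℝ LL where
  carrier := {F | ∃ φ, Test Ω φ ∧ F = jet φ}
  add_mem' := by
    rintro _ _ ⟨φ, hφ, rfl⟩ ⟨ψ, hψ, rfl⟩
    exact ⟨φ + ψ, hφ.add hψ, (jet_add hφ hψ).symm⟩
  zero_mem' := ⟨0 • 0, (test_zero Ω).smul 0, by rw [jet_smul 0 (test_zero Ω), zero_smul]⟩
  smul_mem' := by
    rintro c _ ⟨φ, hφ, rfl⟩
    exact ⟨c • φ, hφ.smul c, (jet_smul c hφ).symm⟩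

theorem H_eq_jets (Ω : Set P2) : H Ω = (jets Ω).topologicalClosure := by
  have : Submodule.span ℝ {F : LL | ∃ φ, Test Ω φ ∧ F = jet φ} = jets Ω :=
    Submodule.span_eq (jets Ω)
  unfold H
  rw [this]

theorem mem_H_iff {Ω : Set P2} {F : LL} :
    F ∈ H Ω ↔ F ∈ closure {F : LL | ∃ φ, Test Ω φ ∧ F = jet φ} := by
  rw [H_eq_jets]; rfl

/-- every element of `H Ω` is a limit of jets of test functions -/
theorem exists_seq {Ω : Set P2} {F : LL} (hF : F ∈ H Ω) :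
    ∃ φ : ℕ → P2 → ℝ, (∀ n, Test Ω (φ n)) ∧ Tendsto (fun n => jet (φ n)) atTop (𝓝 F) := by
  obtain ⟨u, hu, hlim⟩ := mem_closure_iff_seq_limit.1 (mem_H_iff.1 hF)
  choose φ h1 h2 using hu
  refine ⟨φ, h1, ?_⟩
  have : (fun n => jet (φ n)) = u := by funext n; exact (h2 n).symm
  rw [this]; exact hlim

/-- closed properties of jets of test functions hold on `H Ω` -/
theorem H_induction {Ω : Set P2} {P : LL → Prop} (hP : IsClosed {F | P F})
    (h : ∀ φ, Test Ω φ → P (jet φ)) {F : LL} (hF : F ∈ H Ω) : P F := by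
  have : closure {F : LL | ∃ φ, Test Ω φ ∧ F = jet φ} ⊆ {F | P F} :=
    closure_minimal (by rintro _ ⟨φ, hφ, rfl⟩; exact h φ hφ) hP
  exact this (mem_H_iff.1 hF)

end

end Pool.SqDrum
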