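import Mathlib

set_option autoImplicit false

/-!
# The Dirichlet spectrum of plane domains (definitions over `EuclideanSpace ℝ (Fin 2)`)
-/

namespace Pool.SqDrum.E

open MeasureTheory Set
open scoped ContDiff InnerProductSpace

noncomputable section

/-- the Euclidean plane -/
abbrev E2 : Type := EuclideanSpace ℝ (Fin 2)

/-- the class in `L²(ℝ²)` of a function (zero if it is not square integrable) -/
def cls (g : E2 → ℝ) : Lp ℝ 2 (volume : Measure E2) := by
  classical
  exact if h : MemLp g 2 (volume : Measure E2) then h.toLp g else 0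

/-- smooth functions with compact support in `Ω` -/
def TestFun (Ω : Set E2) (φ : E2 → ℝ) : Prop :=
  ContDiff ℝ ∞ φ ∧ HasCompactSupport φ ∧ tsupport φ ⊆ Ω

/-- the triple `(φ, ∂₁φ, ∂₂φ)` in `L² × L² × L²` -/
def jet (φ : E2 → ℝ) : PiLp 2 (fun _ : Fin 3 => Lp ℝ 2 (volume : Measure E2)) :=
  WithLp.toLp 2 ![cls φ, cls (fun x => fderiv ℝ φ x (EuclideanSpace.single 0 1)),
    cls (fun x => fderiv ℝ φ x (EuclideanSpace.single 1 1))]

/-- `H¹₀(Ω)`: the closure of the test functions for the norm of `H¹`; its elements are the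
triples `(u, ∂₁u, ∂₂u)` -/
def H10 (Ω : Set E2) : Submodule ℝ (PiLp 2 (fun _ : Fin 3 => Lp ℝ 2 (volume : Measure E2))) :=
  (Submodule.span ℝ {F | ∃ φ, TestFun Ω φ ∧ F = jet φ}).topologicalClosure

/-- the solutions `u ∈ H¹₀(Ω)` of `-Δu = μu`:
`∫ ∇u·∇v = μ ∫ u v` for all `v ∈ H¹₀(Ω)` -/
def eigenspace (Ω : Set E2) (μ : ℝ) :
    Submodule ℝ (PiLp 2 (fun _ : Fin 3 => Lp ℝ 2 (volume : Measure E2))) where
  carrier := {F | F ∈ H10 Ω ∧
    ∀ G ∈ H10 Ω, ⟪F 1, G 1⟫_ℝ + ⟪F 2, G 2⟫_ℝ = μ * ⟪F 0, G 0⟫_ℝ}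
  add_mem' := by
    rintro F F' ⟨hF, h⟩ ⟨hF', h'⟩
    refine ⟨(H10 Ω).add_mem hF hF', fun G hG => ?_⟩
    have e1 := h G hG
    have e2 := h' G hG
    simp only [PiLp.add_apply, inner_add_left]
    linarith
  zero_mem' := ⟨(H10 Ω).zero_mem, fun G hG => by simp⟩
  smul_mem' := by
    rintro c F ⟨hF, h⟩
    refine ⟨(H10 Ω).smul_mem c hF, fun G hG => ?_⟩
    have e1 := h G hG
    simp only [PiLp.smul_apply, inner_smul_left, RCLike.conj_to_real]
    rw [← mul_add, e1]
    ring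

/-- the multiplicity of `μ` in the Dirichlet spectrum of `Ω` (zero if `μ` is not an
eigenvalue) -/
def mult (Ω : Set E2) (μ : ℝ) : ℕ := Module.finrank ℝ (eigenspace Ω μ)

/-- the open domain bounded by the quadrilateral with vertices `p` -/
def drum (p : Fin 4 → E2) : Set E2 := interior (convexHull ℝ (Set.range p))

/-- convex position: the four points are the vertices of a convex quadrilateral -/
def ConvexPosition (p : Fin 4 → E2) : Prop := ∀ i, p i ∉ convexHull ℝ (p '' {j | j ≠ i})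

/-- the corners of the unit square with centre `0` -/
def corner : Fin 4 → E2 := ![!₂[-1/2, -1/2], !₂[1/2, -1/2], !₂[1/2, 1/2], !₂[-1/2, 1/2]]

end

end Pool.SqDrum.E
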