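import Mathlib
import Pool.Agent.Lib.MP_2805c2_an.SQ.Base
import Pool.Agent.Lib.MP_2805c2_an.SQ.Plane

set_option autoImplicit false

/-!
# Nearly square drums: the statements of the modules (proofs on paper: Paper.md)

Convention: module `XYZ` = file `SQ/Xyz.lean`, containing
`theorem xyz (h1 : AbcStatement) (h2 : ...) : XyzStatement` (the used statements as hypotheses).
-/

namespace Pool.SqDrum

open MeasureTheory Set Filter Topology Asymptotics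
open scoped ENNReal ContDiff InnerProductSpace

/-! ## 1. Sobolev spaces -/

/-- VAN: elements of `H Ω` vanish off `Ω` -/
def VanStatement : Prop :=
  ∀ Ω : Set P2, IsOpen Ω → ∀ F ∈ H Ω, ∀ i : Fin 3, ind Ω (F i) = F i

/-- IBP: integration by parts -/
def IbpStatement : Prop :=
  ∀ (Ω : Set P2) (ψ : P2 → ℝ), IsOpen Ω → ContDiff ℝ ∞ ψ →
    (Bornology.IsBounded Ω ∨ HasCompactSupport ψ) → ∀ F ∈ H Ω,
      ⟪cl (Ω.indicator ψ), F 1⟫_ℝ = -⟪cl (Ω.indicator (pd1 ψ)), F 0⟫_ℝ ∧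
      ⟪cl (Ω.indicator ψ), F 2⟫_ℝ = -⟪cl (Ω.indicator (pd2 ψ)), F 0⟫_ℝ

/-- INJ: the derivatives are determined by the function -/
def InjStatement : Prop := ∀ F ∈ H Set.univ, F 0 = 0 → F = 0

/-- WCL: bounded sequences in a Hilbert space have a weak limit point -/
def WclStatement : Prop :=
  ∀ (E : Type) [NormedAddCommGroup E] [InnerProductSpace ℝ E] [CompleteSpace E]
    (u : ℕ → E) (R : ℝ), (∀ n, ‖u n‖ ≤ R) →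
    ∃ K : E, ∀ C : Set E, IsClosed C → Convex ℝ C → (∀ᶠ n in atTop, u n ∈ C) → K ∈ C

/-- POS: nonnegative elements are limits of nonnegative test functions -/
def PosStatement : Prop :=
  ∀ Ω : Set P2, IsOpen Ω → ∀ G ∈ H Ω, 0 ≤ G 0 →
    G ∈ closure {F : LL | ∃ φ, Test Ω φ ∧ (∀ x, 0 ≤ φ x) ∧ F = jet φ}

/-- LAT: positive parts -/
def LatStatement : Prop :=
  ∀ Ω : Set P2, IsOpen Ω → ∀ F ∈ H Ω, ∀ G ∈ H Set.univ, 0 ≤ G 0 →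
    ∃ K ∈ H Ω, K 0 = (F 0 - G 0) ⊔ 0 ∧ ‖K‖ ^ 2 ≤ ⟪F - G, K⟫_ℝ

/-- MON: positivity and domain monotonicity of the resolvent -/
def MonStatement : Prop :=
  ∀ Ω Ω' : Set P2, IsOpen Ω → IsOpen Ω' → Ω ⊆ Ω' → ∀ f g : L2, 0 ≤ f → 0 ≤ g →
    0 ≤ ⟪g, res Ω f⟫_ℝ ∧ ⟪g, res Ω f⟫_ℝ ≤ ⟪g, res Ω' f⟫_ℝ

/-- HSB: the Hilbert–Schmidt norm does not depend on the basis -/
def HsbStatement : Prop :=
  ∀ (K : L2 →L[ℝ] L2) (ι : Type) (b : HilbertBasis ι ℝ L2),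
    hs K = ∑' i, ‖K (b i)‖ₑ ^ 2 ∧ hs K = ∑' i, ‖K.adjoint (b i)‖ₑ ^ 2

/-- HSI: cutting with indicator functions -/
def HsiStatement : Prop :=
  (∀ (K : L2 →L[ℝ] L2) (A B : Set P2), MeasurableSet A → MeasurableSet B → Disjoint A B →
    hs ((ind (A ∪ B)).comp K) = hs ((ind A).comp K) + hs ((ind B).comp K)) ∧
  (∀ (K : L2 →L[ℝ] L2) (A : Set P2), MeasurableSet A → hs ((ind A).comp K) ≤ hs K) ∧
  (∀ A B : Set P2, MeasurableSet A → MeasurableSet B → A =ᵐ[volume] B → ind A = ind B)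

/-- HSD: domination -/
def HsdStatement : Prop :=
  ∀ K K' : L2 →L[ℝ] L2, (∀ f g : L2, 0 ≤ f → 0 ≤ g →
      0 ≤ ⟪g, K f⟫_ℝ ∧ ⟪g, K f⟫_ℝ ≤ ⟪g, K' f⟫_ℝ) →
    ∀ A : Set P2, MeasurableSet A → hs ((ind A).comp K) ≤ hs ((ind A).comp K')

/-- DIA: diagonal operators -/
def DiaStatement : Prop :=
  ∀ (ι : Type) (v : ι → L2) (κ : ι → ℝ) (G M : L2 →L[ℝ] L2),
    (∀ i j, i ≠ j → ⟪v i, v j⟫_ℝ = 0) → (∀ i, v i = 0 ∨ ‖v i‖ = 1) →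
    (∀ f, HasSum (fun i => (κ i * ⟪v i, f⟫_ℝ) • v i) (G f)) →
    hs (M.comp G) = ∑' i, ‖κ i‖ₑ ^ 2 * ‖M (v i)‖ₑ ^ 2

/-! ## 2. Changes of variables -/

/-- TFN: test functions and changes of variables -/
def TfnStatement : Prop :=
  ∀ (Φ : P2 → P2) (Ω Ω' : Set P2), Diffeo Φ Ω Ω' →
    IsOpen Ω' ∧
    (∀ φ, Test Ω' φ → Test Ω (Ω.indicator (φ ∘ Φ))) ∧
    (∀ ψ, Test Ω ψ → ∃ φ, Test Ω' φ ∧ Ω.indicator (φ ∘ Φ) = ψ)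

/-- TFI: the forms of test functions -/
def TfiStatement : Prop :=
  ∀ (Φ : P2 → P2) (Ω Ω' : Set P2), Diffeo Φ Ω Ω' →
    ∀ φ ψ : P2 → ℝ, Test Ω' φ → Test Ω' ψ → ∀ F G : H Ω,
      (F : LL) = jet (Ω.indicator (φ ∘ Φ)) → (G : LL) = jet (Ω.indicator (ψ ∘ Φ)) →
      ⟪cl φ, cl ψ⟫_ℝ =
        ⟪mss Ω (fun x => fderiv ℝ Φ x (1, 0)) (fun x => fderiv ℝ Φ x (0, 1)) F, G⟫_ℝ ∧
      ⟪cl (pd1 φ), cl (pd1 ψ)⟫_ℝ + ⟪cl (pd2 φ), cl (pd2 ψ)⟫_ℝ =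
        ⟪stf Ω (fun x => fderiv ℝ Φ x (1, 0)) (fun x => fderiv ℝ Φ x (0, 1)) F, G⟫_ℝ

/-- TRF: the spectrum on the reference domain -/
def TrfStatement : Prop :=
  ∀ (Φ : P2 → P2) (Ω Ω' : Set P2), Diffeo Φ Ω Ω' → ∀ l : ℝ,
    mult Ω' l = Module.finrank ℝ (LinearMap.ker
      ((stf Ω (fun x => fderiv ℝ Φ x (1, 0)) (fun x => fderiv ℝ Φ x (0, 1)) -
        l • mss Ω (fun x => fderiv ℝ Φ x (1, 0)) (fun x => fderiv ℝ Φ x (0, 1)) :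
          H Ω →L[ℝ] H Ω) : H Ω →ₗ[ℝ] H Ω))

/-- SIM: similarities -/
def SimStatement : Prop :=
  ∀ (r : ℝ) (ρ : P2 → P2) (Ω : Set P2), 0 < r → Sim r ρ → IsOpen Ω →
    ∀ l, mult (ρ '' Ω) l = mult Ω (r ^ 2 * l)

/-- ISO: congruences and local Hilbert–Schmidt norms -/
def IsoStatement : Prop :=
  ∀ (ρ : P2 → P2) (Ω A : Set P2), Sim 1 ρ → IsOpen Ω → MeasurableSet A →
    hs ((ind (ρ '' A)).comp (res (ρ '' Ω))) = hs ((ind A).comp (res Ω))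

/-- BRG: the same over `EuclideanSpace ℝ (Fin 2)` -/
def BrgStatement : Prop :=
  ∀ (Ω : Set E.E2) (l : ℝ), IsOpen Ω →
    E.mult Ω l = mult ((fun x : E.E2 => ((x 0, x 1) : P2)) '' Ω) l

/-! ## 3. Squares -/

/-- S1D: completeness of the sines -/
def S1dStatement : Prop :=
  ∀ (M : ℝ) (g : ℝ → ℝ), 0 < M → MemLp g 2 (volume.restrict (Ioo 0 M)) →
    (∀ m : ℕ, ∫ x in Ioo 0 M, g x * Real.sin (m * Real.pi * x / M) = 0) →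
    g =ᵐ[volume.restrict (Ioo 0 M)] 0

/-- SIN: the eigenfunctions are in `H¹₀` -/
def SinStatement : Prop :=
  ∀ (x₀ y₀ M : ℝ) (k : ℕ × ℕ), 0 < M → ET x₀ y₀ M k ∈ H (Sq x₀ y₀ M)

/-- EIG: they are eigenfunctions -/
def EigStatement : Prop :=
  ∀ (x₀ y₀ M : ℝ) (k : ℕ × ℕ), 0 < M → ∀ G ∈ H (Sq x₀ y₀ M),
    ⟪ET x₀ y₀ M k 1, G 1⟫_ℝ + ⟪ET x₀ y₀ M k 2, G 2⟫_ℝ = lam M k * ⟪ET x₀ y₀ M k 0, G 0⟫_ℝ

/-- ORT: they are orthonormal (and zero if an index is zero) -/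
def OrtStatement : Prop :=
  ∀ (x₀ y₀ M : ℝ), 0 < M → ∀ k l : ℕ × ℕ,
    ⟪ET x₀ y₀ M k 0, ET x₀ y₀ M l 0⟫_ℝ = if k = l ∧ 0 < k.1 ∧ 0 < k.2 then 1 else 0

/-- CPL: they are complete -/
def CplStatement : Prop :=
  ∀ (x₀ y₀ M : ℝ), 0 < M → ∀ f : L2,
    HasSum (fun k : ℕ × ℕ => ⟪ET x₀ y₀ M k 0, f⟫_ℝ • ET x₀ y₀ M k 0) (ind (Sq x₀ y₀ M) f)

/-- LCF: the local Hilbert–Schmidt norm of a square -/
def LcfStatement : Prop :=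
  ∀ (x₀ y₀ M : ℝ) (A : Set P2), 0 < M → MeasurableSet A →
    hs ((ind A).comp (res (Sq x₀ y₀ M))) =
      ∑' k : ℕ × ℕ, ENNReal.ofReal (1 / (lam M k + 1) ^ 2) *
        ∫⁻ x in A ∩ Sq x₀ y₀ M, ENNReal.ofReal (ef x₀ y₀ M k x ^ 2)

/-- CMP: Rellich's theorem -/
def CmpStatement : Prop :=
  ∀ Ω : Set P2, IsOpen Ω → Bornology.IsBounded Ω → IsCompactOperator (co Ω 0)

/-- FSP: the Hilbert–Schmidt norm is determined by the spectrum -/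
def FspStatement : Prop :=
  ∀ Ω Ω' : Set P2, IsOpen Ω → IsOpen Ω' → Bornology.IsBounded Ω → Bornology.IsBounded Ω' →
    IsoSp Ω Ω' → hs (res Ω) = hs (res Ω')

/-- THT: the heat kernel of an interval on the diagonal -/
def ThtStatement : Prop :=
  ∀ M t x : ℝ, 0 < M → 0 < t →
    Summable (fun m : ℕ => Real.exp (-(Real.pi ^ 2 * (m : ℝ) ^ 2 * t / M ^ 2)) *
      Real.sin (m * Real.pi * x / M) ^ 2) ∧
    (2 / M) * ∑' m : ℕ, Real.exp (-(Real.pi ^ 2 * (m : ℝ) ^ 2 * t / M ^ 2)) *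
      Real.sin (m * Real.pi * x / M) ^ 2 ≤
    (1 - Real.exp (-(x ^ 2 / t)) + Real.pi ^ 2 / 3 * t / M ^ 2) / Real.sqrt (4 * Real.pi * t)

/-- PSI: the boundary layer function -/
def PsiStatement : Prop :=
  (∀ y, 0 ≤ psi y ∧ psi y ≤ 1) ∧ Continuous psi ∧
  ∀ h : ℝ, 0 < h → Real.pi / 4 - 1 / (2 * h) ≤ ∫ y in (0 : ℝ)..h, psi y * (1 - y / h)

/-- PTW: pointwise bound near a side of a large square -/
def PtwStatement : Prop :=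
  ∃ C : ℝ, 0 < C ∧ ∀ (x₀ M : ℝ) (x : P2), 1 ≤ M →
    ∑' k : ℕ × ℕ, ENNReal.ofReal (1 / (lam M k + 1) ^ 2) * ENNReal.ofReal (ef x₀ 0 M k x ^ 2) ≤
      ENNReal.ofReal ((1 - psi x.2) / (4 * Real.pi) + C / M ^ 2)

/-- THA: upper bound near a side of a large square -/
def ThaStatement : Prop :=
  ∃ C : ℝ, 0 < C ∧ ∀ (x₀ M : ℝ) (A : Set P2), 1 ≤ M → MeasurableSet A → A ⊆ Sq x₀ 0 M →
    hs ((ind A).comp (res (Sq x₀ 0 M))) ≤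
      ENNReal.ofReal ((∫ x in A, (1 - psi x.2)) / (4 * Real.pi) + C * volume.real A / M ^ 2)

/-- THB: lower bound for a square -/
def ThbStatement : Prop :=
  ∀ x₀ y₀ L : ℝ, 0 < L →
    ENNReal.ofReal (L ^ 2 / (4 * Real.pi) - L / 4) ≤ hs (res (Sq x₀ y₀ L))

/-! ## 4. Area and perimeter -/

/-- SUP: superadditivity -/
def SupStatement : Prop :=
  ∀ (n : ℕ) (S : Fin n → Set P2) (Ω : Set P2), (∀ i, IsOpen (S i)) → IsOpen Ω →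
    (∀ i, S i ⊆ Ω) → (∀ i j, i ≠ j → Disjoint (S i) (S j)) →
    ∑ i, hs (res (S i)) ≤ hs (res Ω)

/-- GRD: filling a domain with squares -/
def GrdStatement : Prop :=
  ∀ Ω : Set P2, IsOpen Ω → Bornology.IsBounded Ω → ∀ ε : ℝ, 0 < ε →
    ∃ (n : ℕ) (c : Fin n → P2) (h : ℝ), 0 < h ∧ (∀ i, Sq (c i).1 (c i).2 h ⊆ Ω) ∧
      (∀ i j, i ≠ j → Disjoint (Sq (c i).1 (c i).2 h) (Sq (c j).1 (c j).2 h)) ∧
      volume.real Ω - ε ≤ n * h ^ 2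

/-- UPV: upper bound by the area -/
def UpvStatement : Prop :=
  ∀ Ω : Set P2, IsOpen Ω → Bornology.IsBounded Ω →
    hs (res Ω) ≤ ENNReal.ofReal (volume.real Ω / (4 * Real.pi))

/-- ARE: the spectrum determines the area -/
def AreStatement : Prop :=
  ∀ Ω Ω' : Set P2, IsOpen Ω → IsOpen Ω' → Bornology.IsBounded Ω → Bornology.IsBounded Ω' →
    IsoSp Ω Ω' → volume.real Ω = volume.real Ω'

/-- TRI: bound in a triangle over a side -/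
def TriStatement : Prop :=
  ∀ (Q : Set P2) (p q r h : ℝ), IsOpen Q → Bornology.IsBounded Q → (∀ x ∈ Q, 0 < x.2) →
    p < q → 0 < h → tri p q r h ⊆ Q →
    hs ((ind (tri p q r h)).comp (res Q)) ≤
      ENNReal.ofReal (((q - p) * h / 2 - (q - p) * (Real.pi / 4 - 1 / (2 * h))) /
        (4 * Real.pi))

/-- QDA: convex quadrilaterals and their bilinear parametrisation -/
def QdaStatement : Prop :=
  ∀ q : Fin 4 → P2, Ccw q →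
    quad q = bil (qc q) (qa q) (qb q) (qw q) '' D ∧
    InjOn (bil (qc q) (qa q) (qb q) (qw q)) D ∧
    (∃ c : ℝ, 0 < c ∧ ∀ x ∈ D, c ≤ det2 (qa q + x.2 • qw q) (qb q + x.1 • qw q)) ∧
    Bornology.IsBounded (quad q) ∧
    (∀ x, x ∈ quad q ↔ ∀ i, 0 < det2 (q (i + 1) - q i) (x - q i))

/-- QDB: the area -/
def QdbStatement : Prop :=
  ∀ q : Fin 4 → P2, Ccw q → volume.real (quad q) = det2 (qa q) (qb q)

/-- the triangle with vertices `qc q`, `q i`, `q (i + 1)` -/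
def sect (q : Fin 4 → P2) (i : Fin 4) : Set P2 :=
  {x | 0 < det2 (q (i + 1) - q i) (x - q i) ∧ 0 < det2 (q i - qc q) (x - qc q) ∧
    0 < det2 (x - qc q) (q (i + 1) - qc q)}

/-- UPA: bound in the triangle over the side `i` -/
def UpaStatement : Prop :=
  ∀ q : Fin 4 → P2, Ccw q → ∀ i : Fin 4, ∀ l h : ℝ, l = nrm (q (i + 1) - q i) →
    h = det2 (q (i + 1) - q i) (qc q - q i) / l → 0 < l ∧ 0 < h ∧
    hs ((ind (sect q i)).comp (res (quad q))) ≤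
      ENNReal.ofReal ((l * h / 2 - l * (Real.pi / 4 - 1 / (2 * h))) / (4 * Real.pi))

/-- UPG: the four triangles -/
def UpgStatement : Prop :=
  ∀ q : Fin 4 → P2, Ccw q →
    (∀ i, IsOpen (sect q i)) ∧ (∀ i, sect q i ⊆ quad q) ∧
    (∀ i j, i ≠ j → Disjoint (sect q i) (sect q j)) ∧
    (volume (quad q \ ⋃ i, sect q i) = 0) ∧
    (∑ i, det2 (q (i + 1) - q i) (qc q - q i) / 2 = det2 (qa q) (qb q)) ∧
    (∀ i, 0 < det2 (q (i + 1) - q i) (qc q - q i)) ∧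
    (∀ i, 2 * nrm (q (i + 1) - q i) * det2 (qa q) (qb q) ≤
      4 * det2 (q (i + 1) - q i) (qc q - q i) * per q)

/-- UPQ: upper bound by area and perimeter -/
def UpqStatement : Prop :=
  ∀ q : Fin 4 → P2, Ccw q →
    hs (res (quad q)) ≤ ENNReal.ofReal (det2 (qa q) (qb q) / (4 * Real.pi) - per q / 16 +
      per q ^ 2 / (4 * Real.pi * det2 (qa q) (qb q)))

/-- GLA: nearly square quadrilaterals contain a large square -/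
def GlaStatement : Prop :=
  ∀ (ε : ℝ) (p : Fin 4 → P2), 0 < ε → ε < 1 / 20 → Ccw p →
    (∀ i, |(p i).1 - (cor i).1| ≤ ε ∧ |(p i).2 - (cor i).2| ≤ ε) →
    Sq (-1/2 + 4 * ε) (-1/2 + 4 * ε) (1 - 8 * ε) ⊆ quad p ∧
    det2 (qa p) (qb p) ≤ (1 + 4 * ε) ^ 2

/-- GLB: a quadrilateral isospectral to a nearly square one has nearly the perimeter of a
square -/
def GlbStatement : Prop :=
  ∀ η : ℝ, 0 < η → ∃ ε : ℝ, 0 < ε ∧ ∀ p q : Fin 4 → P2, Ccw p → Ccw q →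
    (∀ i, |(p i).1 - (cor i).1| ≤ ε ∧ |(p i).2 - (cor i).2| ≤ ε) →
    IsoSp (quad p) (quad q) → 1 - η ≤ det2 (qa q) (qb q) ∧ per q ≤ 4 + η

/-- GEO: stability of the isoperimetric inequality for quadrilaterals -/
def GeoStatement : Prop :=
  ∀ κ : ℝ, 0 < κ → ∃ η : ℝ, 0 < η ∧ ∀ q : Fin 4 → P2, Ccw q →
    1 - η ≤ det2 (qa q) (qb q) → per q ≤ 4 + η →
    |dot2 (qa q) (qa q) - 1| ≤ κ ∧ |dot2 (qb q) (qb q) - 1| ≤ κ ∧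
      |dot2 (qa q) (qb q)| ≤ κ ∧ dot2 (qw q) (qw q) ≤ κ

/-- NFM: normal form of a nearly square quadrilateral -/
def NfmStatement : Prop :=
  ∀ ε : ℝ, 0 < ε → ∃ κ : ℝ, 0 < κ ∧ ∀ q : Fin 4 → P2, Ccw q →
    |dot2 (qa q) (qa q) - 1| ≤ κ → |dot2 (qb q) (qb q) - 1| ≤ κ →
    |dot2 (qa q) (qb q)| ≤ κ → dot2 (qw q) (qw q) ≤ κ →
    ∃ z : Z5, ‖z‖ < ε ∧ Cong (quad q) (dom z)

/-- CYC: ordering the vertices of a convex quadrilateral -/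
def CycStatement : Prop :=
  ∀ p : Fin 4 → P2, (∀ i, p i ∉ convexHull ℝ (p '' {j | j ≠ i})) →
    ∃ σ : Equiv.Perm (Fin 4), Ccw (p ∘ σ)

/-! ## 5. Lyapunov–Schmidt reduction -/

/-- data of the reduction: `A z u = l' B z u` near a multiple eigenvalue `l` of `z = 0` -/
structure LSHyp {E : Type} [NormedAddCommGroup E] [InnerProductSpace ℝ E] [CompleteSpace E]
    {k : ℕ} (A B : Z5 → E →L[ℝ] E) (l : ℝ) (v : Fin k → E) : Prop where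
  anA : AnalyticAt ℝ A 0
  anB : AnalyticAt ℝ B 0
  symA : ∀ z x y, ⟪A z x, y⟫_ℝ = ⟪x, A z y⟫_ℝ
  symB : ∀ z x y, ⟪B z x, y⟫_ℝ = ⟪x, B z y⟫_ℝ
  orth : ∀ i j, ⟪v i, B 0 (v j)⟫_ℝ = if i = j then 1 else 0
  eig : ∀ i, A 0 (v i) = l • B 0 (v i)
  ker : ∀ x, A 0 x = l • B 0 x → x ∈ Submodule.span ℝ (Set.range v)
  rng : ∀ u, (∀ i, ⟪v i, u⟫_ℝ = 0) → ∃ x, A 0 x - l • B 0 x = u

/-- a solution of the reduction -/
structure LSSol {E : Type} [NormedAddCommGroup E] [InnerProductSpace ℝ E] [CompleteSpace E]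
    {k : ℕ} (A B : Z5 → E →L[ℝ] E) (l : ℝ) (v : Fin k → E) (X : Z5 → Fin k → E)
    (Lm : Z5 → Fin k → Fin k → ℝ) : Prop where
  anX : AnalyticAt ℝ X 0
  anL : AnalyticAt ℝ Lm 0
  X0 : X 0 = 0
  L0 : ∀ i j, Lm 0 i j = if i = j then l else 0
  perp : ∀ᶠ z in 𝓝 (0 : Z5), ∀ i j, ⟪v i, X z j⟫_ℝ = 0
  eq : ∀ᶠ z in 𝓝 (0 : Z5), ∀ j, A z (v j + X z j) = ∑ i, Lm z i j • B z (v i + X z i)

/-- IFT: existence of the reduction -/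
def IftStatement : Prop :=
  ∀ (E : Type) [NormedAddCommGroup E] [InnerProductSpace ℝ E] [CompleteSpace E] (k : ℕ)
    (A B : Z5 → E →L[ℝ] E) (l : ℝ) (v : Fin k → E), LSHyp A B l v →
    ∃ X Lm, LSSol A B l v X Lm

/-- KER: the reduction computes the kernels -/
def KerStatement : Prop :=
  ∀ (E : Type) [NormedAddCommGroup E] [InnerProductSpace ℝ E] [CompleteSpace E] (k : ℕ)
    (A B : Z5 → E →L[ℝ] E) (l : ℝ) (v : Fin k → E) (X : Z5 → Fin k → E)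
    (Lm : Z5 → Fin k → Fin k → ℝ), LSHyp A B l v → LSSol A B l v X Lm →
    ∃ ε : ℝ, 0 < ε ∧ ∀ᶠ z in 𝓝 (0 : Z5), ∀ l' : ℝ, |l' - l| < ε →
      Module.finrank ℝ (LinearMap.ker ((A z - l' • B z : E →L[ℝ] E) : E →ₗ[ℝ] E)) =
      Module.finrank ℝ (LinearMap.ker (Matrix.toLin' (Matrix.of (Lm z) - l' • 1)))

/-- GRM: the reduced matrix is symmetric for a scalar product -/
def GrmStatement : Prop :=
  ∀ (E : Type) [NormedAddCommGroup E] [InnerProductSpace ℝ E] [CompleteSpace E] (k : ℕ)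
    (A B : Z5 → E →L[ℝ] E) (l : ℝ) (v : Fin k → E) (X : Z5 → Fin k → E)
    (Lm : Z5 → Fin k → Fin k → ℝ), LSHyp A B l v → LSSol A B l v X Lm →
    ∀ᶠ z in 𝓝 (0 : Z5), ∃ G : Matrix (Fin k) (Fin k) ℝ, G.PosDef ∧
      (G * Matrix.of (Lm z)).IsSymm

/-- LIN: linear algebra of 2 × 2 matrices -/
def LinStatement : Prop :=
  ∀ (L L' G G' : Matrix (Fin 2) (Fin 2) ℝ) (l ε : ℝ), G.PosDef → G'.PosDef →
    (G * L).IsSymm → (G' * L').IsSymm →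
    (∀ i j, |L i j - (if i = j then l else 0)| < ε / 4) →
    (∀ i j, |L' i j - (if i = j then l else 0)| < ε / 4) →
    (∀ l' : ℝ, |l' - l| < ε →
      Module.finrank ℝ (LinearMap.ker (Matrix.toLin' (L - l' • 1))) =
      Module.finrank ℝ (LinearMap.ker (Matrix.toLin' (L' - l' • 1)))) →
    (L 0 0 - L 1 1) ^ 2 + 4 * L 0 1 * L 1 0 = (L' 0 0 - L' 1 1) ^ 2 + 4 * L' 0 1 * L' 1 0

/-- SEC: second order expansion of the reduced matrix along a curve -/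
def SecStatement : Prop :=
  ∀ (E : Type) [NormedAddCommGroup E] [InnerProductSpace ℝ E] [CompleteSpace E] (k : ℕ)
    (A B : Z5 → E →L[ℝ] E) (l : ℝ) (v : Fin k → E) (X : Z5 → Fin k → E)
    (Lm : Z5 → Fin k → Fin k → ℝ), LSHyp A B l v → LSSol A B l v X Lm →
    ∀ (γ : ℝ → Z5) (T0 T1 T2 : E →L[ℝ] E), AnalyticAt ℝ γ 0 → γ 0 = 0 →
    (fun t : ℝ => (A (γ t) - l • B (γ t)) - (T0 + t • T1 + t ^ 2 • T2)) =O[𝓝 0]
      (fun t : ℝ => t ^ 3) →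
    (∀ i j, ⟪v i, T1 (v j)⟫_ℝ = 0) → ∀ x : Fin k → E, (∀ j, T0 (x j) = -T1 (v j)) →
    ∀ i j, (fun t : ℝ => Lm (γ t) i j - (if i = j then l else 0) -
      t ^ 2 * (⟪v i, T2 (v j)⟫_ℝ + ⟪v i, T1 (x j)⟫_ℝ)) =O[𝓝 0] (fun t : ℝ => t ^ 3)

/-! ## 6. The family of operators on the unit square -/

/-- ANA: analyticity -/
def AnaStatement : Prop := AnalyticAt ℝ AA 0 ∧ AnalyticAt ℝ BB 0

/-- OPX: expansion along curves -/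
def OpxStatement : Prop :=
  ∀ l a b δ τ : ℝ,
    (fun t : ℝ => (AA (curve a b δ τ t) - l • BB (curve a b δ τ t)) -
      (K0 l + t • K1 l a b + t ^ 2 • K2 a b δ τ)) =O[𝓝 0] (fun t : ℝ => t ^ 3)

/-- BIL: the spectrum of `dom z` -/
def BilStatement : Prop :=
  ∀ᶠ z in 𝓝 (0 : Z5), IsOpen (dom z) ∧ Bornology.IsBounded (dom z) ∧
    volume.real (dom z) = det2 (va z) (vb z) ∧ ∀ l : ℝ,
      mult (dom z) l = Module.finrank ℝ (LinearMap.ker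
        ((AA z - l • BB z : H D →L[ℝ] H D) : H D →ₗ[ℝ] H D))

/-- EVD: the eigenfunctions of the unit square -/
def EvdStatement : Prop :=
  (∀ k, ((ev k : H D) : LL) = ET (-1/2) (-1/2) 1 k) ∧
  (∀ k (F : H D), ⟪ev k, F⟫_ℝ = (lam 1 k + 1) * ⟪ET (-1/2) (-1/2) 1 k 0, (F : LL) 0⟫_ℝ) ∧
  (∀ l k (F : H D), ⟪ev k, K0 l F⟫_ℝ = (lam 1 k - l) * ⟪ET (-1/2) (-1/2) 1 k 0, (F : LL) 0⟫_ℝ) ∧
  (∀ k l : ℕ × ℕ, ⟪((ev k : H D) : LL) 0, ((ev l : H D) : LL) 0⟫_ℝ =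
    if k = l ∧ 0 < k.1 ∧ 0 < k.2 then 1 else 0) ∧
  (∀ F : H D, ∀ f : L2, HasSum (fun k : ℕ × ℕ =>
    ⟪((ev k : H D) : LL) 0, (F : LL) 0⟫_ℝ * ⟪((ev k : H D) : LL) 0, f⟫_ℝ) ⟪(F : LL) 0, f⟫_ℝ)

/-- FRE: the Lyapunov–Schmidt data at the eigenvalues of the unit square -/
def FreStatement : Prop :=
  ∀ m n : ℕ, 0 < m → 0 < n → Uniq m n →
    (m ≠ n → LSHyp AA BB (lam 1 (m, n)) ![ev (m, n), ev (n, m)]) ∧
    (m = n → LSHyp AA BB (lam 1 (m, n)) ![ev (m, n)])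

/-- the function representing `K1 (ev i)` -/
noncomputable def gf (a b : ℝ) (i : ℕ × ℕ) (x : P2) : ℝ :=
  a * (-(4 * (i.1 * Real.pi) ^ 2 * x.2 * (Real.sin (i.1 * Real.pi * (x.1 + 1/2)) *
      Real.sin (i.2 * Real.pi * (x.2 + 1/2)))) +
    4 * i.1 * i.2 * Real.pi ^ 2 * x.1 * (Real.cos (i.1 * Real.pi * (x.1 + 1/2)) *
      Real.cos (i.2 * Real.pi * (x.2 + 1/2)))) +
  b * (-(4 * (i.2 * Real.pi) ^ 2 * x.1 * (Real.sin (i.1 * Real.pi * (x.1 + 1/2)) *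
      Real.sin (i.2 * Real.pi * (x.2 + 1/2)))) +
    4 * i.1 * i.2 * Real.pi ^ 2 * x.2 * (Real.cos (i.1 * Real.pi * (x.1 + 1/2)) *
      Real.cos (i.2 * Real.pi * (x.2 + 1/2))))

/-- TRG: integrals of trigonometric functions -/
def TrgStatement : Prop :=
  ∀ m n : ℕ, 0 < m → 0 < n →
    (∫ x in (-1/2 : ℝ)..(1/2), 2 * (Real.sin (m * Real.pi * (x + 1/2)) *
      Real.sin (n * Real.pi * (x + 1/2))) = if m = n then 1 else 0) ∧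
    (∫ x in (-1/2 : ℝ)..(1/2), 2 * (Real.cos (m * Real.pi * (x + 1/2)) *
      Real.cos (n * Real.pi * (x + 1/2))) = if m = n then 1 else 0) ∧
    (∫ x in (-1/2 : ℝ)..(1/2), 2 * (Real.cos (m * Real.pi * (x + 1/2)) *
      Real.sin (n * Real.pi * (x + 1/2))) = if (m + n) % 2 = 1 then I0 m n else 0) ∧
    (∫ x in (-1/2 : ℝ)..(1/2), 2 * x * (Real.sin (m * Real.pi * (x + 1/2)) *
      Real.sin (n * Real.pi * (x + 1/2))) = if (m + n) % 2 = 1 then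
        -8 * (m : ℝ) * n / (Real.pi ^ 2 * ((n : ℝ) ^ 2 - (m : ℝ) ^ 2) ^ 2) else 0) ∧
    (∫ x in (-1/2 : ℝ)..(1/2), 2 * x * (Real.cos (m * Real.pi * (x + 1/2)) *
      Real.sin (n * Real.pi * (x + 1/2))) = if (m + n) % 2 = 1 then 0 else
        if m = n then -1 / (2 * Real.pi * m) else
          -2 * (n : ℝ) / (Real.pi * ((n : ℝ) ^ 2 - (m : ℝ) ^ 2))) ∧
    (∫ x in (-1/2 : ℝ)..(1/2), 2 * x ^ 2 * (Real.cos (m * Real.pi * (x + 1/2)) *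
      Real.sin (n * Real.pi * (x + 1/2))) = if (m + n) % 2 = 1 then I2 m n else 0) ∧
    (∫ x in (-1/2 : ℝ)..(1/2), 2 * x ^ 2 * Real.cos (m * Real.pi * (x + 1/2)) ^ 2 =
      1 / 12 + 1 / (2 * Real.pi ^ 2 * (m : ℝ) ^ 2)) ∧
    (∫ x in (-1/2 : ℝ)..(1/2), 2 * x ^ 2 * Real.sin (m * Real.pi * (x + 1/2)) ^ 2 =
      1 / 12 - 1 / (2 * Real.pi ^ 2 * (m : ℝ) ^ 2))

/-- GEL: integration by parts for `K1` -/
def GelStatement : Prop :=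
  ∀ (i : ℕ × ℕ) (a b : ℝ) (F : H D),
    ⟪K1 (lam 1 i) a b (ev i), F⟫_ℝ = ⟪cl (D.indicator (gf a b i)), (F : LL) 0⟫_ℝ

/-- MEL: the matrix elements -/
def MelStatement : Prop :=
  ∀ (i k : ℕ × ℕ) (a b : ℝ), 0 < i.1 → 0 < i.2 →
    ⟪cl (D.indicator (gf a b i)), ET (-1/2) (-1/2) 1 k 0⟫_ℝ = Wm a b i k

/-- NRG: the norm of the first order term -/
def NrgStatement : Prop :=
  ∀ i : ℕ × ℕ, 0 < i.1 → 0 < i.2 → HasSum (fun k : ℕ × ℕ => Pm i k ^ 2) (G2 i.1 i.2)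

/-- SER: the second order sum -/
def SerStatement : Prop :=
  ∀ (i j : ℕ × ℕ) (a b : ℝ), 0 < i.1 → 0 < i.2 → 0 < j.1 → 0 < j.2 →
    lam 1 i = lam 1 j → (∀ k, lam 1 k = lam 1 i → Wm a b i k = 0) →
    ∀ x : H D, K0 (lam 1 i) x = -K1 (lam 1 i) a b (ev j) →
      ⟪ev i, K1 (lam 1 i) a b x⟫_ℝ = -SS a b i j / Real.pi ^ 2

/-- KEV: the values of `K2` -/
def KevStatement : Prop :=
  (∀ (m n : ℕ) (a b δ τ : ℝ), 0 < m → 0 < n →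
    ⟪ev (m, n), K2 a b δ τ (ev (m, n))⟫_ℝ =
      a ^ 2 * bas m n + b ^ 2 * bas n m - 2 * δ * Real.pi ^ 2 * ((m : ℝ) ^ 2 - (n : ℝ) ^ 2)) ∧
  (∀ m n : ℕ, 0 < m → 0 < n → m ≠ n → (m + n) % 2 = 0 → ∃ b₀ : ℝ, ∀ a b δ τ : ℝ,
    ⟪ev (m, n), K2 a b δ τ (ev (n, m))⟫_ℝ = b₀ * (a ^ 2 + b ^ 2)) ∧
  (∀ (m n : ℕ) (a b δ τ : ℝ), 0 < m → 0 < n → (m + n) % 2 = 1 →
    ⟪ev (m, n), K2 a b δ τ (ev (n, m))⟫_ℝ =
      a * b * (2 * Real.pi ^ 2 * ((m : ℝ) ^ 2 * I2 m n * I0 m n +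
        (n : ℝ) ^ 2 * I2 n m * I0 n m)) + ka1 m n * τ)

/-! ## 7. The spectral invariants -/

/-- CLX: the discriminant of a double eigenvalue -/
def ClxStatement : Prop :=
  ∀ m n : ℕ, 0 < m → m < n → Uniq m n → ∃ f : Z5 → ℝ, AnalyticAt ℝ f 0 ∧ f 0 = 0 ∧
    (∀ᶠ p in 𝓝 ((0, 0) : Z5 × Z5), IsoSp (dom p.1) (dom p.2) → f p.1 = f p.2) ∧
    ((fun t : ℝ => f ![t, 0, 0, 0, 0]) =O[𝓝 0] (fun t : ℝ => t ^ 2)) ∧
    ∀ a b δ τ : ℝ, (fun t : ℝ => f (curve a b δ τ t) - t ^ 4 *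
      (((⟪ev (m, n), K2 a b δ τ (ev (m, n))⟫_ℝ - SS a b (m, n) (m, n) / Real.pi ^ 2) -
        (⟪ev (n, m), K2 a b δ τ (ev (n, m))⟫_ℝ - SS a b (n, m) (n, m) / Real.pi ^ 2)) ^ 2 +
      4 * (⟪ev (m, n), K2 a b δ τ (ev (n, m))⟫_ℝ - SS a b (m, n) (n, m) / Real.pi ^ 2) ^ 2))
      =O[𝓝 0] (fun t : ℝ => t ^ 5)

/-- CLO: the simple eigenvalue `(1, 1)` -/
def CloStatement : Prop :=
  ∃ f : Z5 → ℝ, AnalyticAt ℝ f 0 ∧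
    (∀ᶠ p in 𝓝 ((0, 0) : Z5 × Z5), IsoSp (dom p.1) (dom p.2) → f p.1 = f p.2) ∧
    (fun t : ℝ => f (curve 1 0 0 0 t) - f 0 - t ^ 2 * BN 1 1) =O[𝓝 0] (fun t : ℝ => t ^ 3)

/-- SSM: symmetries of the sums -/
def SsmStatement : Prop :=
  (∀ (i : ℕ × ℕ), 0 < i.1 → 0 < i.2 → SS 1 1 i i = SS 1 1 i.swap i.swap) ∧
  (∀ i : ℕ × ℕ, 0 < i.1 → 0 < i.2 → (i.1 + i.2) % 2 = 0 →
    SS 1 1 i i.swap = 2 * SS 1 0 i i.swap)

/-- INE: invariants from the clusters with `m ≡ n` mod 2 -/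
def IneStatement : Prop :=
  ∀ m n : ℕ, 0 < m → m < n → (m + n) % 2 = 0 → Uniq m n → ∃ (f : Z5 → ℝ) (b : ℝ),
    AnalyticAt ℝ f 0 ∧ f 0 = 0 ∧
    (∀ᶠ p in 𝓝 ((0, 0) : Z5 × Z5), IsoSp (dom p.1) (dom p.2) → f p.1 = f p.2) ∧
    ((fun t : ℝ => f ![t, 0, 0, 0, 0]) =O[𝓝 0] (fun t : ℝ => t ^ 2)) ∧
    (∀ s : ℝ, (fun t : ℝ => f (curve 1 0 s 0 t) -
      t ^ 4 * (4 * ((al m n * s + be m n) ^ 2 + b ^ 2))) =O[𝓝 0] (fun t : ℝ => t ^ 5)) ∧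
    (∀ s : ℝ, (fun t : ℝ => f (curve 1 1 0 s t) - t ^ 4 * (16 * b ^ 2)) =O[𝓝 0]
      (fun t : ℝ => t ^ 5))

/-- INO: invariants from the clusters with `m ≢ n` mod 2 -/
def InoStatement : Prop :=
  ∀ m n : ℕ, 0 < m → m < n → (m + n) % 2 = 1 → Uniq m n → ∃ f : Z5 → ℝ,
    AnalyticAt ℝ f 0 ∧ f 0 = 0 ∧
    (∀ᶠ p in 𝓝 ((0, 0) : Z5 × Z5), IsoSp (dom p.1) (dom p.2) → f p.1 = f p.2) ∧
    ((fun t : ℝ => f ![t, 0, 0, 0, 0]) =O[𝓝 0] (fun t : ℝ => t ^ 2)) ∧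
    (∀ s : ℝ, (fun t : ℝ => f (curve 1 1 0 s t) -
      t ^ 4 * (4 * (ka1 m n * s + ka2 m n) ^ 2)) =O[𝓝 0] (fun t : ℝ => t ^ 5))

/-! ## 8. Invariant functions -/

/-- WRD: an analytic function of `n` variables as an absolutely convergent power series -/
def WrdStatement : Prop :=
  ∀ (n : ℕ) (f : (Fin n → ℝ) → ℝ), AnalyticAt ℝ f 0 →
    ∃ (c : (Σ k : ℕ, (Fin k → Fin n)) → ℝ) (r : ℝ), 0 < r ∧
      Summable (fun w => |c w| * r ^ w.1) ∧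
      ∀ z : Fin n → ℝ, ‖z‖ ≤ r → HasSum (fun w => c w * ∏ i, z (w.2 i)) (f z)

/-- PSA: absolutely convergent power series are analytic -/
def PsaStatement : Prop :=
  ∀ (n : ℕ) (ι : Type) (c : ι → ℝ) (α : ι → Fin n → ℕ) (r : ℝ), 0 < r →
    Summable (fun i => |c i| * r ^ (∑ j, α i j)) →
    AnalyticAt ℝ (fun z : Fin n → ℝ => ∑' i, c i * ∏ j, z j ^ α i j) 0

/-- IVA: averaging over the sign changes -/
def IvaStatement : Prop :=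
  ∀ f : Z5 → ℝ, AnalyticAt ℝ f 0 → (∀ᶠ z in 𝓝 (0 : Z5), f (symX z) = f z) →
    (∀ᶠ z in 𝓝 (0 : Z5), f (symY z) = f z) →
    ∃ G : (Fin 6 → ℝ) → ℝ, AnalyticAt ℝ G 0 ∧ ∀ᶠ z in 𝓝 (0 : Z5),
      f z = G ![z 0, z 1, z 2 ^ 2, z 2 * z 3 * z 4, z 3 ^ 2, z 4 ^ 2]

/-- IVB: invariant functions are functions of the seven basic invariants -/
def IvbStatement : Prop :=
  ∀ f : Z5 → ℝ, AnalyticAt ℝ f 0 → (∀ᶠ z in 𝓝 (0 : Z5), f (symX z) = f z) →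
    (∀ᶠ z in 𝓝 (0 : Z5), f (symY z) = f z) → (∀ᶠ z in 𝓝 (0 : Z5), f (symS z) = f z) →
    ∃ Φ : (Fin 7 → ℝ) → ℝ, AnalyticAt ℝ Φ 0 ∧ ∀ᶠ z in 𝓝 (0 : Z5), f z = Φ (gen z)

/-- EXE: the differential of `Φ`, clusters with `m ≡ n` -/
def ExeStatement : Prop :=
  ∀ (f : Z5 → ℝ) (Φ : (Fin 7 → ℝ) → ℝ) (α β b : ℝ), AnalyticAt ℝ Φ 0 →
    (∀ᶠ z in 𝓝 (0 : Z5), f z = Φ (gen z)) → f 0 = 0 →
    ((fun t : ℝ => f ![t, 0, 0, 0, 0]) =O[𝓝 0] (fun t : ℝ => t ^ 2)) →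
    (∀ s : ℝ, (fun t : ℝ => f (curve 1 0 s 0 t) - t ^ 4 * (4 * ((α * s + β) ^ 2 + b ^ 2)))
      =O[𝓝 0] (fun t : ℝ => t ^ 5)) →
    (∀ s : ℝ, (fun t : ℝ => f (curve 1 1 0 s t) - t ^ 4 * (16 * b ^ 2)) =O[𝓝 0]
      (fun t : ℝ => t ^ 5)) →
    ∀ v : Fin 7 → ℝ, fderiv ℝ Φ 0 v = 4 * (α ^ 2 * v 4 + 2 * α * β * v 5 + β ^ 2 * v 6)

/-- EXO: the differential of `Φ`, clusters with `m ≢ n` -/
def ExoStatement : Prop :=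
  ∀ (f : Z5 → ℝ) (Φ : (Fin 7 → ℝ) → ℝ) (κ₁ κ₂ : ℝ), AnalyticAt ℝ Φ 0 →
    (∀ᶠ z in 𝓝 (0 : Z5), f z = Φ (gen z)) → f 0 = 0 →
    ((fun t : ℝ => f ![t, 0, 0, 0, 0]) =O[𝓝 0] (fun t : ℝ => t ^ 2)) →
    (∀ s : ℝ, (fun t : ℝ => f (curve 1 1 0 s t) - t ^ 4 * (4 * (κ₁ * s + κ₂) ^ 2)) =O[𝓝 0]
      (fun t : ℝ => t ^ 5)) →
    ∀ v : Fin 7 → ℝ, v 4 = 0 → v 5 = 0 → v 6 = 0 →
      fderiv ℝ Φ 0 v = 4 * (κ₁ ^ 2 * v 2 + 2 * κ₁ * κ₂ * v 3)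

/-- EXU: the derivative of `Φ` in the direction of `w₁² + w₂²` -/
def ExuStatement : Prop :=
  ∀ (f : Z5 → ℝ) (Φ : (Fin 7 → ℝ) → ℝ) (B : ℝ), AnalyticAt ℝ Φ 0 →
    (∀ᶠ z in 𝓝 (0 : Z5), f z = Φ (gen z)) →
    (fun t : ℝ => f (curve 1 0 0 0 t) - f 0 - t ^ 2 * B) =O[𝓝 0] (fun t : ℝ => t ^ 3) →
    ∀ v : Fin 7 → ℝ, v 0 = 0 → v 2 = 0 → v 3 = 0 → v 4 = 0 → v 5 = 0 → v 6 = 0 →
      fderiv ℝ Φ 0 v = B * v 1

/-- SYM: the symmetries of the square -/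
def SymStatement : Prop :=
  ∀ z : Z5, Cong (dom z) (dom (symX z)) ∧ Cong (dom z) (dom (symY z)) ∧
    Cong (dom z) (dom (symS z))

/-- ORB: the seven invariants separate the orbits -/
def OrbStatement : Prop :=
  ∀ z z' : Z5, gen z = gen z' → Relation.ReflTransGen
    (fun u v => v = symX u ∨ v = symY u ∨ v = symS u) z z'

/-! ## 9. Numbers -/

/-- TLB: tails of the sums -/
def TlbStatement : Prop :=
  (∀ (m n : ℕ) (S : Finset (ℕ × ℕ)) (e : ℝ), 0 < m → 0 < n → 0 < e →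
    (∀ k ∉ S, Pm (m, n) k ≠ 0 → e ≤ En (m, n) k) →
    |SS 1 0 (m, n) (m, n) - ∑ k ∈ S, Pm (m, n) k ^ 2 / En (m, n) k -
      (G2 m n - ∑ k ∈ S, Pm (m, n) k ^ 2) / (2 * e)| ≤
      (G2 m n - ∑ k ∈ S, Pm (m, n) k ^ 2) / (2 * e)) ∧
  (∀ (m n : ℕ) (S : Finset (ℕ × ℕ)) (e : ℝ), 0 < m → 0 < n → (m + n) % 2 = 1 → 0 < e →
    (∀ k ∉ S, Wm 1 1 (m, n) k ≠ 0 → Wm 1 1 (n, m) k ≠ 0 → e ≤ En (m, n) k) →
    |SS 1 1 (m, n) (n, m) - ∑ k ∈ S, Wm 1 1 (m, n) k * Wm 1 1 (n, m) k / En (m, n) k| ≤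
      (G2 m n + G2 n m - ∑ k ∈ S, (Wm 1 1 (m, n) k ^ 2 + Wm 1 1 (n, m) k ^ 2) / 2) / e)

/-- NUA, NUB, NUC, NUD, NUE, NUF: the numbers -/
def NuaStatement : Prop := 0 < BN 1 1
def NubStatement : Prop := al 1 3 / 20 < be 1 3 ∧ be 1 3 < al 1 3 / 10
def NucStatement : Prop := be 2 4 < 0
def NudStatement : Prop := al 1 5 / 5 < be 1 5
def NueStatement : Prop := ka1 1 2 / 2 < ka2 1 2
def NufStatement : Prop := ka2 1 4 < ka1 1 4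

/-! ## 10. Conclusion -/

/-- SEP: seven functions with the given differentials separate near zero -/
def SepStatement : Prop :=
  ∀ (Φ : Fin 7 → (Fin 7 → ℝ) → ℝ) (α β : Fin 3 → ℝ) (κ₁ κ₂ : Fin 2 → ℝ) (B : ℝ),
    (∀ i, AnalyticAt ℝ (Φ i) 0) →
    (∀ g, Φ 0 g = (1 + g 0) ^ 2 - g 4 - g 2) →
    (∀ v : Fin 7 → ℝ, v 0 = 0 → v 2 = 0 → v 3 = 0 → v 4 = 0 → v 5 = 0 → v 6 = 0 →
      fderiv ℝ (Φ 1) 0 v = B * v 1) → B ≠ 0 →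
    (∀ v : Fin 7 → ℝ, v 4 = 0 → v 5 = 0 → v 6 = 0 →
      fderiv ℝ (Φ 2) 0 v = 4 * (κ₁ 0 ^ 2 * v 2 + 2 * κ₁ 0 * κ₂ 0 * v 3)) →
    (∀ v : Fin 7 → ℝ, v 4 = 0 → v 5 = 0 → v 6 = 0 →
      fderiv ℝ (Φ 3) 0 v = 4 * (κ₁ 1 ^ 2 * v 2 + 2 * κ₁ 1 * κ₂ 1 * v 3)) →
    κ₁ 0 ≠ 0 → κ₁ 1 ≠ 0 → κ₁ 0 * κ₂ 1 ≠ κ₁ 1 * κ₂ 0 →
    (∀ (i : Fin 3) (v : Fin 7 → ℝ), fderiv ℝ (Φ i.succ.succ.succ.succ) 0 v =
      4 * (α i ^ 2 * v 4 + 2 * α i * β i * v 5 + β i ^ 2 * v 6)) →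
    (∀ i, α i ≠ 0) → (∀ i j, i ≠ j → α i * β j ≠ α j * β i) →
    ∀ᶠ p in 𝓝 ((0, 0) : (Fin 7 → ℝ) × (Fin 7 → ℝ)),
      (∀ i, Φ i p.1 = Φ i p.2) → p.1 = p.2

/-- LOC: nearly square quadrilaterals are determined by their spectrum among nearly square
quadrilaterals -/
def LocStatement : Prop :=
  ∀ᶠ p in 𝓝 ((0, 0) : Z5 × Z5), IsoSp (dom p.1) (dom p.2) → Cong (dom p.1) (dom p.2)

/-- FIN: the theorem -/
def FinStatement : Prop :=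
  ∃ ε : ℝ, 0 < ε ∧ ∀ (s : ℝ) (e : E.E2 ≃ᵢ E.E2) (p q : Fin 4 → E.E2), 0 < s →
    (∀ i, dist (p i) (e (s • E.corner i)) ≤ ε * s) → E.ConvexPosition q →
    (∀ μ : ℝ, E.mult (E.drum p) μ = E.mult (E.drum q) μ) →
    ∃ e' : E.E2 ≃ᵢ E.E2, e' '' convexHull ℝ (Set.range p) = convexHull ℝ (Set.range q)

end Pool.SqDrum
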