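import Mathlib
import Pool.Agent.Lib.MP_2805c2_an.SQ.Iface

set_option autoImplicit false

namespace Pool.SqDrum

open MeasureTheory Set Filter Topology Asymptotics
open scoped ENNReal ContDiff InnerProductSpace

theorem clo_uniq : Uniq 1 1 := by
  intro k l hk hl h
  have hk' : k < 2 := by nlinarith
  have hl' : l < 2 := by nlinarith
  exact Or.inl ⟨by omega, by omega⟩

theorem clo_W (a b : ℝ) (k : ℕ × ℕ) (hk : lam 1 k = lam 1 (1, 1)) : Wm a b (1, 1) k = 0 := by
  have hsq : (k.1 : ℝ) ^ 2 + (k.2 : ℝ) ^ 2 = 1 ^ 2 + 1 ^ 2 := by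
    unfold lam at hk
    have hpi : (0 : ℝ) < Real.pi ^ 2 := by positivity
    simp only [one_pow, div_one, Nat.cast_one] at hk
    have := mul_left_cancel₀ hpi.ne' hk
    rw [this]; norm_num
  have hnat : k.1 ^ 2 + k.2 ^ 2 = 1 ^ 2 + 1 ^ 2 := by exact_mod_cast hsq
  have h1 : k.1 < 2 := by nlinarith
  have h2 : k.2 < 2 := by nlinarith
  have h3 : k.1 = 1 := by
    interval_cases h : k.1
    · interval_cases h' : k.2 <;> omega
    · rfl
  have h4 : k.2 = 1 := by
    rw [h3] at hnat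
    interval_cases h' : k.2 <;> omega
  have : k = (1, 1) := Prod.ext h3 h4
  rw [this]
  unfold Wm Pm
  simp

/-- the kernel of a `1 × 1` matrix -/
theorem clo_ker (L : Fin 1 → Fin 1 → ℝ) (l' : ℝ) :
    Module.finrank ℝ (LinearMap.ker (Matrix.toLin' (Matrix.of L - l' • 1))) =
      if l' = L 0 0 then 1 else 0 := by
  have key : ∀ v : Fin 1 → ℝ, Matrix.toLin' (Matrix.of L - l' • 1) v = (L 0 0 - l') • v := by
    intro v
    funext i
    fin_cases i
    simp [Matrix.toLin'_apply, Matrix.mulVec, dotProduct]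
    ring
  split_ifs with h
  · have : LinearMap.ker (Matrix.toLin' (Matrix.of L - l' • 1)) = ⊤ := by
      rw [LinearMap.ker_eq_top]
      refine LinearMap.ext fun v => ?_
      rw [key v, h]
      simp
    rw [this, finrank_top]
    simp
  · have : LinearMap.ker (Matrix.toLin' (Matrix.of L - l' • 1)) = ⊥ := by
      rw [LinearMap.ker_eq_bot']
      intro v hv
      rw [key v] at hv
      rcases smul_eq_zero.1 hv with h' | h'
      · exact absurd (sub_eq_zero.1 h').symm h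
      · exact h'
    rw [this, finrank_bot]

theorem clo_curve (a b δ τ : ℝ) : AnalyticAt ℝ (curve a b δ τ) 0 := by
  rw [analyticAt_pi_iff]
  intro i
  have hid : AnalyticAt ℝ (fun t : ℝ => t) 0 := analyticAt_id
  fin_cases i
  · exact analyticAt_const
  · exact analyticAt_const.mul (hid.pow 2)
  · exact analyticAt_const.mul (hid.pow 2)
  · exact analyticAt_const.mul hid
  · exact analyticAt_const.mul hid

theorem clo_curve0 (a b δ τ : ℝ) : curve a b δ τ 0 = 0 := by
  funext i; fin_cases i <;> simp [curve]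

theorem clo (hFRE : FreStatement) (hIFT : IftStatement) (hKER : KerStatement)
    (hSEC : SecStatement) (hOPX : OpxStatement)
    (hBIL : BilStatement) (hGEL : GelStatement) (hMEL : MelStatement) (hEVD : EvdStatement)
    (hSER : SerStatement) (hKEV : KevStatement) : CloStatement := by
  set l := lam 1 (1, 1) with hl
  have hyp : LSHyp AA BB l ![ev (1, 1)] :=
    (hFRE 1 1 one_pos one_pos clo_uniq).2 rfl
  obtain ⟨X, Lm, sol⟩ := hIFT (H D) 1 AA BB l _ hyp
  have an : ∀ i j, AnalyticAt ℝ (fun z => Lm z i j) 0 := fun i j =>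
    (analyticAt_pi_iff.1 ((analyticAt_pi_iff.1 sol.anL) i)) j
  refine ⟨fun z => Lm z 0 0, an 0 0, ?_, ?_⟩
  · obtain ⟨ε, hε, hker⟩ := hKER (H D) 1 AA BB l _ X Lm hyp sol
    have hclose : ∀ᶠ z in 𝓝 (0 : Z5), |Lm z 0 0 - l| < ε := by
      have hc : ContinuousAt (fun z => Lm z 0 0 - l) 0 :=
        (an 0 0).continuousAt.sub continuousAt_const
      have h0 : Lm 0 0 0 - l = 0 := by rw [sol.L0]; simp
      have := hc.tendsto.abs
      rw [h0, abs_zero] at this
      exact this.eventually_lt_const hε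
    have t1 : Tendsto (fun p : Z5 × Z5 => p.1) (𝓝 ((0, 0) : Z5 × Z5)) (𝓝 0) :=
      continuous_fst.tendsto _
    have t2 : Tendsto (fun p : Z5 × Z5 => p.2) (𝓝 ((0, 0) : Z5 × Z5)) (𝓝 0) :=
      continuous_snd.tendsto _
    filter_upwards [t1.eventually hker, t2.eventually hker, t1.eventually hclose,
      t2.eventually hclose, t1.eventually hBIL, t2.eventually hBIL] with p k1 k2 c1 c2 b1 b2 hiso
    have e := hiso (Lm p.1 0 0)
    rw [b1.2.2.2, b2.2.2.2, k1 _ c1, k2 _ c1, clo_ker, clo_ker, if_pos rfl] at e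
    by_contra hne
    rw [if_neg hne] at e
    exact one_ne_zero e
  · have hK1 : ⟪ev (1, 1), K1 l 1 0 (ev (1, 1))⟫_ℝ = 0 := by
      rw [real_inner_comm, hl, hGEL (1, 1) 1 0 (ev (1, 1)), hEVD.1 (1, 1),
        hMEL (1, 1) (1, 1) 1 0 one_pos one_pos]
      exact clo_W 1 0 (1, 1) rfl
    have hT0 : AA 0 - l • BB 0 = K0 l := by
      have := hOPX l 1 0 0 0
      obtain ⟨C, hC⟩ := this.bound
      have h0 := hC.self_of_nhds
      rw [clo_curve0] at h0
      have h1 : ‖(AA 0 - l • BB 0) - (K0 l + (0:ℝ) • K1 l 1 0 + (0:ℝ) ^ 2 • K2 1 0 0 0)‖ ≤ 0 := by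
        simpa using h0
      refine ContinuousLinearMap.ext fun y => ?_
      have h2 := ((AA 0 - l • BB 0) - (K0 l + (0:ℝ) • K1 l 1 0 +
        (0:ℝ) ^ 2 • K2 1 0 0 0)).le_opNorm y
      have h3 : ‖((AA 0 - l • BB 0) - (K0 l + (0:ℝ) • K1 l 1 0 +
        (0:ℝ) ^ 2 • K2 1 0 0 0)) y‖ ≤ 0 :=
        h2.trans (mul_nonpos_of_nonpos_of_nonneg h1 (norm_nonneg _))
      have h4 := norm_le_zero_iff.1 h3
      change (AA 0 - l • BB 0) y - (K0 l y + (0:ℝ) • K1 l 1 0 y +
        (0:ℝ) ^ 2 • K2 1 0 0 0 y) = 0 at h4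
      rw [zero_smul, zero_pow (by norm_num), zero_smul, add_zero, add_zero] at h4
      exact sub_eq_zero.1 h4
    have hx : ∃ x : Fin 1 → H D, ∀ j, K0 l (x j) = -K1 l 1 0 ((![ev (1, 1)] : Fin 1 → H D) j) := by
      obtain ⟨x, hx⟩ := hyp.rng (-K1 l 1 0 (ev (1, 1))) (by
        intro i
        fin_cases i
        show ⟪ev (1, 1), -K1 l 1 0 (ev (1, 1))⟫_ℝ = 0
        rw [inner_neg_right, hK1, neg_zero])
      refine ⟨fun _ => x, fun j => ?_⟩
      fin_cases j
      show K0 l x = -K1 l 1 0 (ev (1, 1))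
      rw [← hT0, ← hx]
      rfl
    obtain ⟨x, hx⟩ := hx
    have hsec := hSEC (H D) 1 AA BB l _ X Lm hyp sol (curve 1 0 0 0) (K0 l) (K1 l 1 0)
      (K2 1 0 0 0) (clo_curve 1 0 0 0) (clo_curve0 1 0 0 0) (hOPX l 1 0 0 0) (by
        intro i j
        fin_cases i; fin_cases j
        exact hK1) x hx 0 0
    have hx0 : K0 (lam 1 (1, 1)) (x 0) = -K1 (lam 1 (1, 1)) 1 0 (ev (1, 1)) := hx 0
    have hser := hSER (1, 1) (1, 1) 1 0 one_pos one_pos one_pos one_pos rfl
      (fun k hk => clo_W 1 0 k hk) (x 0) hx0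
    have hkev := hKEV.1 1 1 1 0 0 0 one_pos one_pos
    refine hsec.congr_left fun t => ?_
    have e0 : (![ev (1, 1)] : Fin 1 → H D) 0 = ev (1, 1) := rfl
    rw [if_pos rfl, e0, hkev, hl, hser]
    have hL0 : Lm 0 0 0 = lam 1 (1, 1) := by rw [sol.L0]; simp [hl]
    show _ = Lm (curve 1 0 0 0 t) 0 0 - Lm 0 0 0 - t ^ 2 * BN 1 1
    rw [hL0]
    unfold BN
    ring

end Pool.SqDrum
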