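import Mathlib
import Pool.Agent.Lib.MP_2805c2_an.SQ.Iface

set_option autoImplicit false

/-!
# CPL: completeness of the eigenfunctions of a square
-/

namespace Pool.SqDrum

open MeasureTheory Set Filter Topology
open scoped ENNReal ContDiff InnerProductSpace

theorem cpl_s1d (hS : S1dStatement) {a M : ℝ} (hM : 0 < M) {g : ℝ → ℝ}
    (hg : MemLp g 2 (volume.restrict (Ioo a (a + M))))
    (h0 : ∀ m : ℕ, ∫ x in Ioo a (a + M), g x * Real.sin (m * Real.pi * (x - a) / M) = 0) :
    g =ᵐ[volume.restrict (Ioo a (a + M))] 0 := by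
  have hpre : (fun x : ℝ => x + a) ⁻¹' Ioo a (a + M) = Ioo 0 M := by
    ext x
    simp only [mem_preimage, mem_Ioo]
    constructor <;> rintro ⟨h1, h2⟩ <;> constructor <;> linarith
  have hpre' : (fun x : ℝ => x - a) ⁻¹' Ioo 0 M = Ioo a (a + M) := by
    ext x
    simp only [mem_preimage, mem_Ioo]
    constructor <;> rintro ⟨h1, h2⟩ <;> constructor <;> linarith
  have hmp : MeasurePreserving (fun x : ℝ => x + a) (volume.restrict (Ioo 0 M))
      (volume.restrict (Ioo a (a + M))) := by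
    rw [← hpre]
    exact (measurePreserving_add_right volume a).restrict_preimage measurableSet_Ioo
  have hmp' : MeasurePreserving (fun x : ℝ => x - a) (volume.restrict (Ioo a (a + M)))
      (volume.restrict (Ioo 0 M)) := by
    rw [← hpre']
    exact (measurePreserving_sub_right volume a).restrict_preimage measurableSet_Ioo
  have h1 : MemLp (fun x => g (x + a)) 2 (volume.restrict (Ioo 0 M)) :=
    hg.comp_measurePreserving hmp
  have h2 := hS M _ hM h1 (fun m => by
    have h3 := hmp.integral_comp (MeasurableEquiv.addRight a).measurableEmbedding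
      (fun x => g x * Real.sin (m * Real.pi * (x - a) / M))
    rw [h0 m] at h3
    simpa [add_sub_cancel_right] using h3)
  have h3 := hmp'.quasiMeasurePreserving.ae_eq_comp h2
  filter_upwards [h3] with x hx
  simpa using hx

theorem cpl_cs {ν : Measure ℝ} [IsFiniteMeasure ν] {f s : ℝ → ℝ} {V : ℝ} (hV : 0 < V)
    (hVν : ν.real univ = V) (hf : MemLp f 2 ν) (hs : Continuous s) (hs1 : ∀ y, |s y| ≤ 1) :
    (∫ y, f y * s y ∂ν) ^ 2 ≤ V * ∫ y, f y ^ 2 ∂ν := by
  have hf1 : Integrable f ν := hf.integrable one_le_two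
  have hf2 : Integrable (fun y => f y ^ 2) ν := hf.integrable_sq
  have hfs : Integrable (fun y => f y * s y) ν := by
    refine hf1.mul_bdd (c := 1) hs.aestronglyMeasurable (Eventually.of_forall fun y => ?_)
    rw [Real.norm_eq_abs]; exact hs1 y
  have hfs2 : Integrable (fun y => (f y * s y) ^ 2) ν := by
    have : (fun y => (f y * s y) ^ 2) = fun y => f y ^ 2 * s y ^ 2 := by
      funext y; ring
    rw [this]
    refine hf2.mul_bdd (c := 1) (hs.pow 2).aestronglyMeasurable (Eventually.of_forall fun y => ?_)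
    rw [Real.norm_eq_abs, abs_pow]
    exact pow_le_one₀ (abs_nonneg _) (hs1 y)
  set A := ∫ y, f y * s y ∂ν with hA
  have h1 : 0 ≤ ∫ y, (V * (f y * s y) - A) ^ 2 ∂ν := integral_nonneg fun y => sq_nonneg _
  have h2 : ∫ y, (V * (f y * s y) - A) ^ 2 ∂ν
      = V ^ 2 * (∫ y, (f y * s y) ^ 2 ∂ν) - 2 * V * A * A + A ^ 2 * V := by
    have : (fun y => (V * (f y * s y) - A) ^ 2)
        = fun y => V ^ 2 * (f y * s y) ^ 2 - 2 * V * A * (f y * s y) + A ^ 2 := by
      funext y; ring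
    have i1 : Integrable (fun y => V ^ 2 * (f y * s y) ^ 2) ν := hfs2.const_mul _
    have i2 : Integrable (fun y => 2 * V * A * (f y * s y)) ν := hfs.const_mul _
    have i3 : Integrable (fun y => V ^ 2 * (f y * s y) ^ 2 - 2 * V * A * (f y * s y)) ν := i1.sub i2
    rw [this, integral_add i3 (integrable_const _), integral_sub i1 i2, integral_const_mul,
      integral_const_mul, integral_const, smul_eq_mul, hVν]
    ring
  have h3 : ∫ y, (f y * s y) ^ 2 ∂ν ≤ ∫ y, f y ^ 2 ∂ν := by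
    refine integral_mono hfs2 hf2 fun y => ?_
    have h4 : s y ^ 2 ≤ 1 := by
      rw [← sq_abs]; exact pow_le_one₀ (abs_nonneg _) (hs1 y)
    have h5 : (f y * s y) ^ 2 = f y ^ 2 * s y ^ 2 := by ring
    show (f y * s y) ^ 2 ≤ f y ^ 2
    rw [h5]
    nlinarith [sq_nonneg (f y)]
  have h4 : 0 ≤ V * (V * (∫ y, (f y * s y) ^ 2 ∂ν) - A ^ 2) := by
    rw [h2] at h1; linarith
  have h5 : 0 ≤ V * (∫ y, (f y * s y) ^ 2 ∂ν) - A ^ 2 := nonneg_of_mul_nonneg_right h4 hV
  nlinarith

theorem cpl_fub (hS : S1dStatement) {a b M : ℝ} (hM : 0 < M) {h : P2 → ℝ}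
    (hh : MemLp h 2 ((volume.restrict (Ioo a (a + M))).prod (volume.restrict (Ioo b (b + M)))))
    (h0 : ∀ m n : ℕ, ∫ z, h z * (Real.sin (m * Real.pi * (z.1 - a) / M) *
      Real.sin (n * Real.pi * (z.2 - b) / M))
      ∂((volume.restrict (Ioo a (a + M))).prod (volume.restrict (Ioo b (b + M)))) = 0) :
    h =ᵐ[(volume.restrict (Ioo a (a + M))).prod (volume.restrict (Ioo b (b + M)))] 0 := by
  set μ : Measure ℝ := volume.restrict (Ioo a (a + M)) with hμ
  set ν : Measure ℝ := volume.restrict (Ioo b (b + M)) with hν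
  have hVν : ν.real univ = M := by
    rw [hν, measureReal_restrict_apply_univ, Real.volume_real_Ioo_of_le (by linarith)]
    ring
  have hint : Integrable h (μ.prod ν) := hh.integrable one_le_two
  have hsq : Integrable (fun z => h z ^ 2) (μ.prod ν) := hh.integrable_sq
  have hA : ∀ᵐ x ∂μ, Integrable (fun y => h (x, y)) ν := hint.prod_right_ae
  have hB : ∀ᵐ x ∂μ, Integrable (fun y => h (x, y) ^ 2) ν := hsq.prod_right_ae
  have hC : Integrable (fun x => ∫ y, h (x, y) ^ 2 ∂ν) μ := hsq.integral_prod_left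
  have hL : ∀ᵐ x ∂μ, MemLp (fun y => h (x, y)) 2 ν := by
    filter_upwards [hA, hB] with x h1 h2
    exact (memLp_two_iff_integrable_sq h1.aestronglyMeasurable).2 h2
  have hsin : ∀ n : ℕ, Continuous fun y : ℝ => Real.sin (n * Real.pi * (y - b) / M) := by
    intro n; fun_prop
  have hsinx : ∀ n : ℕ, Continuous fun y : ℝ => Real.sin (n * Real.pi * (y - a) / M) := by
    intro n; fun_prop
  have hint2 : ∀ n : ℕ, Integrable (fun z : P2 => h z * Real.sin (n * Real.pi * (z.2 - b) / M))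
      (μ.prod ν) := by
    intro n
    refine hint.mul_bdd (c := 1) ?_ (Eventually.of_forall fun y => ?_)
    · exact ((hsin n).comp continuous_snd).aestronglyMeasurable
    · rw [Real.norm_eq_abs]; exact Real.abs_sin_le_one _
  let g : ℕ → ℝ → ℝ := fun n x => ∫ y, h (x, y) * Real.sin (n * Real.pi * (y - b) / M) ∂ν
  have hgint : ∀ n, Integrable (g n) μ := fun n => (hint2 n).integral_prod_left
  have hg : ∀ n, MemLp (g n) 2 μ := by
    intro n
    rw [memLp_two_iff_integrable_sq (hgint n).aestronglyMeasurable]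
    refine (hC.const_mul M).mono' ((hgint n).aestronglyMeasurable.pow 2) ?_
    filter_upwards [hL] with x hx
    rw [Real.norm_eq_abs, abs_of_nonneg (sq_nonneg _)]
    exact cpl_cs hM hVν hx (hsin n) fun y => Real.abs_sin_le_one _
  have hg0 : ∀ n, g n =ᵐ[μ] 0 := by
    intro n
    refine cpl_s1d hS hM (hg n) fun m => ?_
    have h1 : Integrable (fun z : P2 => h z * (Real.sin (m * Real.pi * (z.1 - a) / M) *
        Real.sin (n * Real.pi * (z.2 - b) / M))) (μ.prod ν) := by
      refine hint.mul_bdd (c := 1) ?_ (Eventually.of_forall fun y => ?_)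
      · exact (((hsinx m).comp continuous_fst).mul ((hsin n).comp continuous_snd)).aestronglyMeasurable
      · rw [Real.norm_eq_abs, abs_mul]
        exact mul_le_one₀ (Real.abs_sin_le_one _) (abs_nonneg _) (Real.abs_sin_le_one _)
    have h2 := h0 m n
    rw [integral_prod _ h1] at h2
    rw [← h2]
    refine integral_congr_ae (Eventually.of_forall fun x => ?_)
    show g n x * Real.sin (m * Real.pi * (x - a) / M) = _
    simp only [g]
    rw [← integral_mul_const]
    refine integral_congr_ae (Eventually.of_forall fun y => ?_)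
    show _ = h (x, y) * (Real.sin (m * Real.pi * (x - a) / M) * Real.sin (n * Real.pi * (y - b) / M))
    ring
  have hall : ∀ᵐ x ∂μ, ∀ n, g n x = 0 := ae_all_iff.2 hg0
  have hzero : ∀ᵐ x ∂μ, ∫ y, h (x, y) ^ 2 ∂ν = 0 := by
    filter_upwards [hall, hL] with x h1 h2
    have h3 : (fun y => h (x, y)) =ᵐ[ν] 0 := cpl_s1d hS hM h2 fun n => h1 n
    rw [← integral_zero (G := ℝ) (μ := ν)]
    refine integral_congr_ae ?_
    filter_upwards [h3] with y hy
    have : h (x, y) = 0 := hy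
    rw [this]; ring
  have hfin : ∫ z, h z ^ 2 ∂(μ.prod ν) = 0 := by
    rw [integral_prod _ hsq, integral_congr_ae hzero, integral_zero]
  have h6 := (integral_eq_zero_iff_of_nonneg (fun z => sq_nonneg (h z)) hsq).1 hfin
  filter_upwards [h6] with z hz
  have : h z ^ 2 = 0 := hz
  exact pow_eq_zero_iff two_ne_zero |>.1 this

theorem cpl_isOpen (x₀ y₀ M : ℝ) : IsOpen (Sq x₀ y₀ M) := isOpen_Ioo.prod isOpen_Ioo

theorem cpl_restrict (x₀ y₀ M : ℝ) : (volume : Measure P2).restrict (Sq x₀ y₀ M) =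
    (volume.restrict (Ioo x₀ (x₀ + M))).prod (volume.restrict (Ioo y₀ (y₀ + M))) := by
  rw [Sq, Measure.prod_restrict, Measure.volume_eq_prod]

theorem cpl_ef_cont (x₀ y₀ M : ℝ) (k : ℕ × ℕ) : Continuous (ef x₀ y₀ M k) := by
  unfold ef; fun_prop

theorem cpl_memLp {x₀ y₀ M : ℝ} {g : P2 → ℝ} (hg : Continuous g) :
    MemLp ((Sq x₀ y₀ M).indicator g) 2 (volume : Measure P2) := by
  rw [memLp_indicator_iff_restrict (cpl_isOpen x₀ y₀ M).measurableSet]
  have hsub : Sq x₀ y₀ M ⊆ Icc x₀ (x₀ + M) ×ˢ Icc y₀ (y₀ + M) :=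
    prod_mono Ioo_subset_Icc_self Ioo_subset_Icc_self
  have hK : IsCompact (Icc x₀ (x₀ + M) ×ˢ Icc y₀ (y₀ + M)) := isCompact_Icc.prod isCompact_Icc
  obtain ⟨C, hC⟩ := hK.exists_bound_of_continuousOn hg.continuousOn
  have hfin : IsFiniteMeasure ((volume : Measure P2).restrict (Sq x₀ y₀ M)) :=
    ⟨by
      rw [Measure.restrict_apply_univ]
      exact lt_of_le_of_lt (measure_mono hsub) hK.measure_lt_top⟩
  refine MemLp.of_bound hg.aestronglyMeasurable C ?_
  exact ae_restrict_of_forall_mem (cpl_isOpen x₀ y₀ M).measurableSet fun x hx => hC x (hsub hx)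

/-- the functions `ET k 0` are invariant under the restriction to the square -/
theorem cpl_ind (x₀ y₀ M : ℝ) (k : ℕ × ℕ) :
    ind (Sq x₀ y₀ M) (ET x₀ y₀ M k 0) = ET x₀ y₀ M k 0 := by
  refine Lp.ext ?_
  have hm := (cpl_isOpen x₀ y₀ M).measurableSet
  filter_upwards [ind_coe hm (ET x₀ y₀ M k 0),
    cl_coe (cpl_memLp (x₀ := x₀) (y₀ := y₀) (M := M) (cpl_ef_cont x₀ y₀ M k))] with x h1 h2
  rw [h1, ET, trip_zero]
  by_cases hx : x ∈ Sq x₀ y₀ M
  · rw [indicator_of_mem hx]
  · rw [indicator_of_notMem hx, h2, indicator_of_notMem hx]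

theorem cpl_ind_symm (A : Set P2) (f g : L2) : ⟪ind A f, g⟫_ℝ = ⟪f, ind A g⟫_ℝ := mul_symm _ f g

theorem cpl_ind_ind {A : Set P2} (hA : MeasurableSet A) (f : L2) : ind A (ind A f) = ind A f := by
  refine Lp.ext ?_
  filter_upwards [ind_coe hA (ind A f), ind_coe hA f] with x h1 h2
  rw [h1]
  by_cases hx : x ∈ A
  · rw [indicator_of_mem hx]
  · rw [indicator_of_notMem hx, h2, indicator_of_notMem hx]

/-- inner product with an eigenfunction -/
theorem cpl_inner (x₀ y₀ M : ℝ) (k : ℕ × ℕ) (f : L2) :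
    ⟪ET x₀ y₀ M k 0, f⟫_ℝ = ∫ x in Sq x₀ y₀ M, ef x₀ y₀ M k x * f x := by
  have hm := (cpl_isOpen x₀ y₀ M).measurableSet
  rw [ET, trip_zero, inner_eq, ← integral_indicator hm]
  refine integral_congr_ae ?_
  filter_upwards [cl_coe (cpl_memLp (x₀ := x₀) (y₀ := y₀) (M := M) (cpl_ef_cont x₀ y₀ M k))]
    with x h2
  rw [h2]
  by_cases hx : x ∈ Sq x₀ y₀ M
  · rw [indicator_of_mem hx, indicator_of_mem hx]
  · rw [indicator_of_notMem hx, indicator_of_notMem hx, zero_mul]

/-- a function orthogonal to all eigenfunctions vanishes on the square -/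
theorem cpl_zero (hS : S1dStatement) {x₀ y₀ M : ℝ} (hM : 0 < M) {f : L2}
    (h : ∀ k : ℕ × ℕ, ⟪ET x₀ y₀ M k 0, f⟫_ℝ = 0) : ind (Sq x₀ y₀ M) f = 0 := by
  have hm := (cpl_isOpen x₀ y₀ M).measurableSet
  have h1 : MemLp f 2 ((volume.restrict (Ioo x₀ (x₀ + M))).prod
      (volume.restrict (Ioo y₀ (y₀ + M)))) := by
    rw [← cpl_restrict]
    exact (Lp.memLp f).restrict _
  have h2 := cpl_fub hS hM h1 (fun m n => by
    have h3 := h (m, n)
    rw [cpl_inner, cpl_restrict] at h3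
    have h4 : ∀ z : P2, ef x₀ y₀ M (m, n) z * f z = (2 / M) * (f z *
        (Real.sin (m * Real.pi * (z.1 - x₀) / M) * Real.sin (n * Real.pi * (z.2 - y₀) / M))) := by
      intro z; simp only [ef]; ring
    simp only [h4] at h3
    rw [integral_const_mul] at h3
    exact (mul_eq_zero.1 h3).resolve_left (by positivity))
  rw [← cpl_restrict] at h2
  refine Lp.ext ?_
  have h5 := (ae_restrict_iff' hm).1 h2
  filter_upwards [ind_coe hm f, h5, Lp.coeFn_zero ℝ 2 (volume : Measure P2)] with x h6 h7 h8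
  rw [h6, h8]
  by_cases hx : x ∈ Sq x₀ y₀ M
  · rw [indicator_of_mem hx, h7 hx]
  · rw [indicator_of_notMem hx]; rfl

theorem cpl (hS : S1dStatement) (hO : OrtStatement) : CplStatement := by
  intro x₀ y₀ M hM f
  have hm := (cpl_isOpen x₀ y₀ M).measurableSet
  set e : ℕ × ℕ → L2 := fun k => ET x₀ y₀ M k 0 with he
  -- the orthonormal family
  let J := {k : ℕ × ℕ // 0 < k.1 ∧ 0 < k.2}
  have hzero : ∀ k : ℕ × ℕ, ¬ (0 < k.1 ∧ 0 < k.2) → e k = 0 := by
    intro k hk
    have h1 := hO x₀ y₀ M hM k k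
    rw [if_neg (fun h => hk h.2)] at h1
    exact inner_self_eq_zero.1 h1
  have hon : Orthonormal ℝ (fun k : J => e k.1) := by
    rw [orthonormal_iff_ite]
    intro i j
    rw [he, hO x₀ y₀ M hM i.1 j.1]
    by_cases hij : i = j
    · rw [if_pos hij, if_pos ⟨congrArg Subtype.val hij, i.2⟩]
    · rw [if_neg hij, if_neg fun h => hij (Subtype.ext h.1)]
  -- summability
  have hsumJ : Summable (fun k : J => ⟪e k.1, f⟫_ℝ • e k.1) := by
    have h1 := hon.orthogonalFamily
    have h2 := (h1.summable_iff_norm_sq_summable (fun k : J => ⟪e k.1, f⟫_ℝ)).2 (by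
      have := hon.inner_products_summable f
      simpa using this)
    simpa [LinearIsometry.toSpanSingleton_apply] using h2
  have hsum : Summable (fun k : ℕ × ℕ => ⟪e k, f⟫_ℝ • e k) := by
    refine (Function.Injective.summable_iff (g := (Subtype.val : J → ℕ × ℕ))
      Subtype.val_injective ?_).1 hsumJ
    intro k hk
    have : ¬ (0 < k.1 ∧ 0 < k.2) := fun h => hk ⟨⟨k, h⟩, rfl⟩
    rw [hzero k this, smul_zero]
  obtain ⟨g, hg⟩ := hsum
  have hkey : ind (Sq x₀ y₀ M) f = g := by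
    have h1 : ∀ k : ℕ × ℕ, ⟪e k, ind (Sq x₀ y₀ M) f - g⟫_ℝ = 0 := by
      intro k
      rw [inner_sub_right, ← cpl_ind_symm, he]
      simp only
      rw [cpl_ind]
      have h2 : HasSum (fun l : ℕ × ℕ => ⟪e k, ⟪e l, f⟫_ℝ • e l⟫_ℝ) ⟪e k, g⟫_ℝ := by
        exact hg.mapL (innerSL ℝ (e k))
      have h3 : HasSum (fun l : ℕ × ℕ => ⟪e k, ⟪e l, f⟫_ℝ • e l⟫_ℝ)
          (⟪e k, ⟪e k, f⟫_ℝ • e k⟫_ℝ) := by
        refine hasSum_single k fun l hl => ?_
        rw [inner_smul_right, hO x₀ y₀ M hM k l, if_neg fun h => hl h.1.symm, mul_zero]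
      have h4 := h2.unique h3
      have h5 : ⟪e k, g⟫_ℝ = ⟪e k, f⟫_ℝ := by
        rw [h4, inner_smul_right]
        by_cases hk : 0 < k.1 ∧ 0 < k.2
        · rw [hO x₀ y₀ M hM k k, if_pos ⟨rfl, hk⟩, mul_one]
        · rw [hzero k hk]; simp
      have h6 : ⟪ET x₀ y₀ M k 0, g⟫_ℝ = ⟪ET x₀ y₀ M k 0, f⟫_ℝ := h5
      rw [h6, sub_self]
    have h2 := cpl_zero hS hM h1
    rw [map_sub, cpl_ind_ind hm] at h2
    have h3 : ind (Sq x₀ y₀ M) g = g := by
      have h4 : HasSum (fun l : ℕ × ℕ => ind (Sq x₀ y₀ M) (⟪e l, f⟫_ℝ • e l))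
          (ind (Sq x₀ y₀ M) g) := hg.mapL (ind (Sq x₀ y₀ M))
      have h5 : (fun l : ℕ × ℕ => ind (Sq x₀ y₀ M) (⟪e l, f⟫_ℝ • e l))
          = fun l => ⟪e l, f⟫_ℝ • e l := by
        funext l
        rw [map_smul, he]
        simp only
        rw [cpl_ind]
      rw [h5] at h4
      exact h4.unique hg
    rw [h3] at h2
    exact sub_eq_zero.1 h2
  rw [hkey]
  exact hg

end Pool.SqDrum
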