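import Mathlib
import Pool.Agent.Lib.MP_2805c2_an.SQ.Cpl

set_option autoImplicit false

/-!
# LCF: the local Hilbert–Schmidt norm of a square
-/

namespace Pool.SqDrum

open MeasureTheory Set Filter Topology
open scoped ENNReal ContDiff InnerProductSpace

theorem lcf_lam_nonneg {M : ℝ} (hM : 0 < M) (k : ℕ × ℕ) : 0 ≤ lam M k := by
  unfold lam; positivity

/-- pairing with an eigenfunction in `H` -/
theorem lcf_pair (hE : EigStatement) (hI : SinStatement) {x₀ y₀ M : ℝ} (hM : 0 < M) (k : ℕ × ℕ)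
    (F : H (Sq x₀ y₀ M)) :
    ⟪(⟨ET x₀ y₀ M k, hI x₀ y₀ M k hM⟩ : H (Sq x₀ y₀ M)), F⟫_ℝ =
      (lam M k + 1) * ⟪ET x₀ y₀ M k 0, (F : LL) 0⟫_ℝ := by
  have h1 : ⟪(⟨ET x₀ y₀ M k, hI x₀ y₀ M k hM⟩ : H (Sq x₀ y₀ M)), F⟫_ℝ =
      ⟪ET x₀ y₀ M k, (F : LL)⟫_ℝ := rfl
  rw [h1, LL_inner]
  have h2 := hE x₀ y₀ M k hM F F.2
  linarith

theorem lcf_res (hE : EigStatement) (hI : SinStatement) {x₀ y₀ M : ℝ} (hM : 0 < M) (k : ℕ × ℕ)
    (f : L2) : ⟪ET x₀ y₀ M k 0, res (Sq x₀ y₀ M) f⟫_ℝ =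
      (1 / (lam M k + 1)) * ⟪ET x₀ y₀ M k 0, f⟫_ℝ := by
  set F : H (Sq x₀ y₀ M) := (co (Sq x₀ y₀ M) 0).adjoint f with hF
  have h1 := lcf_pair hE hI hM k F
  rw [hF, ContinuousLinearMap.adjoint_inner_right] at h1
  have h2 : res (Sq x₀ y₀ M) f = ((co (Sq x₀ y₀ M) 0).adjoint f : H (Sq x₀ y₀ M)).1 0 := rfl
  rw [h2]
  have h3 : co (Sq x₀ y₀ M) 0 (⟨ET x₀ y₀ M k, hI x₀ y₀ M k hM⟩ : H (Sq x₀ y₀ M)) =
      ET x₀ y₀ M k 0 := rfl
  rw [h3] at h1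
  have h4 := lcf_lam_nonneg hM k
  rw [h1]
  field_simp

theorem lcf_norm {x₀ y₀ M : ℝ} {A : Set P2} (hA : MeasurableSet A) (k : ℕ × ℕ) :
    ‖ind A (ET x₀ y₀ M k 0)‖ₑ ^ 2 =
      ∫⁻ x in A ∩ Sq x₀ y₀ M, ENNReal.ofReal (ef x₀ y₀ M k x ^ 2) := by
  have hm := (cpl_isOpen x₀ y₀ M).measurableSet
  have h1 : ‖ind A (ET x₀ y₀ M k 0)‖ₑ ^ 2 = ∫⁻ x, ‖ind A (ET x₀ y₀ M k 0) x‖ₑ ^ 2 := by
    have h2 := eLpNorm_nnreal_pow_eq_lintegral (f := ind A (ET x₀ y₀ M k 0))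
      (μ := (volume : Measure P2)) (p := 2) two_ne_zero
    rw [Lp.enorm_def]
    have h3 : ((2 : NNReal) : ℝ≥0∞) = 2 := rfl
    have h4 : ((2 : NNReal) : ℝ) = (2 : ℕ) := by norm_num
    rw [h3, h4] at h2
    simp only [ENNReal.rpow_natCast] at h2
    exact h2
  rw [h1, ← lintegral_indicator (hA.inter hm)]
  refine lintegral_congr_ae ?_
  filter_upwards [ind_coe hA (ET x₀ y₀ M k 0),
    cl_coe (cpl_memLp (x₀ := x₀) (y₀ := y₀) (M := M) (cpl_ef_cont x₀ y₀ M k))] with x h1 h2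
  rw [h1]
  have h5 : ∀ r : ℝ, ‖r‖ₑ ^ 2 = ENNReal.ofReal (r ^ 2) := by
    intro r
    rw [Real.enorm_eq_ofReal_abs, ← ENNReal.ofReal_pow (abs_nonneg r), sq_abs]
  by_cases hx : x ∈ A
  · rw [indicator_of_mem hx, ET, trip_zero, h2]
    by_cases hx' : x ∈ Sq x₀ y₀ M
    · have h6 : x ∈ A ∩ Sq x₀ y₀ M := ⟨hx, hx'⟩
      rw [indicator_of_mem hx', indicator_of_mem h6, h5]
    · have h6 : x ∉ A ∩ Sq x₀ y₀ M := fun h => hx' h.2
      rw [indicator_of_notMem hx', indicator_of_notMem h6, h5]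
      simp
  · have h6 : x ∉ A ∩ Sq x₀ y₀ M := fun h => hx h.1
    rw [indicator_of_notMem hx, indicator_of_notMem h6, h5]
    simp

theorem lcf (hC : CplStatement) (hV : VanStatement) (hE : EigStatement) (hI : SinStatement)
    (hO : OrtStatement) (hD : DiaStatement) : LcfStatement := by
  intro x₀ y₀ M A hM hA
  have h1 := hD (ℕ × ℕ) (fun k => ET x₀ y₀ M k 0) (fun k => 1 / (lam M k + 1))
    (res (Sq x₀ y₀ M)) (ind A) ?_ ?_ ?_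
  · rw [h1]
    refine tsum_congr fun k => ?_
    rw [lcf_norm hA k]
    congr 1
    have h4 := lcf_lam_nonneg hM k
    rw [Real.enorm_eq_ofReal_abs, ← ENNReal.ofReal_pow (abs_nonneg _), sq_abs, div_pow, one_pow]
  · intro i j hij
    rw [hO x₀ y₀ M hM i j, if_neg fun h => hij h.1]
  · intro k
    by_cases hk : 0 < k.1 ∧ 0 < k.2
    · right
      have h2 := hO x₀ y₀ M hM k k
      rw [if_pos ⟨rfl, hk⟩, real_inner_self_eq_norm_sq] at h2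
      exact (pow_eq_one_iff_of_nonneg (norm_nonneg _) two_ne_zero).1 h2
    · left
      have h2 := hO x₀ y₀ M hM k k
      rw [if_neg fun h => hk h.2] at h2
      exact inner_self_eq_zero.1 h2
  · intro f
    have h2 := hC x₀ y₀ M hM (res (Sq x₀ y₀ M) f)
    have h3 : ind (Sq x₀ y₀ M) (res (Sq x₀ y₀ M) f) = res (Sq x₀ y₀ M) f :=
      hV (Sq x₀ y₀ M) (cpl_isOpen x₀ y₀ M) _ ((co (Sq x₀ y₀ M) 0).adjoint f).2 0
    rw [h3] at h2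
    convert h2 using 2 with k
    rw [lcf_res hE hI hM k f]

end Pool.SqDrum
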