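import Mathlib
import Pool.Agent.Lib.MP_2805c2_an.SQ.Lcf

set_option autoImplicit false

/-!
# CMP: Rellich's theorem
-/

namespace Pool.SqDrum

open MeasureTheory Set Filter Topology
open scoped ENNReal ContDiff InnerProductSpace

theorem cmp_tail (hE : EigStatement) (hI : SinStatement) (hO : OrtStatement) {x₀ y₀ M : ℝ}
    (hM : 0 < M) (T' : Finset (ℕ × ℕ)) {R : ℝ} (h : ∀ k ∈ T', R ≤ lam M k)
    (F : H (Sq x₀ y₀ M)) :
    (R + 1) * ‖∑ k ∈ T', ⟪ET x₀ y₀ M k 0, (F : LL) 0⟫_ℝ • ET x₀ y₀ M k 0‖ ^ 2 ≤ ‖F‖ ^ 2 := by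
  set a : ℕ × ℕ → ℝ := fun k => ⟪ET x₀ y₀ M k 0, (F : LL) 0⟫_ℝ with ha
  let E : ℕ × ℕ → H (Sq x₀ y₀ M) := fun k => ⟨ET x₀ y₀ M k, hI x₀ y₀ M k hM⟩
  set G : H (Sq x₀ y₀ M) := ∑ k ∈ T', a k • E k with hG
  have hco : ∀ k, co (Sq x₀ y₀ M) 0 (E k) = ET x₀ y₀ M k 0 := fun k => rfl
  have hG0 : co (Sq x₀ y₀ M) 0 G = ∑ k ∈ T', a k • ET x₀ y₀ M k 0 := by
    rw [hG, map_sum]
    refine Finset.sum_congr rfl fun k _ => ?_
    rw [map_smul, hco]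
  have hG0' : ((G : LL) 0 : L2) = ∑ k ∈ T', a k • ET x₀ y₀ M k 0 := hG0
  have ha0 : ∀ k, ¬ (0 < k.1 ∧ 0 < k.2) → a k = 0 := by
    intro k hk
    have h1 := hO x₀ y₀ M hM k k
    rw [if_neg fun h => hk h.2] at h1
    have h2 : ET x₀ y₀ M k 0 = 0 := inner_self_eq_zero.1 h1
    rw [ha]; simp only; rw [h2, inner_zero_left]
  have h1 : ∀ k ∈ T', ⟪ET x₀ y₀ M k 0, (G : LL) 0⟫_ℝ = a k := by
    intro k hk
    rw [hG0', inner_sum]
    rw [Finset.sum_eq_single k]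
    · rw [inner_smul_right, hO x₀ y₀ M hM k k]
      by_cases hk' : 0 < k.1 ∧ 0 < k.2
      · rw [if_pos ⟨rfl, hk'⟩, mul_one]
      · rw [ha0 k hk', zero_mul]
    · intro l _ hl
      rw [inner_smul_right, hO x₀ y₀ M hM k l, if_neg fun h => hl h.1.symm, mul_zero]
    · intro h; exact absurd hk h
  have h2 : ∀ F' : H (Sq x₀ y₀ M), ⟪G, F'⟫_ℝ =
      ∑ k ∈ T', a k * ((lam M k + 1) * ⟪ET x₀ y₀ M k 0, (F' : LL) 0⟫_ℝ) := by
    intro F'
    rw [hG, sum_inner]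
    refine Finset.sum_congr rfl fun k _ => ?_
    have h7 : ⟪a k • E k, F'⟫_ℝ = a k * ⟪E k, F'⟫_ℝ := real_inner_smul_left (E k) F' (a k)
    have h8 : ⟪E k, F'⟫_ℝ = (lam M k + 1) * ⟪ET x₀ y₀ M k 0, (F' : LL) 0⟫_ℝ :=
      lcf_pair hE hI hM k F'
    rw [h7, h8]
  have h3 : ‖G‖ ^ 2 = ∑ k ∈ T', a k * ((lam M k + 1) * a k) := by
    rw [← real_inner_self_eq_norm_sq, h2 G]
    exact Finset.sum_congr rfl fun k hk => by rw [h1 k hk]
  have h4 : ⟪G, F⟫_ℝ = ‖G‖ ^ 2 := by rw [h2 F, h3]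
  have h5 : ‖∑ k ∈ T', a k • ET x₀ y₀ M k 0‖ ^ 2 = ∑ k ∈ T', a k * a k := by
    rw [← hG0', ← real_inner_self_eq_norm_sq]
    have : ∀ f : L2, ⟪∑ k ∈ T', a k • ET x₀ y₀ M k 0, f⟫_ℝ =
        ∑ k ∈ T', a k * ⟪ET x₀ y₀ M k 0, f⟫_ℝ := by
      intro f
      rw [sum_inner]
      exact Finset.sum_congr rfl fun k _ => by rw [real_inner_smul_left]
    have h6 := this ((G : LL) 0)
    rw [← hG0'] at h6
    rw [h6]
    exact Finset.sum_congr rfl fun k hk => by rw [h1 k hk]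
  have h6 : ‖G‖ ≤ ‖F‖ := by
    have h7 := real_inner_le_norm G F
    rw [h4] at h7
    by_contra hlt
    push Not at hlt
    have h8 : 0 < ‖G‖ := lt_of_le_of_lt (norm_nonneg _) hlt
    nlinarith
  have h7 : (R + 1) * ‖∑ k ∈ T', a k • ET x₀ y₀ M k 0‖ ^ 2 ≤ ‖G‖ ^ 2 := by
    rw [h5, h3, Finset.mul_sum]
    refine Finset.sum_le_sum fun k hk => ?_
    have := h k hk
    nlinarith [mul_self_nonneg (a k)]
  refine h7.trans ?_
  exact pow_le_pow_left₀ (norm_nonneg _) h6 2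

theorem cmp_tail' (hC : CplStatement) (hV : VanStatement) (hE : EigStatement) (hI : SinStatement)
    (hO : OrtStatement) {x₀ y₀ M : ℝ}
    (hM : 0 < M) (S : Finset (ℕ × ℕ)) {R : ℝ} (h : ∀ k, k ∉ S → R ≤ lam M k)
    (F : H (Sq x₀ y₀ M)) :
    (R + 1) * ‖(F : LL) 0 - ∑ k ∈ S, ⟪ET x₀ y₀ M k 0, (F : LL) 0⟫_ℝ • ET x₀ y₀ M k 0‖ ^ 2
      ≤ ‖F‖ ^ 2 := by
  classical
  have h1 : HasSum (fun k : ℕ × ℕ => ⟪ET x₀ y₀ M k 0, (F : LL) 0⟫_ℝ • ET x₀ y₀ M k 0)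
      ((F : LL) 0) := by
    have h2 := hC x₀ y₀ M hM ((F : LL) 0)
    rwa [hV (Sq x₀ y₀ M) (cpl_isOpen x₀ y₀ M) F F.2 0] at h2
  have h2 : Tendsto (fun T : Finset (ℕ × ℕ) => (R + 1) *
      ‖∑ k ∈ T, ⟪ET x₀ y₀ M k 0, (F : LL) 0⟫_ℝ • ET x₀ y₀ M k 0 -
        ∑ k ∈ S, ⟪ET x₀ y₀ M k 0, (F : LL) 0⟫_ℝ • ET x₀ y₀ M k 0‖ ^ 2) atTop
      (𝓝 ((R + 1) * ‖(F : LL) 0 -
        ∑ k ∈ S, ⟪ET x₀ y₀ M k 0, (F : LL) 0⟫_ℝ • ET x₀ y₀ M k 0‖ ^ 2)) :=
    ((Filter.Tendsto.sub_const h1 _).norm.pow 2).const_mul _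
  refine le_of_tendsto h2 ?_
  filter_upwards [eventually_ge_atTop S] with T hT
  rw [← Finset.sum_sdiff hT, add_sub_cancel_right]
  exact cmp_tail hE hI hO hM (T \ S) (fun k hk => h k (Finset.mem_sdiff.1 hk).2) F

/-- Rellich's theorem for a square -/
theorem cmp_sq (hC : CplStatement) (hV : VanStatement) (hE : EigStatement) (hI : SinStatement)
    (hO : OrtStatement) {x₀ y₀ M : ℝ} (hM : 0 < M) : IsCompactOperator (co (Sq x₀ y₀ M) 0) := by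
  classical
  let P : ℕ → H (Sq x₀ y₀ M) →L[ℝ] L2 := fun n =>
    ∑ k ∈ Finset.range n ×ˢ Finset.range n,
      (ContinuousLinearMap.toSpanSingleton ℝ (ET x₀ y₀ M k 0)).comp
        ((innerSL ℝ (ET x₀ y₀ M k 0)).comp (co (Sq x₀ y₀ M) 0))
  have hPapp : ∀ n (F : H (Sq x₀ y₀ M)), P n F =
      ∑ k ∈ Finset.range n ×ˢ Finset.range n,
        ⟪ET x₀ y₀ M k 0, (F : LL) 0⟫_ℝ • ET x₀ y₀ M k 0 := by
    intro n F
    simp only [P, _root_.sum_apply]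
    rfl
  have hPc : ∀ n, IsCompactOperator (P n) := by
    intro n
    have h1 : P n ∈ compactOperator (RingHom.id ℝ) (H (Sq x₀ y₀ M)) L2 := by
      refine Submodule.sum_mem _ fun k _ => ?_
      show IsCompactOperator _
      have h2 : IsCompactOperator (((innerSL ℝ (ET x₀ y₀ M k 0)).comp (co (Sq x₀ y₀ M) 0) :
          H (Sq x₀ y₀ M) →L[ℝ] ℝ)) := by
        refine ⟨Metric.closedBall 0 1, isCompact_closedBall 0 1, ?_⟩
        exact ((innerSL ℝ (ET x₀ y₀ M k 0)).comp (co (Sq x₀ y₀ M) 0)).continuous.continuousAt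
          (by rw [map_zero]; exact Metric.closedBall_mem_nhds 0 one_pos)
      exact h2.clm_comp (ContinuousLinearMap.toSpanSingleton ℝ (ET x₀ y₀ M k 0))
    exact h1
  have hb : ∀ n : ℕ, ‖P (n + 1) - co (Sq x₀ y₀ M) 0‖ ≤ M / Real.pi * (1 / ((n : ℝ) + 1)) := by
    intro n
    have hn : (0 : ℝ) < (n : ℝ) + 1 := by positivity
    refine ContinuousLinearMap.opNorm_le_bound _ (by positivity) fun F => ?_
    have h1 := cmp_tail' hC hV hE hI hO hM (Finset.range (n + 1) ×ˢ Finset.range (n + 1))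
      (R := (Real.pi * ((n : ℝ) + 1) / M) ^ 2) (by
        intro k hk
        rw [Finset.mem_product, Finset.mem_range, Finset.mem_range, not_and_or, not_lt, not_lt] at hk
        unfold lam
        rw [div_pow, div_le_div_iff_of_pos_right (by positivity), mul_pow]
        refine mul_le_mul_of_nonneg_left ?_ (by positivity)
        rcases hk with hk | hk
        · have h2 : (n : ℝ) + 1 ≤ (k.1 : ℝ) := by exact_mod_cast hk
          nlinarith [sq_nonneg (k.2 : ℝ)]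
        · have h2 : (n : ℝ) + 1 ≤ (k.2 : ℝ) := by exact_mod_cast hk
          nlinarith [sq_nonneg (k.1 : ℝ)]) F
    have h2 : (P (n + 1) - co (Sq x₀ y₀ M) 0) F = -((F : LL) 0 -
        ∑ k ∈ Finset.range (n + 1) ×ˢ Finset.range (n + 1),
          ⟪ET x₀ y₀ M k 0, (F : LL) 0⟫_ℝ • ET x₀ y₀ M k 0) := by
      have h3 : (P (n + 1) - co (Sq x₀ y₀ M) 0) F = P (n + 1) F - (F : LL) 0 := rfl
      rw [h3, hPapp]
      abel
    rw [h2, norm_neg]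
    set X := ‖(F : LL) 0 - ∑ k ∈ Finset.range (n + 1) ×ˢ Finset.range (n + 1),
          ⟪ET x₀ y₀ M k 0, (F : LL) 0⟫_ℝ • ET x₀ y₀ M k 0‖ with hX
    have hX0 : 0 ≤ X := norm_nonneg _
    have h3 : (Real.pi * ((n : ℝ) + 1) / M * X) ^ 2 ≤ ‖F‖ ^ 2 := by
      rw [mul_pow]; nlinarith [sq_nonneg X]
    have h4 : Real.pi * ((n : ℝ) + 1) / M * X ≤ ‖F‖ :=
      (abs_le_of_sq_le_sq' h3 (norm_nonneg _)).2
    have h5 : X = M / Real.pi * (1 / ((n : ℝ) + 1)) * (Real.pi * ((n : ℝ) + 1) / M * X) := by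
      field_simp
    rw [h5]
    exact mul_le_mul_of_nonneg_left h4 (by positivity)
  have hlim : Tendsto (fun n => P (n + 1)) atTop (𝓝 (co (Sq x₀ y₀ M) 0)) := by
    have h1 : Tendsto (fun n : ℕ => M / Real.pi * (1 / ((n : ℝ) + 1))) atTop (𝓝 0) := by
      have := tendsto_one_div_add_atTop_nhds_zero_nat (𝕜 := ℝ)
      simpa using this.const_mul (M / Real.pi)
    have h2 : Tendsto (fun n : ℕ => ‖P (n + 1) - co (Sq x₀ y₀ M) 0‖) atTop (𝓝 0) :=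
      squeeze_zero (fun n => ContinuousLinearMap.opNorm_nonneg _) hb h1
    exact (tendsto_iff_norm_sub_tendsto_zero (E := H (Sq x₀ y₀ M) →L[ℝ] L2)).2 h2
  exact isCompactOperator_of_tendsto hlim (Eventually.of_forall fun n => hPc (n + 1))

theorem cmp (hC : CplStatement) (hV : VanStatement) (hE : EigStatement) (hI : SinStatement)
    (hO : OrtStatement) : CmpStatement := by
  intro Ω hΩ hb
  obtain ⟨R, hR⟩ := hb.subset_closedBall 0
  set M : ℝ := 2 * (|R| + 1) with hM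
  have hM0 : 0 < M := by positivity
  have hsub : Ω ⊆ Sq (-(|R| + 1)) (-(|R| + 1)) M := by
    intro x hx
    have h1 := hR hx
    rw [mem_closedBall_zero_iff, Prod.norm_def] at h1
    have h2 := (le_max_left _ _).trans h1
    have h3 := (le_max_right _ _).trans h1
    rw [Real.norm_eq_abs, abs_le] at h2 h3
    have h4 := le_abs_self R
    refine ⟨⟨by linarith [h2.1], by rw [hM]; linarith [h2.2]⟩,
      ⟨by linarith [h3.1], by rw [hM]; linarith [h3.2]⟩⟩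
  have h1 := cmp_sq hC hV hE hI hO (x₀ := -(|R| + 1)) (y₀ := -(|R| + 1)) hM0
  let J : H Ω →L[ℝ] H (Sq (-(|R| + 1)) (-(|R| + 1)) M) :=
    (H Ω).subtypeL.codRestrict _ fun F => H_mono hsub F.2
  exact h1.comp_clm J

end Pool.SqDrum
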