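import Pool.Agent.Lib.MP_2805c2_an.SQ.Iface

set_option autoImplicit false

/-!
# CYC: ordering the vertices of a convex quadrilateral (helper82)
-/

namespace Pool.SqDrum

open Set

/-- A point with the only positive coefficient is in the convex hull of the other points. -/
theorem cyc_key {p : Fin 4 → P2} (hp : ∀ i, p i ∉ convexHull ℝ (p '' {j | j ≠ i}))
    (l : Fin 4 → ℝ) (hs : ∑ j, l j = 0) (hv : ∑ j, l j • p j = 0) (i : Fin 4) (hi : 0 < l i) :
    ∃ j, j ≠ i ∧ 0 < l j := by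
  by_contra hcon
  push Not at hcon
  apply hp i
  have h1 : p i = ∑ j ∈ Finset.univ.erase i, (-l j / l i) • p j := by
    rw [← Finset.add_sum_erase _ _ (Finset.mem_univ i)] at hv
    have h2 : ∑ j ∈ Finset.univ.erase i, (-l j / l i) • p j =
        (-(l i)⁻¹) • ∑ j ∈ Finset.univ.erase i, l j • p j := by
      rw [Finset.smul_sum]
      refine Finset.sum_congr rfl fun j _ => ?_
      rw [smul_smul]
      congr 1
      ring
    have h3 : ∑ j ∈ Finset.univ.erase i, l j • p j = -(l i • p i) :=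
      (neg_eq_of_add_eq_zero_right hv).symm
    rw [h2, h3, smul_neg, neg_smul, neg_neg, smul_smul, inv_mul_cancel₀ hi.ne', one_smul]
  rw [h1]
  refine (convex_convexHull ℝ _).sum_mem (fun j hj => ?_) ?_ (fun j hj => ?_)
  · have := hcon j (Finset.ne_of_mem_erase hj)
    exact div_nonneg (by linarith) hi.le
  · rw [← Finset.add_sum_erase _ _ (Finset.mem_univ i)] at hs
    rw [← Finset.sum_div, Finset.sum_neg_distrib, div_eq_one_iff_eq hi.ne']
    linarith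
  · exact subset_convexHull ℝ _ ⟨j, Finset.ne_of_mem_erase hj, rfl⟩

/-- Two coefficients are positive and two are negative. -/
theorem cyc_two {p : Fin 4 → P2} (hp : ∀ i, p i ∉ convexHull ℝ (p '' {j | j ≠ i}))
    (a b c d : ℝ) (hs : a + b + c + d = 0)
    (hv : a • p 0 + b • p 1 + c • p 2 + d • p 3 = 0) :
    (a = 0 ∧ b = 0 ∧ c = 0 ∧ d = 0) ∨ (0 < a ∧ 0 < b ∧ c < 0 ∧ d < 0) ∨
    (0 < a ∧ 0 < c ∧ b < 0 ∧ d < 0) ∨ (0 < a ∧ 0 < d ∧ b < 0 ∧ c < 0) ∨
    (0 < b ∧ 0 < c ∧ a < 0 ∧ d < 0) ∨ (0 < b ∧ 0 < d ∧ a < 0 ∧ c < 0) ∨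
    (0 < c ∧ 0 < d ∧ a < 0 ∧ b < 0) := by
  have K : ∀ a b c d : ℝ, a + b + c + d = 0 → a • p 0 + b • p 1 + c • p 2 + d • p 3 = 0 →
      (0 < a → 0 < b ∨ 0 < c ∨ 0 < d) ∧ (0 < b → 0 < a ∨ 0 < c ∨ 0 < d) ∧
      (0 < c → 0 < a ∨ 0 < b ∨ 0 < d) ∧ (0 < d → 0 < a ∨ 0 < b ∨ 0 < c) := by
    intro a b c d hs hv
    have e1 : ∑ j, (![a, b, c, d] : Fin 4 → ℝ) j = 0 := by
      rw [Fin.sum_univ_four]; simpa using hs
    have e2 : ∑ j, (![a, b, c, d] : Fin 4 → ℝ) j • p j = 0 := by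
      rw [Fin.sum_univ_four]; simpa using hv
    have k := cyc_key hp ![a, b, c, d] e1 e2
    refine ⟨fun h => ?_, fun h => ?_, fun h => ?_, fun h => ?_⟩
    · obtain ⟨j, hj, h2⟩ := k 0 (by simpa using h)
      fin_cases j <;> simp_all
    · obtain ⟨j, hj, h2⟩ := k 1 (by simpa using h)
      fin_cases j <;> simp_all
    · obtain ⟨j, hj, h2⟩ := k 2 (by simpa using h)
      fin_cases j <;> simp_all
    · obtain ⟨j, hj, h2⟩ := k 3 (by simpa using h)
      fin_cases j <;> simp_all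
  obtain ⟨p0, p1, p2, p3⟩ := K a b c d hs hv
  obtain ⟨n0, n1, n2, n3⟩ := K (-a) (-b) (-c) (-d) (by linarith) (by
    simp only [neg_smul]
    rw [← neg_add, ← neg_add, ← neg_add, hv, neg_zero])
  simp only [Left.neg_pos_iff] at n0 n1 n2 n3
  rcases lt_trichotomy a 0 with ha | ha | ha <;> rcases lt_trichotomy b 0 with hb | hb | hb <;>
    rcases lt_trichotomy c 0 with hc | hc | hc <;> rcases lt_trichotomy d 0 with hd | hd | hd <;>
    first
      | (exfalso; linarith)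
      | (simp only [ha, hb, hc, hd, true_and, and_true, true_or, or_true, and_self]; done)
      | (exfalso; rcases p0 ha with h | h | h <;> linarith)
      | (exfalso; rcases p1 hb with h | h | h <;> linarith)
      | (exfalso; rcases p2 hc with h | h | h <;> linarith)
      | (exfalso; rcases p3 hd with h | h | h <;> linarith)
      | (exfalso; rcases n0 ha with h | h | h <;> linarith)
      | (exfalso; rcases n1 hb with h | h | h <;> linarith)
      | (exfalso; rcases n2 hc with h | h | h <;> linarith)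
      | (exfalso; rcases n3 hd with h | h | h <;> linarith)

/-- Orientation of a triangle. -/
theorem cyc_ccw {q : Fin 4 → P2} (h1 : 0 < det2 (q 1 - q 0) (q 2 - q 0))
    (h2 : 0 < det2 (q 2 - q 1) (q 3 - q 1)) (h3 : 0 < det2 (q 3 - q 2) (q 0 - q 2))
    (h4 : 0 < det2 (q 0 - q 3) (q 1 - q 3)) : Ccw q := by
  intro i j hi hj
  simp only [det2, Prod.fst_sub, Prod.snd_sub] at h1 h2 h3 h4 ⊢
  fin_cases i <;> fin_cases j <;> simp at hi hj ⊢ <;> linarith

theorem cyc : CycStatement := by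
  intro p hp
  -- the four triangles
  obtain ⟨x0, y0, e0⟩ : ∃ x y, p 0 = (x, y) := ⟨_, _, rfl⟩
  obtain ⟨x1, y1, e1⟩ : ∃ x y, p 1 = (x, y) := ⟨_, _, rfl⟩
  obtain ⟨x2, y2, e2⟩ : ∃ x y, p 2 = (x, y) := ⟨_, _, rfl⟩
  obtain ⟨x3, y3, e3⟩ : ∃ x y, p 3 = (x, y) := ⟨_, _, rfl⟩
  have T : ∀ a b c d : ℝ, a + b + c + d = 0 → a * x0 + b * x1 + c * x2 + d * x3 = 0 →
      a * y0 + b * y1 + c * y2 + d * y3 = 0 → _ := fun a b c d h hx hy =>
    cyc_two hp a b c d h (by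
      rw [e0, e1, e2, e3]
      ext
      · simpa using hx
      · simpa using hy)
  have main := T ((x2 - x1) * (y3 - y1) - (y2 - y1) * (x3 - x1))
    (-((x2 - x0) * (y3 - y0) - (y2 - y0) * (x3 - x0)))
    ((x1 - x0) * (y3 - y0) - (y1 - y0) * (x3 - x0))
    (-((x1 - x0) * (y2 - y0) - (y1 - y0) * (x2 - x0))) (by ring) (by ring) (by ring)
  rcases main with ⟨h0, h1, h2, h3⟩ | ⟨h0, h1, h2, h3⟩ | ⟨h0, h1, h2, h3⟩ | ⟨h0, h1, h2, h3⟩ |
    ⟨h0, h1, h2, h3⟩ | ⟨h0, h1, h2, h3⟩ | ⟨h0, h1, h2, h3⟩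
  · -- all points on a line
    exfalso
    by_cases h01 : x1 = x0 ∧ y1 = y0
    · apply hp 0
      apply subset_convexHull
      refine ⟨1, by simp, ?_⟩
      rw [e0, e1, h01.1, h01.2]
    · have hpos : 0 < (x1 - x0) ^ 2 + (y1 - y0) ^ 2 := by
        by_contra hcon
        apply h01
        have i1 : (x1 - x0) ^ 2 = 0 := by nlinarith [sq_nonneg (x1 - x0), sq_nonneg (y1 - y0)]
        have i2 : (y1 - y0) ^ 2 = 0 := by nlinarith [sq_nonneg (x1 - x0), sq_nonneg (y1 - y0)]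
        constructor
        · nlinarith [pow_eq_zero_iff (two_ne_zero) |>.1 i1]
        · nlinarith [pow_eq_zero_iff (two_ne_zero) |>.1 i2]
      set N := (x1 - x0) ^ 2 + (y1 - y0) ^ 2 with hN
      set S := (x1 - x0) * (x2 - x0) + (y1 - y0) * (y2 - y0) with hS
      have k := T (N - S) S (-N) 0 (by ring)
        (by rw [hN, hS]; linear_combination (-(y1 - y0)) * h3)
        (by rw [hN, hS]; linear_combination (x1 - x0) * h3)
      rcases k with k | k | k | k | k | k | k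
      · linarith [k.2.2.1]
      · exact lt_irrefl _ k.2.2.2
      · exact lt_irrefl _ k.2.2.2
      · exact lt_irrefl _ k.2.1
      · exact lt_irrefl _ k.2.2.2
      · exact lt_irrefl _ k.2.1
      · exact lt_irrefl _ k.2.1
  · refine ⟨⟨![0, 3, 1, 2], ![0, 2, 3, 1], by decide, by decide⟩, cyc_ccw ?_ ?_ ?_ ?_⟩ <;>
      simp [e0, e1, e2, e3, det2] <;> linarith
  · refine ⟨⟨![0, 1, 2, 3], ![0, 1, 2, 3], by decide, by decide⟩, cyc_ccw ?_ ?_ ?_ ?_⟩ <;>
      simp [e0, e1, e2, e3, det2] <;> linarith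
  · refine ⟨⟨![0, 2, 3, 1], ![0, 3, 1, 2], by decide, by decide⟩, cyc_ccw ?_ ?_ ?_ ?_⟩ <;>
      simp [e0, e1, e2, e3, det2] <;> linarith
  · refine ⟨⟨![0, 1, 3, 2], ![0, 1, 3, 2], by decide, by decide⟩, cyc_ccw ?_ ?_ ?_ ?_⟩ <;>
      simp [e0, e1, e2, e3, det2] <;> linarith
  · refine ⟨⟨![0, 3, 2, 1], ![0, 3, 2, 1], by decide, by decide⟩, cyc_ccw ?_ ?_ ?_ ?_⟩ <;>
      simp [e0, e1, e2, e3, det2] <;> linarith
  · refine ⟨⟨![0, 2, 1, 3], ![0, 2, 1, 3], by decide, by decide⟩, cyc_ccw ?_ ?_ ?_ ?_⟩ <;>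
      simp [e0, e1, e2, e3, det2] <;> linarith

end Pool.SqDrum
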