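import Pool.Agent.Lib.MP_2805c2_an.SQ.Iface

set_option autoImplicit false

/-!
# Module DIA (helper72): Hilbert–Schmidt norms of diagonal operators
-/

namespace Pool.SqDrum

open MeasureTheory Set Filter Topology
open scoped ENNReal InnerProductSpace

theorem dia_parseval {ι : Type} (b : HilbertBasis ι ℝ L2) (f : L2) :
    ‖f‖ₑ ^ 2 = ∑' i, ‖⟪b i, f⟫_ℝ‖ₑ ^ 2 := by
  have h := b.hasSum_inner_mul_inner f f
  have e1 : ∀ i, ⟪f, b i⟫_ℝ * ⟪b i, f⟫_ℝ = ‖⟪b i, f⟫_ℝ‖ ^ 2 := fun i => by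
    rw [real_inner_comm, Real.norm_eq_abs, sq_abs, sq]
  simp only [e1, real_inner_self_eq_norm_sq] at h
  have e2 : ∀ x : ℝ, ‖x‖ₑ ^ 2 = ENNReal.ofReal (‖x‖ ^ 2) := fun x => by
    rw [ENNReal.ofReal_pow (norm_nonneg _), ofReal_norm]
  rw [← ofReal_norm, ← ENNReal.ofReal_pow (norm_nonneg _), ← h.tsum_eq,
    ENNReal.ofReal_tsum_of_nonneg (fun i => by positivity) h.summable]
  exact tsum_congr fun i => (e2 _).symm

/-- **DIA** -/
theorem dia (hb : HsbStatement) : DiaStatement := by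
  intro ι v κ G M horth hnorm hG
  have hin : ∀ f g, HasSum (fun i => κ i * ⟪v i, f⟫_ℝ * ⟪v i, g⟫_ℝ) ⟪G f, g⟫_ℝ := by
    intro f g
    have h1 := (hG f).mapL (innerSL ℝ g)
    simp only [innerSL_apply_apply, inner_smul_right] at h1
    rw [real_inner_comm]
    have e : (fun i => κ i * ⟪v i, f⟫_ℝ * ⟪v i, g⟫_ℝ) =
        fun i => κ i * ⟪v i, f⟫_ℝ * ⟪g, v i⟫_ℝ := by
      funext i
      rw [real_inner_comm g (v i)]
    rw [e]
    exact h1
  have hself : G.adjoint = G := by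
    ext1 f
    refine ext_inner_right ℝ fun g => ?_
    rw [ContinuousLinearMap.adjoint_inner_left, real_inner_comm]
    refine (hin g f).unique ?_
    convert hin f g using 2 with i
    ring
  have hv : ∀ i h, ⟪v i, G h⟫_ℝ = κ i * ⟪v i, h⟫_ℝ * ‖v i‖ ^ 2 := by
    intro i h
    have h1 := hin h (v i)
    rw [real_inner_comm] at h1
    have h2 := hasSum_single (f := fun j => κ j * ⟪v j, h⟫_ℝ * ⟪v j, v i⟫_ℝ) i fun j hj => by
      rw [horth j i hj, mul_zero]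
    rw [h1.unique h2, real_inner_self_eq_norm_sq]
  have hGn : ∀ h, ‖G h‖ₑ ^ 2 = ∑' i, ‖κ i‖ₑ ^ 2 * (‖⟪v i, h⟫_ℝ‖ₑ ^ 2 * ‖v i‖ₑ ^ 2) := by
    intro h
    have h1 := hin h (G h)
    rw [real_inner_self_eq_norm_sq] at h1
    have e1 : ∀ i, κ i * ⟪v i, h⟫_ℝ * ⟪v i, G h⟫_ℝ =
        ‖κ i‖ ^ 2 * (‖⟪v i, h⟫_ℝ‖ ^ 2 * ‖v i‖ ^ 2) := by
      intro i
      rw [hv, Real.norm_eq_abs, Real.norm_eq_abs, sq_abs, sq_abs]
      ring
    simp only [e1] at h1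
    have e2 : ∀ i, ‖κ i‖ₑ ^ 2 * (‖⟪v i, h⟫_ℝ‖ₑ ^ 2 * ‖v i‖ₑ ^ 2) =
        ENNReal.ofReal (‖κ i‖ ^ 2 * (‖⟪v i, h⟫_ℝ‖ ^ 2 * ‖v i‖ ^ 2)) := by
      intro i
      rw [ENNReal.ofReal_mul (by positivity), ENNReal.ofReal_mul (by positivity),
        ENNReal.ofReal_pow (norm_nonneg _), ENNReal.ofReal_pow (norm_nonneg _),
        ENNReal.ofReal_pow (norm_nonneg _), ofReal_norm, ofReal_norm,
        ofReal_norm]
    rw [← ofReal_norm, ← ENNReal.ofReal_pow (norm_nonneg _), ← h1.tsum_eq,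
      ENNReal.ofReal_tsum_of_nonneg (fun i => by positivity) h1.summable]
    exact tsum_congr fun i => (e2 i).symm
  have h1 := (hb (M.comp G) _ stdB.2).2
  have e3 : ∀ b, ‖(M.comp G).adjoint (stdB.2 b)‖ₑ ^ 2 =
      ∑' i, ‖κ i‖ₑ ^ 2 * (‖⟪v i, M.adjoint (stdB.2 b)⟫_ℝ‖ₑ ^ 2 * ‖v i‖ₑ ^ 2) := by
    intro b
    rw [ContinuousLinearMap.adjoint_comp, hself, ContinuousLinearMap.comp_apply, hGn]
  simp only [e3] at h1
  rw [h1, ENNReal.tsum_comm]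
  refine tsum_congr fun i => ?_
  rw [ENNReal.tsum_mul_left]
  congr 1
  rcases hnorm i with h0 | h0
  · simp [h0]
  · have h2 : ‖v i‖ₑ = 1 := by
      rw [← ofReal_norm, h0, ENNReal.ofReal_one]
    simp only [h2, one_pow, mul_one]
    rw [dia_parseval stdB.2 (M (v i))]
    refine tsum_congr fun b => ?_
    rw [ContinuousLinearMap.adjoint_inner_right, real_inner_comm]

end Pool.SqDrum
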