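import Mathlib
import Pool.Agent.Lib.MP_2805c2_an.SQ.Iface

set_option autoImplicit false

/-!
# IBP: integration by parts against elements of `H Ω`
-/

namespace Pool.SqDrum

open MeasureTheory Set Filter Topology
open scoped ENNReal ContDiff InnerProductSpace

theorem ibp_memLp {Ω : Set P2} (hΩ : IsOpen Ω) {g : P2 → ℝ} (hg : Continuous g)
    (h : Bornology.IsBounded Ω ∨ HasCompactSupport g) :
    MemLp (Ω.indicator g) 2 (volume : Measure P2) := by
  rcases h with h | h
  · rw [memLp_indicator_iff_restrict hΩ.measurableSet]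
    have hK : IsCompact (closure Ω) := h.isCompact_closure
    obtain ⟨C, hC⟩ := hK.exists_bound_of_continuousOn hg.continuousOn
    have hfin : IsFiniteMeasure ((volume : Measure P2).restrict Ω) :=
      ⟨by
        rw [Measure.restrict_apply_univ]
        exact lt_of_le_of_lt (measure_mono subset_closure) hK.measure_lt_top⟩
    refine MemLp.of_bound hg.aestronglyMeasurable C ?_
    exact ae_restrict_of_forall_mem hΩ.measurableSet fun x hx => hC x (subset_closure hx)
  · exact (hg.memLp_of_hasCompactSupport h).indicator hΩ.measurableSet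

theorem ibp_inner {Ω : Set P2} (hΩ : IsOpen Ω) {g : P2 → ℝ} (hg : Continuous g)
    (h : Bornology.IsBounded Ω ∨ HasCompactSupport g) {u : P2 → ℝ}
    (hu : MemLp u 2 (volume : Measure P2)) (h0 : ∀ x, x ∉ Ω → u x = 0) :
    ⟪cl (Ω.indicator g), cl u⟫_ℝ = ∫ x, g x * u x := by
  rw [inner_eq]
  refine integral_congr_ae ?_
  filter_upwards [cl_coe (ibp_memLp hΩ hg h), cl_coe hu] with x h1 h2
  rw [h1, h2]
  by_cases hx : x ∈ Ω
  · rw [Set.indicator_of_mem hx]
  · rw [h0 x hx, mul_zero, mul_zero]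

/-- integration by parts in the direction `v` for two smooth functions, one of which has
compact support -/
theorem ibp_dir {ψ φ : P2 → ℝ} (hψ : ContDiff ℝ ∞ ψ) (hφ : ContDiff ℝ ∞ φ)
    (hc : HasCompactSupport φ) (v : P2) :
    ∫ x, ψ x * fderiv ℝ φ x v = -∫ x, fderiv ℝ ψ x v * φ x := by
  have cψ : Continuous ψ := hψ.continuous
  have cφ : Continuous φ := hφ.continuous
  have dψ : Continuous fun x => fderiv ℝ ψ x v :=
    (hψ.continuous_fderiv (by simp)).clm_apply continuous_const
  have dφ : Continuous fun x => fderiv ℝ φ x v :=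
    (hφ.continuous_fderiv (by simp)).clm_apply continuous_const
  have sφ : HasCompactSupport fun x => fderiv ℝ φ x v := hc.fderiv_apply (𝕜 := ℝ) v
  refine integral_mul_fderiv_eq_neg_fderiv_mul_of_integrable ?_ ?_ ?_ ?_ ?_
  · exact (dψ.mul cφ).integrable_of_hasCompactSupport hc.mul_left
  · exact (cψ.mul dφ).integrable_of_hasCompactSupport sφ.mul_left
  · exact (cψ.mul cφ).integrable_of_hasCompactSupport hc.mul_left
  · exact fun x _ => hψ.differentiable (by simp) x
  · exact fun x _ => hφ.differentiable (by simp) x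

theorem ibp : IbpStatement := by
  intro Ω ψ hΩ hψ hb F hF
  have cψ : Continuous ψ := hψ.continuous
  have d1 : Continuous (pd1 ψ) :=
    (hψ.continuous_fderiv (by simp)).clm_apply (continuous_const (y := ((1, 0) : P2)))
  have d2 : Continuous (pd2 ψ) :=
    (hψ.continuous_fderiv (by simp)).clm_apply (continuous_const (y := ((0, 1) : P2)))
  have b1 : Bornology.IsBounded Ω ∨ HasCompactSupport (pd1 ψ) :=
    hb.imp id fun h => h.fderiv_apply (𝕜 := ℝ) (1, 0)
  have b2 : Bornology.IsBounded Ω ∨ HasCompactSupport (pd2 ψ) :=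
    hb.imp id fun h => h.fderiv_apply (𝕜 := ℝ) (0, 1)
  refine H_induction (P := fun F =>
      ⟪cl (Ω.indicator ψ), F 1⟫_ℝ = -⟪cl (Ω.indicator (pd1 ψ)), F 0⟫_ℝ ∧
      ⟪cl (Ω.indicator ψ), F 2⟫_ℝ = -⟪cl (Ω.indicator (pd2 ψ)), F 0⟫_ℝ) ?_ ?_ hF
  · rw [Set.setOf_and]
    have hc : ∀ i : Fin 3, Continuous fun F : LL => F i := fun i => PiLp.continuous_apply 2 _ i
    exact (isClosed_eq (continuous_const.inner (hc 1)) (continuous_const.inner (hc 0)).neg).inter
      (isClosed_eq (continuous_const.inner (hc 2)) (continuous_const.inner (hc 0)).neg)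
  · intro φ hφ
    constructor
    · rw [jet, trip_one, trip_zero, ibp_inner hΩ cψ hb hφ.pd1_memLp fun x hx => hφ.pd1_eq_zero hx,
        ibp_inner hΩ d1 b1 hφ.memLp fun x hx => hφ.eq_zero hx]
      exact ibp_dir hψ hφ.smooth hφ.compact (1, 0)
    · rw [jet, trip_two, trip_zero, ibp_inner hΩ cψ hb hφ.pd2_memLp fun x hx => hφ.pd2_eq_zero hx,
        ibp_inner hΩ d2 b2 hφ.memLp fun x hx => hφ.eq_zero hx]
      exact ibp_dir hψ hφ.smooth hφ.compact (0, 1)

end Pool.SqDrum
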