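import Mathlib
import Pool.Agent.Lib.MP_2805c2_an.SQ.Iface
import Pool.Agent.Lib.MP_2805c2_an.SQ.Ibp

set_option autoImplicit false

/-!
# EIG: the eigenfunctions of a square
-/

namespace Pool.SqDrum

open MeasureTheory Set Filter Topology
open scoped ENNReal ContDiff InnerProductSpace

/-- partial derivatives of a product of functions of one variable -/
theorem eig_prod {f g f' g' : ℝ → ℝ} (hf : ∀ t, HasDerivAt f (f' t) t)
    (hg : ∀ t, HasDerivAt g (g' t) t) :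
    pd1 (fun x => f x.1 * g x.2) = (fun x => f' x.1 * g x.2) ∧
    pd2 (fun x => f x.1 * g x.2) = (fun x => f x.1 * g' x.2) := by
  have h : ∀ x : P2, HasFDerivAt (fun x : P2 => f x.1 * g x.2)
      (f x.1 • (g' x.2 • ContinuousLinearMap.snd ℝ ℝ ℝ) +
        g x.2 • (f' x.1 • ContinuousLinearMap.fst ℝ ℝ ℝ)) x := fun x =>
    ((hf x.1).comp_hasFDerivAt x hasFDerivAt_fst).mul
      ((hg x.2).comp_hasFDerivAt x hasFDerivAt_snd)
  constructor
  · funext x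
    rw [pd1, (h x).fderiv]
    simp [mul_comm]
  · funext x
    rw [pd2, (h x).fderiv]
    simp

theorem eig_sin (c a x : ℝ) (M : ℝ) : HasDerivAt (fun x => Real.sin (c * (x - a) / M))
    (c / M * Real.cos (c * (x - a) / M)) x := by
  have h : HasDerivAt (fun x : ℝ => c * (x - a) / M) (c * 1 / M) x :=
    (((hasDerivAt_id x).sub_const a).const_mul c).div_const M
  refine h.sin.congr_deriv ?_
  ring

theorem eig_cos (c a x : ℝ) (M : ℝ) : HasDerivAt (fun x => c / M * Real.cos (c * (x - a) / M))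
    (-((c / M) ^ 2 * Real.sin (c * (x - a) / M))) x := by
  have h : HasDerivAt (fun x : ℝ => c * (x - a) / M) (c * 1 / M) x :=
    (((hasDerivAt_id x).sub_const a).const_mul c).div_const M
  refine (h.cos.const_mul (c / M)).congr_deriv ?_
  ring

theorem eig_ef (x₀ y₀ M : ℝ) (k : ℕ × ℕ) : ef x₀ y₀ M k = fun x : P2 =>
    (2 / M * Real.sin (k.1 * Real.pi * (x.1 - x₀) / M)) *
      Real.sin (k.2 * Real.pi * (x.2 - y₀) / M) := by
  funext x; unfold ef; ring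

theorem eig_pd1 (x₀ y₀ M : ℝ) (k : ℕ × ℕ) : pd1 (ef x₀ y₀ M k) = fun x : P2 =>
    (2 / M * (k.1 * Real.pi / M * Real.cos (k.1 * Real.pi * (x.1 - x₀) / M))) *
      Real.sin (k.2 * Real.pi * (x.2 - y₀) / M) := by
  rw [eig_ef]
  exact (eig_prod (fun t => (eig_sin (k.1 * Real.pi) x₀ t M).const_mul (2 / M))
    (fun t => eig_sin (k.2 * Real.pi) y₀ t M)).1

theorem eig_pd2 (x₀ y₀ M : ℝ) (k : ℕ × ℕ) : pd2 (ef x₀ y₀ M k) = fun x : P2 =>
    (2 / M * Real.sin (k.1 * Real.pi * (x.1 - x₀) / M)) *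
      (k.2 * Real.pi / M * Real.cos (k.2 * Real.pi * (x.2 - y₀) / M)) := by
  rw [eig_ef]
  exact (eig_prod (fun t => (eig_sin (k.1 * Real.pi) x₀ t M).const_mul (2 / M))
    (fun t => eig_sin (k.2 * Real.pi) y₀ t M)).2

theorem eig_pd11 (x₀ y₀ M : ℝ) (k : ℕ × ℕ) : pd1 (pd1 (ef x₀ y₀ M k)) = fun x : P2 =>
    -((k.1 * Real.pi / M) ^ 2 * ef x₀ y₀ M k x) := by
  rw [eig_pd1, (eig_prod (fun t => (eig_cos (k.1 * Real.pi) x₀ t M).const_mul (2 / M))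
    (fun t => eig_sin (k.2 * Real.pi) y₀ t M)).1]
  funext x; rw [eig_ef]; ring

theorem eig_pd22 (x₀ y₀ M : ℝ) (k : ℕ × ℕ) : pd2 (pd2 (ef x₀ y₀ M k)) = fun x : P2 =>
    -((k.2 * Real.pi / M) ^ 2 * ef x₀ y₀ M k x) := by
  rw [eig_pd2, (eig_prod (fun t => (eig_sin (k.1 * Real.pi) x₀ t M).const_mul (2 / M))
    (fun t => eig_cos (k.2 * Real.pi) y₀ t M)).2]
  funext x; rw [eig_ef]; ring

theorem eig_smooth (x₀ y₀ M : ℝ) (k : ℕ × ℕ) : ContDiff ℝ ∞ (ef x₀ y₀ M k) := by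
  rw [eig_ef]
  fun_prop

theorem eig_smooth1 (x₀ y₀ M : ℝ) (k : ℕ × ℕ) : ContDiff ℝ ∞ (pd1 (ef x₀ y₀ M k)) := by
  rw [eig_pd1]
  fun_prop

theorem eig_smooth2 (x₀ y₀ M : ℝ) (k : ℕ × ℕ) : ContDiff ℝ ∞ (pd2 (ef x₀ y₀ M k)) := by
  rw [eig_pd2]
  fun_prop

theorem eig (h : IbpStatement) : EigStatement := by
  intro x₀ y₀ M k hM G hG
  have hO : IsOpen (Sq x₀ y₀ M) := isOpen_Ioo.prod isOpen_Ioo
  have hB : Bornology.IsBounded (Sq x₀ y₀ M) :=
    (Metric.isBounded_Ioo _ _).prod (Metric.isBounded_Ioo _ _)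
  have h1 := (h (Sq x₀ y₀ M) _ hO (eig_smooth1 x₀ y₀ M k) (Or.inl hB) G hG).1
  have h2 := (h (Sq x₀ y₀ M) _ hO (eig_smooth2 x₀ y₀ M k) (Or.inl hB) G hG).2
  have m0 : MemLp ((Sq x₀ y₀ M).indicator (ef x₀ y₀ M k)) 2 volume :=
    ibp_memLp hO (eig_smooth x₀ y₀ M k).continuous (Or.inl hB)
  have e1 : cl ((Sq x₀ y₀ M).indicator (pd1 (pd1 (ef x₀ y₀ M k)))) =
      (-((k.1 * Real.pi / M) ^ 2)) • cl ((Sq x₀ y₀ M).indicator (ef x₀ y₀ M k)) := by
    rw [← cl_smul _ m0]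
    congr 1
    rw [eig_pd11]
    funext x
    by_cases hx : x ∈ Sq x₀ y₀ M
    · simp [hx]
    · simp [hx]
  have e2 : cl ((Sq x₀ y₀ M).indicator (pd2 (pd2 (ef x₀ y₀ M k)))) =
      (-((k.2 * Real.pi / M) ^ 2)) • cl ((Sq x₀ y₀ M).indicator (ef x₀ y₀ M k)) := by
    rw [← cl_smul _ m0]
    congr 1
    rw [eig_pd22]
    funext x
    by_cases hx : x ∈ Sq x₀ y₀ M
    · simp [hx]
    · simp [hx]
  rw [e1, real_inner_smul_left] at h1
  rw [e2, real_inner_smul_left] at h2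
  rw [ET, trip_one, trip_two, trip_zero, h1, h2, lam]
  ring

end Pool.SqDrum
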