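import Mathlib
import Pool.Agent.Lib.MP_2805c2_an.SQ.Iface

set_option autoImplicit false

namespace Pool.SqDrum

open MeasureTheory Set Filter Topology
open scoped ENNReal ContDiff InnerProductSpace

theorem evd_open : IsOpen D := by
  unfold D Sq
  exact isOpen_Ioo.prod isOpen_Ioo

theorem evd_one : mul (D.indicator (1 : P2 → ℝ)) = ind D := rfl

theorem evd_zero : mul (D.indicator (0 : P2 → ℝ)) = 0 := by
  rw [Set.indicator_zero']
  ext1 f
  refine Lp.ext ?_
  have h : MemLp (0 : P2 → ℝ) ⊤ (volume : Measure P2) := MemLp.zero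
  filter_upwards [mul_coe h f, Lp.coeFn_zero ℝ 2 (volume : Measure P2)] with x h1 h2
  rw [h1]
  show (0 : ℝ) * _ = ((0 : L2) : P2 → ℝ) x
  rw [h2]; simp

theorem evd_const (c : ℝ) : mul (D.indicator (fun _ => c)) = c • ind D := by
  have h := memLp_indicator_one evd_open.measurableSet
  rw [ind, ← mul_smul c h]
  congr 1
  funext x
  by_cases hx : x ∈ D <;> simp [hx]

theorem evd (hSIN : SinStatement) (hEIG : EigStatement) (hORT : OrtStatement)
    (hCPL : CplStatement) (hVAN : VanStatement) : EvdStatement := by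
  have hmem : ∀ k, ET (-1/2) (-1/2) 1 k ∈ H D := fun k => hSIN (-1/2) (-1/2) 1 k one_pos
  have hev : ∀ k, ((ev k : H D) : LL) = ET (-1/2) (-1/2) 1 k := by
    intro k
    simp only [ev, dif_pos (hmem k)]
  have heig : ∀ k (F : H D), ⟪ET (-1/2) (-1/2) 1 k 1, (F : LL) 1⟫_ℝ +
      ⟪ET (-1/2) (-1/2) 1 k 2, (F : LL) 2⟫_ℝ =
      lam 1 k * ⟪ET (-1/2) (-1/2) 1 k 0, (F : LL) 0⟫_ℝ := fun k F =>
    hEIG (-1/2) (-1/2) 1 k one_pos F F.2
  refine ⟨hev, ?_, ?_, ?_, ?_⟩
  · intro k F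
    rw [Submodule.coe_inner, LL_inner, hev]
    have := heig k F
    linarith
  · intro l k F
    have hv : ∀ i : Fin 3, ind D ((F : LL) i) = (F : LL) i := fun i => hVAN D evd_open F F.2 i
    rw [real_inner_comm]
    unfold K0
    rw [frm_inner, evd_one, evd_zero, evd_const, hev]
    have e := heig k F
    have e3 : ((-l) • ind D) ((F : LL) 0) = (-l) • ((F : LL) 0) := by
      show (-l) • (ind D ((F : LL) 0)) = _
      rw [hv]
    rw [e3, hv, hv]
    simp only [_root_.zero_apply, inner_zero_left, inner_smul_left, RCLike.conj_to_real]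
    rw [real_inner_comm (ET (-1/2) (-1/2) 1 k 1) ((F : LL) 1),
      real_inner_comm (ET (-1/2) (-1/2) 1 k 2) ((F : LL) 2),
      real_inner_comm (ET (-1/2) (-1/2) 1 k 0) ((F : LL) 0)]
    linarith
  · intro k l
    rw [hev, hev]
    exact hORT (-1/2) (-1/2) 1 one_pos k l
  · intro F f
    have h := hCPL (-1/2) (-1/2) 1 one_pos f
    have h2 := h.mapL (innerSL ℝ ((F : LL) 0))
    have e : innerSL ℝ ((F : LL) 0) (ind (Sq (-1/2) (-1/2) 1) f) = ⟪(F : LL) 0, f⟫_ℝ := by
      show ⟪(F : LL) 0, mul _ f⟫_ℝ = _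
      rw [← mul_symm]
      have := hVAN D evd_open F F.2 0
      exact congrArg (fun u => ⟪u, f⟫_ℝ) this
    rw [e] at h2
    refine h2.congr_fun ?_
    intro k
    show _ = ⟪(F : LL) 0, ⟪ET (-1/2) (-1/2) 1 k 0, f⟫_ℝ • ET (-1/2) (-1/2) 1 k 0⟫_ℝ
    rw [inner_smul_right, hev, real_inner_comm]
    ring

end Pool.SqDrum
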