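import Pool.Agent.Lib.MP_2805c2_an.SQ.ExL

set_option autoImplicit false

/-!
EXE: the differential of `Φ`, clusters with `m ≡ n`.
-/

namespace Pool.SqDrum

open Filter Topology Asymptotics

theorem exe : ExeStatement := by
  intro f Φ α β b hΦ hf hf0 h1 h2 h3
  obtain ⟨q, hT, hT0⟩ := exl_taylor hΦ
  obtain ⟨hΦ0, c0⟩ := exl_start hf hf0 hT0 h1
  have A : ∀ s : ℝ, _ := fun s => exl_one hf hΦ0 s hT (h2 s)
  have B : ∀ s : ℝ, _ := fun s => exl_snd hf hΦ0 s hT (h3 s)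
  obtain ⟨c1, a0⟩ := A 0
  have a1 := (A 1).2
  have a2 := (A (-1)).2
  have b0 := (B 0).2
  have b1 := (B 1).2
  have b2 := (B (-1)).2
  intro v
  rw [exl_lin (fderiv ℝ Φ 0) v, c0, c1]
  have c2 : fderiv ℝ Φ 0 (Pi.single 2 1) = 0 := by linarith
  have c3 : fderiv ℝ Φ 0 (Pi.single 3 1) = 0 := by linarith
  have cq : q = 4 * b ^ 2 := by linarith
  have c6 : fderiv ℝ Φ 0 (Pi.single 6 1) = 4 * β ^ 2 := by linarith
  have c4 : fderiv ℝ Φ 0 (Pi.single 4 1) = 4 * α ^ 2 := by linarith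
  have c5 : fderiv ℝ Φ 0 (Pi.single 5 1) = 8 * (α * β) := by linarith
  rw [c2, c3, c4, c5, c6]
  ring

end Pool.SqDrum
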