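import Pool.Agent.Lib.MP_2805c2_an.SQ.ExL

set_option autoImplicit false

/-!
EXU: the derivative of `Φ` in the direction of `w₁² + w₂²`.
-/

namespace Pool.SqDrum

open Filter Topology Asymptotics

theorem exu : ExuStatement := by
  intro f Φ B hΦ hf h v v0 v2 v3 v4 v5 v6
  obtain ⟨q, hT, -⟩ := exl_taylor hΦ
  have hf0 : f 0 = Φ 0 := by
    have := hf.self_of_nhds
    rwa [exl_gen_zero] at this
  have e1 := (hT 1 ![0, 0, 0, 0, (0 : ℝ) ^ 2, 0, 1]).trans (exl_pow (k := 5) (l := 3) (by norm_num))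
  have e2 := exl_const (fderiv ℝ Φ 0 ![0, 0, 0, 0, (0 : ℝ) ^ 2, 0, 1] + 1 ^ 2 * q)
    (k := 4) (l := 3) (by norm_num)
  have e3 : (fun t : ℝ => (fderiv ℝ Φ 0 (Pi.single 1 1) - B) * t ^ 2) =O[𝓝 0]
      (fun t : ℝ => t ^ (2 + 1)) := by
    refine ((h.sub e1).sub e2).congr' ?_ (EventuallyEq.refl _ _)
    filter_upwards [(exl_curve_tendsto 1 0 0 0).eventually hf] with t ht
    rw [ht, exl_gen1, hf0]
    ring
  have e4 := exl_coeff e3
  rw [exl_lin (fderiv ℝ Φ 0) v, v0, v2, v3, v4, v5, v6]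
  have e5 : fderiv ℝ Φ 0 (Pi.single 1 1) = B := by linarith
  rw [e5]
  ring

end Pool.SqDrum
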