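import Pool.Agent.Lib.MP_2805c2_an.SQ.Iface

set_option autoImplicit false

/-!
# FIN: the theorem
-/

namespace Pool.SqDrum

open MeasureTheory Set Filter Topology
open scoped ENNReal ContDiff InnerProductSpace

noncomputable section

namespace FinAux

/-- coordinates -/
def cc : E.E2 ≃L[ℝ] P2 :=
  (EuclideanSpace.equiv (Fin 2) ℝ).trans (ContinuousLinearEquiv.finTwoArrow ℝ ℝ)

theorem cc_apply (x : E.E2) : cc x = (x 0, x 1) := rfl

theorem cc_symm (y : P2) : (cc.symm y) 0 = y.1 ∧ (cc.symm y) 1 = y.2 := by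
  have h : cc (cc.symm y) = y := cc.apply_symm_apply y
  rw [cc_apply] at h
  exact ⟨congrArg Prod.fst h, congrArg Prod.snd h⟩

theorem dist_E (x y : E.E2) : dist x y = Real.sqrt ((x 0 - y 0) ^ 2 + (x 1 - y 1) ^ 2) := by
  rw [EuclideanSpace.dist_eq, Fin.sum_univ_two, Real.dist_eq, Real.dist_eq, sq_abs, sq_abs]

theorem norm_E (x : E.E2) : ‖x‖ ^ 2 = x 0 ^ 2 + x 1 ^ 2 := by
  rw [EuclideanSpace.norm_sq_eq, Fin.sum_univ_two, Real.norm_eq_abs, Real.norm_eq_abs, sq_abs,
    sq_abs]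

theorem inner_E (x y : E.E2) : ⟪x, y⟫_ℝ = x 0 * y 0 + x 1 * y 1 := by
  rw [PiLp.inner_apply, Fin.sum_univ_two]
  simp [mul_comm]

/-- isometries in coordinates -/
theorem iso_coord (e : E.E2 ≃ᵢ E.E2) : ∃ a b ε : ℝ, (ε = 1 ∨ ε = -1) ∧ a ^ 2 + b ^ 2 = 1 ∧
    ∀ x : E.E2, e x 0 = a * x 0 - ε * b * x 1 + e 0 0 ∧
      e x 1 = b * x 0 + ε * a * x 1 + e 0 1 := by
  set L := e.toRealLinearIsometryEquiv with hL
  set u : E.E2 := L (EuclideanSpace.single 0 1) with hu
  set v : E.E2 := L (EuclideanSpace.single 1 1) with hv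
  have hu1 : u 0 ^ 2 + u 1 ^ 2 = 1 := by
    rw [← norm_E, hu, LinearIsometryEquiv.norm_map]; simp
  have hv1 : v 0 ^ 2 + v 1 ^ 2 = 1 := by
    rw [← norm_E, hv, LinearIsometryEquiv.norm_map]; simp
  have huv : u 0 * v 0 + u 1 * v 1 = 0 := by
    rw [← inner_E, hu, hv, LinearIsometryEquiv.inner_map_map, inner_E]; simp
  have hx : ∀ x : E.E2, e x = x 0 • u + x 1 • v + e 0 := by
    intro x
    have h1 : x = x 0 • (EuclideanSpace.single 0 1 : E.E2) +
        x 1 • (EuclideanSpace.single 1 1 : E.E2) := by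
      ext i
      fin_cases i <;> simp
    have h2 : L x = e x - e 0 := IsometryEquiv.toRealLinearIsometryEquiv_apply e x
    have h3 : L x = x 0 • u + x 1 • v := by
      conv_lhs => rw [h1]
      rw [map_add, map_smul, map_smul]
    rw [← h3, h2]
    abel
  set ε := u 0 * v 1 - u 1 * v 0 with hε
  have hε2 : ε ^ 2 = 1 := by
    have : ε ^ 2 = (u 0 ^ 2 + u 1 ^ 2) * (v 0 ^ 2 + v 1 ^ 2) - (u 0 * v 0 + u 1 * v 1) ^ 2 := by
      rw [hε]; ring
    rw [this, hu1, hv1, huv]; norm_num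
  have hv0 : v 0 = -(ε * u 1) := by
    have : -(ε * u 1) = v 0 * (u 0 ^ 2 + u 1 ^ 2) - u 0 * (u 0 * v 0 + u 1 * v 1) := by
      rw [hε]; ring
    rw [this, hu1, huv]; ring
  have hv1' : v 1 = ε * u 0 := by
    have : ε * u 0 = v 1 * (u 0 ^ 2 + u 1 ^ 2) - u 1 * (u 0 * v 0 + u 1 * v 1) := by
      rw [hε]; ring
    rw [this, hu1, huv]; ring
  refine ⟨u 0, u 1, ε, ?_, hu1, ?_⟩
  · have : (ε - 1) * (ε + 1) = 0 := by linear_combination hε2
    rcases mul_eq_zero.1 this with h | h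
    · left; linarith
    · right; linarith
  · intro x
    have h0 := congrArg (fun y : E.E2 => y 0) (hx x)
    have h1 := congrArg (fun y : E.E2 => y 1) (hx x)
    simp only [PiLp.add_apply, PiLp.smul_apply, smul_eq_mul] at h0 h1
    refine ⟨?_, ?_⟩
    · rw [h0, hv0]; ring
    · rw [h1, hv1']; ring

/-- the similarity attached to a scale and an isometry -/
theorem simR (s : ℝ) (e : E.E2 ≃ᵢ E.E2) : Sim s (fun y => cc (e (s • cc.symm y))) := by
  obtain ⟨a, b, ε, hε, hab, h⟩ := iso_coord e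
  refine ⟨s * a, s * b, e 0 0, e 0 1, ε, hε, ?_, ?_⟩
  · have : (s * a) ^ 2 + (s * b) ^ 2 = s ^ 2 * (a ^ 2 + b ^ 2) := by ring
    rw [this, hab, mul_one]
  · intro y
    obtain ⟨h0, h1⟩ := cc_symm y
    obtain ⟨h2, h3⟩ := h (s • cc.symm y)
    simp only [cc_apply]
    rw [h2, h3]
    simp only [PiLp.smul_apply, smul_eq_mul, h0, h1]
    refine Prod.ext ?_ ?_ <;> simp only <;> ring

/-- congruences as isometries of the Euclidean plane -/
theorem simE (ρ : P2 → P2) (h : Sim 1 ρ) : ∃ f : E.E2 ≃ᵢ E.E2, ∀ x, f x = cc.symm (ρ (cc x)) := by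
  obtain ⟨a, b, p, q, ε, hε, hab, hρ⟩ := h
  have hε2 : ε ^ 2 = 1 := by rcases hε with rfl | rfl <;> norm_num
  have hf : ∀ x : E.E2, (cc.symm (ρ (cc x))) 0 = a * x 0 - ε * b * x 1 + p ∧
      (cc.symm (ρ (cc x))) 1 = b * x 0 + ε * a * x 1 + q := by
    intro x
    obtain ⟨h0, h1⟩ := cc_symm (ρ (cc x))
    rw [h0, h1, hρ, cc_apply]
    exact ⟨rfl, rfl⟩
  have hiso : Isometry (fun x : E.E2 => cc.symm (ρ (cc x))) := by
    refine Isometry.of_dist_eq fun x y => ?_
    rw [dist_E, dist_E]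
    congr 1
    obtain ⟨h0, h1⟩ := hf x
    obtain ⟨h2, h3⟩ := hf y
    rw [h0, h1, h2, h3]
    have : (a * x 0 - ε * b * x 1 + p - (a * y 0 - ε * b * y 1 + p)) ^ 2 +
        (b * x 0 + ε * a * x 1 + q - (b * y 0 + ε * a * y 1 + q)) ^ 2 =
        (a ^ 2 + b ^ 2) * ((x 0 - y 0) ^ 2 + ε ^ 2 * (x 1 - y 1) ^ 2) := by ring
    rw [this, hab, hε2]
    ring
  refine ⟨IsometryEquiv.mk' (fun x : E.E2 => cc.symm (ρ (cc x)))
    (fun y => cc.symm (a * (y 0 - p) + b * (y 1 - q), ε * (a * (y 1 - q) - b * (y 0 - p)))) ?_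
    hiso, fun x => rfl⟩
  intro y
  obtain ⟨h0, h1⟩ := hf (cc.symm (a * (y 0 - p) + b * (y 1 - q),
    ε * (a * (y 1 - q) - b * (y 0 - p))))
  obtain ⟨h2, h3⟩ := cc_symm (a * (y 0 - p) + b * (y 1 - q),
    ε * (a * (y 1 - q) - b * (y 0 - p)))
  rw [h2, h3] at h0 h1
  refine PiLp.ext (Fin.forall_fin_two.2 ⟨?_, ?_⟩)
  · refine h0.trans ?_
    simp only
    linear_combination (y 0 - p) * hab + (b ^ 2 * (y 0 - p) - a * b * (y 1 - q)) * hε2
  · refine h1.trans ?_
    simp only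
    linear_combination (y 1 - q) * hab + (a ^ 2 * (y 1 - q) - a * b * (y 0 - p)) * hε2

/-- affine equivalences and interiors of convex hulls -/
theorem img_int {V W : Type} [NormedAddCommGroup V] [NormedSpace ℝ V] [FiniteDimensional ℝ V]
    [NormedAddCommGroup W] [NormedSpace ℝ W] [FiniteDimensional ℝ W] (R : V ≃ᵃ[ℝ] W)
    (p : Fin 4 → V) : interior (convexHull ℝ (Set.range (fun i => R (p i)))) =
      R '' interior (convexHull ℝ (Set.range p)) := by
  have h1 := R.toContinuousAffineEquiv.toHomeomorph.image_interior (convexHull ℝ (Set.range p))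
  have h1' : R '' interior (convexHull ℝ (Set.range p)) =
      interior (R '' convexHull ℝ (Set.range p)) := h1
  rw [h1']
  have h2 := AffineMap.image_convexHull R.toAffineMap (Set.range p)
  rw [AffineEquiv.coe_toAffineMap] at h2
  rw [h2, ← Set.range_comp]
  rfl

theorem img_hull {V W : Type} [NormedAddCommGroup V] [NormedSpace ℝ V]
    [NormedAddCommGroup W] [NormedSpace ℝ W] (R : V ≃ᵃ[ℝ] W)
    (S : Set V) : convexHull ℝ (R '' S) = R '' (convexHull ℝ S) := by
  have h2 := AffineMap.image_convexHull R.toAffineMap S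
  rw [AffineEquiv.coe_toAffineMap] at h2
  exact h2.symm

theorem clos (q : Fin 4 → P2) (hq : (quad q).Nonempty) :
    closure (quad q) = convexHull ℝ (Set.range q) := by
  have h1 := (convex_convexHull ℝ (Set.range q)).closure_interior_eq_closure_of_nonempty_interior hq
  have h2 : IsClosed (convexHull ℝ (Set.range q)) := (Set.finite_range q).isClosed_convexHull ℝ
  rw [h2.closure_eq] at h1
  exact h1

/-- open conditions near the square -/
theorem near (κ : ℝ) (hκ : 0 < κ) : ∀ᶠ p in 𝓝 cor, Ccw p ∧ |dot2 (qa p) (qa p) - 1| ≤ κ ∧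
    |dot2 (qb p) (qb p) - 1| ≤ κ ∧ |dot2 (qa p) (qb p)| ≤ κ ∧ dot2 (qw p) (qw p) ≤ κ := by
  have hc1 : ∀ i : Fin 4, Continuous (fun p : Fin 4 → P2 => (p i).1) := fun i => by fun_prop
  have hc2 : ∀ i : Fin 4, Continuous (fun p : Fin 4 → P2 => (p i).2) := fun i => by fun_prop
  have hqa1 : ∀ p : Fin 4 → P2, (qa p).1 = 1 / 2 * ((p 1).1 + (p 2).1 - (p 0).1 - (p 3).1) :=
    fun p => rfl
  have hqa2 : ∀ p : Fin 4 → P2, (qa p).2 = 1 / 2 * ((p 1).2 + (p 2).2 - (p 0).2 - (p 3).2) :=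
    fun p => rfl
  have hqb1 : ∀ p : Fin 4 → P2, (qb p).1 = 1 / 2 * ((p 2).1 + (p 3).1 - (p 0).1 - (p 1).1) :=
    fun p => rfl
  have hqb2 : ∀ p : Fin 4 → P2, (qb p).2 = 1 / 2 * ((p 2).2 + (p 3).2 - (p 0).2 - (p 1).2) :=
    fun p => rfl
  have hqw1 : ∀ p : Fin 4 → P2, (qw p).1 = (p 0).1 - (p 1).1 + (p 2).1 - (p 3).1 :=
    fun p => rfl
  have hqw2 : ∀ p : Fin 4 → P2, (qw p).2 = (p 0).2 - (p 1).2 + (p 2).2 - (p 3).2 :=
    fun p => rfl
  have c0 : cor 0 = (-1/2, -1/2) := rfl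
  have c1 : cor 1 = (1/2, -1/2) := rfl
  have c2 : cor 2 = (1/2, 1/2) := rfl
  have c3 : cor 3 = (-1/2, 1/2) := rfl
  have hA : ∀ᶠ p in 𝓝 cor, Ccw p := by
    unfold Ccw
    rw [Filter.eventually_all]
    intro i
    rw [Filter.eventually_all]
    intro j
    by_cases h1 : j = i
    · exact Filter.Eventually.of_forall fun p h => absurd h1 h
    by_cases h2 : j = i + 1
    · exact Filter.Eventually.of_forall fun p _ h => absurd h2 h
    have hc : Continuous (fun p : Fin 4 → P2 => det2 (p (i + 1) - p i) (p j - p i)) := by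
      unfold det2
      simp only [Prod.fst_sub, Prod.snd_sub]
      exact (((hc1 _).sub (hc1 _)).mul ((hc2 _).sub (hc2 _))).sub
        (((hc2 _).sub (hc2 _)).mul ((hc1 _).sub (hc1 _)))
    have hpos : 0 < det2 (cor (i + 1) - cor i) (cor j - cor i) := by
      clear hc
      fin_cases i <;> fin_cases j <;>
        first
        | exact absurd rfl h1
        | exact absurd rfl h2
        | (simp only [Fin.mk_one, Fin.zero_eta, Fin.reduceFinMk, Fin.isValue, Fin.reduceAdd,
            zero_add, c0, c1, c2, c3, det2, Prod.fst_sub, Prod.snd_sub]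
           norm_num)
    filter_upwards [hc.continuousAt.eventually (lt_mem_nhds hpos)] with p hp _ _ using hp
  have hB : ∀ᶠ p in 𝓝 cor, |dot2 (qa p) (qa p) - 1| ≤ κ := by
    have hc : Continuous (fun p : Fin 4 → P2 => |dot2 (qa p) (qa p) - 1|) := by
      unfold dot2
      simp only [hqa1, hqa2]
      fun_prop
    have h0 : |dot2 (qa cor) (qa cor) - 1| < κ := by
      have : dot2 (qa cor) (qa cor) - 1 = 0 := by
        unfold dot2
        rw [hqa1, hqa2, c0, c1, c2, c3]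
        norm_num
      rw [this, abs_zero]
      exact hκ
    filter_upwards [hc.continuousAt.eventually (gt_mem_nhds h0)] with p hp using le_of_lt hp
  have hC : ∀ᶠ p in 𝓝 cor, |dot2 (qb p) (qb p) - 1| ≤ κ := by
    have hc : Continuous (fun p : Fin 4 → P2 => |dot2 (qb p) (qb p) - 1|) := by
      unfold dot2
      simp only [hqb1, hqb2]
      fun_prop
    have h0 : |dot2 (qb cor) (qb cor) - 1| < κ := by
      have : dot2 (qb cor) (qb cor) - 1 = 0 := by
        unfold dot2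
        rw [hqb1, hqb2, c0, c1, c2, c3]
        norm_num
      rw [this, abs_zero]
      exact hκ
    filter_upwards [hc.continuousAt.eventually (gt_mem_nhds h0)] with p hp using le_of_lt hp
  have hD : ∀ᶠ p in 𝓝 cor, |dot2 (qa p) (qb p)| ≤ κ := by
    have hc : Continuous (fun p : Fin 4 → P2 => |dot2 (qa p) (qb p)|) := by
      unfold dot2
      simp only [hqb1, hqb2, hqa1, hqa2]
      fun_prop
    have h0 : |dot2 (qa cor) (qb cor)| < κ := by
      have : dot2 (qa cor) (qb cor) = 0 := by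
        unfold dot2
        rw [hqb1, hqb2, hqa1, hqa2, c0, c1, c2, c3]
        norm_num
      rw [this, abs_zero]
      exact hκ
    filter_upwards [hc.continuousAt.eventually (gt_mem_nhds h0)] with p hp using le_of_lt hp
  have hE : ∀ᶠ p in 𝓝 cor, dot2 (qw p) (qw p) ≤ κ := by
    have hc : Continuous (fun p : Fin 4 → P2 => dot2 (qw p) (qw p)) := by
      unfold dot2
      simp only [hqw1, hqw2]
      fun_prop
    have h0 : dot2 (qw cor) (qw cor) < κ := by
      have : dot2 (qw cor) (qw cor) = 0 := by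
        unfold dot2
        rw [hqw1, hqw2, c0, c1, c2, c3]
        norm_num
      rw [this]
      exact hκ
    filter_upwards [hc.continuousAt.eventually (gt_mem_nhds h0)] with p hp using le_of_lt hp
  filter_upwards [hA, hB, hC, hD, hE] with p h1 h2 h3 h4 h5 using ⟨h1, h2, h3, h4, h5⟩

theorem quad_open (q : Fin 4 → P2) : IsOpen (quad q) := isOpen_interior

theorem isoSp_symm {A B : Set P2} (h : IsoSp A B) : IsoSp B A := fun l => (h l).symm

theorem isoSp_trans {A B C : Set P2} (h : IsoSp A B) (h' : IsoSp B C) : IsoSp A C :=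
  fun l => (h l).trans (h' l)

theorem isoSp_cong (hSim : SimStatement) {A B : Set P2} (hA : IsOpen A) (h : Cong A B) :
    IsoSp A B := by
  obtain ⟨ρ, hρ, rfl⟩ := h
  intro l
  rw [hSim 1 ρ A one_pos hρ hA, one_pow, one_mul]

/-- congruent sets, with isometries of the Euclidean plane -/
def CE (A B : Set P2) : Prop := ∃ f : E.E2 ≃ᵢ E.E2, (fun y => cc (f (cc.symm y))) '' A = B

theorem ce_of_cong {A B : Set P2} (h : Cong A B) : CE A B := by
  obtain ⟨ρ, hρ, rfl⟩ := h
  obtain ⟨f, hf⟩ := simE ρ hρ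
  refine ⟨f, Set.image_congr fun y _ => ?_⟩
  simp only [hf, ContinuousLinearEquiv.apply_symm_apply]

theorem ce_symm {A B : Set P2} (h : CE A B) : CE B A := by
  obtain ⟨f, rfl⟩ := h
  refine ⟨f.symm, ?_⟩
  rw [← Set.image_comp]
  have : ((fun y => cc (f.symm (cc.symm y))) ∘ fun y => cc (f (cc.symm y))) = id := by
    funext y
    simp
  rw [this, Set.image_id]

theorem ce_trans {A B C : Set P2} (h : CE A B) (h' : CE B C) : CE A C := by
  obtain ⟨f, rfl⟩ := h
  obtain ⟨g, rfl⟩ := h'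
  refine ⟨f.trans g, ?_⟩
  rw [← Set.image_comp]
  refine Set.image_congr fun y _ => ?_
  simp

/-- the scaled isometry -/
def scl (s : ℝ) (hs : 0 < s) (f : E.E2 ≃ᵢ E.E2) : E.E2 ≃ᵢ E.E2 :=
  IsometryEquiv.mk' (fun x => s • f (s⁻¹ • x)) (fun x => s • f.symm (s⁻¹ • x)) (fun x => by
    rw [smul_smul, inv_mul_cancel₀ hs.ne', one_smul, IsometryEquiv.apply_symm_apply, smul_smul,
      mul_inv_cancel₀ hs.ne', one_smul]) (Isometry.of_dist_eq fun x y => by
    rw [dist_smul₀, f.dist_eq, dist_smul₀, ← mul_assoc, ← norm_mul, mul_inv_cancel₀ hs.ne',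
      norm_one, one_mul])

theorem scl_apply (s : ℝ) (hs : 0 < s) (f : E.E2 ≃ᵢ E.E2) (x : E.E2) :
    scl s hs f x = s • f (s⁻¹ • x) := rfl

/-- the affine map attached to a scale and an isometry -/
def RR (s : ℝ) (hs : 0 < s) (e : E.E2 ≃ᵢ E.E2) : P2 ≃ᵃ[ℝ] E.E2 :=
  cc.symm.toLinearEquiv.toAffineEquiv.trans
    ((LinearEquiv.smulOfNeZero ℝ E.E2 s hs.ne').toAffineEquiv.trans
      e.toRealAffineIsometryEquiv.toAffineEquiv)

theorem RR_apply (s : ℝ) (hs : 0 < s) (e : E.E2 ≃ᵢ E.E2) (y : P2) :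
    RR s hs e y = e (s • cc.symm y) := rfl

end FinAux

open FinAux in
theorem fin (hBrg : BrgStatement) (hSim : SimStatement) (hCyc : CycStatement)
    (hQda : QdaStatement) (hGlb : GlbStatement) (hGeo : GeoStatement) (hNfm : NfmStatement)
    (hLoc : LocStatement) : FinStatement := by
  -- the constants
  obtain ⟨δ, hδ, hloc⟩ := Metric.eventually_nhds_iff.1 hLoc
  obtain ⟨κ, hκ, hnfm⟩ := hNfm δ hδ
  obtain ⟨η, hη, hgeo⟩ := hGeo κ hκ
  obtain ⟨ε₁, hε₁, hglb⟩ := hGlb η hη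
  obtain ⟨ε₂, hε₂, hnear⟩ := Metric.eventually_nhds_iff.1 (near κ hκ)
  refine ⟨min ε₁ (ε₂ / 2), lt_min hε₁ (by positivity), ?_⟩
  intro s e p q hs hp hq hspec
  set R := RR s hs e with hR
  have hRa : ∀ y, R y = e (s • cc.symm y) := fun y => rfl
  set p' : Fin 4 → P2 := fun i => R.symm (p i) with hp'
  set q' : Fin 4 → P2 := fun i => R.symm (q i) with hq'
  have hpR : ∀ i, R (p' i) = p i := fun i => R.apply_symm_apply _
  have hqR : ∀ i, R (q' i) = q i := fun i => R.apply_symm_apply _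
  -- `p'` is near the square
  have hd : ∀ i, dist (cc.symm (p' i)) (E.corner i) ≤ min ε₁ (ε₂ / 2) := by
    intro i
    have h1 : dist (p i) (e (s • E.corner i)) = s * dist (cc.symm (p' i)) (E.corner i) := by
      have h2 : p i = e (s • cc.symm (p' i)) := (hpR i).symm
      rw [h2, e.dist_eq, dist_smul₀, Real.norm_eq_abs, abs_of_pos hs]
    have h3 := hp i
    rw [h1, mul_comm] at h3
    exact le_of_mul_le_mul_right h3 hs
  have hcor : ∀ i, cor i = cc (E.corner i) := by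
    intro i
    rw [cc_apply]
    fin_cases i <;> rfl
  have hd2 : ∀ i, |(p' i).1 - (cor i).1| ≤ min ε₁ (ε₂ / 2) ∧
      |(p' i).2 - (cor i).2| ≤ min ε₁ (ε₂ / 2) := by
    intro i
    have h1 := hd i
    rw [dist_E] at h1
    obtain ⟨h2, h3⟩ := cc_symm (p' i)
    rw [h2, h3] at h1
    rw [hcor, cc_apply]
    constructor
    · refine le_trans (Real.abs_le_sqrt ?_) h1
      exact le_add_of_nonneg_right (sq_nonneg _)
    · refine le_trans (Real.abs_le_sqrt ?_) h1
      exact le_add_of_nonneg_left (sq_nonneg _)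
  have hdist : dist p' cor < ε₂ := by
    rw [dist_pi_lt_iff hε₂]
    intro i
    rw [Prod.dist_eq, max_lt_iff, Real.dist_eq, Real.dist_eq]
    have h1 : min ε₁ (ε₂ / 2) < ε₂ := lt_of_le_of_lt (min_le_right _ _) (by linarith)
    exact ⟨lt_of_le_of_lt (hd2 i).1 h1, lt_of_le_of_lt (hd2 i).2 h1⟩
  obtain ⟨hccw, k1, k2, k3, k4⟩ := hnear hdist
  -- the spectra
  have hdrum : ∀ r : Fin 4 → P2, E.drum (fun i => R (r i)) = R '' quad r := by
    intro r
    exact img_int R r
  have hmult : ∀ (r : Fin 4 → P2) (μ : ℝ),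
      E.mult (E.drum (fun i => R (r i))) μ = mult (quad r) (s ^ 2 * μ) := by
    intro r μ
    have ho : IsOpen (E.drum (fun i => R (r i))) := isOpen_interior
    rw [hBrg _ _ ho, hdrum, ← Set.image_comp]
    exact hSim s _ (quad r) hs (simR s e) (quad_open r) μ
  have hpp : p = fun i => R (p' i) := by funext i; exact (hpR i).symm
  have hqq : q = fun i => R (q' i) := by funext i; exact (hqR i).symm
  have hiso : IsoSp (quad p') (quad q') := by
    intro l
    have h1 := hspec (l / s ^ 2)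
    rw [hpp, hqq, hmult, hmult] at h1
    have h2 : s ^ 2 * (l / s ^ 2) = l := by
      field_simp
    rwa [h2] at h1
  -- the order of the vertices
  have hcp : ∀ i, q' i ∉ convexHull ℝ (q' '' {j | j ≠ i}) := by
    intro i hi
    refine hq i ?_
    have h1 : R (q' i) ∈ R '' (convexHull ℝ (q' '' {j | j ≠ i})) := ⟨_, hi, rfl⟩
    rw [← img_hull, hqR, ← Set.image_comp] at h1
    have h2 : (R ∘ q') = q := by funext j; exact hqR j
    rwa [h2] at h1
  obtain ⟨σ, hσ⟩ := hCyc q' hcp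
  have hrange : Set.range (q' ∘ σ) = Set.range q' := by
    rw [Set.range_comp, σ.surjective.range_eq, Set.image_univ]
  have hquad : quad (q' ∘ σ) = quad q' := by
    unfold quad
    rw [hrange]
  -- the normal forms
  obtain ⟨z, hz, hcz⟩ := hnfm p' hccw k1 k2 k3 k4
  have hiso2 : IsoSp (quad p') (quad (q' ∘ σ)) := by rw [hquad]; exact hiso
  obtain ⟨g1, g2⟩ := hglb p' (q' ∘ σ) hccw hσ (fun i => ⟨(hd2 i).1.trans (min_le_left _ _),
    (hd2 i).2.trans (min_le_left _ _)⟩) hiso2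
  obtain ⟨l1, l2, l3, l4⟩ := hgeo (q' ∘ σ) hσ g1 g2
  obtain ⟨z', hz', hcz'⟩ := hnfm (q' ∘ σ) hσ l1 l2 l3 l4
  have hiso3 : IsoSp (dom z) (dom z') :=
    isoSp_trans (isoSp_symm (isoSp_cong hSim (quad_open _) hcz))
      (isoSp_trans hiso2 (isoSp_cong hSim (quad_open _) hcz'))
  have hcong : Cong (dom z) (dom z') := by
    refine hloc (y := (z, z')) ?_ hiso3
    rw [Prod.dist_eq, max_lt_iff, dist_zero_right, dist_zero_right]
    exact ⟨hz, hz'⟩
  have hce : CE (quad p') (quad (q' ∘ σ)) :=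
    ce_trans (ce_of_cong hcz) (ce_trans (ce_of_cong hcong) (ce_symm (ce_of_cong hcz')))
  rw [hquad] at hce
  obtain ⟨f, hf⟩ := hce
  -- closures
  have hne : ∀ r : Fin 4 → P2, Ccw r → (quad r).Nonempty := by
    intro r hr
    rw [(hQda r hr).1]
    refine ⟨_, Set.mem_image_of_mem _ (?_ : ((0 : ℝ), (0 : ℝ)) ∈ D)⟩
    unfold D Sq
    rw [Set.mem_prod]
    constructor <;> constructor <;> norm_num
  have hcl1 := clos p' (hne p' hccw)
  have hcl2 := clos q' (by rw [← hquad]; exact hne _ hσ)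
  have hhull : (fun y => cc (f (cc.symm y))) '' convexHull ℝ (Set.range p') =
      convexHull ℝ (Set.range q') := by
    rw [← hcl1, ← hcl2, ← hf]
    have h1 := (cc.symm.toHomeomorph.trans (f.toHomeomorph.trans cc.toHomeomorph)).image_closure
      (quad p')
    exact h1
  refine ⟨e.symm.trans ((scl s hs f).trans e), ?_⟩
  have hkey : ∀ y : P2, (e.symm.trans ((scl s hs f).trans e)) (R y) =
      R (cc (f (cc.symm y))) := by
    intro y
    rw [IsometryEquiv.trans_apply, IsometryEquiv.trans_apply, hRa, hRa,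
      IsometryEquiv.symm_apply_apply, scl_apply, smul_smul, inv_mul_cancel₀ hs.ne', one_smul,
      ContinuousLinearEquiv.symm_apply_apply]
  have hrp : Set.range p = R '' Set.range p' := by
    rw [hpp, ← Set.range_comp]; rfl
  have hrq : Set.range q = R '' Set.range q' := by
    rw [hqq, ← Set.range_comp]; rfl
  rw [hrp, hrq, img_hull, img_hull, ← hhull, ← Set.image_comp, ← Set.image_comp]
  exact Set.image_congr fun y _ => hkey y

end

end Pool.SqDrum
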