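import Mathlib
import Pool.Agent.Lib.MP_2805c2_an.SQ.Iface

set_option autoImplicit false

/-! # GEL: integration by parts for `K1` -/

namespace Pool.SqDrum

open MeasureTheory Set Filter Topology Asymptotics
open scoped ENNReal ContDiff InnerProductSpace

noncomputable section

namespace GelAux

theorem pd1_eq {φ : P2 → ℝ} {x : P2} {d : ℝ} (h : DifferentiableAt ℝ φ x)
    (hd : HasDerivAt (fun t => φ (t, x.2)) d x.1) : pd1 φ x = d := by
  have h1 : HasDerivAt (fun t : ℝ => ((t, x.2) : P2)) (1, 0) x.1 :=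
    (hasDerivAt_id x.1).prodMk (hasDerivAt_const x.1 x.2)
  have h2 : HasDerivAt (fun t => φ (t, x.2)) (fderiv ℝ φ x (1, 0)) x.1 :=
    HasFDerivAt.comp_hasDerivAt (f := fun t : ℝ => ((t, x.2) : P2)) x.1
      (l := φ) (l' := fderiv ℝ φ x) h.hasFDerivAt h1
  exact h2.unique hd

theorem pd2_eq {φ : P2 → ℝ} {x : P2} {d : ℝ} (h : DifferentiableAt ℝ φ x)
    (hd : HasDerivAt (fun t => φ (x.1, t)) d x.2) : pd2 φ x = d := by
  have h1 : HasDerivAt (fun t : ℝ => ((x.1, t) : P2)) (0, 1) x.2 :=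
    (hasDerivAt_const x.2 x.1).prodMk (hasDerivAt_id x.2)
  have h2 : HasDerivAt (fun t => φ (x.1, t)) (fderiv ℝ φ x (0, 1)) x.2 :=
    HasFDerivAt.comp_hasDerivAt (f := fun t : ℝ => ((x.1, t) : P2)) x.2
      (l := φ) (l' := fderiv ℝ φ x) h.hasFDerivAt h1
  exact h2.unique hd

theorem D_sub : D ⊆ Icc (-1/2 : ℝ) (1/2) ×ˢ Icc (-1/2 : ℝ) (1/2) := by
  rintro ⟨x, y⟩ ⟨⟨h1, h2⟩, h3, h4⟩
  simp only at h1 h2 h3 h4
  exact ⟨⟨h1.le, by simp only; linarith⟩, ⟨h3.le, by simp only; linarith⟩⟩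

theorem D_meas : MeasurableSet D := measurableSet_Ioo.prod measurableSet_Ioo

theorem D_open : IsOpen D := isOpen_Ioo.prod isOpen_Ioo

theorem D_bdd : Bornology.IsBounded D :=
  (isCompact_Icc.prod isCompact_Icc).isBounded.subset D_sub

theorem bound {g : P2 → ℝ} (hg : Continuous g) : ∃ C : ℝ, 0 ≤ C ∧ ∀ x ∈ D, |g x| ≤ C := by
  have hK : IsCompact (Icc (-1/2 : ℝ) (1/2) ×ˢ Icc (-1/2 : ℝ) (1/2)) :=
    isCompact_Icc.prod isCompact_Icc
  obtain ⟨C, hC⟩ := hK.exists_bound_of_continuousOn hg.continuousOn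
  exact ⟨max C 0, le_max_right _ _, fun x hx => (hC x (D_sub hx)).trans (le_max_left _ _)⟩

theorem memD {g : P2 → ℝ} (hg : Continuous g) :
    MemLp (D.indicator g) 2 (volume : Measure P2) := by
  obtain ⟨C, _, hC⟩ := bound hg
  rw [memLp_indicator_iff_restrict D_meas]
  have : IsFiniteMeasure ((volume : Measure P2).restrict D) :=
    ⟨by rw [Measure.restrict_apply_univ]; exact D_bdd.measure_lt_top⟩
  refine MemLp.of_bound hg.aestronglyMeasurable C ?_
  exact (ae_restrict_iff' D_meas).2 (Eventually.of_forall fun x hx => hC x hx)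

theorem mul_cl {m g : P2 → ℝ} (hm : Continuous m) (hg : Continuous g) :
    mul (D.indicator m) (cl (D.indicator g)) = cl (D.indicator (fun x => m x * g x)) := by
  obtain ⟨C, hC0, hC⟩ := bound hm
  refine Lp.ext ?_
  filter_upwards [mul_coe (memLp_top_ind D_meas hm.measurable hC0 hC) (cl (D.indicator g)),
    cl_coe (memD hg), cl_coe (memD (hm.mul hg))] with x h1 h2 h3
  rw [h1, h2]
  refine Eq.trans ?_ h3.symm
  by_cases hx : x ∈ D
  · simp [hx]
  · simp [hx]

theorem cl_add' {f g : P2 → ℝ} (hf : Continuous f) (hg : Continuous g) :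
    cl (D.indicator f) + cl (D.indicator g) = cl (D.indicator (fun x => f x + g x)) := by
  rw [← cl_add (memD hf) (memD hg)]
  congr 1
  funext x
  by_cases hx : x ∈ D
  · simp [hx]
  · simp [hx]

theorem cl_neg' {f : P2 → ℝ} (hf : Continuous f) :
    -cl (D.indicator f) = cl (D.indicator (fun x => -f x)) := by
  have h := cl_smul (-1) (memD hf)
  rw [neg_one_smul ℝ (cl (D.indicator f))] at h
  rw [← h]
  congr 1
  funext x
  by_cases hx : x ∈ D
  · simp [hx]
  · simp [hx]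

/-- the eigenfunction and its derivatives -/
def ee (i : ℕ × ℕ) (x : P2) : ℝ :=
  2 * (Real.sin (i.1 * Real.pi * (x.1 + 1/2)) * Real.sin (i.2 * Real.pi * (x.2 + 1/2)))
def ex (i : ℕ × ℕ) (x : P2) : ℝ := 2 * (i.1 * Real.pi) *
  (Real.cos (i.1 * Real.pi * (x.1 + 1/2)) * Real.sin (i.2 * Real.pi * (x.2 + 1/2)))
def ey (i : ℕ × ℕ) (x : P2) : ℝ := 2 * (i.2 * Real.pi) *
  (Real.sin (i.1 * Real.pi * (x.1 + 1/2)) * Real.cos (i.2 * Real.pi * (x.2 + 1/2)))

theorem ef_eq (i : ℕ × ℕ) : ef (-1/2) (-1/2) 1 i = ee i := by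
  funext x
  unfold ef ee
  have h1 : (i.1 : ℝ) * Real.pi * (x.1 - -1/2) / 1 = i.1 * Real.pi * (x.1 + 1/2) := by ring
  have h2 : (i.2 : ℝ) * Real.pi * (x.2 - -1/2) / 1 = i.2 * Real.pi * (x.2 + 1/2) := by ring
  rw [h1, h2]
  norm_num

theorem ee_cont (i : ℕ × ℕ) : Continuous (ee i) := by unfold ee; fun_prop
theorem ex_cont (i : ℕ × ℕ) : Continuous (ex i) := by unfold ex; fun_prop
theorem ey_cont (i : ℕ × ℕ) : Continuous (ey i) := by unfold ey; fun_prop

theorem hs (c t : ℝ) : HasDerivAt (fun t => Real.sin (c * (t + 1/2))) (c * Real.cos (c * (t + 1/2)))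
    t := by
  have h1 : HasDerivAt (fun t : ℝ => c * (t + 1/2)) c t := by
    have := ((hasDerivAt_id t).add_const (1/2 : ℝ)).const_mul c
    simpa using this
  have h2 := h1.sin
  rw [mul_comm] at h2
  exact h2

theorem hc (c t : ℝ) : HasDerivAt (fun t => Real.cos (c * (t + 1/2)))
    (-(c * Real.sin (c * (t + 1/2)))) t := by
  have h1 : HasDerivAt (fun t : ℝ => c * (t + 1/2)) c t := by
    have := ((hasDerivAt_id t).add_const (1/2 : ℝ)).const_mul c
    simpa using this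
  have h2 := h1.cos
  have h3 : -Real.sin (c * (t + 1/2)) * c = -(c * Real.sin (c * (t + 1/2))) := by ring
  rw [h3] at h2
  exact h2

theorem pd1_ee (i : ℕ × ℕ) : pd1 (ee i) = ex i := by
  funext x
  refine pd1_eq (by unfold ee; fun_prop) ?_
  have h := (((hs (i.1 * Real.pi) x.1).mul_const (Real.sin (i.2 * Real.pi * (x.2 + 1/2)))).const_mul
    (2 : ℝ))
  refine h.congr_deriv ?_
  unfold ex
  ring

theorem pd2_ee (i : ℕ × ℕ) : pd2 (ee i) = ey i := by
  funext x
  refine pd2_eq (by unfold ee; fun_prop) ?_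
  have h := (((hs (i.2 * Real.pi) x.2).const_mul (Real.sin (i.1 * Real.pi * (x.1 + 1/2)))).const_mul
    (2 : ℝ))
  refine h.congr_deriv ?_
  unfold ey
  ring

/-- the fields -/
def ps1 (a b : ℝ) (i : ℕ × ℕ) (x : P2) : ℝ :=
  (b * x.1 - a * x.2) * ex i x + -(a * x.1 + b * x.2) * ey i x
def ps2 (a b : ℝ) (i : ℕ × ℕ) (x : P2) : ℝ :=
  -(a * x.1 + b * x.2) * ex i x + (a * x.2 - b * x.1) * ey i x

theorem ps1_smooth (a b : ℝ) (i : ℕ × ℕ) : ContDiff ℝ ∞ (ps1 a b i) := by
  unfold ps1 ex ey; fun_prop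
theorem ps2_smooth (a b : ℝ) (i : ℕ × ℕ) : ContDiff ℝ ∞ (ps2 a b i) := by
  unfold ps2 ex ey; fun_prop

theorem pd1_ps1 (a b : ℝ) (i : ℕ × ℕ) (x : P2) : pd1 (ps1 a b i) x =
    b * ex i x + (b * x.1 - a * x.2) * (-((i.1 * Real.pi) ^ 2) * ee i x) - a * ey i x -
      (a * x.1 + b * x.2) * (2 * (i.1 * Real.pi) * (i.2 * Real.pi) *
        (Real.cos (i.1 * Real.pi * (x.1 + 1/2)) * Real.cos (i.2 * Real.pi * (x.2 + 1/2)))) := by
  refine pd1_eq ((ps1_smooth a b i).differentiable (by simp) x) ?_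
  have e1 : HasDerivAt (fun t : ℝ => b * t - a * x.2) b x.1 := by
    have := ((hasDerivAt_id x.1).const_mul b).sub_const (a * x.2)
    simpa using this
  have e2 : HasDerivAt (fun t : ℝ => -(a * t + b * x.2)) (-a) x.1 := by
    have := (((hasDerivAt_id x.1).const_mul a).add_const (b * x.2)).fun_neg
    refine this.congr_deriv ?_
    ring
  have e3 : HasDerivAt (fun t : ℝ => ex i (t, x.2)) (-((i.1 * Real.pi) ^ 2) * ee i x) x.1 := by
    have h := ((hc (i.1 * Real.pi) x.1).mul_const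
      (Real.sin (i.2 * Real.pi * (x.2 + 1/2)))).const_mul (2 * (i.1 * Real.pi))
    refine h.congr_deriv ?_
    unfold ee
    ring
  have e4 : HasDerivAt (fun t : ℝ => ey i (t, x.2)) (2 * (i.1 * Real.pi) * (i.2 * Real.pi) *
        (Real.cos (i.1 * Real.pi * (x.1 + 1/2)) * Real.cos (i.2 * Real.pi * (x.2 + 1/2)))) x.1 := by
    have h := ((hs (i.1 * Real.pi) x.1).mul_const
      (Real.cos (i.2 * Real.pi * (x.2 + 1/2)))).const_mul (2 * (i.2 * Real.pi))
    refine h.congr_deriv ?_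
    ring
  refine ((e1.mul e3).add (e2.mul e4)).congr_deriv ?_
  ring

theorem pd2_ps2 (a b : ℝ) (i : ℕ × ℕ) (x : P2) : pd2 (ps2 a b i) x =
    -b * ex i x + (a * x.2 - b * x.1) * (-((i.2 * Real.pi) ^ 2) * ee i x) + a * ey i x -
      (a * x.1 + b * x.2) * (2 * (i.1 * Real.pi) * (i.2 * Real.pi) *
        (Real.cos (i.1 * Real.pi * (x.1 + 1/2)) * Real.cos (i.2 * Real.pi * (x.2 + 1/2)))) := by
  refine pd2_eq ((ps2_smooth a b i).differentiable (by simp) x) ?_
  have e1 : HasDerivAt (fun t : ℝ => a * t - b * x.1) a x.2 := by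
    have := ((hasDerivAt_id x.2).const_mul a).sub_const (b * x.1)
    simpa using this
  have e2 : HasDerivAt (fun t : ℝ => -(a * x.1 + b * t)) (-b) x.2 := by
    have := (((hasDerivAt_id x.2).const_mul b).const_add (a * x.1)).fun_neg
    refine this.congr_deriv ?_
    ring
  have e3 : HasDerivAt (fun t : ℝ => ey i (x.1, t)) (-((i.2 * Real.pi) ^ 2) * ee i x) x.2 := by
    have h := ((hc (i.2 * Real.pi) x.2).const_mul
      (Real.sin (i.1 * Real.pi * (x.1 + 1/2)))).const_mul (2 * (i.2 * Real.pi))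
    refine h.congr_deriv ?_
    unfold ee
    ring
  have e4 : HasDerivAt (fun t : ℝ => ex i (x.1, t)) (2 * (i.1 * Real.pi) * (i.2 * Real.pi) *
        (Real.cos (i.1 * Real.pi * (x.1 + 1/2)) * Real.cos (i.2 * Real.pi * (x.2 + 1/2)))) x.2 := by
    have h := ((hs (i.2 * Real.pi) x.2).const_mul
      (Real.cos (i.1 * Real.pi * (x.1 + 1/2)))).const_mul (2 * (i.1 * Real.pi))
    refine h.congr_deriv ?_
    ring
  refine ((e2.mul e4).add (e1.mul e3)).congr_deriv ?_
  ring

end GelAux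

open GelAux in
theorem gel (hibp : IbpStatement) (hevd : EvdStatement) : GelStatement := by
  intro i a b F
  obtain ⟨he1, -⟩ := hevd
  have h0 : ((ev i : H D) : LL) 0 = cl (D.indicator (ee i)) := by
    rw [he1 i, ET, trip_zero, ef_eq]
    rfl
  have h1 : ((ev i : H D) : LL) 1 = cl (D.indicator (ex i)) := by
    rw [he1 i, ET, trip_one, ef_eq, pd1_ee]
    rfl
  have h2 : ((ev i : H D) : LL) 2 = cl (D.indicator (ey i)) := by
    rw [he1 i, ET, trip_two, ef_eq, pd2_ee]
    rfl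
  have hm11 : Continuous (fun x : P2 => b * x.1 - a * x.2) := by fun_prop
  have hm12 : Continuous (fun x : P2 => -(a * x.1 + b * x.2)) := by fun_prop
  have hm22 : Continuous (fun x : P2 => a * x.2 - b * x.1) := by fun_prop
  have hm0 : Continuous (fun x : P2 => -lam 1 i * (a * x.2 + b * x.1)) := by fun_prop
  have hp1 : Continuous (fun x => pd1 (ps1 a b i) x) := by
    have := (ps1_smooth a b i).continuous_fderiv (by simp)
    exact this.clm_apply continuous_const
  have hp2 : Continuous (fun x => pd2 (ps2 a b i) x) := by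
    have := (ps2_smooth a b i).continuous_fderiv (by simp)
    exact this.clm_apply continuous_const
  have hI1 := (hibp D (ps1 a b i) D_open (ps1_smooth a b i) (Or.inl D_bdd) (F : LL) F.2).1
  have hI2 := (hibp D (ps2 a b i) D_open (ps2_smooth a b i) (Or.inl D_bdd) (F : LL) F.2).2
  have s1 : cl (D.indicator fun x => (b * x.1 - a * x.2) * ex i x) +
      cl (D.indicator fun x => -(a * x.1 + b * x.2) * ey i x) = cl (D.indicator (ps1 a b i)) :=
    cl_add' (hm11.mul (ex_cont i)) (hm12.mul (ey_cont i))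
  have s2 : cl (D.indicator fun x => -(a * x.1 + b * x.2) * ex i x) +
      cl (D.indicator fun x => (a * x.2 - b * x.1) * ey i x) = cl (D.indicator (ps2 a b i)) :=
    cl_add' (hm12.mul (ex_cont i)) (hm22.mul (ey_cont i))
  have s3 : -cl (D.indicator (pd1 (ps1 a b i))) + -cl (D.indicator (pd2 (ps2 a b i))) +
      cl (D.indicator fun x => -lam 1 i * (a * x.2 + b * x.1) * ee i x) =
      cl (D.indicator fun x => -pd1 (ps1 a b i) x + -pd2 (ps2 a b i) x +
        -lam 1 i * (a * x.2 + b * x.1) * ee i x) := by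
    rw [cl_neg' hp1, cl_neg' hp2]
    have t1 : cl (D.indicator fun x => -pd1 (ps1 a b i) x) +
        cl (D.indicator fun x => -pd2 (ps2 a b i) x) =
        cl (D.indicator fun x => -pd1 (ps1 a b i) x + -pd2 (ps2 a b i) x) :=
      cl_add' hp1.neg hp2.neg
    rw [t1]
    exact cl_add' (hp1.neg.add hp2.neg) (hm0.mul (ee_cont i))
  unfold K1
  rw [frm_inner, h0, h1, h2, mul_cl hm11 (ex_cont i), mul_cl hm12 (ey_cont i),
    mul_cl hm12 (ex_cont i), mul_cl hm22 (ey_cont i), mul_cl hm0 (ee_cont i), ← inner_add_left,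
    s1, add_assoc (⟪cl (D.indicator (ps1 a b i)), (F : LL) 1⟫_ℝ), ← inner_add_left, s2, hI1, hI2,
    ← inner_neg_left, ← inner_neg_left, ← inner_add_left, ← inner_add_left, s3]
  congr 3
  funext x
  rw [pd1_ps1, pd2_ps2]
  unfold gf ex ey ee lam
  ring

end

end Pool.SqDrum
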