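import Mathlib
import Pool.Agent.Lib.MP_2805c2_an.SQ.Iface

set_option autoImplicit false

namespace Pool.SqDrum

theorem geo_nn (u : P2) : 0 ≤ nrm u := Real.sqrt_nonneg _

theorem geo_dot_nn (u : P2) : 0 ≤ dot2 u u := by
  unfold dot2; nlinarith [sq_nonneg u.1, sq_nonneg u.2]

theorem geo_sq (u : P2) : nrm u ^ 2 = dot2 u u := by
  unfold nrm; rw [Real.sq_sqrt (geo_dot_nn u)]

theorem geo_lagr (u v : P2) : dot2 u v ^ 2 + det2 u v ^ 2 = nrm u ^ 2 * nrm v ^ 2 := by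
  rw [geo_sq, geo_sq]; unfold dot2 det2; ring

theorem geo_dot_le (u v : P2) : |dot2 u v| ≤ nrm u * nrm v := by
  refine abs_le_of_sq_le_sq ?_ (mul_nonneg (geo_nn u) (geo_nn v))
  rw [mul_pow, ← geo_lagr]
  nlinarith [sq_nonneg (det2 u v)]

theorem geo_det_le (u v : P2) : |det2 u v| ≤ nrm u * nrm v := by
  refine abs_le_of_sq_le_sq ?_ (mul_nonneg (geo_nn u) (geo_nn v))
  rw [mul_pow, ← geo_lagr]
  nlinarith [sq_nonneg (dot2 u v)]

theorem geo_add_sq (u v : P2) : nrm (u + v) ^ 2 = nrm u ^ 2 + nrm v ^ 2 + 2 * dot2 u v := by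
  rw [geo_sq, geo_sq, geo_sq]; unfold dot2; simp only [Prod.fst_add, Prod.snd_add]; ring

theorem geo_tri (u v : P2) : nrm (u + v) ≤ nrm u + nrm v := by
  refine le_of_sq_le_sq ?_ (add_nonneg (geo_nn u) (geo_nn v))
  rw [geo_add_sq]
  nlinarith [(abs_le.1 (geo_dot_le u v)).2]

/-- the sum of two sides controls the determinant -/
theorem geo_key (u v : P2) :
    4 * det2 u v ^ 2 ≤ (nrm u + nrm v) ^ 2 * ((nrm u + nrm v) ^ 2 - nrm (u + v) ^ 2) := by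
  have h1 := geo_lagr u v
  have h2 := abs_le.1 (geo_dot_le u v)
  rw [geo_add_sq]
  have hu := geo_nn u
  have hv := geo_nn v
  set p := nrm u
  set r := nrm v
  set d := dot2 u v
  have e : (p + r) ^ 2 - (p ^ 2 + r ^ 2 + 2 * d) = 2 * (p * r - d) := by ring
  rw [e]
  have h3 : 4 * (p * r) ≤ (p + r) ^ 2 := by nlinarith [sq_nonneg (p - r)]
  have h4 : 0 ≤ p * r - d := by linarith [h2.2]
  have h5 : det2 u v ^ 2 = (p * r + d) * (p * r - d) := by nlinarith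
  have h6 : p * r + d ≤ 2 * (p * r) := by linarith [h2.2]
  calc 4 * det2 u v ^ 2 = (4 * (p * r + d)) * (p * r - d) := by rw [h5]; ring
    _ ≤ (4 * (2 * (p * r))) * (p * r - d) := by gcongr
    _ = (4 * (p * r)) * (2 * (p * r - d)) := by ring
    _ ≤ (p + r) ^ 2 * (2 * (p * r - d)) := by gcongr

/-- the same with a defect -/
theorem geo_def {X s η D : ℝ} (hs : 0 ≤ s) (hX : 2 * s ≤ X) (hX2 : X ≤ 9 / 2)
    (hd : X - 2 * s ≤ 5 * η) (hD : 4 * D ^ 2 ≤ X ^ 2 * (X ^ 2 - (2 * s) ^ 2)) :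
    D ^ 2 ≤ 230 * η := by
  have hX0 : 0 ≤ X := by linarith
  have hη : 0 ≤ η := by linarith
  have e1 : X ^ 2 - (2 * s) ^ 2 = (X - 2 * s) * (X + 2 * s) := by ring
  have e2 : X ^ 2 - (2 * s) ^ 2 ≤ (5 * η) * 9 := by
    rw [e1]
    refine mul_le_mul hd (by linarith) (by linarith) (by linarith)
  have e3 : X ^ 2 ≤ (9 / 2) ^ 2 := by gcongr
  have e4 : 0 ≤ X ^ 2 - (2 * s) ^ 2 := by rw [e1]; exact mul_nonneg (by linarith) (by linarith)
  have e5 : X ^ 2 * (X ^ 2 - (2 * s) ^ 2) ≤ (9 / 2) ^ 2 * ((5 * η) * 9) :=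
    mul_le_mul e3 e2 e4 (by norm_num)
  nlinarith

/-- the conclusion for the lengths of `a` and `b` -/
theorem geo_len {s t η κ : ℝ} (hs : 0 ≤ s) (ht : 0 ≤ t) (hη : 0 ≤ η) (hη2 : η ≤ 1 / 2)
    (hκ : 0 < κ) (hηκ : η ≤ κ ^ 2 / 100) (hst : 1 - η ≤ s * t) (h : s + t ≤ 2 + η / 2) :
    |s ^ 2 - 1| ≤ κ := by
  have h1 : (s - t) ^ 2 ≤ 7 * η := by nlinarith
  have h2 : (s + t) ^ 2 ≥ 4 * (1 - η) := by nlinarith [sq_nonneg (s - t)]
  have h3 : 2 - 2 * η ≤ s + t := by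
    by_contra hc
    push Not at hc
    nlinarith
  have h4 : (s - 1) ^ 2 ≤ 6 * η := by
    have : s - 1 = ((s + t) / 2 - 1) + (s - t) / 2 := by ring
    rw [this]
    have h5 : ((s + t) / 2 - 1) ^ 2 ≤ η ^ 2 := by
      refine sq_le_sq' (by linarith) (by linarith)
    nlinarith [sq_nonneg (((s + t) / 2 - 1) - (s - t) / 2)]
  have h6 : s ≤ 3 := by linarith
  refine abs_le_of_sq_le_sq ?_ hκ.le
  have : (s ^ 2 - 1) ^ 2 = (s - 1) ^ 2 * (s + 1) ^ 2 := by ring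
  rw [this]
  have h7 : (s + 1) ^ 2 ≤ 16 := by nlinarith
  calc (s - 1) ^ 2 * (s + 1) ^ 2 ≤ (6 * η) * 16 := by gcongr
    _ ≤ κ ^ 2 := by linarith

theorem geo_dot {s t A d η κ : ℝ} (hs : 0 ≤ s) (ht : 0 ≤ t) (hη : 0 ≤ η) (hη2 : η ≤ 1 / 2)
    (hκ : 0 < κ) (hηκ : η ≤ κ ^ 2 / 100) (hA : 1 - η ≤ A) (h : s + t ≤ 2 + η / 2)
    (hl : d ^ 2 + A ^ 2 = s ^ 2 * t ^ 2) : |d| ≤ κ := by
  refine abs_le_of_sq_le_sq ?_ hκ.le
  have h0 : (s + t) ^ 2 ≤ (2 + η / 2) ^ 2 := by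
    have : 0 ≤ s + t := add_nonneg hs ht
    gcongr
  have hstu : s * t ≤ (1 + η / 4) ^ 2 := by
    have e : s * t = (s + t) ^ 2 / 4 - (s - t) ^ 2 / 4 := by ring
    have e2 : (1 + η / 4) ^ 2 = (2 + η / 2) ^ 2 / 4 := by ring
    rw [e, e2]
    linarith [sq_nonneg (s - t)]
  have h1 : (s * t) ^ 2 ≤ ((1 + η / 4) ^ 2) ^ 2 := by
    have : 0 ≤ s * t := mul_nonneg hs ht
    gcongr
  have h2 : ((1 + η / 4) ^ 2) ^ 2 ≤ 1 + 2 * η := by
    have : (1 + η / 4) ^ 2 ≤ 1 + 3 / 4 * η := by nlinarith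
    have h0 : 0 ≤ (1 + η / 4) ^ 2 := sq_nonneg _
    calc ((1 + η / 4) ^ 2) ^ 2 ≤ (1 + 3 / 4 * η) ^ 2 := by gcongr
      _ ≤ 1 + 2 * η := by nlinarith
  have h3 : (1 - η) ^ 2 ≤ A ^ 2 := by
    have : 0 ≤ 1 - η := by linarith
    gcongr
  have h4 : d ^ 2 = (s * t) ^ 2 - A ^ 2 := by
    rw [mul_pow]; linarith
  have h5 : (1 - η) ^ 2 = 1 - 2 * η + η ^ 2 := by ring
  have h6 : d ^ 2 ≤ 4 * η := by
    rw [h4]
    linarith [sq_nonneg η]
  linarith [sq_nonneg κ]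

theorem geo_neg (u : P2) : nrm (-u) = nrm u := by
  unfold nrm dot2
  congr 1
  simp only [Prod.fst_neg, Prod.snd_neg]
  ring

theorem geo_ww {a b w : P2} {η κ : ℝ} (hη : 0 ≤ η) (hη3 : η ≤ κ / 20000)
    (hdD : det2 a w ^ 2 ≤ 230 * η) (hdE : det2 b w ^ 2 ≤ 230 * η)
    (hs : nrm a ≤ 9 / 4) (ht : nrm b ≤ 9 / 4) (hA : 1 / 2 ≤ det2 a b) : dot2 w w ≤ κ := by
  have hs0 := geo_nn a
  have ht0 := geo_nn b
  have hs3 : nrm a ^ 2 ≤ 81 / 16 := by nlinarith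
  have ht3 : nrm b ^ 2 ≤ 81 / 16 := by nlinarith
  have hcr : det2 a b ^ 2 * dot2 w w = det2 b w ^ 2 * nrm a ^ 2 + det2 a w ^ 2 * nrm b ^ 2 -
      2 * (det2 b w * det2 a w) * dot2 a b := by
    rw [geo_sq, geo_sq]
    unfold det2 dot2
    ring
  have hcross : -2 * (det2 b w * det2 a w) * dot2 a b ≤
      det2 b w ^ 2 * nrm a ^ 2 + det2 a w ^ 2 * nrm b ^ 2 := by
    have h1 : |(det2 b w * det2 a w) * dot2 a b| ≤ |det2 b w| * |det2 a w| * (nrm a * nrm b) := by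
      rw [abs_mul, abs_mul]
      gcongr
      exact geo_dot_le a b
    have h2 := (abs_le.1 h1).1
    have h3 : 2 * (|det2 b w| * |det2 a w| * (nrm a * nrm b)) ≤
        det2 b w ^ 2 * nrm a ^ 2 + det2 a w ^ 2 * nrm b ^ 2 := by
      have h4 := sq_nonneg (|det2 b w| * nrm a - |det2 a w| * nrm b)
      have e1 := sq_abs (det2 b w)
      have e2 := sq_abs (det2 a w)
      have e3 : (|det2 b w| * nrm a - |det2 a w| * nrm b) ^ 2 =
          |det2 b w| ^ 2 * nrm a ^ 2 + |det2 a w| ^ 2 * nrm b ^ 2 -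
            2 * (|det2 b w| * |det2 a w| * (nrm a * nrm b)) := by ring
      rw [e3, e1, e2] at h4
      linarith
    linarith
  have i1 : det2 b w ^ 2 * nrm a ^ 2 ≤ (230 * η) * (81 / 16) :=
    mul_le_mul hdE hs3 (sq_nonneg _) (by linarith)
  have i2 : det2 a w ^ 2 * nrm b ^ 2 ≤ (230 * η) * (81 / 16) :=
    mul_le_mul hdD ht3 (sq_nonneg _) (by linarith)
  have h6 : det2 a b ^ 2 * dot2 w w ≤ 2 * ((230 * η) * (81 / 16) + (230 * η) * (81 / 16)) := by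
    linarith
  have h7 : 1 / 4 ≤ det2 a b ^ 2 := by
    calc (1 / 4 : ℝ) = (1 / 2) ^ 2 := by norm_num
      _ ≤ det2 a b ^ 2 := by gcongr
  have h8 : 0 ≤ dot2 w w := geo_dot_nn w
  have h9 : 1 / 4 * dot2 w w ≤ det2 a b ^ 2 * dot2 w w := mul_le_mul_of_nonneg_right h7 h8
  linarith

theorem geo : GeoStatement := by
  intro κ hκ
  refine ⟨min (1 / 2) (min (κ ^ 2 / 100) (κ / 20000)), by positivity, ?_⟩
  intro q _ hA hP
  set η := min (1 / 2 : ℝ) (min (κ ^ 2 / 100) (κ / 20000)) with hηd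
  have hη0 : 0 < η := by positivity
  have hη1 : η ≤ 1 / 2 := min_le_left _ _
  have hη2 : η ≤ κ ^ 2 / 100 := (min_le_right _ _).trans (min_le_left _ _)
  have hη3 : η ≤ κ / 20000 := (min_le_right _ _).trans (min_le_right _ _)
  -- the two pairs of opposite sides
  have hper : per q = (nrm (q 1 - q 0) + nrm (q 2 - q 3)) + (nrm (q 2 - q 1) + nrm (q 3 - q 0)) := by
    have e3 : nrm (q 3 - q 2) = nrm (q 2 - q 3) := by
      rw [← neg_sub (q 2) (q 3), geo_neg]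
    have e4 : nrm (q 0 - q 3) = nrm (q 3 - q 0) := by
      rw [← neg_sub (q 3) (q 0), geo_neg]
    have : per q = nrm (q 1 - q 0) + nrm (q 2 - q 1) + nrm (q 3 - q 2) + nrm (q 0 - q 3) := by
      unfold per
      rw [Fin.sum_univ_four]
      rfl
    rw [this, e3, e4]; ring
  have ha2 : q 1 - q 0 + (q 2 - q 3) = (2 : ℝ) • qa q := by
    unfold qa; rw [smul_smul]; norm_num; abel
  have hb2 : q 2 - q 1 + (q 3 - q 0) = (2 : ℝ) • qb q := by
    unfold qb; rw [smul_smul]; norm_num; abel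
  have hn2 : ∀ u : P2, nrm ((2 : ℝ) • u) = 2 * nrm u := by
    intro u
    have e : dot2 ((2 : ℝ) • u) ((2 : ℝ) • u) = 2 ^ 2 * dot2 u u := by
      unfold dot2; simp only [Prod.smul_fst, Prod.smul_snd, smul_eq_mul]; ring
    unfold nrm
    rw [e, Real.sqrt_mul (by norm_num), Real.sqrt_sq (by norm_num)]
  have hD : det2 (q 1 - q 0) (q 2 - q 3) = det2 (qa q) (qw q) := by
    unfold det2 qa qw
    simp only [Prod.fst_sub, Prod.snd_sub, Prod.smul_fst, Prod.smul_snd, Prod.fst_add,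
      Prod.snd_add, smul_eq_mul]
    ring
  have hE : det2 (q 2 - q 1) (q 3 - q 0) = -det2 (qb q) (qw q) := by
    unfold det2 qb qw
    simp only [Prod.fst_sub, Prod.snd_sub, Prod.smul_fst, Prod.smul_snd, Prod.fst_add,
      Prod.snd_add, smul_eq_mul]
    ring
  have k1 := geo_key (q 1 - q 0) (q 2 - q 3)
  have k2 := geo_key (q 2 - q 1) (q 3 - q 0)
  have t1 := geo_tri (q 1 - q 0) (q 2 - q 3)
  have t2 := geo_tri (q 2 - q 1) (q 3 - q 0)
  rw [ha2, hn2] at k1 t1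
  rw [hb2, hn2] at k2 t2
  rw [hD] at k1
  rw [hE] at k2
  rw [hper] at hP
  set a := qa q
  set b := qb q
  set w := qw q
  set X := nrm (q 1 - q 0) + nrm (q 2 - q 3)
  set Y := nrm (q 2 - q 1) + nrm (q 3 - q 0)
  have hs := geo_nn a
  have ht := geo_nn b
  have hAst : det2 a b ≤ nrm a * nrm b := (abs_le.1 (geo_det_le a b)).2
  have hlag := geo_lagr a b
  have sa := geo_sq a
  have sb := geo_sq b
  set s := nrm a
  set t := nrm b
  set A := det2 a b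
  have hst : 1 - η ≤ s * t := hA.trans hAst
  have hsum : s + t ≤ 2 + η / 2 := by linarith
  have hsum2 : 4 - 4 * η ≤ 2 * s + 2 * t := by
    by_contra hc
    push Not at hc
    nlinarith [sq_nonneg (s - t)]
  have L1 : |s ^ 2 - 1| ≤ κ := geo_len hs ht hη0.le hη1 hκ hη2 hst hsum
  have L2 : |t ^ 2 - 1| ≤ κ :=
    geo_len ht hs hη0.le hη1 hκ hη2 (by rw [mul_comm]; exact hst) (by linarith)
  have hdD : det2 a w ^ 2 ≤ 230 * η := by
    refine geo_def hs t1 (by linarith) (by linarith) k1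
  have hdE : det2 b w ^ 2 ≤ 230 * η := by
    have k2' : 4 * det2 b w ^ 2 ≤ Y ^ 2 * (Y ^ 2 - (2 * t) ^ 2) := by
      rw [neg_sq] at k2; exact k2
    refine geo_def ht t2 (by linarith) (by linarith) k2'
  rw [← sa, ← sb]
  refine ⟨L1, L2, geo_dot hs ht hη0.le hη1 hκ hη2 hA hsum hlag, ?_⟩
  exact geo_ww hη0.le hη3 hdD hdE (by linarith) (by linarith) (by linarith)

end Pool.SqDrum
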