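import Pool.Agent.Lib.MP_2805c2_an.SQ.Iface

set_option autoImplicit false

/-!
# GLA: nearly square quadrilaterals contain a large square
-/

namespace Pool.SqDrum

open MeasureTheory Set Filter Topology

namespace GlaAux

theorem side {ε u s β r : ℝ} (hε : 0 < ε) (hε2 : ε < 1 / 20) (hu : 1 - 2 * ε ≤ u)
    (hs : 3 * ε ≤ s) (hβ : β ≤ 2 * ε) (hr0 : 0 ≤ r) (hr1 : r ≤ 1 - 3 * ε) :
    0 < u * s - β * r := by
  have h1 : (1 - 2 * ε) * (3 * ε) ≤ u * s :=
    mul_le_mul hu hs (by positivity) (by linarith)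
  have h2 : β * r ≤ 2 * ε * (1 - 3 * ε) :=
    (mul_le_mul_of_nonneg_right hβ hr0).trans (mul_le_mul_of_nonneg_left hr1 (by positivity))
  nlinarith

end GlaAux

open GlaAux in
/-- GLA -/
theorem gla (hq : QdaStatement) : GlaStatement := by
  intro ε p hε hε2 h hp
  obtain ⟨-, -, -, -, hquad⟩ := hq p h
  have p0 := hp 0
  have p1 := hp 1
  have p2 := hp 2
  have p3 := hp 3
  simp only [cor, Matrix.cons_val_zero, Matrix.cons_val_one, Matrix.cons_val, abs_le] at p0 p1 p2 p3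
  obtain ⟨⟨a1, a2⟩, a3, a4⟩ := p0
  obtain ⟨⟨b1, b2⟩, b3, b4⟩ := p1
  obtain ⟨⟨c1, c2⟩, c3, c4⟩ := p2
  obtain ⟨⟨d1, d2⟩, d3, d4⟩ := p3
  constructor
  · rintro x ⟨⟨x1, x2⟩, ⟨y1, y2⟩⟩
    rw [hquad]
    have e1 : (1 : Fin 4) + 1 = 2 := rfl
    have e2 : (2 : Fin 4) + 1 = 3 := rfl
    have e3 : (3 : Fin 4) + 1 = 0 := rfl
    intro i
    fin_cases i
    · have e : det2 (p 1 - p 0) (x - p 0) = ((p 1).1 - (p 0).1) * (x.2 - (p 0).2) -
          ((p 1).2 - (p 0).2) * (x.1 - (p 0).1) := rfl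
      show 0 < det2 (p 1 - p 0) (x - p 0)
      rw [e]
      exact side hε hε2 (by linarith) (by linarith) (by linarith) (by linarith) (by linarith)
    · have e : det2 (p 2 - p 1) (x - p 1) = ((p 2).2 - (p 1).2) * ((p 1).1 - x.1) -
          (-((p 2).1 - (p 1).1)) * (x.2 - (p 1).2) := by
        simp only [det2, Prod.fst_sub, Prod.snd_sub]
        ring
      show 0 < det2 (p 2 - p 1) (x - p 1)
      rw [e]
      exact side hε hε2 (by linarith) (by linarith) (by linarith) (by linarith) (by linarith)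
    · have e : det2 (p 3 - p 2) (x - p 2) = ((p 2).1 - (p 3).1) * ((p 2).2 - x.2) -
          (-((p 3).2 - (p 2).2)) * ((p 2).1 - x.1) := by
        simp only [det2, Prod.fst_sub, Prod.snd_sub]
        ring
      show 0 < det2 (p 3 - p 2) (x - p 2)
      rw [e]
      exact side hε hε2 (by linarith) (by linarith) (by linarith) (by linarith) (by linarith)
    · have e : det2 (p 0 - p 3) (x - p 3) = ((p 3).2 - (p 0).2) * (x.1 - (p 3).1) -
          ((p 0).1 - (p 3).1) * ((p 3).2 - x.2) := by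
        simp only [det2, Prod.fst_sub, Prod.snd_sub]
        ring
      show 0 < det2 (p 0 - p 3) (x - p 3)
      rw [e]
      exact side hε hε2 (by linarith) (by linarith) (by linarith) (by linarith) (by linarith)
  · have e : det2 (qa p) (qb p) =
        (1/2 * ((p 1).1 + (p 2).1 - (p 0).1 - (p 3).1)) *
          (1/2 * ((p 2).2 + (p 3).2 - (p 0).2 - (p 1).2)) -
        (1/2 * ((p 1).2 + (p 2).2 - (p 0).2 - (p 3).2)) *
          (1/2 * ((p 2).1 + (p 3).1 - (p 0).1 - (p 1).1)) := rfl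
    rw [e]
    set A := 1/2 * ((p 1).1 + (p 2).1 - (p 0).1 - (p 3).1) with hA
    set B := 1/2 * ((p 2).2 + (p 3).2 - (p 0).2 - (p 1).2) with hB
    set C := 1/2 * ((p 1).2 + (p 2).2 - (p 0).2 - (p 3).2) with hC
    set E := 1/2 * ((p 2).1 + (p 3).1 - (p 0).1 - (p 1).1) with hE
    have hA1 : A ≤ 1 + 2 * ε := by rw [hA]; linarith
    have hA0 : 0 ≤ A := by rw [hA]; linarith
    have hB1 : B ≤ 1 + 2 * ε := by rw [hB]; linarith
    have hC1 : |C| ≤ 2 * ε := by rw [hC, abs_le]; constructor <;> linarith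
    have hE1 : |E| ≤ 2 * ε := by rw [hE, abs_le]; constructor <;> linarith
    have m1 : A * B ≤ (1 + 2 * ε) * (1 + 2 * ε) :=
      (mul_le_mul_of_nonneg_left hB1 hA0).trans (mul_le_mul_of_nonneg_right hA1 (by positivity))
    have m2 : -(C * E) ≤ (2 * ε) * (2 * ε) := by
      refine (neg_le_abs _).trans ?_
      rw [abs_mul]
      exact mul_le_mul hC1 hE1 (abs_nonneg _) (by positivity)
    nlinarith

end Pool.SqDrum
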