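import Mathlib
import Pool.Agent.Lib.MP_2805c2_an.SQ.Iface

set_option autoImplicit false

namespace Pool.SqDrum

open MeasureTheory Set Filter Topology
open scoped ENNReal ContDiff InnerProductSpace Pointwise

/-- the homothety -/
def glb_h (L : ℝ) (x : P2) : P2 := L • x

theorem glb_sim (L : ℝ) : Sim L (glb_h L) :=
  ⟨L, 0, 0, 0, 1, Or.inl rfl, by ring, fun x => by
    simp [glb_h, Prod.smul_def]⟩

theorem glb_quad {L : ℝ} (hL : 0 < L) (q : Fin 4 → P2) :
    quad (fun i => L • q i) = glb_h L '' quad q := by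
  have e : Set.range (fun i => L • q i) = L • Set.range q := by
    ext x; simp [Set.mem_smul_set]
  have e2 : glb_h L '' quad q = L • quad q := rfl
  rw [e2, quad, e, convexHull_smul, interior_smul₀ hL.ne']
  rfl

theorem glb_nrm {L : ℝ} (hL : 0 < L) (u : P2) : nrm (L • u) = L * nrm u := by
  have : dot2 (L • u) (L • u) = L ^ 2 * dot2 u u := by
    simp [dot2]; ring
  rw [nrm, this, Real.sqrt_mul (by positivity), Real.sqrt_sq hL.le]
  rfl

theorem glb_per {L : ℝ} (hL : 0 < L) (q : Fin 4 → P2) :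
    per (fun i => L • q i) = L * per q := by
  unfold per
  rw [Finset.mul_sum]
  refine Finset.sum_congr rfl fun i _ => ?_
  rw [← smul_sub, glb_nrm hL]

theorem glb_det (L : ℝ) (u v : P2) : det2 (L • u) (L • v) = L ^ 2 * det2 u v := by
  simp [det2]; ring

theorem glb_area (L : ℝ) (q : Fin 4 → P2) :
    det2 (qa fun i => L • q i) (qb fun i => L • q i) = L ^ 2 * det2 (qa q) (qb q) := by
  rw [← glb_det]
  congr 1
  · simp only [qa, ← smul_add, ← smul_sub]; rw [smul_comm]
  · simp only [qb, ← smul_add, ← smul_sub]; rw [smul_comm]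

theorem glb_ccw {L : ℝ} (hL : 0 < L) {q : Fin 4 → P2} (hq : Ccw q) :
    Ccw (fun i => L • q i) := by
  intro i j h1 h2
  have := hq i j h1 h2
  simp only [← smul_sub]
  rw [glb_det]
  positivity

theorem glb_sq {L : ℝ} (hL : 0 < L) (x y M : ℝ) :
    glb_h L '' Sq x y M = Sq (L * x) (L * y) (L * M) := by
  ext z
  simp only [Sq, glb_h, mem_image, mem_prod, mem_Ioo]
  constructor
  · rintro ⟨w, ⟨⟨h1, h2⟩, h3, h4⟩, rfl⟩
    simp only [Prod.smul_fst, Prod.smul_snd, smul_eq_mul]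
    refine ⟨⟨by nlinarith, by nlinarith⟩, by nlinarith, by nlinarith⟩
  · rintro ⟨⟨h1, h2⟩, h3, h4⟩
    refine ⟨L⁻¹ • z, ⟨⟨?_, ?_⟩, ?_, ?_⟩, smul_inv_smul₀ hL.ne' z⟩ <;>
      simp only [Prod.smul_fst, Prod.smul_snd, smul_eq_mul] <;> rw [inv_mul_eq_div]
    · rw [lt_div_iff₀ hL]; linarith
    · rw [div_lt_iff₀ hL]; linarith
    · rw [lt_div_iff₀ hL]; linarith
    · rw [div_lt_iff₀ hL]; linarith

theorem glb_vol (x y : ℝ) {M : ℝ} (hM : 0 < M) : volume.real (Sq x y M) = M ^ 2 := by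
  rw [Sq, Measure.volume_eq_prod, measureReal_prod_prod]
  rw [Real.volume_real_Ioo, Real.volume_real_Ioo]
  rw [max_eq_left (by linarith), max_eq_left (by linarith)]
  ring

theorem glb_isOpen_sq (x y M : ℝ) : IsOpen (Sq x y M) := isOpen_Ioo.prod isOpen_Ioo

theorem glb_open {L : ℝ} (hL : 0 < L) {S : Set P2} (hS : IsOpen S) : IsOpen (glb_h L '' S) :=
  (isOpenMap_smul₀ hL.ne') S hS

theorem glb_bdd {L : ℝ} {S : Set P2} (hS : Bornology.IsBounded S) :
    Bornology.IsBounded (glb_h L '' S) := hS.smul₀ L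

/-- the main inequality -/
theorem glb_main (hUPQ : UpqStatement) (hFSP : FspStatement) (hSIM : SimStatement)
    (hQDA : QdaStatement) (hSUP : SupStatement) (hTHB : ThbStatement)
    {p q : Fin 4 → P2} (hp : Ccw p) (hq : Ccw q) (hiso : IsoSp (quad p) (quad q))
    {x r L : ℝ} (hr : 0 < r) (hL : 0 < L) (hsub : Sq x x r ⊆ quad p) (hLr : Real.pi < L * r) :
    (L * r) ^ 2 / (4 * Real.pi) - L * r / 4 ≤
      L ^ 2 * det2 (qa q) (qb q) / (4 * Real.pi) - L * per q / 16 +
        (L * per q) ^ 2 / (4 * Real.pi * (L ^ 2 * det2 (qa q) (qb q))) := by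
  have hpi := Real.pi_pos
  have hop : IsOpen (quad p) := isOpen_interior
  have hoq : IsOpen (quad q) := isOpen_interior
  have hbp : Bornology.IsBounded (quad p) := (hQDA p hp).2.2.2.1
  have hbq : Bornology.IsBounded (quad q) := (hQDA q hq).2.2.2.1
  have h1 := hTHB (L * x) (L * x) (L * r) (by positivity)
  have h2 : hs (res (Sq (L * x) (L * x) (L * r))) ≤ hs (res (glb_h L '' quad p)) := by
    have := hSUP 1 (fun _ => Sq (L * x) (L * x) (L * r)) (glb_h L '' quad p)
      (fun _ => glb_isOpen_sq _ _ _) (glb_open hL hop)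
      (fun _ => by rw [← glb_sq hL]; exact image_mono hsub)
      (fun i j hij => absurd (Subsingleton.elim i j) hij)
    simpa using this
  have h3 : hs (res (glb_h L '' quad p)) = hs (res (glb_h L '' quad q)) := by
    refine hFSP _ _ (glb_open hL hop) (glb_open hL hoq) (glb_bdd hbp) (glb_bdd hbq) fun l => ?_
    rw [hSIM L _ _ hL (glb_sim L) hop, hSIM L _ _ hL (glb_sim L) hoq]
    exact hiso _
  have h4 := hUPQ _ (glb_ccw hL hq)
  rw [glb_quad hL, glb_per hL, glb_area] at h4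
  have h5 := (h1.trans h2).trans (h3.le.trans h4)
  rcases ENNReal.ofReal_le_ofReal_iff'.1 h5 with h6 | h6
  · exact h6
  · exfalso
    have : 0 < L * r * (L * r - Real.pi) / (4 * Real.pi) := by
      have : 0 < L * r - Real.pi := by linarith
      have : 0 < L * r := by positivity
      positivity
    have e : L * r * (L * r - Real.pi) / (4 * Real.pi) =
      (L * r) ^ 2 / (4 * Real.pi) - L * r / 4 := by field_simp
    linarith

theorem glb_num {η δ K ε A r P : ℝ} (hη : 0 < η) (hδ0 : 0 < δ) (hδ : δ * (4 + η) < η / 16)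
    (hK2 : 2 ≤ K) (hK : 1 / (3 * K) ≤ δ / 2) (hε0 : 0 < ε) (hε1 : ε ≤ 1 / 40)
    (hε2 : 2 * K * ε ≤ δ / 2) (hr : r = 1 - 8 * ε) (hA0 : 16 / 25 ≤ A)
    (harea : A ≤ (1 + 4 * ε) ^ 2) (hP : 4 + η < P)
    (hm : (K * P * r) ^ 2 / (4 * Real.pi) - K * P * r / 4 ≤
      (K * P) ^ 2 * A / (4 * Real.pi) - K * P * P / 16 +
        (K * P * P) ^ 2 / (4 * Real.pi * ((K * P) ^ 2 * A))) : False := by
  have hpi := Real.pi_gt_three
  have hpi4 := Real.pi_lt_four
  have hr0 : 4 / 5 ≤ r := by rw [hr]; linarith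
  have hr1 : r ≤ 1 := by rw [hr]; linarith
  have hP4 : 4 < P := by linarith
  have hL : 0 < K * P := by positivity
  have hmain : P * (1 / 16 - K * (A - r ^ 2) / (4 * Real.pi) - 1 / (4 * Real.pi * A * K)) ≤
      r / 4 := by
    have e : (K * P) ^ 2 * A / (4 * Real.pi) - K * P * P / 16 +
        (K * P * P) ^ 2 / (4 * Real.pi * ((K * P) ^ 2 * A)) -
        ((K * P * r) ^ 2 / (4 * Real.pi) - K * P * r / 4) =
        (K * P) * (r / 4 - P * (1 / 16 - K * (A - r ^ 2) / (4 * Real.pi) -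
          1 / (4 * Real.pi * A * K))) := by
      have : A ≠ 0 := by linarith
      have : P ≠ 0 := by linarith
      have : K ≠ 0 := by linarith
      field_simp
      ring
    have h1 : 0 ≤ (K * P) * (r / 4 - P * (1 / 16 - K * (A - r ^ 2) / (4 * Real.pi) -
          1 / (4 * Real.pi * A * K))) := by
      rw [← e]; linarith
    have h2 := nonneg_of_mul_nonneg_right h1 hL
    linarith
  have h1 : K * (A - r ^ 2) / (4 * Real.pi) ≤ δ / 2 := by
    refine le_trans ?_ hε2
    rw [div_le_iff₀ (by positivity)]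
    have : A - r ^ 2 ≤ 24 * ε := by rw [hr]; nlinarith
    have : K * (A - r ^ 2) ≤ K * (24 * ε) := mul_le_mul_of_nonneg_left this (by linarith)
    nlinarith [mul_pos (by linarith : 0 < K) hε0]
  have h2 : 1 / (4 * Real.pi * A * K) ≤ δ / 2 := by
    refine le_trans ?_ hK
    refine one_div_le_one_div_of_le (by positivity) ?_
    have : 3 ≤ 4 * Real.pi * A := by nlinarith
    nlinarith
  have h3 : P * (1 / 16 - δ) ≤ r / 4 := by
    refine le_trans (mul_le_mul_of_nonneg_left ?_ (by linarith)) hmain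
    linarith
  have h4 : 0 < 1 / 16 - δ := by
    have h : 0 < (4 + η) * (1 / 16 - δ) := by nlinarith
    exact (pos_iff_pos_of_mul_pos h).1 (by linarith)
  have h5 : (4 + η) * (1 / 16 - δ) < P * (1 / 16 - δ) := mul_lt_mul_of_pos_right hP h4
  nlinarith

theorem glb (hGLA : GlaStatement) (hUPQ : UpqStatement) (hFSP : FspStatement)
    (hSIM : SimStatement) (hARE : AreStatement) (hQDA : QdaStatement) (hQDB : QdbStatement)
    (hSUP : SupStatement) (hTHB : ThbStatement) : GlbStatement := by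
  intro η hη
  have hpi := Real.pi_gt_three
  have hpi4 := Real.pi_lt_four
  obtain ⟨δ, hδ0, hδ⟩ : ∃ δ : ℝ, 0 < δ ∧ δ * (4 + η) < η / 16 :=
    ⟨η / (32 * (4 + η)), by positivity, by
      rw [div_mul_eq_mul_div, div_lt_iff₀ (by positivity)]
      nlinarith⟩
  obtain ⟨K, hK2, hK⟩ : ∃ K : ℝ, 2 ≤ K ∧ 1 / (3 * K) ≤ δ / 2 := by
    refine ⟨max 2 (2 / (3 * δ)), le_max_left _ _, ?_⟩
    have h1 : 2 / (3 * δ) ≤ max 2 (2 / (3 * δ)) := le_max_right _ _
    have h2 : 0 < max 2 (2 / (3 * δ)) := lt_of_lt_of_le two_pos (le_max_left _ _)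
    rw [div_le_iff₀ (by positivity)] at h1
    rw [div_le_iff₀ (by positivity)]
    nlinarith
  obtain ⟨ε, hε0, hε1, hε2, hε3⟩ : ∃ ε : ℝ, 0 < ε ∧ ε ≤ 1 / 40 ∧ 2 * K * ε ≤ δ / 2 ∧
      16 * ε ≤ η := by
    refine ⟨min (min (1 / 40) (δ / (4 * K))) (η / 16), by positivity, ?_, ?_, ?_⟩
    · exact (min_le_left _ _).trans (min_le_left _ _)
    · have h1 : min (min (1 / 40) (δ / (4 * K))) (η / 16) ≤ δ / (4 * K) :=
        (min_le_left _ _).trans (min_le_right _ _)
      rw [le_div_iff₀ (by positivity)] at h1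
      linarith
    · have h1 : min (min (1 / 40) (δ / (4 * K))) (η / 16) ≤ η / 16 := min_le_right _ _
      linarith
  refine ⟨ε, hε0, fun p q hp hq hnear hiso => ?_⟩
  obtain ⟨hsub, harea⟩ := hGLA ε p hε0 (by linarith) hp hnear
  have hop : IsOpen (quad p) := isOpen_interior
  have hoq : IsOpen (quad q) := isOpen_interior
  have hbp : Bornology.IsBounded (quad p) := (hQDA p hp).2.2.2.1
  have hbq : Bornology.IsBounded (quad q) := (hQDA q hq).2.2.2.1
  have hvol : det2 (qa p) (qb p) = det2 (qa q) (qb q) := by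
    rw [← hQDB p hp, ← hQDB q hq]
    exact hARE _ _ hop hoq hbp hbq hiso
  set r : ℝ := 1 - 8 * ε with hr
  have hr0 : 4 / 5 ≤ r := by rw [hr]; linarith
  have hr1 : r ≤ 1 := by rw [hr]; linarith
  have hAr : r ^ 2 ≤ det2 (qa p) (qb p) := by
    rw [← hQDB p hp, ← glb_vol (-1/2 + 4 * ε) (-1/2 + 4 * ε) (by linarith : 0 < r)]
    exact measureReal_mono hsub hbp.measure_lt_top.ne
  rw [hvol] at hAr harea
  set A : ℝ := det2 (qa q) (qb q) with hA
  have hA0 : 16 / 25 ≤ A := by nlinarith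
  refine ⟨by nlinarith, ?_⟩
  by_contra hper
  push Not at hper
  have hP : 4 < per q := by linarith
  have hL : 0 < K * per q := by positivity
  have hLr : Real.pi < K * per q * r := by nlinarith
  have hm := glb_main hUPQ hFSP hSIM hQDA hSUP hTHB hp hq hiso (by linarith : 0 < r) hL hsub hLr
  rw [← hA] at hm
  exact glb_num hη hδ0 hδ hK2 hK hε0 hε1 hε2 hr hA0 harea hper hm

end Pool.SqDrum
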