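import Mathlib
import Pool.Agent.Lib.MP_2805c2_an.SQ.Iface

set_option autoImplicit false

/-!
# GRD: filling a domain with squares
-/

namespace Pool.SqDrum

open MeasureTheory Set Filter Topology
open scoped ENNReal

theorem grd_floor {h a x : ℝ} {k : ℤ} (hh : 0 < h) (e : a = k * h) (h1 : a < x) (h2 : x < a + h) :
    ⌊x / h⌋ = k := by
  rw [Int.floor_eq_iff]
  constructor
  · rw [le_div_iff₀ hh, ← e]; exact h1.le
  · rw [div_lt_iff₀ hh]
    have : ((k : ℝ) + 1) * h = a + h := by rw [e]; ring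
    rw [this]; exact h2

theorem grd : GrdStatement := by
  intro Ω hΩ hb ε hε
  have hfin : volume Ω ≠ ∞ := hb.measure_lt_top.ne
  obtain ⟨K, hKΩ, hK, hvol⟩ := hΩ.measurableSet.exists_isCompact_lt_add hfin
    (ENNReal.ofReal_pos.2 hε).ne'
  obtain ⟨h, hh, hth⟩ := hK.exists_thickening_subset_open hΩ hKΩ
  obtain ⟨R, hR⟩ := hK.isBounded.subset_closedBall (0 : P2)
  have hfl1 : ∀ k : P2, (⌊k.1 / h⌋ : ℝ) * h ≤ k.1 := fun k => by
    rw [← le_div_iff₀ hh]; exact Int.floor_le _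
  have hfl2 : ∀ k : P2, k.1 < (⌊k.1 / h⌋ : ℝ) * h + h := fun k => by
    have := Int.lt_floor_add_one (k.1 / h)
    rw [div_lt_iff₀ hh] at this
    linarith
  have hfl3 : ∀ k : P2, (⌊k.2 / h⌋ : ℝ) * h ≤ k.2 := fun k => by
    rw [← le_div_iff₀ hh]; exact Int.floor_le _
  have hfl4 : ∀ k : P2, k.2 < (⌊k.2 / h⌋ : ℝ) * h + h := fun k => by
    have := Int.lt_floor_add_one (k.2 / h)
    rw [div_lt_iff₀ hh] at this
    linarith
  classical
  set S0 : Set (ℤ × ℤ) := (fun k : P2 => (⌊k.1 / h⌋, ⌊k.2 / h⌋)) '' K with hS0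
  have hS0fin : S0.Finite := by
    refine (Set.finite_Icc ((⌊-R / h⌋, ⌊-R / h⌋) : ℤ × ℤ) (⌊R / h⌋, ⌊R / h⌋)).subset ?_
    rintro _ ⟨k, hk, rfl⟩
    have hk' := hR hk
    rw [Metric.mem_closedBall, dist_zero_right, Prod.norm_def, max_le_iff, Real.norm_eq_abs,
      Real.norm_eq_abs, abs_le, abs_le] at hk'
    obtain ⟨⟨a1, a2⟩, a3, a4⟩ := hk'
    refine ⟨⟨Int.floor_le_floor ?_, Int.floor_le_floor ?_⟩,
      ⟨Int.floor_le_floor ?_, Int.floor_le_floor ?_⟩⟩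
    all_goals exact div_le_div_of_nonneg_right (by assumption) hh.le
  set S : Finset (ℤ × ℤ) := hS0fin.toFinset with hS
  have hmem : ∀ s ∈ S, ∃ k ∈ K, (⌊k.1 / h⌋, ⌊k.2 / h⌋) = s := fun s hs => by
    rw [hS, Set.Finite.mem_toFinset] at hs
    exact hs
  refine ⟨S.card, fun i => (((S.equivFin.symm i).1.1 : ℝ) * h, ((S.equivFin.symm i).1.2 : ℝ) * h),
    h, hh, ?_, ?_, ?_⟩
  · intro i x hx
    obtain ⟨⟨x1, x2⟩, x3, x4⟩ := hx
    obtain ⟨k, hk, hks⟩ := hmem _ (S.equivFin.symm i).2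
    refine hth (Metric.mem_thickening_iff.2 ⟨k, hk, ?_⟩)
    have e1 : (S.equivFin.symm i).1.1 = ⌊k.1 / h⌋ := by rw [← hks]
    have e2 : (S.equivFin.symm i).1.2 = ⌊k.2 / h⌋ := by rw [← hks]
    simp only [e1, e2] at x1 x2 x3 x4
    have := hfl1 k
    have := hfl2 k
    have := hfl3 k
    have := hfl4 k
    rw [Prod.dist_eq, max_lt_iff, Real.dist_eq, Real.dist_eq, abs_lt, abs_lt]
    refine ⟨⟨?_, ?_⟩, ⟨?_, ?_⟩⟩ <;> linarith
  · intro i j hij
    rw [Set.disjoint_left]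
    rintro x ⟨⟨x1, x2⟩, x3, x4⟩ ⟨⟨y1, y2⟩, y3, y4⟩
    have f1 := grd_floor hh rfl x1 x2
    have f2 := grd_floor hh rfl x3 x4
    have g1 := grd_floor hh rfl y1 y2
    have g2 := grd_floor hh rfl y3 y4
    refine hij (S.equivFin.symm.injective (Subtype.ext (Prod.ext ?_ ?_)))
    · rw [← f1, ← g1]
    · rw [← f2, ← g2]
  · have hcov : K ⊆ ⋃ s ∈ S, (Ico ((s.1 : ℝ) * h) (s.1 * h + h) ×ˢ Ico ((s.2 : ℝ) * h) (s.2 * h + h)) := by
      intro k hk
      refine mem_biUnion (x := (⌊k.1 / h⌋, ⌊k.2 / h⌋)) ?_ ?_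
      · rw [SetLike.mem_coe, hS, Set.Finite.mem_toFinset]
        exact ⟨k, hk, rfl⟩
      · exact ⟨⟨hfl1 k, hfl2 k⟩, hfl3 k, hfl4 k⟩
    have hsq : ∀ s : ℤ × ℤ, volume (Ico ((s.1 : ℝ) * h) (s.1 * h + h) ×ˢ
        Ico ((s.2 : ℝ) * h) (s.2 * h + h)) = ENNReal.ofReal (h ^ 2) := fun s => by
      rw [Measure.volume_eq_prod, Measure.prod_prod, Real.volume_Ico, Real.volume_Ico,
        add_sub_cancel_left, add_sub_cancel_left, ← ENNReal.ofReal_mul hh.le, pow_two]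
    have hle : volume K ≤ ENNReal.ofReal (S.card * h ^ 2) := by
      refine (measure_mono hcov).trans ((measure_biUnion_finset_le _ _).trans ?_)
      rw [Finset.sum_congr rfl fun s _ => hsq s, Finset.sum_const, nsmul_eq_mul,
        ENNReal.ofReal_mul (by positivity), ENNReal.ofReal_natCast]
    have h1 : volume.real K ≤ S.card * h ^ 2 :=
      ENNReal.toReal_le_of_le_ofReal (by positivity) hle
    have h2 : volume.real Ω ≤ volume.real K + ε := by
      have hKfin : volume K ≠ ∞ := hK.measure_lt_top.ne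
      have := ENNReal.toReal_mono (ENNReal.add_ne_top.2 ⟨hKfin, ENNReal.ofReal_ne_top⟩) hvol.le
      rw [ENNReal.toReal_add hKfin ENNReal.ofReal_ne_top, ENNReal.toReal_ofReal hε.le] at this
      exact this
    linarith

end Pool.SqDrum
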