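import Mathlib
import Pool.Agent.Lib.MP_2805c2_an.SQ.Iface

set_option autoImplicit false

/-! # GRM: the reduced matrix is symmetric for a scalar product -/

namespace Pool.SqDrum

open MeasureTheory Set Filter Topology Asymptotics
open scoped ENNReal ContDiff InnerProductSpace

namespace GrmAux

theorem posDef_near {k : ℕ} (G : Matrix (Fin k) (Fin k) ℝ) (hs : G.IsSymm)
    (h : ∀ i j, |G i j - (if i = j then 1 else 0)| < 1 / ((k : ℝ) + 1)) : G.PosDef := by
  refine Matrix.PosDef.of_dotProduct_mulVec_pos ?_ fun x hx => ?_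
  · rw [Matrix.IsHermitian, Matrix.conjTranspose_eq_transpose_of_trivial]
    exact hs
  · set c : ℝ := 1 / ((k : ℝ) + 1) with hc
    have hk : (0 : ℝ) < (k : ℝ) + 1 := by positivity
    have hS : 0 < ∑ i, x i ^ 2 := by
      refine Finset.sum_pos' (fun i _ => sq_nonneg _) ?_
      by_contra hcon
      push Not at hcon
      refine hx (funext fun i => ?_)
      have := hcon i (Finset.mem_univ i)
      have h0 : x i ^ 2 = 0 := le_antisymm this (sq_nonneg _)
      simpa using h0
    have key : star x ⬝ᵥ (G.mulVec x) =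
        ∑ i, x i ^ 2 + ∑ i, ∑ j, x i * (G i j - (if i = j then 1 else 0)) * x j := by
      have h1 : ∀ i, x i ^ 2 = ∑ j, x i * (if i = j then (1 : ℝ) else 0) * x j := by
        intro i
        rw [Finset.sum_eq_single i]
        · simp [sq]
        · intro j _ hj
          rw [if_neg (Ne.symm hj)]
          ring
        · intro hi
          exact absurd (Finset.mem_univ i) hi
      rw [Finset.sum_congr rfl (fun i _ => h1 i), ← Finset.sum_add_distrib]
      show ∑ i, star x i * (G.mulVec x) i = _
      refine Finset.sum_congr rfl fun i _ => ?_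
      rw [← Finset.sum_add_distrib]
      show star (x i) * ∑ j, G i j * x j = _
      rw [Finset.mul_sum]
      refine Finset.sum_congr rfl fun j _ => ?_
      simp only [star_trivial]
      ring
    have hb : ∀ i j, -(c * ((x i ^ 2 + x j ^ 2) / 2)) ≤
        x i * (G i j - (if i = j then 1 else 0)) * x j := by
      intro i j
      have h1 := (h i j).le
      have h2 : |x i * (G i j - (if i = j then 1 else 0)) * x j| ≤
          c * ((x i ^ 2 + x j ^ 2) / 2) := by
        rw [abs_mul, abs_mul]
        have h3 : |x i| * |x j| ≤ (x i ^ 2 + x j ^ 2) / 2 := by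
          nlinarith [sq_nonneg (|x i| - |x j|), sq_abs (x i), sq_abs (x j)]
        calc |x i| * |G i j - (if i = j then 1 else 0)| * |x j|
            = |G i j - (if i = j then 1 else 0)| * (|x i| * |x j|) := by ring
          _ ≤ c * (|x i| * |x j|) := by
              exact mul_le_mul_of_nonneg_right h1 (by positivity)
          _ ≤ c * ((x i ^ 2 + x j ^ 2) / 2) := by
              refine mul_le_mul_of_nonneg_left h3 ?_
              rw [hc]; positivity
      exact (abs_le.1 h2).1
    have hsum : -(c * (k * ∑ i, x i ^ 2)) ≤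
        ∑ i, ∑ j, x i * (G i j - (if i = j then 1 else 0)) * x j := by
      have h1 : -(c * (k * ∑ i, x i ^ 2)) = ∑ i : Fin k, ∑ j : Fin k,
          -(c * ((x i ^ 2 + x j ^ 2) / 2)) := by
        simp only [Finset.sum_neg_distrib, ← Finset.mul_sum]
        congr 2
        simp only [← Finset.sum_div, Finset.sum_add_distrib, Finset.sum_const, Finset.card_univ,
          Fintype.card_fin, nsmul_eq_mul, ← Finset.mul_sum]
        ring
      rw [h1]
      exact Finset.sum_le_sum fun i _ => Finset.sum_le_sum fun j _ => hb i j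
    rw [key]
    have h4 : c * (k * ∑ i, x i ^ 2) < ∑ i, x i ^ 2 := by
      have h5 : c * k < 1 := by
        rw [hc, one_div, inv_mul_lt_iff₀ hk]
        linarith
      calc c * (k * ∑ i, x i ^ 2) = (c * k) * ∑ i, x i ^ 2 := by ring
        _ < 1 * ∑ i, x i ^ 2 := mul_lt_mul_of_pos_right h5 hS
        _ = _ := one_mul _
    linarith

end GrmAux

theorem grm : GrmStatement := by
  intro E _ _ _ k A B l v X Lm hyp sol
  have hk : (0 : ℝ) < 1 / ((k : ℝ) + 1) := by positivity
  have hXc : ContinuousAt X 0 := sol.anX.continuousAt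
  have hBc : ContinuousAt B 0 := hyp.anB.continuousAt
  have hX : ∀ i, ContinuousAt (fun z => v i + X z i) 0 := fun i =>
    continuousAt_const.add ((continuous_apply i).continuousAt.comp hXc)
  have hG : ∀ i j, ∀ᶠ z in 𝓝 (0 : Z5),
      |⟪v i + X z i, B z (v j + X z j)⟫_ℝ - (if i = j then 1 else 0)| < 1 / ((k : ℝ) + 1) := by
    intro i j
    have hc : ContinuousAt (fun z => ⟪v i + X z i, B z (v j + X z j)⟫_ℝ) 0 :=
      (hX i).inner (hBc.clm_apply (hX j))
    have h0 : ⟪v i + X 0 i, B 0 (v j + X 0 j)⟫_ℝ = if i = j then 1 else 0 := by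
      rw [sol.X0]
      simp only [Pi.zero_apply, add_zero]
      exact hyp.orth i j
    have h1 : Tendsto (fun z => |⟪v i + X z i, B z (v j + X z j)⟫_ℝ - (if i = j then 1 else 0)|)
        (𝓝 0) (𝓝 0) := by
      have h2 : Tendsto (fun z => ⟪v i + X z i, B z (v j + X z j)⟫_ℝ) (𝓝 0)
          (𝓝 (if i = j then 1 else 0)) := by
        have := hc.tendsto
        rwa [h0] at this
      have h3 := (h2.sub_const (if i = j then (1 : ℝ) else 0)).abs
      simpa using h3
    exact h1.eventually (gt_mem_nhds hk)
  have hG' : ∀ᶠ z in 𝓝 (0 : Z5), ∀ i j,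
      |⟪v i + X z i, B z (v j + X z j)⟫_ℝ - (if i = j then 1 else 0)| < 1 / ((k : ℝ) + 1) :=
    eventually_all.2 fun i => eventually_all.2 fun j => hG i j
  filter_upwards [hG', sol.eq] with z hz heq
  have hsymm : ∀ i j, ⟪v i + X z i, B z (v j + X z j)⟫_ℝ = ⟪v j + X z j, B z (v i + X z i)⟫_ℝ := by
    intro i j
    rw [← hyp.symB, real_inner_comm]
  refine ⟨Matrix.of fun i j => ⟪v i + X z i, B z (v j + X z j)⟫_ℝ, ?_, ?_⟩
  · refine GrmAux.posDef_near _ ?_ hz
    ext i j
    exact hsymm j i
  · have hprod : ∀ i j, ((Matrix.of fun i j => ⟪v i + X z i, B z (v j + X z j)⟫_ℝ) *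
        Matrix.of (Lm z)) i j = ⟪v i + X z i, A z (v j + X z j)⟫_ℝ := by
      intro i j
      rw [heq j, inner_sum, Matrix.mul_apply]
      refine Finset.sum_congr rfl fun m _ => ?_
      rw [inner_smul_right]
      simp only [Matrix.of_apply]
      ring
    ext i j
    rw [Matrix.transpose_apply, hprod, hprod, ← hyp.symA, real_inner_comm]

end Pool.SqDrum
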