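import Pool.Agent.Lib.MP_2805c2_an.SQ.Iface

set_option autoImplicit false

/-!
# Module HSB (helper72): the Hilbert–Schmidt norm does not depend on the basis
-/

namespace Pool.SqDrum

open MeasureTheory Set Filter Topology
open scoped ENNReal InnerProductSpace

/-- Parseval in `ℝ≥0∞` -/
theorem hsb_parseval {ι : Type} (b : HilbertBasis ι ℝ L2) (f : L2) :
    ‖f‖ₑ ^ 2 = ∑' i, ‖⟪b i, f⟫_ℝ‖ₑ ^ 2 := by
  have h := b.hasSum_inner_mul_inner f f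
  have e1 : ∀ i, ⟪f, b i⟫_ℝ * ⟪b i, f⟫_ℝ = ‖⟪b i, f⟫_ℝ‖ ^ 2 := fun i => by
    rw [real_inner_comm, Real.norm_eq_abs, sq_abs, sq]
  simp only [e1, real_inner_self_eq_norm_sq] at h
  have e2 : ∀ x : ℝ, ‖x‖ₑ ^ 2 = ENNReal.ofReal (‖x‖ ^ 2) := fun x => by
    rw [ENNReal.ofReal_pow (norm_nonneg _), ofReal_norm]
  rw [← ofReal_norm, ← ENNReal.ofReal_pow (norm_nonneg _), ← h.tsum_eq,
    ENNReal.ofReal_tsum_of_nonneg (fun i => by positivity) h.summable]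
  exact tsum_congr fun i => (e2 _).symm

theorem hsb_swap {ι ι' : Type} (K : L2 →L[ℝ] L2) (b : HilbertBasis ι ℝ L2)
    (c : HilbertBasis ι' ℝ L2) : ∑' i, ‖K (b i)‖ₑ ^ 2 = ∑' j, ‖K.adjoint (c j)‖ₑ ^ 2 := by
  have e1 : ∀ i, ‖K (b i)‖ₑ ^ 2 = ∑' j, ‖⟪c j, K (b i)⟫_ℝ‖ₑ ^ 2 := fun i =>
    hsb_parseval c _
  have e2 : ∀ j, ‖K.adjoint (c j)‖ₑ ^ 2 = ∑' i, ‖⟪c j, K (b i)⟫_ℝ‖ₑ ^ 2 := fun j => by
    rw [hsb_parseval b]
    refine tsum_congr fun i => ?_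
    rw [ContinuousLinearMap.adjoint_inner_right, real_inner_comm]
  simp only [e1, e2]
  exact ENNReal.tsum_comm

/-- **HSB** -/
theorem hsb : HsbStatement := by
  intro K ι b
  have h1 : hs K = ∑' i, ‖K.adjoint (b i)‖ₑ ^ 2 := hsb_swap K stdB.2 b
  exact ⟨h1.trans (hsb_swap K b b).symm, h1⟩

end Pool.SqDrum
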