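import Pool.Agent.Lib.MP_2805c2_an.SQ.Iface

set_option autoImplicit false

/-!
# Module HSI (helper72): cutting with indicator functions
-/

namespace Pool.SqDrum

open MeasureTheory Set Filter Topology
open scoped ENNReal InnerProductSpace

theorem hsi_norm_le (A : Set P2) (f : L2) : ‖ind A f‖ ≤ ‖f‖ := by
  have h : ‖ind A‖ ≤ 1 := mul_norm_le zero_le_one fun x => by
    by_cases hx : x ∈ A <;> simp [hx]
  calc ‖ind A f‖ ≤ ‖ind A‖ * ‖f‖ := (ind A).le_opNorm f
    _ ≤ 1 * ‖f‖ := mul_le_mul_of_nonneg_right h (norm_nonneg _)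
    _ = ‖f‖ := one_mul _

theorem hsi_union {A B : Set P2} (hA : MeasurableSet A) (hB : MeasurableSet B)
    (h : Disjoint A B) (f : L2) : ind (A ∪ B) f = ind A f + ind B f := by
  refine Lp.ext ?_
  filter_upwards [ind_coe (hA.union hB) f, ind_coe hA f, ind_coe hB f,
    Lp.coeFn_add (ind A f) (ind B f)] with x h1 h2 h3 h4
  rw [h1, h4, Pi.add_apply, h2, h3, Set.indicator_union_of_disjoint h]

theorem hsi_orth {A B : Set P2} (hA : MeasurableSet A) (hB : MeasurableSet B)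
    (h : Disjoint A B) (f : L2) : ⟪ind A f, ind B f⟫_ℝ = 0 := by
  rw [inner_eq]
  rw [← integral_zero P2 ℝ (μ := volume)]
  refine integral_congr_ae ?_
  filter_upwards [ind_coe hA f, ind_coe hB f] with x h2 h3
  rw [h2, h3]
  by_cases hx : x ∈ A
  · have : x ∉ B := fun hb => Set.disjoint_left.1 h hx hb
    simp [this]
  · simp [hx]

theorem hsi_sq {A B : Set P2} (hA : MeasurableSet A) (hB : MeasurableSet B)
    (h : Disjoint A B) (f : L2) :
    ‖ind (A ∪ B) f‖ₑ ^ 2 = ‖ind A f‖ₑ ^ 2 + ‖ind B f‖ₑ ^ 2 := by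
  have e : ∀ g : L2, ‖g‖ₑ ^ 2 = ENNReal.ofReal (‖g‖ ^ 2) := fun g => by
    rw [ENNReal.ofReal_pow (norm_nonneg _), ofReal_norm]
  rw [e, e, e, ← ENNReal.ofReal_add (by positivity) (by positivity), hsi_union hA hB h,
    norm_add_sq_real, hsi_orth hA hB h]
  congr 1
  ring

/-- **HSI** -/
theorem hsi : HsiStatement := by
  refine ⟨fun K A B hA hB h => ?_, fun K A _ => ?_, fun A B hA hB h => ?_⟩
  · unfold hs
    rw [← ENNReal.tsum_add]
    exact tsum_congr fun i => hsi_sq hA hB h _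
  · unfold hs
    refine ENNReal.tsum_le_tsum fun i => ?_
    have h1 : ‖((ind A).comp K) (stdB.2 i)‖ₑ ≤ ‖K (stdB.2 i)‖ₑ := by
      rw [← ofReal_norm, ← ofReal_norm]
      exact ENNReal.ofReal_le_ofReal (hsi_norm_le A _)
    gcongr
  · ext1 f
    refine Lp.ext ?_
    filter_upwards [ind_coe hA f, ind_coe hB f, h] with x h1 h2 h3
    rw [h1, h2]
    have h4 : x ∈ A ↔ x ∈ B := iff_of_eq h3
    by_cases hx : x ∈ A
    · rw [Set.indicator_of_mem hx, Set.indicator_of_mem (h4.1 hx)]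
    · rw [Set.indicator_of_notMem hx, Set.indicator_of_notMem fun hb => hx (h4.2 hb)]

end Pool.SqDrum
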