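import Pool.Agent.Lib.MP_2805c2_an.SQ.Iface
import Pool.Agent.Lib.MP_2805c2_an.SQ.Hsi
import Pool.Agent.Lib.MP_2805c2_an.SQ.Dia

set_option autoImplicit false

/-!
# Module HSD (helper72): domination of Hilbert–Schmidt norms
-/

namespace Pool.SqDrum

open MeasureTheory Set Filter Topology
open scoped ENNReal InnerProductSpace

/-! ### finite projections -/

/-- the projection onto the span of a finite family -/
noncomputable def hsdP {ι : Type} [Fintype ι] (e : ι → L2) : L2 →L[ℝ] L2 :=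
  ∑ i, (innerSL ℝ (e i)).smulRight (e i)

theorem hsdP_apply {ι : Type} [Fintype ι] (e : ι → L2) (h : L2) :
    hsdP e h = ∑ i, ⟪e i, h⟫_ℝ • e i := by
  simp [hsdP]

/-- orthogonal families of unit vectors and zero vectors -/
structure HsdOrth {ι : Type} (e : ι → L2) : Prop where
  orth : ∀ i j, i ≠ j → ⟪e i, e j⟫_ℝ = 0
  norm : ∀ i, e i = 0 ∨ ‖e i‖ = 1

theorem HsdOrth.inner_P {ι : Type} [Fintype ι] {e : ι → L2} (he : HsdOrth e) (i : ι) (h : L2) :
    ⟪e i, hsdP e h⟫_ℝ = ⟪e i, h⟫_ℝ := by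
  rw [hsdP_apply, inner_sum, Finset.sum_eq_single i]
  · rw [inner_smul_right, real_inner_self_eq_norm_sq]
    rcases he.norm i with h0 | h0
    · simp [h0]
    · rw [h0]; ring
  · intro j _ hj
    rw [inner_smul_right, he.orth i j hj.symm, mul_zero]
  · intro hi
    exact absurd (Finset.mem_univ i) hi

theorem hsdP_inner {ι : Type} [Fintype ι] (e : ι → L2) (g h : L2) :
    ⟪g, hsdP e h⟫_ℝ = ∑ i, ⟪e i, h⟫_ℝ * ⟪e i, g⟫_ℝ := by
  rw [hsdP_apply, inner_sum]
  refine Finset.sum_congr rfl fun i _ => ?_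
  rw [inner_smul_right, real_inner_comm g (e i)]

theorem hsdP_adjoint {ι : Type} [Fintype ι] (e : ι → L2) : (hsdP e).adjoint = hsdP e := by
  ext1 f
  refine ext_inner_right ℝ fun g => ?_
  rw [ContinuousLinearMap.adjoint_inner_left, hsdP_inner, real_inner_comm, hsdP_inner]
  exact Finset.sum_congr rfl fun i _ => mul_comm _ _

theorem HsdOrth.norm_sq {ι : Type} [Fintype ι] {e : ι → L2} (he : HsdOrth e) (h : L2) :
    ‖hsdP e h‖ ^ 2 = ∑ i, ⟪e i, h⟫_ℝ ^ 2 := by
  rw [← real_inner_self_eq_norm_sq, hsdP_inner]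
  refine Finset.sum_congr rfl fun i _ => ?_
  rw [he.inner_P, sq]

theorem HsdOrth.norm_le {ι : Type} [Fintype ι] {e : ι → L2} (he : HsdOrth e) (h : L2) :
    ‖hsdP e h‖ ≤ ‖h‖ := by
  have h1 : ‖hsdP e h‖ ^ 2 = ⟪h, hsdP e h⟫_ℝ := by
    rw [he.norm_sq, hsdP_inner]
    exact Finset.sum_congr rfl fun i _ => sq _
  have h2 := real_inner_le_norm h (hsdP e h)
  rcases (norm_nonneg (hsdP e h)).eq_or_lt with h0 | h0
  · rw [← h0]; exact norm_nonneg _
  · nlinarith

/-- the comparison for finite projections -/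
theorem hsd_fin (hb : HsbStatement) {ι : Type} [Fintype ι] {e : ι → L2} (he : HsdOrth e)
    (K K' : L2 →L[ℝ] L2)
    (hK : ∀ i j, 0 ≤ ⟪e i, K (e j)⟫_ℝ ∧ ⟪e i, K (e j)⟫_ℝ ≤ ⟪e i, K' (e j)⟫_ℝ) :
    hs (((hsdP e).comp K).comp (hsdP e)) ≤ hs K' := by
  have hG : ∀ f, HasSum (fun i => ((1 : ℝ) * ⟪e i, f⟫_ℝ) • e i) (hsdP e f) := by
    intro f
    rw [hsdP_apply]
    simp only [one_mul]
    exact hasSum_fintype _
  have h1 := dia hb ι e (fun _ => 1) (hsdP e) ((hsdP e).comp K) he.orth he.norm hG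
  have h2 := dia hb ι e (fun _ => 1) (hsdP e) K' he.orth he.norm hG
  have h3 : hs (((hsdP e).comp K).comp (hsdP e)) ≤ hs (K'.comp (hsdP e)) := by
    rw [h1, h2]
    refine ENNReal.tsum_le_tsum fun j => ?_
    have h4 : ‖((hsdP e).comp K) (e j)‖ ≤ ‖K' (e j)‖ := by
      refine le_trans ?_ (he.norm_le (K' (e j)))
      refine abs_le_of_sq_le_sq' ?_ (norm_nonneg _) |>.2
      rw [ContinuousLinearMap.comp_apply, he.norm_sq, he.norm_sq]
      refine Finset.sum_le_sum fun i _ => ?_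
      have := hK i j
      exact pow_le_pow_left₀ this.1 this.2 2
    have h5 : ‖((hsdP e).comp K) (e j)‖ₑ ≤ ‖K' (e j)‖ₑ := by
      rw [← ofReal_norm, ← ofReal_norm]
      exact ENNReal.ofReal_le_ofReal h4
    gcongr
  refine h3.trans ?_
  rw [(hb (K'.comp (hsdP e)) _ stdB.2).2, (hb K' _ stdB.2).2]
  refine ENNReal.tsum_le_tsum fun j => ?_
  have h6 : ‖(K'.comp (hsdP e)).adjoint (stdB.2 j)‖ₑ ≤ ‖K'.adjoint (stdB.2 j)‖ₑ := by
    rw [ContinuousLinearMap.adjoint_comp, hsdP_adjoint, ContinuousLinearMap.comp_apply,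
      ← ofReal_norm, ← ofReal_norm]
    exact ENNReal.ofReal_le_ofReal (he.norm_le _)
  gcongr

/-! ### approximation -/

theorem hsd_cl_zero : cl 0 = 0 := by
  have h : MemLp (0 : P2 → ℝ) 2 (volume : Measure P2) := MemLp.zero
  rw [cl_eq h]
  exact MemLp.toLp_zero h

theorem hsd_cl_sum {α : Type} (t : Finset α) (f : α → P2 → ℝ)
    (h : ∀ a ∈ t, MemLp (f a) 2 (volume : Measure P2)) :
    cl (∑ a ∈ t, f a) = ∑ a ∈ t, cl (f a) ∧ MemLp (∑ a ∈ t, f a) 2 (volume : Measure P2) := by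
  classical
  induction t using Finset.induction_on with
  | empty =>
    rw [Finset.sum_empty, Finset.sum_empty]
    exact ⟨hsd_cl_zero, MemLp.zero⟩
  | insert a t ha ih =>
    obtain ⟨h1, h2⟩ := ih fun b hb => h b (Finset.mem_insert_of_mem hb)
    have h3 := h a (Finset.mem_insert_self a t)
    rw [Finset.sum_insert ha, Finset.sum_insert ha, cl_add h3 h2, h1]
    exact ⟨rfl, h3.add h2⟩

/-- indicator functions of sets of finite measure -/
theorem hsd_ind {E : Set P2} (hE : MeasurableSet E) (hf : volume E < ⊤) :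
    MemLp (E.indicator (1 : P2 → ℝ)) 2 (volume : Measure P2) :=
  memLp_indicator_const 2 hE (1 : ℝ) (Or.inr hf.ne)

theorem hsd_joint {n : ℕ} (s : Fin n → SimpleFunc P2 ℝ) :
    ∃ σ : SimpleFunc P2 (Fin n → ℝ), ∀ x i, σ x i = s i x := by
  refine ⟨⟨fun x i => s i x, fun r => ?_, ?_⟩, fun x i => rfl⟩
  · have : (fun x i => s i x) ⁻¹' {r} = ⋂ i, s i ⁻¹' {r i} := by
      ext x
      simp only [Set.mem_preimage, Set.mem_singleton_iff, Set.mem_iInter]
      exact funext_iff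
    rw [this]
    exact MeasurableSet.iInter fun i => (s i).measurableSet_fiber (r i)
  · refine (Set.Finite.pi fun i => (s i).finite_range).subset ?_
    rintro _ ⟨x, rfl⟩ i _
    exact ⟨x, rfl⟩

theorem hsd_smul_nonneg {c : ℝ} (hc : 0 ≤ c) {g : L2} (hg : 0 ≤ g) : 0 ≤ c • g := by
  rw [← Lp.coeFn_nonneg] at hg ⊢
  filter_upwards [Lp.coeFn_smul c g, hg] with x h1 h2
  rw [h1, Pi.smul_apply, smul_eq_mul]
  exact mul_nonneg hc h2

theorem hsd_approx {n : ℕ} (f : Fin n → L2) {η : ℝ} (hη : 0 < η) :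
    ∃ (ι : Type) (_ : Fintype ι) (e : ι → L2), HsdOrth e ∧ (∀ i, 0 ≤ e i) ∧
      ∀ i, ‖hsdP e (f i) - f i‖ ≤ η := by
  classical
  have hη2 : ENNReal.ofReal (η / 2) ≠ 0 := by
    rw [Ne, ENNReal.ofReal_eq_zero]
    linarith
  have hs : ∀ i, ∃ s : SimpleFunc P2 ℝ,
      eLpNorm ((f i : P2 → ℝ) - (s : P2 → ℝ)) 2 volume < ENNReal.ofReal (η / 2) ∧
      MemLp (s : P2 → ℝ) 2 (volume : Measure P2) := fun i =>
    (Lp.memLp (f i)).exists_simpleFunc_eLpNorm_sub_lt (by norm_num) hη2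
  choose s hs1 hs2 using hs
  obtain ⟨σ, hσ⟩ := hsd_joint s
  have hfin : ∀ r : Fin n → ℝ, r ≠ 0 → volume (σ ⁻¹' {r}) < ⊤ := by
    intro r hr
    obtain ⟨i, hi⟩ := Function.ne_iff.1 hr
    have hi' : r i ≠ 0 := hi
    refine lt_of_le_of_lt (measure_mono ?_)
      (SimpleFunc.measure_preimage_lt_top_of_memLp (by norm_num) (by norm_num) (s i) (hs2 i)
        (r i) hi')
    intro x hx
    have h1 : σ x = r := hx
    change s i x = r i
    rw [← hσ, h1]
  have hmeas : ∀ r, MeasurableSet (σ ⁻¹' {r}) := fun r => σ.measurableSet_fiber r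
  obtain ⟨u, hu⟩ : ∃ u : (Fin n → ℝ) → L2, u = fun r =>
      if r = 0 then 0 else cl ((σ ⁻¹' {r}).indicator (1 : P2 → ℝ)) := ⟨_, rfl⟩
  have hu0 : u 0 = 0 := by rw [hu]; exact if_pos rfl
  have hu1 : ∀ r, r ≠ 0 → u r = cl ((σ ⁻¹' {r}).indicator (1 : P2 → ℝ)) := fun r hr => by
    rw [hu]; exact if_neg hr
  have hupos : ∀ r, 0 ≤ u r := by
    intro r
    by_cases hr : r = 0
    · rw [hr, hu0]
    · rw [hu1 r hr, ← Lp.coeFn_nonneg]
      filter_upwards [cl_coe (hsd_ind (hmeas r) (hfin r hr))] with x hx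
      rw [hx]
      exact Set.indicator_nonneg (fun _ _ => zero_le_one) x
  have huorth : ∀ r r', r ≠ r' → ⟪u r, u r'⟫_ℝ = 0 := by
    intro r r' hrr
    by_cases hr : r = 0
    · rw [hr, hu0, inner_zero_left]
    by_cases hr' : r' = 0
    · rw [hr', hu0, inner_zero_right]
    rw [hu1 r hr, hu1 r' hr', inner_eq, ← integral_zero P2 ℝ (μ := volume)]
    refine integral_congr_ae ?_
    filter_upwards [cl_coe (hsd_ind (hmeas r) (hfin r hr)),
      cl_coe (hsd_ind (hmeas r') (hfin r' hr'))] with x h1 h2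
    rw [h1, h2]
    by_cases hx : x ∈ σ ⁻¹' {r}
    · have : x ∉ σ ⁻¹' {r'} := fun hc => hrr (by
        have e1 : σ x = r := hx
        have e2 : σ x = r' := hc
        rw [← e1, e2])
      simp [this]
    · simp [hx]
  let e : σ.range → L2 := fun r => (‖u r‖⁻¹ : ℝ) • u r
  have he : HsdOrth e := by
    refine ⟨fun i j hij => ?_, fun i => ?_⟩
    · change ⟪(‖u i‖⁻¹ : ℝ) • u i, (‖u j‖⁻¹ : ℝ) • u j⟫_ℝ = 0
      rw [inner_smul_left, inner_smul_right, huorth i j fun h => hij (Subtype.ext h)]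
      simp
    · by_cases h0 : u i = 0
      · left
        change (‖u i‖⁻¹ : ℝ) • u i = 0
        rw [h0, smul_zero]
      · right
        change ‖(‖u i‖⁻¹ : ℝ) • u i‖ = 1
        rw [norm_smul, norm_inv, norm_norm, inv_mul_cancel₀ (norm_ne_zero_iff.2 h0)]
  have hPu : ∀ r : σ.range, hsdP e (u r) = u r := by
    intro r
    rw [hsdP_apply, Finset.sum_eq_single r]
    · change ⟪(‖u r‖⁻¹ : ℝ) • u r, u r⟫_ℝ • ((‖u r‖⁻¹ : ℝ) • u r) = u r
      by_cases h0 : u r = 0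
      · rw [h0]; simp
      · rw [inner_smul_left, real_inner_self_eq_norm_sq, smul_smul]
        have : ‖u r‖ ≠ 0 := norm_ne_zero_iff.2 h0
        have h1 : (starRingEnd ℝ) ‖u r‖⁻¹ * ‖u r‖ ^ 2 * ‖u r‖⁻¹ = 1 := by
          rw [RCLike.conj_to_real]
          field_simp
        rw [h1, one_smul]
    · intro j _ hj
      change ⟪(‖u j‖⁻¹ : ℝ) • u j, u r⟫_ℝ • _ = 0
      rw [inner_smul_left, huorth j r fun h => hj (Subtype.ext h), mul_zero, zero_smul]
    · intro hr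
      exact absurd (Finset.mem_univ r) hr
  have hsum : ∀ i, cl (s i) = ∑ r ∈ σ.range, (r i) • u r := by
    intro i
    have e1 : (s i : P2 → ℝ) = ∑ r ∈ σ.range, (r i) • (if r = 0 then 0 else
        (σ ⁻¹' {r}).indicator (1 : P2 → ℝ)) := by
      funext x
      rw [Finset.sum_apply, Finset.sum_eq_single (σ x)]
      · rw [Pi.smul_apply, ← hσ x i, smul_eq_mul]
        by_cases h0 : σ x = 0
        · rw [h0]; simp
        · rw [if_neg h0, Set.indicator_of_mem (by simp)]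
          simp
      · intro r _ hr
        rw [Pi.smul_apply]
        by_cases h0 : r = 0
        · rw [h0]; simp
        · rw [if_neg h0, Set.indicator_of_notMem (by
            intro hc
            exact hr (by
              have : σ x = r := hc
              exact this.symm))]
          simp
      · intro hx
        exact absurd (SimpleFunc.mem_range_self σ x) hx
    have hm : ∀ r ∈ σ.range, MemLp (if r = 0 then 0 else
        (σ ⁻¹' {r}).indicator (1 : P2 → ℝ)) 2 (volume : Measure P2) := by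
      intro r _
      by_cases h0 : r = 0
      · rw [if_pos h0]; exact MemLp.zero
      · rw [if_neg h0]; exact hsd_ind (hmeas r) (hfin r h0)
    rw [e1, (hsd_cl_sum σ.range _ fun r hr => (hm r hr).const_smul (r i)).1]
    refine Finset.sum_congr rfl fun r hr => ?_
    rw [cl_smul _ (hm r hr)]
    congr 1
    by_cases h0 : r = 0
    · rw [if_pos h0, h0, hu0, hsd_cl_zero]
    · rw [if_neg h0, hu1 r h0]
  have hPs : ∀ i, hsdP e (cl (s i)) = cl (s i) := by
    intro i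
    rw [hsum i, map_sum]
    refine Finset.sum_congr rfl fun r hr => ?_
    rw [map_smul, hPu ⟨r, hr⟩]
  refine ⟨σ.range, inferInstance, e, he, fun i => ?_, fun i => ?_⟩
  · exact hsd_smul_nonneg (by positivity) (hupos i)
  · have h1 : ‖f i - cl (s i)‖ ≤ η / 2 := by
      rw [cl_eq (hs2 i), Lp.norm_def]
      have h2 : eLpNorm ((f i - (hs2 i).toLp (s i) : L2) : P2 → ℝ) 2 volume =
          eLpNorm ((f i : P2 → ℝ) - (s i : P2 → ℝ)) 2 volume := by
        refine eLpNorm_congr_ae ?_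
        filter_upwards [Lp.coeFn_sub (f i) ((hs2 i).toLp (s i)), (hs2 i).coeFn_toLp] with x h3 h4
        rw [h3, Pi.sub_apply, h4, Pi.sub_apply]
      rw [h2]
      exact ENNReal.toReal_le_of_le_ofReal (by linarith) (hs1 i).le
    have h5 : hsdP e (f i) - f i = hsdP e (f i - cl (s i)) - (f i - cl (s i)) := by
      rw [map_sub, hPs i]
      abel
    rw [h5]
    refine (norm_sub_le _ _).trans ?_
    have := he.norm_le (f i - cl (s i))
    linarith

/-! ### the theorem -/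

theorem hsd_main (hb : HsbStatement) (K K' : L2 →L[ℝ] L2)
    (hK : ∀ f g : L2, 0 ≤ f → 0 ≤ g → 0 ≤ ⟪g, K f⟫_ℝ ∧ ⟪g, K f⟫_ℝ ≤ ⟪g, K' f⟫_ℝ) :
    hs K ≤ hs K' := by
  classical
  unfold hs
  rw [ENNReal.tsum_eq_iSup_sum]
  refine iSup_le fun S => ?_
  -- approximations
  have hap : ∀ n : ℕ, ∃ (ι : Type) (_ : Fintype ι) (e : ι → L2), HsdOrth e ∧ (∀ i, 0 ≤ e i) ∧
      (∀ b ∈ S, ‖hsdP e (stdB.2 b) - stdB.2 b‖ ≤ 1 / ((n : ℝ) + 1)) ∧
      ∀ b ∈ S, ‖hsdP e (K (stdB.2 b)) - K (stdB.2 b)‖ ≤ 1 / ((n : ℝ) + 1) := by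
    intro n
    obtain ⟨F, hF⟩ : ∃ F : Finset L2, F = S.image (fun b => stdB.2 b) ∪
      S.image (fun b => K (stdB.2 b)) := ⟨_, rfl⟩
    obtain ⟨ι, hι, e, h1, h2, h3⟩ := hsd_approx (fun i => (F.equivFin.symm i : L2))
      (η := 1 / ((n : ℝ) + 1)) (by positivity)
    have h4 : ∀ f ∈ F, ‖hsdP e f - f‖ ≤ 1 / ((n : ℝ) + 1) := by
      intro f hf
      have := h3 (F.equivFin ⟨f, hf⟩)
      simpa using this
    refine ⟨ι, hι, e, h1, h2, fun b hb => h4 _ ?_, fun b hb => h4 _ ?_⟩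
    · rw [hF]
      exact Finset.mem_union_left _ (Finset.mem_image_of_mem _ hb)
    · rw [hF]
      exact Finset.mem_union_right _ (Finset.mem_image_of_mem (fun b => K (stdB.2 b)) hb)
  choose ι hι e he hepos h1 h2 using hap
  have hlim : ∀ b ∈ S, Tendsto (fun n => hsdP (e n) (K (hsdP (e n) (stdB.2 b)))) atTop
      (𝓝 (K (stdB.2 b))) := by
    intro b hbS
    rw [tendsto_iff_norm_sub_tendsto_zero]
    have hz : Tendsto (fun n : ℕ => (‖K‖ + 1) * (1 / ((n : ℝ) + 1))) atTop (𝓝 0) := by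
      have := (tendsto_one_div_add_atTop_nhds_zero_nat (𝕜 := ℝ)).const_mul (‖K‖ + 1)
      rwa [mul_zero] at this
    refine squeeze_zero (fun n => norm_nonneg _) (fun n => ?_) hz
    have h3 : hsdP (e n) (K (hsdP (e n) (stdB.2 b))) - K (stdB.2 b) =
        hsdP (e n) (K (hsdP (e n) (stdB.2 b) - stdB.2 b)) +
          (hsdP (e n) (K (stdB.2 b)) - K (stdB.2 b)) := by
      rw [map_sub, map_sub]
      abel
    rw [h3]
    refine (norm_add_le _ _).trans ?_
    have h4 := (he n).norm_le (K (hsdP (e n) (stdB.2 b) - stdB.2 b))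
    have h5 := K.le_opNorm (hsdP (e n) (stdB.2 b) - stdB.2 b)
    have h6 := mul_le_mul_of_nonneg_left (h1 n b hbS) (norm_nonneg K)
    have h7 := h2 n b hbS
    linarith
  have hlim2 : Tendsto (fun n => ∑ b ∈ S, ‖hsdP (e n) (K (hsdP (e n) (stdB.2 b)))‖ₑ ^ 2) atTop
      (𝓝 (∑ b ∈ S, ‖K (stdB.2 b)‖ₑ ^ 2)) := by
    refine tendsto_finsetSum _ fun b hbS => ?_
    exact ((ENNReal.continuous_pow 2).tendsto _).comp ((hlim b hbS).enorm)
  refine le_of_tendsto' hlim2 fun n => ?_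
  refine le_trans ?_ (hsd_fin hb (he n) K K' fun i j => hK _ _ (hepos n j) (hepos n i))
  exact ENNReal.sum_le_tsum (f := fun b => ‖(((hsdP (e n)).comp K).comp (hsdP (e n)))
    (stdB.2 b)‖ₑ ^ 2) S

theorem hsd_ind_nonneg {A : Set P2} (hA : MeasurableSet A) {g : L2} (hg : 0 ≤ g) :
    0 ≤ ind A g := by
  rw [← Lp.coeFn_nonneg] at hg ⊢
  filter_upwards [ind_coe hA g, hg] with x h1 h2
  rw [h1]
  by_cases hx : x ∈ A
  · rw [Set.indicator_of_mem hx]; exact h2
  · rw [Set.indicator_of_notMem hx]; exact le_rfl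

/-- **HSD** -/
theorem hsd (hb : HsbStatement) : HsdStatement := by
  intro K K' hK A hA
  refine hsd_main hb _ _ fun f g hf hg => ?_
  have h1 := hK f (ind A g) hf (hsd_ind_nonneg hA hg)
  have e : ∀ h : L2, ⟪g, ind A h⟫_ℝ = ⟪ind A g, h⟫_ℝ := fun h => (mul_symm _ g h).symm
  rw [ContinuousLinearMap.comp_apply, ContinuousLinearMap.comp_apply, e, e]
  exact h1

end Pool.SqDrum
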