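import Mathlib
import Pool.Agent.Lib.MP_2805c2_an.SQ.Iface

set_option autoImplicit false

/-! # The linear map of the Lyapunov–Schmidt reduction (used in IFT and KER) -/

namespace Pool.SqDrum

open MeasureTheory Set Filter Topology Asymptotics
open scoped ENNReal ContDiff InnerProductSpace

noncomputable section

namespace LsAux

variable {E : Type} [NormedAddCommGroup E] [InnerProductSpace ℝ E] [CompleteSpace E] {k : ℕ}

/-- the span of the eigenvectors -/
def NN (v : Fin k → E) : Submodule ℝ E := Submodule.span ℝ (Set.range v)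

instance (v : Fin k → E) : FiniteDimensional ℝ (NN v) :=
  FiniteDimensional.span_of_finite ℝ (Set.finite_range v)

instance (v : Fin k → E) : CompleteSpace (NN v)ᗮ :=
  (Submodule.isClosed_orthogonal (NN v)).completeSpace_coe

theorem mem_NN (v : Fin k → E) (i : Fin k) : v i ∈ NN v :=
  Submodule.subset_span ⟨i, rfl⟩

theorem mem_perp_iff (v : Fin k → E) (x : E) : x ∈ (NN v)ᗮ ↔ ∀ i, ⟪v i, x⟫_ℝ = 0 := by
  rw [Submodule.mem_orthogonal]
  constructor
  · intro h i
    exact h (v i) (mem_NN v i)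
  · intro h u hu
    refine Submodule.span_induction (p := fun u _ => ⟪u, x⟫_ℝ = 0) ?_ ?_ ?_ ?_ hu
    · rintro _ ⟨i, rfl⟩
      exact h i
    · exact inner_zero_left _
    · intro a b _ _ ha hb
      rw [inner_add_left, ha, hb, add_zero]
    · intro c a _ ha
      rw [inner_smul_left, ha, mul_zero]

/-- `(x, m) ↦ T x + ∑ m i • w i` -/
def R (v : Fin k → E) (T : E →L[ℝ] E) (w : Fin k → E) :
    ((NN v)ᗮ × (Fin k → ℝ)) →L[ℝ] E :=
  (T.comp (NN v)ᗮ.subtypeL).coprod
    (∑ i, (ContinuousLinearMap.proj (R := ℝ) (φ := fun _ : Fin k => ℝ) i).smulRight (w i))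

theorem R_apply (v : Fin k → E) (T : E →L[ℝ] E) (w : Fin k → E) (x : (NN v)ᗮ)
    (m : Fin k → ℝ) : R v T w (x, m) = T x + ∑ i, m i • w i := by
  simp [R, ContinuousLinearMap.sum_apply]

theorem R_bij {A B : Z5 → E →L[ℝ] E} {l : ℝ} {v : Fin k → E} (h : LSHyp A B l v) :
    Function.Bijective (R v (A 0 - l • B 0) (fun i => B 0 (v i))) := by
  have hT : ∀ i, (A 0 - l • B 0) (v i) = 0 := by
    intro i
    rw [ContinuousLinearMap.sub_apply, ContinuousLinearMap.smul_apply, h.eig i, sub_self]
  have hTs : ∀ x y, ⟪(A 0 - l • B 0) x, y⟫_ℝ = ⟪x, (A 0 - l • B 0) y⟫_ℝ := by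
    intro x y
    simp only [ContinuousLinearMap.sub_apply, ContinuousLinearMap.smul_apply, inner_sub_left,
      inner_sub_right, inner_smul_left, inner_smul_right, h.symA, h.symB]
    simp
  have hvT : ∀ i x, ⟪v i, (A 0 - l • B 0) x⟫_ℝ = 0 := by
    intro i x
    rw [← hTs, hT, inner_zero_left]
  have hpair : ∀ (m : Fin k → ℝ) j, ⟪v j, ∑ i, m i • B 0 (v i)⟫_ℝ = m j := by
    intro m j
    rw [inner_sum, Finset.sum_eq_single j]
    · rw [inner_smul_right, h.orth, if_pos rfl, mul_one]
    · intro i _ hi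
      rw [inner_smul_right, h.orth, if_neg (Ne.symm hi), mul_zero]
    · intro hj
      exact absurd (Finset.mem_univ j) hj
  constructor
  · rw [injective_iff_map_eq_zero]
    rintro ⟨x, m⟩ hx
    rw [R_apply] at hx
    have hm : m = 0 := by
      funext j
      have h1 := congrArg (fun y => ⟪v j, y⟫_ℝ) hx
      simp only [inner_add_right, hvT, hpair, inner_zero_right, zero_add] at h1
      exact h1
    rw [hm] at hx
    simp only [Pi.zero_apply, zero_smul, Finset.sum_const_zero, add_zero] at hx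
    have h2 : A 0 (x : E) = l • B 0 (x : E) := by
      have := hx
      rw [ContinuousLinearMap.sub_apply, ContinuousLinearMap.smul_apply, sub_eq_zero] at this
      exact this
    have h3 : (x : E) ∈ NN v := h.ker _ h2
    have h4 : (x : E) = 0 := by
      have := (Submodule.mem_orthogonal _ _).1 x.2 _ h3
      exact inner_self_eq_zero.1 this
    refine Prod.ext (Subtype.ext h4) hm
  · intro y
    have h1 : ∀ i, ⟪v i, y - ∑ j, ⟪v j, y⟫_ℝ • B 0 (v j)⟫_ℝ = 0 := by
      intro i
      rw [inner_sub_right, hpair (fun j => ⟪v j, y⟫_ℝ) i, sub_self]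
    obtain ⟨x, hx⟩ := h.rng _ h1
    have h2 : x - (NN v).starProjection x ∈ (NN v)ᗮ := Submodule.sub_starProjection_mem_orthogonal x
    refine ⟨(⟨_, h2⟩, fun j => ⟪v j, y⟫_ℝ), ?_⟩
    rw [R_apply]
    have h3 : ∀ n ∈ NN v, (A 0 - l • B 0) n = 0 := by
      intro n hn
      refine Submodule.span_induction (p := fun u _ => (A 0 - l • B 0) u = 0) ?_ ?_ ?_ ?_ hn
      · rintro _ ⟨i, rfl⟩
        exact hT i
      · exact map_zero _
      · intro a b _ _ ha hb
        rw [map_add, ha, hb, add_zero]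
      · intro c a _ ha
        rw [map_smul, ha, smul_zero]
    have h4 : (A 0 - l • B 0) (x - (NN v).starProjection x) = (A 0 - l • B 0) x := by
      rw [map_sub, h3 _ (Submodule.starProjection_apply_mem _ x), sub_zero]
    show (A 0 - l • B 0) (x - (NN v).starProjection x) + _ = _
    rw [h4, ContinuousLinearMap.sub_apply, ContinuousLinearMap.smul_apply, hx, sub_add_cancel]

end LsAux

end

end Pool.SqDrum
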