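import Mathlib
import Pool.Agent.Lib.MP_2805c2_an.SQ.Iface
import Pool.Agent.Lib.MP_2805c2_an.SQ.Ls

set_option autoImplicit false

/-! # IFT: existence of the Lyapunov–Schmidt reduction -/

namespace Pool.SqDrum

open MeasureTheory Set Filter Topology Asymptotics
open scoped ENNReal ContDiff InnerProductSpace

noncomputable section

namespace LsAux

variable {E : Type} [NormedAddCommGroup E] [InnerProductSpace ℝ E] [CompleteSpace E] {k : ℕ}

/-- the unknowns -/
abbrev UU (v : Fin k → E) : Type := (Fin k → (NN v)ᗮ) × (Fin k → Fin k → ℝ)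

/-- the component `ξ_j` -/
def prj (v : Fin k → E) (j : Fin k) : UU v →L[ℝ] E :=
  (NN v)ᗮ.subtypeL.comp ((ContinuousLinearMap.proj (R := ℝ) (φ := fun _ : Fin k => (NN v)ᗮ) j).comp
    (ContinuousLinearMap.fst ℝ _ _))

theorem prj_apply (v : Fin k → E) (j : Fin k) (y : UU v) : prj v j y = (y.1 j : E) := rfl

/-- the component `μ_ij` -/
def muj (v : Fin k → E) (i j : Fin k) : UU v →L[ℝ] ℝ :=
  (ContinuousLinearMap.proj (R := ℝ) (φ := fun _ : Fin k => ℝ) j).comp
    ((ContinuousLinearMap.proj (R := ℝ) (φ := fun _ : Fin k => Fin k → ℝ) i).comp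
      (ContinuousLinearMap.snd ℝ _ _))

theorem muj_apply (v : Fin k → E) (i j : Fin k) (y : UU v) : muj v i j y = y.2 i j := rfl

/-- the equations -/
def ff (A B : Z5 → E →L[ℝ] E) (v : Fin k → E) (p : Z5 × UU v) : Fin k → E := fun j =>
  A p.1 (v j + prj v j p.2) - ∑ i, muj v i j p.2 • B p.1 (v i + prj v i p.2)

/-- the base point -/
def u0 (l : ℝ) (v : Fin k → E) : UU v := (0, fun i j => if i = j then l else 0)

/-- the derivative in the unknowns -/
def LL0 (A B : Z5 → E →L[ℝ] E) (l : ℝ) (v : Fin k → E) : UU v →L[ℝ] (Fin k → E) :=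
  ContinuousLinearMap.pi fun j =>
    (A 0 - l • B 0).comp (prj v j) - ∑ i, (muj v i j).smulRight (B 0 (v i))

theorem LL0_apply (A B : Z5 → E →L[ℝ] E) (l : ℝ) (v : Fin k → E) (y : UU v) (j : Fin k) :
    LL0 A B l v y j = R v (A 0 - l • B 0) (fun i => B 0 (v i)) (y.1 j, fun i => -(y.2 i j)) := by
  rw [R_apply]
  show (A 0 - l • B 0) (prj v j y) - (∑ i, (muj v i j).smulRight (B 0 (v i))) y = _
  rw [_root_.sum_apply]
  simp only [ContinuousLinearMap.smulRight_apply, prj_apply, muj_apply, neg_smul,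
    Finset.sum_neg_distrib]
  rw [sub_eq_add_neg]

theorem LL0_bij {A B : Z5 → E →L[ℝ] E} {l : ℝ} {v : Fin k → E} (h : LSHyp A B l v) :
    Function.Bijective (LL0 A B l v) := by
  have hR := R_bij h
  constructor
  · rw [injective_iff_map_eq_zero]
    intro y hy
    have h1 : ∀ j, ((y.1 j, fun i => -(y.2 i j)) : (NN v)ᗮ × (Fin k → ℝ)) = 0 := by
      intro j
      have h2 := congrFun hy j
      rw [LL0_apply] at h2
      exact hR.1 (by rw [h2]; exact (map_zero _).symm)
    refine Prod.ext (funext fun j => ?_) (funext fun i => funext fun j => ?_)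
    · exact congrArg Prod.fst (h1 j)
    · have := congrFun (congrArg Prod.snd (h1 j)) i
      simpa using this
  · intro y
    choose p hp using fun j => hR.2 (y j)
    refine ⟨(fun j => (p j).1, fun i j => -((p j).2 i)), ?_⟩
    funext j
    rw [LL0_apply, ← hp j]
    congr 1
    refine Prod.ext rfl ?_
    funext i
    simp

theorem ff_contDiffAt {A B : Z5 → E →L[ℝ] E} {v : Fin k → E} (hA : AnalyticAt ℝ A 0)
    (hB : AnalyticAt ℝ B 0) (u : UU v) : ContDiffAt ℝ ω (ff A B v) (0, u) := by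
  rw [contDiffAt_pi]
  intro j
  have hA' : ContDiffAt ℝ ω (fun p : Z5 × UU v => A p.1) (0, u) :=
    (hA.contDiffAt (n := ω)).comp (0, u) contDiffAt_fst
  have hB' : ContDiffAt ℝ ω (fun p : Z5 × UU v => B p.1) (0, u) :=
    (hB.contDiffAt (n := ω)).comp (0, u) contDiffAt_fst
  have hp : ∀ i, ContDiffAt ℝ ω (fun p : Z5 × UU v => v i + prj v i p.2) (0, u) := fun i =>
    contDiffAt_const.add ((prj v i).contDiff.contDiffAt.comp (0, u) contDiffAt_snd)
  have hm : ∀ i, ContDiffAt ℝ ω (fun p : Z5 × UU v => muj v i j p.2) (0, u) := fun i =>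
    (muj v i j).contDiff.contDiffAt.comp (0, u) contDiffAt_snd
  exact (hA'.clm_apply (hp j)).sub
    (ContDiffAt.sum fun i _ => (hm i).smul (hB'.clm_apply (hp i)))

theorem ff_hasFDerivAt (A B : Z5 → E →L[ℝ] E) (l : ℝ) (v : Fin k → E) :
    HasFDerivAt (fun y : UU v => ff A B v (0, y)) (LL0 A B l v) (u0 l v) := by
  rw [hasFDerivAt_pi']
  intro j
  have hp : ∀ i, HasFDerivAt (fun y : UU v => v i + prj v i y) (prj v i) (u0 l v) := fun i =>
    (prj v i).hasFDerivAt.const_add _
  have h1 : HasFDerivAt (fun y : UU v => A 0 (v j + prj v j y)) ((A 0).comp (prj v j))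
      (u0 l v) := (A 0).hasFDerivAt.comp _ (hp j)
  have h2 : ∀ i, HasFDerivAt (fun y : UU v => muj v i j y • B 0 (v i + prj v i y))
      (muj v i j (u0 l v) • ((B 0).comp (prj v i)) +
        (muj v i j).smulRight (B 0 (v i + prj v i (u0 l v)))) (u0 l v) := fun i =>
    (muj v i j).hasFDerivAt.smul ((B 0).hasFDerivAt.comp _ (hp i))
  have h3 := h1.sub (HasFDerivAt.fun_sum (u := Finset.univ) fun i _ => h2 i)
  refine h3.congr_fderiv ?_
  refine ContinuousLinearMap.ext fun y => ?_
  have e1 : ∀ i, muj v i j (u0 l v) = if i = j then l else 0 := fun i => rfl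
  have e2 : ∀ i, prj v i (u0 l v) = 0 := fun i => rfl
  have e3 : (∑ i, (muj v i j (u0 l v) • ((B 0).comp (prj v i)) +
      (muj v i j).smulRight (B 0 (v i + prj v i (u0 l v))))) y =
      l • B 0 (prj v j y) + ∑ i, muj v i j y • B 0 (v i) := by
    rw [_root_.sum_apply]
    have e4 : ∀ i, (muj v i j (u0 l v) • ((B 0).comp (prj v i)) +
        (muj v i j).smulRight (B 0 (v i + prj v i (u0 l v)))) y =
        (if i = j then l • B 0 (prj v j y) else 0) + muj v i j y • B 0 (v i) := by
      intro i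
      rw [e1, e2, add_zero]
      by_cases hi : i = j
      · subst hi
        simp
      · simp [hi]
    rw [Finset.sum_congr rfl fun i _ => e4 i, Finset.sum_add_distrib, Finset.sum_ite_eq']
    simp
  show ((A 0).comp (prj v j)) y - (∑ i, (muj v i j (u0 l v) • ((B 0).comp (prj v i)) +
      (muj v i j).smulRight (B 0 (v i + prj v i (u0 l v))))) y = LL0 A B l v y j
  rw [e3]
  show _ = (A 0 - l • B 0) (prj v j y) - (∑ i, (muj v i j).smulRight (B 0 (v i))) y
  rw [_root_.sum_apply]
  simp only [ContinuousLinearMap.smulRight_apply, _root_.sub_apply, _root_.smul_apply,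
    ContinuousLinearMap.comp_apply]
  abel

end LsAux

open LsAux in
theorem ift : IftStatement := by
  intro E _ _ _ k A B l v hyp
  have hcd : ContDiffAt ℝ ω (ff A B v) (0, u0 l v) := ff_contDiffAt hyp.anA hyp.anB _
  have hd : HasFDerivAt (fun y : UU v => ff A B v (0, y))
      ((fderiv ℝ (ff A B v) (0, u0 l v)).comp (ContinuousLinearMap.inr ℝ Z5 (UU v))) (u0 l v) := by
    have h1 : HasFDerivAt (ff A B v) (fderiv ℝ (ff A B v) (0, u0 l v)) (0, u0 l v) :=
      (hcd.differentiableAt (by simp)).hasFDerivAt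
    exact h1.comp (u0 l v) (hasFDerivAt_prodMk_right (0 : Z5) (u0 l v))
  have he : (fderiv ℝ (ff A B v) (0, u0 l v)).comp (ContinuousLinearMap.inr ℝ Z5 (UU v)) =
      LL0 A B l v := hd.unique (ff_hasFDerivAt A B l v)
  have hinv : ((fderiv ℝ (ff A B v) (0, u0 l v)).comp
      (ContinuousLinearMap.inr ℝ Z5 (UU v))).IsInvertible := by
    rw [he]
    have hb := LL0_bij hyp
    refine ⟨ContinuousLinearEquiv.ofBijective (LL0 A B l v) (LinearMap.ker_eq_bot.2 hb.1)
      (LinearMap.range_eq_top.2 hb.2), ?_⟩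
    refine ContinuousLinearMap.ext fun y => ?_
    rfl
  have hω : (ω : ℕ∞ω) ≠ 0 := by simp
  set ψ := hcd.implicitFunction hω hinv with hψ
  have hψ0 : ψ 0 = u0 l v := hcd.implicitFunction_apply_self hω hinv
  have hψa : AnalyticAt ℝ ψ 0 := (hcd.contDiffAt_implicitFunction hω hinv).analyticAt
  have hψe : ∀ᶠ z in 𝓝 (0 : Z5), ff A B v (z, ψ z) = ff A B v (0, u0 l v) :=
    hcd.eventually_apply_implicitFunction hω hinv
  have hf0 : ff A B v (0, u0 l v) = 0 := by
    funext j
    have e1 : ∀ i, muj v i j (u0 l v) = if i = j then l else 0 := fun i => rfl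
    have e2 : ∀ i, prj v i (u0 l v) = 0 := fun i => rfl
    show A 0 (v j + prj v j (u0 l v)) - ∑ i, muj v i j (u0 l v) • B 0 (v i + prj v i (u0 l v)) = 0
    simp only [e1, e2, add_zero, ite_smul, zero_smul, Finset.sum_ite_eq', Finset.mem_univ, if_true]
    simp [hyp.eig j]
  refine ⟨fun z j => prj v j (ψ z), fun z i j => muj v i j (ψ z), ?_, ?_, ?_, ?_, ?_, ?_⟩
  · exact AnalyticAt.pi fun j => ((prj v j).analyticAt _).comp hψa
  · exact AnalyticAt.pi fun i => AnalyticAt.pi fun j => ((muj v i j).analyticAt _).comp hψa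
  · funext j
    simp only [hψ0]
    rfl
  · intro i j
    simp only [hψ0]
    rfl
  · refine Eventually.of_forall fun z i j => ?_
    exact (mem_perp_iff v _).1 ((ψ z).1 j).2 i
  · filter_upwards [hψe] with z hz j
    have h1 := congrFun (hz.trans hf0) j
    exact sub_eq_zero.1 h1

end

end Pool.SqDrum
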