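import Pool.Agent.Lib.MP_2805c2_an.SQ.Iface

set_option autoImplicit false

/-!
INE: invariants from the clusters with `m ≡ n` mod 2.
-/

namespace Pool.SqDrum

open Filter Topology Asymptotics
open scoped InnerProductSpace

theorem ine (hclx : ClxStatement) (hkev : KevStatement) (hssm : SsmStatement) :
    IneStatement := by
  intro m n hm hmn hpar hu
  have hn : 0 < n := hm.trans hmn
  obtain ⟨f, fan, f0, fiso, fline, fcurve⟩ := hclx m n hm hmn hu
  obtain ⟨k1, k2, -⟩ := hkev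
  obtain ⟨b₀, hb₀⟩ := k2 m n hm hn hmn.ne hpar
  refine ⟨f, b₀ - SS 1 0 (m, n) (n, m) / Real.pi ^ 2, fan, f0, fiso, fline, fun s => ?_,
    fun s => ?_⟩
  · refine (fcurve 1 0 s 0).congr_left fun t => ?_
    rw [k1 m n 1 0 s 0 hm hn, k1 n m 1 0 s 0 hn hm, hb₀ 1 0 s 0]
    simp only [be, BN, al]
    ring
  · refine (fcurve 1 1 0 s).congr_left fun t => ?_
    have e1 : SS 1 1 (n, m) (n, m) = SS 1 1 (m, n) (m, n) := (hssm.1 (m, n) hm hn).symm
    have e2 : SS 1 1 (m, n) (n, m) = 2 * SS 1 0 (m, n) (n, m) := hssm.2 (m, n) hm hn hpar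
    rw [k1 m n 1 1 0 s hm hn, k1 n m 1 1 0 s hn hm, hb₀ 1 1 0 s, e1, e2]
    ring

end Pool.SqDrum
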