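import Pool.Agent.Lib.MP_2805c2_an.SQ.Iface

set_option autoImplicit false

/-!
INO: invariants from the clusters with `m ≢ n` mod 2.
-/

namespace Pool.SqDrum

open Filter Topology Asymptotics
open scoped InnerProductSpace

theorem ino (hclx : ClxStatement) (hkev : KevStatement) (hssm : SsmStatement) :
    InoStatement := by
  intro m n hm hmn hpar hu
  have hn : 0 < n := hm.trans hmn
  obtain ⟨f, fan, f0, fiso, fline, fcurve⟩ := hclx m n hm hmn hu
  obtain ⟨k1, -, k3⟩ := hkev
  refine ⟨f, fan, f0, fiso, fline, fun s => ?_⟩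
  refine (fcurve 1 1 0 s).congr_left fun t => ?_
  have e1 : SS 1 1 (n, m) (n, m) = SS 1 1 (m, n) (m, n) := (hssm.1 (m, n) hm hn).symm
  rw [k1 m n 1 1 0 s hm hn, k1 n m 1 1 0 s hn hm, k3 m n 1 1 0 s hm hn hpar, e1]
  simp only [ka2]
  ring

end Pool.SqDrum
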