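import Pool.Agent.Lib.MP_2805c2_an.SQ.Iface

set_option autoImplicit false

/-!
# ISO: invariance of the Hilbert–Schmidt norm of the resolvent under isometries
-/

namespace Pool.SqDrum

open MeasureTheory Set Filter Topology
open scoped ENNReal ContDiff InnerProductSpace

noncomputable section

/-- the linear part of a similarity -/
def iso_lin (a b e : ℝ) : P2 →L[ℝ] P2 :=
  ((a • ContinuousLinearMap.fst ℝ ℝ ℝ) - ((e * b) • ContinuousLinearMap.snd ℝ ℝ ℝ)).prod
    ((b • ContinuousLinearMap.fst ℝ ℝ ℝ) + ((e * a) • ContinuousLinearMap.snd ℝ ℝ ℝ))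

theorem iso_lin_apply (a b e : ℝ) (x : P2) :
    iso_lin a b e x = (a * x.1 - e * b * x.2, b * x.1 + e * a * x.2) := rfl

/-- an isometry of the plane -/
def iso_r (a b p q e : ℝ) (x : P2) : P2 := (a * x.1 - e * b * x.2 + p, b * x.1 + e * a * x.2 + q)

/-- its inverse -/
def iso_s (a b p q e : ℝ) (x : P2) : P2 :=
  (a * (x.1 - p) + b * (x.2 - q), -e * b * (x.1 - p) + e * a * (x.2 - q))

section

variable {a b p q e : ℝ} (he : e = 1 ∨ e = -1) (hab : a ^ 2 + b ^ 2 = 1)

include he in
theorem iso_ee : e ^ 2 = 1 := by rcases he with rfl | rfl <;> norm_num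

include he hab in
theorem iso_sr (x : P2) : iso_s a b p q e (iso_r a b p q e x) = x := by
  have h1 := iso_ee he
  refine Prod.ext ?_ ?_
  · simp only [iso_s, iso_r]
    linear_combination x.1 * hab
  · simp only [iso_s, iso_r]
    linear_combination x.2 * e ^ 2 * hab + x.2 * h1

include he hab in
theorem iso_rs (x : P2) : iso_r a b p q e (iso_s a b p q e x) = x := by
  have h1 := iso_ee he
  refine Prod.ext ?_ ?_
  · simp only [iso_s, iso_r]
    linear_combination (x.1 - p) * hab + (b ^ 2 * (x.1 - p) - a * b * (x.2 - q)) * h1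
  · simp only [iso_s, iso_r]
    linear_combination (x.2 - q) * hab + (a ^ 2 * (x.2 - q) - a * b * (x.1 - p)) * h1

theorem iso_r_cont (a b p q e : ℝ) : Continuous (iso_r a b p q e) := by
  unfold iso_r; fun_prop

theorem iso_s_cont (a b p q e : ℝ) : Continuous (iso_s a b p q e) := by
  unfold iso_s; fun_prop

/-- as a homeomorphism -/
def iso_h (he : e = 1 ∨ e = -1) (hab : a ^ 2 + b ^ 2 = 1) : P2 ≃ₜ P2 where
  toFun := iso_r a b p q e
  invFun := iso_s a b p q e
  left_inv := iso_sr he hab
  right_inv := iso_rs he hab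
  continuous_toFun := iso_r_cont a b p q e
  continuous_invFun := iso_s_cont a b p q e

theorem iso_det (a b e : ℝ) :
    LinearMap.det (iso_lin a b e : P2 →ₗ[ℝ] P2) = e * (a ^ 2 + b ^ 2) := by
  have h : (iso_lin a b e : P2 →ₗ[ℝ] P2) =
      Matrix.toLin (Module.Basis.finTwoProd ℝ) (Module.Basis.finTwoProd ℝ)
        !![a, -(e * b); b, e * a] := by
    refine LinearMap.ext fun x => ?_
    rw [Matrix.toLin_finTwoProd_apply]
    change iso_lin a b e x = _
    rw [iso_lin_apply]
    refine Prod.ext ?_ ?_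
    · simp only; ring
    · simp only
  rw [h, LinearMap.det_toLin, Matrix.det_fin_two_of]
  ring

include he hab in
theorem iso_mp : MeasurePreserving (iso_r a b p q e) (volume : Measure P2) volume := by
  have h1 : MeasurePreserving (iso_lin a b e) (volume : Measure P2) volume := by
    refine ⟨(iso_lin a b e).continuous.measurable, ?_⟩
    have hd : LinearMap.det (iso_lin a b e : P2 →ₗ[ℝ] P2) ≠ 0 := by
      rw [iso_det, hab]; rcases he with rfl | rfl <;> norm_num
    have := Measure.map_linearMap_addHaar_eq_smul_addHaar (volume : Measure P2) hd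
    rw [iso_det, hab] at this
    have e2 : ENNReal.ofReal |(e * 1)⁻¹| = 1 := by rcases he with rfl | rfl <;> norm_num
    rw [e2, one_smul] at this
    exact this
  have h2 : MeasurePreserving (fun x : P2 => x + (p, q)) (volume : Measure P2) volume :=
    measurePreserving_add_right _ _
  have h3 := h2.comp h1
  have e3 : (fun x : P2 => x + (p, q)) ∘ iso_lin a b e = iso_r a b p q e := by
    funext x
    rfl
  rwa [e3] at h3

include he hab in
theorem iso_mps : MeasurePreserving (iso_s a b p q e) (volume : Measure P2) volume := by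
  have h := (iso_mp (p := p) (q := q) he hab).symm
    (e := (iso_h (p := p) (q := q) he hab).toMeasurableEquiv)
  exact h

/-- composition with an isometry -/
def iso_U (p q : ℝ) (he : e = 1 ∨ e = -1) (hab : a ^ 2 + b ^ 2 = 1) : L2 ≃ₗᵢ[ℝ] L2 where
  toFun := Lp.compMeasurePreserving (iso_r a b p q e) (iso_mp he hab)
  invFun := Lp.compMeasurePreserving (iso_s a b p q e) (iso_mps he hab)
  map_add' := map_add _
  map_smul' := (Lp.compMeasurePreservingₗᵢ ℝ (iso_r a b p q e) (iso_mp he hab)).map_smul
  left_inv f := by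
    refine Lp.ext ?_
    have h1 := Lp.coeFn_compMeasurePreserving
      (Lp.compMeasurePreserving (iso_r a b p q e) (iso_mp he hab) f)
      (iso_mps (p := p) (q := q) he hab)
    have h2 := Lp.coeFn_compMeasurePreserving f (iso_mp (p := p) (q := q) he hab)
    have h3 := (iso_mps (p := p) (q := q) he hab).quasiMeasurePreserving.ae h2
    filter_upwards [h1, h3] with x e1 e3
    rw [e1, Function.comp_apply, e3, Function.comp_apply, iso_rs he hab]
  right_inv f := by
    refine Lp.ext ?_
    have h1 := Lp.coeFn_compMeasurePreserving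
      (Lp.compMeasurePreserving (iso_s a b p q e) (iso_mps he hab) f)
      (iso_mp (p := p) (q := q) he hab)
    have h2 := Lp.coeFn_compMeasurePreserving f (iso_mps (p := p) (q := q) he hab)
    have h3 := (iso_mp (p := p) (q := q) he hab).quasiMeasurePreserving.ae h2
    filter_upwards [h1, h3] with x e1 e3
    rw [e1, Function.comp_apply, e3, Function.comp_apply, iso_sr he hab]
  norm_map' := (Lp.compMeasurePreservingₗᵢ ℝ (iso_r a b p q e) (iso_mp he hab)).norm_map

theorem iso_U_coe (f : L2) :
    iso_U p q he hab f =ᵐ[volume] f ∘ iso_r a b p q e :=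
  Lp.coeFn_compMeasurePreserving f (iso_mp he hab)

theorem iso_U_cl {φ : P2 → ℝ} (h : MemLp φ 2 (volume : Measure P2)) :
    iso_U p q he hab (cl φ) = cl (φ ∘ iso_r a b p q e) := by
  have h' : MemLp (φ ∘ iso_r a b p q e) 2 (volume : Measure P2) :=
    h.comp_measurePreserving (iso_mp he hab)
  refine Lp.ext ?_
  have e1 := cl_coe h'
  have e2 := iso_U_coe (p := p) (q := q) he hab (cl φ)
  have e3 := (iso_mp (p := p) (q := q) he hab).quasiMeasurePreserving.ae (cl_coe h)
  filter_upwards [e1, e2, e3] with x h1 h2 h3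
  rw [h1, h2, Function.comp_apply, Function.comp_apply, h3]

/-- the action on triples -/
def iso_W (p q : ℝ) (he : e = 1 ∨ e = -1) (hab : a ^ 2 + b ^ 2 = 1) : LL →ₗ[ℝ] LL where
  toFun F := WithLp.toLp 2 ![iso_U p q he hab (F 0),
    a • iso_U p q he hab (F 1) + b • iso_U p q he hab (F 2),
    (-e * b) • iso_U p q he hab (F 1) + (e * a) • iso_U p q he hab (F 2)]
  map_add' F G := by
    ext i : 1
    fin_cases i
    · exact (iso_U p q he hab).map_add (F 0) (G 0)
    · change a • iso_U p q he hab (F 1 + G 1) + b • iso_U p q he hab (F 2 + G 2) =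
        (a • iso_U p q he hab (F 1) + b • iso_U p q he hab (F 2)) +
        (a • iso_U p q he hab (G 1) + b • iso_U p q he hab (G 2))
      rw [map_add, map_add]; module
    · change (-e * b) • iso_U p q he hab (F 1 + G 1) + (e * a) • iso_U p q he hab (F 2 + G 2) =
        ((-e * b) • iso_U p q he hab (F 1) + (e * a) • iso_U p q he hab (F 2)) +
        ((-e * b) • iso_U p q he hab (G 1) + (e * a) • iso_U p q he hab (G 2))
      rw [map_add, map_add]; module
  map_smul' c F := by
    ext i : 1
    fin_cases i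
    · exact (iso_U p q he hab).map_smul c (F 0)
    · change a • iso_U p q he hab (c • F 1) + b • iso_U p q he hab (c • F 2) =
        c • (a • iso_U p q he hab (F 1) + b • iso_U p q he hab (F 2))
      rw [map_smul, map_smul]; module
    · change (-e * b) • iso_U p q he hab (c • F 1) + (e * a) • iso_U p q he hab (c • F 2) =
        c • ((-e * b) • iso_U p q he hab (F 1) + (e * a) • iso_U p q he hab (F 2))
      rw [map_smul, map_smul]; module

theorem iso_W0 (F : LL) : iso_W p q he hab F 0 = iso_U p q he hab (F 0) := rfl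
theorem iso_W1 (F : LL) : iso_W p q he hab F 1 =
    a • iso_U p q he hab (F 1) + b • iso_U p q he hab (F 2) := rfl
theorem iso_W2 (F : LL) : iso_W p q he hab F 2 =
    (-e * b) • iso_U p q he hab (F 1) + (e * a) • iso_U p q he hab (F 2) := rfl

theorem iso_W_inner (F G : LL) : ⟪iso_W p q he hab F, iso_W p q he hab G⟫_ℝ = ⟪F, G⟫_ℝ := by
  have h1 := iso_ee he
  rw [LL_inner, LL_inner, iso_W0, iso_W0, iso_W1, iso_W1, iso_W2, iso_W2]
  simp only [inner_add_left, inner_add_right, inner_smul_left, inner_smul_right,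
    RCLike.conj_to_real, LinearIsometryEquiv.inner_map_map]
  linear_combination (⟪F 1, G 1⟫_ℝ + ⟪F 2, G 2⟫_ℝ) * hab +
    (b ^ 2 * ⟪F 1, G 1⟫_ℝ - a * b * ⟪F 1, G 2⟫_ℝ - a * b * ⟪F 2, G 1⟫_ℝ +
      a ^ 2 * ⟪F 2, G 2⟫_ℝ) * h1

/-- the action on triples, as an isometry -/
def iso_WI (p q : ℝ) (he : e = 1 ∨ e = -1) (hab : a ^ 2 + b ^ 2 = 1) : LL →ₗᵢ[ℝ] LL :=
  (iso_W p q he hab).isometryOfInner (iso_W_inner he hab)

theorem iso_WI_apply (F : LL) : iso_WI p q he hab F = iso_W p q he hab F := rfl

/-- surjectivity -/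
theorem iso_W_surj (G : LL) : ∃ F, iso_W p q he hab F = G := by
  have h1 := iso_ee he
  refine ⟨WithLp.toLp 2 ![(iso_U p q he hab).symm (G 0),
    a • (iso_U p q he hab).symm (G 1) - (e * b) • (iso_U p q he hab).symm (G 2),
    b • (iso_U p q he hab).symm (G 1) + (e * a) • (iso_U p q he hab).symm (G 2)], ?_⟩
  ext i : 1
  fin_cases i
  · exact (iso_U p q he hab).apply_symm_apply (G 0)
  · change a • iso_U p q he hab (a • (iso_U p q he hab).symm (G 1) -
        (e * b) • (iso_U p q he hab).symm (G 2)) +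
      b • iso_U p q he hab (b • (iso_U p q he hab).symm (G 1) +
        (e * a) • (iso_U p q he hab).symm (G 2)) = G 1
    simp only [map_sub, map_add, map_smul, LinearIsometryEquiv.apply_symm_apply]
    match_scalars
    · linear_combination hab
    · ring
  · change (-e * b) • iso_U p q he hab (a • (iso_U p q he hab).symm (G 1) -
        (e * b) • (iso_U p q he hab).symm (G 2)) +
      (e * a) • iso_U p q he hab (b • (iso_U p q he hab).symm (G 1) +
        (e * a) • (iso_U p q he hab).symm (G 2)) = G 2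
    simp only [map_sub, map_add, map_smul, LinearIsometryEquiv.apply_symm_apply]
    match_scalars
    · ring
    · linear_combination e ^ 2 * hab + h1

theorem iso_fderiv {φ : P2 → ℝ} (h : Differentiable ℝ φ) (x v : P2) :
    fderiv ℝ (φ ∘ iso_r a b p q e) x v = fderiv ℝ φ (iso_r a b p q e x) (iso_lin a b e v) := by
  have h1 : HasFDerivAt (iso_r a b p q e) (iso_lin a b e) x := by
    have h2 : HasFDerivAt (fun x => iso_lin a b e x + (p, q)) (iso_lin a b e) x :=
      (iso_lin a b e).hasFDerivAt.add_const _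
    exact h2
  have h3 := (h (iso_r a b p q e x)).hasFDerivAt.comp x h1
  rw [h3.fderiv]
  rfl

theorem iso_jet {Ω : Set P2} {φ : P2 → ℝ} (h : Test Ω φ) :
    jet (φ ∘ iso_r a b p q e) = iso_W p q he hab (jet φ) := by
  have hd : Differentiable ℝ φ := h.smooth.differentiable (by simp)
  have hl : ∀ (L : P2 →L[ℝ] ℝ) (u v : ℝ), L (u, v) = u * L (1, 0) + v * L (0, 1) := by
    intro L u v
    have : ((u, v) : P2) = u • (1, 0) + v • (0, 1) := by simp
    rw [this, map_add, map_smul, map_smul, smul_eq_mul, smul_eq_mul]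
  have e1 : pd1 (φ ∘ iso_r a b p q e) =
      a • (pd1 φ ∘ iso_r a b p q e) + b • (pd2 φ ∘ iso_r a b p q e) := by
    funext x
    rw [pd1, iso_fderiv hd, iso_lin_apply, hl]
    simp [pd1, pd2]
  have e2 : pd2 (φ ∘ iso_r a b p q e) =
      (-e * b) • (pd1 φ ∘ iso_r a b p q e) + (e * a) • (pd2 φ ∘ iso_r a b p q e) := by
    funext x
    rw [pd2, iso_fderiv hd, iso_lin_apply, hl]
    simp [pd1, pd2]
  have m1 : MemLp (pd1 φ ∘ iso_r a b p q e) 2 (volume : Measure P2) :=
    h.pd1_memLp.comp_measurePreserving (iso_mp he hab)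
  have m2 : MemLp (pd2 φ ∘ iso_r a b p q e) 2 (volume : Measure P2) :=
    h.pd2_memLp.comp_measurePreserving (iso_mp he hab)
  ext i : 1
  fin_cases i
  · exact (iso_U_cl he hab h.memLp).symm
  · change cl (pd1 (φ ∘ iso_r a b p q e)) =
      a • iso_U p q he hab (cl (pd1 φ)) + b • iso_U p q he hab (cl (pd2 φ))
    rw [e1, cl_add (m1.const_smul a) (m2.const_smul b), cl_smul a m1, cl_smul b m2,
      iso_U_cl he hab h.pd1_memLp, iso_U_cl he hab h.pd2_memLp]
  · change cl (pd2 (φ ∘ iso_r a b p q e)) =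
      (-e * b) • iso_U p q he hab (cl (pd1 φ)) + (e * a) • iso_U p q he hab (cl (pd2 φ))
    rw [e2, cl_add (m1.const_smul (-e * b)) (m2.const_smul (e * a)), cl_smul (-e * b) m1,
      cl_smul (e * a) m2, iso_U_cl he hab h.pd1_memLp, iso_U_cl he hab h.pd2_memLp]

include he hab in
theorem iso_test {Ω : Set P2} {φ : P2 → ℝ} :
    Test Ω (φ ∘ iso_r a b p q e) ↔ Test (iso_r a b p q e '' Ω) φ := by
  have hs' : ContDiff ℝ ∞ (iso_s a b p q e) := by unfold iso_s; fun_prop
  have hr' : ContDiff ℝ ∞ (iso_r a b p q e) := by unfold iso_r; fun_prop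
  have hts : tsupport (φ ∘ iso_r a b p q e) = iso_r a b p q e ⁻¹' tsupport φ :=
    tsupport_comp_eq_preimage φ (iso_h (p := p) (q := q) he hab)
  constructor
  · rintro ⟨h1, h2, h3⟩
    have e3 : (φ ∘ iso_r a b p q e) ∘ iso_s a b p q e = φ := by
      funext x; simp only [Function.comp_apply, iso_rs he hab]
    refine ⟨?_, ?_, ?_⟩
    · have := h1.comp hs'
      rwa [e3] at this
    · have := h2.comp_homeomorph (iso_h (p := p) (q := q) he hab).symm
      rwa [show (φ ∘ iso_r a b p q e) ∘ (iso_h (p := p) (q := q) he hab).symm = φ from e3] at this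
    · intro y hy
      refine ⟨iso_s a b p q e y, h3 ?_, iso_rs he hab y⟩
      rw [hts, mem_preimage, iso_rs he hab]
      exact hy
  · intro h
    refine ⟨h.smooth.comp hr', h.compact.comp_homeomorph (iso_h (p := p) (q := q) he hab), ?_⟩
    rw [hts]
    intro x hx
    obtain ⟨y, hy, hyx⟩ := h.sub hx
    have : y = x := by
      have := congrArg (iso_s a b p q e) hyx
      rwa [iso_sr he hab, iso_sr he hab] at this
    rwa [← this]

theorem iso_H_map {Ω : Set P2} {F : LL} (hF : F ∈ H (iso_r a b p q e '' Ω)) :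
    iso_W p q he hab F ∈ H Ω := by
  have hcl : IsClosed {F : LL | iso_W p q he hab F ∈ H Ω} :=
    (H_isClosed Ω).preimage (iso_WI p q he hab).continuous
  refine H_induction hcl (fun φ hφ => ?_) hF
  rw [← iso_jet he hab hφ]
  exact jet_mem ((iso_test he hab).2 hφ)

theorem iso_H_surj {Ω : Set P2} {G : LL} (hG : G ∈ H Ω) :
    ∃ F ∈ H (iso_r a b p q e '' Ω), iso_W p q he hab F = G := by
  have hcl : IsClosed ((iso_WI p q he hab) '' (H (iso_r a b p q e '' Ω) : Set LL)) :=
    (iso_WI p q he hab).isometry.isClosedEmbedding.isClosedMap _ (H_isClosed _)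
  have := H_induction (P := fun G => G ∈ (iso_WI p q he hab) '' (H (iso_r a b p q e '' Ω) : Set LL))
    hcl (fun φ hφ => ?_) hG
  · obtain ⟨F, hF, e⟩ := this
    exact ⟨F, hF, e⟩
  · have e1 : (φ ∘ iso_s a b p q e) ∘ iso_r a b p q e = φ := by
      funext x; simp only [Function.comp_apply, iso_sr he hab]
    have ht : Test (iso_r a b p q e '' Ω) (φ ∘ iso_s a b p q e) :=
      (iso_test he hab).1 (by rwa [e1])
    refine ⟨_, jet_mem ht, ?_⟩
    rw [iso_WI_apply, ← iso_jet he hab ht, e1]

/-- the resolvents are conjugate -/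
theorem iso_res (Ω : Set P2) (f : L2) :
    iso_U p q he hab (res (iso_r a b p q e '' Ω) f) = res Ω (iso_U p q he hab f) := by
  set R := (co (iso_r a b p q e '' Ω) 0).adjoint f with hR
  have h1 : (⟨iso_W p q he hab R, iso_H_map he hab R.2⟩ : H Ω) =
      (co Ω 0).adjoint (iso_U p q he hab f) := by
    refine ext_inner_right ℝ fun G => ?_
    obtain ⟨F, hF, e1⟩ := iso_H_surj (p := p) (q := q) he hab G.2
    rw [ContinuousLinearMap.adjoint_inner_left, co_apply, Submodule.coe_inner, ← e1,
      iso_W_inner, iso_W0, LinearIsometryEquiv.inner_map_map]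
    have h2 := ContinuousLinearMap.adjoint_inner_left (co (iso_r a b p q e '' Ω) 0) ⟨F, hF⟩ f
    rw [← hR, co_apply, Submodule.coe_inner] at h2
    exact h2
  change iso_U p q he hab (co (iso_r a b p q e '' Ω) 0 R) = co Ω 0 ((co Ω 0).adjoint _)
  rw [← h1]
  rfl

/-- restriction is conjugate to restriction -/
theorem iso_ind {A : Set P2} (hA : MeasurableSet A) (f : L2) :
    iso_U p q he hab (ind (iso_r a b p q e '' A) f) = ind A (iso_U p q he hab f) := by
  have hA' : MeasurableSet (iso_r a b p q e '' A) :=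
    (iso_h (p := p) (q := q) he hab).toMeasurableEquiv.measurableSet_image.2 hA
  refine Lp.ext ?_
  have e1 := iso_U_coe (p := p) (q := q) he hab (ind (iso_r a b p q e '' A) f)
  have e2 := (iso_mp (p := p) (q := q) he hab).quasiMeasurePreserving.ae (ind_coe hA' f)
  have e3 := ind_coe hA (iso_U p q he hab f)
  have e4 := iso_U_coe (p := p) (q := q) he hab f
  filter_upwards [e1, e2, e3, e4] with x h1 h2 h3 h4
  rw [h1, h3, Function.comp_apply, h2]
  by_cases hx : x ∈ A
  · rw [indicator_of_mem hx, indicator_of_mem (mem_image_of_mem _ hx), h4]; rfl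
  · rw [indicator_of_notMem hx, indicator_of_notMem]
    rintro ⟨y, hy, hyx⟩
    have : y = x := by
      have := congrArg (iso_s a b p q e) hyx
      rwa [iso_sr he hab, iso_sr he hab] at this
    exact hx (this ▸ hy)

end

/-- **ISO** -/
theorem iso (hHsb : HsbStatement) : IsoStatement := by
  classical
  rintro ρ Ω A ⟨a, b, p, q, e, he, hab, hρ⟩ _ hA
  rw [one_pow] at hab
  have hρ' : ρ = iso_r a b p q e := funext hρ
  subst hρ'
  set V := iso_U p q he hab with hV
  set b' : HilbertBasis stdB.1 ℝ L2 := HilbertBasis.ofRepr (V.symm.trans stdB.2.repr) with hb'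
  have hb : ∀ i, b' i = V (stdB.2 i) := by
    intro i
    rw [← b'.repr_symm_single i, ← stdB.2.repr_symm_single i]
    rfl
  rw [(hHsb ((ind A).comp (res Ω)) _ b').1, hs]
  refine tsum_congr fun i => ?_
  rw [hb, ContinuousLinearMap.comp_apply, ContinuousLinearMap.comp_apply, hV,
    ← iso_res he hab Ω, ← iso_ind he hab hA]
  congr 1
  exact ((iso_U p q he hab).enorm_map _).symm

end

end Pool.SqDrum
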