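import Mathlib
import Pool.Agent.Lib.MP_2805c2_an.SQ.Iface

set_option autoImplicit false

namespace Pool.SqDrum

open Filter Topology

/-- the words -/
abbrev Wd (n : ℕ) : Type := Σ k : ℕ, (Fin k → Fin n)

/-- the number of letters `j` of a word -/
def iva_e {n : ℕ} (w : Wd n) (j : Fin n) : ℕ := (Finset.univ.filter fun l => w.2 l = j).card

theorem iva_prod {n : ℕ} (w : Wd n) (z : Fin n → ℝ) :
    ∏ l, z (w.2 l) = ∏ j, z j ^ iva_e w j := by
  rw [← Finset.prod_fiberwise (s := Finset.univ) (g := w.2)]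
  refine Finset.prod_congr rfl fun j _ => ?_
  rw [iva_e, ← Finset.prod_const]
  refine Finset.prod_congr rfl fun l hl => ?_
  rw [(Finset.mem_filter.1 hl).2]

theorem iva_sum {n : ℕ} (w : Wd n) : ∑ j, iva_e w j = w.1 := by
  have h := Finset.card_eq_sum_card_fiberwise (s := (Finset.univ : Finset (Fin w.1)))
    (t := (Finset.univ : Finset (Fin n))) (f := w.2) (fun _ _ => Finset.mem_coe.2 (Finset.mem_univ _))
  rw [Finset.card_univ, Fintype.card_fin] at h
  exact h.symm

/-- summability of the regrouped series -/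
theorem iva_summable {n m : ℕ} (c : Wd n → ℝ) (r : ℝ) (hr : 0 < r)
    (hs : Summable fun w : Wd n => |c w| * r ^ w.1) (P : Wd n → Prop) [DecidablePred P]
    (α : Wd n → Fin m → ℕ) (hα : ∀ w, P w → w.1 ≤ 3 * ∑ j, α w j) :
    Summable fun w : Wd n => |if P w then c w else 0| * (min 1 r ^ 3) ^ (∑ j, α w j) := by
  have hm0 : 0 < min 1 r := lt_min one_pos hr
  refine Summable.of_nonneg_of_le (fun w => by positivity) (fun w => ?_) hs
  by_cases h : P w
  · rw [if_pos h]
    refine mul_le_mul_of_nonneg_left ?_ (abs_nonneg _)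
    rw [← pow_mul]
    calc min 1 r ^ (3 * ∑ j, α w j) ≤ min 1 r ^ w.1 :=
          pow_le_pow_of_le_one hm0.le (min_le_left _ _) (hα w h)
      _ ≤ r ^ w.1 := pow_le_pow_left₀ hm0.le (min_le_right _ _) _
  · rw [if_neg h]
    simp only [abs_zero, zero_mul]
    positivity

/-- the exponents of the six monomials -/
def iva_a (w : Wd 5) : Fin 6 → ℕ :=
  ![iva_e w 0, iva_e w 1, iva_e w 2 / 2, iva_e w 2 % 2, iva_e w 3 / 2, iva_e w 4 / 2]

/-- the invariant words -/
def iva_P (w : Wd 5) : Prop :=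
  (iva_e w 2 + iva_e w 4) % 2 = 0 ∧ (iva_e w 2 + iva_e w 3) % 2 = 0

instance : DecidablePred iva_P := fun w => by unfold iva_P; infer_instance

theorem iva_mon (w : Wd 5) (h : iva_P w) (z : Z5) :
    ∏ j, z j ^ iva_e w j =
      ∏ j, (![z 0, z 1, z 2 ^ 2, z 2 * z 3 * z 4, z 3 ^ 2, z 4 ^ 2] : Fin 6 → ℝ) j ^ iva_a w j := by
  obtain ⟨h1, h2⟩ := h
  have e2 := Nat.div_add_mod (iva_e w 2) 2
  have e3 := Nat.div_add_mod (iva_e w 3) 2
  have e4 := Nat.div_add_mod (iva_e w 4) 2
  have m3 : iva_e w 3 % 2 = iva_e w 2 % 2 := by omega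
  have m4 : iva_e w 4 % 2 = iva_e w 2 % 2 := by omega
  rw [m3] at e3
  rw [m4] at e4
  rw [Fin.prod_univ_five, Fin.prod_univ_six]
  simp only [iva_a, Matrix.cons_val]
  conv_lhs => rw [← e2, ← e3, ← e4]
  simp only [pow_add, pow_mul, mul_pow]
  ring

theorem iva_len (w : Wd 5) (h : iva_P w) : w.1 ≤ 3 * ∑ j, iva_a w j := by
  obtain ⟨h1, h2⟩ := h
  have hk := iva_sum w
  rw [Fin.sum_univ_five] at hk
  rw [Fin.sum_univ_six]
  simp only [iva_a, Matrix.cons_val]
  omega

theorem iva_neg_one (e : ℕ) : ((-1 : ℝ)) ^ e = if e % 2 = 0 then 1 else -1 := by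
  split_ifs with h
  · exact Even.neg_one_pow (Nat.even_iff.2 h)
  · exact Odd.neg_one_pow (Nat.odd_iff.2 (by omega))

theorem iva_avg (w : Wd 5) (z : Z5) :
    (1 / 4 : ℝ) * ((∏ j, z j ^ iva_e w j) + (∏ j, symX z j ^ iva_e w j) +
      (∏ j, symY z j ^ iva_e w j) + (∏ j, symX (symY z) j ^ iva_e w j)) =
      if iva_P w then ∏ j, z j ^ iva_e w j else 0 := by
  simp only [Fin.prod_univ_five, symX, symY, Matrix.cons_val, neg_neg]
  rw [neg_pow (z 2), neg_pow (z 3), neg_pow (z 4)]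
  simp only [iva_neg_one, iva_P]
  rcases Nat.mod_two_eq_zero_or_one (iva_e w 2) with h2 | h2 <;>
  rcases Nat.mod_two_eq_zero_or_one (iva_e w 3) with h3 | h3 <;>
  rcases Nat.mod_two_eq_zero_or_one (iva_e w 4) with h4 | h4 <;>
  simp [h2, h3, h4, Nat.add_mod] <;> ring

theorem iva_contX : Continuous symX := by
  unfold symX; fun_prop

theorem iva_contY : Continuous symY := by
  unfold symY; fun_prop

theorem iva_X0 : symX 0 = 0 := by
  funext i; fin_cases i <;> simp [symX]

theorem iva_Y0 : symY 0 = 0 := by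
  funext i; fin_cases i <;> simp [symY]

theorem iva_normX (z : Z5) : ‖symX z‖ ≤ ‖z‖ := by
  refine (pi_norm_le_iff_of_nonneg (norm_nonneg _)).2 fun i => ?_
  have h := norm_le_pi_norm z i
  fin_cases i <;> simpa [symX] using h

theorem iva_normY (z : Z5) : ‖symY z‖ ≤ ‖z‖ := by
  refine (pi_norm_le_iff_of_nonneg (norm_nonneg _)).2 fun i => ?_
  have h := norm_le_pi_norm z i
  fin_cases i <;> simpa [symY] using h

theorem iva (hW : WrdStatement) (hP : PsaStatement) : IvaStatement := by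
  intro f hf hX hY
  obtain ⟨c, r, hr, hs, hc⟩ := hW 5 f hf
  have hs' := iva_summable c r hr hs iva_P iva_a iva_len
  refine ⟨_, hP 6 (Wd 5) (fun w => if iva_P w then c w else 0) iva_a (min 1 r ^ 3)
    (by positivity) hs', ?_⟩
  have hXY : ∀ᶠ z in 𝓝 (0 : Z5), f (symX (symY z)) = f (symY z) := by
    have h1 : Tendsto symY (𝓝 0) (𝓝 0) := by
      have := iva_contY.tendsto 0
      rwa [iva_Y0] at this
    exact h1.eventually hX
  have hb : ∀ᶠ z in 𝓝 (0 : Z5), ‖z‖ ≤ r := by
    have : Tendsto (fun z : Z5 => ‖z‖) (𝓝 0) (𝓝 0) := by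
      simpa using (continuous_norm (E := Z5)).tendsto 0
    exact this.eventually (Iic_mem_nhds hr)
  filter_upwards [hX, hY, hXY, hb] with z h1 h2 h3 h4
  have k0 := hc z h4
  have k1 := hc (symX z) ((iva_normX z).trans h4)
  have k2 := hc (symY z) ((iva_normY z).trans h4)
  have k3 := hc (symX (symY z)) ((iva_normX _).trans ((iva_normY z).trans h4))
  have k := (((k0.add k1).add k2).add k3).mul_left (1 / 4 : ℝ)
  rw [h3, h2, h1] at k
  have e : (1 / 4 : ℝ) * (f z + f z + f z + f z) = f z := by ring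
  rw [e] at k
  rw [← k.tsum_eq]
  refine tsum_congr fun w => ?_
  have a := iva_avg w z
  simp only [iva_prod]
  by_cases h : iva_P w
  · rw [if_pos h] at a ⊢
    rw [← iva_mon w h z]
    linear_combination c w * a
  · rw [if_neg h] at a ⊢
    rw [zero_mul]
    linear_combination c w * a

end Pool.SqDrum
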