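import Mathlib
import Pool.Agent.Lib.MP_2805c2_an.SQ.Iface
import Pool.Agent.Lib.MP_2805c2_an.SQ.Iva

set_option autoImplicit false

namespace Pool.SqDrum

open Filter Topology

/-- the exponents of the seven basic invariants -/
def ivb_a (w : Wd 6) : Fin 7 → ℕ :=
  ![iva_e w 0, iva_e w 4, iva_e w 2, iva_e w 3, iva_e w 1 / 2, iva_e w 1 % 2, iva_e w 5 / 2]

/-- the invariant words -/
def ivb_P (w : Wd 6) : Prop := (iva_e w 1 + iva_e w 5) % 2 = 0

instance : DecidablePred ivb_P := fun w => by unfold ivb_P; infer_instance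

theorem ivb_len (w : Wd 6) (h : ivb_P w) : w.1 ≤ 3 * ∑ j, ivb_a w j := by
  have hk := iva_sum w
  unfold ivb_P at h
  rw [Fin.sum_univ_six] at hk
  rw [Fin.sum_univ_seven]
  simp only [ivb_a, Matrix.cons_val]
  rcases Nat.mod_two_eq_zero_or_one (iva_e w 1) with h1 | h1 <;> omega

/-- the six variables -/
noncomputable def ivb_x (z : Z5) : Fin 6 → ℝ :=
  ![z 0, z 1, z 2 ^ 2, z 2 * z 3 * z 4, z 3 ^ 2 + z 4 ^ 2, z 3 ^ 2 - z 4 ^ 2]

/-- the sign change -/
def ivb_s (x : Fin 6 → ℝ) : Fin 6 → ℝ := ![x 0, -x 1, x 2, x 3, x 4, -x 5]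

theorem ivb_x_symS (z : Z5) : ivb_x (symS z) = ivb_s (ivb_x z) := by
  funext i
  fin_cases i <;> simp [ivb_x, ivb_s, symS] <;> ring

theorem ivb_mon (w : Wd 6) (h : ivb_P w) (z : Z5) :
    ∏ j, ivb_x z j ^ iva_e w j = ∏ j, gen z j ^ ivb_a w j := by
  unfold ivb_P at h
  have e1 := Nat.div_add_mod (iva_e w 1) 2
  have e5 := Nat.div_add_mod (iva_e w 5) 2
  have m5 : iva_e w 5 % 2 = iva_e w 1 % 2 := by omega
  rw [m5] at e5
  rw [Fin.prod_univ_six, Fin.prod_univ_seven]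
  simp only [ivb_a, ivb_x, gen, Matrix.cons_val]
  conv_lhs => rw [← e1, ← e5]
  simp only [pow_add, pow_mul, mul_pow]
  ring

theorem ivb_avg (w : Wd 6) (x : Fin 6 → ℝ) :
    (1 / 2 : ℝ) * ((∏ j, x j ^ iva_e w j) + (∏ j, ivb_s x j ^ iva_e w j)) =
      if ivb_P w then ∏ j, x j ^ iva_e w j else 0 := by
  simp only [Fin.prod_univ_six, ivb_s, Matrix.cons_val]
  rw [neg_pow (x 1), neg_pow (x 5)]
  simp only [iva_neg_one, ivb_P]
  rcases Nat.mod_two_eq_zero_or_one (iva_e w 1) with h2 | h2 <;>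
  rcases Nat.mod_two_eq_zero_or_one (iva_e w 5) with h3 | h3 <;>
  simp [h2, h3, Nat.add_mod] <;> ring

theorem ivb_cont : Continuous ivb_x := by
  unfold ivb_x; fun_prop

theorem ivb_x0 : ivb_x 0 = 0 := by
  funext i; fin_cases i <;> simp [ivb_x]

theorem ivb_norm (x : Fin 6 → ℝ) : ‖ivb_s x‖ ≤ ‖x‖ := by
  refine (pi_norm_le_iff_of_nonneg (norm_nonneg _)).2 fun i => ?_
  have h := norm_le_pi_norm x i
  fin_cases i <;> simpa [ivb_s] using h

/-- the change of variables -/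
noncomputable def ivb_L (x : Fin 6 → ℝ) : Fin 6 → ℝ :=
  ![x 0, x 1, x 2, x 3, (x 4 + x 5) / 2, (x 4 - x 5) / 2]

theorem ivb_L_an : AnalyticAt ℝ ivb_L 0 := by
  unfold ivb_L
  rw [analyticAt_pi_iff]
  have h : ∀ i : Fin 6, AnalyticAt ℝ (fun x : Fin 6 → ℝ => x i) 0 := fun i =>
    (ContinuousLinearMap.proj (R := ℝ) (φ := fun _ : Fin 6 => ℝ) i).analyticAt 0
  intro i
  fin_cases i
  · exact h 0
  · exact h 1
  · exact h 2
  · exact h 3
  · exact ((h 4).add (h 5)).div_const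
  · exact ((h 4).sub (h 5)).div_const

theorem ivb_L0 : ivb_L 0 = 0 := by
  funext i; fin_cases i <;> simp [ivb_L]

theorem ivb_Lx (z : Z5) :
    ivb_L (ivb_x z) = ![z 0, z 1, z 2 ^ 2, z 2 * z 3 * z 4, z 3 ^ 2, z 4 ^ 2] := by
  funext i
  fin_cases i <;> simp [ivb_L, ivb_x]

theorem ivb (hI : IvaStatement) (hW : WrdStatement) (hP : PsaStatement) : IvbStatement := by
  intro f hf hX hY hS
  obtain ⟨G, hG, hfG⟩ := hI f hf hX hY
  have hG' : AnalyticAt ℝ (fun x => G (ivb_L x)) 0 := by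
    have : AnalyticAt ℝ G (ivb_L 0) := by rw [ivb_L0]; exact hG
    exact this.comp ivb_L_an
  obtain ⟨c, r, hr, hs, hc⟩ := hW 6 _ hG'
  have hs' := iva_summable c r hr hs ivb_P ivb_a ivb_len
  refine ⟨_, hP 7 (Wd 6) (fun w => if ivb_P w then c w else 0) ivb_a (min 1 r ^ 3)
    (by positivity) hs', ?_⟩
  have hSc : Continuous symS := by unfold symS; fun_prop
  have hS0 : symS 0 = 0 := by funext i; fin_cases i <;> simp [symS]
  have hSG : ∀ᶠ z in 𝓝 (0 : Z5),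
      f (symS z) = G ![symS z 0, symS z 1, symS z 2 ^ 2, symS z 2 * symS z 3 * symS z 4,
        symS z 3 ^ 2, symS z 4 ^ 2] := by
    have h1 : Tendsto symS (𝓝 0) (𝓝 0) := by
      have := hSc.tendsto 0
      rwa [hS0] at this
    exact h1.eventually hfG
  have hb : ∀ᶠ z in 𝓝 (0 : Z5), ‖ivb_x z‖ ≤ r := by
    have : Tendsto (fun z : Z5 => ‖ivb_x z‖) (𝓝 0) (𝓝 0) := by
      have := (ivb_cont.norm).tendsto 0
      rwa [ivb_x0, norm_zero] at this
    exact this.eventually (Iic_mem_nhds hr)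
  filter_upwards [hfG, hS, hSG, hb] with z h1 h2 h3 h4
  have k0 := hc (ivb_x z) h4
  have k1 := hc (ivb_s (ivb_x z)) ((ivb_norm _).trans h4)
  rw [← ivb_x_symS, ivb_Lx, ← h3, h2] at k1
  rw [ivb_Lx, ← h1] at k0
  rw [ivb_x_symS] at k1
  have k := (k0.add k1).mul_left (1 / 2 : ℝ)
  have e : (1 / 2 : ℝ) * (f z + f z) = f z := by ring
  rw [e] at k
  rw [← k.tsum_eq]
  refine tsum_congr fun w => ?_
  have a := ivb_avg w (ivb_x z)
  simp only [iva_prod]
  by_cases h : ivb_P w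
  · rw [if_pos h] at a ⊢
    rw [← ivb_mon w h z]
    linear_combination c w * a
  · rw [if_neg h] at a ⊢
    rw [zero_mul]
    linear_combination c w * a

end Pool.SqDrum
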