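import Mathlib
import Pool.Agent.Lib.MP_2805c2_an.SQ.Iface
import Pool.Agent.Lib.MP_2805c2_an.SQ.Ls

set_option autoImplicit false

/-! # KER: the Lyapunov–Schmidt reduction computes the kernels -/

namespace Pool.SqDrum

open MeasureTheory Set Filter Topology Asymptotics
open scoped ENNReal ContDiff InnerProductSpace

noncomputable section

namespace LsAux

variable {E : Type} [NormedAddCommGroup E] [InnerProductSpace ℝ E] [CompleteSpace E] {k : ℕ}

theorem R_continuousAt {α : Type*} [TopologicalSpace α] {a : α} (v : Fin k → E)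
    {T : α → E →L[ℝ] E} {w : α → Fin k → E} (hT : ContinuousAt T a)
    (hw : ∀ i, ContinuousAt (fun p => w p i) a) :
    ContinuousAt (fun p => R v (T p) (w p)) a := by
  have h1 : (fun p => R v (T p) (w p)) = fun p =>
      (T p).comp ((NN v)ᗮ.subtypeL.comp (ContinuousLinearMap.fst ℝ (NN v)ᗮ (Fin k → ℝ))) +
      ∑ i, ContinuousLinearMap.smulRightL ℝ ((NN v)ᗮ × (Fin k → ℝ)) E
        ((ContinuousLinearMap.proj (R := ℝ) (φ := fun _ : Fin k => ℝ) i).comp
          (ContinuousLinearMap.snd ℝ (NN v)ᗮ (Fin k → ℝ))) (w p i) := by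
    funext p
    refine ContinuousLinearMap.ext fun y => ?_
    obtain ⟨x, m⟩ := y
    rw [R_apply]
    rw [_root_.add_apply, _root_.sum_apply]
    rfl
  rw [h1]
  refine (hT.clm_comp continuousAt_const).add ?_
  refine tendsto_finsetSum _ fun i _ => ?_
  exact ((ContinuousLinearMap.continuous _).continuousAt).comp (hw i)

end LsAux

open LsAux in
theorem ker : KerStatement := by
  intro E _ _ _ k A B l v X Lm hyp sol
  -- the operators `R` near the base point
  have hXc : ContinuousAt X 0 := sol.anX.continuousAt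
  have hAc : ContinuousAt A 0 := hyp.anA.continuousAt
  have hBc : ContinuousAt B 0 := hyp.anB.continuousAt
  have hfst : ContinuousAt (fun p : Z5 × ℝ => p.1) (0, l) := continuousAt_fst
  have hA1 : ContinuousAt (fun p : Z5 × ℝ => A p.1) (0, l) :=
    ContinuousAt.comp (f := fun p : Z5 × ℝ => p.1) (g := A) (x := (0, l)) hAc hfst
  have hB1 : ContinuousAt (fun p : Z5 × ℝ => B p.1) (0, l) :=
    ContinuousAt.comp (f := fun p : Z5 × ℝ => p.1) (g := B) (x := (0, l)) hBc hfst
  have hX1 : ContinuousAt (fun p : Z5 × ℝ => X p.1) (0, l) :=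
    ContinuousAt.comp (f := fun p : Z5 × ℝ => p.1) (g := X) (x := (0, l)) hXc hfst
  have hT : ContinuousAt (fun p : Z5 × ℝ => A p.1 - p.2 • B p.1) (0, l) :=
    hA1.sub (continuousAt_snd.smul hB1)
  have hw : ∀ i, ContinuousAt (fun p : Z5 × ℝ => B p.1 (v i + X p.1 i)) (0, l) := fun i =>
    hB1.clm_apply (continuousAt_const.add ((continuous_apply i).continuousAt.comp hX1))
  have hR := R_continuousAt v hT (w := fun p i => B p.1 (v i + X p.1 i)) hw
  have hR0 : R v (A 0 - l • B 0) (fun i => B 0 (v i + X 0 i)) ∈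
      Set.range ((↑) : (((NN v)ᗮ × (Fin k → ℝ)) ≃L[ℝ] E) → (((NN v)ᗮ × (Fin k → ℝ)) →L[ℝ] E)) := by
    have hb := R_bij hyp
    have h0 : (fun i => B 0 (v i + X 0 i)) = fun i => B 0 (v i) := by
      funext i
      rw [sol.X0]
      simp
    rw [h0]
    refine ⟨ContinuousLinearEquiv.ofBijective _ (LinearMap.ker_eq_bot.2 hb.1)
      (LinearMap.range_eq_top.2 hb.2), ?_⟩
    refine ContinuousLinearMap.ext fun y => ?_
    rfl
  have hev : ∀ᶠ p : Z5 × ℝ in 𝓝 (0, l),
      Function.Injective (R v (A p.1 - p.2 • B p.1) (fun i => B p.1 (v i + X p.1 i))) := by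
    have h1 := hR.eventually (ContinuousLinearEquiv.isOpen.mem_nhds hR0)
    filter_upwards [h1] with p hp
    obtain ⟨e, he⟩ := hp
    rw [← he]
    exact e.injective
  rw [nhds_prod_eq] at hev
  obtain ⟨pa, hpa, pb, hpb, hpp⟩ := eventually_prod_iff.1 hev
  obtain ⟨ε, hε, hball⟩ := Metric.eventually_nhds_iff.1 hpb
  refine ⟨ε, hε, ?_⟩
  filter_upwards [hpa, sol.perp, sol.eq] with z hz hperp heq l' hl'
  have hinj : Function.Injective (R v (A z - l' • B z) (fun i => B z (v i + X z i))) :=
    hpp hz (hball (by rw [Real.dist_eq]; exact hl'))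
  -- the map `φ`
  let φ : (Fin k → ℝ) →ₗ[ℝ] E :=
    { toFun := fun m => ∑ j, m j • (v j + X z j)
      map_add' := fun m m' => by
        simp only [Pi.add_apply, add_smul, Finset.sum_add_distrib]
      map_smul' := fun c m => by
        simp only [Pi.smul_apply, smul_eq_mul, Finset.smul_sum, RingHom.id_apply, smul_smul] }
  have hφ : ∀ m, φ m = ∑ j, m j • (v j + X z j) := fun m => rfl
  have hXp : ∀ m : Fin k → ℝ, ∑ j, m j • X z j ∈ (NN v)ᗮ := fun m =>
    Submodule.sum_mem _ fun j _ => Submodule.smul_mem _ _ ((mem_perp_iff v _).2 fun i => hperp i j)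
  have hlin : ∀ m : Fin k → ℝ, (A z - l' • B z) (φ m) =
      ∑ i, ((Matrix.of (Lm z) - l' • (1 : Matrix (Fin k) (Fin k) ℝ)).mulVec m) i •
        B z (v i + X z i) := by
    intro m
    have h1 : ∀ i, ((Matrix.of (Lm z) - l' • (1 : Matrix (Fin k) (Fin k) ℝ)).mulVec m) i =
        ∑ j, m j * Lm z i j - l' * m i := by
      intro i
      rw [Matrix.sub_mulVec, Pi.sub_apply, Matrix.smul_mulVec, Matrix.one_mulVec, Pi.smul_apply,
        smul_eq_mul]
      congr 1
      rw [Matrix.mulVec, dotProduct]
      refine Finset.sum_congr rfl fun j _ => ?_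
      rw [Matrix.of_apply, mul_comm]
    simp only [h1]
    rw [hφ, map_sum]
    have h2 : ∀ j, (A z - l' • B z) (m j • (v j + X z j)) =
        ∑ i, (m j * Lm z i j) • B z (v i + X z i) - (l' * m j) • B z (v j + X z j) := by
      intro j
      rw [map_smul, _root_.sub_apply, _root_.smul_apply, heq j, smul_sub, Finset.smul_sum]
      congr 1
      · refine Finset.sum_congr rfl fun i _ => ?_
        rw [smul_smul]
      · rw [smul_smul, mul_comm]
    rw [Finset.sum_congr rfl fun j _ => h2 j, Finset.sum_sub_distrib, Finset.sum_comm]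
    simp only [sub_smul, Finset.sum_sub_distrib, Finset.sum_smul]
  have hφinj : Function.Injective φ := by
    rw [injective_iff_map_eq_zero]
    intro m hm
    have h1 : ∑ j, m j • v j = -∑ j, m j • X z j := by
      rw [hφ] at hm
      simp only [smul_add, Finset.sum_add_distrib] at hm
      exact eq_neg_of_add_eq_zero_left hm
    have h2 : ∑ j, m j • v j ∈ (NN v)ᗮ := by
      rw [h1]
      exact Submodule.neg_mem _ (hXp m)
    have h3 : ∑ j, m j • v j ∈ NN v :=
      Submodule.sum_mem _ fun j _ => Submodule.smul_mem _ _ (mem_NN v j)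
    have h4 : ∑ j, m j • v j = 0 := by
      have := (Submodule.mem_orthogonal _ _).1 h2 _ h3
      exact inner_self_eq_zero.1 this
    funext i
    have h5 : ⟪B 0 (v i), ∑ j, m j • v j⟫_ℝ = m i := by
      rw [inner_sum, Finset.sum_eq_single i]
      · rw [inner_smul_right, hyp.symB, hyp.orth, if_pos rfl, mul_one]
      · intro j _ hj
        rw [inner_smul_right, hyp.symB, hyp.orth, if_neg (Ne.symm hj), mul_zero]
      · intro hi
        exact absurd (Finset.mem_univ i) hi
    rw [h4, inner_zero_right] at h5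
    exact h5.symm
  have hker : LinearMap.ker ((A z - l' • B z : E →L[ℝ] E) : E →ₗ[ℝ] E) =
      (LinearMap.ker (Matrix.toLin' (Matrix.of (Lm z) - l' • 1))).map φ := by
    ext u
    rw [LinearMap.mem_ker, Submodule.mem_map]
    constructor
    · intro hu
      have hu' : (A z - l' • B z) u = 0 := hu
      have hn : (NN v).starProjection u ∈ NN v := Submodule.starProjection_apply_mem _ u
      obtain ⟨m, hm⟩ := (Submodule.mem_span_range_iff_exists_fun ℝ).1 hn
      have hx : u - (NN v).starProjection u ∈ (NN v)ᗮ :=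
        Submodule.sub_starProjection_mem_orthogonal u
      have hu1 : u - φ m ∈ (NN v)ᗮ := by
        have h1 : u - φ m = (u - (NN v).starProjection u) - ∑ j, m j • X z j := by
          rw [← hm, hφ]
          simp only [smul_add, Finset.sum_add_distrib]
          abel
        rw [h1]
        exact Submodule.sub_mem _ hx (hXp m)
      have h2 : R v (A z - l' • B z) (fun i => B z (v i + X z i))
          (⟨u - φ m, hu1⟩,
            (Matrix.of (Lm z) - l' • (1 : Matrix (Fin k) (Fin k) ℝ)).mulVec m) = 0 := by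
        rw [Pool.SqDrum.LsAux.R_apply]
        show (A z - l' • B z) (u - φ m) + _ = 0
        rw [← hlin, ← map_add, sub_add_cancel, hu']
      have h3 := hinj (h2.trans (map_zero _).symm)
      have h4 : u - φ m = 0 := congrArg (fun q => ((Prod.fst q : (NN v)ᗮ) : E)) h3
      have h5 := congrArg Prod.snd h3
      refine ⟨m, ?_, (sub_eq_zero.1 h4).symm⟩
      rw [LinearMap.mem_ker, Matrix.toLin'_apply]
      exact h5
    · rintro ⟨m, hm, rfl⟩
      rw [LinearMap.mem_ker, Matrix.toLin'_apply] at hm
      show (A z - l' • B z) (φ m) = 0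
      rw [hlin, hm]
      simp
  rw [hker]
  exact (LinearEquiv.finrank_eq (Submodule.equivMapOfInjective φ hφinj _)).symm

end

end Pool.SqDrum
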