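import Mathlib
import Pool.Agent.Lib.MP_2805c2_an.SQ.Iface
import Pool.Agent.Lib.MP_2805c2_an.SQ.Ibp

set_option autoImplicit false

/-!
# MEL: the matrix elements
-/

namespace Pool.SqDrum

open MeasureTheory Set Filter Topology
open scoped ENNReal ContDiff InnerProductSpace

theorem mel_D : D = Ioo (-1/2 : ℝ) (1/2) ×ˢ Ioo (-1/2 : ℝ) (1/2) := by
  unfold D Sq; norm_num

theorem mel_open : IsOpen D := by rw [mel_D]; exact isOpen_Ioo.prod isOpen_Ioo

theorem mel_bdd : Bornology.IsBounded D := by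
  rw [mel_D]; exact (Metric.isBounded_Ioo _ _).prod (Metric.isBounded_Ioo _ _)

theorem mel_prod (f g : ℝ → ℝ) : ∫ x in D, f x.1 * g x.2 =
    (∫ x in (-1/2 : ℝ)..(1/2), f x) * (∫ x in (-1/2 : ℝ)..(1/2), g x) := by
  rw [intervalIntegral.integral_of_le (by norm_num), intervalIntegral.integral_of_le (by norm_num),
    integral_Ioc_eq_integral_Ioo, integral_Ioc_eq_integral_Ioo, mel_D]
  exact setIntegral_prod_mul (μ := (volume : Measure ℝ)) (ν := (volume : Measure ℝ)) f g _ _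

theorem mel_int {F : P2 → ℝ} (hF : Continuous F) : IntegrableOn F D volume := by
  have hK : IsCompact (Icc (-1/2 : ℝ) (1/2) ×ˢ Icc (-1/2 : ℝ) (1/2)) :=
    isCompact_Icc.prod isCompact_Icc
  refine (hF.continuousOn.integrableOn_compact hK).mono_set ?_
  rw [mel_D]
  exact Set.prod_mono Ioo_subset_Icc_self Ioo_subset_Icc_self

/-- inner product of two continuous functions on `D` -/
theorem mel_inner {f g : P2 → ℝ} (hf : Continuous f) (hg : Continuous g) :
    ⟪cl (D.indicator f), cl (D.indicator g)⟫_ℝ = ∫ x in D, f x * g x := by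
  have m1 := ibp_memLp mel_open hf (Or.inl mel_bdd)
  have m2 := ibp_memLp mel_open hg (Or.inl mel_bdd)
  rw [inner_eq, ← integral_indicator mel_open.measurableSet]
  refine integral_congr_ae ?_
  filter_upwards [cl_coe m1, cl_coe m2] with x h1 h2
  rw [h1, h2]
  by_cases hx : x ∈ D
  · simp [hx]
  · simp [hx]

/-- `A`: sine-sine, `A1`: with a factor `x`, `B`: cosine-sine, `B1`: with a factor `x` -/
noncomputable def melA (m n : ℕ) : ℝ := ∫ x in (-1/2 : ℝ)..(1/2),
  2 * (Real.sin (m * Real.pi * (x + 1/2)) * Real.sin (n * Real.pi * (x + 1/2)))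
noncomputable def melA1 (m n : ℕ) : ℝ := ∫ x in (-1/2 : ℝ)..(1/2),
  2 * x * (Real.sin (m * Real.pi * (x + 1/2)) * Real.sin (n * Real.pi * (x + 1/2)))
noncomputable def melB (m n : ℕ) : ℝ := ∫ x in (-1/2 : ℝ)..(1/2),
  2 * (Real.cos (m * Real.pi * (x + 1/2)) * Real.sin (n * Real.pi * (x + 1/2)))
noncomputable def melB1 (m n : ℕ) : ℝ := ∫ x in (-1/2 : ℝ)..(1/2),
  2 * x * (Real.cos (m * Real.pi * (x + 1/2)) * Real.sin (n * Real.pi * (x + 1/2)))

theorem mel_val (h : TrgStatement) {i k : ℕ × ℕ} (h1 : 0 < i.1) (h2 : 0 < i.2) :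
    -(2 * (i.1 * Real.pi) ^ 2) * (melA i.1 k.1 * melA1 i.2 k.2) +
      2 * i.1 * i.2 * Real.pi ^ 2 * (melB1 i.1 k.1 * melB i.2 k.2) = Pm i k := by
  have hπ := Real.pi_ne_zero
  by_cases hk : k.1 = 0 ∨ k.2 = 0
  · have e1 : melA i.1 k.1 * melA1 i.2 k.2 = 0 := by
      rcases hk with hk | hk
      · rw [hk]; simp [melA]
      · rw [hk]; simp [melA1]
    have e2 : melB1 i.1 k.1 * melB i.2 k.2 = 0 := by
      rcases hk with hk | hk
      · rw [hk]; simp [melB1]
      · rw [hk]; simp [melB]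
    rw [e1, e2, Pm]
    split_ifs with c1 c2
    · have : k.2 = 0 := hk.resolve_left (by omega)
      rw [this]; simp
    · have : (k.1 : ℝ) * k.2 = 0 := by
        rcases hk with hk | hk <;> simp [hk]
      rw [mul_zero, mul_zero, add_zero, mul_assoc (16 * (i.1 : ℝ) * i.2), this]
      simp
    · simp
  · push Not at hk
    have hk1 : 0 < k.1 := Nat.pos_of_ne_zero hk.1
    have hk2 : 0 < k.2 := Nat.pos_of_ne_zero hk.2
    obtain ⟨t1, -, -, -, t5, -, -, -⟩ := h i.1 k.1 h1 hk1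
    obtain ⟨-, -, u3, u4, -, -, -, -⟩ := h i.2 k.2 h2 hk2
    have a1 : (i.1 : ℝ) ≠ 0 := by exact_mod_cast h1.ne'
    have a2 : (i.2 : ℝ) ≠ 0 := by exact_mod_cast h2.ne'
    have dif : ∀ a b : ℕ, 0 < a → 0 < b → a ≠ b → ((b : ℝ) ^ 2 - (a : ℝ) ^ 2) ≠ 0 := fun a b ha hb hab => by
      have e : (b : ℝ) ^ 2 - (a : ℝ) ^ 2 = (b - a) * (b + a) := by ring
      rw [e]
      have : (b : ℝ) - a ≠ 0 := sub_ne_zero.2 fun h' => hab (by exact_mod_cast h'.symm)
      have : (b : ℝ) + a ≠ 0 := by positivity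
      positivity
    rw [melA, melA1, melB, melB1, t1, t5, u3, u4, Pm]
    by_cases o2 : (i.2 + k.2) % 2 = 1
    · have n2 : i.2 ≠ k.2 := by omega
      have d2 := dif _ _ h2 hk2 n2
      rw [if_pos o2, if_pos o2, I0]
      by_cases o1 : (i.1 + k.1) % 2 = 1
      · have n1 : i.1 ≠ k.1 := by omega
        rw [if_pos o1, if_neg n1,
          if_neg (show ¬ ((k.1 + i.1) % 2 = 0 ∧ (k.2 + i.2) % 2 = 1) by omega)]
        simp
      · rw [if_neg o1, if_pos (show ((k.1 + i.1) % 2 = 0 ∧ (k.2 + i.2) % 2 = 1) by omega)]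
        by_cases n1 : i.1 = k.1
        · rw [if_pos n1, if_pos n1, if_pos n1.symm]
          field_simp
          ring
        · have d1 := dif _ _ h1 hk1 n1
          rw [if_neg n1, if_neg n1, if_neg (fun h => n1 h.symm)]
          field_simp
          ring
    · rw [if_neg o2, if_neg o2,
        if_neg (show ¬ ((k.1 + i.1) % 2 = 0 ∧ (k.2 + i.2) % 2 = 1) by omega)]
      simp

theorem mel_four {F1 F2 F3 F4 : P2 → ℝ} (h1 : Continuous F1) (h2 : Continuous F2)
    (h3 : Continuous F3) (h4 : Continuous F4) (c1 c2 c3 c4 : ℝ) :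
    ∫ x in D, (c1 * F1 x + c2 * F2 x + (c3 * F3 x + c4 * F4 x)) =
      c1 * (∫ x in D, F1 x) + c2 * (∫ x in D, F2 x) + (c3 * (∫ x in D, F3 x) +
        c4 * (∫ x in D, F4 x)) := by
  rw [integral_add (f := fun x => c1 * F1 x + c2 * F2 x) (g := fun x => c3 * F3 x + c4 * F4 x)
      (mel_int (by fun_prop)) (mel_int (by fun_prop)),
    integral_add (f := fun x => c1 * F1 x) (g := fun x => c2 * F2 x)
      (mel_int (by fun_prop)) (mel_int (by fun_prop)),
    integral_add (f := fun x => c3 * F3 x) (g := fun x => c4 * F4 x)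
      (mel_int (by fun_prop)) (mel_int (by fun_prop)),
    integral_const_mul, integral_const_mul, integral_const_mul, integral_const_mul]

theorem mel (h : TrgStatement) : MelStatement := by
  intro i k a b h1 h2
  have hgf : Continuous (gf a b i) := by unfold gf; fun_prop
  have hef : Continuous (ef (-1/2) (-1/2) 1 k) := by unfold ef; fun_prop
  have hsq : Sq (-1/2) (-1/2) 1 = D := rfl
  rw [ET, trip_zero, hsq, mel_inner hgf hef]
  have e : ∀ x : P2, gf a b i x * ef (-1/2) (-1/2) 1 k x =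
      (a * -(2 * (i.1 * Real.pi) ^ 2)) * ((2 * (Real.sin (i.1 * Real.pi * (x.1 + 1/2)) *
          Real.sin (k.1 * Real.pi * (x.1 + 1/2)))) *
        (2 * x.2 * (Real.sin (i.2 * Real.pi * (x.2 + 1/2)) *
          Real.sin (k.2 * Real.pi * (x.2 + 1/2))))) +
      (a * (2 * i.1 * i.2 * Real.pi ^ 2)) * ((2 * x.1 * (Real.cos (i.1 * Real.pi * (x.1 + 1/2)) *
          Real.sin (k.1 * Real.pi * (x.1 + 1/2)))) *
        (2 * (Real.cos (i.2 * Real.pi * (x.2 + 1/2)) *
          Real.sin (k.2 * Real.pi * (x.2 + 1/2))))) +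
      ((b * -(2 * (i.2 * Real.pi) ^ 2)) * ((2 * x.1 * (Real.sin (i.1 * Real.pi * (x.1 + 1/2)) *
          Real.sin (k.1 * Real.pi * (x.1 + 1/2)))) *
        (2 * (Real.sin (i.2 * Real.pi * (x.2 + 1/2)) *
          Real.sin (k.2 * Real.pi * (x.2 + 1/2))))) +
      (b * (2 * i.2 * i.1 * Real.pi ^ 2)) * ((2 * (Real.cos (i.1 * Real.pi * (x.1 + 1/2)) *
          Real.sin (k.1 * Real.pi * (x.1 + 1/2)))) *
        (2 * x.2 * (Real.cos (i.2 * Real.pi * (x.2 + 1/2)) *
          Real.sin (k.2 * Real.pi * (x.2 + 1/2)))))) := by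
    intro x
    have e1 : (k.1 : ℝ) * Real.pi * (x.1 - -1/2) / 1 = k.1 * Real.pi * (x.1 + 1/2) := by ring
    have e2 : (k.2 : ℝ) * Real.pi * (x.2 - -1/2) / 1 = k.2 * Real.pi * (x.2 + 1/2) := by ring
    unfold gf ef
    rw [e1, e2]
    ring
  simp_rw [e]
  rw [mel_four (by fun_prop) (by fun_prop) (by fun_prop) (by fun_prop),
    mel_prod (fun t => 2 * (Real.sin (i.1 * Real.pi * (t + 1/2)) *
          Real.sin (k.1 * Real.pi * (t + 1/2))))
      (fun t => 2 * t * (Real.sin (i.2 * Real.pi * (t + 1/2)) *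
          Real.sin (k.2 * Real.pi * (t + 1/2)))),
    mel_prod (fun t => 2 * t * (Real.cos (i.1 * Real.pi * (t + 1/2)) *
          Real.sin (k.1 * Real.pi * (t + 1/2))))
      (fun t => 2 * (Real.cos (i.2 * Real.pi * (t + 1/2)) *
          Real.sin (k.2 * Real.pi * (t + 1/2)))),
    mel_prod (fun t => 2 * t * (Real.sin (i.1 * Real.pi * (t + 1/2)) *
          Real.sin (k.1 * Real.pi * (t + 1/2))))
      (fun t => 2 * (Real.sin (i.2 * Real.pi * (t + 1/2)) *
          Real.sin (k.2 * Real.pi * (t + 1/2)))),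
    mel_prod (fun t => 2 * (Real.cos (i.1 * Real.pi * (t + 1/2)) *
          Real.sin (k.1 * Real.pi * (t + 1/2))))
      (fun t => 2 * t * (Real.cos (i.2 * Real.pi * (t + 1/2)) *
          Real.sin (k.2 * Real.pi * (t + 1/2))))]
  change a * -(2 * (i.1 * Real.pi) ^ 2) * (melA i.1 k.1 * melA1 i.2 k.2) +
    a * (2 * i.1 * i.2 * Real.pi ^ 2) * (melB1 i.1 k.1 * melB i.2 k.2) +
    (b * -(2 * (i.2 * Real.pi) ^ 2) * (melA1 i.1 k.1 * melA i.2 k.2) +
    b * (2 * i.2 * i.1 * Real.pi ^ 2) * (melB i.1 k.1 * melB1 i.2 k.2)) = Wm a b i k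
  have v1 := mel_val h (k := k) h1 h2
  have v2 := mel_val h (i := i.swap) (k := k.swap) h2 h1
  simp only [Prod.fst_swap, Prod.snd_swap] at v2
  rw [Wm, ← v1, ← v2]
  ring

end Pool.SqDrum
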