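import Mathlib
import Pool.Agent.Lib.MP_2805c2_an.SQ.Iface
import Pool.Agent.Lib.MP_2805c2_an.SQ.Ibp
import Pool.Agent.Lib.MP_2805c2_an.SQ.Eig
import Pool.Agent.Lib.MP_2805c2_an.SQ.Mel

set_option autoImplicit false

/-!
# KEV: the values of `K2`
-/

namespace Pool.SqDrum

open MeasureTheory Set Filter Topology
open scoped ENNReal ContDiff InnerProductSpace

theorem kev_mul {w f g : P2 → ℝ} (hw : Continuous w) (hf : Continuous f) (hg : Continuous g) :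
    ⟪mul (D.indicator w) (cl (D.indicator f)), cl (D.indicator g)⟫_ℝ =
      ∫ x in D, w x * (f x * g x) := by
  have hD := mel_open.measurableSet
  have m1 := ibp_memLp mel_open hf (Or.inl mel_bdd)
  have m2 := ibp_memLp mel_open hg (Or.inl mel_bdd)
  obtain ⟨C, hC⟩ := mel_bdd.isCompact_closure.exists_bound_of_continuousOn hw.continuousOn
  have hC0 : 0 ≤ C := by
    refine (norm_nonneg _).trans (hC (0 : P2) (subset_closure ?_))
    rw [mel_D]; constructor <;> constructor <;> norm_num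
  have mw : MemLp (D.indicator w) ⊤ (volume : Measure P2) :=
    memLp_top_ind hD hw.measurable hC0 fun x hx => hC x (subset_closure hx)
  rw [inner_eq, ← integral_indicator hD]
  refine integral_congr_ae ?_
  filter_upwards [cl_coe m1, cl_coe m2, mul_coe mw (cl (D.indicator f))] with x h1 h2 h3
  rw [h3, h1, h2]
  by_cases hx : x ∈ D
  · simp [hx]; ring
  · simp [hx]

theorem kev_w {f g : ℝ → ℝ} (hf : Continuous f) (hg : Continuous g) (c0 c1 : ℝ) :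
    ∫ x in D, (c0 + c1 * (x.1 ^ 2 + x.2 ^ 2)) * (f x.1 * g x.2) =
      c0 * ((∫ x in (-1/2 : ℝ)..(1/2), f x) * (∫ x in (-1/2 : ℝ)..(1/2), g x)) +
      c1 * ((∫ x in (-1/2 : ℝ)..(1/2), x ^ 2 * f x) * (∫ x in (-1/2 : ℝ)..(1/2), g x) +
        (∫ x in (-1/2 : ℝ)..(1/2), f x) * (∫ x in (-1/2 : ℝ)..(1/2), x ^ 2 * g x)) := by
  have e : ∀ x : P2, (c0 + c1 * (x.1 ^ 2 + x.2 ^ 2)) * (f x.1 * g x.2) =
      c0 * (f x.1 * g x.2) + 0 * (f x.1 * g x.2) + (c1 * ((x.1 ^ 2 * f x.1) * g x.2) +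
        c1 * (f x.1 * (x.2 ^ 2 * g x.2))) := fun x => by ring
  simp_rw [e]
  rw [mel_four (by fun_prop) (by fun_prop) (by fun_prop) (by fun_prop),
    mel_prod f g, mel_prod (fun t => t ^ 2 * f t) g, mel_prod f (fun t => t ^ 2 * g t)]
  ring

noncomputable def kCC (m p : ℕ) (x : ℝ) : ℝ :=
  2 * (Real.cos (m * Real.pi * (x + 1/2)) * Real.cos (p * Real.pi * (x + 1/2)))
noncomputable def kSS (m p : ℕ) (x : ℝ) : ℝ :=
  2 * (Real.sin (m * Real.pi * (x + 1/2)) * Real.sin (p * Real.pi * (x + 1/2)))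
noncomputable def kCS (m p : ℕ) (x : ℝ) : ℝ :=
  2 * (Real.cos (m * Real.pi * (x + 1/2)) * Real.sin (p * Real.pi * (x + 1/2)))

theorem kCC_cont (m p : ℕ) : Continuous (kCC m p) := by unfold kCC; fun_prop
theorem kSS_cont (m p : ℕ) : Continuous (kSS m p) := by unfold kSS; fun_prop
theorem kCS_cont (m p : ℕ) : Continuous (kCS m p) := by unfold kCS; fun_prop

/-- weighted double integrals -/
noncomputable def kW (c0 c1 : ℝ) (f g : ℝ → ℝ) : ℝ :=
  c0 * ((∫ x in (-1/2 : ℝ)..(1/2), f x) * (∫ x in (-1/2 : ℝ)..(1/2), g x)) +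
      c1 * ((∫ x in (-1/2 : ℝ)..(1/2), x ^ 2 * f x) * (∫ x in (-1/2 : ℝ)..(1/2), g x) +
        (∫ x in (-1/2 : ℝ)..(1/2), f x) * (∫ x in (-1/2 : ℝ)..(1/2), x ^ 2 * g x))

theorem kev_pd1 (k : ℕ × ℕ) : pd1 (ef (-1/2) (-1/2) 1 k) = fun x : P2 =>
    2 * (k.1 * Real.pi) * (Real.cos (k.1 * Real.pi * (x.1 + 1/2)) *
      Real.sin (k.2 * Real.pi * (x.2 + 1/2))) := by
  rw [eig_pd1]
  funext x
  have e1 : (k.1 : ℝ) * Real.pi * (x.1 - -1/2) / 1 = k.1 * Real.pi * (x.1 + 1/2) := by ring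
  have e2 : (k.2 : ℝ) * Real.pi * (x.2 - -1/2) / 1 = k.2 * Real.pi * (x.2 + 1/2) := by ring
  rw [e1, e2]; ring

theorem kev_pd2 (k : ℕ × ℕ) : pd2 (ef (-1/2) (-1/2) 1 k) = fun x : P2 =>
    2 * (k.2 * Real.pi) * (Real.sin (k.1 * Real.pi * (x.1 + 1/2)) *
      Real.cos (k.2 * Real.pi * (x.2 + 1/2))) := by
  rw [eig_pd2]
  funext x
  have e1 : (k.1 : ℝ) * Real.pi * (x.1 - -1/2) / 1 = k.1 * Real.pi * (x.1 + 1/2) := by ring
  have e2 : (k.2 : ℝ) * Real.pi * (x.2 - -1/2) / 1 = k.2 * Real.pi * (x.2 + 1/2) := by ring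
  rw [e1, e2]; ring

theorem kev_gen (h : EvdStatement) (m n p q : ℕ) (a b δ τ : ℝ) :
    ⟪ev (m, n), K2 a b δ τ (ev (p, q))⟫_ℝ =
      m * p * Real.pi ^ 2 * kW (-(2 * δ)) (a ^ 2) (kCC m p) (kSS n q) +
      m * q * Real.pi ^ 2 * kW (-(2 * τ)) (a * b) (kCS m p) (kCS q n) +
      n * p * Real.pi ^ 2 * kW (-(2 * τ)) (a * b) (kCS p m) (kCS n q) +
      n * q * Real.pi ^ 2 * kW (2 * δ) (b ^ 2) (kSS m p) (kCC n q) := by
  have hsq : Sq (-1/2) (-1/2) 1 = D := rfl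
  have cf : ∀ k, Continuous (ef (-1/2) (-1/2) 1 k) := fun k => (eig_smooth _ _ _ k).continuous
  have cf1 : ∀ k, Continuous (pd1 (ef (-1/2) (-1/2) 1 k)) := fun k =>
    (eig_smooth1 _ _ _ k).continuous
  have cf2 : ∀ k, Continuous (pd2 (ef (-1/2) (-1/2) 1 k)) := fun k =>
    (eig_smooth2 _ _ _ k).continuous
  rw [real_inner_comm, K2, frm_inner, h.1, h.1]
  simp only [ET, trip_zero, trip_one, trip_two, hsq]
  rw [kev_mul (by fun_prop) (cf1 _) (cf1 _), kev_mul (by fun_prop) (cf2 _) (cf1 _),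
    kev_mul (by fun_prop) (cf1 _) (cf2 _), kev_mul (by fun_prop) (cf2 _) (cf2 _),
    kev_mul continuous_zero (cf _) (cf _)]
  have e0 : ∫ x in D, (0 : P2 → ℝ) x *
      (ef (-1/2) (-1/2) 1 (p, q) x * ef (-1/2) (-1/2) 1 (m, n) x) = 0 := by simp
  rw [e0, add_zero]
  simp only [kev_pd1, kev_pd2]
  have i1 : ∫ x in D, ((x.1 ^ 2 + x.2 ^ 2) * a ^ 2 - 2 * δ) *
      (2 * (p * Real.pi) * (Real.cos (p * Real.pi * (x.1 + 1/2)) *
        Real.sin (q * Real.pi * (x.2 + 1/2))) *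
      (2 * (m * Real.pi) * (Real.cos (m * Real.pi * (x.1 + 1/2)) *
        Real.sin (n * Real.pi * (x.2 + 1/2))))) =
      m * p * Real.pi ^ 2 * kW (-(2 * δ)) (a ^ 2) (kCC m p) (kSS n q) := by
    rw [kW, ← kev_w (kCC_cont m p) (kSS_cont n q), ← integral_const_mul]
    refine integral_congr_ae (Eventually.of_forall fun x => ?_)
    simp only [kCC, kSS]; ring
  have i2 : ∫ x in D, ((x.1 ^ 2 + x.2 ^ 2) * (a * b) - 2 * τ) *
      (2 * (q * Real.pi) * (Real.sin (p * Real.pi * (x.1 + 1/2)) *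
        Real.cos (q * Real.pi * (x.2 + 1/2))) *
      (2 * (m * Real.pi) * (Real.cos (m * Real.pi * (x.1 + 1/2)) *
        Real.sin (n * Real.pi * (x.2 + 1/2))))) =
      m * q * Real.pi ^ 2 * kW (-(2 * τ)) (a * b) (kCS m p) (kCS q n) := by
    rw [kW, ← kev_w (kCS_cont m p) (kCS_cont q n), ← integral_const_mul]
    refine integral_congr_ae (Eventually.of_forall fun x => ?_)
    simp only [kCS]; ring
  have i3 : ∫ x in D, ((x.1 ^ 2 + x.2 ^ 2) * (a * b) - 2 * τ) *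
      (2 * (p * Real.pi) * (Real.cos (p * Real.pi * (x.1 + 1/2)) *
        Real.sin (q * Real.pi * (x.2 + 1/2))) *
      (2 * (n * Real.pi) * (Real.sin (m * Real.pi * (x.1 + 1/2)) *
        Real.cos (n * Real.pi * (x.2 + 1/2))))) =
      n * p * Real.pi ^ 2 * kW (-(2 * τ)) (a * b) (kCS p m) (kCS n q) := by
    rw [kW, ← kev_w (kCS_cont p m) (kCS_cont n q), ← integral_const_mul]
    refine integral_congr_ae (Eventually.of_forall fun x => ?_)
    simp only [kCS]; ring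
  have i4 : ∫ x in D, ((x.1 ^ 2 + x.2 ^ 2) * b ^ 2 + 2 * δ) *
      (2 * (q * Real.pi) * (Real.sin (p * Real.pi * (x.1 + 1/2)) *
        Real.cos (q * Real.pi * (x.2 + 1/2))) *
      (2 * (n * Real.pi) * (Real.sin (m * Real.pi * (x.1 + 1/2)) *
        Real.cos (n * Real.pi * (x.2 + 1/2))))) =
      n * q * Real.pi ^ 2 * kW (2 * δ) (b ^ 2) (kSS m p) (kCC n q) := by
    rw [kW, ← kev_w (kSS_cont m p) (kCC_cont n q), ← integral_const_mul]
    refine integral_congr_ae (Eventually.of_forall fun x => ?_)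
    simp only [kCC, kSS]; ring
  rw [i1, i2, i3, i4]

theorem kev (h : EvdStatement) (ht : TrgStatement) : KevStatement := by
  have hπ := Real.pi_ne_zero
  -- the integrals
  have vCC : ∀ m p, 0 < m → 0 < p → ∫ x in (-1/2 : ℝ)..(1/2), kCC m p x =
      if m = p then 1 else 0 := fun m p hm hp => (ht m p hm hp).2.1
  have vSS : ∀ m p, 0 < m → 0 < p → ∫ x in (-1/2 : ℝ)..(1/2), kSS m p x =
      if m = p then 1 else 0 := fun m p hm hp => (ht m p hm hp).1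
  have vCS : ∀ m p, 0 < m → 0 < p → ∫ x in (-1/2 : ℝ)..(1/2), kCS m p x =
      if (m + p) % 2 = 1 then I0 m p else 0 := fun m p hm hp => (ht m p hm hp).2.2.1
  have vCS2 : ∀ m p, 0 < m → 0 < p → ∫ x in (-1/2 : ℝ)..(1/2), x ^ 2 * kCS m p x =
      if (m + p) % 2 = 1 then I2 m p else 0 := fun m p hm hp => by
    rw [← (ht m p hm hp).2.2.2.2.2.1]
    congr 1; funext x; unfold kCS; ring
  have vCC2 : ∀ m, 0 < m → ∫ x in (-1/2 : ℝ)..(1/2), x ^ 2 * kCC m m x =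
      1 / 12 + 1 / (2 * Real.pi ^ 2 * (m : ℝ) ^ 2) := fun m hm => by
    rw [← (ht m m hm hm).2.2.2.2.2.2.1]
    congr 1; funext x; unfold kCC; ring
  have vSS2 : ∀ m, 0 < m → ∫ x in (-1/2 : ℝ)..(1/2), x ^ 2 * kSS m m x =
      1 / 12 - 1 / (2 * Real.pi ^ 2 * (m : ℝ) ^ 2) := fun m hm => by
    rw [← (ht m m hm hm).2.2.2.2.2.2.2]
    congr 1; funext x; unfold kSS; ring
  refine ⟨?_, ?_, ?_⟩
  · intro m n a b δ τ hm hn
    have hm' : (m : ℝ) ≠ 0 := by exact_mod_cast hm.ne'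
    have hn' : (n : ℝ) ≠ 0 := by exact_mod_cast hn.ne'
    have o1 : ¬ (m + m) % 2 = 1 := by omega
    have o2 : ¬ (n + n) % 2 = 1 := by omega
    rw [kev_gen h]
    simp only [kW]
    rw [vCC m m hm hm, vSS n n hn hn, vSS m m hm hm, vCC n n hn hn,
      vCS m m hm hm, vCS n n hn hn, vCS2 m m hm hm, vCS2 n n hn hn, vCC2 m hm, vSS2 n hn,
      vCC2 n hn, vSS2 m hm]
    simp only [if_true, o1, o2, if_false, bas]
    field_simp
    ring
  · intro m n hm hn hmn hpar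
    refine ⟨0, fun a b δ τ => ?_⟩
    rw [kev_gen h, kW, kW, kW, kW, vCC m n hm hn, vSS n m hn hm, vSS m n hm hn, vCC n m hn hm,
      vCS m n hm hn, vCS n m hn hm, vCS2 m n hm hn, vCS2 n m hn hm, if_neg hmn,
      if_neg (fun h => hmn h.symm), if_neg (show ¬ (m + n) % 2 = 1 by omega),
      if_neg (show ¬ (n + m) % 2 = 1 by omega), if_neg (show ¬ (m + n) % 2 = 1 by omega),
      if_neg (show ¬ (n + m) % 2 = 1 by omega)]
    ring
  · intro m n a b δ τ hm hn hpar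
    have hmn : m ≠ n := by omega
    have d1 : ((n : ℝ) ^ 2 - (m : ℝ) ^ 2) ≠ 0 := by
      have e : (n : ℝ) ^ 2 - (m : ℝ) ^ 2 = (n - m) * (n + m) := by ring
      rw [e]
      have : (n : ℝ) - m ≠ 0 := sub_ne_zero.2 fun h' => hmn (by exact_mod_cast h'.symm)
      have : (n : ℝ) + m ≠ 0 := by
        have : (0 : ℝ) < n := by exact_mod_cast hn
        positivity
      positivity
    have d2 : ((m : ℝ) ^ 2 - (n : ℝ) ^ 2) ≠ 0 := by
      intro h0; exact d1 (by linarith)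
    have f0 : (m : ℝ) ^ 2 * I0 m n ^ 2 + (n : ℝ) ^ 2 * I0 n m ^ 2 =
        -(ka1 m n) / (2 * Real.pi ^ 2) := by
      have e2 : ((m : ℝ) ^ 2 - (n : ℝ) ^ 2) = -((n : ℝ) ^ 2 - (m : ℝ) ^ 2) := by ring
      rw [I0, I0, ka1, e2]
      field_simp
      ring
    have f1 : ka1 m n = -(2 * Real.pi ^ 2 * ((m : ℝ) ^ 2 * I0 m n ^ 2 + (n : ℝ) ^ 2 * I0 n m ^ 2)) := by
      rw [f0]; field_simp
    rw [kev_gen h, kW, kW, kW, kW, vCC m n hm hn, vSS n m hn hm, vSS m n hm hn, vCC n m hn hm,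
      vCS m n hm hn, vCS n m hn hm, vCS2 m n hm hn, vCS2 n m hn hm, if_neg hmn,
      if_neg (fun h => hmn h.symm), if_pos hpar,
      if_pos (show (n + m) % 2 = 1 by omega), if_pos hpar,
      if_pos (show (n + m) % 2 = 1 by omega), f1]
    ring

end Pool.SqDrum
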