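import Mathlib
import Pool.Agent.Lib.MP_2805c2_an.SQ.Iface

set_option autoImplicit false

/-!
# Smooth approximations of the positive part (used by LAT and SIN)
-/

namespace Pool.SqDrum

open MeasureTheory Set Filter Topology
open scoped ENNReal ContDiff InnerProductSpace

noncomputable section

/-- the derivative of `rho` -/
def rhoD (ε s : ℝ) : ℝ := Real.smoothTransition ((s - ε) / ε)

/-- a smooth approximation of the positive part -/
def rho (ε t : ℝ) : ℝ := ∫ s in (0 : ℝ)..t, rhoD ε s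

theorem rhoD_contDiff (ε : ℝ) : ContDiff ℝ ∞ (rhoD ε) :=
  Real.smoothTransition.contDiff.comp ((contDiff_id.sub contDiff_const).div_const ε)

theorem rhoD_nonneg (ε s : ℝ) : 0 ≤ rhoD ε s := Real.smoothTransition.nonneg _

theorem rhoD_le_one (ε s : ℝ) : rhoD ε s ≤ 1 := Real.smoothTransition.le_one _

theorem rhoD_zero {ε s : ℝ} (hε : 0 < ε) (hs : s ≤ ε) : rhoD ε s = 0 :=
  Real.smoothTransition.zero_of_nonpos (div_nonpos_of_nonpos_of_nonneg (by linarith) hε.le)

theorem rhoD_one {ε s : ℝ} (hε : 0 < ε) (hs : 2 * ε ≤ s) : rhoD ε s = 1 :=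
  Real.smoothTransition.one_of_one_le (by rw [le_div_iff₀ hε]; linarith)

theorem rho_hasDerivAt (ε t : ℝ) : HasDerivAt (rho ε) (rhoD ε t) t :=
  ((rhoD_contDiff ε).continuous.integral_hasStrictDerivAt 0 t).hasDerivAt

theorem rho_deriv (ε : ℝ) : deriv (rho ε) = rhoD ε := by
  funext t; exact (rho_hasDerivAt ε t).deriv

theorem rho_differentiable (ε : ℝ) : Differentiable ℝ (rho ε) := fun t =>
  (rho_hasDerivAt ε t).differentiableAt

theorem rho_contDiff (ε : ℝ) : ContDiff ℝ ∞ (rho ε) := by
  rw [contDiff_infty_iff_deriv]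
  refine ⟨rho_differentiable ε, ?_⟩
  rw [rho_deriv]
  exact rhoD_contDiff ε

theorem rho_mono (ε : ℝ) : Monotone (rho ε) :=
  monotone_of_deriv_nonneg (rho_differentiable ε) fun x => by
    rw [rho_deriv]; exact rhoD_nonneg ε x

theorem rho_at_zero (ε : ℝ) : rho ε 0 = 0 := by simp [rho]

theorem rho_zero {ε t : ℝ} (hε : 0 < ε) (ht : t ≤ ε) : rho ε t = 0 := by
  unfold rho
  rw [intervalIntegral.integral_congr (g := fun _ => (0 : ℝ))]
  · simp
  · intro s hs
    refine rhoD_zero hε (hs.2.trans ?_)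
    exact sup_le hε.le ht

theorem rho_nonneg {ε : ℝ} (hε : 0 < ε) (t : ℝ) : 0 ≤ rho ε t := by
  rcases le_total t ε with h | h
  · rw [rho_zero hε h]
  · rw [← rho_zero hε le_rfl]; exact rho_mono ε h

theorem rho_le {ε : ℝ} (hε : 0 < ε) (t : ℝ) : rho ε t ≤ max t 0 := by
  rcases le_total t 0 with h | h
  · rw [rho_zero hε (h.trans hε.le)]; exact le_max_right _ _
  · have hm : Monotone fun s => s - rho ε s :=
      monotone_of_deriv_nonneg (differentiable_id.sub (rho_differentiable ε)) fun x => by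
        have : HasDerivAt (fun s => s - rho ε s) (1 - rhoD ε x) x :=
          (hasDerivAt_id x).sub (rho_hasDerivAt ε x)
        rw [this.deriv]
        linarith [rhoD_le_one ε x]
    have := hm h
    simp only [rho_at_zero, sub_zero] at this
    exact (by linarith : rho ε t ≤ t).trans (le_max_left _ _)

theorem rho_ge {ε : ℝ} (hε : 0 < ε) (t : ℝ) : max t 0 - 2 * ε ≤ rho ε t := by
  rcases le_total t (2 * ε) with h | h
  · have h1 : max t 0 ≤ 2 * ε := max_le h (by linarith)
    linarith [rho_nonneg hε t]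
  · have h0 : max t 0 = t := max_eq_left (by linarith)
    have h1 : rho ε t - rho ε (2 * ε) = ∫ s in (2 * ε)..t, rhoD ε s := by
      unfold rho
      exact intervalIntegral.integral_interval_sub_left
        ((rhoD_contDiff ε).continuous.intervalIntegrable _ _)
        ((rhoD_contDiff ε).continuous.intervalIntegrable _ _)
    have h2 : ∫ s in (2 * ε)..t, rhoD ε s = t - 2 * ε := by
      rw [intervalIntegral.integral_congr (g := fun _ => (1 : ℝ))]
      · simp
      · intro s hs
        rw [uIcc_of_le h] at hs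
        exact rhoD_one hε hs.1
    rw [h0]
    linarith [rho_nonneg hε (2 * ε)]

theorem rho_abs_sub {ε : ℝ} (hε : 0 < ε) (t : ℝ) : |rho ε t - max t 0| ≤ 2 * ε := by
  rw [abs_le]
  constructor
  · linarith [rho_ge hε t]
  · linarith [rho_le hε t]

/-! ## inner products of classes -/

theorem inner_cl {a b : P2 → ℝ} (ha : MemLp a 2 (volume : Measure P2))
    (hb : MemLp b 2 (volume : Measure P2)) : ⟪cl a, cl b⟫_ℝ = ∫ x, a x * b x := by
  rw [inner_eq]
  refine integral_congr_ae ?_
  filter_upwards [cl_coe ha, cl_coe hb] with x h1 h2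
  rw [h1, h2]

theorem inner_cl_le {a b : P2 → ℝ} (ha : MemLp a 2 (volume : Measure P2))
    (hb : MemLp b 2 (volume : Measure P2)) (h : ∀ x, b x * b x ≤ a x * b x) :
    ⟪cl b, cl b⟫_ℝ ≤ ⟪cl a, cl b⟫_ℝ := by
  rw [inner_cl hb hb, inner_cl ha hb]
  exact integral_mono (hb.integrable_mul hb) (ha.integrable_mul hb) h

theorem cl_sub {f g : P2 → ℝ} (hf : MemLp f 2 (volume : Measure P2))
    (hg : MemLp g 2 (volume : Measure P2)) : cl (f - g) = cl f - cl g := by
  rw [cl_eq hf, cl_eq hg, cl_eq (hf.sub hg)]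
  rfl

end

end Pool.SqDrum
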