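import Mathlib
import Pool.Agent.Lib.MP_2805c2_an.SQ.Rho

set_option autoImplicit false

namespace Pool.SqDrum

open MeasureTheory Set Filter Topology
open scoped ENNReal ContDiff InnerProductSpace

noncomputable section

/-- composition with `rho` of the difference of two test functions -/
theorem lat_test {Ω : Set P2} {φ g : P2 → ℝ} (hφ : Test Ω φ) (hg : Test univ g)
    (hg0 : ∀ x, 0 ≤ g x) {ε : ℝ} (hε : 0 < ε) : Test Ω (fun x => rho ε (φ x - g x)) := by
  have hsub : Function.support (fun x => rho ε (φ x - g x)) ⊆ tsupport φ := by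
    intro x hx
    by_contra h
    have h1 : φ x = 0 := image_eq_zero_of_notMem_tsupport h
    apply hx
    simp only [h1, zero_sub]
    exact rho_zero hε (by linarith [hg0 x])
  have hsub2 : tsupport (fun x => rho ε (φ x - g x)) ⊆ {x | ε ≤ φ x} := by
    refine closure_minimal ?_ (isClosed_le continuous_const hφ.cont)
    intro x hx
    by_contra h
    simp only [Set.mem_ofPred_eq, not_le] at h
    exact hx (rho_zero hε (by linarith [hg0 x]))
  refine ⟨(rho_contDiff ε).comp (hφ.smooth.sub hg.smooth), ?_, ?_⟩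
  · exact HasCompactSupport.of_support_subset_isCompact hφ.compact hsub
  · refine hsub2.trans fun x hx => ?_
    by_contra h
    have := hφ.eq_zero h
    simp only [Set.mem_ofPred_eq] at hx
    linarith

theorem lat_pd1 {Ω Ω' : Set P2} {φ g : P2 → ℝ} (hφ : Test Ω φ) (hg : Test Ω' g) (ε : ℝ)
    (x : P2) : pd1 (fun x => rho ε (φ x - g x)) x = rhoD ε (φ x - g x) * (pd1 φ x - pd1 g x) := by
  have h1 : HasFDerivAt (fun x => φ x - g x) (fderiv ℝ φ x - fderiv ℝ g x) x :=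
    (hφ.diff x).hasFDerivAt.sub (hg.diff x).hasFDerivAt
  have h2 := (rho_hasDerivAt ε (φ x - g x)).comp_hasFDerivAt x h1
  have h3 : fderiv ℝ (fun x => rho ε (φ x - g x)) x =
      rhoD ε (φ x - g x) • (fderiv ℝ φ x - fderiv ℝ g x) := h2.fderiv
  simp [pd1, h3]

theorem lat_pd2 {Ω Ω' : Set P2} {φ g : P2 → ℝ} (hφ : Test Ω φ) (hg : Test Ω' g) (ε : ℝ)
    (x : P2) : pd2 (fun x => rho ε (φ x - g x)) x = rhoD ε (φ x - g x) * (pd2 φ x - pd2 g x) := by
  have h1 : HasFDerivAt (fun x => φ x - g x) (fderiv ℝ φ x - fderiv ℝ g x) x :=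
    (hφ.diff x).hasFDerivAt.sub (hg.diff x).hasFDerivAt
  have h2 := (rho_hasDerivAt ε (φ x - g x)).comp_hasFDerivAt x h1
  have h3 : fderiv ℝ (fun x => rho ε (φ x - g x)) x =
      rhoD ε (φ x - g x) • (fderiv ℝ φ x - fderiv ℝ g x) := h2.fderiv
  simp [pd2, h3]

theorem lat_sq {d t : ℝ} (h0 : 0 ≤ d) (h1 : d ≤ 1) : (d * t) * (d * t) ≤ t * (d * t) := by
  nlinarith [mul_nonneg h0 (sq_nonneg t), mul_le_mul_of_nonneg_right h1 (mul_nonneg h0 (sq_nonneg t))]

/-- the basic inequality -/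
theorem lat_ineq {Ω : Set P2} {φ g : P2 → ℝ} (hφ : Test Ω φ) (hg : Test univ g)
    (hg0 : ∀ x, 0 ≤ g x) {ε : ℝ} (hε : 0 < ε) :
    ⟪jet (fun x => rho ε (φ x - g x)), jet (fun x => rho ε (φ x - g x))⟫_ℝ ≤
      ⟪jet φ - jet g, jet (fun x => rho ε (φ x - g x))⟫_ℝ := by
  have hk := lat_test hφ hg hg0 hε
  rw [LL_inner, LL_inner]
  have e0 : (jet φ - jet g) 0 = cl (φ - g) := (cl_sub hφ.memLp hg.memLp).symm
  have e1 : (jet φ - jet g) 1 = cl (pd1 φ - pd1 g) := (cl_sub hφ.pd1_memLp hg.pd1_memLp).symm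
  have e2 : (jet φ - jet g) 2 = cl (pd2 φ - pd2 g) := (cl_sub hφ.pd2_memLp hg.pd2_memLp).symm
  rw [e0, e1, e2]
  refine add_le_add (add_le_add ?_ ?_) ?_
  · refine inner_cl_le (hφ.memLp.sub hg.memLp) hk.memLp fun x => ?_
    simp only [Pi.sub_apply]
    have h1 := rho_le hε (φ x - g x)
    have h0 := rho_nonneg hε (φ x - g x)
    rcases le_total (φ x - g x) 0 with h | h
    · rw [rho_zero hε (h.trans hε.le)]; simp
    · rw [max_eq_left h] at h1
      exact mul_le_mul_of_nonneg_right h1 h0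
  · refine inner_cl_le (hφ.pd1_memLp.sub hg.pd1_memLp) hk.pd1_memLp fun x => ?_
    rw [lat_pd1 hφ hg]
    exact lat_sq (rhoD_nonneg _ _) (rhoD_le_one _ _)
  · refine inner_cl_le (hφ.pd2_memLp.sub hg.pd2_memLp) hk.pd2_memLp fun x => ?_
    rw [lat_pd2 hφ hg]
    exact lat_sq (rhoD_nonneg _ _) (rhoD_le_one _ _)

/-- the distance of the smooth function and the positive part -/
theorem lat_dist {Ω : Set P2} {φ g : P2 → ℝ} (hφ : Test Ω φ) (hg : Test univ g)
    (hg0 : ∀ x, 0 ≤ g x) {ε : ℝ} (hε : 0 < ε) :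
    ‖cl (fun x => rho ε (φ x - g x)) - (cl φ - cl g) ⊔ 0‖ ≤
      2 * ε * Real.sqrt (volume.real (tsupport φ)) := by
  have hk := lat_test hφ hg hg0 hε
  have hm : MeasurableSet (tsupport φ) := (isClosed_tsupport φ).measurableSet
  have hfin : volume (tsupport φ) ≠ ⊤ := (hφ.compact.isCompact.measure_lt_top).ne
  have h1 : ‖cl (fun x => rho ε (φ x - g x)) - (cl φ - cl g) ⊔ 0‖ ≤
      ‖(indicatorConstLp 2 hm hfin (2 * ε) : L2)‖ := by
    refine Lp.norm_le_norm_of_ae_le ?_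
    filter_upwards [Lp.coeFn_sub (cl (fun x => rho ε (φ x - g x))) ((cl φ - cl g) ⊔ 0),
      Lp.coeFn_sup (cl φ - cl g) (0 : L2), Lp.coeFn_sub (cl φ) (cl g), cl_coe hk.memLp,
      cl_coe hφ.memLp, cl_coe hg.memLp, Lp.coeFn_zero ℝ 2 (volume : Measure P2),
      indicatorConstLp_coeFn (p := 2) (hs := hm) (hμs := hfin) (c := 2 * ε)]
      with x h1 h2 h3 h4 h5 h6 h7 h8
    rw [h1, Pi.sub_apply, h2, Pi.sup_apply, h3, Pi.sub_apply, h4, h5, h6, h7, h8]
    simp only [Pi.zero_apply]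
    by_cases hx : x ∈ tsupport φ
    · rw [Set.indicator_of_mem hx, Real.norm_eq_abs, Real.norm_eq_abs,
        abs_of_pos (by linarith : 0 < 2 * ε)]
      exact rho_abs_sub hε _
    · have h0 : φ x = 0 := image_eq_zero_of_notMem_tsupport hx
      rw [Set.indicator_of_notMem hx, h0]
      have h9 : (0 : ℝ) - g x ≤ 0 := by linarith [hg0 x]
      rw [rho_zero hε (h9.trans hε.le)]
      have : (0 - g x) ⊔ (0 : ℝ) = 0 := sup_eq_right.2 h9
      rw [this]
      simp
  refine h1.trans ?_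
  rw [norm_indicatorConstLp (by norm_num) (by norm_num)]
  rw [Real.norm_eq_abs, abs_of_pos (by linarith : 0 < 2 * ε)]
  have : (1 : ℝ) / (2 : ℝ≥0∞).toReal = 1 / 2 := by norm_num
  rw [this, Real.sqrt_eq_rpow]

theorem lat (hW : WclStatement) (hP : PosStatement) : LatStatement := by
  intro Ω hΩ F hF G hG hG0
  obtain ⟨φ, hφ, hφF⟩ := exists_seq hF
  obtain ⟨v, hv, hvG⟩ := mem_closure_iff_seq_limit.1 (hP univ isOpen_univ G hG hG0)
  choose g hg hg0 hgv using hv
  have hgG : Tendsto (fun n => jet (g n)) atTop (𝓝 G) := by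
    have : (fun n => jet (g n)) = v := by funext n; exact (hgv n).symm
    rw [this]; exact hvG
  -- the parameters
  set V : ℕ → ℝ := fun n => Real.sqrt (volume.real (tsupport (φ n))) with hVdef
  have hV : ∀ n, 0 ≤ V n := fun n => Real.sqrt_nonneg _
  set e : ℕ → ℝ := fun n => 1 / (2 * (V n + 1) * (n + 1)) with hedef
  have he : ∀ n, 0 < e n := fun n => by
    have := hV n
    simp only [hedef]; positivity
  have heV : ∀ n, 2 * e n * V n ≤ 1 / ((n : ℝ) + 1) := fun n => by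
    have h1 := hV n
    simp only [hedef]
    rw [show 2 * (1 / (2 * (V n + 1) * ((n : ℝ) + 1))) * V n =
      (V n / (V n + 1)) * (1 / ((n : ℝ) + 1)) by field_simp]
    have h2 : V n / (V n + 1) ≤ 1 := (div_le_one (by linarith)).2 (by linarith)
    have h3 : 0 ≤ 1 / ((n : ℝ) + 1) := by positivity
    calc (V n / (V n + 1)) * (1 / ((n : ℝ) + 1)) ≤ 1 * (1 / ((n : ℝ) + 1)) :=
          mul_le_mul_of_nonneg_right h2 h3
      _ = _ := one_mul _
  set k : ℕ → P2 → ℝ := fun n x => rho (e n) (φ n x - g n x) with hkdef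
  have hk : ∀ n, Test Ω (k n) := fun n => lat_test (hφ n) (hg n) (hg0 n) (he n)
  set X : LL := F - G with hX
  set Xn : ℕ → LL := fun n => jet (φ n) - jet (g n) with hXn
  have hXlim : Tendsto Xn atTop (𝓝 X) := hφF.sub hgG
  have hineq : ∀ n, ⟪jet (k n), jet (k n)⟫_ℝ ≤ ⟪Xn n, jet (k n)⟫_ℝ := fun n =>
    lat_ineq (hφ n) (hg n) (hg0 n) (he n)
  have hbound : ∀ n, ‖jet (k n)‖ ≤ ‖Xn n‖ := fun n => by
    have h1 := hineq n
    rw [real_inner_self_eq_norm_sq] at h1
    have h2 := real_inner_le_norm (Xn n) (jet (k n))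
    rcases (norm_nonneg (jet (k n))).eq_or_lt with h | h
    · rw [← h]; exact norm_nonneg _
    · nlinarith
  have hball : ∀ n, ‖jet (k n) - (1/2 : ℝ) • Xn n‖ ≤ ‖Xn n‖ / 2 := fun n => by
    have h1 := hineq n
    rw [real_inner_self_eq_norm_sq] at h1
    have h2 : ‖jet (k n) - (1/2 : ℝ) • Xn n‖ ^ 2 ≤ (‖Xn n‖ / 2) ^ 2 := by
      rw [@norm_sub_sq_real, inner_smul_right, norm_smul, real_inner_comm]
      rw [Real.norm_eq_abs, abs_of_pos (by norm_num : (0 : ℝ) < 1 / 2)]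
      nlinarith
    exact abs_le_of_sq_le_sq' h2 (by positivity) |>.2
  -- boundedness
  obtain ⟨R, hR⟩ := (Metric.isBounded_range_of_tendsto Xn hXlim).exists_norm_le
  obtain ⟨K, hK⟩ := hW LL (fun n => jet (k n)) R fun n =>
    (hbound n).trans (hR _ ⟨n, rfl⟩)
  refine ⟨K, ?_, ?_, ?_⟩
  · exact hK (H Ω) (H_isClosed Ω) (H Ω).convex (Eventually.of_forall fun n => jet_mem (hk n))
  · -- the first component
    have hlim : Tendsto (fun n => (jet (k n)) 0) atTop (𝓝 ((F 0 - G 0) ⊔ 0)) := by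
      have hF0 : Tendsto (fun n => jet (φ n) 0) atTop (𝓝 (F 0)) :=
        ((PiLp.continuous_apply 2 _ 0).tendsto _).comp hφF
      have hG0' : Tendsto (fun n => jet (g n) 0) atTop (𝓝 (G 0)) :=
        ((PiLp.continuous_apply 2 _ 0).tendsto _).comp hgG
      have h1 : Tendsto (fun n => (jet (φ n) 0 - jet (g n) 0) ⊔ (0 : L2)) atTop
          (𝓝 ((F 0 - G 0) ⊔ 0)) := (hF0.sub hG0').sup_nhds tendsto_const_nhds
      have h2 : Tendsto (fun n => (jet (k n)) 0 - ((jet (φ n) 0 - jet (g n) 0) ⊔ (0 : L2)))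
          atTop (𝓝 0) := by
        refine squeeze_zero_norm (a := fun n : ℕ => 1 / ((n : ℝ) + 1)) (fun n => ?_)
          tendsto_one_div_add_atTop_nhds_zero_nat
        exact (lat_dist (hφ n) (hg n) (hg0 n) (he n)).trans (heV n)
      have := h2.add h1
      simpa using this
    have hη : ∀ η : ℝ, 0 < η → ‖K 0 - (F 0 - G 0) ⊔ 0‖ ≤ η := by
      intro η hη
      have hcl : IsClosed {L : LL | ‖L 0 - (F 0 - G 0) ⊔ 0‖ ≤ η} :=
        isClosed_le (((PiLp.continuous_apply 2 _ 0).sub continuous_const).norm) continuous_const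
      have hcv : Convex ℝ {L : LL | ‖L 0 - (F 0 - G 0) ⊔ 0‖ ≤ η} := by
        have h1 : {L : LL | ‖L 0 - (F 0 - G 0) ⊔ 0‖ ≤ η} =
            (PiLp.proj 2 (fun _ : Fin 3 => L2) 0 : LL →L[ℝ] L2).toLinearMap ⁻¹'
              Metric.closedBall ((F 0 - G 0) ⊔ 0) η := by
          ext L
          simp [dist_eq_norm]
        rw [h1]
        exact (convex_closedBall _ _).linear_preimage _
      refine hK _ hcl hcv ?_
      have := (tendsto_iff_norm_sub_tendsto_zero.1 hlim).eventually (ge_mem_nhds hη)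
      exact this
    have h0 : ‖K 0 - (F 0 - G 0) ⊔ 0‖ ≤ 0 := le_of_forall_pos_le_add fun η h => by
      simpa using hη η h
    exact sub_eq_zero.1 (norm_le_zero_iff.1 h0)
  · have hη : ∀ η : ℝ, 0 < η → ‖K - (1/2 : ℝ) • X‖ ≤ ‖X‖ / 2 + η := by
      intro η hη
      have h1 : K ∈ Metric.closedBall ((1/2 : ℝ) • X) (‖X‖ / 2 + η) := by
        refine hK _ Metric.isClosed_closedBall (convex_closedBall _ _) ?_
        have h2 : Tendsto (fun n => ‖Xn n‖ / 2 + ‖(1/2 : ℝ) • Xn n - (1/2 : ℝ) • X‖) atTop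
            (𝓝 (‖X‖ / 2 + 0)) := by
          refine (hXlim.norm.div_const 2).add ?_
          exact tendsto_iff_norm_sub_tendsto_zero.1 (hXlim.const_smul (1/2 : ℝ))
        have h3 : ∀ᶠ n in atTop, ‖Xn n‖ / 2 + ‖(1/2 : ℝ) • Xn n - (1/2 : ℝ) • X‖ <
            ‖X‖ / 2 + η := h2.eventually (gt_mem_nhds (by linarith))
        filter_upwards [h3] with n hn
        rw [mem_closedBall_iff_norm]
        have h4 : jet (k n) - (1/2 : ℝ) • X = (jet (k n) - (1/2 : ℝ) • Xn n) +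
            ((1/2 : ℝ) • Xn n - (1/2 : ℝ) • X) := by abel
        rw [h4]
        exact (norm_add_le _ _).trans ((add_le_add (hball n) le_rfl).trans hn.le)
      exact mem_closedBall_iff_norm.1 h1
    have h0 : ‖K - (1/2 : ℝ) • X‖ ≤ ‖X‖ / 2 := le_of_forall_pos_le_add hη
    have h1 : ‖K - (1/2 : ℝ) • X‖ ^ 2 ≤ (‖X‖ / 2) ^ 2 :=
      pow_le_pow_left₀ (norm_nonneg _) h0 2
    rw [@norm_sub_sq_real, inner_smul_right, norm_smul, Real.norm_eq_abs,
      abs_of_pos (by norm_num : (0 : ℝ) < 1 / 2), real_inner_comm] at h1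
    nlinarith

end

end Pool.SqDrum
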