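import Mathlib
import Pool.Agent.Lib.MP_2805c2_an.SQ.Iface

set_option autoImplicit false

/-! # LIN: linear algebra of 2 × 2 matrices -/

namespace Pool.SqDrum

open MeasureTheory Set Filter Topology Asymptotics
open scoped ENNReal ContDiff InnerProductSpace

namespace LinAux

abbrev M2 : Type := Matrix (Fin 2) (Fin 2) ℝ

theorem ker_zero (M : M2) :
    Module.finrank ℝ (LinearMap.ker (Matrix.toLin' M)) = 0 ↔ M.det ≠ 0 := by
  rw [Submodule.finrank_eq_zero, ← not_iff_not, not_not, ← Matrix.exists_mulVec_eq_zero_iff]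
  constructor
  · intro h
    obtain ⟨x, hx, hx0⟩ := (Submodule.ne_bot_iff _).1 h
    exact ⟨x, hx0, by simpa using hx⟩
  · rintro ⟨x, hx0, hx⟩
    exact (Submodule.ne_bot_iff _).2 ⟨x, by simpa using hx, hx0⟩

theorem ker_two (M : M2) :
    Module.finrank ℝ (LinearMap.ker (Matrix.toLin' M)) = 2 ↔ M = 0 := by
  constructor
  · intro h
    have h1 : LinearMap.ker (Matrix.toLin' M) = ⊤ :=
      Submodule.eq_top_of_finrank_eq (by rw [h]; simp)
    have h2 : Matrix.toLin' M = 0 := LinearMap.ker_eq_top.1 h1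
    have h3 : Matrix.toLin' M = Matrix.toLin' (0 : M2) := by rw [h2, map_zero]
    exact Matrix.toLin'.injective h3
  · rintro rfl
    rw [map_zero, LinearMap.ker_zero, finrank_top]
    simp

theorem det_sub (L : M2) (r : ℝ) :
    (L - r • (1 : M2)).det = (L 0 0 - r) * (L 1 1 - r) - L 0 1 * L 1 0 := by
  rw [Matrix.det_fin_two]
  simp [Matrix.sub_apply, Matrix.smul_apply]

def disc (L : M2) : ℝ := (L 0 0 - L 1 1) ^ 2 + 4 * L 0 1 * L 1 0

/-- symmetrizable matrices: the discriminant is nonnegative, and zero only for scalar matrices -/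
theorem disc_pos (L G : M2) (hG : G.PosDef) (hs : (G * L).IsSymm) :
    0 < disc L ∨ (L 0 0 = L 1 1 ∧ L 0 1 = 0 ∧ L 1 0 = 0) := by
  have hb : G 1 0 = G 0 1 := by
    have := hG.isHermitian.apply 0 1
    simpa using this
  have ha : 0 < G 0 0 := hG.diag_pos
  have hd : 0 < G.det := hG.det_pos
  rw [Matrix.det_fin_two, hb] at hd
  have h1 : G 0 0 * L 0 1 + G 0 1 * L 1 1 = G 0 1 * L 0 0 + G 1 1 * L 1 0 := by
    have h := hs.apply 1 0
    rw [Matrix.mul_apply, Matrix.mul_apply, Fin.sum_univ_two, Fin.sum_univ_two, hb] at h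
    exact h
  set a := G 0 0
  set b := G 0 1
  set c := G 1 1
  set d := L 0 0 - L 1 1 with hdd
  have h2 : a * L 0 1 = c * L 1 0 + b * d := by rw [hdd]; linarith
  have h3 : a * disc L = a * d ^ 2 + 4 * b * d * L 1 0 + 4 * c * L 1 0 ^ 2 := by
    have h4 : a * disc L = a * d ^ 2 + 4 * (a * L 0 1) * L 1 0 := by
      unfold disc
      rw [← hdd]
      ring
    rw [h4, h2]
    ring
  have h4 : a * (a * disc L) = (a * d + 2 * b * L 1 0) ^ 2 + 4 * (a * c - b * b) * L 1 0 ^ 2 := by
    rw [h3]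
    ring
  by_cases hq : L 1 0 = 0
  · by_cases hd0 : d = 0
    · right
      refine ⟨by linarith, ?_, hq⟩
      rw [hq, hd0] at h2
      have h5 : a * L 0 1 = 0 := by rw [h2]; ring
      exact (mul_eq_zero.1 h5).resolve_left ha.ne'
    · left
      have h6 : 0 < a * (a * disc L) := by
        rw [h4, hq]
        have : 0 < (a * d) ^ 2 := by positivity
        nlinarith
      exact (mul_pos_iff_of_pos_left ha).1 ((mul_pos_iff_of_pos_left ha).1 h6)
  · left
    have h6 : 0 < a * (a * disc L) := by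
      rw [h4]
      have h7 : 0 < L 1 0 ^ 2 := by positivity
      have h8 : 0 < 4 * (a * c - b * b) * L 1 0 ^ 2 := by
        refine mul_pos (by linarith) h7
      nlinarith [sq_nonneg (a * d + 2 * b * L 1 0)]
    exact (mul_pos_iff_of_pos_left ha).1 ((mul_pos_iff_of_pos_left ha).1 h6)

theorem scalar_iff (L : M2) (μ : ℝ) : L - μ • (1 : M2) = 0 ↔
    L 0 0 = μ ∧ L 1 1 = μ ∧ L 0 1 = 0 ∧ L 1 0 = 0 := by
  constructor
  · intro h
    have e : ∀ i j, (L - μ • (1 : M2)) i j = 0 := fun i j => by rw [h]; rfl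
    have e00 := e 0 0
    have e11 := e 1 1
    have e01 := e 0 1
    have e10 := e 1 0
    simp [Matrix.sub_apply, Matrix.smul_apply] at e00 e11 e01 e10
    exact ⟨by linarith, by linarith, e01, e10⟩
  · rintro ⟨h1, h2, h3, h4⟩
    ext i j
    fin_cases i <;> fin_cases j <;>
      simp [Matrix.sub_apply, Matrix.smul_apply, h1, h2, h3, h4]

/-- the roots lie in the window -/
theorem roots_near (L : M2) (l ε : ℝ) (h : ∀ i j, |L i j - (if i = j then l else 0)| < ε / 4)
    (hd : 0 ≤ disc L) (s : ℝ) (hs : s = 1 ∨ s = -1) :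
    |(L 0 0 + L 1 1 + s * Real.sqrt (disc L)) / 2 - l| < ε ∧
    (L 0 0 - (L 0 0 + L 1 1 + s * Real.sqrt (disc L)) / 2) *
      (L 1 1 - (L 0 0 + L 1 1 + s * Real.sqrt (disc L)) / 2) - L 0 1 * L 1 0 = 0 := by
  have h00 := h 0 0
  have h11 := h 1 1
  have h01 := h 0 1
  have h10 := h 1 0
  simp at h00 h11 h01 h10
  have hε : 0 < ε := by
    have := (abs_nonneg _).trans_lt h00
    linarith
  set q := Real.sqrt (disc L) with hq
  have hqq : q ^ 2 = disc L := Real.sq_sqrt hd
  have hq0 : 0 ≤ q := Real.sqrt_nonneg _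
  have hq1 : q < ε := by
    have h1 : disc L < ε ^ 2 := by
      unfold disc
      have h2 : |L 0 0 - L 1 1| < ε / 2 := by
        have : L 0 0 - L 1 1 = (L 0 0 - l) - (L 1 1 - l) := by ring
        rw [this]
        calc |(L 0 0 - l) - (L 1 1 - l)| ≤ |L 0 0 - l| + |L 1 1 - l| := abs_sub _ _
          _ < ε / 2 := by linarith
      have h3 : (L 0 0 - L 1 1) ^ 2 < (ε / 2) ^ 2 := by
        rw [← sq_abs]
        exact pow_lt_pow_left₀ h2 (abs_nonneg _) (by norm_num)
      have h4 : |L 0 1 * L 1 0| ≤ (ε / 4) * (ε / 4) := by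
        rw [abs_mul]
        exact mul_le_mul h01.le h10.le (abs_nonneg _) (by positivity)
      have h5 := (abs_le.1 h4).2
      nlinarith
    exact lt_of_pow_lt_pow_left₀ 2 hε.le (by rw [hqq]; exact h1)
  constructor
  · have h6 : |L 0 0 + L 1 1 - 2 * l| < ε / 2 := by
      have : L 0 0 + L 1 1 - 2 * l = (L 0 0 - l) + (L 1 1 - l) := by ring
      rw [this]
      calc |(L 0 0 - l) + (L 1 1 - l)| ≤ |L 0 0 - l| + |L 1 1 - l| := abs_add_le _ _
        _ < ε / 2 := by linarith
    have h7 := abs_lt.1 h6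
    rw [abs_lt]
    rcases hs with rfl | rfl
    · constructor <;> linarith
    · constructor <;> linarith
  · have hs2 : s ^ 2 = 1 := by rcases hs with rfl | rfl <;> norm_num
    have h8 : (L 0 0 - (L 0 0 + L 1 1 + s * q) / 2) * (L 1 1 - (L 0 0 + L 1 1 + s * q) / 2) -
        L 0 1 * L 1 0 = (s ^ 2 * q ^ 2 - disc L) / 4 := by
      unfold disc
      ring
    rw [h8, hs2, hqq]
    ring

end LinAux

open LinAux in
theorem lin : LinStatement := by
  intro L L' G G' l ε hG hG' hs hs' hL hL' hker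
  have hε : 0 < ε := by
    have := (abs_nonneg _).trans_lt (hL 0 0)
    linarith
  show disc L = disc L'
  -- a scalar matrix forces the other one to be equal to it
  have key : ∀ (L L' : M2), (∀ i j, |L i j - (if i = j then l else 0)| < ε / 4) →
      (∀ l' : ℝ, |l' - l| < ε →
        Module.finrank ℝ (LinearMap.ker (Matrix.toLin' (L - l' • 1))) =
        Module.finrank ℝ (LinearMap.ker (Matrix.toLin' (L' - l' • 1)))) →
      (L 0 0 = L 1 1 ∧ L 0 1 = 0 ∧ L 1 0 = 0) → disc L = disc L' := by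
    intro L L' hL hker ⟨h1, h2, h3⟩
    have h4 : |L 0 0 - l| < ε := by
      have := hL 0 0
      simp at this
      linarith
    have h5 : L - (L 0 0) • (1 : M2) = 0 := (scalar_iff L _).2 ⟨rfl, h1.symm, h2, h3⟩
    have h6 := hker _ h4
    rw [(ker_two _).2 h5] at h6
    have h7 := (scalar_iff L' _).1 ((ker_two _).1 h6.symm)
    unfold disc
    rw [h7.1, h7.2.1, h7.2.2.1, h2, h1]
    ring
  rcases disc_pos L G hG hs with hp | hsc
  · rcases disc_pos L' G' hG' hs' with hp' | hsc'
    · -- both are not scalar: the two roots of `L` are roots of `L'`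
      have hroot : ∀ s : ℝ, (s = 1 ∨ s = -1) →
          (L' 0 0 - (L 0 0 + L 1 1 + s * Real.sqrt (disc L)) / 2) *
          (L' 1 1 - (L 0 0 + L 1 1 + s * Real.sqrt (disc L)) / 2) - L' 0 1 * L' 1 0 = 0 := by
        intro s hs1
        obtain ⟨h1, h2⟩ := roots_near L l ε hL hp.le s hs1
        have h3 := hker _ h1
        have h4 : Module.finrank ℝ (LinearMap.ker (Matrix.toLin' (L -
            ((L 0 0 + L 1 1 + s * Real.sqrt (disc L)) / 2) • (1 : M2)))) ≠ 0 := by
          rw [Ne, ker_zero, not_not, det_sub]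
          exact h2
        rw [h3, Ne, ker_zero, not_not, det_sub] at h4
        exact h4
      have hp1 := hroot 1 (Or.inl rfl)
      have hm1 := hroot (-1) (Or.inr rfl)
      set q := Real.sqrt (disc L) with hq
      have hqq : q ^ 2 = disc L := Real.sq_sqrt hp.le
      have hq0 : 0 < q := Real.sqrt_pos.2 hp
      have ht : L' 0 0 + L' 1 1 = L 0 0 + L 1 1 := by
        have h9 : q * (L' 0 0 + L' 1 1 - (L 0 0 + L 1 1)) = 0 := by
          linear_combination hm1 - hp1
        have := (mul_eq_zero.1 h9).resolve_left hq0.ne'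
        linarith
      have h10 : (L 0 0 + L 1 1 + 1 * q) / 2 = (L' 0 0 + L' 1 1 + q) / 2 := by rw [ht]; ring
      rw [h10] at hp1
      have h11 : disc L' = q ^ 2 := by
        unfold disc
        linarith
      rw [h11, hqq]
    · exact (key L' L hL' (fun l' hl' => (hker l' hl').symm) hsc').symm
  · exact key L L' hL hker hsc

end Pool.SqDrum
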