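import Pool.Agent.Lib.MP_2805c2_an.SQ.Iface

set_option autoImplicit false

/-!
# MON: positivity and domain monotonicity of the resolvent (helper62)
-/

namespace Pool.SqDrum

open MeasureTheory Set Filter Topology
open scoped ENNReal ContDiff InnerProductSpace

theorem L2_inner_nonneg {f g : L2} (hf : 0 ≤ f) (hg : 0 ≤ g) : 0 ≤ ⟪f, g⟫_ℝ := by
  rw [inner_eq]
  refine integral_nonneg_of_ae ?_
  filter_upwards [(Lp.coeFn_nonneg f).2 hf, (Lp.coeFn_nonneg g).2 hg] with x h1 h2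
  exact mul_nonneg h1 h2

theorem adj_inner {Ω : Set P2} (f : L2) {K : LL} (hK : K ∈ H Ω) :
    ⟪(((co Ω 0).adjoint f : H Ω) : LL), K⟫_ℝ = ⟪f, K 0⟫_ℝ := by
  have h := ContinuousLinearMap.adjoint_inner_left (co Ω 0) (⟨K, hK⟩ : H Ω) f
  rw [co_apply] at h
  exact h

theorem eq_zero_of_sq {K : LL} {c : ℝ} (h : ‖K‖ ^ 2 ≤ c) (hc : c ≤ 0) : K = 0 := by
  have h1 : ‖K‖ ^ 2 ≤ 0 := h.trans hc
  have h2 : ‖K‖ = 0 := by
    have := sq_nonneg ‖K‖
    exact pow_eq_zero_iff two_ne_zero |>.1 (le_antisymm h1 this)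
  exact norm_eq_zero.1 h2

theorem res_nonneg (lat : LatStatement) {Ω : Set P2} (hΩ : IsOpen Ω) {f : L2} (hf : 0 ≤ f) :
    0 ≤ res Ω f := by
  set U : LL := (((co Ω 0).adjoint f : H Ω) : LL) with hU
  have hUm : U ∈ H Ω := ((co Ω 0).adjoint f).2
  have hr : res Ω f = U 0 := rfl
  obtain ⟨K, hK, hK0, hKn⟩ := lat Ω hΩ (-U) ((H Ω).neg_mem hUm) 0 (H Set.univ).zero_mem
    (le_refl (0 : L2))
  have h0 : (0 : LL) 0 = (0 : L2) := rfl
  have hK0' : 0 ≤ K 0 := by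
    rw [hK0]
    exact le_sup_right
  have hz : K = 0 := by
    refine eq_zero_of_sq hKn ?_
    rw [sub_zero, inner_neg_left, hU, adj_inner f hK]
    have := L2_inner_nonneg hf hK0'
    linarith
  rw [hz] at hK0
  have h1 : (-U) 0 - (0 : LL) 0 ≤ (0 : L2) := by
    have h2 : (-U) 0 - (0 : LL) 0 ≤ ((-U) 0 - (0 : LL) 0) ⊔ 0 := le_sup_left
    rw [← hK0] at h2
    exact h2
  have h3 : (-U) 0 - (0 : LL) 0 = -(U 0) := by
    rw [h0, sub_zero]
    rfl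
  rw [h3] at h1
  rw [hr]
  exact neg_nonpos.1 h1

theorem res_mono (lat : LatStatement) {Ω Ω' : Set P2} (hΩ : IsOpen Ω) (hΩ' : IsOpen Ω')
    (hs : Ω ⊆ Ω') {f : L2} (hf : 0 ≤ f) : res Ω f ≤ res Ω' f := by
  set U : LL := (((co Ω 0).adjoint f : H Ω) : LL) with hU
  set U' : LL := (((co Ω' 0).adjoint f : H Ω') : LL) with hU'
  have hUm : U ∈ H Ω := ((co Ω 0).adjoint f).2
  have hUm' : U' ∈ H Ω' := ((co Ω' 0).adjoint f).2
  have hr : res Ω f = U 0 := rfl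
  have hr' : res Ω' f = U' 0 := rfl
  have hpos : 0 ≤ U' 0 := by
    rw [← hr']
    exact res_nonneg lat hΩ' hf
  obtain ⟨K, hK, hK0, hKn⟩ := lat Ω hΩ U hUm U' (H_mono (Set.subset_univ _) hUm') hpos
  have hz : K = 0 := by
    refine eq_zero_of_sq hKn ?_
    rw [inner_sub_left, hU, hU', adj_inner f hK, adj_inner f (H_mono hs hK), sub_self]
  rw [hz] at hK0
  have h1 : U 0 - U' 0 ≤ (0 : L2) := by
    have h2 : U 0 - U' 0 ≤ (U 0 - U' 0) ⊔ 0 := le_sup_left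
    rw [← hK0] at h2
    exact h2
  rw [hr, hr']
  exact sub_nonpos.1 h1

/-- **MON** -/
theorem mon (lat : LatStatement) : MonStatement := by
  intro Ω Ω' hΩ hΩ' hs f g hf hg
  refine ⟨L2_inner_nonneg hg (res_nonneg lat hΩ hf), ?_⟩
  have h := L2_inner_nonneg hg (sub_nonneg.2 (res_mono lat hΩ hΩ' hs hf))
  rw [inner_sub_right] at h
  linarith

end Pool.SqDrum
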