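import Pool.Agent.Lib.MP_2805c2_an.SQ.Iface

set_option autoImplicit false

/-!
# NFM: normal form of a nearly square quadrilateral (helper82)
-/

namespace Pool.SqDrum

open Set

/-- Algebra: the numbers of the normal form are small. -/
theorem nfm_small {κ : ℝ} (hκ : 0 < κ) (hκ' : κ ≤ 1 / 12) {A B C d : ℝ}
    (hA : |A - 1| ≤ κ) (hB : |B - 1| ≤ κ) (hC : |C| ≤ κ) (hd : 0 < d) (hdd : d ^ 2 = A * B - C ^ 2) :
    |d - 1| ≤ 2 * κ ∧ 9 / 4 ≤ A + B + 2 * d := by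
  rw [abs_le] at hA hB hC
  have h1 : C ^ 2 ≤ κ ^ 2 := by nlinarith
  have h2 : (1 - κ) * (1 - κ) ≤ A * B :=
    mul_le_mul (by linarith) (by linarith) (by linarith) (by linarith)
  have h3 : A * B ≤ (1 + κ) * (1 + κ) :=
    mul_le_mul (by linarith) (by linarith) (by linarith) (by linarith)
  have h4 : d ≤ 1 + κ := by
    by_contra hcon
    push Not at hcon
    nlinarith [sq_nonneg C]
  have h5 : 1 - 2 * κ ≤ d := by
    by_contra hcon
    push Not at hcon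
    nlinarith
  refine ⟨abs_le.2 ⟨by linarith, by linarith⟩, by linarith⟩

theorem nfm_div {S r κ : ℝ} (hκ : 0 < κ) (hr : 3 / 2 ≤ r) (h1 : |S - 2| ≤ 3 * κ)
    (h2 : |r - 2| ≤ 3 * κ) : |S / r - 1| ≤ 6 * κ := by
  have hr0 : 0 < r := by linarith
  have e : S / r - 1 = (S - r) / r := by
    rw [sub_div, div_self hr0.ne']
  rw [e, abs_div, abs_of_pos hr0, div_le_iff₀ hr0]
  have h3 : |S - r| ≤ 6 * κ := by
    rw [abs_le] at h1 h2 ⊢
    constructor <;> linarith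
  calc |S - r| ≤ 6 * κ * 1 := by linarith
    _ ≤ 6 * κ * r := by
      apply mul_le_mul_of_nonneg_left _ (by linarith)
      linarith

theorem nfm_div2 {S r κ : ℝ} (hκ : 0 < κ) (hr : 1 ≤ r) (h1 : |S| ≤ κ) : |S / r| ≤ κ := by
  have hr0 : 0 < r := by linarith
  rw [abs_div, abs_of_pos hr0, div_le_iff₀ hr0]
  calc |S| ≤ κ * 1 := by linarith
    _ ≤ κ * r := mul_le_mul_of_nonneg_left hr hκ.le

theorem nfm_root {R r κ : ℝ} (hκ : 0 < κ) (hr0 : 0 ≤ r) (hr : r ^ 2 = R) (h9 : 9 / 4 ≤ R)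
    (h4 : |R - 4| ≤ 6 * κ) : 3 / 2 ≤ r ∧ |r - 2| ≤ 3 * κ := by
  have h1 : 3 / 2 ≤ r := by nlinarith
  refine ⟨h1, ?_⟩
  have h2 : R - 4 = (r - 2) * (r + 2) := by rw [← hr]; ring
  rw [h2, abs_mul, abs_of_pos (show 0 < r + 2 by linarith)] at h4
  nlinarith [abs_nonneg (r - 2)]

theorem nfm (hqda : QdaStatement) : NfmStatement := by
  intro ε hε
  refine ⟨min (1 / 12) (min (ε / 12) (ε ^ 2 / 4)), by positivity, ?_⟩
  intro q hq hA hB hC hw
  set κ := min (1 / 12 : ℝ) (min (ε / 12) (ε ^ 2 / 4)) with hκdef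
  have hκ : 0 < κ := by positivity
  have hκ1 : κ ≤ 1 / 12 := min_le_left _ _
  have hκ2 : κ ≤ ε / 12 := (min_le_right _ _).trans (min_le_left _ _)
  have hκ3 : κ ≤ ε ^ 2 / 4 := (min_le_right _ _).trans (min_le_right _ _)
  obtain ⟨himg, -, ⟨c0, hc0, hpos⟩, -, -⟩ := hqda q hq
  obtain ⟨a1, a2, ea⟩ : ∃ x y, qa q = (x, y) := ⟨_, _, rfl⟩
  obtain ⟨b1, b2, eb⟩ : ∃ x y, qb q = (x, y) := ⟨_, _, rfl⟩
  obtain ⟨w1, w2, ew⟩ : ∃ x y, qw q = (x, y) := ⟨_, _, rfl⟩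
  obtain ⟨c1, c2, ec⟩ : ∃ x y, qc q = (x, y) := ⟨_, _, rfl⟩
  rw [ea] at hA hC himg hpos
  rw [eb] at hB hC himg hpos
  rw [ew] at hw himg hpos
  rw [ec] at himg
  have h0D : ((0, 0) : P2) ∈ D := by
    refine ⟨⟨?_, ?_⟩, ⟨?_, ?_⟩⟩ <;> norm_num
  have hd : 0 < a1 * b2 - a2 * b1 := by
    have := hpos (0, 0) h0D
    simp [det2] at this
    linarith
  simp only [dot2] at hA hB hC hw
  obtain ⟨hd1, hr9⟩ := nfm_small hκ hκ1 hA hB hC hd (by ring)
  set r := Real.sqrt ((a1 + b2) ^ 2 + (b1 - a2) ^ 2) with hr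
  have hr2 : r ^ 2 = (a1 + b2) ^ 2 + (b1 - a2) ^ 2 := Real.sq_sqrt (by positivity)
  have hr3 : r ^ 2 = (a1 * a1 + a2 * a2) + (b1 * b1 + b2 * b2) + 2 * (a1 * b2 - a2 * b1) := by
    rw [hr2]; ring
  have hr0 : 0 ≤ r := Real.sqrt_nonneg _
  have hR4 : |(a1 * a1 + a2 * a2) + (b1 * b1 + b2 * b2) + 2 * (a1 * b2 - a2 * b1) - 4| ≤
      6 * κ := by
    rw [abs_le] at hA hB hd1 ⊢
    constructor <;> linarith
  obtain ⟨hr1, hr4⟩ := nfm_root hκ hr0 hr3 hr9 hR4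
  have hrpos : 0 < r := by linarith
  have hS2 : |((a1 * a1 + a2 * a2) + (b1 * b1 + b2 * b2)) / 2 + (a1 * b2 - a2 * b1) - 2| ≤
      3 * κ := by
    rw [abs_le] at hA hB hd1 ⊢
    constructor <;> linarith
  have hD2 : |((a1 * a1 + a2 * a2) - (b1 * b1 + b2 * b2)) / 2| ≤ κ := by
    rw [abs_le] at hA hB ⊢
    constructor <;> linarith
  set cs := (a1 + b2) / r with hcs
  set sn := (b1 - a2) / r with hsn
  have hcs2 : cs ^ 2 + sn ^ 2 = 1 := by
    rw [hcs, hsn]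
    field_simp
    rw [hr2]
  -- the parameters
  set z : Z5 := ![(((a1 * a1 + a2 * a2) + (b1 * b1 + b2 * b2)) / 2 + (a1 * b2 - a2 * b1)) / r - 1,
    ((a1 * a1 + a2 * a2) - (b1 * b1 + b2 * b2)) / (2 * r), (a1 * b1 + a2 * b2) / r,
    cs * w1 - sn * w2, sn * w1 + cs * w2] with hz
  have z0 : z 0 = (((a1 * a1 + a2 * a2) + (b1 * b1 + b2 * b2)) / 2 + (a1 * b2 - a2 * b1)) / r - 1 :=
    rfl
  have z1 : z 1 = ((a1 * a1 + a2 * a2) - (b1 * b1 + b2 * b2)) / (2 * r) := rfl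
  have z2 : z 2 = (a1 * b1 + a2 * b2) / r := rfl
  have z3 : z 3 = cs * w1 - sn * w2 := rfl
  have z4 : z 4 = sn * w1 + cs * w2 := rfl
  refine ⟨z, ?_, ?_⟩
  · rw [pi_norm_lt_iff hε]
    have hw2 : z 3 ^ 2 + z 4 ^ 2 ≤ κ := by
      rw [z3, z4]
      have : (cs * w1 - sn * w2) ^ 2 + (sn * w1 + cs * w2) ^ 2 =
          (cs ^ 2 + sn ^ 2) * (w1 * w1 + w2 * w2) := by ring
      rw [this, hcs2, one_mul]
      exact hw
    have hb0 : |z 0| ≤ 6 * κ := by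
      rw [z0]
      exact nfm_div hκ hr1 hS2 hr4
    have hb1 : |z 1| ≤ κ := by
      rw [z1, ← div_div]
      exact nfm_div2 hκ (by linarith) hD2
    have hb2 : |z 2| ≤ κ := by
      rw [z2]
      exact nfm_div2 hκ (by linarith) hC
    have hb3 : |z 3| < ε := by
      apply abs_lt_of_sq_lt_sq _ hε.le
      nlinarith [sq_nonneg (z 4)]
    have hb4 : |z 4| < ε := by
      apply abs_lt_of_sq_lt_sq _ hε.le
      nlinarith [sq_nonneg (z 3)]
    intro i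
    rw [Real.norm_eq_abs]
    fin_cases i
    · exact hb0.trans_lt (by linarith)
    · exact hb1.trans_lt (by linarith)
    · exact hb2.trans_lt (by linarith)
    · exact hb3
    · exact hb4
  · refine ⟨fun x => (cs * x.1 - 1 * sn * x.2 + (-(cs * c1 - sn * c2)),
      sn * x.1 + 1 * cs * x.2 + (-(sn * c1 + cs * c2))),
      ⟨cs, sn, -(cs * c1 - sn * c2), -(sn * c1 + cs * c2), 1, Or.inl rfl, by linarith,
        fun x => rfl⟩, ?_⟩
    rw [himg, image_image]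
    unfold dom
    congr 1
    funext x
    have k1 : cs * a1 - sn * a2 = 1 + z 0 + z 1 := by
      rw [z0, z1, hcs, hsn]
      field_simp
      ring
    have k2 : sn * a1 + cs * a2 = z 2 := by
      rw [z2, hcs, hsn]
      field_simp
      ring
    have k3 : cs * b1 - sn * b2 = z 2 := by
      rw [z2, hcs, hsn]
      field_simp
      ring
    have k4 : sn * b1 + cs * b2 = 1 + z 0 - z 1 := by
      rw [z0, z1, hcs, hsn]
      field_simp
      ring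
    simp only [bil, va, vb, vw, Prod.smul_mk, smul_eq_mul, Prod.mk_add_mk]
    refine Prod.ext ?_ ?_
    · simp
      linear_combination x.1 * k1 + x.2 * k3 - (x.1 * x.2) * z3
    · simp
      linear_combination x.1 * k2 + x.2 * k4 - (x.1 * x.2) * z4

end Pool.SqDrum
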