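import Mathlib
import Pool.Agent.Lib.MP_2805c2_an.SQ.Iface
import Pool.Agent.Lib.MP_2805c2_an.SQ.Gel

set_option autoImplicit false

/-! # NRG: the norm of the first order term -/

namespace Pool.SqDrum

open MeasureTheory Set Filter Topology Asymptotics
open scoped ENNReal ContDiff InnerProductSpace

noncomputable section

namespace NrgAux

open GelAux

theorem intD {g : P2 → ℝ} (hg : Continuous g) : IntegrableOn g D (volume : Measure P2) :=
  (hg.continuousOn.integrableOn_compact (isCompact_Icc.prod isCompact_Icc)).mono_set D_sub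

/-- the inner product of two classes -/
theorem inner_cl {f g : P2 → ℝ} (hf : Continuous f) (hg : Continuous g) :
    ⟪cl (D.indicator f), cl (D.indicator g)⟫_ℝ = ∫ x in D, f x * g x := by
  rw [inner_eq, ← integral_indicator D_meas]
  refine integral_congr_ae ?_
  filter_upwards [cl_coe (memD hf), cl_coe (memD hg)] with x h1 h2
  rw [h1, h2]
  by_cases hx : x ∈ D
  · simp [hx]
  · simp [hx]

/-- Fubini for products -/
theorem prodD (f g : ℝ → ℝ) : ∫ x in D, f x.1 * g x.2 =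
    (∫ t in (-1/2 : ℝ)..(1/2), f t) * ∫ t in (-1/2 : ℝ)..(1/2), g t := by
  have h1 : (-1/2 : ℝ) + 1 = 1/2 := by norm_num
  have h2 : (-1/2 : ℝ) ≤ 1/2 := by norm_num
  unfold D Sq
  rw [h1]
  have h3 : ∀ f : ℝ → ℝ, ∫ t in (-1/2 : ℝ)..(1/2), f t = ∫ t in Ioo (-1/2 : ℝ) (1/2), f t := by
    intro f
    rw [intervalIntegral.integral_of_le h2, integral_Ioc_eq_integral_Ioo]
  rw [h3, h3, Measure.volume_eq_prod]
  exact setIntegral_prod_mul f g _ _

end NrgAux

open GelAux NrgAux in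
theorem nrg (hmel : MelStatement) (hcpl : CplStatement) (htrg : TrgStatement) :
    NrgStatement := by
  intro i hi1 hi2
  obtain ⟨m, n⟩ := i
  simp only at hi1 hi2
  have hg : Continuous (gf 1 0 (m, n)) := by unfold gf; fun_prop
  set f : L2 := cl (D.indicator (gf 1 0 (m, n))) with hf
  -- Parseval
  have h1 : HasSum (fun k : ℕ × ℕ => Pm (m, n) k ^ 2) ⟪f, f⟫_ℝ := by
    have h2 := hcpl (-1/2) (-1/2) 1 one_pos f
    have h3 : ind (Sq (-1/2) (-1/2) 1) f = f := by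
      refine Lp.ext ?_
      filter_upwards [ind_coe (A := D) D_meas f, cl_coe (memD hg)] with x e1 e2
      refine e1.trans ?_
      by_cases hx : x ∈ D
      · simp [hx]
      · rw [Set.indicator_of_notMem hx, hf, e2, Set.indicator_of_notMem hx]
    rw [h3] at h2
    have h4 := h2.mapL (innerSL ℝ f)
    refine (h4.congr_fun ?_)
    intro k
    have h5 : ⟪f, ET (-1/2) (-1/2) 1 k 0⟫_ℝ = Pm (m, n) k := by
      have := hmel (m, n) k 1 0 hi1 hi2
      rw [hf, this]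
      unfold Wm
      ring
    show Pm (m, n) k ^ 2 = ⟪f, ⟪ET (-1/2) (-1/2) 1 k 0, f⟫_ℝ • ET (-1/2) (-1/2) 1 k 0⟫_ℝ
    rw [inner_smul_right, real_inner_comm f, h5]
    ring
  -- the norm
  obtain ⟨a1, a2, -, -, a5, -, -, -⟩ := htrg m m hi1 hi1
  obtain ⟨b1, b2, -, -, b5, -, b7, b8⟩ := htrg n n hi2 hi2
  obtain ⟨-, -, -, -, -, -, a7, a8⟩ := htrg m m hi1 hi1
  have hval : ⟪f, f⟫_ℝ = G2 m n := by
    rw [hf, inner_cl hg hg]
    set S1 : ℝ → ℝ := fun t => Real.sin (m * Real.pi * (t + 1/2)) with hS1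
    set S2 : ℝ → ℝ := fun t => Real.sin (n * Real.pi * (t + 1/2)) with hS2
    set C1 : ℝ → ℝ := fun t => Real.cos (m * Real.pi * (t + 1/2)) with hC1
    set C2 : ℝ → ℝ := fun t => Real.cos (n * Real.pi * (t + 1/2)) with hC2
    have cS1 : Continuous S1 := by rw [hS1]; fun_prop
    have cS2 : Continuous S2 := by rw [hS2]; fun_prop
    have cC1 : Continuous C1 := by rw [hC1]; fun_prop
    have cC2 : Continuous C2 := by rw [hC2]; fun_prop
    have hexp : ∀ x : P2, gf 1 0 (m, n) x * gf 1 0 (m, n) x =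
        4 * (m * Real.pi) ^ 4 * ((2 * (S1 x.1 * S1 x.1)) * (2 * x.2 ^ 2 * S2 x.2 ^ 2)) +
        4 * ((m : ℝ) ^ 2 * n ^ 2 * Real.pi ^ 4) *
          ((2 * x.1 ^ 2 * C1 x.1 ^ 2) * (2 * (C2 x.2 * C2 x.2))) +
        -(8 * ((m : ℝ) ^ 3 * n * Real.pi ^ 4)) *
          ((2 * x.1 * (C1 x.1 * S1 x.1)) * (2 * x.2 * (C2 x.2 * S2 x.2))) := by
      intro x
      unfold gf
      simp only [hS1, hS2, hC1, hC2]
      ring
    have i1 : IntegrableOn (fun x : P2 => 4 * ((m : ℝ) * Real.pi) ^ 4 *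
        ((2 * (S1 x.1 * S1 x.1)) * (2 * x.2 ^ 2 * S2 x.2 ^ 2))) D := intD (by fun_prop)
    have i2 : IntegrableOn (fun x : P2 => 4 * ((m : ℝ) ^ 2 * n ^ 2 * Real.pi ^ 4) *
          ((2 * x.1 ^ 2 * C1 x.1 ^ 2) * (2 * (C2 x.2 * C2 x.2)))) D := intD (by fun_prop)
    have i3 : IntegrableOn (fun x : P2 => -(8 * ((m : ℝ) ^ 3 * n * Real.pi ^ 4)) *
          ((2 * x.1 * (C1 x.1 * S1 x.1)) * (2 * x.2 * (C2 x.2 * S2 x.2)))) D :=
      intD (by fun_prop)
    have i12 : IntegrableOn (fun x : P2 => 4 * ((m : ℝ) * Real.pi) ^ 4 *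
        ((2 * (S1 x.1 * S1 x.1)) * (2 * x.2 ^ 2 * S2 x.2 ^ 2)) +
        4 * ((m : ℝ) ^ 2 * n ^ 2 * Real.pi ^ 4) *
          ((2 * x.1 ^ 2 * C1 x.1 ^ 2) * (2 * (C2 x.2 * C2 x.2)))) D := intD (by fun_prop)
    simp only [hexp]
    rw [integral_add i12 i3, integral_add i1 i2, integral_const_mul, integral_const_mul,
      integral_const_mul,
      prodD (fun t => 2 * (S1 t * S1 t)) (fun t => 2 * t ^ 2 * S2 t ^ 2),
      prodD (fun t => 2 * t ^ 2 * C1 t ^ 2) (fun t => 2 * (C2 t * C2 t)),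
      prodD (fun t => 2 * t * (C1 t * S1 t)) (fun t => 2 * t * (C2 t * S2 t))]
    rw [if_pos rfl] at a1 a2 b1 b2
    have hm2 : ¬ ((m + m) % 2 = 1) := by omega
    have hn2 : ¬ ((n + n) % 2 = 1) := by omega
    rw [if_neg hm2, if_pos rfl] at a5
    rw [if_neg hn2, if_pos rfl] at b5
    rw [a1, b8, a7, b2, a5, b5]
    have hmne : (m : ℝ) ≠ 0 := by positivity
    have hnne : (n : ℝ) ≠ 0 := by positivity
    have hpi : Real.pi ≠ 0 := Real.pi_ne_zero
    unfold G2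
    field_simp
    ring
  rw [← hval]
  exact h1

end

end Pool.SqDrum
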