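import Mathlib
import Pool.Agent.Lib.MP_2805c2_an.SQ.Iface

set_option autoImplicit false

namespace Pool.SqDrum

open MeasureTheory Set Filter Topology

theorem nua_cond (k : ℕ × ℕ) (hk : Pm (1, 1) k ≠ 0) : (3 : ℝ) ≤ En (1, 1) k := by
  obtain ⟨a, b⟩ := k
  have h1 : (a + 1) % 2 = 0 ∧ (b + 1) % 2 = 1 := by
    by_contra h
    exact hk (by unfold Pm; rw [if_neg h])
  have hb : b ≠ 0 := by
    rintro rfl
    exact hk (by unfold Pm; simp)
  have h3 : 5 ≤ a ^ 2 + b ^ 2 := by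
    have : 1 ≤ a := by omega
    have : 2 ≤ b := by omega
    nlinarith
  have h4 : (5 : ℝ) ≤ (a : ℝ) ^ 2 + (b : ℝ) ^ 2 := by exact_mod_cast h3
  unfold En
  push_cast
  linarith

theorem nua (hT : TlbStatement) : NuaStatement := by
  have h := hT.1 1 1 ∅ 3 one_pos one_pos (by norm_num) (fun k _ hk => nua_cond k hk)
  simp only [Finset.sum_empty, sub_zero] at h
  have h1 := (abs_le.1 h).2
  have hG : G2 1 1 = 2 * Real.pi ^ 4 / 3 - 2 * Real.pi ^ 2 := by
    unfold G2; push_cast; ring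
  rw [hG] at h1
  have hp := Real.pi_lt_d2
  have hp0 := Real.pi_pos
  have hP : Real.pi ^ 2 < 12 := by nlinarith
  have hP0 : 0 < Real.pi ^ 2 := by positivity
  unfold NuaStatement BN bas
  have h2 : SS 1 0 (1, 1) (1, 1) / Real.pi ^ 2 ≤ 2 * Real.pi ^ 2 / 9 - 2 / 3 := by
    rw [div_le_iff₀ hP0]
    have : (2 * Real.pi ^ 2 / 9 - 2 / 3) * Real.pi ^ 2 =
      2 * ((2 * Real.pi ^ 4 / 3 - 2 * Real.pi ^ 2) / (2 * 3)) := by ring
    rw [this]
    linarith
  push_cast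
  nlinarith

end Pool.SqDrum
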