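import Mathlib
import Pool.Agent.Lib.MP_2805c2_an.SQ.Iface

set_option autoImplicit false

namespace Pool.SqDrum

open MeasureTheory Set Filter Topology

def nub_S : Finset (ℕ × ℕ) := {(1, 2), (1, 4), (3, 2)}

theorem nub_c (a b : ℕ) (ha : a % 2 = 1) (hb : b % 2 = 0) (hb0 : b ≠ 0)
    (hS : (a, b) ∉ nub_S) : 25 ≤ a ^ 2 + b ^ 2 := by
  by_contra h
  push Not at h
  have h1 : a ≤ 4 := by nlinarith
  have h2 : b ≤ 4 := by nlinarith
  interval_cases a <;> interval_cases b <;> simp_all [nub_S]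

theorem nub_cond {i : ℕ × ℕ} (hi : i = (1, 3) ∨ i = (3, 1)) (k : ℕ × ℕ) (hS : k ∉ nub_S)
    (hk : Pm i k ≠ 0) : (15 : ℝ) ≤ En i k := by
  obtain ⟨a, b⟩ := k
  have h1 : (a + i.1) % 2 = 0 ∧ (b + i.2) % 2 = 1 := by
    by_contra h
    exact hk (by unfold Pm; rw [if_neg h])
  have hb : b ≠ 0 := by
    rintro rfl
    exact hk (by unfold Pm; simp)
  have hi1 : i.1 % 2 = 1 ∧ i.2 % 2 = 1 := by rcases hi with rfl | rfl <;> decide
  have h3 := nub_c a b (by omega) (by omega) hb hS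
  have h4 : (25 : ℝ) ≤ (a : ℝ) ^ 2 + (b : ℝ) ^ 2 := by exact_mod_cast h3
  rcases hi with rfl | rfl <;> unfold En <;> push_cast <;> linarith

theorem nub_sum (f : ℕ × ℕ → ℝ) : ∑ k ∈ nub_S, f k = f (1, 2) + f (1, 4) + f (3, 2) := by
  unfold nub_S
  rw [Finset.sum_insert (by decide), Finset.sum_insert (by decide), Finset.sum_singleton]
  ring

theorem nub (hT : TlbStatement) : NubStatement := by
  have ha := hT.1 1 3 nub_S 15 (by norm_num) (by norm_num) (by norm_num)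
    (fun k hS hk => nub_cond (Or.inl rfl) k hS hk)
  have hb := hT.1 3 1 nub_S 15 (by norm_num) (by norm_num) (by norm_num)
    (fun k hS hk => nub_cond (Or.inr rfl) k hS hk)
  rw [nub_sum, nub_sum] at ha hb
  have q1 : Pm (1, 3) (1, 2) = 216 / 25 := by norm_num [Pm]
  have q2 : Pm (1, 3) (1, 4) = -144 / 49 := by norm_num [Pm]
  have q3 : Pm (1, 3) (3, 2) = 36 / 5 := by norm_num [Pm]
  have q4 : Pm (3, 1) (1, 2) = 4 := by norm_num [Pm]
  have q5 : Pm (3, 1) (1, 4) = 8 / 5 := by norm_num [Pm]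
  have q6 : Pm (3, 1) (3, 2) = 88 / 3 := by norm_num [Pm]
  have r1 : En (1, 3) (1, 2) = -5 := by norm_num [En]
  have r2 : En (1, 3) (1, 4) = 7 := by norm_num [En]
  have r3 : En (1, 3) (3, 2) = 3 := by norm_num [En]
  have r4 : En (3, 1) (1, 2) = -5 := by norm_num [En]
  have r5 : En (3, 1) (1, 4) = 7 := by norm_num [En]
  have r6 : En (3, 1) (3, 2) = 3 := by norm_num [En]
  rw [q1, q2, q3, r1, r2, r3] at ha
  rw [q4, q5, q6, r4, r5, r6] at hb
  have g1 : G2 1 3 = 10 * Real.pi ^ 4 / 3 + 142 * Real.pi ^ 2 / 9 := by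
    unfold G2; push_cast; ring
  have g2 : G2 3 1 = 30 * Real.pi ^ 4 - 178 * Real.pi ^ 2 := by
    unfold G2; push_cast; ring
  rw [g1] at ha
  rw [g2] at hb
  obtain ⟨ha1, ha2⟩ := abs_le.1 ha
  obtain ⟨hb1, hb2⟩ := abs_le.1 hb
  have hp := Real.pi_lt_d6
  have hp' := Real.pi_gt_d6
  have hp0 := Real.pi_pos
  have hP0 : 0 < Real.pi ^ 2 := by positivity
  have hP1 : 9.8695 < Real.pi ^ 2 := by nlinarith
  have hP2 : Real.pi ^ 2 < 9.8697 := by nlinarith
  have hQ : Real.pi ^ 4 = Real.pi ^ 2 * Real.pi ^ 2 := by ring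
  have hQ1 : 97.4 < Real.pi ^ 4 := by rw [hQ]; nlinarith
  have hQ2 : Real.pi ^ 4 < 97.42 := by rw [hQ]; nlinarith
  have e1 : be 1 3 * Real.pi ^ 2 = (-(4 / 3) * Real.pi ^ 4 + 40 / 9 * Real.pi ^ 2 -
      SS 1 0 (1, 3) (1, 3) + SS 1 0 (3, 1) (3, 1)) / 2 := by
    unfold be BN bas
    push_cast
    field_simp
    ring
  have e2 : al 1 3 = 16 * Real.pi ^ 2 := by unfold al; push_cast; ring
  constructor
  · refine lt_of_mul_lt_mul_right ?_ hP0.le
    rw [e1, e2]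
    have : 16 * Real.pi ^ 2 / 20 * Real.pi ^ 2 = 4 / 5 * Real.pi ^ 4 := by ring
    rw [this]
    linarith
  · refine lt_of_mul_lt_mul_right ?_ hP0.le
    rw [e1, e2]
    have : 16 * Real.pi ^ 2 / 10 * Real.pi ^ 2 = 8 / 5 * Real.pi ^ 4 := by ring
    rw [this]
    linarith

end Pool.SqDrum
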