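import Mathlib
import Pool.Agent.Lib.MP_2805c2_an.SQ.Iface

set_option autoImplicit false

namespace Pool.SqDrum

open MeasureTheory Set Filter Topology

theorem nue_ne {a b : ℕ} (h : Wm 1 1 (1, 2) (a, b) ≠ 0) :
    a % 2 = b % 2 ∧ a ≠ 0 ∧ b ≠ 0 := by
  have h1 : Pm (1, 2) (a, b) ≠ 0 ∨ Pm (2, 1) (b, a) ≠ 0 := by
    by_contra h0
    push Not at h0
    refine h ?_
    simp [Wm, h0.1, h0.2]
  rcases h1 with h1 | h1
  · have h2 : (a + 1) % 2 = 0 ∧ (b + 2) % 2 = 1 := by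
      by_contra h0
      exact h1 (by unfold Pm; rw [if_neg h0])
    omega
  · have h2 : (b + 2) % 2 = 0 ∧ (a + 1) % 2 = 1 := by
      by_contra h0
      exact h1 (by unfold Pm; rw [if_neg h0])
    refine ⟨by omega, ?_, ?_⟩
    · rintro rfl
      exact h1 (by unfold Pm; simp)
    · rintro rfl
      exact h1 (by unfold Pm; simp)

theorem nue_cond (k : ℕ × ℕ) (hS : k ∉ ({(1, 1)} : Finset (ℕ × ℕ)))
    (hk : Wm 1 1 (1, 2) k ≠ 0) : (3 : ℝ) ≤ En (1, 2) k := by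
  obtain ⟨a, b⟩ := k
  obtain ⟨h1, h2, h3⟩ := nue_ne hk
  have h5 : 8 ≤ a ^ 2 + b ^ 2 := by
    by_contra h
    push Not at h
    have h6 : a ≤ 2 := by nlinarith
    have h7 : b ≤ 2 := by nlinarith
    interval_cases a <;> interval_cases b <;> simp_all
  have h4 : (8 : ℝ) ≤ (a : ℝ) ^ 2 + (b : ℝ) ^ 2 := by exact_mod_cast h5
  unfold En
  push_cast
  linarith

theorem nue (hT : TlbStatement) : NueStatement := by
  have ha := hT.2 1 2 {(1, 1)} 3 (by norm_num) (by norm_num) (by norm_num) (by norm_num)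
    (fun k hS hk _ => nue_cond k hS hk)
  rw [Finset.sum_singleton, Finset.sum_singleton] at ha
  have q1 : Wm 1 1 (1, 2) (1, 1) = 56 / 9 := by norm_num [Wm, Pm]
  have q2 : Wm 1 1 (2, 1) (1, 1) = 56 / 9 := by norm_num [Wm, Pm]
  have r1 : En (1, 2) (1, 1) = -3 := by norm_num [En]
  rw [q1, q2, r1] at ha
  have g1 : G2 1 2 = 5 * Real.pi ^ 4 / 3 + 11 * Real.pi ^ 2 / 2 := by
    unfold G2; push_cast; ring
  have g2 : G2 2 1 = 20 * Real.pi ^ 4 / 3 - 38 * Real.pi ^ 2 := by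
    unfold G2; push_cast; ring
  rw [g1, g2] at ha
  obtain ⟨ha1, ha2⟩ := abs_le.1 ha
  have hp := Real.pi_lt_d6
  have hp' := Real.pi_gt_d6
  have hp0 := Real.pi_pos
  have hP0 : 0 < Real.pi ^ 2 := by positivity
  have hP1 : 9.8695 < Real.pi ^ 2 := by nlinarith
  have hP2 : Real.pi ^ 2 < 9.8697 := by nlinarith
  have hQ : Real.pi ^ 4 = Real.pi ^ 2 * Real.pi ^ 2 := by ring
  have hQ1 : 97.4 < Real.pi ^ 4 := by rw [hQ]; nlinarith
  have hQ2 : Real.pi ^ 4 < 97.42 := by rw [hQ]; nlinarith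
  have e1 : ka2 1 2 * Real.pi ^ 2 = 64 / 9 * Real.pi ^ 2 - 5120 / 81 -
      SS 1 1 (1, 2) (2, 1) := by
    unfold ka2 I2 I0
    push_cast
    have hne : Real.pi ≠ 0 := hp0.ne'
    field_simp
    ring
  have e2 : ka1 1 2 = -(256 / 9) := by unfold ka1; push_cast; norm_num
  unfold NueStatement
  refine lt_of_mul_lt_mul_right ?_ hP0.le
  rw [e1, e2]
  linarith

end Pool.SqDrum
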