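import Mathlib
import Pool.Agent.Lib.MP_2805c2_an.SQ.Iface

set_option autoImplicit false

namespace Pool.SqDrum

open MeasureTheory Set Filter Topology

def nuf_S : Finset (ℕ × ℕ) := {(1, 1), (2, 2), (1, 3), (3, 1), (3, 3), (2, 4), (4, 2)}

theorem nuf_ne {a b : ℕ} (h : Wm 1 1 (1, 4) (a, b) ≠ 0) :
    a % 2 = b % 2 ∧ a ≠ 0 ∧ b ≠ 0 := by
  have h1 : Pm (1, 4) (a, b) ≠ 0 ∨ Pm (4, 1) (b, a) ≠ 0 := by
    by_contra h0
    push Not at h0
    refine h ?_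
    simp [Wm, h0.1, h0.2]
  rcases h1 with h1 | h1
  · have h2 : (a + 1) % 2 = 0 ∧ (b + 4) % 2 = 1 := by
      by_contra h0
      exact h1 (by unfold Pm; rw [if_neg h0])
    omega
  · have h2 : (b + 4) % 2 = 0 ∧ (a + 1) % 2 = 1 := by
      by_contra h0
      exact h1 (by unfold Pm; rw [if_neg h0])
    refine ⟨by omega, ?_, ?_⟩
    · rintro rfl
      exact h1 (by unfold Pm; simp)
    · rintro rfl
      exact h1 (by unfold Pm; simp)

theorem nuf_c (a b : ℕ) (hab : a % 2 = b % 2) (ha : a ≠ 0) (hb : b ≠ 0)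
    (hS : (a, b) ∉ nuf_S) : 26 ≤ a ^ 2 + b ^ 2 := by
  by_contra h
  push Not at h
  have h1 : a ≤ 5 := by nlinarith
  have h2 : b ≤ 5 := by nlinarith
  interval_cases a <;> interval_cases b <;> simp_all [nuf_S]

theorem nuf_cond (k : ℕ × ℕ) (hS : k ∉ nuf_S)
    (hk : Wm 1 1 (1, 4) k ≠ 0) : (9 : ℝ) ≤ En (1, 4) k := by
  obtain ⟨a, b⟩ := k
  obtain ⟨h1, h2, h3⟩ := nuf_ne hk
  have h4 : (26 : ℝ) ≤ (a : ℝ) ^ 2 + (b : ℝ) ^ 2 := by exact_mod_cast nuf_c a b h1 h2 h3 hS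
  unfold En
  push_cast
  linarith

theorem nuf_sum (f : ℕ × ℕ → ℝ) : ∑ k ∈ nuf_S, f k =
    f (1, 1) + f (2, 2) + f (1, 3) + f (3, 1) + f (3, 3) + f (2, 4) + f (4, 2) := by
  unfold nuf_S
  rw [Finset.sum_insert (by decide), Finset.sum_insert (by decide),
    Finset.sum_insert (by decide), Finset.sum_insert (by decide),
    Finset.sum_insert (by decide), Finset.sum_insert (by decide), Finset.sum_singleton]
  ring

theorem nuf (hT : TlbStatement) : NufStatement := by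
  have ha := hT.2 1 4 nuf_S 9 (by norm_num) (by norm_num) (by norm_num) (by norm_num)
    (fun k hS hk _ => nuf_cond k hS hk)
  rw [nuf_sum, nuf_sum] at ha
  have q1 : Wm 1 1 (1, 4) (1, 1) = 304 / 225 := by norm_num [Wm, Pm]
  have q2 : Wm 1 1 (4, 1) (1, 1) = 304 / 225 := by norm_num [Wm, Pm]
  have q3 : Wm 1 1 (1, 4) (2, 2) = 64 / 9 := by norm_num [Wm, Pm]
  have q4 : Wm 1 1 (4, 1) (2, 2) = 64 / 9 := by norm_num [Wm, Pm]
  have q5 : Wm 1 1 (1, 4) (1, 3) = 528 / 49 := by norm_num [Wm, Pm]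
  have q6 : Wm 1 1 (4, 1) (1, 3) = 8 / 5 := by norm_num [Wm, Pm]
  have q7 : Wm 1 1 (1, 4) (3, 1) = 8 / 5 := by norm_num [Wm, Pm]
  have q8 : Wm 1 1 (4, 1) (3, 1) = 528 / 49 := by norm_num [Wm, Pm]
  have q9 : Wm 1 1 (1, 4) (3, 3) = 72 / 7 := by norm_num [Wm, Pm]
  have q10 : Wm 1 1 (4, 1) (3, 3) = 72 / 7 := by norm_num [Wm, Pm]
  have q11 : Wm 1 1 (1, 4) (2, 4) = 488 / 9 := by norm_num [Wm, Pm]
  have q12 : Wm 1 1 (4, 1) (2, 4) = 128 / 45 := by norm_num [Wm, Pm]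
  have q13 : Wm 1 1 (1, 4) (4, 2) = 128 / 45 := by norm_num [Wm, Pm]
  have q14 : Wm 1 1 (4, 1) (4, 2) = 488 / 9 := by norm_num [Wm, Pm]
  have r1 : En (1, 4) (1, 1) = -15 := by norm_num [En]
  have r2 : En (1, 4) (2, 2) = -9 := by norm_num [En]
  have r3 : En (1, 4) (1, 3) = -7 := by norm_num [En]
  have r4 : En (1, 4) (3, 1) = -7 := by norm_num [En]
  have r5 : En (1, 4) (3, 3) = 1 := by norm_num [En]
  have r6 : En (1, 4) (2, 4) = 3 := by norm_num [En]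
  have r7 : En (1, 4) (4, 2) = 3 := by norm_num [En]
  rw [q1, q2, q3, q4, q5, q6, q7, q8, q9, q10, q11, q12, q13, q14, r1, r2, r3, r4, r5, r6, r7]
    at ha
  have g1 : G2 1 4 = 17 * Real.pi ^ 4 / 3 + 239 * Real.pi ^ 2 / 8 := by
    unfold G2; push_cast; ring
  have g2 : G2 4 1 = 272 * Real.pi ^ 4 / 3 - 542 * Real.pi ^ 2 := by
    unfold G2; push_cast; ring
  rw [g1, g2] at ha
  obtain ⟨ha1, ha2⟩ := abs_le.1 ha
  have hp := Real.pi_lt_d6
  have hp' := Real.pi_gt_d6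
  have hp0 := Real.pi_pos
  have hP0 : 0 < Real.pi ^ 2 := by positivity
  have hP1 : 9.8695 < Real.pi ^ 2 := by nlinarith
  have hP2 : Real.pi ^ 2 < 9.8697 := by nlinarith
  have hQ : Real.pi ^ 4 = Real.pi ^ 2 * Real.pi ^ 2 := by ring
  have hQ1 : 97.4 < Real.pi ^ 4 := by rw [hQ]; nlinarith
  have hQ2 : Real.pi ^ 4 < 97.42 := by rw [hQ]; nlinarith
  have e1 : ka2 1 4 * Real.pi ^ 2 = 256 / 225 * Real.pi ^ 2 - 69632 / 50625 -
      SS 1 1 (1, 4) (4, 1) := by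
    unfold ka2 I2 I0
    push_cast
    have hne : Real.pi ≠ 0 := hp0.ne'
    field_simp
    ring
  have e2 : ka1 1 4 = -(1024 / 225) := by unfold ka1; push_cast; norm_num
  unfold NufStatement
  refine lt_of_mul_lt_mul_right ?_ hP0.le
  rw [e1, e2]
  linarith

end Pool.SqDrum
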