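import Mathlib
import Pool.Agent.Lib.MP_2805c2_an.SQ.Iface

set_option autoImplicit false

/-! # OPX: second order expansion of the operators along curves -/

namespace Pool.SqDrum

open MeasureTheory Set Filter Topology Asymptotics
open scoped ENNReal ContDiff InnerProductSpace

noncomputable section

theorem opx_co_norm (Ω : Set P2) (i : Fin 3) : ‖co Ω i‖ ≤ 1 := by
  refine ContinuousLinearMap.opNorm_le_bound _ zero_le_one fun F => ?_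
  rw [one_mul, co_apply]
  exact PiLp.norm_apply_le (F : LL) i

/-- the operator `frm` as a function of the multiplication operators -/
def opx_fr (P Q R S : L2 →L[ℝ] L2) : H D →L[ℝ] H D :=
  (co D 1).adjoint.comp (P.comp (co D 1)) + (co D 1).adjoint.comp (Q.comp (co D 2)) +
  (co D 2).adjoint.comp (Q.comp (co D 1)) + (co D 2).adjoint.comp (R.comp (co D 2)) +
  (co D 0).adjoint.comp (S.comp (co D 0))

theorem opx_frm (m11 m12 m22 m0 : P2 → ℝ) : frm D m11 m12 m22 m0 =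
    opx_fr (mul (D.indicator m11)) (mul (D.indicator m12)) (mul (D.indicator m22))
      (mul (D.indicator m0)) := rfl

theorem opx_comp_norm (i j : Fin 3) (P : L2 →L[ℝ] L2) :
    ‖(co D i).adjoint.comp (P.comp (co D j))‖ ≤ ‖P‖ := by
  have h1 : ‖(co D i).adjoint‖ ≤ 1 := by
    rw [LinearIsometryEquiv.norm_map]
    exact opx_co_norm D i
  have h2 := opx_co_norm D j
  calc ‖(co D i).adjoint.comp (P.comp (co D j))‖ ≤ ‖(co D i).adjoint‖ * ‖P.comp (co D j)‖ :=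
        ContinuousLinearMap.opNorm_comp_le _ _
    _ ≤ 1 * (‖P‖ * ‖co D j‖) :=
        mul_le_mul h1 (ContinuousLinearMap.opNorm_comp_le _ _) (by positivity) zero_le_one
    _ ≤ 1 * (‖P‖ * 1) := by gcongr
    _ = ‖P‖ := by ring

theorem opx_fr_norm (P Q R S : L2 →L[ℝ] L2) :
    ‖opx_fr P Q R S‖ ≤ ‖P‖ + 2 * ‖Q‖ + ‖R‖ + ‖S‖ := by
  unfold opx_fr
  have h1 := opx_comp_norm 1 1 P
  have h2 := opx_comp_norm 1 2 Q
  have h3 := opx_comp_norm 2 1 Q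
  have h4 := opx_comp_norm 2 2 R
  have h5 := opx_comp_norm 0 0 S
  have k1 := norm_add_le ((co D 1).adjoint.comp (P.comp (co D 1)) +
    (co D 1).adjoint.comp (Q.comp (co D 2)) + (co D 2).adjoint.comp (Q.comp (co D 1)) +
    (co D 2).adjoint.comp (R.comp (co D 2))) ((co D 0).adjoint.comp (S.comp (co D 0)))
  have k2 := norm_add_le ((co D 1).adjoint.comp (P.comp (co D 1)) +
    (co D 1).adjoint.comp (Q.comp (co D 2)) + (co D 2).adjoint.comp (Q.comp (co D 1)))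
    ((co D 2).adjoint.comp (R.comp (co D 2)))
  have k3 := norm_add_le ((co D 1).adjoint.comp (P.comp (co D 1)) +
    (co D 1).adjoint.comp (Q.comp (co D 2))) ((co D 2).adjoint.comp (Q.comp (co D 1)))
  have k4 := norm_add_le ((co D 1).adjoint.comp (P.comp (co D 1)))
    ((co D 1).adjoint.comp (Q.comp (co D 2)))
  linarith

theorem opx_D_meas : MeasurableSet D := by
  unfold D Sq
  exact measurableSet_Ioo.prod measurableSet_Ioo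

theorem opx_D_bd {x : P2} (hx : x ∈ D) : x ∈ Icc (-1 : ℝ) 1 ×ˢ Icc (-1 : ℝ) 1 := by
  have h : x ∈ Ioo (-1/2 : ℝ) (-1/2 + 1) ×ˢ Ioo (-1/2 : ℝ) (-1/2 + 1) := hx
  obtain ⟨h1, h2⟩ := Set.mem_prod.1 h
  exact Set.mem_prod.2 ⟨⟨by linarith [h1.1], by linarith [h1.2]⟩,
    ⟨by linarith [h2.1], by linarith [h2.2]⟩⟩

/-- bounded measurable functions on `D` -/
def OBd (m : P2 → ℝ) : Prop := Measurable m ∧ ∃ C : ℝ, 0 ≤ C ∧ ∀ x ∈ D, |m x| ≤ C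

theorem OBd.memLp {m : P2 → ℝ} (h : OBd m) :
    MemLp (D.indicator m) ⊤ (volume : Measure P2) := by
  obtain ⟨h1, C, hC, h2⟩ := h
  exact memLp_top_ind opx_D_meas h1 hC h2

theorem OBd.add {m m' : P2 → ℝ} (h : OBd m) (h' : OBd m') : OBd (m + m') := by
  obtain ⟨h1, C, hC, h2⟩ := h
  obtain ⟨h1', C', hC', h2'⟩ := h'
  exact ⟨h1.add h1', C + C', by positivity, fun x hx =>
    (abs_add_le _ _).trans (add_le_add (h2 x hx) (h2' x hx))⟩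

theorem OBd.smul {m : P2 → ℝ} (c : ℝ) (h : OBd m) : OBd (c • m) := by
  obtain ⟨h1, C, hC, h2⟩ := h
  refine ⟨h1.const_smul c, |c| * C, by positivity, fun x hx => ?_⟩
  rw [Pi.smul_apply, smul_eq_mul, abs_mul]
  exact mul_le_mul_of_nonneg_left (h2 x hx) (abs_nonneg _)

theorem OBd.of_cont {m : P2 → ℝ} (h : Continuous m) : OBd m := by
  refine ⟨h.measurable, ?_⟩
  obtain ⟨C, hC⟩ := (isCompact_Icc.prod isCompact_Icc : IsCompact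
    (Icc (-1 : ℝ) 1 ×ˢ Icc (-1 : ℝ) 1)).exists_bound_of_continuousOn h.continuousOn
  refine ⟨|C|, abs_nonneg _, fun x hx => ?_⟩
  have := hC x (opx_D_bd hx)
  rw [Real.norm_eq_abs] at this
  exact this.trans (le_abs_self _)

theorem opx_mul_add {m m' : P2 → ℝ} (h : OBd m) (h' : OBd m') :
    mul (D.indicator (m + m')) = mul (D.indicator m) + mul (D.indicator m') := by
  rw [Set.indicator_add', mul_add h.memLp h'.memLp]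

theorem opx_mul_smul {m : P2 → ℝ} (c : ℝ) (h : OBd m) :
    mul (D.indicator (c • m)) = c • mul (D.indicator m) := by
  have : D.indicator (c • m) = c • D.indicator m := Set.indicator_const_smul D c m
  rw [this, mul_smul c h.memLp]

theorem opx_mul_norm {m : P2 → ℝ} {C : ℝ} (hC : 0 ≤ C) (h : ∀ x ∈ D, |m x| ≤ C) :
    ‖mul (D.indicator m)‖ ≤ C := by
  refine mul_norm_le hC fun x => ?_
  by_cases hx : x ∈ D
  · simpa [hx] using h x hx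
  · simpa [hx] using hC

/-- comparison of a coefficient with its expansion -/
theorem opx_est {m m0 m1 m2 : P2 → ℝ} (t : ℝ) {C : ℝ} (hm : OBd m) (h0 : OBd m0) (h1 : OBd m1)
    (h2 : OBd m2) (hC : 0 ≤ C) (h : ∀ x ∈ D, |m x - (m0 x + t * m1 x + t ^ 2 * m2 x)| ≤ C) :
    ‖mul (D.indicator m) - (mul (D.indicator m0) + t • mul (D.indicator m1) +
      t ^ 2 • mul (D.indicator m2))‖ ≤ C := by
  have e : mul (D.indicator m) - (mul (D.indicator m0) + t • mul (D.indicator m1) +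
      t ^ 2 • mul (D.indicator m2)) =
      mul (D.indicator (m + (-1 : ℝ) • (m0 + t • m1 + t ^ 2 • m2))) := by
    rw [opx_mul_add hm (((h0.add (h1.smul t)).add (h2.smul _)).smul _),
      opx_mul_smul _ ((h0.add (h1.smul t)).add (h2.smul _)),
      opx_mul_add (h0.add (h1.smul t)) (h2.smul _), opx_mul_add h0 (h1.smul t),
      opx_mul_smul _ h1, opx_mul_smul _ h2]
    rw [neg_one_smul, sub_eq_add_neg]
  rw [e]
  refine opx_mul_norm hC fun x hx => ?_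
  have := h x hx
  simp only [Pi.add_apply, Pi.smul_apply, smul_eq_mul]
  rw [show m x + -1 * (m0 x + t * m1 x + t ^ 2 * m2 x) =
    m x - (m0 x + t * m1 x + t ^ 2 * m2 x) by ring]
  exact this

/-- the Jacobian along the curve -/
def oJ (a b δ τ t : ℝ) (x : P2) : ℝ :=
  det2 (px (curve a b δ τ t) x) (py (curve a b δ τ t) x)

theorem oJ_eq (a b δ τ t : ℝ) (x : P2) : oJ a b δ τ t x =
    (1 + δ * t ^ 2 + x.2 * (a * t)) * (1 - δ * t ^ 2 + x.1 * (b * t)) -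
      (τ * t ^ 2 + x.2 * (b * t)) * (τ * t ^ 2 + x.1 * (a * t)) := by
  simp [oJ, det2, px, py, va, vb, vw, curve]

theorem opx_dyy (a b δ τ t : ℝ) (x : P2) :
    dot2 (py (curve a b δ τ t) x) (py (curve a b δ τ t) x) =
      (τ * t ^ 2 + x.1 * (a * t)) ^ 2 + (1 - δ * t ^ 2 + x.1 * (b * t)) ^ 2 := by
  simp [dot2, py, vb, vw, curve]; ring

theorem opx_dxy (a b δ τ t : ℝ) (x : P2) :
    dot2 (px (curve a b δ τ t) x) (py (curve a b δ τ t) x) =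
      (1 + δ * t ^ 2 + x.2 * (a * t)) * (τ * t ^ 2 + x.1 * (a * t)) +
      (τ * t ^ 2 + x.2 * (b * t)) * (1 - δ * t ^ 2 + x.1 * (b * t)) := by
  simp [dot2, px, py, va, vb, vw, curve]

theorem opx_dxx (a b δ τ t : ℝ) (x : P2) :
    dot2 (px (curve a b δ τ t) x) (px (curve a b δ τ t) x) =
      (1 + δ * t ^ 2 + x.2 * (a * t)) ^ 2 + (τ * t ^ 2 + x.2 * (b * t)) ^ 2 := by
  simp [dot2, px, va, vw, curve]; ring

/-- polynomials of `t` and `x` are bounded on `[-1,1] × D` -/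
theorem opx_bdd {R : ℝ × P2 → ℝ} (h : Continuous R) :
    ∃ C : ℝ, 0 ≤ C ∧ ∀ t : ℝ, |t| ≤ 1 → ∀ x ∈ D, |R (t, x)| ≤ C := by
  obtain ⟨C, hC⟩ := (isCompact_Icc.prod (isCompact_Icc.prod isCompact_Icc) : IsCompact
    (Icc (-1 : ℝ) 1 ×ˢ (Icc (-1 : ℝ) 1 ×ˢ Icc (-1 : ℝ) 1))).exists_bound_of_continuousOn
      h.continuousOn
  refine ⟨|C|, abs_nonneg _, fun t ht x hx => ?_⟩
  have := hC (t, x) (Set.mem_prod.2 ⟨abs_le.1 ht, opx_D_bd hx⟩)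
  rw [Real.norm_eq_abs] at this
  exact this.trans (le_abs_self _)

theorem oJ_lower (a b δ τ : ℝ) : ∃ r : ℝ, 0 < r ∧ r ≤ 1 ∧ ∀ t : ℝ, |t| ≤ r → ∀ x ∈ D,
    1 / 2 ≤ oJ a b δ τ t x := by
  obtain ⟨C, hC, h⟩ := opx_bdd (R := fun p : ℝ × P2 => (p.2.1 * b + p.2.2 * a) +
    p.1 ^ 2 * (δ * p.2.1 * b - δ * p.2.2 * a - τ * p.2.1 * a - τ * p.2.2 * b) +
    p.1 ^ 3 * (-δ ^ 2 - τ ^ 2)) (by fun_prop)
  refine ⟨min 1 (1 / (2 * (C + 1))), by positivity, min_le_left _ _, fun t ht x hx => ?_⟩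
  have h1 : |t| ≤ 1 := ht.trans (min_le_left _ _)
  have h2 : |t| ≤ 1 / (2 * (C + 1)) := ht.trans (min_le_right _ _)
  have h3 := h t h1 x hx
  have h4 : oJ a b δ τ t x = 1 + t * ((x.1 * b + x.2 * a) +
    t ^ 2 * (δ * x.1 * b - δ * x.2 * a - τ * x.1 * a - τ * x.2 * b) +
    t ^ 3 * (-δ ^ 2 - τ ^ 2)) := by
    rw [oJ_eq]; ring
  rw [h4]
  have h5 : |t * ((x.1 * b + x.2 * a) +
    t ^ 2 * (δ * x.1 * b - δ * x.2 * a - τ * x.1 * a - τ * x.2 * b) +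
    t ^ 3 * (-δ ^ 2 - τ ^ 2))| ≤ 1 / 2 := by
    rw [abs_mul]
    calc _ ≤ 1 / (2 * (C + 1)) * C := mul_le_mul h2 h3 (abs_nonneg _) (by positivity)
      _ ≤ 1 / (2 * (C + 1)) * (C + 1) := by gcongr; linarith
      _ = 1 / 2 := by field_simp
  linarith [(abs_le.1 h5).1]

theorem opx_cont_px (a b δ τ t : ℝ) : Continuous (px (curve a b δ τ t)) := by
  unfold px; fun_prop

theorem opx_cont_py (a b δ τ t : ℝ) : Continuous (py (curve a b δ τ t)) := by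
  unfold py; fun_prop

theorem opx_cont_J (a b δ τ t : ℝ) : Continuous (oJ a b δ τ t) := by
  have h := opx_cont_px a b δ τ t
  have h' := opx_cont_py a b δ τ t
  unfold oJ det2; fun_prop

/-- the quotients are bounded and close to their expansions -/
theorem opx_quot (a b δ τ : ℝ) (N : ℝ → P2 → ℝ) (m0 m1 m2 : P2 → ℝ) (R : ℝ × P2 → ℝ)
    (hN : ∀ t, Continuous (N t)) (hR : Continuous R)
    (h : ∀ t x, N t x - (m0 x + t * m1 x + t ^ 2 * m2 x) * oJ a b δ τ t x = t ^ 3 * R (t, x)) :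
    ∃ C : ℝ, 0 ≤ C ∧ ∀ᶠ t in 𝓝 (0 : ℝ),
      OBd (fun x => N t x / |oJ a b δ τ t x|) ∧
      ∀ x ∈ D, |N t x / |oJ a b δ τ t x| - (m0 x + t * m1 x + t ^ 2 * m2 x)| ≤ C * |t| ^ 3 := by
  obtain ⟨r, hr, hr1, hJ⟩ := oJ_lower a b δ τ
  obtain ⟨C, hC, hb⟩ := opx_bdd hR
  refine ⟨2 * C, by positivity, ?_⟩
  have hev : ∀ᶠ t in 𝓝 (0 : ℝ), |t| ≤ r := by
    have : Tendsto (fun t : ℝ => |t|) (𝓝 0) (𝓝 0) := by
      simpa using (continuous_abs (G := ℝ)).tendsto 0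
    exact this.eventually (ge_mem_nhds hr)
  filter_upwards [hev] with t ht
  constructor
  · refine ⟨(hN t).measurable.div (opx_cont_J a b δ τ t).measurable.abs, ?_⟩
    obtain ⟨_, C', hC', h2⟩ := OBd.of_cont (hN t)
    refine ⟨2 * C', by positivity, fun x hx => ?_⟩
    have h3 := hJ t ht x hx
    rw [abs_div, abs_abs, abs_of_nonneg (by linarith : 0 ≤ oJ a b δ τ t x), div_le_iff₀ (by linarith)]
    have h4 := h2 x hx
    nlinarith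
  · intro x hx
    have h3 := hJ t ht x hx
    rw [abs_of_nonneg (by linarith : 0 ≤ oJ a b δ τ t x)]
    have h4 : N t x / oJ a b δ τ t x - (m0 x + t * m1 x + t ^ 2 * m2 x) =
        t ^ 3 * R (t, x) / oJ a b δ τ t x := by
      rw [← h t x]
      have : oJ a b δ τ t x ≠ 0 := by linarith
      field_simp
    rw [h4, abs_div, abs_mul, abs_pow, abs_of_nonneg (by linarith : 0 ≤ oJ a b δ τ t x),
      div_le_iff₀ (by linarith)]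
    have h5 := hb t (ht.trans hr1) x hx
    have h6 : 0 ≤ |t| ^ 3 := by positivity
    calc |t| ^ 3 * |R (t, x)| ≤ |t| ^ 3 * C := by gcongr
      _ = (2 * C * |t| ^ 3) * (1 / 2) := by ring
      _ ≤ 2 * C * |t| ^ 3 * oJ a b δ τ t x := by gcongr

theorem opx_mul_zero : mul (D.indicator (0 : P2 → ℝ)) = 0 := by
  have h : OBd (0 : P2 → ℝ) := OBd.of_cont continuous_const
  have := opx_mul_smul 0 h
  simpa using this

theorem opx_c11 (a b δ τ : ℝ) : ∃ C : ℝ, 0 ≤ C ∧ ∀ᶠ t in 𝓝 (0 : ℝ),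
    OBd (c11 (px (curve a b δ τ t)) (py (curve a b δ τ t))) ∧
    ∀ x ∈ D, |c11 (px (curve a b δ τ t)) (py (curve a b δ τ t)) x -
      (1 + t * (b * x.1 - a * x.2) + t ^ 2 * ((x.1 ^ 2 + x.2 ^ 2) * a ^ 2 - 2 * δ))| ≤
        C * |t| ^ 3 := by
  refine opx_quot a b δ τ
    (fun t x => dot2 (py (curve a b δ τ t) x) (py (curve a b δ τ t) x)) (fun _ => 1)
    (fun x => b * x.1 - a * x.2) (fun x => (x.1 ^ 2 + x.2 ^ 2) * a ^ 2 - 2 * δ)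
    (fun p =>
      2 * τ ^ 2 * p.1 - 2 * δ * τ ^ 2 * p.1 ^ 3 + 2 * δ ^ 2 * p.1 - 2 * δ ^ 3 * p.1 ^ 3 + b * τ
        * p.2.2 + b * τ ^ 2 * p.1 ^ 2 * p.2.1 - b * δ * p.2.1 - 2 * b * δ * τ * p.1 ^ 2 * p.2.2
        + 3 * b * δ ^ 2 * p.1 ^ 2 * p.2.1 + b ^ 2 * τ * p.1 * p.2.1 * p.2.2 - b ^ 2 * δ * p.1 *
        p.2.1 ^ 2 + 3 * a * τ * p.2.1 - a * τ ^ 2 * p.1 ^ 2 * p.2.2 + 3 * a * δ * p.2.2 - 2 * a
        * δ * τ * p.1 ^ 2 * p.2.1 - 3 * a * δ ^ 2 * p.1 ^ 2 * p.2.2 - a * b * τ * p.1 * p.2.2 ^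
        2 + a * b * τ * p.1 * p.2.1 ^ 2 + 2 * a * b * δ * p.1 * p.2.1 * p.2.2 - a ^ 2 * τ * p.1
        * p.2.1 * p.2.2 + a ^ 2 * τ ^ 2 * p.1 ^ 3 * p.2.2 ^ 2 + a ^ 2 * τ ^ 2 * p.1 ^ 3 * p.2.1
        ^ 2 - a ^ 2 * δ * p.1 * p.2.2 ^ 2 + a ^ 2 * δ ^ 2 * p.1 ^ 3 * p.2.2 ^ 2 + a ^ 2 * δ ^ 2
        * p.1 ^ 3 * p.2.1 ^ 2 - a ^ 2 * b * p.2.1 * p.2.2 ^ 2 - a ^ 2 * b * p.2.1 ^ 3 + a ^ 2 *
        b * τ * p.1 ^ 2 * p.2.2 ^ 3 + a ^ 2 * b * τ * p.1 ^ 2 * p.2.1 ^ 2 * p.2.2 - a ^ 2 * b *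
        δ * p.1 ^ 2 * p.2.1 * p.2.2 ^ 2 - a ^ 2 * b * δ * p.1 ^ 2 * p.2.1 ^ 3 - a ^ 3 * p.2.2 ^
        3 - a ^ 3 * p.2.1 ^ 2 * p.2.2 + a ^ 3 * τ * p.1 ^ 2 * p.2.1 * p.2.2 ^ 2 + a ^ 3 * τ *
        p.1 ^ 2 * p.2.1 ^ 3 + a ^ 3 * δ * p.1 ^ 2 * p.2.2 ^ 3 + a ^ 3 * δ * p.1 ^ 2 * p.2.1 ^ 2
        * p.2.2)
    (fun t => ?_) (by fun_prop) (fun t x => ?_)
  · have := opx_cont_py a b δ τ t
    unfold dot2; fun_prop
  · rw [opx_dyy, oJ_eq]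
    ring

theorem opx_c12 (a b δ τ : ℝ) : ∃ C : ℝ, 0 ≤ C ∧ ∀ᶠ t in 𝓝 (0 : ℝ),
    OBd (c12 (px (curve a b δ τ t)) (py (curve a b δ τ t))) ∧
    ∀ x ∈ D, |c12 (px (curve a b δ τ t)) (py (curve a b δ τ t)) x -
      (0 + t * (-(a * x.1 + b * x.2)) + t ^ 2 * ((x.1 ^ 2 + x.2 ^ 2) * (a * b) - 2 * τ))| ≤
        C * |t| ^ 3 := by
  refine opx_quot a b δ τ
    (fun t x => -dot2 (px (curve a b δ τ t) x) (py (curve a b δ τ t) x)) (fun _ => 0)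
    (fun x => -(a * x.1 + b * x.2)) (fun x => (x.1 ^ 2 + x.2 ^ 2) * (a * b) - 2 * τ)
    (fun p =>
      - 2 * τ ^ 3 * p.1 ^ 3 - 2 * δ ^ 2 * τ * p.1 ^ 3 + b * τ * p.2.1 - 3 * b * τ ^ 2 * p.1 ^ 2
        * p.2.2 + b * δ * p.2.2 + 2 * b * δ * τ * p.1 ^ 2 * p.2.1 - b * δ ^ 2 * p.1 ^ 2 * p.2.2
        - b ^ 2 * τ * p.1 * p.2.2 ^ 2 + b ^ 2 * δ * p.1 * p.2.1 * p.2.2 + a * τ * p.2.2 - 3 * a
        * τ ^ 2 * p.1 ^ 2 * p.2.1 - a * δ * p.2.1 - 2 * a * δ * τ * p.1 ^ 2 * p.2.2 - a * δ ^ 2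
        * p.1 ^ 2 * p.2.1 - 2 * a * b * τ * p.1 * p.2.1 * p.2.2 + a * b * τ ^ 2 * p.1 ^ 3 *
        p.2.2 ^ 2 + a * b * τ ^ 2 * p.1 ^ 3 * p.2.1 ^ 2 - a * b * δ * p.1 * p.2.2 ^ 2 + a * b *
        δ * p.1 * p.2.1 ^ 2 + a * b * δ ^ 2 * p.1 ^ 3 * p.2.2 ^ 2 + a * b * δ ^ 2 * p.1 ^ 3 *
        p.2.1 ^ 2 - a * b ^ 2 * p.2.1 * p.2.2 ^ 2 - a * b ^ 2 * p.2.1 ^ 3 + a * b ^ 2 * τ * p.1
        ^ 2 * p.2.2 ^ 3 + a * b ^ 2 * τ * p.1 ^ 2 * p.2.1 ^ 2 * p.2.2 - a * b ^ 2 * δ * p.1 ^ 2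
        * p.2.1 * p.2.2 ^ 2 - a * b ^ 2 * δ * p.1 ^ 2 * p.2.1 ^ 3 - a ^ 2 * τ * p.1 * p.2.1 ^ 2
        - a ^ 2 * δ * p.1 * p.2.1 * p.2.2 - a ^ 2 * b * p.2.2 ^ 3 - a ^ 2 * b * p.2.1 ^ 2 *
        p.2.2 + a ^ 2 * b * τ * p.1 ^ 2 * p.2.1 * p.2.2 ^ 2 + a ^ 2 * b * τ * p.1 ^ 2 * p.2.1 ^
        3 + a ^ 2 * b * δ * p.1 ^ 2 * p.2.2 ^ 3 + a ^ 2 * b * δ * p.1 ^ 2 * p.2.1 ^ 2 * p.2.2)
    (fun t => ?_) (by fun_prop) (fun t x => ?_)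
  · have := opx_cont_py a b δ τ t
    have := opx_cont_px a b δ τ t
    unfold dot2; fun_prop
  · rw [opx_dxy, oJ_eq]
    ring

theorem opx_c22 (a b δ τ : ℝ) : ∃ C : ℝ, 0 ≤ C ∧ ∀ᶠ t in 𝓝 (0 : ℝ),
    OBd (c22 (px (curve a b δ τ t)) (py (curve a b δ τ t))) ∧
    ∀ x ∈ D, |c22 (px (curve a b δ τ t)) (py (curve a b δ τ t)) x -
      (1 + t * (a * x.2 - b * x.1) + t ^ 2 * ((x.1 ^ 2 + x.2 ^ 2) * b ^ 2 + 2 * δ))| ≤
        C * |t| ^ 3 := by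
  refine opx_quot a b δ τ
    (fun t x => dot2 (px (curve a b δ τ t) x) (px (curve a b δ τ t) x)) (fun _ => 1)
    (fun x => a * x.2 - b * x.1) (fun x => (x.1 ^ 2 + x.2 ^ 2) * b ^ 2 + 2 * δ)
    (fun p =>
      2 * τ ^ 2 * p.1 + 2 * δ * τ ^ 2 * p.1 ^ 3 + 2 * δ ^ 2 * p.1 + 2 * δ ^ 3 * p.1 ^ 3 + 3 * b
        * τ * p.2.2 - b * τ ^ 2 * p.1 ^ 2 * p.2.1 - 3 * b * δ * p.2.1 + 2 * b * δ * τ * p.1 ^ 2
        * p.2.2 - 3 * b * δ ^ 2 * p.1 ^ 2 * p.2.1 - b ^ 2 * τ * p.1 * p.2.1 * p.2.2 + b ^ 2 * τ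
        ^ 2 * p.1 ^ 3 * p.2.2 ^ 2 + b ^ 2 * τ ^ 2 * p.1 ^ 3 * p.2.1 ^ 2 + b ^ 2 * δ * p.1 *
        p.2.1 ^ 2 + b ^ 2 * δ ^ 2 * p.1 ^ 3 * p.2.2 ^ 2 + b ^ 2 * δ ^ 2 * p.1 ^ 3 * p.2.1 ^ 2 -
        b ^ 3 * p.2.1 * p.2.2 ^ 2 - b ^ 3 * p.2.1 ^ 3 + b ^ 3 * τ * p.1 ^ 2 * p.2.2 ^ 3 + b ^ 3
        * τ * p.1 ^ 2 * p.2.1 ^ 2 * p.2.2 - b ^ 3 * δ * p.1 ^ 2 * p.2.1 * p.2.2 ^ 2 - b ^ 3 * δ
        * p.1 ^ 2 * p.2.1 ^ 3 + a * τ * p.2.1 + a * τ ^ 2 * p.1 ^ 2 * p.2.2 + a * δ * p.2.2 + 2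
        * a * δ * τ * p.1 ^ 2 * p.2.1 + 3 * a * δ ^ 2 * p.1 ^ 2 * p.2.2 + a * b * τ * p.1 *
        p.2.2 ^ 2 - a * b * τ * p.1 * p.2.1 ^ 2 - 2 * a * b * δ * p.1 * p.2.1 * p.2.2 - a * b ^
        2 * p.2.2 ^ 3 - a * b ^ 2 * p.2.1 ^ 2 * p.2.2 + a * b ^ 2 * τ * p.1 ^ 2 * p.2.1 * p.2.2
        ^ 2 + a * b ^ 2 * τ * p.1 ^ 2 * p.2.1 ^ 3 + a * b ^ 2 * δ * p.1 ^ 2 * p.2.2 ^ 3 + a * b
        ^ 2 * δ * p.1 ^ 2 * p.2.1 ^ 2 * p.2.2 + a ^ 2 * τ * p.1 * p.2.1 * p.2.2 + a ^ 2 * δ *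
        p.1 * p.2.2 ^ 2)
    (fun t => ?_) (by fun_prop) (fun t x => ?_)
  · have := opx_cont_px a b δ τ t
    unfold dot2; fun_prop
  · rw [opx_dxx, oJ_eq]
    ring

theorem opx_jc (l a b δ τ : ℝ) : ∃ C : ℝ, 0 ≤ C ∧ ∀ᶠ t in 𝓝 (0 : ℝ),
    ∀ x ∈ D, |(((-l) • jc (px (curve a b δ τ t)) (py (curve a b δ τ t)) : P2 → ℝ)) x -
      (-l + t * (-l * (a * x.2 + b * x.1)) + t ^ 2 * 0)| ≤ C * |t| ^ 3 := by
  obtain ⟨r, hr, hr1, hJ⟩ := oJ_lower a b δ τ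
  obtain ⟨C, hC, hb⟩ := opx_bdd (R := fun p : ℝ × P2 => -l * (
      - τ ^ 2 * p.1 - δ ^ 2 * p.1 - b * τ * p.2.2 + b * δ * p.2.1 - a * τ * p.2.1 - a * δ *
        p.2.2)) (by fun_prop)
  refine ⟨C, hC, ?_⟩
  have hev : ∀ᶠ t in 𝓝 (0 : ℝ), |t| ≤ r := by
    have : Tendsto (fun t : ℝ => |t|) (𝓝 0) (𝓝 0) := by
      simpa using (continuous_abs (G := ℝ)).tendsto 0
    exact this.eventually (ge_mem_nhds hr)
  filter_upwards [hev] with t ht x hx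
  have h3 := hJ t ht x hx
  have h4 : jc (px (curve a b δ τ t)) (py (curve a b δ τ t)) x = oJ a b δ τ t x :=
    abs_of_nonneg (by linarith : 0 ≤ oJ a b δ τ t x)
  rw [Pi.smul_apply, smul_eq_mul, h4, oJ_eq]
  have h5 := hb t (ht.trans hr1) x hx
  calc _ = |t ^ 3 * (-l * (
      - τ ^ 2 * t - δ ^ 2 * t - b * τ * x.2 + b * δ * x.1 - a * τ * x.1 - a * δ * x.2))| := by
        congr 1; ring
    _ ≤ _ := by
        rw [abs_mul, abs_pow, mul_comm]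
        exact mul_le_mul_of_nonneg_right h5 (by positivity)

theorem opx_fr_lin (l t : ℝ) (P Q R S P0 P1 P2' Q1 Q2 R0 R1 R2 S0 S1 : L2 →L[ℝ] L2) :
    (opx_fr P Q R 0 - l • opx_fr 0 0 0 S) -
      (opx_fr P0 0 R0 S0 + t • opx_fr P1 Q1 R1 S1 + t ^ 2 • opx_fr P2' Q2 R2 0) =
    opx_fr (P - (P0 + t • P1 + t ^ 2 • P2')) (Q - (0 + t • Q1 + t ^ 2 • Q2))
      (R - (R0 + t • R1 + t ^ 2 • R2)) (-l • S - (S0 + t • S1 + t ^ 2 • 0)) := by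
  refine ContinuousLinearMap.ext fun F => ?_
  simp only [opx_fr, _root_.sub_apply, _root_.add_apply, _root_.smul_apply,
    ContinuousLinearMap.comp_apply, map_add, map_sub, map_smul, _root_.zero_apply, map_zero]
  module

theorem opx : OpxStatement := by
  intro l a b δ τ
  obtain ⟨C1, hC1, h1⟩ := opx_c11 a b δ τ
  obtain ⟨C2, hC2, h2⟩ := opx_c12 a b δ τ
  obtain ⟨C3, hC3, h3⟩ := opx_c22 a b δ τ
  obtain ⟨C4, hC4, h4⟩ := opx_jc l a b δ τ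
  refine IsBigO.of_bound (C1 + 2 * C2 + C3 + C4) ?_
  filter_upwards [h1, h2, h3, h4] with t h1 h2 h3 h4
  have hJb : OBd (jc (px (curve a b δ τ t)) (py (curve a b δ τ t))) := by
    refine OBd.of_cont ?_
    have := (opx_cont_J a b δ τ t).abs
    exact this
  have e0 : OBd (1 : P2 → ℝ) := OBd.of_cont continuous_const
  have n1 := opx_est (m0 := (1 : P2 → ℝ)) (m1 := fun x => b * x.1 - a * x.2)
    (m2 := fun x => (x.1 ^ 2 + x.2 ^ 2) * a ^ 2 - 2 * δ) t h1.1 e0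
    (OBd.of_cont (by fun_prop)) (OBd.of_cont (by fun_prop)) (by positivity) h1.2
  have n2 := opx_est (m0 := (0 : P2 → ℝ)) (m1 := fun x => -(a * x.1 + b * x.2))
    (m2 := fun x => (x.1 ^ 2 + x.2 ^ 2) * (a * b) - 2 * τ) t h2.1 (OBd.of_cont continuous_const)
    (OBd.of_cont (by fun_prop)) (OBd.of_cont (by fun_prop)) (by positivity) h2.2
  have n3 := opx_est (m0 := (1 : P2 → ℝ)) (m1 := fun x => a * x.2 - b * x.1)
    (m2 := fun x => (x.1 ^ 2 + x.2 ^ 2) * b ^ 2 + 2 * δ) t h3.1 e0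
    (OBd.of_cont (by fun_prop)) (OBd.of_cont (by fun_prop)) (by positivity) h3.2
  have n4 := opx_est (m0 := fun _ => -l) (m1 := fun x => -l * (a * x.2 + b * x.1))
    (m2 := (0 : P2 → ℝ)) t (hJb.smul (-l)) (OBd.of_cont continuous_const)
    (OBd.of_cont (by fun_prop)) (OBd.of_cont continuous_const) (by positivity) h4
  rw [opx_mul_zero] at n2 n4
  rw [opx_mul_smul _ hJb] at n4
  unfold AA BB K0 K1 K2 stf mss
  simp only [opx_frm]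
  rw [opx_mul_zero, opx_fr_lin]
  refine (opx_fr_norm _ _ _ _).trans ?_
  rw [norm_pow, Real.norm_eq_abs]
  nlinarith [n1, n2, n3, n4]

end

end Pool.SqDrum
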