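import Mathlib
import Pool.Agent.Lib.MP_2805c2_an.SQ.Iface

set_option autoImplicit false

namespace Pool.SqDrum

/-- one step -/
def Stp (u v : Z5) : Prop := v = symX u ∨ v = symY u ∨ v = symS u

theorem orb_ext {z z' : Z5} (h0 : z' 0 = z 0) (h1 : z' 1 = z 1) (h2 : z' 2 = z 2)
    (h3 : z' 3 = z 3) (h4 : z' 4 = z 4) : z' = z := by
  funext i
  fin_cases i <;> assumption

/-- the case where the difference of the squares agrees -/
theorem orb_same {z z' : Z5} (h0 : z' 0 = z 0) (h1 : z' 1 = z 1) (h2 : z' 2 ^ 2 = z 2 ^ 2)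
    (h3 : z' 3 ^ 2 = z 3 ^ 2) (h4 : z' 4 ^ 2 = z 4 ^ 2)
    (hp : z' 2 * z' 3 * z' 4 = z 2 * z 3 * z 4) : Relation.ReflTransGen Stp z z' := by
  have R0 : z' 2 = z 2 → z' 3 = z 3 → z' 4 = z 4 → Relation.ReflTransGen Stp z z' := by
    intro a b c
    rw [orb_ext h0 h1 a b c]
  have R1 : z' 2 = -z 2 → z' 3 = z 3 → z' 4 = -z 4 → Relation.ReflTransGen Stp z z' := by
    intro a b c
    refine Relation.ReflTransGen.single (Or.inl ?_)
    refine orb_ext ?_ ?_ ?_ ?_ ?_ <;> simp [symX, *]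
  have R2 : z' 2 = -z 2 → z' 3 = -z 3 → z' 4 = z 4 → Relation.ReflTransGen Stp z z' := by
    intro a b c
    refine Relation.ReflTransGen.single (Or.inr (Or.inl ?_))
    refine orb_ext ?_ ?_ ?_ ?_ ?_ <;> simp [symY, *]
  have R3 : z' 2 = z 2 → z' 3 = -z 3 → z' 4 = -z 4 → Relation.ReflTransGen Stp z z' := by
    intro a b c
    refine (Relation.ReflTransGen.single (b := symX z) (Or.inl rfl)).tail (Or.inr (Or.inl ?_))
    refine orb_ext ?_ ?_ ?_ ?_ ?_ <;> simp [symX, symY, *]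
  rcases sq_eq_sq_iff_eq_or_eq_neg.1 h2 with a | a <;>
  rcases sq_eq_sq_iff_eq_or_eq_neg.1 h3 with b | b <;>
  rcases sq_eq_sq_iff_eq_or_eq_neg.1 h4 with c | c
  · exact R0 a b c
  · have : z 2 * z 3 * z 4 = 0 := by rw [a, b, c] at hp; linarith
    rcases mul_eq_zero.1 this with h | h
    · rcases mul_eq_zero.1 h with h | h
      · exact R1 (by rw [a, h]; simp) b c
      · exact R3 a (by rw [b, h]; simp) c
    · exact R0 a b (by rw [c, h]; simp)
  · have : z 2 * z 3 * z 4 = 0 := by rw [a, b, c] at hp; linarith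
    rcases mul_eq_zero.1 this with h | h
    · rcases mul_eq_zero.1 h with h | h
      · exact R2 (by rw [a, h]; simp) b c
      · exact R0 a (by rw [b, h]; simp) c
    · exact R3 a b (by rw [c, h]; simp)
  · exact R3 a b c
  · have : z 2 * z 3 * z 4 = 0 := by rw [a, b, c] at hp; linarith
    rcases mul_eq_zero.1 this with h | h
    · rcases mul_eq_zero.1 h with h | h
      · exact R0 (by rw [a, h]; simp) b c
      · exact R2 a (by rw [b, h]; simp) c
    · exact R1 a b (by rw [c, h]; simp)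
  · exact R1 a b c
  · exact R2 a b c
  · have : z 2 * z 3 * z 4 = 0 := by rw [a, b, c] at hp; linarith
    rcases mul_eq_zero.1 this with h | h
    · rcases mul_eq_zero.1 h with h | h
      · exact R3 (by rw [a, h]; simp) b c
      · exact R1 a (by rw [b, h]; simp) c
    · exact R2 a b (by rw [c, h]; simp)

theorem orb : OrbStatement := by
  intro z z' h
  change Relation.ReflTransGen Stp z z'
  have e0 : z 0 = z' 0 := by simpa [gen] using congrFun h 0
  have e1 : z 3 ^ 2 + z 4 ^ 2 = z' 3 ^ 2 + z' 4 ^ 2 := by simpa [gen] using congrFun h 1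
  have e2 : z 2 ^ 2 = z' 2 ^ 2 := by
    exact congrFun h 2
  have e3 : z 2 * z 3 * z 4 = z' 2 * z' 3 * z' 4 := by
    exact congrFun h 3
  have e4 : z 1 ^ 2 = z' 1 ^ 2 := by
    exact congrFun h 4
  have e5 : z 1 * (z 3 ^ 2 - z 4 ^ 2) = z' 1 * (z' 3 ^ 2 - z' 4 ^ 2) := by
    exact congrFun h 5
  have e6 : (z 3 ^ 2 - z 4 ^ 2) ^ 2 = (z' 3 ^ 2 - z' 4 ^ 2) ^ 2 := by
    exact congrFun h 6
  have A : z' 1 = z 1 → z' 3 ^ 2 - z' 4 ^ 2 = z 3 ^ 2 - z 4 ^ 2 →
      Relation.ReflTransGen Stp z z' := by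
    intro a b
    exact orb_same e0.symm a e2.symm (by linarith) (by linarith) e3.symm
  have B : z' 1 = -z 1 → z' 3 ^ 2 - z' 4 ^ 2 = -(z 3 ^ 2 - z 4 ^ 2) →
      Relation.ReflTransGen Stp z z' := by
    intro a b
    refine (Relation.ReflTransGen.single (b := symS z) (Or.inr (Or.inr rfl))).trans ?_
    refine orb_same ?_ ?_ ?_ ?_ ?_ ?_
    · simpa [symS] using e0.symm
    · simpa [symS] using a
    · simpa [symS] using e2.symm
    · have : z' 3 ^ 2 = z 4 ^ 2 := by linarith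
      simpa [symS] using this
    · have : z' 4 ^ 2 = z 3 ^ 2 := by linarith
      simpa [symS] using this
    · have : z' 2 * z' 3 * z' 4 = z 2 * z 4 * z 3 := by linarith
      simpa [symS] using this
  rcases sq_eq_sq_iff_eq_or_eq_neg.1 e4.symm with a | a <;>
  rcases sq_eq_sq_iff_eq_or_eq_neg.1 e6.symm with b | b
  · exact A a b
  · have : z 1 * (z 3 ^ 2 - z 4 ^ 2) = 0 := by rw [a, b] at e5; linarith
    rcases mul_eq_zero.1 this with h | h
    · exact B (by rw [a, h]; simp) b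
    · exact A a (by rw [b, h]; simp)
  · have : z 1 * (z 3 ^ 2 - z 4 ^ 2) = 0 := by rw [a, b] at e5; linarith
    rcases mul_eq_zero.1 this with h | h
    · exact A (by rw [a, h]; simp) b
    · exact B a (by rw [b, h]; simp)
  · exact B a b

end Pool.SqDrum
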