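import Mathlib
import Pool.Agent.Lib.MP_2805c2_an.SQ.Iface

set_option autoImplicit false

/-!
# ORT: the eigenfunctions of a square are orthonormal
-/

namespace Pool.SqDrum

open MeasureTheory Set Filter Topology
open scoped ENNReal ContDiff InnerProductSpace

theorem ort_cos (a : ℝ) {M : ℝ} (hM : 0 < M) (j : ℤ) :
    ∫ x in a..(a + M), Real.cos (j * Real.pi * (x - a) / M) = if j = 0 then M else 0 := by
  by_cases hj : j = 0
  · subst hj; simp
  · rw [if_neg hj]
    have hj' : (j : ℝ) ≠ 0 := by exact_mod_cast hj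
    have hπ := Real.pi_ne_zero
    have hF : ∀ x : ℝ, HasDerivAt
        (fun x => Real.sin (j * Real.pi * (x - a) / M) * (M / (j * Real.pi)))
        (Real.cos (j * Real.pi * (x - a) / M)) x := by
      intro x
      have h1 : HasDerivAt (fun x : ℝ => j * Real.pi * (x - a) / M) (j * Real.pi * 1 / M) x :=
        (((hasDerivAt_id x).sub_const a).const_mul (j * Real.pi)).div_const M
      have h2 := (h1.sin).mul_const (M / (j * Real.pi))
      refine h2.congr_deriv ?_
      field_simp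
    rw [intervalIntegral.integral_eq_sub_of_hasDerivAt (fun x _ => hF x)
      ((by fun_prop : Continuous fun x : ℝ => Real.cos (j * Real.pi * (x - a) / M)).intervalIntegrable
        _ _)]
    have e1 : (j : ℝ) * Real.pi * (a + M - a) / M = j * Real.pi := by
      field_simp; ring
    rw [e1, Real.sin_int_mul_pi]
    simp

theorem ort_one (a : ℝ) {M : ℝ} (hM : 0 < M) (m n : ℕ) :
    ∫ x in Ioo a (a + M), (2 / M) * (Real.sin (m * Real.pi * (x - a) / M) *
      Real.sin (n * Real.pi * (x - a) / M)) = if m = n ∧ 0 < m then 1 else 0 := by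
  rw [← integral_Ioc_eq_integral_Ioo, ← intervalIntegral.integral_of_le (by linarith)]
  have e : ∀ x : ℝ, (2 / M) * (Real.sin (m * Real.pi * (x - a) / M) *
      Real.sin (n * Real.pi * (x - a) / M)) =
      (1 / M) * (Real.cos (((m : ℤ) - (n : ℤ) : ℤ) * Real.pi * (x - a) / M) -
        Real.cos (((m : ℤ) + (n : ℤ) : ℤ) * Real.pi * (x - a) / M)) := by
    intro x
    have e1 : (((m : ℤ) - (n : ℤ) : ℤ) : ℝ) * Real.pi * (x - a) / M =
        m * Real.pi * (x - a) / M - n * Real.pi * (x - a) / M := by push_cast; ring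
    have e2 : (((m : ℤ) + (n : ℤ) : ℤ) : ℝ) * Real.pi * (x - a) / M =
        m * Real.pi * (x - a) / M + n * Real.pi * (x - a) / M := by push_cast; ring
    rw [e1, e2, Real.cos_sub, Real.cos_add]
    ring
  simp_rw [e]
  rw [intervalIntegral.integral_const_mul, intervalIntegral.integral_sub
    ((by fun_prop : Continuous _).intervalIntegrable _ _)
    ((by fun_prop : Continuous _).intervalIntegrable _ _), ort_cos a hM, ort_cos a hM]
  by_cases h : m = n
  · subst h
    by_cases h0 : 0 < m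
    · have h1 : ((m : ℤ) + (m : ℤ)) ≠ 0 := by omega
      rw [if_pos (sub_self _), if_neg h1, if_pos ⟨rfl, h0⟩]
      field_simp; ring
    · have h1 : ((m : ℤ) + (m : ℤ)) = 0 := by omega
      rw [if_pos (sub_self _), if_pos h1, if_neg (fun h => h0 h.2)]
      simp
  · have h1 : ((m : ℤ) - (n : ℤ)) ≠ 0 := by omega
    have h2 : ((m : ℤ) + (n : ℤ)) ≠ 0 := by omega
    rw [if_neg h1, if_neg h2, if_neg (fun h' => h h'.1)]
    simp

theorem ort_memLp (x₀ y₀ M : ℝ) (k : ℕ × ℕ) :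
    MemLp ((Sq x₀ y₀ M).indicator (ef x₀ y₀ M k)) 2 (volume : Measure P2) := by
  have hm : MeasurableSet (Sq x₀ y₀ M) := measurableSet_Ioo.prod measurableSet_Ioo
  have hc : Continuous (ef x₀ y₀ M k) := by unfold ef; fun_prop
  rw [memLp_indicator_iff_restrict hm]
  have hK : IsCompact (Icc x₀ (x₀ + M) ×ˢ Icc y₀ (y₀ + M)) := isCompact_Icc.prod isCompact_Icc
  have hsub : Sq x₀ y₀ M ⊆ Icc x₀ (x₀ + M) ×ˢ Icc y₀ (y₀ + M) :=
    Set.prod_mono Ioo_subset_Icc_self Ioo_subset_Icc_self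
  obtain ⟨C, hC⟩ := hK.exists_bound_of_continuousOn hc.continuousOn
  have hfin : IsFiniteMeasure ((volume : Measure P2).restrict (Sq x₀ y₀ M)) :=
    ⟨by
      rw [Measure.restrict_apply_univ]
      exact lt_of_le_of_lt (measure_mono hsub) hK.measure_lt_top⟩
  exact MemLp.of_bound hc.aestronglyMeasurable C
    (ae_restrict_of_forall_mem hm fun x hx => hC x (hsub hx))

theorem ort : OrtStatement := by
  intro x₀ y₀ M hM k l
  have hm : MeasurableSet (Sq x₀ y₀ M) := measurableSet_Ioo.prod measurableSet_Ioo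
  have e0 : ⟪ET x₀ y₀ M k 0, ET x₀ y₀ M l 0⟫_ℝ =
      ∫ x in Sq x₀ y₀ M, ef x₀ y₀ M k x * ef x₀ y₀ M l x := by
    rw [ET, trip_zero, ET, trip_zero, inner_eq, ← integral_indicator hm]
    refine integral_congr_ae ?_
    filter_upwards [cl_coe (ort_memLp x₀ y₀ M k), cl_coe (ort_memLp x₀ y₀ M l)] with x h1 h2
    rw [h1, h2]
    by_cases hx : x ∈ Sq x₀ y₀ M
    · simp [hx]
    · simp [hx]
  rw [e0]
  have e1 : ∀ x : P2, ef x₀ y₀ M k x * ef x₀ y₀ M l x =
      ((2 / M) * (Real.sin (k.1 * Real.pi * (x.1 - x₀) / M) *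
        Real.sin (l.1 * Real.pi * (x.1 - x₀) / M))) *
      ((2 / M) * (Real.sin (k.2 * Real.pi * (x.2 - y₀) / M) *
        Real.sin (l.2 * Real.pi * (x.2 - y₀) / M))) := by
    intro x; unfold ef; ring
  simp_rw [e1]
  have e2 := setIntegral_prod_mul (μ := (volume : Measure ℝ)) (ν := (volume : Measure ℝ))
    (fun x => (2 / M) * (Real.sin (k.1 * Real.pi * (x - x₀) / M) *
        Real.sin (l.1 * Real.pi * (x - x₀) / M)))
    (fun y => (2 / M) * (Real.sin (k.2 * Real.pi * (y - y₀) / M) *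
        Real.sin (l.2 * Real.pi * (y - y₀) / M))) (Ioo x₀ (x₀ + M)) (Ioo y₀ (y₀ + M))
  rw [ort_one x₀ hM, ort_one y₀ hM] at e2
  refine e2.trans ?_
  by_cases h1 : k.1 = l.1 ∧ 0 < k.1
  · by_cases h2 : k.2 = l.2 ∧ 0 < k.2
    · rw [if_pos h1, if_pos h2,
        if_pos (show k = l ∧ 0 < k.1 ∧ 0 < k.2 from ⟨Prod.ext h1.1 h2.1, h1.2, h2.2⟩), mul_one]
    · rw [if_neg h2,
        if_neg (show ¬ (k = l ∧ 0 < k.1 ∧ 0 < k.2) from fun h => h2 ⟨h.1 ▸ rfl, h.2.2⟩), mul_zero]
  · rw [if_neg h1,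
      if_neg (show ¬ (k = l ∧ 0 < k.1 ∧ 0 < k.2) from fun h => h1 ⟨h.1 ▸ rfl, h.2.1⟩), zero_mul]

end Pool.SqDrum
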