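import Pool.Agent.Lib.MP_2805c2_an.SQ.Iface

set_option autoImplicit false

/-!
# POS: nonnegative elements are limits of nonnegative test functions
-/

namespace Pool.SqDrum

open MeasureTheory Set Filter Topology Asymptotics
open scoped ENNReal ContDiff InnerProductSpace

namespace Pos

/-- A smooth approximation of the absolute value. -/
noncomputable def sa (ε : ℝ) (φ : P2 → ℝ) (x : P2) : ℝ := Real.sqrt (φ x ^ 2 + ε ^ 2) - ε

variable {Ω : Set P2} {ε : ℝ} {φ : P2 → ℝ}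

theorem sa_nonneg (x : P2) : 0 ≤ sa ε φ x := by
  unfold sa
  rw [sub_nonneg]
  exact (le_abs_self ε).trans (Real.abs_le_sqrt (by nlinarith [sq_nonneg (φ x)]))

theorem sa_le (hε : 0 < ε) (x : P2) : sa ε φ x ≤ |φ x| := by
  unfold sa
  rw [sub_le_iff_le_add]
  apply Real.sqrt_le_iff.2
  refine ⟨by positivity, ?_⟩
  have := abs_nonneg (φ x)
  nlinarith [sq_abs (φ x)]

theorem le_sa (x : P2) : |φ x| - ε ≤ sa ε φ x := by
  unfold sa
  have := Real.abs_le_sqrt (show φ x ^ 2 ≤ φ x ^ 2 + ε ^ 2 by nlinarith [sq_nonneg ε])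
  linarith

theorem sa_zero (hε : 0 < ε) {x : P2} (hx : φ x = 0) : sa ε φ x = 0 := by
  unfold sa
  rw [hx]
  simp [Real.sqrt_sq hε.le]

theorem pos_aux (hε : 0 < ε) (x : P2) : 0 < φ x ^ 2 + ε ^ 2 := by positivity

theorem sa_smooth (hε : 0 < ε) (hφ : ContDiff ℝ ∞ φ) : ContDiff ℝ ∞ (sa ε φ) := by
  unfold sa
  refine ContDiff.sub (ContDiff.sqrt ((hφ.pow 2).add contDiff_const) fun x => ?_) contDiff_const
  exact (pos_aux hε x).ne'

theorem sa_supp (hε : 0 < ε) : Function.support (sa ε φ) ⊆ Function.support φ := by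
  intro x hx h
  exact hx (sa_zero hε h)

theorem sa_test (hε : 0 < ε) (h : Test Ω φ) : Test Ω (sa ε φ) :=
  ⟨sa_smooth hε h.smooth, h.compact.mono (sa_supp hε), (closure_mono (sa_supp hε)).trans h.sub⟩

theorem sa_fderiv (hε : 0 < ε) (h : Test Ω φ) (x v : P2) :
    |fderiv ℝ (sa ε φ) x v| ≤ |fderiv ℝ φ x v| := by
  have h1 : HasFDerivAt φ (fderiv ℝ φ x) x := (h.diff x).hasFDerivAt
  have h2 : HasFDerivAt (fun y => φ y ^ 2 + ε ^ 2) ((2 * φ x) • fderiv ℝ φ x) x := by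
    have h3 := (h1.pow 2).add_const (ε ^ 2)
    simpa using h3
  have h4 : HasFDerivAt (sa ε φ) ((1 / (2 * Real.sqrt (φ x ^ 2 + ε ^ 2))) •
      ((2 * φ x) • fderiv ℝ φ x)) x := (h2.sqrt (pos_aux hε x).ne').sub_const ε
  rw [h4.fderiv]
  have hs : 0 < Real.sqrt (φ x ^ 2 + ε ^ 2) := Real.sqrt_pos.2 (pos_aux hε x)
  have h5 : |φ x| ≤ Real.sqrt (φ x ^ 2 + ε ^ 2) :=
    Real.abs_le_sqrt (by nlinarith [sq_nonneg ε])
  simp only [smul_apply, smul_eq_mul]
  have e : 1 / (2 * Real.sqrt (φ x ^ 2 + ε ^ 2)) * (2 * φ x * fderiv ℝ φ x v) =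
      (φ x / Real.sqrt (φ x ^ 2 + ε ^ 2)) * fderiv ℝ φ x v := by
    field_simp
  rw [e, abs_mul, abs_div, abs_of_pos hs]
  have h6 : |φ x| / Real.sqrt (φ x ^ 2 + ε ^ 2) ≤ 1 := (div_le_one hs).2 h5
  calc |φ x| / Real.sqrt (φ x ^ 2 + ε ^ 2) * |fderiv ℝ φ x v| ≤ 1 * |fderiv ℝ φ x v| :=
        mul_le_mul_of_nonneg_right h6 (abs_nonneg _)
    _ = _ := one_mul _

theorem cl_norm_le {f g : P2 → ℝ} (hf : MemLp f 2 (volume : Measure P2))
    (hg : MemLp g 2 (volume : Measure P2)) (h : ∀ x, |f x| ≤ |g x|) : ‖cl f‖ ≤ ‖cl g‖ := by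
  apply Lp.norm_le_norm_of_ae_le
  filter_upwards [cl_coe hf, cl_coe hg] with x h1 h2
  rw [h1, h2, Real.norm_eq_abs, Real.norm_eq_abs]
  exact h x

theorem jet_norm_le (hε : 0 < ε) (h : Test Ω φ) : ‖jet (sa ε φ)‖ ≤ ‖jet φ‖ := by
  have ht := sa_test hε h
  have e : ∀ F : LL, ‖F‖ ^ 2 = ‖F 0‖ ^ 2 + ‖F 1‖ ^ 2 + ‖F 2‖ ^ 2 := by
    intro F
    rw [← real_inner_self_eq_norm_sq, ← real_inner_self_eq_norm_sq, ← real_inner_self_eq_norm_sq,
      ← real_inner_self_eq_norm_sq, LL_inner]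
  have h0 : ‖jet (sa ε φ) 0‖ ≤ ‖jet φ 0‖ := cl_norm_le ht.memLp h.memLp fun x => by
    rw [abs_of_nonneg (sa_nonneg x)]; exact sa_le hε x
  have h1 : ‖jet (sa ε φ) 1‖ ≤ ‖jet φ 1‖ :=
    cl_norm_le ht.pd1_memLp h.pd1_memLp fun x => sa_fderiv hε h x _
  have h2 : ‖jet (sa ε φ) 2‖ ≤ ‖jet φ 2‖ :=
    cl_norm_le ht.pd2_memLp h.pd2_memLp fun x => sa_fderiv hε h x _
  refine le_of_sq_le_sq ?_ (norm_nonneg _)
  rw [e, e]
  gcongr

/-- The norm of the difference of `|φ|` and its approximation. -/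
theorem exists_eps (h : Test Ω φ) {η : ℝ} (hη : 0 < η) :
    ∃ ε : ℝ, 0 < ε ∧ ‖cl (sa ε φ) - |cl φ|‖ ≤ η := by
  have hK : MeasurableSet (tsupport φ) := (isClosed_tsupport φ).measurableSet
  have hKf : volume (tsupport φ) ≠ (⊤ : ℝ≥0∞) := h.compact.isCompact.measure_lt_top.ne
  set V : ℝ := volume.real (tsupport φ) ^ (1 / (2 : ℝ≥0∞).toReal) with hV
  have hV0 : 0 ≤ V := Real.rpow_nonneg measureReal_nonneg _
  refine ⟨η / (V + 1), by positivity, ?_⟩
  have hε : 0 < η / (V + 1) := by positivity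
  have h1 : ‖cl (sa (η / (V + 1)) φ) - |cl φ|‖ ≤
      ‖indicatorConstLp 2 hK hKf (η / (V + 1))‖ := by
    apply Lp.norm_le_norm_of_ae_le
    filter_upwards [cl_coe (sa_test hε h).memLp, cl_coe h.memLp, Lp.coeFn_abs (cl φ),
      Lp.coeFn_sub (cl (sa (η / (V + 1)) φ)) |cl φ|,
      indicatorConstLp_coeFn (p := 2) (hs := hK) (hμs := hKf) (c := η / (V + 1))] with x e1 e2 e3 e4 e5
    rw [e4, Pi.sub_apply, e3, e1, e2, e5, Real.norm_eq_abs, Real.norm_eq_abs]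
    by_cases hx : x ∈ tsupport φ
    · rw [indicator_of_mem hx, abs_of_pos hε, abs_le]
      have h2 := le_sa (ε := η / (V + 1)) (φ := φ) x
      have h3 := sa_le hε (φ := φ) x
      constructor <;> linarith
    · have h4 : φ x = 0 := image_eq_zero_of_notMem_tsupport hx
      rw [indicator_of_notMem hx, sa_zero hε h4, h4]
      simp
  refine h1.trans ?_
  rw [norm_indicatorConstLp (by norm_num) (by norm_num), ← hV, Real.norm_eq_abs, abs_of_pos hε,
    div_mul_eq_mul_div, div_le_iff₀ (by positivity)]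
  nlinarith

end Pos

theorem pos (hI : InjStatement) (hW : WclStatement) : PosStatement := by
  intro Ω _ G hG hG0
  obtain ⟨φ, hφ, hlim⟩ := exists_seq hG
  choose ε hε hεn using fun n : ℕ => Pos.exists_eps (hφ n) (η := 1 / ((n : ℝ) + 1)) (by positivity)
  by_contra hcon
  rw [Metric.mem_closure_iff] at hcon
  push Not at hcon
  obtain ⟨δ, hδ, hd⟩ := hcon
  have hlimN : Tendsto (fun n => ‖jet (φ n)‖) atTop (𝓝 ‖G‖) := hlim.norm
  obtain ⟨R, hR⟩ := hlimN.bddAbove_range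
  have hR' : ∀ n, ‖jet (Pos.sa (ε n) (φ n))‖ ≤ R := fun n =>
    (Pos.jet_norm_le (hε n) (hφ n)).trans (hR ⟨n, rfl⟩)
  obtain ⟨K, hK⟩ := hW LL (fun n => jet (Pos.sa (ε n) (φ n))) R hR'
  have hKH : K ∈ H Ω := hK (H Ω) (H_isClosed Ω) (H Ω).convex
    (Eventually.of_forall fun n => jet_mem (Pos.sa_test (hε n) (hφ n)))
  -- the first component
  have hproj : Continuous fun F : LL => F 0 := PiLp.continuous_apply 2 _ 0
  have hlim0 : Tendsto (fun n => cl (Pos.sa (ε n) (φ n))) atTop (𝓝 (G 0)) := by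
    have h1 : Tendsto (fun n => |cl (φ n)|) atTop (𝓝 (G 0)) := by
      have h2 : Tendsto (fun n => cl (φ n)) atTop (𝓝 (G 0)) := (hproj.tendsto G).comp hlim
      rw [tendsto_iff_norm_sub_tendsto_zero] at h2 ⊢
      refine squeeze_zero (fun n => norm_nonneg _) (fun n => ?_) h2
      conv_lhs => rw [← abs_of_nonneg hG0]
      exact norm_abs_sub_abs _ _
    have h3 : Tendsto (fun n => cl (Pos.sa (ε n) (φ n)) - |cl (φ n)|) atTop (𝓝 0) :=
      squeeze_zero_norm hεn tendsto_one_div_add_atTop_nhds_zero_nat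
    have h4 := h3.add h1
    simpa using h4
  have hK0 : K 0 = G 0 := by
    have h1 : ∀ η : ℝ, 0 < η → ‖K 0 - G 0‖ ≤ η := by
      intro η hη
      have h2 : K ∈ {F : LL | ‖F 0 - G 0‖ ≤ η} := by
        refine hK _ (isClosed_le ((hproj.sub continuous_const).norm) continuous_const) ?_ ?_
        · have h3 : {F : LL | ‖F 0 - G 0‖ ≤ η} =
              (PiLp.proj 2 (fun _ : Fin 3 => L2) 0 : LL →L[ℝ] L2).toLinearMap ⁻¹'
                Metric.closedBall (G 0) η := by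
            ext F
            simp [dist_eq_norm]
          rw [h3]
          exact (convex_closedBall _ _).linear_preimage _
        · rw [tendsto_iff_norm_sub_tendsto_zero] at hlim0
          exact (hlim0.eventually (gt_mem_nhds hη)).mono fun n hn => le_of_lt hn
      exact h2
    have h2 : ‖K 0 - G 0‖ ≤ 0 := le_of_forall_pos_le_add fun η hη => by
      rw [zero_add]; exact h1 η hη
    exact sub_eq_zero.1 (norm_le_zero_iff.1 h2)
  have hKG : K = G := by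
    have h1 : K - G ∈ H Set.univ := H_mono (subset_univ Ω) ((H Ω).sub_mem hKH hG)
    have h2 := hI (K - G) h1 (by rw [PiLp.sub_apply, hK0, sub_self])
    exact sub_eq_zero.1 h2
  have hhalf : K ∈ {F : LL | ⟪F, G⟫_ℝ ≤ ‖G‖ ^ 2 - δ ^ 2 / 4} := by
    refine hK _ (isClosed_le (continuous_id.inner continuous_const) continuous_const) ?_ ?_
    · have h3 : {F : LL | ⟪F, G⟫_ℝ ≤ ‖G‖ ^ 2 - δ ^ 2 / 4} =
          {F : LL | (innerSL ℝ G).toLinearMap F ≤ ‖G‖ ^ 2 - δ ^ 2 / 4} := by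
        ext F
        simp [real_inner_comm]
      rw [h3]
      exact convex_halfSpace_le (LinearMap.isLinear _) _
    · have h4 : ∀ᶠ n in atTop, ‖jet (φ n)‖ ^ 2 ≤ ‖G‖ ^ 2 + δ ^ 2 / 2 :=
        ((hlimN.pow 2).eventually (gt_mem_nhds (by
          have : 0 < δ ^ 2 := by positivity
          linarith : ‖G‖ ^ 2 < ‖G‖ ^ 2 + δ ^ 2 / 2))).mono fun n hn => le_of_lt hn
      filter_upwards [h4] with n hn
      have h5 := hd (jet (Pos.sa (ε n) (φ n)))
        ⟨_, Pos.sa_test (hε n) (hφ n), fun x => Pos.sa_nonneg x, rfl⟩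
      rw [dist_comm, dist_eq_norm] at h5
      have h6 := norm_sub_sq_real (jet (Pos.sa (ε n) (φ n))) G
      have h7 := Pos.jet_norm_le (hε n) (hφ n)
      have h8 : ‖jet (Pos.sa (ε n) (φ n))‖ ^ 2 ≤ ‖jet (φ n)‖ ^ 2 :=
        pow_le_pow_left₀ (norm_nonneg _) h7 2
      have h9 : δ ^ 2 ≤ ‖jet (Pos.sa (ε n) (φ n)) - G‖ ^ 2 := pow_le_pow_left₀ hδ.le h5 2
      have h10 : ⟪jet (Pos.sa (ε n) (φ n)), G⟫_ℝ ≤ ‖G‖ ^ 2 - δ ^ 2 / 4 := by linarith
      exact h10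
  rw [hKG] at hhalf
  have h1 : ⟪G, G⟫_ℝ ≤ ‖G‖ ^ 2 - δ ^ 2 / 4 := hhalf
  rw [real_inner_self_eq_norm_sq] at h1
  have : 0 < δ ^ 2 := by positivity
  linarith

end Pool.SqDrum
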