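import Mathlib
import Pool.Agent.Lib.MP_2805c2_an.SQ.Iface

set_option autoImplicit false

namespace Pool.SqDrum

open Filter Topology

/-- a word with given numbers of letters -/
theorem psa_word {n k : ℕ} (α : Fin n → ℕ) (h : ∑ j, α j = k) :
    ∃ w : Fin k → Fin n, ∀ z : Fin n → ℝ, ∏ l, z (w l) = ∏ j, z j ^ α j := by
  have hc : Fintype.card (Fin k) = Fintype.card (Σ j : Fin n, Fin (α j)) := by
    rw [Fintype.card_fin, Fintype.card_sigma]
    simp [h]
  let e := Fintype.equivOfCardEq hc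
  refine ⟨fun l => (e l).1, fun z => ?_⟩
  rw [e.prod_comp (fun x : Σ j : Fin n, Fin (α j) => z x.1)]
  rw [← Finset.univ_sigma_univ, Finset.prod_sigma]
  refine Finset.prod_congr rfl fun j _ => ?_
  simp

/-- the multilinear monomial of a word -/
noncomputable def psa_M {n k : ℕ} (w : Fin k → Fin n) :
    ContinuousMultilinearMap ℝ (fun _ : Fin k => (Fin n → ℝ)) ℝ :=
  (ContinuousMultilinearMap.mkPiAlgebra ℝ (Fin k) ℝ).compContinuousLinearMap
    (fun l => ContinuousLinearMap.proj (w l))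

theorem psa_M_apply {n k : ℕ} (w : Fin k → Fin n) (m : Fin k → (Fin n → ℝ)) :
    psa_M w m = ∏ l, m l (w l) := by
  simp [psa_M]

theorem psa_M_norm {n k : ℕ} (w : Fin k → Fin n) : ‖psa_M w‖ ≤ 1 := by
  refine ContinuousMultilinearMap.opNorm_le_bound zero_le_one fun m => ?_
  rw [psa_M_apply, norm_prod, one_mul]
  exact Finset.prod_le_prod (fun i _ => norm_nonneg _) fun i _ => norm_le_pi_norm _ _

theorem psa_mon {n : ℕ} (α : Fin n → ℕ) (k : ℕ) :
    ∃ M : ContinuousMultilinearMap ℝ (fun _ : Fin k => (Fin n → ℝ)) ℝ, ‖M‖ ≤ 1 ∧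
      ∀ z : Fin n → ℝ, M (fun _ => z) = if ∑ j, α j = k then ∏ j, z j ^ α j else 0 := by
  by_cases h : ∑ j, α j = k
  · obtain ⟨w, hw⟩ := psa_word α h
    exact ⟨psa_M w, psa_M_norm w, fun z => by rw [psa_M_apply, hw, if_pos h]⟩
  · exact ⟨0, by simp, fun z => by simp [h]⟩

theorem psa : PsaStatement := by
  intro n ι c α r hr hs
  classical
  choose M hM1 hM2 using fun (i : ι) (k : ℕ) => psa_mon (α i) k
  -- the coefficients of degree `k`
  let a : ι → ℕ → ℝ := fun i k => if ∑ j, α i j = k then c i else 0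
  have ha : ∀ i k, |a i k| * r ^ k ≤ |c i| * r ^ (∑ j, α i j) := by
    intro i k
    by_cases h : ∑ j, α i j = k
    · simp [a, h]
    · simp only [a, if_neg h, abs_zero, zero_mul]
      positivity
  have hak : ∀ k, Summable fun i => |a i k| := by
    intro k
    have h1 : Summable fun i => |a i k| * r ^ k :=
      Summable.of_nonneg_of_le (fun i => by positivity) (fun i => ha i k) hs
    have h2 := h1.mul_right ((r ^ k)⁻¹)
    refine h2.congr fun i => ?_
    have : r ^ k ≠ 0 := by positivity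
    field_simp
  have hns : ∀ k, Summable fun i => a i k • M i k := by
    intro k
    refine Summable.of_norm_bounded (hak k) fun i => ?_
    rw [norm_smul, Real.norm_eq_abs]
    calc |a i k| * ‖M i k‖ ≤ |a i k| * 1 := mul_le_mul_of_nonneg_left (hM1 i k) (abs_nonneg _)
      _ = |a i k| := mul_one _
  let p : FormalMultilinearSeries ℝ (Fin n → ℝ) ℝ := fun k => ∑' i, a i k • M i k
  have hpr : ENNReal.ofReal r ≤ p.radius := by
    refine p.le_radius_of_bound (∑' i, |c i| * r ^ (∑ j, α i j)) (r := r.toNNReal) fun k => ?_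
    have h1 : ‖p k‖ ≤ ∑' i, |a i k| := by
      refine tsum_of_norm_bounded (hak k).hasSum fun i => ?_
      rw [norm_smul, Real.norm_eq_abs]
      calc |a i k| * ‖M i k‖ ≤ |a i k| * 1 := mul_le_mul_of_nonneg_left (hM1 i k) (abs_nonneg _)
        _ = |a i k| := mul_one _
    rw [Real.coe_toNNReal _ hr.le]
    calc ‖p k‖ * r ^ k ≤ (∑' i, |a i k|) * r ^ k := mul_le_mul_of_nonneg_right h1 (by positivity)
      _ = ∑' i, |a i k| * r ^ k := (tsum_mul_right).symm
      _ ≤ ∑' i, |c i| * r ^ (∑ j, α i j) :=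
          ((hak k).mul_right _).tsum_le_tsum (fun i => ha i k) hs
  refine ⟨p, ENNReal.ofReal r, hpr, ENNReal.ofReal_pos.2 hr, fun {y} hy => ?_⟩
  rw [zero_add]
  have hyr : ‖y‖ < r := by
    rw [Metric.mem_eball, edist_zero_right, ← ofReal_norm] at hy
    exact (ENNReal.ofReal_lt_ofReal_iff hr).1 hy
  have hg : Summable fun i => c i * ∏ j, y j ^ α i j := by
    refine Summable.of_norm_bounded hs fun i => ?_
    rw [norm_mul, Real.norm_eq_abs, norm_prod]
    refine mul_le_mul_of_nonneg_left ?_ (abs_nonneg _)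
    rw [← Finset.prod_pow_eq_pow_sum]
    refine Finset.prod_le_prod (fun j _ => norm_nonneg _) fun j _ => ?_
    rw [norm_pow]
    exact pow_le_pow_left₀ (norm_nonneg _) ((norm_le_pi_norm y j).trans hyr.le) _
  have h1 := hg.hasSum.tsum_fiberwise (fun i => ∑ j, α i j)
  convert h1 using 1
  funext k
  have h2 : p k (fun _ => y) = ∑' i, (a i k • M i k) (fun _ => y) :=
    ContinuousMultilinearMap.tsum_eval (hns k) _
  rw [h2, tsum_subtype ((fun i => ∑ j, α i j) ⁻¹' {k}) (fun i => c i * ∏ j, y j ^ α i j)]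
  refine tsum_congr fun i => ?_
  rw [_root_.smul_apply, hM2, smul_eq_mul]
  by_cases h : ∑ j, α i j = k
  · rw [Set.indicator_of_mem (by simpa using h)]
    simp [a, h]
  · rw [Set.indicator_of_notMem (by simpa using h)]
    simp [a, h]

end Pool.SqDrum
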