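import Mathlib
import Pool.Agent.Lib.MP_2805c2_an.SQ.Iface

set_option autoImplicit false

namespace Pool.SqDrum

open MeasureTheory Set Filter Topology
open scoped ENNReal ContDiff InnerProductSpace

theorem psi_expint : IntegrableOn (fun t : ℝ => Real.exp (-t)) (Ioi 0) := by
  have := exp_neg_integrableOn_Ioi 0 (b := 1) one_pos
  simpa using this

theorem psi_meas (y : ℝ) : Measurable (fun t : ℝ => Real.exp (-t - y ^ 2 / t)) := by fun_prop

theorem psi_le (y : ℝ) {t : ℝ} (ht : 0 < t) : Real.exp (-t - y ^ 2 / t) ≤ Real.exp (-t) := by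
  apply Real.exp_le_exp.2
  have : 0 ≤ y ^ 2 / t := by positivity
  linarith

theorem psi_integrable (y : ℝ) :
    IntegrableOn (fun t : ℝ => Real.exp (-t - y ^ 2 / t)) (Ioi 0) := by
  refine Integrable.mono' psi_expint (psi_meas y).aestronglyMeasurable ?_
  refine (ae_restrict_iff' measurableSet_Ioi).2 (Eventually.of_forall fun t ht => ?_)
  rw [Real.norm_eq_abs, abs_of_pos (Real.exp_pos _)]
  exact psi_le y ht

theorem psi_nonneg (y : ℝ) : 0 ≤ psi y :=
  integral_nonneg fun _ => (Real.exp_pos _).le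

theorem psi_le_one (y : ℝ) : psi y ≤ 1 := by
  rw [← integral_exp_neg_Ioi_zero]
  exact setIntegral_mono_on (psi_integrable y) psi_expint measurableSet_Ioi
    fun t ht => psi_le y ht

theorem psi_cont : Continuous psi := by
  unfold psi
  refine continuous_of_dominated (bound := fun t => Real.exp (-t)) ?_ ?_ ?_ ?_
  · intro y; exact (psi_meas y).aestronglyMeasurable
  · intro y
    refine (ae_restrict_iff' measurableSet_Ioi).2 (Eventually.of_forall fun t ht => ?_)
    rw [Real.norm_eq_abs, abs_of_pos (Real.exp_pos _)]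
    exact psi_le y ht
  · exact psi_expint
  · exact Eventually.of_forall fun t => by fun_prop

/-- the inner integral -/
theorem psi_inner {t h : ℝ} (ht : 0 < t) (hh : 0 < h) :
    Real.sqrt (Real.pi * t) / 2 - t / (2 * h) ≤
      ∫ y in Ioc 0 h, Real.exp (-(y ^ 2 / t)) * (1 - y / h) := by
  have hb : 0 < 1 / t := by positivity
  have e : ∀ y : ℝ, Real.exp (-(y ^ 2 / t)) = Real.exp (-(1 / t) * y ^ 2) := fun y => by
    congr 1; ring
  have i1 : IntegrableOn (fun y : ℝ => Real.exp (-(1 / t) * y ^ 2)) (Ioi 0) :=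
    (integrable_exp_neg_mul_sq hb).integrableOn
  have i2 : IntegrableOn (fun y : ℝ => y * Real.exp (-(1 / t) * y ^ 2)) (Ioi 0) :=
    (integrable_mul_exp_neg_mul_sq hb).integrableOn
  have v1 : ∫ y in Ioi (0 : ℝ), Real.exp (-(1 / t) * y ^ 2) = Real.sqrt (Real.pi * t) / 2 := by
    rw [integral_gaussian_Ioi]
    congr 2
    field_simp
  have v2 : ∫ y in Ioi (0 : ℝ), y * Real.exp (-(1 / t) * y ^ 2) = t / 2 := by
    have h := integral_mul_cexp_neg_mul_sq (b := ((1 / t : ℝ) : ℂ)) (by simpa using ht)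
    have e2 : (∫ r : ℝ in Ioi 0, (r : ℂ) * Complex.exp (-((1 / t : ℝ) : ℂ) * (r : ℂ) ^ 2)) =
        ((∫ y in Ioi (0 : ℝ), y * Real.exp (-(1 / t) * y ^ 2) : ℝ) : ℂ) := by
      rw [← integral_complex_ofReal]
      refine integral_congr_ae (Eventually.of_forall fun r => ?_)
      push_cast
      rfl
    rw [e2] at h
    have h3 : ((∫ y in Ioi (0 : ℝ), y * Real.exp (-(1 / t) * y ^ 2) : ℝ) : ℂ) =
        ((t / 2 : ℝ) : ℂ) := by
      rw [h]
      push_cast
      have : (t : ℂ) ≠ 0 := by exact_mod_cast ht.ne'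
      field_simp
    exact_mod_cast h3
  have e3 : ∀ y : ℝ, Real.exp (-(y ^ 2 / t)) * (1 - y / h) =
      Real.exp (-(1 / t) * y ^ 2) - (1 / h) * (y * Real.exp (-(1 / t) * y ^ 2)) := fun y => by
    rw [e]; ring
  have i3 : IntegrableOn (fun y : ℝ => Real.exp (-(y ^ 2 / t)) * (1 - y / h)) (Ioi 0) := by
    rw [funext e3]
    exact i1.sub (i2.const_mul _)
  have v3 : ∫ y in Ioi (0 : ℝ), Real.exp (-(y ^ 2 / t)) * (1 - y / h) =
      Real.sqrt (Real.pi * t) / 2 - t / (2 * h) := by
    rw [funext e3, integral_sub i1 (i2.const_mul _), integral_const_mul, v1, v2]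
    field_simp
  rw [← v3, ← Ioc_union_Ioi_eq_Ioi hh.le, setIntegral_union]
  · have : ∫ y in Ioi h, Real.exp (-(y ^ 2 / t)) * (1 - y / h) ≤ 0 := by
      refine setIntegral_nonpos measurableSet_Ioi fun y hy => ?_
      apply mul_nonpos_of_nonneg_of_nonpos (Real.exp_pos _).le
      have : 1 ≤ y / h := by rw [one_le_div hh]; exact le_of_lt hy
      linarith
    linarith
  · rw [Set.disjoint_left]
    intro y hy hy2
    exact absurd hy.2 (not_le.2 hy2)
  · exact measurableSet_Ioi
  · exact i3.mono_set Ioc_subset_Ioi_self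
  · exact i3.mono_set (Ioi_subset_Ioi hh.le)

theorem psi_outer {h : ℝ} (hh : 0 < h) :
    IntegrableOn (fun t : ℝ => Real.exp (-t) * (Real.sqrt (Real.pi * t) / 2 - t / (2 * h)))
      (Ioi 0) ∧
    ∫ t in Ioi (0 : ℝ), Real.exp (-t) * (Real.sqrt (Real.pi * t) / 2 - t / (2 * h)) =
      Real.pi / 4 - 1 / (2 * h) := by
  have i1 := Real.GammaIntegral_convergent (s := 3 / 2) (by norm_num)
  have i2 := Real.GammaIntegral_convergent (s := 2) (by norm_num)
  have e : EqOn (fun t : ℝ => Real.exp (-t) * (Real.sqrt (Real.pi * t) / 2 - t / (2 * h)))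
      (fun t : ℝ => (Real.sqrt Real.pi / 2) * (Real.exp (-t) * t ^ ((3 / 2 : ℝ) - 1)) -
        (1 / (2 * h)) * (Real.exp (-t) * t ^ ((2 : ℝ) - 1))) (Ioi 0) := by
    intro t ht
    have h1 : t ^ ((3 / 2 : ℝ) - 1) = Real.sqrt t := by
      rw [Real.sqrt_eq_rpow]; norm_num
    have h2 : t ^ ((2 : ℝ) - 1) = t := by norm_num
    simp only [h1, h2]
    rw [Real.sqrt_mul Real.pi_pos.le]
    field_simp
  refine ⟨(integrableOn_congr_fun e measurableSet_Ioi).2 ((i1.const_mul _).sub (i2.const_mul _)),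
    ?_⟩
  rw [setIntegral_congr_fun measurableSet_Ioi e, integral_sub (i1.const_mul _) (i2.const_mul _),
    integral_const_mul, integral_const_mul, ← Real.Gamma_eq_integral (by norm_num),
    ← Real.Gamma_eq_integral (by norm_num)]
  have g1 : Real.Gamma (3 / 2) = Real.sqrt Real.pi / 2 := by
    rw [show (3 / 2 : ℝ) = 1 / 2 + 1 by norm_num, Real.Gamma_add_one (by norm_num),
      Real.Gamma_one_half_eq]
    ring
  have g2 : Real.Gamma 2 = 1 := by
    rw [show (2 : ℝ) = 1 + 1 by norm_num, Real.Gamma_add_one (by norm_num), Real.Gamma_one]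
    norm_num
  rw [g1, g2]
  have : Real.sqrt Real.pi * Real.sqrt Real.pi = Real.pi := Real.mul_self_sqrt Real.pi_pos.le
  nlinarith [this]

theorem psi_thm : PsiStatement := by
  refine ⟨fun y => ⟨psi_nonneg y, psi_le_one y⟩, psi_cont, fun h hh => ?_⟩
  rw [intervalIntegral.integral_of_le hh.le]
  have e1 : ∫ y in Ioc 0 h, psi y * (1 - y / h) =
      ∫ y in Ioc 0 h, ∫ t in Ioi (0 : ℝ), Real.exp (-t - y ^ 2 / t) * (1 - y / h) := by
    refine setIntegral_congr_fun measurableSet_Ioc fun y _ => ?_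
    simp only [psi]
    rw [integral_mul_const]
  have hint : Integrable (Function.uncurry fun y t : ℝ =>
      Real.exp (-t - y ^ 2 / t) * (1 - y / h))
      ((volume.restrict (Ioc 0 h)).prod (volume.restrict (Ioi 0))) := by
    have hb : Integrable (fun p : ℝ × ℝ => (1 : ℝ) * Real.exp (-p.2))
        ((volume.restrict (Ioc 0 h)).prod (volume.restrict (Ioi 0))) :=
      Integrable.mul_prod (f := fun _ : ℝ => (1 : ℝ)) (g := fun t : ℝ => Real.exp (-t))
        (integrable_const _) psi_expint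
    refine hb.mono' ?_ ?_
    · apply Measurable.aestronglyMeasurable
      unfold Function.uncurry
      fun_prop
    · rw [Measure.prod_restrict]
      refine (ae_restrict_iff' (measurableSet_Ioc.prod measurableSet_Ioi)).2
        (Eventually.of_forall fun p hp => ?_)
      obtain ⟨hy, ht⟩ := hp
      simp only [Function.uncurry]
      rw [norm_mul, one_mul, Real.norm_eq_abs, abs_of_pos (Real.exp_pos _)]
      have h1 := psi_le p.1 ht
      have h2 : ‖1 - p.1 / h‖ ≤ 1 := by
        rw [Real.norm_eq_abs, abs_le]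
        have h3 : p.1 / h ≤ 1 := by rw [div_le_one hh]; exact hy.2
        have h4 : 0 ≤ p.1 / h := by
          have := hy.1
          positivity
        constructor <;> linarith
      calc _ ≤ Real.exp (-p.2) * 1 :=
            mul_le_mul h1 h2 (norm_nonneg _) (Real.exp_pos _).le
        _ = _ := mul_one _
  rw [e1, integral_integral_swap hint]
  obtain ⟨io, vo⟩ := psi_outer hh
  rw [← vo]
  refine setIntegral_mono_on io hint.integral_prod_right measurableSet_Ioi fun t ht => ?_
  have e2 : ∀ y : ℝ, Real.exp (-t - y ^ 2 / t) * (1 - y / h) =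
      Real.exp (-t) * (Real.exp (-(y ^ 2 / t)) * (1 - y / h)) := fun y => by
    rw [sub_eq_add_neg, Real.exp_add]; ring
  simp only [e2]
  rw [integral_const_mul]
  exact mul_le_mul_of_nonneg_left (psi_inner ht hh) (Real.exp_pos _).le

end Pool.SqDrum
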