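import Mathlib
import Pool.Agent.Lib.MP_2805c2_an.SQ.Iface

set_option autoImplicit false

namespace Pool.SqDrum

open MeasureTheory Set Filter Topology
open scoped ENNReal ContDiff InnerProductSpace

theorem ptw_lapl_int {r L : ℝ} (hr : 0 ≤ r) (hL : 0 < L) :
    IntegrableOn (fun t : ℝ => t ^ r * Real.exp (-(L * t))) (Ioi 0) := by
  have h := integrableOn_rpow_mul_exp_neg_mul_rpow (p := 1) (s := r) (b := L) (by linarith)
    (by norm_num) hL
  refine h.congr_fun (fun t ht => ?_) measurableSet_Ioi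
  simp only [Real.rpow_one, neg_mul]

theorem ptw_lapl {L : ℝ} (hL : 0 < L) :
    ∫⁻ t in Ioi (0 : ℝ), ENNReal.ofReal (t * Real.exp (-(L * t))) =
      ENNReal.ofReal (1 / L ^ 2) := by
  have hi : IntegrableOn (fun t : ℝ => t * Real.exp (-(L * t))) (Ioi 0) := by
    refine (ptw_lapl_int (r := 1) (by norm_num) hL).congr_fun (fun t ht => ?_) measurableSet_Ioi
    simp only [Real.rpow_one]
  have hv : ∫ t in Ioi (0 : ℝ), t * Real.exp (-(L * t)) = 1 / L ^ 2 := by
    have h := Real.integral_rpow_mul_exp_neg_mul_Ioi (a := 2) (r := L) (by norm_num) hL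
    have g2 : Real.Gamma 2 = 1 := by
      rw [show (2 : ℝ) = 1 + 1 by norm_num, Real.Gamma_add_one (by norm_num), Real.Gamma_one]
      norm_num
    rw [g2] at h
    have e : ∫ t in Ioi (0 : ℝ), t * Real.exp (-(L * t)) =
        ∫ t in Ioi (0 : ℝ), t ^ ((2 : ℝ) - 1) * Real.exp (-(L * t)) := by
      refine setIntegral_congr_fun measurableSet_Ioi fun t ht => ?_
      norm_num
    rw [e, h]
    norm_num
  rw [← ofReal_integral_eq_lintegral_ofReal hi, hv]
  refine (ae_restrict_iff' measurableSet_Ioi).2 (Eventually.of_forall fun t ht => ?_)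
  exact mul_nonneg (le_of_lt ht) (Real.exp_pos _).le

/-- the terms of the heat kernel of an interval -/
noncomputable def ptwH (M t x : ℝ) (m : ℕ) : ℝ :=
  (2 / M) * (Real.exp (-(Real.pi ^ 2 * (m : ℝ) ^ 2 * t / M ^ 2)) *
    Real.sin (m * Real.pi * x / M) ^ 2)

theorem ptwH_nonneg {M t x : ℝ} (hM : 0 < M) (m : ℕ) : 0 ≤ ptwH M t x m := by
  unfold ptwH; positivity

theorem ptwH_sum (h1 : ThtStatement) {M t x : ℝ} (hM : 0 < M) (ht : 0 < t) :
    ∑' m, ENNReal.ofReal (ptwH M t x m) ≤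
      ENNReal.ofReal ((1 - Real.exp (-(x ^ 2 / t)) + Real.pi ^ 2 / 3 * t / M ^ 2) /
        Real.sqrt (4 * Real.pi * t)) := by
  obtain ⟨hs, hb⟩ := h1 M t x hM ht
  rw [← ENNReal.ofReal_tsum_of_nonneg (ptwH_nonneg hM) (hs.mul_left _)]
  apply ENNReal.ofReal_le_ofReal
  unfold ptwH
  rw [tsum_mul_left]
  exact hb

/-- the bound for fixed time -/
theorem ptw_time (h1 : ThtStatement) {M t x y : ℝ} (hM : 1 ≤ M) (ht : 0 < t) :
    ∑' k : ℕ × ℕ, ENNReal.ofReal (t * Real.exp (-t) * (ptwH M t x k.1 * ptwH M t y k.2)) ≤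
      ENNReal.ofReal ((1 / (4 * Real.pi)) * (Real.exp (-t) - Real.exp (-t - y ^ 2 / t) +
        (2 * (Real.pi ^ 2 / 3) / M ^ 2 * (t * Real.exp (-t)) +
          (Real.pi ^ 2 / 3) ^ 2 / M ^ 2 * (t ^ 2 * Real.exp (-t))))) := by
  have hM0 : 0 < M := by linarith
  have hpi := Real.pi_pos
  have e1 : ∀ k : ℕ × ℕ, ENNReal.ofReal (t * Real.exp (-t) * (ptwH M t x k.1 * ptwH M t y k.2)) =
      ENNReal.ofReal (t * Real.exp (-t)) *
        (ENNReal.ofReal (ptwH M t x k.1) * ENNReal.ofReal (ptwH M t y k.2)) := fun k => by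
    rw [ENNReal.ofReal_mul (by positivity), ENNReal.ofReal_mul (ptwH_nonneg hM0 _)]
  simp_rw [e1]
  rw [ENNReal.tsum_mul_left, ENNReal.tsum_prod (f := fun m n =>
    ENNReal.ofReal (ptwH M t x m) * ENNReal.ofReal (ptwH M t y n))]
  simp_rw [ENNReal.tsum_mul_left]
  rw [ENNReal.tsum_mul_right]
  have hA := ptwH_sum h1 (M := M) (t := t) (x := x) hM0 ht
  have hB := ptwH_sum h1 (M := M) (t := t) (x := y) hM0 ht
  have hq : 0 < Real.sqrt (4 * Real.pi * t) := Real.sqrt_pos.2 (by positivity)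
  have hsq : Real.sqrt (4 * Real.pi * t) * Real.sqrt (4 * Real.pi * t) = 4 * Real.pi * t :=
    Real.mul_self_sqrt (by positivity)
  set s : ℝ := Real.pi ^ 2 / 3 * t / M ^ 2 with hs
  have hs0 : 0 < s := by positivity
  have hux : 0 ≤ 1 - Real.exp (-(x ^ 2 / t)) ∧ 1 - Real.exp (-(x ^ 2 / t)) ≤ 1 := by
    have : Real.exp (-(x ^ 2 / t)) ≤ 1 := by
      apply Real.exp_le_one_iff.2
      have : 0 ≤ x ^ 2 / t := by positivity
      linarith
    have h2 := Real.exp_pos (-(x ^ 2 / t))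
    constructor <;> linarith
  have huy : 0 ≤ 1 - Real.exp (-(y ^ 2 / t)) ∧ 1 - Real.exp (-(y ^ 2 / t)) ≤ 1 := by
    have : Real.exp (-(y ^ 2 / t)) ≤ 1 := by
      apply Real.exp_le_one_iff.2
      have : 0 ≤ y ^ 2 / t := by positivity
      linarith
    have h2 := Real.exp_pos (-(y ^ 2 / t))
    constructor <;> linarith
  calc ENNReal.ofReal (t * Real.exp (-t)) *
        ((∑' m, ENNReal.ofReal (ptwH M t x m)) * ∑' n, ENNReal.ofReal (ptwH M t y n)) ≤
      ENNReal.ofReal (t * Real.exp (-t)) *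
        (ENNReal.ofReal ((1 - Real.exp (-(x ^ 2 / t)) + s) / Real.sqrt (4 * Real.pi * t)) *
          ENNReal.ofReal ((1 - Real.exp (-(y ^ 2 / t)) + s) / Real.sqrt (4 * Real.pi * t))) := by
        gcongr
    _ = ENNReal.ofReal (t * Real.exp (-t) * ((1 - Real.exp (-(x ^ 2 / t)) + s) /
          Real.sqrt (4 * Real.pi * t) * ((1 - Real.exp (-(y ^ 2 / t)) + s) /
            Real.sqrt (4 * Real.pi * t)))) := by
        rw [← ENNReal.ofReal_mul (div_nonneg (by linarith) hq.le),
          ← ENNReal.ofReal_mul (by positivity)]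
    _ ≤ _ := by
        apply ENNReal.ofReal_le_ofReal
        have e2 : t * Real.exp (-t) * ((1 - Real.exp (-(x ^ 2 / t)) + s) /
          Real.sqrt (4 * Real.pi * t) * ((1 - Real.exp (-(y ^ 2 / t)) + s) /
            Real.sqrt (4 * Real.pi * t))) = (1 / (4 * Real.pi)) * (Real.exp (-t) *
              ((1 - Real.exp (-(x ^ 2 / t)) + s) * (1 - Real.exp (-(y ^ 2 / t)) + s))) := by
          rw [div_mul_div_comm, hsq]
          field_simp
        rw [e2]
        apply mul_le_mul_of_nonneg_left _ (by positivity)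
        have e3 : Real.exp (-t) - Real.exp (-t - y ^ 2 / t) =
            Real.exp (-t) * (1 - Real.exp (-(y ^ 2 / t))) := by
          rw [sub_eq_add_neg (-t), Real.exp_add]; ring
        have e4 : 2 * (Real.pi ^ 2 / 3) / M ^ 2 * (t * Real.exp (-t)) +
            (Real.pi ^ 2 / 3) ^ 2 / M ^ 2 * (t ^ 2 * Real.exp (-t)) =
            Real.exp (-t) * (2 * s + s ^ 2 * M ^ 2) := by
          rw [hs]; field_simp
        rw [e3, e4, ← _root_.mul_add]
        apply mul_le_mul_of_nonneg_left _ (Real.exp_pos _).le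
        have hM2 : 1 ≤ M ^ 2 := by nlinarith
        have h5 : s ^ 2 ≤ s ^ 2 * M ^ 2 := le_mul_of_one_le_right (by positivity) hM2
        nlinarith [hux.1, hux.2, huy.1, huy.2, mul_nonneg hs0.le huy.1, mul_nonneg hs0.le hux.1,
          mul_le_mul_of_nonneg_right hux.2 huy.1, mul_le_mul_of_nonneg_left hux.2 hs0.le,
          mul_le_mul_of_nonneg_left huy.2 hs0.le]

theorem ptw (h1 : ThtStatement) : PtwStatement := by
  have hpi := Real.pi_pos
  refine ⟨(2 * (Real.pi ^ 2 / 3) + 2 * (Real.pi ^ 2 / 3) ^ 2) / (4 * Real.pi), by positivity,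
    fun x₀ M x hM => ?_⟩
  have hM0 : 0 < M := by linarith
  set c : ℝ := Real.pi ^ 2 / 3 with hc
  -- each term as an integral
  have e1 : ∀ k : ℕ × ℕ, ENNReal.ofReal (1 / (lam M k + 1) ^ 2) *
      ENNReal.ofReal (ef x₀ 0 M k x ^ 2) = ∫⁻ t in Ioi (0 : ℝ),
        ENNReal.ofReal (t * Real.exp (-t) * (ptwH M t (x.1 - x₀) k.1 * ptwH M t x.2 k.2)) := by
    intro k
    have hl : 0 < lam M k + 1 := by unfold lam; positivity
    rw [← ptw_lapl hl, ← lintegral_mul_const _ (by fun_prop)]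
    refine setLIntegral_congr_fun measurableSet_Ioi fun t ht => ?_
    have ht0 : 0 < t := ht
    rw [← ENNReal.ofReal_mul (by positivity)]
    congr 1
    unfold ef ptwH lam
    have : Real.exp (-((Real.pi ^ 2 * ((k.1 : ℝ) ^ 2 + (k.2 : ℝ) ^ 2) / M ^ 2 + 1) * t)) =
        Real.exp (-t) * (Real.exp (-(Real.pi ^ 2 * (k.1 : ℝ) ^ 2 * t / M ^ 2)) *
          Real.exp (-(Real.pi ^ 2 * (k.2 : ℝ) ^ 2 * t / M ^ 2))) := by
      rw [← Real.exp_add, ← Real.exp_add]; congr 1; ring
    rw [this, sub_zero]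
    ring
  simp_rw [e1]
  rw [← lintegral_tsum (fun k => by unfold ptwH; fun_prop)]
  have iA : IntegrableOn (fun t : ℝ => Real.exp (-t)) (Ioi 0) := by
    have := exp_neg_integrableOn_Ioi 0 (b := 1) one_pos
    simpa using this
  have iB : IntegrableOn (fun t : ℝ => Real.exp (-t - x.2 ^ 2 / t)) (Ioi 0) := by
    refine Integrable.mono' iA (by apply Measurable.aestronglyMeasurable; fun_prop) ?_
    refine (ae_restrict_iff' measurableSet_Ioi).2 (Eventually.of_forall fun t ht => ?_)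
    rw [Real.norm_eq_abs, abs_of_pos (Real.exp_pos _)]
    apply Real.exp_le_exp.2
    have ht0 : (0 : ℝ) < t := ht
    have : 0 ≤ x.2 ^ 2 / t := by positivity
    linarith
  have iC : IntegrableOn (fun t : ℝ => t * Real.exp (-t)) (Ioi 0) := by
    refine (ptw_lapl_int (r := 1) (L := 1) (by norm_num) one_pos).congr_fun
      (fun t ht => ?_) measurableSet_Ioi
    simp only [Real.rpow_one, one_mul]
  have iD : IntegrableOn (fun t : ℝ => t ^ 2 * Real.exp (-t)) (Ioi 0) := by
    refine (ptw_lapl_int (r := 2) (L := 1) (by norm_num) one_pos).congr_fun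
      (fun t ht => ?_) measurableSet_Ioi
    simp only [one_mul, Real.rpow_ofNat]
  have vC : ∫ t in Ioi (0 : ℝ), t * Real.exp (-t) = 1 := by
    have h := Real.Gamma_eq_integral (s := 2) (by norm_num)
    have g2 : Real.Gamma 2 = 1 := by
      rw [show (2 : ℝ) = 1 + 1 by norm_num, Real.Gamma_add_one (by norm_num), Real.Gamma_one]
      norm_num
    rw [← g2, h]
    refine setIntegral_congr_fun measurableSet_Ioi fun t ht => ?_
    norm_num
    ring
  have vD : ∫ t in Ioi (0 : ℝ), t ^ 2 * Real.exp (-t) = 2 := by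
    have h := Real.Gamma_eq_integral (s := 3) (by norm_num)
    have g2 : Real.Gamma 3 = 2 := by
      rw [show (3 : ℝ) = 1 + 1 + 1 by norm_num, Real.Gamma_add_one (by norm_num),
        Real.Gamma_add_one (by norm_num), Real.Gamma_one]
      norm_num
    rw [← g2, h]
    refine setIntegral_congr_fun measurableSet_Ioi fun t ht => ?_
    norm_num
    ring
  have vA : ∫ t in Ioi (0 : ℝ), Real.exp (-t) = 1 := integral_exp_neg_Ioi_zero
  have iE : IntegrableOn (fun t : ℝ => 2 * c / M ^ 2 * (t * Real.exp (-t)) +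
      c ^ 2 / M ^ 2 * (t ^ 2 * Real.exp (-t))) (Ioi 0) :=
    (iC.const_mul (2 * c / M ^ 2)).add (iD.const_mul (c ^ 2 / M ^ 2))
  have iF : IntegrableOn (fun t : ℝ => Real.exp (-t) - Real.exp (-t - x.2 ^ 2 / t)) (Ioi 0) :=
    iA.sub iB
  have iT : IntegrableOn (fun t : ℝ => (1 / (4 * Real.pi)) *
        (Real.exp (-t) - Real.exp (-t - x.2 ^ 2 / t) +
          (2 * c / M ^ 2 * (t * Real.exp (-t)) + c ^ 2 / M ^ 2 * (t ^ 2 * Real.exp (-t)))))
          (Ioi 0) := (iF.add iE).const_mul (1 / (4 * Real.pi))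
  calc ∫⁻ t in Ioi (0 : ℝ), ∑' k : ℕ × ℕ,
        ENNReal.ofReal (t * Real.exp (-t) * (ptwH M t (x.1 - x₀) k.1 * ptwH M t x.2 k.2)) ≤
      ∫⁻ t in Ioi (0 : ℝ), ENNReal.ofReal ((1 / (4 * Real.pi)) *
        (Real.exp (-t) - Real.exp (-t - x.2 ^ 2 / t) +
          (2 * c / M ^ 2 * (t * Real.exp (-t)) + c ^ 2 / M ^ 2 * (t ^ 2 * Real.exp (-t))))) := by
        refine setLIntegral_mono' measurableSet_Ioi fun t ht => ?_
        exact ptw_time h1 hM ht
    _ = ENNReal.ofReal (∫ t in Ioi (0 : ℝ), (1 / (4 * Real.pi)) *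
        (Real.exp (-t) - Real.exp (-t - x.2 ^ 2 / t) +
          (2 * c / M ^ 2 * (t * Real.exp (-t)) + c ^ 2 / M ^ 2 * (t ^ 2 * Real.exp (-t))))) := by
        rw [ofReal_integral_eq_lintegral_ofReal iT]
        refine (ae_restrict_iff' measurableSet_Ioi).2 (Eventually.of_forall fun t ht => ?_)
        have ht0 : (0 : ℝ) < t := ht
        have h4 : Real.exp (-t - x.2 ^ 2 / t) ≤ Real.exp (-t) := by
          apply Real.exp_le_exp.2
          have : 0 ≤ x.2 ^ 2 / t := by positivity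
          linarith
        have h5 : 0 ≤ Real.exp (-t) - Real.exp (-t - x.2 ^ 2 / t) := by linarith
        simp only [Pi.zero_apply]
        positivity
    _ ≤ _ := by
        apply ENNReal.ofReal_le_ofReal
        rw [integral_const_mul, integral_add iF iE, integral_sub iA iB,
          integral_add (iC.const_mul _) (iD.const_mul _), integral_const_mul, integral_const_mul,
          vA, vC, vD]
        unfold psi
        apply le_of_eq
        field_simp

end Pool.SqDrum
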