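import Pool.Agent.Lib.MP_2805c2_an.SQ.Iface

set_option autoImplicit false

/-!
# QDA: convex quadrilaterals and their bilinear parametrisation
-/

namespace Pool.SqDrum

open MeasureTheory Set Filter Topology

namespace QdaAux

theorem mem_D (x : P2) : x ∈ D ↔ (-1/2 < x.1 ∧ x.1 < 1/2) ∧ (-1/2 < x.2 ∧ x.2 < 1/2) := by
  simp only [D, Sq, mem_prod, mem_Ioo]
  constructor
  · rintro ⟨⟨h1, h2⟩, ⟨h3, h4⟩⟩
    exact ⟨⟨h1, by linarith⟩, ⟨h3, by linarith⟩⟩
  · rintro ⟨⟨h1, h2⟩, ⟨h3, h4⟩⟩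
    exact ⟨⟨h1, by linarith⟩, ⟨h3, by linarith⟩⟩

/-- the side functions -/
noncomputable def ell (q : Fin 4 → P2) (i : Fin 4) (x : P2) : ℝ := det2 (q (i + 1) - q i) (x - q i)

/-- the eight inequalities -/
theorem ccw8 {q : Fin 4 → P2} (h : Ccw q) :
    (0 < det2 (q 1 - q 0) (q 2 - q 0) ∧ 0 < det2 (q 1 - q 0) (q 3 - q 0)) ∧
    (0 < det2 (q 2 - q 1) (q 3 - q 1) ∧ 0 < det2 (q 2 - q 1) (q 0 - q 1)) ∧
    (0 < det2 (q 3 - q 2) (q 0 - q 2) ∧ 0 < det2 (q 3 - q 2) (q 1 - q 2)) ∧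
    (0 < det2 (q 0 - q 3) (q 1 - q 3) ∧ 0 < det2 (q 0 - q 3) (q 2 - q 3)) :=
  ⟨⟨h 0 2 (by decide) (by decide), h 0 3 (by decide) (by decide)⟩,
    ⟨h 1 3 (by decide) (by decide), h 1 0 (by decide) (by decide)⟩,
    ⟨h 2 0 (by decide) (by decide), h 2 1 (by decide) (by decide)⟩,
    ⟨h 3 1 (by decide) (by decide), h 3 2 (by decide) (by decide)⟩⟩

theorem forall4 {P : Fin 4 → Prop} (h0 : P 0) (h1 : P 1) (h2 : P 2) (h3 : P 3) : ∀ i, P i := by
  intro i
  fin_cases i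
  · exact h0
  · exact h1
  · exact h2
  · exact h3

/-- the bilinear map in terms of the vertices -/
theorem bil_eq (q : Fin 4 → P2) (x : P2) :
    bil (qc q) (qa q) (qb q) (qw q) x =
      ((1/2 - x.1) * (1/2 - x.2)) • q 0 + ((1/2 + x.1) * (1/2 - x.2)) • q 1 +
      ((1/2 + x.1) * (1/2 + x.2)) • q 2 + ((1/2 - x.1) * (1/2 + x.2)) • q 3 := by
  ext
  · simp only [bil, qc, qa, qb, qw, Prod.fst_add, Prod.smul_fst, Prod.fst_sub, smul_eq_mul]
    ring
  · simp only [bil, qc, qa, qb, qw, Prod.snd_add, Prod.smul_snd, Prod.snd_sub, smul_eq_mul]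
    ring

theorem jac_eq (q : Fin 4 → P2) (x : P2) :
    det2 (qa q + x.2 • qw q) (qb q + x.1 • qw q) =
      (1/2 - x.1) * (1/2 - x.2) * det2 (q 1 - q 0) (q 3 - q 0) +
      (1/2 + x.1) * (1/2 - x.2) * det2 (q 2 - q 1) (q 0 - q 1) +
      (1/2 + x.1) * (1/2 + x.2) * det2 (q 3 - q 2) (q 1 - q 2) +
      (1/2 - x.1) * (1/2 + x.2) * det2 (q 0 - q 3) (q 2 - q 3) := by
  simp only [qa, qb, qw, det2, Prod.fst_add, Prod.smul_fst, Prod.fst_sub, smul_eq_mul,
    Prod.snd_add, Prod.smul_snd, Prod.snd_sub]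
  ring

theorem jac_lower {q : Fin 4 → P2} (h : Ccw q) :
    ∃ c : ℝ, 0 < c ∧ ∀ x ∈ D, c ≤ det2 (qa q + x.2 • qw q) (qb q + x.1 • qw q) := by
  obtain ⟨⟨-, h03⟩, ⟨-, h10⟩, ⟨-, h21⟩, ⟨-, h32⟩⟩ := ccw8 h
  refine ⟨min (min (det2 (q 1 - q 0) (q 3 - q 0)) (det2 (q 2 - q 1) (q 0 - q 1)))
    (min (det2 (q 3 - q 2) (q 1 - q 2)) (det2 (q 0 - q 3) (q 2 - q 3))), by positivity, ?_⟩
  intro x hx
  obtain ⟨⟨h1, h2⟩, ⟨h3, h4⟩⟩ := (mem_D x).1 hx
  rw [jac_eq]
  set A := det2 (q 1 - q 0) (q 3 - q 0)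
  set B := det2 (q 2 - q 1) (q 0 - q 1)
  set C := det2 (q 3 - q 2) (q 1 - q 2)
  set E := det2 (q 0 - q 3) (q 2 - q 3)
  set m := min (min A B) (min C E)
  have hA : m ≤ A := (min_le_left _ _).trans (min_le_left _ _)
  have hB : m ≤ B := (min_le_left _ _).trans (min_le_right _ _)
  have hC : m ≤ C := (min_le_right _ _).trans (min_le_left _ _)
  have hE : m ≤ E := (min_le_right _ _).trans (min_le_right _ _)
  have w0 : 0 ≤ (1/2 - x.1) * (1/2 - x.2) := mul_nonneg (by linarith) (by linarith)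
  have w1 : 0 ≤ (1/2 + x.1) * (1/2 - x.2) := mul_nonneg (by linarith) (by linarith)
  have w2 : 0 ≤ (1/2 + x.1) * (1/2 + x.2) := mul_nonneg (by linarith) (by linarith)
  have w3 : 0 ≤ (1/2 - x.1) * (1/2 + x.2) := mul_nonneg (by linarith) (by linarith)
  nlinarith [mul_le_mul_of_nonneg_left hA w0, mul_le_mul_of_nonneg_left hB w1,
    mul_le_mul_of_nonneg_left hC w2, mul_le_mul_of_nonneg_left hE w3]

theorem bil_injOn {q : Fin 4 → P2} (h : Ccw q) :
    InjOn (bil (qc q) (qa q) (qb q) (qw q)) D := by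
  obtain ⟨c, hc, hJ⟩ := jac_lower h
  intro x hx y hy hxy
  have hx' := (mem_D x).1 hx
  have hy' := (mem_D y).1 hy
  have hz : (y.1, x.2) ∈ D := (mem_D _).2 ⟨hy'.1, hx'.2⟩
  have hJz := hJ _ hz
  have e1 := congrArg Prod.fst hxy
  have e2 := congrArg Prod.snd hxy
  simp only [bil, Prod.fst_add, Prod.smul_fst, smul_eq_mul, Prod.snd_add, Prod.smul_snd] at e1 e2
  simp only [det2, Prod.fst_add, Prod.smul_fst, smul_eq_mul, Prod.snd_add, Prod.smul_snd] at hJz
  set a := qa q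
  set b := qb q
  set w := qw q
  have k1 : (x.1 - y.1) * ((a.1 + x.2 * w.1) * (b.2 + y.1 * w.2) -
      (a.2 + x.2 * w.2) * (b.1 + y.1 * w.1)) = 0 := by
    linear_combination (b.2 + y.1 * w.2) * e1 - (b.1 + y.1 * w.1) * e2
  have k2 : (x.2 - y.2) * ((a.1 + x.2 * w.1) * (b.2 + y.1 * w.2) -
      (a.2 + x.2 * w.2) * (b.1 + y.1 * w.1)) = 0 := by
    linear_combination (a.1 + x.2 * w.1) * e2 - (a.2 + x.2 * w.2) * e1
  have hne : ((a.1 + x.2 * w.1) * (b.2 + y.1 * w.2) -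
      (a.2 + x.2 * w.2) * (b.1 + y.1 * w.1)) ≠ 0 := by
    intro h0
    rw [h0] at hJz
    linarith
  have m1 := (mul_eq_zero.1 k1).resolve_right hne
  have m2 := (mul_eq_zero.1 k2).resolve_right hne
  ext
  · linarith
  · linarith

theorem image_pos {q : Fin 4 → P2} (h : Ccw q) {x : P2} (hx : x ∈ D) :
    ∀ i, 0 < ell q i (bil (qc q) (qa q) (qb q) (qw q) x) := by
  obtain ⟨⟨h02, h03⟩, ⟨h13, h10⟩, ⟨h20, h21⟩, ⟨h31, h32⟩⟩ := ccw8 h
  obtain ⟨⟨h1, h2⟩, ⟨h3, h4⟩⟩ := (mem_D x).1 hx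
  have w0 : 0 < (1/2 - x.1) * (1/2 - x.2) := mul_pos (by linarith) (by linarith)
  have w1 : 0 < (1/2 + x.1) * (1/2 - x.2) := mul_pos (by linarith) (by linarith)
  have w2 : 0 < (1/2 + x.1) * (1/2 + x.2) := mul_pos (by linarith) (by linarith)
  have w3 : 0 < (1/2 - x.1) * (1/2 + x.2) := mul_pos (by linarith) (by linarith)
  rw [bil_eq]
  refine forall4 ?_ ?_ ?_ ?_
  · have e : ell q 0 (((1/2 - x.1) * (1/2 - x.2)) • q 0 + ((1/2 + x.1) * (1/2 - x.2)) • q 1 +
      ((1/2 + x.1) * (1/2 + x.2)) • q 2 + ((1/2 - x.1) * (1/2 + x.2)) • q 3) =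
      ((1/2 + x.1) * (1/2 + x.2)) * det2 (q 1 - q 0) (q 2 - q 0) +
      ((1/2 - x.1) * (1/2 + x.2)) * det2 (q 1 - q 0) (q 3 - q 0) := by
      simp only [ell, zero_add, det2, Prod.fst_add, Prod.smul_fst, Prod.fst_sub, smul_eq_mul,
        Prod.snd_add, Prod.smul_snd, Prod.snd_sub]
      ring
    rw [e]
    positivity
  · have e : ell q 1 (((1/2 - x.1) * (1/2 - x.2)) • q 0 + ((1/2 + x.1) * (1/2 - x.2)) • q 1 +
      ((1/2 + x.1) * (1/2 + x.2)) • q 2 + ((1/2 - x.1) * (1/2 + x.2)) • q 3) =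
      ((1/2 - x.1) * (1/2 + x.2)) * det2 (q 2 - q 1) (q 3 - q 1) +
      ((1/2 - x.1) * (1/2 - x.2)) * det2 (q 2 - q 1) (q 0 - q 1) := by
      have : (1 : Fin 4) + 1 = 2 := rfl
      simp only [ell, this, det2, Prod.fst_add, Prod.smul_fst, Prod.fst_sub, smul_eq_mul,
        Prod.snd_add, Prod.smul_snd, Prod.snd_sub]
      ring
    rw [e]
    positivity
  · have e : ell q 2 (((1/2 - x.1) * (1/2 - x.2)) • q 0 + ((1/2 + x.1) * (1/2 - x.2)) • q 1 +
      ((1/2 + x.1) * (1/2 + x.2)) • q 2 + ((1/2 - x.1) * (1/2 + x.2)) • q 3) =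
      ((1/2 - x.1) * (1/2 - x.2)) * det2 (q 3 - q 2) (q 0 - q 2) +
      ((1/2 + x.1) * (1/2 - x.2)) * det2 (q 3 - q 2) (q 1 - q 2) := by
      have : (2 : Fin 4) + 1 = 3 := rfl
      simp only [ell, this, det2, Prod.fst_add, Prod.smul_fst, Prod.fst_sub, smul_eq_mul,
        Prod.snd_add, Prod.smul_snd, Prod.snd_sub]
      ring
    rw [e]
    positivity
  · have e : ell q 3 (((1/2 - x.1) * (1/2 - x.2)) • q 0 + ((1/2 + x.1) * (1/2 - x.2)) • q 1 +
      ((1/2 + x.1) * (1/2 + x.2)) • q 2 + ((1/2 - x.1) * (1/2 + x.2)) • q 3) =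
      ((1/2 + x.1) * (1/2 - x.2)) * det2 (q 0 - q 3) (q 1 - q 3) +
      ((1/2 + x.1) * (1/2 + x.2)) * det2 (q 0 - q 3) (q 2 - q 3) := by
      have : (3 : Fin 4) + 1 = 0 := rfl
      simp only [ell, this, det2, Prod.fst_add, Prod.smul_fst, Prod.fst_sub, smul_eq_mul,
        Prod.snd_add, Prod.smul_snd, Prod.snd_sub]
      ring
    rw [e]
    positivity

theorem exists_preimage {q : Fin 4 → P2} (h : Ccw q) {X : P2} (hX : ∀ i, 0 < ell q i X) :
    ∃ x ∈ D, bil (qc q) (qa q) (qb q) (qw q) x = X := by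
  obtain ⟨⟨h02, h03⟩, ⟨h13, h10⟩, ⟨h20, h21⟩, ⟨h31, h32⟩⟩ := ccw8 h
  have l0 := hX 0
  have l1 := hX 1
  have l2 := hX 2
  have l3 := hX 3
  have e1 : (1 : Fin 4) + 1 = 2 := rfl
  have e2 : (2 : Fin 4) + 1 = 3 := rfl
  have e3 : (3 : Fin 4) + 1 = 0 := rfl
  simp only [ell, zero_add, e1, e2, e3, det2, Prod.fst_sub, Prod.snd_sub] at l0 l1 l2 l3
  simp only [det2, Prod.fst_sub, Prod.snd_sub] at h02 h03 h13 h10 h20 h21 h31 h32
  set a0 := (q 0).1
  set b0 := (q 0).2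
  set a1 := (q 1).1
  set b1 := (q 1).2
  set a2 := (q 2).1
  set b2 := (q 2).2
  set a3 := (q 3).1
  set b3 := (q 3).2
  set X1 := X.1
  set X2 := X.2
  -- the two points on the opposite sides
  let B1 : ℝ → ℝ := fun x => a0 + (x + 1/2) * (a1 - a0)
  let B2 : ℝ → ℝ := fun x => b0 + (x + 1/2) * (b1 - b0)
  let T1 : ℝ → ℝ := fun x => a3 + (x + 1/2) * (a2 - a3)
  let T2 : ℝ → ℝ := fun x => b3 + (x + 1/2) * (b2 - b3)
  let g : ℝ → ℝ := fun x => (T1 x - B1 x) * (X2 - B2 x) - (T2 x - B2 x) * (X1 - B1 x)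
  have hg : Continuous g := by
    simp only [g, T1, T2, B1, B2]
    fun_prop
  have g0 : g (-1/2) < 0 := by
    have : g (-1/2) = -((a0 - a3) * (X2 - b3) - (b0 - b3) * (X1 - a3)) := by
      simp only [g, T1, T2, B1, B2]
      ring
    rw [this]
    linarith
  have g1 : 0 < g (1/2) := by
    have : g (1/2) = (a2 - a1) * (X2 - b1) - (b2 - b1) * (X1 - a1) := by
      simp only [g, T1, T2, B1, B2]
      ring
    rw [this]
    linarith
  obtain ⟨x, hx, hgx⟩ := intermediate_value_Ioo (by norm_num : (-1/2 : ℝ) ≤ 1/2)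
    hg.continuousOn (show (0 : ℝ) ∈ Ioo (g (-1/2)) (g (1/2)) from ⟨g0, g1⟩)
  have hx1 : -1/2 < x := hx.1
  have hx2 : x < 1/2 := hx.2
  -- values of the side functions
  have hT : 0 < (a1 - a0) * (T2 x - b0) - (b1 - b0) * (T1 x - a0) := by
    have e : (a1 - a0) * (T2 x - b0) - (b1 - b0) * (T1 x - a0) =
        (1/2 - x) * ((a1 - a0) * (b3 - b0) - (b1 - b0) * (a3 - a0)) +
        (1/2 + x) * ((a1 - a0) * (b2 - b0) - (b1 - b0) * (a2 - a0)) := by
      simp only [T1, T2]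
      ring
    rw [e]
    have m1 : 0 < (1/2 - x) * ((a1 - a0) * (b3 - b0) - (b1 - b0) * (a3 - a0)) :=
      mul_pos (by linarith) h03
    have m2 : 0 < (1/2 + x) * ((a1 - a0) * (b2 - b0) - (b1 - b0) * (a2 - a0)) :=
      mul_pos (by linarith) h02
    linarith
  have hB : 0 < (a3 - a2) * (B2 x - b2) - (b3 - b2) * (B1 x - a2) := by
    have e : (a3 - a2) * (B2 x - b2) - (b3 - b2) * (B1 x - a2) =
        (1/2 - x) * ((a3 - a2) * (b0 - b2) - (b3 - b2) * (a0 - a2)) +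
        (1/2 + x) * ((a3 - a2) * (b1 - b2) - (b3 - b2) * (a1 - a2)) := by
      simp only [B1, B2]
      ring
    rw [e]
    have m1 : 0 < (1/2 - x) * ((a3 - a2) * (b0 - b2) - (b3 - b2) * (a0 - a2)) :=
      mul_pos (by linarith) h20
    have m2 : 0 < (1/2 + x) * ((a3 - a2) * (b1 - b2) - (b3 - b2) * (a1 - a2)) :=
      mul_pos (by linarith) h21
    linarith
  set t := (a1 - a0) * (T2 x - b0) - (b1 - b0) * (T1 x - a0) with ht
  set s := (a1 - a0) * (X2 - b0) - (b1 - b0) * (X1 - a0) with hs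
  -- `det(u, v) y = det(u, y) v`
  have hgx' : (T1 x - B1 x) * (X2 - B2 x) - (T2 x - B2 x) * (X1 - B1 x) = 0 := hgx
  have hu : (a1 - a0) * (T2 x - B2 x) - (b1 - b0) * (T1 x - B1 x) = t := by
    simp only [ht, B1, B2]
    ring
  have hv : (a1 - a0) * (X2 - B2 x) - (b1 - b0) * (X1 - B1 x) = s := by
    simp only [hs, B1, B2]
    ring
  have c1 : t * (X1 - B1 x) = s * (T1 x - B1 x) := by
    rw [← hu, ← hv]
    linear_combination (-(a1 - a0)) * hgx'
  have c2 : t * (X2 - B2 x) = s * (T2 x - B2 x) := by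
    rw [← hu, ← hv]
    linear_combination (-(b1 - b0)) * hgx'
  have ht0 : t ≠ 0 := hT.ne'
  set lm := s / t with hlm
  have hlm0 : 0 < lm := div_pos l0 hT
  have d1 : X1 = B1 x + lm * (T1 x - B1 x) := by
    rw [hlm]
    field_simp
    linarith
  have d2 : X2 = B2 x + lm * (T2 x - B2 x) := by
    rw [hlm]
    field_simp
    linarith
  have hlm1 : lm < 1 := by
    have e : (a3 - a2) * (X2 - b2) - (b3 - b2) * (X1 - a2) =
        (1 - lm) * ((a3 - a2) * (B2 x - b2) - (b3 - b2) * (B1 x - a2)) := by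
      rw [d1, d2]
      simp only [T1, T2]
      ring
    rw [e] at l2
    by_contra hcon
    have : (1 - lm) * ((a3 - a2) * (B2 x - b2) - (b3 - b2) * (B1 x - a2)) ≤ 0 :=
      mul_nonpos_of_nonpos_of_nonneg (by linarith) hB.le
    linarith
  refine ⟨(x, lm - 1/2), (mem_D _).2 ⟨⟨hx1, hx2⟩, ⟨by simp only; linarith, by simp only; linarith⟩⟩,
    ?_⟩
  ext
  · have : X.1 = B1 x + lm * (T1 x - B1 x) := d1
    rw [this]
    simp only [bil, qc, qa, qb, qw, Prod.fst_add, Prod.smul_fst, Prod.fst_sub, smul_eq_mul, T1, B1]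
    ring
  · have : X.2 = B2 x + lm * (T2 x - B2 x) := d2
    rw [this]
    simp only [bil, qc, qa, qb, qw, Prod.snd_add, Prod.smul_snd, Prod.snd_sub, smul_eq_mul, T2, B2]
    ring

theorem ell_continuous (q : Fin 4 → P2) (i : Fin 4) : Continuous (ell q i) := by
  unfold ell det2
  fun_prop

theorem pos_subset_hull {q : Fin 4 → P2} (h : Ccw q) {X : P2} (hX : ∀ i, 0 < ell q i X) :
    X ∈ convexHull ℝ (Set.range q) := by
  obtain ⟨x, hx, rfl⟩ := exists_preimage h hX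
  obtain ⟨⟨h1, h2⟩, ⟨h3, h4⟩⟩ := (mem_D x).1 hx
  rw [bil_eq]
  have hc : Convex ℝ (convexHull ℝ (Set.range q)) := convex_convexHull ℝ _
  have hm : ∀ i, q i ∈ convexHull ℝ (Set.range q) := fun i =>
    subset_convexHull ℝ _ (Set.mem_range_self i)
  have w0 : 0 ≤ (1/2 - x.1) * (1/2 - x.2) := mul_nonneg (by linarith) (by linarith)
  have w1 : 0 ≤ (1/2 + x.1) * (1/2 - x.2) := mul_nonneg (by linarith) (by linarith)
  have w2 : 0 ≤ (1/2 + x.1) * (1/2 + x.2) := mul_nonneg (by linarith) (by linarith)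
  have w3 : 0 ≤ (1/2 - x.1) * (1/2 + x.2) := mul_nonneg (by linarith) (by linarith)
  have := hc.sum_mem (t := Finset.univ)
    (w := ![(1/2 - x.1) * (1/2 - x.2), (1/2 + x.1) * (1/2 - x.2),
      (1/2 + x.1) * (1/2 + x.2), (1/2 - x.1) * (1/2 + x.2)]) (z := q)
    (by
      intro i _
      fin_cases i
      · exact w0
      · exact w1
      · exact w2
      · exact w3)
    (by
      rw [Fin.sum_univ_four]
      simp only [Matrix.cons_val_zero, Matrix.cons_val_one, Matrix.cons_val]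
      ring)
    (fun i _ => hm i)
  rw [Fin.sum_univ_four] at this
  simpa only [Matrix.cons_val_zero, Matrix.cons_val_one, Matrix.cons_val] using this

theorem hull_nonneg {q : Fin 4 → P2} (h : Ccw q) {X : P2} (hX : X ∈ convexHull ℝ (Set.range q)) :
    ∀ i, 0 ≤ ell q i X := by
  intro i
  have hconv : Convex ℝ {Y : P2 | 0 ≤ ell q i Y} := by
    intro Y hY Z hZ a b ha hb hab
    simp only [Set.mem_ofPred_eq, ell, det2, Prod.fst_sub, Prod.snd_sub, Prod.fst_add, Prod.smul_fst,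
      smul_eq_mul, Prod.snd_add, Prod.smul_snd] at hY hZ ⊢
    have hb' : b = 1 - a := by linarith
    subst hb'
    have e : ((q (i + 1)).1 - (q i).1) * (a * Y.2 + (1 - a) * Z.2 - (q i).2) -
        ((q (i + 1)).2 - (q i).2) * (a * Y.1 + (1 - a) * Z.1 - (q i).1) =
        a * (((q (i + 1)).1 - (q i).1) * (Y.2 - (q i).2) -
          ((q (i + 1)).2 - (q i).2) * (Y.1 - (q i).1)) +
        (1 - a) * (((q (i + 1)).1 - (q i).1) * (Z.2 - (q i).2) -
          ((q (i + 1)).2 - (q i).2) * (Z.1 - (q i).1)) := by ring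
    rw [e]
    have := mul_nonneg ha hY
    have := mul_nonneg hb hZ
    linarith
  have hsub : Set.range q ⊆ {Y : P2 | 0 ≤ ell q i Y} := by
    rintro _ ⟨j, rfl⟩
    simp only [Set.mem_ofPred_eq]
    by_cases hj : j = i
    · subst hj
      simp [ell, det2]
    · by_cases hj2 : j = i + 1
      · subst hj2
        simp only [ell, det2]
        apply le_of_eq
        ring
      · exact (h i j hj hj2).le
  exact convexHull_min hsub hconv hX

theorem interior_pos {q : Fin 4 → P2} (h : Ccw q) {X : P2}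
    (hX : X ∈ interior (convexHull ℝ (Set.range q))) : ∀ i, 0 < ell q i X := by
  intro i
  by_contra hcon
  push Not at hcon
  have hu : 0 < (q (i + 1) - q i).1 ^ 2 + (q (i + 1) - q i).2 ^ 2 := by
    have h2 : 0 < det2 (q (i + 1) - q i) (q (i + 2) - q i) := by
      apply h i (i + 2)
      · fin_cases i <;> decide
      · fin_cases i <;> decide
    by_contra hz
    push Not at hz
    have s1 := sq_nonneg (q (i + 1) - q i).1
    have s2 := sq_nonneg (q (i + 1) - q i).2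
    have z1 : (q (i + 1) - q i).1 = 0 := pow_eq_zero_iff (two_ne_zero) |>.1 (by linarith)
    have z2 : (q (i + 1) - q i).2 = 0 := pow_eq_zero_iff (two_ne_zero) |>.1 (by linarith)
    simp only [det2, z1, z2] at h2
    linarith
  set u := q (i + 1) - q i with hudef
  let f : ℝ → P2 := fun t => X + t • ((u.2, -u.1) : P2)
  have hf : Continuous f := by
    simp only [f]
    fun_prop
  have hf0 : f 0 = X := by simp [f]
  have hev : ∀ᶠ t in 𝓝 (0 : ℝ), f t ∈ convexHull ℝ (Set.range q) := by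
    have : Tendsto f (𝓝 0) (𝓝 X) := by
      have := hf.tendsto 0
      rwa [hf0] at this
    exact this.eventually (mem_interior_iff_mem_nhds.1 hX)
  obtain ⟨ε, hε, hball⟩ := Metric.eventually_nhds_iff.1 hev
  have hmem := hball (y := ε / 2) (by
    rw [Real.dist_eq, sub_zero, abs_of_pos (by linarith)]
    linarith)
  have hn := hull_nonneg h hmem i
  have e : ell q i (f (ε / 2)) = ell q i X - (ε / 2) * (u.1 ^ 2 + u.2 ^ 2) := by
    simp only [ell, f, det2, ← hudef, Prod.fst_sub, Prod.snd_sub, Prod.fst_add, Prod.smul_fst,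
      smul_eq_mul, Prod.snd_add, Prod.smul_snd]
    ring
  rw [e] at hn
  have : 0 < (ε / 2) * (u.1 ^ 2 + u.2 ^ 2) := by positivity
  linarith

theorem mem_quad {q : Fin 4 → P2} (h : Ccw q) (X : P2) : X ∈ quad q ↔ ∀ i, 0 < ell q i X := by
  constructor
  · exact interior_pos h
  · intro hX
    have hopen : IsOpen {Y : P2 | ∀ i, 0 < ell q i Y} := by
      simp only [Set.ofPred_forall]
      exact isOpen_iInter_of_finite fun i => isOpen_lt continuous_const (ell_continuous q i)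
    have : {Y : P2 | ∀ i, 0 < ell q i Y} ⊆ interior (convexHull ℝ (Set.range q)) :=
      interior_maximal (fun Y hY => pos_subset_hull h hY) hopen
    exact this hX

end QdaAux

open QdaAux in
/-- QDA -/
theorem qda : QdaStatement := by
  intro q hq
  refine ⟨?_, bil_injOn hq, jac_lower hq, ?_, mem_quad hq⟩
  · ext X
    rw [mem_quad hq]
    constructor
    · intro hX
      obtain ⟨x, hx, he⟩ := exists_preimage hq hX
      exact ⟨x, hx, he⟩
    · rintro ⟨x, hx, rfl⟩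
      exact image_pos hq hx
  · exact ((isBounded_convexHull.2 (Set.finite_range q).isBounded)).subset interior_subset

end Pool.SqDrum
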