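import Pool.Agent.Lib.MP_2805c2_an.SQ.Iface

set_option autoImplicit false

/-!
# QDB: the area of a convex quadrilateral
-/

namespace Pool.SqDrum

open MeasureTheory Set Filter Topology

namespace QdbAux

/-- the derivative of the bilinear map -/
noncomputable def dbil (a b w : P2) (x : P2) : P2 →L[ℝ] P2 :=
  LinearMap.toContinuousLinearMap (Matrix.toLin (Module.Basis.finTwoProd ℝ)
    (Module.Basis.finTwoProd ℝ) !![a.1 + x.2 * w.1, b.1 + x.1 * w.1;
      a.2 + x.2 * w.2, b.2 + x.1 * w.2])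

theorem dbil_det (a b w x : P2) : (dbil a b w x).det =
    det2 (a + x.2 • w) (b + x.1 • w) := by
  unfold dbil
  rw [LinearMap.det_toContinuousLinearMap, LinearMap.det_toLin, Matrix.det_fin_two_of]
  simp only [det2, Prod.fst_add, Prod.smul_fst, smul_eq_mul, Prod.snd_add, Prod.smul_snd]
  ring

theorem bil_hasFDeriv (c a b w x : P2) : HasFDerivAt (bil c a b w) (dbil a b w x) x := by
  have h1 : HasFDerivAt (fun y : P2 => y.1) (ContinuousLinearMap.fst ℝ ℝ ℝ) x := hasFDerivAt_fst
  have h2 : HasFDerivAt (fun y : P2 => y.2) (ContinuousLinearMap.snd ℝ ℝ ℝ) x := hasFDerivAt_snd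
  have h := (((hasFDerivAt_const c x).add (h1.smul_const a)).add (h2.smul_const b)).add
    ((h1.mul h2).smul_const w)
  refine HasFDerivAt.congr_fderiv (f := bil c a b w) h (ContinuousLinearMap.ext fun y => ?_)
  have e : (dbil a b w x) y = ((a.1 + x.2 * w.1) * y.1 + (b.1 + x.1 * w.1) * y.2,
      (a.2 + x.2 * w.2) * y.1 + (b.2 + x.1 * w.2) * y.2) :=
    Matrix.toLin_finTwoProd_apply _ _ _ _ y
  rw [e]
  ext
  · simp
    ring
  · simp
    ring

theorem int_id : ∫ x in Ioo (-1/2 : ℝ) (1/2), x = 0 := by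
  rw [← integral_Ioc_eq_integral_Ioo, ← intervalIntegral.integral_of_le (by norm_num), integral_id]
  norm_num

theorem int_one : ∫ _x in Ioo (-1/2 : ℝ) (1/2), (1 : ℝ) = 1 := by
  rw [← integral_Ioc_eq_integral_Ioo, ← intervalIntegral.integral_of_le (by norm_num)]
  norm_num

theorem D_eq : D = Ioo (-1/2 : ℝ) (1/2) ×ˢ Ioo (-1/2 : ℝ) (1/2) := by
  have : (-1/2 : ℝ) + 1 = 1/2 := by norm_num
  simp only [D, Sq, this]

theorem D_meas : MeasurableSet D := by
  rw [D_eq]
  exact measurableSet_Ioo.prod measurableSet_Ioo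

theorem D_vol : volume D = 1 := by
  rw [D_eq, Measure.volume_eq_prod, Measure.prod_prod, Real.volume_Ioo]
  norm_num

theorem int_D_one : ∫ _x in D, (1 : ℝ) = 1 := by
  rw [setIntegral_const]
  simp [Measure.real, D_vol]

theorem int_D_fst : ∫ x in D, x.1 = 0 := by
  have h := setIntegral_prod_mul (μ := (volume : Measure ℝ)) (ν := (volume : Measure ℝ))
    (fun x : ℝ => x) (fun _ : ℝ => (1 : ℝ)) (Ioo (-1/2 : ℝ) (1/2)) (Ioo (-1/2 : ℝ) (1/2))
  rw [← Measure.volume_eq_prod, ← D_eq, int_id, zero_mul] at h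
  simpa using h

theorem int_D_snd : ∫ x in D, x.2 = 0 := by
  have h := setIntegral_prod_mul (μ := (volume : Measure ℝ)) (ν := (volume : Measure ℝ))
    (fun _ : ℝ => (1 : ℝ)) (fun x : ℝ => x) (Ioo (-1/2 : ℝ) (1/2)) (Ioo (-1/2 : ℝ) (1/2))
  rw [← Measure.volume_eq_prod, ← D_eq, int_id, mul_zero] at h
  simpa using h

theorem intOn {f : P2 → ℝ} (hf : Continuous f) : IntegrableOn f D := by
  have hc : IsCompact (Icc (-1/2 : ℝ) (1/2) ×ˢ Icc (-1/2 : ℝ) (1/2)) := isCompact_Icc.prod isCompact_Icc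
  refine (hf.continuousOn.integrableOn_compact hc).mono_set ?_
  rw [D_eq]
  exact prod_mono Ioo_subset_Icc_self Ioo_subset_Icc_self

theorem int_jac (a b w : P2) : ∫ x in D, det2 (a + x.2 • w) (b + x.1 • w) = det2 a b := by
  have e : ∀ x : P2, det2 (a + x.2 • w) (b + x.1 • w) =
      (det2 a b) * 1 + (det2 a w) * x.1 + (det2 w b) * x.2 := by
    intro x
    simp only [det2, Prod.fst_add, Prod.smul_fst, smul_eq_mul, Prod.snd_add, Prod.smul_snd]
    ring
  simp only [e]
  have i1 : IntegrableOn (fun _ : P2 => (det2 a b) * (1 : ℝ)) D := intOn continuous_const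
  have i2 : IntegrableOn (fun x : P2 => (det2 a w) * x.1) D :=
    intOn (continuous_const.mul continuous_fst)
  have i3 : IntegrableOn (fun x : P2 => (det2 w b) * x.2) D :=
    intOn (continuous_const.mul continuous_snd)
  refine (integral_add (i1.add i2) i3).trans ?_
  refine (congrArg (fun t => t + ∫ x in D, (det2 w b) * x.2) (integral_add i1 i2)).trans ?_
  simp only [integral_const_mul, int_D_one, int_D_fst, int_D_snd]
  ring

end QdbAux

open QdbAux in
/-- QDB -/
theorem qdb (hq : QdaStatement) : QdbStatement := by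
  intro q h
  obtain ⟨h1, h2, ⟨c, hc, h3⟩, -, -⟩ := hq q h
  have hd : ∀ x ∈ D, HasFDerivWithinAt (bil (qc q) (qa q) (qb q) (qw q))
      (dbil (qa q) (qb q) (qw q) x) D x := fun x _ => (bil_hasFDeriv _ _ _ _ x).hasFDerivWithinAt
  have hv := lintegral_abs_det_fderiv_eq_addHaar_image (volume : Measure P2) D_meas hd h2
  have hcont : Continuous (fun x : P2 => det2 (qa q + x.2 • qw q) (qb q + x.1 • qw q)) := by
    simp only [det2, Prod.fst_add, Prod.smul_fst, smul_eq_mul, Prod.snd_add, Prod.smul_snd]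
    fun_prop
  have hv2 : ∫⁻ x in D, ENNReal.ofReal |(dbil (qa q) (qb q) (qw q) x).det| =
      ENNReal.ofReal (det2 (qa q) (qb q)) := by
    rw [← int_jac (qa q) (qb q) (qw q), ofReal_integral_eq_lintegral_ofReal (intOn hcont)]
    · refine setLIntegral_congr_fun D_meas fun x hx => ?_
      simp only [dbil_det]
      rw [abs_of_pos (lt_of_lt_of_le hc (h3 x hx))]
    · exact (ae_restrict_iff' D_meas).2 (Eventually.of_forall fun x hx => hc.le.trans (h3 x hx))
  have hpos : 0 ≤ det2 (qa q) (qb q) := by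
    have h0 : (0, 0) ∈ D := by
      rw [D_eq]
      constructor <;> constructor <;> norm_num
    have := h3 _ h0
    simp only [zero_smul, add_zero] at this
    linarith
  rw [h1, Measure.real, ← hv, hv2, ENNReal.toReal_ofReal hpos]

end Pool.SqDrum
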