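import Pool.Agent.Lib.MP_2805c2_an.SQ.Iface

set_option autoImplicit false

/-!
# S1D: completeness of the sines
-/

namespace Pool.SqDrum

open MeasureTheory Set Filter Topology Asymptotics Polynomial
open scoped ENNReal ContDiff InnerProductSpace

namespace S1d

variable {M : ℝ} {g : ℝ → ℝ}

theorem int_mul (hgi : Integrable g (volume.restrict (Ioo 0 M))) {h : ℝ → ℝ} (hc : Continuous h)
    {C : ℝ} (hC : ∀ x ∈ Ioo 0 M, |h x| ≤ C) :
    Integrable (fun x => g x * h x) (volume.restrict (Ioo 0 M)) := by
  refine hgi.mul_bdd (c := C) hc.aestronglyMeasurable ?_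
  rw [ae_restrict_iff' measurableSet_Ioo]
  exact Eventually.of_forall fun x hx => by rw [Real.norm_eq_abs]; exact hC x hx

theorem moments (hgi : Integrable g (volume.restrict (Ioo 0 M)))
    (h0 : ∀ m : ℕ, ∫ x in Ioo 0 M, g x * Real.sin (m * Real.pi * x / M) = 0) (k : ℕ) :
    ∀ m : ℕ, ∫ x in Ioo 0 M, g x * (Real.sin (m * Real.pi * x / M) *
      Real.cos (Real.pi * x / M) ^ k) = 0 := by
  induction k with
  | zero => intro m; simpa using h0 m
  | succ k ih =>
    intro m
    rcases m with _ | m
    · simp
    · have e : ∀ x, g x * (Real.sin ((m + 1 : ℕ) * Real.pi * x / M) *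
          Real.cos (Real.pi * x / M) ^ (k + 1)) =
          (1/2) * (g x * (Real.sin ((m + 2 : ℕ) * Real.pi * x / M) *
            Real.cos (Real.pi * x / M) ^ k)) +
          (1/2) * (g x * (Real.sin (m * Real.pi * x / M) * Real.cos (Real.pi * x / M) ^ k)) := by
        intro x
        have e1 : (((m + 2 : ℕ) : ℝ) * Real.pi * x / M) =
            ((m + 1 : ℕ) * Real.pi * x / M) + Real.pi * x / M := by push_cast; ring
        have e2 : ((m : ℝ) * Real.pi * x / M) =
            ((m + 1 : ℕ) * Real.pi * x / M) - Real.pi * x / M := by push_cast; ring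
        rw [e1, e2, Real.sin_add, Real.sin_sub, pow_succ]
        ring
      simp only [e]
      have hi : ∀ n : ℕ, Integrable (fun x => (1/2 : ℝ) * (g x * (Real.sin (n * Real.pi * x / M) *
          Real.cos (Real.pi * x / M) ^ k))) (volume.restrict (Ioo 0 M)) := by
        intro n
        refine (int_mul hgi (C := 1) (by fun_prop) fun x _ => ?_).const_mul _
        rw [abs_mul, abs_pow]
        have h1 := Real.abs_sin_le_one (n * Real.pi * x / M)
        have h2 := Real.abs_cos_le_one (Real.pi * x / M)
        calc |Real.sin (n * Real.pi * x / M)| * |Real.cos (Real.pi * x / M)| ^ k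
            ≤ 1 * 1 := mul_le_mul h1 (pow_le_one₀ (abs_nonneg _) h2)
              (pow_nonneg (abs_nonneg _) _) (by norm_num)
          _ = 1 := by norm_num
      rw [integral_add (hi (m + 2)) (hi m), integral_const_mul, integral_const_mul, ih, ih]
      simp

theorem poly (hgi : Integrable g (volume.restrict (Ioo 0 M)))
    (h0 : ∀ m : ℕ, ∫ x in Ioo 0 M, g x * Real.sin (m * Real.pi * x / M) = 0) (p : ℝ[X]) :
    Integrable (fun x => g x * (Real.sin (Real.pi * x / M) * p.eval (Real.cos (Real.pi * x / M))))
      (volume.restrict (Ioo 0 M)) ∧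
    ∫ x in Ioo 0 M, g x * (Real.sin (Real.pi * x / M) *
      p.eval (Real.cos (Real.pi * x / M))) = 0 := by
  induction p using Polynomial.induction_on' with
  | add p q hp hq =>
    have e : ∀ x, g x * (Real.sin (Real.pi * x / M) *
        (p + q).eval (Real.cos (Real.pi * x / M))) =
        g x * (Real.sin (Real.pi * x / M) * p.eval (Real.cos (Real.pi * x / M))) +
        g x * (Real.sin (Real.pi * x / M) * q.eval (Real.cos (Real.pi * x / M))) := by
      intro x; rw [Polynomial.eval_add]; ring
    simp only [e]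
    exact ⟨hp.1.add hq.1, by rw [integral_add hp.1 hq.1, hp.2, hq.2, add_zero]⟩
  | monomial k a =>
    have e : ∀ x, g x * (Real.sin (Real.pi * x / M) *
        (Polynomial.monomial k a).eval (Real.cos (Real.pi * x / M))) =
        a * (g x * (Real.sin ((1 : ℕ) * Real.pi * x / M) * Real.cos (Real.pi * x / M) ^ k)) := by
      intro x; rw [Polynomial.eval_monomial]; push_cast; ring_nf
    simp only [e]
    refine ⟨(int_mul hgi (C := 1) (by fun_prop) fun x _ => ?_).const_mul _, ?_⟩
    · rw [abs_mul, abs_pow]
      have h1 := Real.abs_sin_le_one ((1 : ℕ) * Real.pi * x / M)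
      have h2 := Real.abs_cos_le_one (Real.pi * x / M)
      calc |Real.sin ((1 : ℕ) * Real.pi * x / M)| * |Real.cos (Real.pi * x / M)| ^ k
          ≤ 1 * 1 := mul_le_mul h1 (pow_le_one₀ (abs_nonneg _) h2)
            (pow_nonneg (abs_nonneg _) _) (by norm_num)
        _ = 1 := by norm_num
    · rw [integral_const_mul, moments hgi h0, mul_zero]

theorem cont (hM : 0 < M) (hgi : Integrable g (volume.restrict (Ioo 0 M)))
    (h0 : ∀ m : ℕ, ∫ x in Ioo 0 M, g x * Real.sin (m * Real.pi * x / M) = 0) {φ : ℝ → ℝ}
    (hφ : Continuous φ) :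
    ∫ x in Ioo 0 M, φ x * (g x * Real.sin (Real.pi * x / M)) = 0 := by
  have habs : ∀ ε : ℝ, 0 < ε → |∫ x in Ioo 0 M, φ x * (g x * Real.sin (Real.pi * x / M))| ≤
      ε * ∫ x in Ioo 0 M, |g x| := by
    intro ε hε
    obtain ⟨p, hp⟩ := exists_polynomial_near_of_continuousOn (-1) 1
      (fun t => φ (M * Real.arccos t / Real.pi))
      ((hφ.comp ((continuous_const.mul Real.continuous_arccos).div_const _)).continuousOn) ε hε
    have hx : ∀ x ∈ Ioo 0 M, |p.eval (Real.cos (Real.pi * x / M)) - φ x| < ε := by
      intro x hx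
      have h1 := hp (Real.cos (Real.pi * x / M)) ⟨Real.neg_one_le_cos _, Real.cos_le_one _⟩
      have h2 : Real.arccos (Real.cos (Real.pi * x / M)) = Real.pi * x / M := by
        apply Real.arccos_cos
        · have := hx.1; positivity
        · rw [div_le_iff₀ hM]
          exact mul_le_mul_of_nonneg_left hx.2.le Real.pi_pos.le
      simp only [h2] at h1
      have h3 : M * (Real.pi * x / M) / Real.pi = x := by
        have := Real.pi_pos.ne'
        field_simp
      rw [h3] at h1
      exact h1
    obtain ⟨hi, he⟩ := poly hgi h0 p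
    obtain ⟨B, hB⟩ : ∃ B, ∀ x ∈ Icc 0 M, ‖φ x‖ ≤ B :=
      (isCompact_Icc (a := (0 : ℝ)) (b := M)).exists_bound_of_continuousOn hφ.continuousOn
    have hi2 : Integrable (fun x => g x * (φ x * Real.sin (Real.pi * x / M)))
        (volume.restrict (Ioo 0 M)) := by
      refine int_mul hgi (C := B) (by fun_prop) fun x hx => ?_
      rw [abs_mul]
      have h1 := Real.abs_sin_le_one (Real.pi * x / M)
      have h2 : |φ x| ≤ B := hB x ⟨hx.1.le, hx.2.le⟩
      calc |φ x| * |Real.sin (Real.pi * x / M)| ≤ |φ x| * 1 :=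
            mul_le_mul_of_nonneg_left h1 (abs_nonneg _)
        _ ≤ B := by rw [mul_one]; exact h2
    have e : ∫ x in Ioo 0 M, φ x * (g x * Real.sin (Real.pi * x / M)) =
        ∫ x in Ioo 0 M, (g x * (φ x * Real.sin (Real.pi * x / M)) -
          g x * (Real.sin (Real.pi * x / M) * p.eval (Real.cos (Real.pi * x / M)))) := by
      rw [integral_sub hi2 hi, he, sub_zero]
      refine integral_congr_ae (Eventually.of_forall fun x => ?_)
      ring
    rw [e, ← Real.norm_eq_abs, ← integral_const_mul]
    refine norm_integral_le_of_norm_le (hgi.abs.const_mul ε) ?_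
    rw [ae_restrict_iff' measurableSet_Ioo]
    refine Eventually.of_forall fun x hx' => ?_
    have h1 := hx x hx'
    have h2 := Real.abs_sin_le_one (Real.pi * x / M)
    have e2 : g x * (φ x * Real.sin (Real.pi * x / M)) -
        g x * (Real.sin (Real.pi * x / M) * p.eval (Real.cos (Real.pi * x / M))) =
        g x * (Real.sin (Real.pi * x / M) * (φ x - p.eval (Real.cos (Real.pi * x / M)))) := by
      ring
    rw [e2, Real.norm_eq_abs, abs_mul, abs_mul, mul_comm ε]
    refine mul_le_mul_of_nonneg_left ?_ (abs_nonneg _)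
    rw [abs_sub_comm] at h1
    calc |Real.sin (Real.pi * x / M)| * |φ x - p.eval (Real.cos (Real.pi * x / M))|
        ≤ 1 * ε := mul_le_mul h2 h1.le (abs_nonneg _) (by norm_num)
      _ = ε := one_mul _
  by_contra hne
  have hpos : 0 < |∫ x in Ioo 0 M, φ x * (g x * Real.sin (Real.pi * x / M))| := abs_pos.2 hne
  have hI : 0 ≤ ∫ x in Ioo 0 M, |g x| := integral_nonneg fun x => abs_nonneg _
  set J := |∫ x in Ioo 0 M, φ x * (g x * Real.sin (Real.pi * x / M))|
  set K := ∫ x in Ioo 0 M, |g x|
  have h1 := habs (J / (2 * (K + 1))) (by positivity)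
  have h2 : J / (2 * (K + 1)) * K ≤ J / 2 := by
    rw [div_mul_eq_mul_div, div_le_div_iff₀ (by positivity) (by norm_num)]
    nlinarith
  linarith

end S1d

theorem s1d : S1dStatement := by
  intro M g hM hg h0
  have hgi : Integrable g (volume.restrict (Ioo 0 M)) := hg.integrable one_le_two
  have hi : Integrable (fun x => g x * Real.sin (Real.pi * x / M))
      (volume.restrict (Ioo 0 M)) := by
    refine S1d.int_mul hgi (C := 1) (by fun_prop) fun x _ => Real.abs_sin_le_one _
  have h1 := (isOpen_Ioo (a := (0 : ℝ)) (b := M)).ae_eq_zero_of_integral_contDiff_smul_eq_zero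
    (f := fun x => g x * Real.sin (Real.pi * x / M)) (μ := volume)
    (IntegrableOn.locallyIntegrableOn hi) (by
      intro φ hφ _ hsub
      have h2 := S1d.cont hM hgi h0 hφ.continuous
      rw [← h2]
      rw [← integral_indicator measurableSet_Ioo]
      refine integral_congr_ae (Eventually.of_forall fun x => ?_)
      by_cases hx : x ∈ Ioo 0 M
      · simp [hx]
      · have : φ x = 0 := image_eq_zero_of_notMem_tsupport fun h => hx (hsub h)
        simp [hx, this])
  rw [Filter.EventuallyEq, ae_restrict_iff' measurableSet_Ioo]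
  filter_upwards [h1] with x hx hxI
  have h3 := hx hxI
  have h4 : 0 < Real.sin (Real.pi * x / M) := by
    apply Real.sin_pos_of_pos_of_lt_pi
    · have := hxI.1; have := Real.pi_pos; positivity
    · rw [div_lt_iff₀ hM]
      exact mul_lt_mul_of_pos_left hxI.2 Real.pi_pos
  rcases mul_eq_zero.1 h3 with h | h
  · exact h
  · exact absurd h h4.ne'

end Pool.SqDrum
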