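import Mathlib
import Pool.Agent.Lib.MP_2805c2_an.SQ.Iface

set_option autoImplicit false

/-! # SEC: second order expansion of the reduced matrix along a curve -/

namespace Pool.SqDrum

open MeasureTheory Set Filter Topology Asymptotics
open scoped ENNReal ContDiff InnerProductSpace

/-- factor out `t` from an analytic function vanishing at `0` -/
theorem sec_factor {E : Type} [NormedAddCommGroup E] [NormedSpace ℝ E] {f : ℝ → E}
    (hf : AnalyticAt ℝ f 0) (h0 : f 0 = 0) : ∃ g : ℝ → E, ContinuousAt g 0 ∧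
      (fun t => g t - g 0) =O[𝓝 0] (fun t : ℝ => t) ∧ ∀ t, f t = t • g t := by
  obtain ⟨p, hp⟩ := hf
  refine ⟨dslope f 0, hp.has_fpower_series_dslope_fslope.continuousAt, ?_, fun t => ?_⟩
  · have h := hp.has_fpower_series_dslope_fslope.hasStrictFDerivAt.hasFDerivAt.isBigO_sub
    simpa using h
  · have := sub_smul_dslope f 0 t
    simp only [sub_zero, h0] at this
    exact this.symm

/-- `t • w = O(t²)` implies `w = 0` -/
theorem sec_zero {E : Type} [NormedAddCommGroup E] [NormedSpace ℝ E] {w : E}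
    (h : (fun t : ℝ => t • w) =O[𝓝 0] (fun t : ℝ => t ^ 2)) : w = 0 := by
  have h1 : (fun _ : ℝ => w) =O[𝓝[≠] 0] (fun t : ℝ => t) := by
    have h2 := h.mono (nhdsWithin_le_nhds (s := {0}ᶜ))
    have h3 : (fun t : ℝ => t⁻¹ • (t • w)) =O[𝓝[≠] 0] (fun t : ℝ => t⁻¹ • t ^ 2) :=
      (isBigO_refl (fun t : ℝ => t⁻¹) _).smul h2
    refine h3.congr' ?_ ?_
    · filter_upwards [self_mem_nhdsWithin] with t ht
      rw [smul_smul, inv_mul_cancel₀ ht, one_smul]
    · filter_upwards [self_mem_nhdsWithin] with t ht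
      have ht' : t ≠ 0 := ht
      rw [smul_eq_mul]; field_simp
  have h4 : Tendsto (fun _ : ℝ => w) (𝓝[≠] 0) (𝓝 0) := by
    refine h1.trans_tendsto ?_
    exact tendsto_id.mono_left nhdsWithin_le_nhds
  exact tendsto_nhds_unique tendsto_const_nhds h4

theorem sec : SecStatement := by
  intro E _ _ _ k A B l v X Lm hyp sol γ T0 T1 T2 hγ hγ0 hexp hT1 x hx
  -- the functions of `t`
  have hX : ∀ j, AnalyticAt ℝ (fun t => X (γ t) j) 0 := by
    intro j
    have h1 : AnalyticAt ℝ X (γ 0) := by rw [hγ0]; exact sol.anX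
    have h2 : AnalyticAt ℝ (fun t => X (γ t)) 0 := h1.comp hγ
    exact ((ContinuousLinearMap.proj (R := ℝ) (φ := fun _ : Fin k => E) j).analyticAt _).comp h2
  have hL : ∀ i j, AnalyticAt ℝ (fun t => Lm (γ t) i j - (if i = j then l else 0)) 0 := by
    intro i j
    have h1 : AnalyticAt ℝ Lm (γ 0) := by rw [hγ0]; exact sol.anL
    have h2 : AnalyticAt ℝ (fun t => Lm (γ t)) 0 := h1.comp hγ
    have h3 : AnalyticAt ℝ (fun t => Lm (γ t) i) 0 :=
      ((ContinuousLinearMap.proj (R := ℝ) (φ := fun _ : Fin k => Fin k → ℝ) i).analyticAt _).comp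
        h2
    have h4 : AnalyticAt ℝ (fun t => Lm (γ t) i j) 0 :=
      ((ContinuousLinearMap.proj (R := ℝ) (φ := fun _ : Fin k => ℝ) j).analyticAt _).comp h3
    exact h4.sub analyticAt_const
  have hX0 : ∀ j, X (γ 0) j = 0 := fun j => by rw [hγ0, sol.X0]; rfl
  have hL0 : ∀ i j, Lm (γ 0) i j - (if i = j then l else 0) = 0 := fun i j => by
    rw [hγ0, sol.L0, sub_self]
  choose u hu using fun j => sec_factor (hX j) (hX0 j)
  choose m hm using fun i j => sec_factor (hL i j) (hL0 i j)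
  have huc : ∀ j, ContinuousAt (u j) 0 := fun j => (hu j).1
  have huO : ∀ j, (fun t => u j t - u j 0) =O[𝓝 0] (fun t : ℝ => t) := fun j => (hu j).2.1
  have hue : ∀ j t, X (γ t) j = t • u j t := fun j => (hu j).2.2
  have hmc : ∀ i j, ContinuousAt (m i j) 0 := fun i j => (hm i j).1
  have hmO : ∀ i j, (fun t => m i j t - m i j 0) =O[𝓝 0] (fun t : ℝ => t) :=
    fun i j => (hm i j).2.1
  have hme : ∀ i j t, Lm (γ t) i j - (if i = j then l else 0) = t • m i j t :=
    fun i j => (hm i j).2.2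
  -- `B (γ t) = B 0 + O(t)`
  have hBan : AnalyticAt ℝ (fun t => B (γ t)) 0 := by
    have h1 : AnalyticAt ℝ B (γ 0) := by rw [hγ0]; exact hyp.anB
    exact h1.comp hγ
  have hBO : (fun t => B (γ t) - B 0) =O[𝓝 0] (fun t : ℝ => t) := by
    have h1 := hBan.differentiableAt.hasFDerivAt.isBigO_sub
    simpa [hγ0] using h1
  have hBc : ContinuousAt (fun t => B (γ t)) 0 := hBan.continuousAt
  -- `T0`
  have hT0 : T0 = A 0 - l • B 0 := by
    have h1 := hexp.eq_zero_imp.self_of_nhds (by simp)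
    simp only [hγ0, zero_smul, _root_.add_zero, ne_eq, OfNat.ofNat_ne_zero, not_false_eq_true,
      zero_pow] at h1
    exact (sub_eq_zero.1 h1).symm
  have hT0v : ∀ j, T0 (v j) = 0 := fun j => by
    rw [hT0]
    simp only [_root_.sub_apply, _root_.smul_apply, hyp.eig j, sub_self]
  have hT0s : ∀ a b, ⟪T0 a, b⟫_ℝ = ⟪a, T0 b⟫_ℝ := fun a b => by
    rw [hT0]
    simp only [_root_.sub_apply, _root_.smul_apply, inner_sub_left, inner_sub_right,
      inner_smul_left, inner_smul_right, RCLike.conj_to_real, hyp.symA, hyp.symB]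
  have hT0p : ∀ i y, ⟪v i, T0 y⟫_ℝ = 0 := fun i y => by
    rw [← hT0s, hT0v, inner_zero_left]
  -- the exact equation
  have heq : ∀ᶠ t in 𝓝 (0 : ℝ), ∀ j, (A (γ t) - l • B (γ t)) (v j + t • u j t) =
      ∑ i, (t • m i j t) • B (γ t) (v i + t • u i t) := by
    have h1 : Tendsto γ (𝓝 0) (𝓝 0) := by
      have := hγ.continuousAt.tendsto
      rwa [hγ0] at this
    filter_upwards [h1.eventually sol.eq] with t ht j
    have h2 := ht j
    rw [_root_.sub_apply, _root_.smul_apply, ← hue j t, h2]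
    have h3 : l • B (γ t) (v j + X (γ t) j) =
        ∑ i, (if i = j then l else 0) • B (γ t) (v i + X (γ t) i) := by
      rw [Finset.sum_eq_single j]
      · rw [if_pos rfl]
      · intro b _ hb
        rw [if_neg hb, zero_smul]
      · intro h
        exact absurd (Finset.mem_univ j) h
    rw [h3, ← Finset.sum_sub_distrib]
    refine Finset.sum_congr rfl fun i _ => ?_
    rw [← sub_smul, hme i j t, hue i t]
  -- left side
  have ht1 : (fun t : ℝ => t) =O[𝓝 0] (fun _ : ℝ => (1 : ℝ)) :=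
    (continuousAt_id (x := (0 : ℝ))).tendsto.isBigO_one ℝ
  have hw : ∀ j, ContinuousAt (fun t => v j + t • u j t) 0 := fun j =>
    continuousAt_const.add (continuousAt_id.smul (huc j))
  have hleft : ∀ j, (fun t : ℝ => (A (γ t) - l • B (γ t)) (v j + t • u j t) -
      (T0 + t • T1 + t ^ 2 • T2) (v j + t • u j t)) =O[𝓝 0] (fun t : ℝ => t ^ 3) := by
    intro j
    have h1 : (fun t : ℝ => ((A (γ t) - l • B (γ t)) - (T0 + t • T1 + t ^ 2 • T2))
        (v j + t • u j t)) =O[𝓝 0]
        (fun t : ℝ => ‖(A (γ t) - l • B (γ t)) - (T0 + t • T1 + t ^ 2 • T2)‖ *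
          ‖v j + t • u j t‖) := by
      refine IsBigO.of_bound 1 (Eventually.of_forall fun t => ?_)
      rw [one_mul, norm_mul, norm_norm, norm_norm]
      exact ContinuousLinearMap.le_opNorm _ _
    have h2 : (fun t : ℝ => ‖v j + t • u j t‖) =O[𝓝 0] (fun _ : ℝ => (1 : ℝ)) :=
      (hw j).norm.tendsto.isBigO_one ℝ
    have h3 := hexp.norm_left.mul h2
    simp only [mul_one] at h3
    exact h1.trans h3
  -- order one
  have hord1 : ∀ j, T0 (u j 0) + T1 (v j) = ∑ i, m i j 0 • B 0 (v i) := by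
    intro j
    refine sub_eq_zero.1 (sec_zero ?_)
    -- t • (T0 y + T1 v - Σ m B v) = O(t²)
    have e1 : (fun t : ℝ => (T0 + t • T1 + t ^ 2 • T2) (v j + t • u j t) -
        t • (T0 (u j 0) + T1 (v j))) =O[𝓝 0] (fun t : ℝ => t ^ 2) := by
      have e2 : (fun t : ℝ => (T0 + t • T1 + t ^ 2 • T2) (v j + t • u j t) -
          t • (T0 (u j 0) + T1 (v j))) = fun t => t • T0 (u j t - u j 0) +
            t ^ 2 • (T1 (u j t) + T2 (v j + t • u j t)) := by
        funext t
        simp only [_root_.add_apply, _root_.smul_apply, map_add, map_smul, map_sub, hT0v]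
        module
      rw [e2]
      refine IsBigO.add ?_ ?_
      · have h1 : (fun t : ℝ => T0 (u j t - u j 0)) =O[𝓝 0] (fun t : ℝ => t) :=
          (T0.isBigO_comp _ _).trans (huO j)
        have h2 := (isBigO_refl (fun t : ℝ => t) (𝓝 0)).smul h1
        refine h2.congr_right fun t => ?_
        rw [smul_eq_mul, sq]
      · have h1 : (fun t : ℝ => T1 (u j t) + T2 (v j + t • u j t)) =O[𝓝 0]
            (fun _ : ℝ => (1 : ℝ)) := by
          have : ContinuousAt (fun t : ℝ => T1 (u j t) + T2 (v j + t • u j t)) 0 :=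
            (T1.continuous.continuousAt.comp (huc j)).add
              (T2.continuous.continuousAt.comp (hw j))
          exact this.tendsto.isBigO_one ℝ
        have h2 := (isBigO_refl (fun t : ℝ => t ^ 2) (𝓝 0)).smul h1
        refine h2.congr_right fun t => ?_
        rw [smul_eq_mul, mul_one]
    have e3 : (fun t : ℝ => ∑ i, (t • m i j t) • B (γ t) (v i + t • u i t) -
        t • ∑ i, m i j 0 • B 0 (v i)) =O[𝓝 0] (fun t : ℝ => t ^ 2) := by
      have e4 : (fun t : ℝ => ∑ i, (t • m i j t) • B (γ t) (v i + t • u i t) -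
          t • ∑ i, m i j 0 • B 0 (v i)) = fun t => ∑ i, t • ((m i j t - m i j 0) •
            B (γ t) (v i + t • u i t) + m i j 0 • ((B (γ t) - B 0) (v i + t • u i t) +
              t • B 0 (u i t))) := by
        funext t
        rw [Finset.smul_sum, ← Finset.sum_sub_distrib]
        refine Finset.sum_congr rfl fun i _ => ?_
        simp only [_root_.sub_apply, map_add, map_smul]
        module
      rw [e4]
      refine IsBigO.fun_sum fun i _ => ?_
      have h1 : (fun t : ℝ => (m i j t - m i j 0) • B (γ t) (v i + t • u i t)) =O[𝓝 0]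
          (fun t : ℝ => t) := by
        have h2 : (fun t : ℝ => B (γ t) (v i + t • u i t)) =O[𝓝 0] (fun _ : ℝ => (1 : ℝ)) :=
          (hBc.clm_apply (hw i)).tendsto.isBigO_one ℝ
        refine ((hmO i j).smul h2).congr_right fun t => ?_
        rw [smul_eq_mul, mul_one]
      have h3 : (fun t : ℝ => (B (γ t) - B 0) (v i + t • u i t)) =O[𝓝 0]
          (fun t : ℝ => t) := by
        have h4 : (fun t : ℝ => (B (γ t) - B 0) (v i + t • u i t)) =O[𝓝 0]
            (fun t : ℝ => ‖B (γ t) - B 0‖ * ‖v i + t • u i t‖) := by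
          refine IsBigO.of_bound 1 (Eventually.of_forall fun t => ?_)
          rw [one_mul, norm_mul, norm_norm, norm_norm]
          exact ContinuousLinearMap.le_opNorm _ _
        have h5 := hBO.norm_left.mul ((hw i).norm.tendsto.isBigO_one ℝ)
        simp only [mul_one] at h5
        exact h4.trans h5
      have h6 : (fun t : ℝ => t • B 0 (u i t)) =O[𝓝 0] (fun t : ℝ => t) := by
        have h7 : (fun t : ℝ => B 0 (u i t)) =O[𝓝 0] (fun _ : ℝ => (1 : ℝ)) :=
          ((B 0).continuous.continuousAt.comp (huc i)).tendsto.isBigO_one ℝ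
        refine ((isBigO_refl (fun t : ℝ => t) (𝓝 0)).smul h7).congr_right fun t => ?_
        rw [smul_eq_mul, mul_one]
      have h8 := (isBigO_refl (fun t : ℝ => t) (𝓝 0)).smul
        (h1.add ((h3.add h6).const_smul_left (m i j 0)))
      refine h8.congr_right fun t => ?_
      rw [smul_eq_mul, sq]
    have h3 : (fun t : ℝ => t ^ 3) =O[𝓝 0] (fun t : ℝ => t ^ 2) := by
      have := (isBigO_refl (fun t : ℝ => t ^ 2) (𝓝 0)).mul ht1
      refine this.congr (fun t => by ring) (fun t => by ring)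
    have e5 := (((hleft j).trans h3).add e1).sub e3
    refine (e5.neg_left).congr' ?_ EventuallyEq.rfl
    filter_upwards [heq] with t ht
    rw [ht j]
    module
  have hm0 : ∀ i j, m i j 0 = 0 := by
    intro i j
    have h1 := congrArg (fun y => ⟪v i, y⟫_ℝ) (hord1 j)
    simp only [inner_add_right, hT0p, hT1, _root_.add_zero, inner_sum, inner_smul_right,
      hyp.orth, mul_ite, mul_one, mul_zero, Finset.sum_ite_eq, Finset.mem_univ, if_true] at h1
    exact h1.symm
  have hy : ∀ j, T0 (u j 0) = -T1 (v j) := by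
    intro j
    have h1 := hord1 j
    simp only [hm0, zero_smul, Finset.sum_const_zero] at h1
    exact eq_neg_of_add_eq_zero_left h1
  have hT1y : ∀ i j, ⟪v i, T1 (u j 0)⟫_ℝ = ⟪v i, T1 (x j)⟫_ℝ := by
    intro i j
    have h1 : T0 (u j 0 - x j) = 0 := by rw [map_sub, hy j, hx j, sub_self]
    have h2 : u j 0 - x j ∈ Submodule.span ℝ (Set.range v) := by
      refine hyp.ker _ ?_
      rw [hT0] at h1
      simp only [_root_.sub_apply, _root_.smul_apply] at h1
      exact sub_eq_zero.1 h1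
    have h3 : ∀ w ∈ Submodule.span ℝ (Set.range v), ⟪v i, T1 w⟫_ℝ = 0 := by
      intro w hw
      induction hw using Submodule.span_induction with
      | mem w hw => obtain ⟨j', rfl⟩ := hw; exact hT1 i j'
      | zero => simp
      | add a b _ _ ha hb => rw [map_add, inner_add_right, ha, hb, _root_.add_zero]
      | smul c a _ ha => rw [map_smul, inner_smul_right, ha, mul_zero]
    have h4 := h3 _ h2
    rw [map_sub, inner_sub_right, sub_eq_zero] at h4
    exact h4
  -- order two
  have hmO' : ∀ i j, (fun t => m i j t) =O[𝓝 0] (fun t : ℝ => t) := fun i j => by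
    have := hmO i j
    simpa [hm0 i j] using this
  intro i j
  have e1 : (fun t : ℝ => ⟪v i, (T0 + t • T1 + t ^ 2 • T2) (v j + t • u j t)⟫_ℝ -
      t ^ 2 * (⟪v i, T2 (v j)⟫_ℝ + ⟪v i, T1 (x j)⟫_ℝ)) =O[𝓝 0] (fun t : ℝ => t ^ 3) := by
    have e2 : (fun t : ℝ => ⟪v i, (T0 + t • T1 + t ^ 2 • T2) (v j + t • u j t)⟫_ℝ -
        t ^ 2 * (⟪v i, T2 (v j)⟫_ℝ + ⟪v i, T1 (x j)⟫_ℝ)) = fun t =>
          t ^ 2 * ⟪v i, T1 (u j t - u j 0)⟫_ℝ + t ^ 3 * ⟪v i, T2 (u j t)⟫_ℝ := by
      funext t
      rw [← hT1y i j]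
      simp only [_root_.add_apply, _root_.smul_apply, map_add, map_smul, map_sub,
        inner_add_right, inner_smul_right, inner_sub_right, hT0p, hT1]
      ring
    rw [e2]
    refine IsBigO.add ?_ ?_
    · have h1 : (fun t : ℝ => ⟪v i, T1 (u j t - u j 0)⟫_ℝ) =O[𝓝 0] (fun t : ℝ => t) := by
        have h2 := ((innerSL ℝ (v i)).comp T1).isBigO_comp (fun t => u j t - u j 0) (𝓝 (0 : ℝ))
        exact h2.trans (huO j)
      refine ((isBigO_refl (fun t : ℝ => t ^ 2) (𝓝 0)).mul h1).congr_right fun t => ?_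
      ring
    · have h1 : (fun t : ℝ => ⟪v i, T2 (u j t)⟫_ℝ) =O[𝓝 0] (fun _ : ℝ => (1 : ℝ)) := by
        have : ContinuousAt (fun t : ℝ => ⟪v i, T2 (u j t)⟫_ℝ) 0 :=
          ((((innerSL ℝ (v i)).comp T2).continuous.continuousAt).comp (huc j))
        exact this.tendsto.isBigO_one ℝ
      refine ((isBigO_refl (fun t : ℝ => t ^ 3) (𝓝 0)).mul h1).congr_right fun t => ?_
      ring
  have e3 : (fun t : ℝ => ⟪v i, ∑ n, (t • m n j t) • B (γ t) (v n + t • u n t)⟫_ℝ -
      t * m i j t) =O[𝓝 0] (fun t : ℝ => t ^ 3) := by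
    have e4 : (fun t : ℝ => ⟪v i, ∑ n, (t • m n j t) • B (γ t) (v n + t • u n t)⟫_ℝ -
        t * m i j t) = fun t => ∑ n, (t * m n j t) *
          (⟪v i, (B (γ t) - B 0) (v n + t • u n t)⟫_ℝ + t * ⟪v i, B 0 (u n t)⟫_ℝ) := by
      funext t
      have h1 : t * m i j t = ∑ n, (t * m n j t) * (if i = n then 1 else 0) := by
        simp
      rw [inner_sum, h1, ← Finset.sum_sub_distrib]
      refine Finset.sum_congr rfl fun n _ => ?_
      rw [inner_smul_right, ← hyp.orth i n]
      simp only [_root_.sub_apply, map_add, map_smul, inner_add_right, inner_smul_right,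
        inner_sub_right, smul_eq_mul]
      ring
    rw [e4]
    refine IsBigO.fun_sum fun n _ => ?_
    have h3 : (fun t : ℝ => ⟪v i, (B (γ t) - B 0) (v n + t • u n t)⟫_ℝ) =O[𝓝 0]
        (fun t : ℝ => t) := by
      have h4 : (fun t : ℝ => ⟪v i, (B (γ t) - B 0) (v n + t • u n t)⟫_ℝ) =O[𝓝 0]
          (fun t : ℝ => ‖B (γ t) - B 0‖ * ‖v n + t • u n t‖) := by
        refine IsBigO.of_bound ‖v i‖ (Eventually.of_forall fun t => ?_)
        rw [norm_mul, norm_norm, norm_norm]
        refine (norm_inner_le_norm _ _).trans ?_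
        exact mul_le_mul_of_nonneg_left (ContinuousLinearMap.le_opNorm _ _) (norm_nonneg _)
      have h5 := hBO.norm_left.mul ((hw n).norm.tendsto.isBigO_one ℝ)
      simp only [mul_one] at h5
      exact h4.trans h5
    have h6 : (fun t : ℝ => t * ⟪v i, B 0 (u n t)⟫_ℝ) =O[𝓝 0] (fun t : ℝ => t) := by
      have h7 : (fun t : ℝ => ⟪v i, B 0 (u n t)⟫_ℝ) =O[𝓝 0] (fun _ : ℝ => (1 : ℝ)) := by
        have : ContinuousAt (fun t : ℝ => ⟪v i, B 0 (u n t)⟫_ℝ) 0 :=
          ((((innerSL ℝ (v i)).comp (B 0)).continuous.continuousAt).comp (huc n))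
        exact this.tendsto.isBigO_one ℝ
      refine ((isBigO_refl (fun t : ℝ => t) (𝓝 0)).mul h7).congr_right fun t => ?_
      rw [mul_one]
    have h8 := ((isBigO_refl (fun t : ℝ => t) (𝓝 0)).mul (hmO' n j)).mul (h3.add h6)
    refine h8.congr_right fun t => ?_
    ring
  have e5 : (fun t : ℝ => ⟪v i, (A (γ t) - l • B (γ t)) (v j + t • u j t)⟫_ℝ -
      ⟪v i, (T0 + t • T1 + t ^ 2 • T2) (v j + t • u j t)⟫_ℝ) =O[𝓝 0]
      (fun t : ℝ => t ^ 3) := by
    have h1 := ((innerSL ℝ (v i)).isBigO_comp (fun t : ℝ =>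
      (A (γ t) - l • B (γ t)) (v j + t • u j t) -
      (T0 + t • T1 + t ^ 2 • T2) (v j + t • u j t)) (𝓝 (0 : ℝ))).trans (hleft j)
    refine h1.congr_left fun t => ?_
    rw [innerSL_apply_apply, inner_sub_right]
  refine ((e5.add e1).sub e3).congr' ?_ EventuallyEq.rfl
  filter_upwards [heq] with t ht
  rw [ht j, hme i j t, smul_eq_mul]
  ring

end Pool.SqDrum
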