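import Mathlib
import Pool.Agent.Lib.MP_2805c2_an.SQ.Iface

set_option autoImplicit false

/-!
# SEP: seven functions with the given differentials separate near zero
-/

namespace Pool.SqDrum

open MeasureTheory Set Filter Topology

theorem sep_three {α β : Fin 3 → ℝ} (hα : ∀ i, α i ≠ 0)
    (h : ∀ i j, i ≠ j → α i * β j ≠ α j * β i) {a b c : ℝ}
    (e : ∀ i, α i ^ 2 * a + 2 * α i * β i * b + β i ^ 2 * c = 0) : a = 0 ∧ b = 0 ∧ c = 0 := by
  have hq : ∀ i, a + 2 * (β i / α i) * b + (β i / α i) ^ 2 * c = 0 := fun i => by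
    have h1 := e i
    have h2 := hα i
    field_simp
    linarith
  have hr : ∀ i j, i ≠ j → β i / α i ≠ β j / α j := fun i j hij h' => by
    rw [div_eq_div_iff (hα i) (hα j)] at h'
    exact h i j hij (by linarith)
  have h01 : β 0 / α 0 ≠ β 1 / α 1 := hr 0 1 (by decide)
  have h02 : β 0 / α 0 ≠ β 2 / α 2 := hr 0 2 (by decide)
  have h12 : β 1 / α 1 ≠ β 2 / α 2 := hr 1 2 (by decide)
  have q0 := hq 0
  have q1 := hq 1
  have q2 := hq 2
  set r0 := β 0 / α 0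
  set r1 := β 1 / α 1
  set r2 := β 2 / α 2
  have s1 : 2 * b + (r0 + r1) * c = 0 := by
    have : (r0 - r1) * (2 * b + (r0 + r1) * c) = 0 := by linear_combination q0 - q1
    exact (mul_eq_zero.1 this).resolve_left (sub_ne_zero.2 h01)
  have s2 : 2 * b + (r0 + r2) * c = 0 := by
    have : (r0 - r2) * (2 * b + (r0 + r2) * c) = 0 := by linear_combination q0 - q2
    exact (mul_eq_zero.1 this).resolve_left (sub_ne_zero.2 h02)
  have hc : c = 0 := by
    have : (r1 - r2) * c = 0 := by linear_combination s1 - s2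
    exact (mul_eq_zero.1 this).resolve_left (sub_ne_zero.2 h12)
  have hb : b = 0 := by rw [hc] at s1; linarith
  refine ⟨?_, hb, hc⟩
  rw [hb, hc] at q0; linarith

theorem sep : SepStatement := by
  intro Φ α β κ₁ κ₂ B han h0 h1 hB h2 h3 hk0 hk1 hk h4 hα hαβ
  set Ψ : (Fin 7 → ℝ) → (Fin 7 → ℝ) := fun g i => Φ i g with hΨ
  have hA : AnalyticAt ℝ Ψ 0 := analyticAt_pi_iff.2 han
  have hS : HasStrictFDerivAt Ψ (fderiv ℝ Ψ 0) 0 := hA.hasStrictFDerivAt
  have hcomp : ∀ v i, fderiv ℝ Ψ 0 v i = fderiv ℝ (Φ i) 0 v := by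
    intro v i
    have e : fderiv ℝ Ψ 0 = ContinuousLinearMap.pi fun i => fderiv ℝ (Φ i) 0 :=
      (hasFDerivAt_pi.2 fun i => (han i).differentiableAt.hasFDerivAt).fderiv
    rw [e]; rfl
  have hd0 : ∀ v, fderiv ℝ (Φ 0) 0 v = 2 * v 0 - v 4 - v 2 := by
    intro v
    have hp : ∀ i, HasFDerivAt (fun g : Fin 7 → ℝ => g i)
        (ContinuousLinearMap.proj i : (Fin 7 → ℝ) →L[ℝ] ℝ) 0 := fun i => hasFDerivAt_apply i 0
    have e := ((((hp 0).const_add 1).pow 2).sub (hp 4)).sub (hp 2)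
    have e' : HasFDerivAt (Φ 0) _ 0 := e.congr_of_eventuallyEq (Eventually.of_forall fun g => h0 g)
    rw [e'.fderiv]
    simp
  have hinj : ∀ v, fderiv ℝ Ψ 0 v = 0 → v = 0 := by
    intro v hv
    have hv' : ∀ i, fderiv ℝ (Φ i) 0 v = 0 := fun i => by
      rw [← hcomp, hv]; rfl
    have t := sep_three (a := v 4) (b := v 5) (c := v 6) hα hαβ (fun i => by
      have e1 := h4 i v
      rw [hv'] at e1
      linarith)
    obtain ⟨v4, v5, v6⟩ := t
    have e2 := h2 v v4 v5 v6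
    have e3 := h3 v v4 v5 v6
    rw [hv'] at e2 e3
    have f2 : κ₁ 0 * v 2 + 2 * κ₂ 0 * v 3 = 0 := by
      have : κ₁ 0 * (κ₁ 0 * v 2 + 2 * κ₂ 0 * v 3) = 0 := by linarith
      exact (mul_eq_zero.1 this).resolve_left hk0
    have f3 : κ₁ 1 * v 2 + 2 * κ₂ 1 * v 3 = 0 := by
      have : κ₁ 1 * (κ₁ 1 * v 2 + 2 * κ₂ 1 * v 3) = 0 := by linarith
      exact (mul_eq_zero.1 this).resolve_left hk1
    have v3 : v 3 = 0 := by
      have : (κ₁ 0 * κ₂ 1 - κ₁ 1 * κ₂ 0) * v 3 = 0 := by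
        linear_combination (κ₁ 0 / 2) * f3 - (κ₁ 1 / 2) * f2
      exact (mul_eq_zero.1 this).resolve_left (sub_ne_zero.2 hk)
    have v2 : v 2 = 0 := by
      rw [v3] at f2
      have : κ₁ 0 * v 2 = 0 := by linarith
      exact (mul_eq_zero.1 this).resolve_left hk0
    have v0 : v 0 = 0 := by
      have e := hd0 v
      rw [hv', v4, v2] at e
      linarith
    have v1 : v 1 = 0 := by
      have e := h1 v v0 v2 v3 v4 v5 v6
      rw [hv'] at e
      exact (mul_eq_zero.1 e.symm).resolve_left hB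
    funext i
    fin_cases i
    exacts [v0, v1, v2, v3, v4, v5, v6]
  have hker : LinearMap.ker (fderiv ℝ Ψ 0 : (Fin 7 → ℝ) →ₗ[ℝ] (Fin 7 → ℝ)) = ⊥ :=
    LinearMap.ker_eq_bot'.2 fun v hv => hinj v hv
  set e : (Fin 7 → ℝ) ≃L[ℝ] (Fin 7 → ℝ) :=
    (LinearEquiv.ofInjectiveEndo _ (LinearMap.ker_eq_bot.1 hker)).toContinuousLinearEquiv with he
  have hee : (e : (Fin 7 → ℝ) →L[ℝ] (Fin 7 → ℝ)) = fderiv ℝ Ψ 0 := by
    ext v i; rfl
  have hS' : HasStrictFDerivAt Ψ (e : (Fin 7 → ℝ) →L[ℝ] (Fin 7 → ℝ)) 0 := by rw [hee]; exact hS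
  have hsrc : (hS'.toOpenPartialHomeomorph Ψ).source ∈ 𝓝 (0 : Fin 7 → ℝ) :=
    (hS'.toOpenPartialHomeomorph Ψ).open_source.mem_nhds hS'.mem_toOpenPartialHomeomorph_source
  filter_upwards [prod_mem_nhds hsrc hsrc] with p hp hpp
  refine (hS'.toOpenPartialHomeomorph Ψ).injOn hp.1 hp.2 ?_
  rw [hS'.toOpenPartialHomeomorph_coe]
  funext i
  exact hpp i

end Pool.SqDrum
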