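import Mathlib
import Pool.Agent.Lib.MP_2805c2_an.SQ.Iface

set_option autoImplicit false

/-! # SER: the second order sum -/

namespace Pool.SqDrum

open MeasureTheory Set Filter Topology Asymptotics
open scoped ENNReal ContDiff InnerProductSpace

theorem ser_lam_sub (i k : ℕ × ℕ) : lam 1 k - lam 1 i = Real.pi ^ 2 * En i k := by
  unfold lam En
  ring

theorem ser (hgel : GelStatement) (hmel : MelStatement) (hevd : EvdStatement) : SerStatement := by
  intro i j a b hi1 hi2 hj1 hj2 hij hW x hx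
  obtain ⟨he1, he2, he3, he4, he5⟩ := hevd
  set l := lam 1 i with hl
  have hpi : Real.pi ^ 2 ≠ 0 := by positivity
  -- the coefficients of `K1 (ev i)`
  have hcoef : ∀ (i : ℕ × ℕ), 0 < i.1 → 0 < i.2 → ∀ k : ℕ × ℕ,
      ⟪cl (D.indicator (gf a b i)), ((ev k : H D) : LL) 0⟫_ℝ = Wm a b i k := by
    intro i h1 h2 k
    rw [he1 k]
    exact hmel i k a b h1 h2
  have hsymm : ∀ F G : H D, ⟪K1 l a b F, G⟫_ℝ = ⟪F, K1 l a b G⟫_ℝ := fun F G =>
    frm_symm D _ _ _ _ F G
  -- the coefficients of `x`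
  have hxk : ∀ k : ℕ × ℕ, (lam 1 k - l) * ⟪((ev k : H D) : LL) 0, (x : LL) 0⟫_ℝ =
      -Wm a b j k := by
    intro k
    have h1 : ⟪ev k, K0 l x⟫_ℝ = (lam 1 k - l) * ⟪((ev k : H D) : LL) 0, (x : LL) 0⟫_ℝ := by
      rw [he3 l k x, he1 k]
    rw [← h1, hx, inner_neg_right]
    have h2 : ⟪ev k, K1 l a b (ev j)⟫_ℝ = Wm a b j k := by
      rw [real_inner_comm, hij, hgel j a b (ev k)]
      exact hcoef j hj1 hj2 k
    rw [h2]
  have hmain : ⟪ev i, K1 l a b x⟫_ℝ =
      ⟪(x : LL) 0, cl (D.indicator (gf a b i))⟫_ℝ := by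
    rw [← hsymm, hl, hgel i a b x, real_inner_comm]
  have hsum := he5 x (cl (D.indicator (gf a b i)))
  have hterm : ∀ k : ℕ × ℕ, ⟪((ev k : H D) : LL) 0, (x : LL) 0⟫_ℝ *
      ⟪((ev k : H D) : LL) 0, cl (D.indicator (gf a b i))⟫_ℝ =
      -((Wm a b i k * Wm a b j k / En i k) / Real.pi ^ 2) := by
    intro k
    have h1 : ⟪((ev k : H D) : LL) 0, cl (D.indicator (gf a b i))⟫_ℝ = Wm a b i k := by
      rw [real_inner_comm]
      exact hcoef i hi1 hi2 k
    rw [h1]
    have h2 := hxk k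
    rw [ser_lam_sub] at h2
    by_cases hE : En i k = 0
    · have h3 : lam 1 k = l := by
        have := ser_lam_sub i k
        rw [hE, mul_zero] at this
        linarith
      rw [hW k h3, hE]
      simp
    · have h4 : ⟪((ev k : H D) : LL) 0, (x : LL) 0⟫_ℝ = -Wm a b j k / (Real.pi ^ 2 * En i k) := by
        rw [eq_div_iff (mul_ne_zero hpi hE), mul_comm]
        exact h2
      rw [h4]
      field_simp
  rw [hmain, ← hsum.tsum_eq, tsum_congr hterm, tsum_neg, tsum_div_const]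
  unfold SS
  rw [neg_div]

end Pool.SqDrum
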