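import Mathlib
import Pool.Agent.Lib.MP_2805c2_an.SQ.Iface

set_option autoImplicit false

namespace Pool.SqDrum

open MeasureTheory Set Filter Topology
open scoped ENNReal ContDiff InnerProductSpace

/-- the linear part of a similarity -/
noncomputable def simL (a b e : ℝ) : P2 →L[ℝ] P2 :=
  ((a • ContinuousLinearMap.fst ℝ ℝ ℝ - (e * b) • ContinuousLinearMap.snd ℝ ℝ ℝ).prod
    (b • ContinuousLinearMap.fst ℝ ℝ ℝ + (e * a) • ContinuousLinearMap.snd ℝ ℝ ℝ))

theorem simL_apply (a b e : ℝ) (x : P2) :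
    simL a b e x = (a * x.1 - e * b * x.2, b * x.1 + e * a * x.2) := by
  simp [simL]

theorem sim_mul_zero : mul 0 = 0 := by
  have h : MemLp (0 : P2 → ℝ) ⊤ (volume : Measure P2) := MemLp.zero
  have := Pool.SqDrum.mul_smul 0 h
  rwa [zero_smul, zero_smul] at this

theorem sim_main (hT : TrfStatement) (hV : VanStatement) : SimStatement := by
  rintro r ρ Ω hr ⟨a, b, p, q, e, he, hab, hρ⟩ hΩ l
  have he2 : e * e = 1 := by rcases he with h | h <;> rw [h] <;> norm_num
  have hρ' : ρ = fun x => simL a b e x + (p, q) := by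
    funext x
    rw [hρ, simL_apply]
    ext <;> simp
  have hfd : ∀ x, fderiv ℝ ρ x = simL a b e := fun x => by
    rw [hρ']
    simp only [fderiv_add_const]
    exact (simL a b e).fderiv
  have hdet : ∀ u v : P2, u = (a, b) → v = (-(e * b), e * a) → |det2 u v| = r ^ 2 := by
    rintro u v rfl rfl
    have : det2 (a, b) (-(e * b), e * a) = e * r ^ 2 := by
      rw [← hab]; unfold det2; ring
    rw [this, abs_mul, abs_of_nonneg (sq_nonneg r)]
    rcases he with h | h <;> rw [h] <;> simp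
  have e1 : ∀ x, fderiv ℝ ρ x (1, 0) = (a, b) := fun x => by
    rw [hfd, simL_apply]; simp
  have e2 : ∀ x, fderiv ℝ ρ x (0, 1) = (-(e * b), e * a) := fun x => by
    rw [hfd, simL_apply]; simp
  have hD : Diffeo ρ Ω (ρ '' Ω) := by
    refine ⟨?_, hΩ, ?_, rfl, ⟨‖simL a b e‖, fun x _ => by rw [hfd]⟩,
      ⟨r ^ 2, by positivity, fun x _ => ?_⟩⟩
    · rw [hρ']; fun_prop
    · intro x _ y _ hxy
      rw [hρ, hρ] at hxy
      have h1 : a * x.1 - e * b * x.2 + p = a * y.1 - e * b * y.2 + p := congrArg Prod.fst hxy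
      have h2 : b * x.1 + e * a * x.2 + q = b * y.1 + e * a * y.2 + q := congrArg Prod.snd hxy
      have hr2 : r ^ 2 ≠ 0 := by positivity
      have k1 : r ^ 2 * (x.1 - y.1) = 0 := by
        rw [← hab]; linear_combination a * h1 + b * h2
      have k2 : r ^ 2 * (x.2 - y.2) = 0 := by
        have : r ^ 2 * (e * e) * (x.2 - y.2) = 0 := by
          rw [← hab]; linear_combination (-(e * b)) * h1 + (e * a) * h2
        rwa [he2, mul_one] at this
      ext
      · have := (mul_eq_zero.1 k1).resolve_left hr2; linarith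
      · have := (mul_eq_zero.1 k2).resolve_left hr2; linarith
    · rw [hdet _ _ (e1 x) (e2 x)]
  have f1 : (fun x => fderiv ℝ ρ x (1, 0)) = fun _ : P2 => ((a, b) : P2) := funext e1
  have f2 : (fun x => fderiv ℝ ρ x (0, 1)) = fun _ : P2 => ((-(e * b), e * a) : P2) := funext e2
  rw [hT ρ Ω (ρ '' Ω) hD l, f1, f2]
  have hr2 : r ^ 2 ≠ 0 := by positivity
  have c1 : c11 (fun _ : P2 => ((a, b) : P2)) (fun _ => (-(e * b), e * a)) = 1 := by
    funext x
    simp only [c11, jc, hdet _ _ rfl rfl, dot2, Pi.one_apply]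
    rw [div_eq_one_iff_eq hr2, ← hab]
    linear_combination (a ^ 2 + b ^ 2) * he2
  have c2 : c12 (fun _ : P2 => ((a, b) : P2)) (fun _ => (-(e * b), e * a)) = 0 := by
    funext x
    simp only [c12, dot2, Pi.zero_apply]
    ring
  have c3 : c22 (fun _ : P2 => ((a, b) : P2)) (fun _ => (-(e * b), e * a)) = 1 := by
    funext x
    simp only [c22, jc, hdet _ _ rfl rfl, dot2, Pi.one_apply]
    rw [div_eq_one_iff_eq hr2, ← hab]
    ring
  have c4 : Ω.indicator (jc (fun _ : P2 => ((a, b) : P2)) (fun _ => (-(e * b), e * a))) =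
      (r ^ 2) • Ω.indicator (1 : P2 → ℝ) := by
    funext x
    by_cases hx : x ∈ Ω <;> simp [hx, jc, hdet _ _ rfl rfl]
  have hstf : ∀ F G : H Ω, ⟪stf Ω (fun _ : P2 => ((a, b) : P2)) (fun _ => (-(e * b), e * a)) F,
      G⟫_ℝ = ⟪(F : LL) 1, (G : LL) 1⟫_ℝ + ⟪(F : LL) 2, (G : LL) 2⟫_ℝ := fun F G => by
    rw [stf, frm_inner, c1, c2, c3]
    have h1 : mul (Ω.indicator 1) ((F : LL) 1) = (F : LL) 1 := hV Ω hΩ F F.2 1
    have h2 : mul (Ω.indicator 1) ((F : LL) 2) = (F : LL) 2 := hV Ω hΩ F F.2 2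
    rw [h1, h2]
    simp only [Set.indicator_zero', sim_mul_zero, _root_.zero_apply, inner_zero_left, add_zero]
  have hmss : ∀ F G : H Ω, ⟪mss Ω (fun _ : P2 => ((a, b) : P2)) (fun _ => (-(e * b), e * a)) F,
      G⟫_ℝ = r ^ 2 * ⟪(F : LL) 0, (G : LL) 0⟫_ℝ := fun F G => by
    rw [mss, frm_inner, c4, mul_smul _ (memLp_indicator_one hΩ.measurableSet)]
    have h1 : mul (Ω.indicator 1) ((F : LL) 0) = (F : LL) 0 := hV Ω hΩ F F.2 0
    simp only [Set.indicator_zero', sim_mul_zero, _root_.zero_apply, inner_zero_left, zero_add,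
      FunLike.coe_smul, Pi.smul_apply, h1]
    exact real_inner_smul_left _ _ _
  have hle : Eig Ω (r ^ 2 * l) ≤ H Ω := fun F hF => hF.1
  rw [mult, ← (Submodule.comapSubtypeEquivOfLe hle).finrank_eq]
  have hK : LinearMap.ker ((stf Ω (fun _ : P2 => ((a, b) : P2)) (fun _ => (-(e * b), e * a)) -
      l • mss Ω (fun _ : P2 => ((a, b) : P2)) (fun _ => (-(e * b), e * a)) :
        H Ω →L[ℝ] H Ω) : H Ω →ₗ[ℝ] H Ω) = (Eig Ω (r ^ 2 * l)).comap (H Ω).subtype := by
    ext F
    rw [Submodule.mem_comap]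
    constructor
    · intro hF
      have hF' : stf Ω (fun _ : P2 => ((a, b) : P2)) (fun _ => (-(e * b), e * a)) F -
        l • mss Ω (fun _ : P2 => ((a, b) : P2)) (fun _ => (-(e * b), e * a)) F = 0 := hF
      refine ⟨F.2, fun G hG => ?_⟩
      have h1 := hstf F ⟨G, hG⟩
      have h2 := hmss F ⟨G, hG⟩
      simp only at h1 h2
      have h3 := real_inner_smul_left
        (mss Ω (fun _ : P2 => ((a, b) : P2)) (fun _ => (-(e * b), e * a)) F) ⟨G, hG⟩ l
      rw [sub_eq_zero.1 hF'] at h1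
      rw [Submodule.subtype_apply, ← h1]
      refine h3.trans ?_
      rw [h2]
      ring
    · intro hF
      have h : ∀ G : H Ω, ⟪stf Ω (fun _ : P2 => ((a, b) : P2)) (fun _ => (-(e * b), e * a)) F -
        l • mss Ω (fun _ : P2 => ((a, b) : P2)) (fun _ => (-(e * b), e * a)) F, G⟫_ℝ = 0 :=
        fun G => by
        have h3 : ⟪l • mss Ω (fun _ : P2 => ((a, b) : P2)) (fun _ => (-(e * b), e * a)) F, G⟫_ℝ =
          l * ⟪mss Ω (fun _ : P2 => ((a, b) : P2)) (fun _ => (-(e * b), e * a)) F, G⟫_ℝ :=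
          real_inner_smul_left
            (mss Ω (fun _ : P2 => ((a, b) : P2)) (fun _ => (-(e * b), e * a)) F) G l
        have h4 := hF.2 G G.2
        rw [Submodule.subtype_apply] at h4
        rw [inner_sub_left, h3, hstf, hmss, h4]
        ring
      exact inner_self_eq_zero.1 (h _)
  rw [hK]

theorem sim (hT : TrfStatement) (hV : VanStatement) : SimStatement := sim_main hT hV

end Pool.SqDrum
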