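import Mathlib
import Pool.Agent.Lib.MP_2805c2_an.SQ.Rho

set_option autoImplicit false

namespace Pool.SqDrum

open MeasureTheory Set Filter Topology
open scoped ENNReal ContDiff InnerProductSpace

noncomputable section

/-! ## the odd function -/

def ro (ε t : ℝ) : ℝ := rho ε t - rho ε (-t)

def roD (ε t : ℝ) : ℝ := rhoD ε t + rhoD ε (-t)

theorem ro_hasDerivAt (ε t : ℝ) : HasDerivAt (ro ε) (roD ε t) t := by
  have h1 := rho_hasDerivAt ε t
  have h2 : HasDerivAt (fun t : ℝ => rho ε (-t)) (rhoD ε (-t) * (-1)) t :=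
    (rho_hasDerivAt ε (-t)).comp t (hasDerivAt_neg t)
  have h3 := h1.sub h2
  have h4 : rhoD ε t - rhoD ε (-t) * (-1) = roD ε t := by unfold roD; ring
  rw [h4] at h3
  exact h3

theorem ro_contDiff (ε : ℝ) : ContDiff ℝ ∞ (ro ε) :=
  (rho_contDiff ε).sub ((rho_contDiff ε).comp contDiff_neg)

theorem ro_zero {ε t : ℝ} (hε : 0 < ε) (ht : |t| ≤ ε) : ro ε t = 0 := by
  have h := abs_le.1 ht
  unfold ro
  rw [rho_zero hε h.2, rho_zero hε (by linarith [h.1])]
  simp

theorem ro_abs_sub {ε : ℝ} (hε : 0 < ε) (t : ℝ) : |ro ε t - t| ≤ 2 * ε := by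
  unfold ro
  rcases le_total t 0 with h | h
  · rw [rho_zero hε (h.trans hε.le)]
    have h1 := rho_abs_sub hε (-t)
    rw [max_eq_left (by linarith)] at h1
    rw [show 0 - rho ε (-t) - t = -(rho ε (-t) - -t) by ring, abs_neg]
    exact h1
  · rw [rho_zero hε (by linarith : -t ≤ ε)]
    have h1 := rho_abs_sub hε t
    rw [max_eq_left h] at h1
    simpa using h1

theorem roD_nonneg (ε t : ℝ) : 0 ≤ roD ε t := add_nonneg (rhoD_nonneg _ _) (rhoD_nonneg _ _)

theorem roD_le_one {ε : ℝ} (hε : 0 < ε) (t : ℝ) : roD ε t ≤ 1 := by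
  unfold roD
  rcases le_total t 0 with h | h
  · rw [rhoD_zero hε (h.trans hε.le)]; simpa using rhoD_le_one ε (-t)
  · rw [rhoD_zero hε (by linarith : -t ≤ ε)]; simpa using rhoD_le_one ε t

theorem roD_one {ε t : ℝ} (hε : 0 < ε) (ht : 2 * ε ≤ |t|) : roD ε t = 1 := by
  unfold roD
  rcases le_total t 0 with h | h
  · rw [abs_of_nonpos h] at ht
    rw [rhoD_zero hε (h.trans hε.le), rhoD_one hε ht, zero_add]
  · rw [abs_of_nonneg h] at ht
    rw [rhoD_zero hε (by linarith : -t ≤ ε), rhoD_one hε ht, add_zero]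

/-! ## partial derivatives of products -/

theorem sin_pd1 {a b : ℝ → ℝ} {a' : ℝ} (c : ℝ) {x : P2} (ha : HasDerivAt a a' x.1)
    (hb : DifferentiableAt ℝ b x.2) : pd1 (fun x => c * (a x.1 * b x.2)) x = c * (a' * b x.2) := by
  have h1 : HasFDerivAt (fun x : P2 => a x.1) (a' • ContinuousLinearMap.fst ℝ ℝ ℝ) x :=
    ha.comp_hasFDerivAt x hasFDerivAt_fst
  have h2 : HasFDerivAt (fun x : P2 => b x.2) (deriv b x.2 • ContinuousLinearMap.snd ℝ ℝ ℝ) x :=
    hb.hasDerivAt.comp_hasFDerivAt x hasFDerivAt_snd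
  have h3 : HasFDerivAt (fun x : P2 => c * (a x.1 * b x.2)) (c • (a x.1 •
      (deriv b x.2 • ContinuousLinearMap.snd ℝ ℝ ℝ) + b x.2 •
      (a' • ContinuousLinearMap.fst ℝ ℝ ℝ))) x := (h1.mul h2).const_mul c
  unfold pd1
  rw [h3.fderiv]
  simp only [ContinuousLinearMap.smul_apply, ContinuousLinearMap.add_apply,
    ContinuousLinearMap.coe_fst', ContinuousLinearMap.coe_snd', smul_eq_mul]
  ring

theorem sin_pd2 {a b : ℝ → ℝ} {b' : ℝ} (c : ℝ) {x : P2} (ha : DifferentiableAt ℝ a x.1)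
    (hb : HasDerivAt b b' x.2) : pd2 (fun x => c * (a x.1 * b x.2)) x = c * (a x.1 * b') := by
  have h1 : HasFDerivAt (fun x : P2 => a x.1) (deriv a x.1 • ContinuousLinearMap.fst ℝ ℝ ℝ) x :=
    ha.hasDerivAt.comp_hasFDerivAt x hasFDerivAt_fst
  have h2 : HasFDerivAt (fun x : P2 => b x.2) (b' • ContinuousLinearMap.snd ℝ ℝ ℝ) x :=
    hb.comp_hasFDerivAt x hasFDerivAt_snd
  have h3 : HasFDerivAt (fun x : P2 => c * (a x.1 * b x.2)) (c • (a x.1 •
      (b' • ContinuousLinearMap.snd ℝ ℝ ℝ) + b x.2 •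
      (deriv a x.1 • ContinuousLinearMap.fst ℝ ℝ ℝ))) x := (h1.mul h2).const_mul c
  unfold pd2
  rw [h3.fderiv]
  simp

/-! ## dominated convergence -/

theorem cl_tendsto {A : Set P2} (hA : MeasurableSet A) (hfin : volume A ≠ ⊤) (C : ℝ)
    {a : ℕ → P2 → ℝ} {b : P2 → ℝ} (ha : ∀ n, MemLp (a n) 2 (volume : Measure P2))
    (hb : MemLp b 2 (volume : Measure P2))
    (hle : ∀ n x, |a n x - b x| ≤ A.indicator (fun _ => C) x)
    (hlim : ∀ᵐ x ∂(volume : Measure P2), Tendsto (fun n => a n x) atTop (𝓝 (b x))) :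
    Tendsto (fun n => cl (a n)) atTop (𝓝 (cl b)) := by
  rw [tendsto_iff_norm_sub_tendsto_zero]
  have h1 : ∀ n, ‖cl (a n) - cl b‖ = Real.sqrt (∫ x, (a n x - b x) * (a n x - b x)) := by
    intro n
    rw [← cl_sub (ha n) hb, ← Real.sqrt_sq (norm_nonneg (cl (a n - b))),
      ← real_inner_self_eq_norm_sq, inner_cl ((ha n).sub hb) ((ha n).sub hb)]
    rfl
  have h2 : Tendsto (fun n => ∫ x, (a n x - b x) * (a n x - b x)) atTop
      (𝓝 (∫ _ : P2, (0 : ℝ))) := by
    refine tendsto_integral_of_dominated_convergence (A.indicator fun _ => C ^ 2) (fun n => ?_)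
      ?_ (fun n => ?_) ?_
    · exact (((ha n).sub hb).integrable_mul ((ha n).sub hb)).aestronglyMeasurable
    · rw [integrable_indicator_iff hA]
      exact integrableOn_const hfin
    · refine Eventually.of_forall fun x => ?_
      have h3 := hle n x
      by_cases hx : x ∈ A
      · rw [Set.indicator_of_mem hx] at h3 ⊢
        rw [Real.norm_eq_abs, abs_mul, ← sq]
        exact pow_le_pow_left₀ (abs_nonneg _) h3 2
      · rw [Set.indicator_of_notMem hx] at h3 ⊢
        have h4 : |a n x - b x| = 0 := le_antisymm h3 (abs_nonneg _)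
        rw [Real.norm_eq_abs, abs_mul, h4, zero_mul]
    · filter_upwards [hlim] with x hx
      have h3 : Tendsto (fun n => a n x - b x) atTop (𝓝 (b x - b x)) := hx.sub_const _
      rw [sub_self] at h3
      simpa using h3.mul h3
  rw [integral_zero] at h2
  have h3 := (Real.continuous_sqrt.tendsto 0).comp h2
  rw [Real.sqrt_zero] at h3
  refine h3.congr fun n => ?_
  rw [h1 n]
  rfl

/-! ## the square -/

theorem sq_isOpen (x₀ y₀ M : ℝ) : IsOpen (Sq x₀ y₀ M) := isOpen_Ioo.prod isOpen_Ioo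

theorem sq_fin (x₀ y₀ M : ℝ) : volume (Sq x₀ y₀ M) ≠ ⊤ :=
  ((Metric.isBounded_Ioo _ _).prod (Metric.isBounded_Ioo _ _)).measure_lt_top.ne

theorem sin_memLp {x₀ y₀ M C : ℝ} {g : P2 → ℝ} (hg : Continuous g) (h : ∀ x, |g x| ≤ C) :
    MemLp ((Sq x₀ y₀ M).indicator g) 2 (volume : Measure P2) := by
  rw [memLp_indicator_iff_restrict (sq_isOpen _ _ _).measurableSet]
  haveI : IsFiniteMeasure ((volume : Measure P2).restrict (Sq x₀ y₀ M)) :=
    ⟨by simpa using (sq_fin x₀ y₀ M).lt_top⟩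
  exact MemLp.of_bound hg.aestronglyMeasurable C (Eventually.of_forall h)

variable (x₀ y₀ M : ℝ) (k : ℕ × ℕ)

def sS (u : ℝ) : ℝ := Real.sin (k.1 * Real.pi * (u - x₀) / M)
def sT (u : ℝ) : ℝ := Real.sin (k.2 * Real.pi * (u - y₀) / M)
def cS (u : ℝ) : ℝ := Real.cos (k.1 * Real.pi * (u - x₀) / M) * (k.1 * Real.pi / M)
def cT (u : ℝ) : ℝ := Real.cos (k.2 * Real.pi * (u - y₀) / M) * (k.2 * Real.pi / M)

theorem sin_arg (m : ℕ) (z u : ℝ) : HasDerivAt (fun u : ℝ => m * Real.pi * (u - z) / M)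
    (m * Real.pi / M) u := by
  have h := (((hasDerivAt_id u).sub_const z).const_mul (m * Real.pi)).div_const M
  simpa using h

theorem sS_deriv (u : ℝ) : HasDerivAt (sS x₀ M k) (cS x₀ M k u) u :=
  (Real.hasDerivAt_sin _).comp u (sin_arg M k.1 x₀ u)

theorem sT_deriv (u : ℝ) : HasDerivAt (sT y₀ M k) (cT y₀ M k u) u :=
  (Real.hasDerivAt_sin _).comp u (sin_arg M k.2 y₀ u)

theorem sS_contDiff : ContDiff ℝ ∞ (sS x₀ M k) := by
  unfold sS
  exact Real.contDiff_sin.comp
    ((contDiff_const.mul (contDiff_id.sub contDiff_const)).div_const M)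

theorem sT_contDiff : ContDiff ℝ ∞ (sT y₀ M k) := by
  unfold sT
  exact Real.contDiff_sin.comp
    ((contDiff_const.mul (contDiff_id.sub contDiff_const)).div_const M)

theorem cS_cont : Continuous (cS x₀ M k) := by unfold cS; fun_prop
theorem cT_cont : Continuous (cT y₀ M k) := by unfold cT; fun_prop

/-- the approximation on the plane -/
def sF (ε : ℝ) (x : P2) : ℝ := (2 / M) * (ro ε (sS x₀ M k x.1) * ro ε (sT y₀ M k x.2))

theorem sF_contDiff (ε : ℝ) : ContDiff ℝ ∞ (sF x₀ y₀ M k ε) := by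
  unfold sF
  exact contDiff_const.mul
    ((((ro_contDiff ε).comp (sS_contDiff x₀ M k)).comp contDiff_fst).mul
      (((ro_contDiff ε).comp (sT_contDiff y₀ M k)).comp contDiff_snd))

variable {M}

theorem sS_bdry (hM : 0 < M) : sS x₀ M k x₀ = 0 ∧ sS x₀ M k (x₀ + M) = 0 := by
  unfold sS
  constructor
  · simp
  · rw [show (k.1 : ℝ) * Real.pi * (x₀ + M - x₀) / M = k.1 * Real.pi by field_simp; ring]
    exact Real.sin_nat_mul_pi _

theorem sT_bdry (hM : 0 < M) : sT y₀ M k y₀ = 0 ∧ sT y₀ M k (y₀ + M) = 0 := by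
  unfold sT
  constructor
  · simp
  · rw [show (k.2 : ℝ) * Real.pi * (y₀ + M - y₀) / M = k.2 * Real.pi by field_simp; ring]
    exact Real.sin_nat_mul_pi _

theorem sin_test (hM : 0 < M) {ε : ℝ} (hε : 0 < ε) :
    Test (Sq x₀ y₀ M) ((Sq x₀ y₀ M).indicator (sF x₀ y₀ M k ε)) := by
  set K : Set P2 := (Icc x₀ (x₀ + M) ×ˢ Icc y₀ (y₀ + M)) ∩
    {x | ε ≤ |sS x₀ M k x.1| ∧ ε ≤ |sT y₀ M k x.2|} with hK
  have hKc : IsCompact K := by
    refine (isCompact_Icc.prod isCompact_Icc).inter_right ?_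
    refine IsClosed.inter ?_ ?_
    · exact isClosed_le continuous_const (((sS_contDiff x₀ M k).continuous.comp
        continuous_fst).abs)
    · exact isClosed_le continuous_const (((sT_contDiff y₀ M k).continuous.comp
        continuous_snd).abs)
  have hKS : K ⊆ Sq x₀ y₀ M := by
    rintro x ⟨⟨h1, h2⟩, h3, h4⟩
    have hx1 : x.1 ≠ x₀ := fun h => by
      rw [h, (sS_bdry x₀ k hM).1, abs_zero] at h3; linarith
    have hx2 : x.1 ≠ x₀ + M := fun h => by
      rw [h, (sS_bdry x₀ k hM).2, abs_zero] at h3; linarith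
    have hy1 : x.2 ≠ y₀ := fun h => by
      rw [h, (sT_bdry y₀ k hM).1, abs_zero] at h4; linarith
    have hy2 : x.2 ≠ y₀ + M := fun h => by
      rw [h, (sT_bdry y₀ k hM).2, abs_zero] at h4; linarith
    exact ⟨⟨lt_of_le_of_ne h1.1 (Ne.symm hx1), lt_of_le_of_ne h1.2 hx2⟩,
      ⟨lt_of_le_of_ne h2.1 (Ne.symm hy1), lt_of_le_of_ne h2.2 hy2⟩⟩
  have hzero : ∀ x, x ∉ K → (Sq x₀ y₀ M).indicator (sF x₀ y₀ M k ε) x = 0 := by
    intro x hx
    by_cases hs : x ∈ Sq x₀ y₀ M
    · rw [Set.indicator_of_mem hs]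
      have h1 : ¬ (ε ≤ |sS x₀ M k x.1| ∧ ε ≤ |sT y₀ M k x.2|) := fun h =>
        hx ⟨⟨Ioo_subset_Icc_self hs.1, Ioo_subset_Icc_self hs.2⟩, h⟩
      unfold sF
      rw [not_and_or, not_le, not_le] at h1
      rcases h1 with h1 | h1
      · rw [ro_zero hε h1.le]; simp
      · rw [ro_zero hε h1.le]; simp
    · exact Set.indicator_of_notMem hs _
  have hsupp : Function.support ((Sq x₀ y₀ M).indicator (sF x₀ y₀ M k ε)) ⊆ K := by
    intro x hx
    by_contra h
    exact hx (hzero x h)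
  refine ⟨?_, HasCompactSupport.of_support_subset_isCompact hKc hsupp,
    (closure_minimal hsupp hKc.isClosed).trans hKS⟩
  rw [contDiff_iff_contDiffAt]
  intro x
  by_cases hx : x ∈ Sq x₀ y₀ M
  · refine ((sF_contDiff x₀ y₀ M k ε).contDiffAt (x := x)).congr_of_eventuallyEq ?_
    filter_upwards [(sq_isOpen x₀ y₀ M).mem_nhds hx] with y hy
    exact Set.indicator_of_mem hy _
  · have hx2 : x ∈ Kᶜ := fun h => hx (hKS h)
    refine (contDiffAt_const (c := (0 : ℝ))).congr_of_eventuallyEq ?_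
    filter_upwards [hKc.isClosed.isOpen_compl.mem_nhds hx2] with y hy
    exact hzero y hy

theorem sin_pd_in {f : P2 → ℝ} {x : P2} (hx : x ∈ Sq x₀ y₀ M) :
    pd1 ((Sq x₀ y₀ M).indicator f) x = pd1 f x ∧ pd2 ((Sq x₀ y₀ M).indicator f) x = pd2 f x := by
  have h : (Sq x₀ y₀ M).indicator f =ᶠ[𝓝 x] f := by
    filter_upwards [(sq_isOpen x₀ y₀ M).mem_nhds hx] with y hy
    exact Set.indicator_of_mem hy _
  unfold pd1 pd2
  rw [h.fderiv_eq]
  exact ⟨rfl, rfl⟩

theorem sin_abs_le (a b : ℝ) : |a * b| ≤ |a| * |b| := (abs_mul a b).le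

theorem sin : SinStatement := by
  intro x₀ y₀ M k hM
  -- the functions
  have hef : ef x₀ y₀ M k = fun x => (2 / M) * (sS x₀ M k x.1 * sT y₀ M k x.2) := rfl
  have hp1 : ∀ x, pd1 (ef x₀ y₀ M k) x = (2 / M) * (cS x₀ M k x.1 * sT y₀ M k x.2) := fun x => by
    rw [hef]
    exact sin_pd1 _ (sS_deriv x₀ M k x.1) (sT_deriv y₀ M k x.2).differentiableAt
  have hp2 : ∀ x, pd2 (ef x₀ y₀ M k) x = (2 / M) * (sS x₀ M k x.1 * cT y₀ M k x.2) := fun x => by
    rw [hef]
    exact sin_pd2 _ (sS_deriv x₀ M k x.1).differentiableAt (sT_deriv y₀ M k x.2)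
  have hq1 : ∀ ε x, pd1 (sF x₀ y₀ M k ε) x =
      (2 / M) * (roD ε (sS x₀ M k x.1) * cS x₀ M k x.1 * ro ε (sT y₀ M k x.2)) := fun ε x => by
    have h1 : HasDerivAt (fun u => ro ε (sS x₀ M k u)) (roD ε (sS x₀ M k x.1) * cS x₀ M k x.1)
        x.1 := (ro_hasDerivAt ε _).comp x.1 (sS_deriv x₀ M k x.1)
    have h2 : DifferentiableAt ℝ (fun u => ro ε (sT y₀ M k u)) x.2 :=
      ((ro_hasDerivAt ε _).comp x.2 (sT_deriv y₀ M k x.2)).differentiableAt
    exact sin_pd1 (2 / M) h1 h2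
  have hq2 : ∀ ε x, pd2 (sF x₀ y₀ M k ε) x =
      (2 / M) * (ro ε (sS x₀ M k x.1) * (roD ε (sT y₀ M k x.2) * cT y₀ M k x.2)) := fun ε x => by
    have h1 : DifferentiableAt ℝ (fun u => ro ε (sS x₀ M k u)) x.1 :=
      ((ro_hasDerivAt ε _).comp x.1 (sS_deriv x₀ M k x.1)).differentiableAt
    have h2 : HasDerivAt (fun u => ro ε (sT y₀ M k u)) (roD ε (sT y₀ M k x.2) * cT y₀ M k x.2)
        x.2 := (ro_hasDerivAt ε _).comp x.2 (sT_deriv y₀ M k x.2)
    exact sin_pd2 (2 / M) h1 h2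
  have hsS : ∀ u, |sS x₀ M k u| ≤ 1 := fun u => Real.abs_sin_le_one _
  have hsT : ∀ u, |sT y₀ M k u| ≤ 1 := fun u => Real.abs_sin_le_one _
  set c1 : ℝ := |(k.1 : ℝ) * Real.pi / M| with hc1
  set c2 : ℝ := |(k.2 : ℝ) * Real.pi / M| with hc2
  have hcS : ∀ u, |cS x₀ M k u| ≤ c1 := fun u => by
    unfold cS
    rw [abs_mul]
    calc _ ≤ 1 * c1 := mul_le_mul_of_nonneg_right (Real.abs_cos_le_one _) (abs_nonneg _)
      _ = c1 := one_mul _
  have hcT : ∀ u, |cT y₀ M k u| ≤ c2 := fun u => by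
    unfold cT
    rw [abs_mul]
    calc _ ≤ 1 * c2 := mul_le_mul_of_nonneg_right (Real.abs_cos_le_one _) (abs_nonneg _)
      _ = c2 := one_mul _
  have hc10 : 0 ≤ c1 := abs_nonneg _
  have hc20 : 0 ≤ c2 := abs_nonneg _
  have hA0 : 0 ≤ |2 / M| := abs_nonneg _
  -- the parameters
  set e : ℕ → ℝ := fun n => 1 / ((n : ℝ) + 1) with hedef
  have he : ∀ n, 0 < e n := fun n => by simp only [hedef]; positivity
  have he1 : ∀ n, e n ≤ 1 := fun n => by
    simp only [hedef]
    rw [div_le_one (by positivity)]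
    linarith [(Nat.cast_nonneg n : (0 : ℝ) ≤ n)]
  have hlim0 : Tendsto e atTop (𝓝 0) := tendsto_one_div_add_atTop_nhds_zero_nat
  have hro : ∀ t, Tendsto (fun n => ro (e n) t) atTop (𝓝 t) := fun t => by
    rw [tendsto_iff_norm_sub_tendsto_zero]
    refine squeeze_zero (fun n => norm_nonneg _) (fun n => ro_abs_sub (he n) t) ?_
    simpa using hlim0.const_mul 2
  have hroD : ∀ t, t ≠ 0 → Tendsto (fun n => roD (e n) t) atTop (𝓝 1) := fun t ht => by
    have h1 : ∀ᶠ n in atTop, 2 * e n < |t| := by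
      have h2 : Tendsto (fun n => 2 * e n) atTop (𝓝 0) := by simpa using hlim0.const_mul 2
      exact h2.eventually (gt_mem_nhds (abs_pos.2 ht))
    refine tendsto_const_nhds.congr' ?_
    filter_upwards [h1] with n hn
    exact (roD_one (he n) hn.le).symm
  have hrob : ∀ n t, |t| ≤ 1 → |ro (e n) t| ≤ 3 := fun n t ht => by
    have h1 := ro_abs_sub (he n) t
    have h2 : |ro (e n) t| ≤ |ro (e n) t - t| + |t| := by
      calc |ro (e n) t| = |(ro (e n) t - t) + t| := by ring_nf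
        _ ≤ _ := abs_add_le _ _
    linarith [he1 n]
  have hroDb : ∀ n t, |roD (e n) t| ≤ 1 := fun n t => by
    rw [abs_of_nonneg (roD_nonneg _ _)]; exact roD_le_one (he n) t
  have hT : ∀ n, Test (Sq x₀ y₀ M) ((Sq x₀ y₀ M).indicator (sF x₀ y₀ M k (e n))) := fun n =>
    sin_test x₀ y₀ k hM (he n)
  have hcontS := (sS_contDiff x₀ M k).continuous
  have hcontT := (sT_contDiff y₀ M k).continuous
  have hcS' := cS_cont x₀ M k
  have hcT' := cT_cont y₀ M k
  have hM0 : MemLp ((Sq x₀ y₀ M).indicator (ef x₀ y₀ M k)) 2 (volume : Measure P2) := by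
    refine sin_memLp (C := |2 / M|) (by rw [hef]; fun_prop) fun x => ?_
    rw [hef]
    simp only [abs_mul]
    calc |2 / M| * (|sS x₀ M k x.1| * |sT y₀ M k x.2|) ≤ |2 / M| * (1 * 1) :=
          mul_le_mul_of_nonneg_left (mul_le_mul (hsS _) (hsT _) (abs_nonneg _) zero_le_one) hA0
      _ = _ := by ring
  have hM1 : MemLp ((Sq x₀ y₀ M).indicator (pd1 (ef x₀ y₀ M k))) 2 (volume : Measure P2) := by
    have h0 : pd1 (ef x₀ y₀ M k) = fun x => (2 / M) * (cS x₀ M k x.1 * sT y₀ M k x.2) :=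
      funext hp1
    rw [h0]
    refine sin_memLp (C := |2 / M| * (c1 * 1)) (by fun_prop) fun x => ?_
    simp only [abs_mul]
    exact mul_le_mul_of_nonneg_left (mul_le_mul (hcS _) (hsT _) (abs_nonneg _) hc10) hA0
  have hM2 : MemLp ((Sq x₀ y₀ M).indicator (pd2 (ef x₀ y₀ M k))) 2 (volume : Measure P2) := by
    have h0 : pd2 (ef x₀ y₀ M k) = fun x => (2 / M) * (sS x₀ M k x.1 * cT y₀ M k x.2) :=
      funext hp2
    rw [h0]
    refine sin_memLp (C := |2 / M| * (1 * c2)) (by fun_prop) fun x => ?_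
    simp only [abs_mul]
    exact mul_le_mul_of_nonneg_left (mul_le_mul (hsS _) (hcT _) (abs_nonneg _) zero_le_one) hA0
  -- the exceptional null set
  have hnull : ∀ (m : ℕ) (z : ℝ), 0 < m →
      {u : ℝ | Real.sin (m * Real.pi * (u - z) / M) = 0}.Countable := by
    intro m z hm
    refine (countable_range (fun j : ℤ => z + j * M / m)).mono ?_
    rintro u hu
    obtain ⟨j, hj⟩ := Real.sin_eq_zero_iff.1 hu
    refine ⟨j, ?_⟩
    have hm' : (m : ℝ) ≠ 0 := by positivity
    have hpi := Real.pi_ne_zero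
    field_simp at hj ⊢
    linarith
  have hae1 : ∀ᵐ x ∂(volume : Measure P2), sS x₀ M k x.1 ≠ 0 ∨ k.1 = 0 := by
    rcases Nat.eq_zero_or_pos k.1 with h | h
    · exact Eventually.of_forall fun x => Or.inr h
    · have h1 : ∀ᵐ u ∂(volume : Measure ℝ), sS x₀ M k u ≠ 0 :=
        (hnull k.1 x₀ h).ae_notMem volume
      have h2 := Measure.quasiMeasurePreserving_fst (μ := (volume : Measure ℝ))
        (ν := (volume : Measure ℝ)) |>.ae h1
      rw [Measure.volume_eq_prod]
      exact h2.mono fun x hx => Or.inl hx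
  have hae2 : ∀ᵐ x ∂(volume : Measure P2), sT y₀ M k x.2 ≠ 0 ∨ k.2 = 0 := by
    rcases Nat.eq_zero_or_pos k.2 with h | h
    · exact Eventually.of_forall fun x => Or.inr h
    · have h1 : ∀ᵐ u ∂(volume : Measure ℝ), sT y₀ M k u ≠ 0 :=
        (hnull k.2 y₀ h).ae_notMem volume
      have h2 := Measure.quasiMeasurePreserving_snd (μ := (volume : Measure ℝ))
        (ν := (volume : Measure ℝ)) |>.ae h1
      rw [Measure.volume_eq_prod]
      exact h2.mono fun x hx => Or.inl hx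
  have hS := (sq_isOpen x₀ y₀ M).measurableSet
  have hfin := sq_fin x₀ y₀ M
  -- convergence of the components
  have hL0 : Tendsto (fun n => cl ((Sq x₀ y₀ M).indicator (sF x₀ y₀ M k (e n)))) atTop
      (𝓝 (cl ((Sq x₀ y₀ M).indicator (ef x₀ y₀ M k)))) := by
    refine cl_tendsto hS hfin (|2 / M| * 9 + |2 / M|) (fun n => (hT n).memLp) hM0
      (fun n x => ?_) (Eventually.of_forall fun x => ?_)
    · by_cases hx : x ∈ Sq x₀ y₀ M
      · simp only [Set.indicator_of_mem hx]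
        refine (abs_sub _ _).trans ?_
        have h1 : |sF x₀ y₀ M k (e n) x| ≤ |2 / M| * 9 := by
          unfold sF
          rw [abs_mul, abs_mul]
          refine mul_le_mul_of_nonneg_left ?_ hA0
          have := mul_le_mul (hrob n _ (hsS x.1)) (hrob n _ (hsT x.2)) (abs_nonneg _)
            (by norm_num)
          linarith
        have h2 : |ef x₀ y₀ M k x| ≤ |2 / M| := by
          rw [hef]
          simp only [abs_mul]
          calc |2 / M| * (|sS x₀ M k x.1| * |sT y₀ M k x.2|) ≤ |2 / M| * (1 * 1) :=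
                mul_le_mul_of_nonneg_left
                  (mul_le_mul (hsS _) (hsT _) (abs_nonneg _) zero_le_one) hA0
            _ = _ := by ring
        exact add_le_add h1 h2
      · simp only [Set.indicator_of_notMem hx]; simp
    · by_cases hx : x ∈ Sq x₀ y₀ M
      · simp only [Set.indicator_of_mem hx]
        exact ((hro _).mul (hro _)).const_mul (2 / M)
      · simp only [Set.indicator_of_notMem hx]
        exact tendsto_const_nhds
  have hL1 : Tendsto (fun n => cl (pd1 ((Sq x₀ y₀ M).indicator (sF x₀ y₀ M k (e n))))) atTop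
      (𝓝 (cl ((Sq x₀ y₀ M).indicator (pd1 (ef x₀ y₀ M k))))) := by
    refine cl_tendsto hS hfin (|2 / M| * (c1 * 3) + |2 / M| * (c1 * 1))
      (fun n => (hT n).pd1_memLp) hM1 (fun n x => ?_) ?_
    · by_cases hx : x ∈ Sq x₀ y₀ M
      · simp only [Set.indicator_of_mem hx]
        rw [(sin_pd_in x₀ y₀ hx).1, hq1, hp1]
        refine (abs_sub _ _).trans (add_le_add ?_ ?_)
        · rw [abs_mul, abs_mul, abs_mul]
          refine mul_le_mul_of_nonneg_left ?_ hA0
          refine mul_le_mul ?_ (hrob n _ (hsT x.2)) (abs_nonneg _) hc10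
          calc _ ≤ 1 * c1 := mul_le_mul (hroDb n _) (hcS _) (abs_nonneg _) zero_le_one
            _ = c1 := one_mul _
        · rw [abs_mul, abs_mul]
          exact mul_le_mul_of_nonneg_left (mul_le_mul (hcS _) (hsT _) (abs_nonneg _) hc10) hA0
      · simp only [Set.indicator_of_notMem hx]
        rw [(hT n).pd1_eq_zero hx]; simp
    · filter_upwards [hae1] with x hx1
      by_cases hx : x ∈ Sq x₀ y₀ M
      · simp only [Set.indicator_of_mem hx]
        have h0 : (fun n => pd1 ((Sq x₀ y₀ M).indicator (sF x₀ y₀ M k (e n))) x) = fun n =>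
            (2 / M) * (roD (e n) (sS x₀ M k x.1) * cS x₀ M k x.1 * ro (e n) (sT y₀ M k x.2)) := by
          funext n; rw [(sin_pd_in x₀ y₀ hx).1, hq1]
        rw [h0, hp1]
        rcases hx1 with hx1 | hx1
        · have h1 := (((hroD _ hx1).mul_const (cS x₀ M k x.1)).mul
            (hro (sT y₀ M k x.2))).const_mul (2 / M)
          simpa using h1
        · have h1 : cS x₀ M k x.1 = 0 := by unfold cS; simp [hx1]
          simp [h1]
      · simp only [Set.indicator_of_notMem hx]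
        have h0 : (fun n => pd1 ((Sq x₀ y₀ M).indicator (sF x₀ y₀ M k (e n))) x) = fun _ => 0 := by
          funext n; exact (hT n).pd1_eq_zero hx
        rw [h0]
        exact tendsto_const_nhds
  have hL2 : Tendsto (fun n => cl (pd2 ((Sq x₀ y₀ M).indicator (sF x₀ y₀ M k (e n))))) atTop
      (𝓝 (cl ((Sq x₀ y₀ M).indicator (pd2 (ef x₀ y₀ M k))))) := by
    refine cl_tendsto hS hfin (|2 / M| * (3 * c2) + |2 / M| * (1 * c2))
      (fun n => (hT n).pd2_memLp) hM2 (fun n x => ?_) ?_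
    · by_cases hx : x ∈ Sq x₀ y₀ M
      · simp only [Set.indicator_of_mem hx]
        rw [(sin_pd_in x₀ y₀ hx).2, hq2, hp2]
        refine (abs_sub _ _).trans (add_le_add ?_ ?_)
        · rw [abs_mul, abs_mul, abs_mul]
          refine mul_le_mul_of_nonneg_left ?_ hA0
          refine mul_le_mul (hrob n _ (hsS x.1)) ?_ (by positivity) (by norm_num)
          calc _ ≤ 1 * c2 := mul_le_mul (hroDb n _) (hcT _) (abs_nonneg _) zero_le_one
            _ = c2 := one_mul _
        · rw [abs_mul, abs_mul]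
          exact mul_le_mul_of_nonneg_left
            (mul_le_mul (hsS _) (hcT _) (abs_nonneg _) zero_le_one) hA0
      · simp only [Set.indicator_of_notMem hx]
        rw [(hT n).pd2_eq_zero hx]; simp
    · filter_upwards [hae2] with x hx1
      by_cases hx : x ∈ Sq x₀ y₀ M
      · simp only [Set.indicator_of_mem hx]
        have h0 : (fun n => pd2 ((Sq x₀ y₀ M).indicator (sF x₀ y₀ M k (e n))) x) = fun n =>
            (2 / M) * (ro (e n) (sS x₀ M k x.1) *
              (roD (e n) (sT y₀ M k x.2) * cT y₀ M k x.2)) := by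
          funext n; rw [(sin_pd_in x₀ y₀ hx).2, hq2]
        rw [h0, hp2]
        rcases hx1 with hx1 | hx1
        · have h1 := ((hro (sS x₀ M k x.1)).mul
            ((hroD _ hx1).mul_const (cT y₀ M k x.2))).const_mul (2 / M)
          simpa using h1
        · have h1 : cT y₀ M k x.2 = 0 := by unfold cT; simp [hx1]
          simp [h1]
      · simp only [Set.indicator_of_notMem hx]
        have h0 : (fun n => pd2 ((Sq x₀ y₀ M).indicator (sF x₀ y₀ M k (e n))) x) = fun _ => 0 := by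
          funext n; exact (hT n).pd2_eq_zero hx
        rw [h0]
        exact tendsto_const_nhds
  -- the limit
  have hlim : Tendsto (fun n => jet ((Sq x₀ y₀ M).indicator (sF x₀ y₀ M k (e n)))) atTop
      (𝓝 (ET x₀ y₀ M k)) := by
    unfold jet ET trip
    refine ((PiLp.continuous_toLp 2 _).tendsto _).comp ?_
    rw [tendsto_pi_nhds]
    intro i
    fin_cases i
    · exact hL0
    · exact hL1
    · exact hL2
  exact (H_isClosed _).mem_of_tendsto hlim (Eventually.of_forall fun n => jet_mem (hT n))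

end

end Pool.SqDrum
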