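import Mathlib
import Pool.Agent.Lib.MP_2805c2_an.SQ.Iface

set_option autoImplicit false

namespace Pool.SqDrum

open MeasureTheory Set Filter Topology

theorem ssm_En_int (i k : ℕ × ℕ) :
    En i k = (((k.1 : ℤ) ^ 2 + (k.2 : ℤ) ^ 2 - (i.1 : ℤ) ^ 2 - (i.2 : ℤ) ^ 2 : ℤ) : ℝ) := by
  unfold En
  push_cast
  ring

theorem ssm_En_swap (i k : ℕ × ℕ) : En i k.swap = En i k := by
  unfold En
  simp only [Prod.fst_swap, Prod.snd_swap]
  ring

theorem ssm_En_swap' (i k : ℕ × ℕ) : En i.swap k = En i k := by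
  unfold En
  simp only [Prod.fst_swap, Prod.snd_swap]
  ring

theorem ssm_Wm_swap (i k : ℕ × ℕ) : Wm 1 1 i.swap k.swap = Wm 1 1 i k := by
  unfold Wm
  simp only [Prod.swap_swap]
  ring

theorem ssm_Pm_zero {i k : ℕ × ℕ} (h : ¬ ((k.1 + i.1) % 2 = 0 ∧ (k.2 + i.2) % 2 = 1)) :
    Pm i k = 0 := by
  unfold Pm
  rw [if_neg h]

theorem ssm_mul_zero {i j k l : ℕ × ℕ}
    (h : ((k.1 + i.1) % 2 = 0 ∧ (k.2 + i.2) % 2 = 1) →
      ¬ ((l.1 + j.1) % 2 = 0 ∧ (l.2 + j.2) % 2 = 1)) : Pm i k * Pm j l = 0 := by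
  by_cases h1 : (k.1 + i.1) % 2 = 0 ∧ (k.2 + i.2) % 2 = 1
  · rw [ssm_Pm_zero (h h1), mul_zero]
  · rw [ssm_Pm_zero h1, zero_mul]

theorem ssm (hN : NrgStatement) : SsmStatement := by
  refine ⟨?_, ?_⟩
  · intro i h1 h2
    unfold SS
    rw [← (Equiv.prodComm ℕ ℕ).tsum_eq (fun k => Wm 1 1 i.swap k * Wm 1 1 i.swap k /
      En i.swap k)]
    refine tsum_congr fun k => ?_
    change _ = Wm 1 1 i.swap k.swap * Wm 1 1 i.swap k.swap / En i.swap k.swap
    rw [ssm_Wm_swap, ssm_En_swap, ssm_En_swap']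
  · intro i h1 h2 hpar
    -- the two halves
    set F : ℕ × ℕ → ℝ := fun k => Pm i k * Pm i.swap k / En i k with hF
    have hs1 := (hN i h1 h2).summable
    have hs2 := (hN i.swap h2 h1).summable
    have hFs : Summable F := by
      refine Summable.of_norm_bounded ((hs1.add hs2).mul_right (1 / 2)) fun k => ?_
      rw [Real.norm_eq_abs, hF]
      simp only
      by_cases hE : En i k = 0
      · rw [hE, div_zero, abs_zero]
        positivity
      · have h3 : 1 ≤ |En i k| := by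
          rw [ssm_En_int] at hE ⊢
          rw [← Int.cast_abs]
          exact_mod_cast Int.one_le_abs (by exact_mod_cast hE)
        rw [abs_div]
        have h4 : |Pm i k * Pm i.swap k| ≤ (Pm i k ^ 2 + Pm i.swap k ^ 2) * (1 / 2) := by
          rw [abs_mul]
          nlinarith [sq_nonneg (|Pm i k| - |Pm i.swap k|), sq_abs (Pm i k),
            sq_abs (Pm i.swap k)]
        exact (div_le_self (abs_nonneg _) h3).trans h4
    have hFs' : Summable (F ∘ (Equiv.prodComm ℕ ℕ)) := (Equiv.prodComm ℕ ℕ).summable_iff.2 hFs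
    have e1 : SS 1 1 i i.swap = ∑' k, (F k + (F ∘ (Equiv.prodComm ℕ ℕ)) k) := by
      unfold SS
      refine tsum_congr fun k => ?_
      change _ = F k + F k.swap
      simp only [hF]
      rw [ssm_En_swap, ← add_div]
      congr 1
      unfold Wm
      simp only [Prod.swap_swap]
      have z1 : Pm i k * Pm i k.swap = 0 := ssm_mul_zero (by
        rintro ⟨a1, a2⟩ ⟨a3, a4⟩
        simp only [Prod.fst_swap, Prod.snd_swap] at a3 a4
        omega)
      have z2 : Pm i.swap k.swap * Pm i.swap k = 0 := ssm_mul_zero (by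
        rintro ⟨a1, a2⟩ ⟨a3, a4⟩
        simp only [Prod.fst_swap, Prod.snd_swap] at a1 a2 a3 a4
        omega)
      linear_combination z1 + z2
    have e2 : SS 1 0 i i.swap = ∑' k, F k := by
      unfold SS
      refine tsum_congr fun k => ?_
      simp [Wm, hF]
    rw [e1, hFs.tsum_add hFs', e2]
    have e3 : ∑' k, (F ∘ (Equiv.prodComm ℕ ℕ)) k = ∑' k, F k :=
      (Equiv.prodComm ℕ ℕ).tsum_eq F
    rw [e3]
    ring

end Pool.SqDrum
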