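import Pool.Agent.Lib.MP_2805c2_an.SQ.Iface

set_option autoImplicit false

/-!
# SUP: superadditivity of the Hilbert–Schmidt norm of the resolvent (helper62)
-/

namespace Pool.SqDrum

open MeasureTheory Set Filter Topology
open scoped ENNReal ContDiff InnerProductSpace

theorem sup_fin (hsi : HsiStatement) (K : L2 →L[ℝ] L2) {n : ℕ} (S : Fin n → Set P2)
    (hS : ∀ i, IsOpen (S i)) (hd : ∀ i j, i ≠ j → Disjoint (S i) (S j)) (s : Finset (Fin n)) :
    ∑ i ∈ s, hs ((ind (S i)).comp K) ≤ hs ((ind (⋃ i ∈ s, S i)).comp K) := by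
  classical
  induction s using Finset.induction_on with
  | empty => simp
  | insert a s ha ih =>
    rw [Finset.sum_insert ha, Finset.set_biUnion_insert]
    have h1 : MeasurableSet (⋃ i ∈ s, S i) :=
      (isOpen_biUnion fun i _ => hS i).measurableSet
    have h2 : Disjoint (S a) (⋃ i ∈ s, S i) := by
      rw [Set.disjoint_iUnion₂_right]
      intro i hi
      refine hd a i ?_
      rintro rfl
      exact ha hi
    rw [hsi.1 K (S a) _ (hS a).measurableSet h1 h2]
    gcongr

/-- **SUP** -/
theorem sup (mon : MonStatement) (hsd : HsdStatement) (hsi : HsiStatement)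
    (van : VanStatement) : SupStatement := by
  intro n S Ω hS hΩ hsub hd
  have h1 : ∀ i, hs (res (S i)) ≤ hs ((ind (S i)).comp (res Ω)) := by
    intro i
    have h2 : (ind (S i)).comp (res (S i)) = res (S i) := by
      ext1 f
      exact van (S i) (hS i) _ (((co (S i) 0).adjoint f).2) 0
    calc hs (res (S i)) = hs ((ind (S i)).comp (res (S i))) := by rw [h2]
      _ ≤ _ := hsd (res (S i)) (res Ω)
        (fun f g hf hg => mon (S i) Ω (hS i) hΩ (hsub i) f g hf hg) (S i) (hS i).measurableSet
  calc ∑ i, hs (res (S i)) ≤ ∑ i, hs ((ind (S i)).comp (res Ω)) :=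
        Finset.sum_le_sum fun i _ => h1 i
    _ ≤ hs ((ind (⋃ i ∈ Finset.univ, S i)).comp (res Ω)) := sup_fin hsi _ S hS hd _
    _ ≤ hs (res Ω) := hsi.2.1 _ _ (isOpen_biUnion fun i _ => hS i).measurableSet

end Pool.SqDrum
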