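import Mathlib
import Pool.Agent.Lib.MP_2805c2_an.SQ.Iface

set_option autoImplicit false

namespace Pool.SqDrum

open MeasureTheory Set Filter Topology

theorem cong_of {z z' : Z5} {ρ s : P2 → P2} (hρ : Sim 1 ρ) (hs : ∀ x ∈ D, s x ∈ D)
    (hss : ∀ x, s (s x) = x)
    (h : ∀ x, bil 0 (va z') (vb z') (vw z') x = ρ (bil 0 (va z) (vb z) (vw z) (s x))) :
    Cong (dom z) (dom z') := by
  refine ⟨ρ, hρ, ?_⟩
  unfold dom
  ext y
  constructor
  · rintro ⟨_, ⟨x, hx, rfl⟩, rfl⟩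
    refine ⟨s x, hs x hx, ?_⟩
    rw [h, hss]
  · rintro ⟨x, hx, rfl⟩
    exact ⟨_, ⟨s x, hs x hx, rfl⟩, (h x).symm⟩

theorem sym : SymStatement := by
  intro z
  refine ⟨cong_of (ρ := fun x => (-x.1, x.2)) (s := fun x => (-x.1, x.2))
      ⟨-1, 0, 0, 0, -1, Or.inr rfl, by norm_num, fun x => by ext <;> simp⟩ ?_ (by simp) ?_,
    cong_of (ρ := fun x => (x.1, -x.2)) (s := fun x => (x.1, -x.2))
      ⟨1, 0, 0, 0, -1, Or.inr rfl, by norm_num, fun x => by ext <;> simp⟩ ?_ (by simp) ?_,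
    cong_of (ρ := fun x => (x.2, x.1)) (s := fun x => (x.2, x.1))
      ⟨0, 1, 0, 0, -1, Or.inr rfl, by norm_num, fun x => by ext <;> simp⟩ ?_ (by simp) ?_⟩
  · intro x hx
    simp only [D, Sq, Set.mem_prod, Set.mem_Ioo] at hx ⊢
    obtain ⟨⟨h1, h2⟩, h3, h4⟩ := hx
    refine ⟨⟨by linarith, by linarith⟩, h3, h4⟩
  · intro x
    ext <;> simp [bil, va, vb, vw, symX] <;> ring
  · intro x hx
    simp only [D, Sq, Set.mem_prod, Set.mem_Ioo] at hx ⊢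
    obtain ⟨⟨h1, h2⟩, h3, h4⟩ := hx
    refine ⟨⟨h1, h2⟩, by linarith, by linarith⟩
  · intro x
    ext <;> simp [bil, va, vb, vw, symY] <;> ring
  · intro x hx
    simp only [D, Sq, Set.mem_prod, Set.mem_Ioo] at hx ⊢
    exact ⟨hx.2, hx.1⟩
  · intro x
    ext <;> simp [bil, va, vb, vw, symS] <;> ring

end Pool.SqDrum
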