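import Mathlib
import Pool.Agent.Lib.MP_2805c2_an.SQ.Iface

set_option autoImplicit false

namespace Pool.SqDrum

open MeasureTheory Set Filter Topology
open scoped ENNReal ContDiff InnerProductSpace

theorem tfi_det (L : P2 →L[ℝ] P2) : L.det = det2 (L (1, 0)) (L (0, 1)) := by
  have h := LinearMap.det_toMatrix (Module.Basis.finTwoProd ℝ) (L : P2 →ₗ[ℝ] P2)
  rw [ContinuousLinearMap.det, ← h, Matrix.det_fin_two]
  simp only [LinearMap.toMatrix_apply, Module.Basis.finTwoProd_zero, Module.Basis.finTwoProd_one]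
  simp only [ContinuousLinearMap.coe_coe, det2]
  simp [Module.Basis.finTwoProd]
  ring

theorem tfi_lin (L : P2 →L[ℝ] ℝ) (v : P2) : L v = L (1, 0) * v.1 + L (0, 1) * v.2 := by
  have h : v = v.1 • ((1, 0) : P2) + v.2 • ((0, 1) : P2) := by
    ext <;> simp
  conv_lhs => rw [h]
  rw [map_add, map_smul, map_smul]
  simp only [smul_eq_mul]
  ring

/-- the form with a coefficient -/
theorem tfi_form {Ω : Set P2} (hΩ : MeasurableSet Ω) {m g h : P2 → ℝ}
    (hm : MemLp (Ω.indicator m) ⊤ (volume : Measure P2))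
    (hg : MemLp g 2 (volume : Measure P2)) (hh : MemLp h 2 (volume : Measure P2)) :
    ⟪mul (Ω.indicator m) (cl g), cl h⟫_ℝ = ∫ x in Ω, m x * (g x * h x) ∧
    IntegrableOn (fun x => m x * (g x * h x)) Ω := by
  have e1 := mul_coe hm (cl g)
  have e2 := cl_coe hg
  have e3 := cl_coe hh
  have key : (fun x => (mul (Ω.indicator m) (cl g)) x * (cl h) x) =ᵐ[volume]
      Ω.indicator (fun x => m x * (g x * h x)) := by
    filter_upwards [e1, e2, e3] with x h1 h2 h3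
    rw [h1, h2, h3]
    by_cases hx : x ∈ Ω
    · simp only [Set.indicator_of_mem hx]; ring
    · simp [Set.indicator_of_notMem hx]
  constructor
  · rw [inner_eq, integral_congr_ae key, integral_indicator hΩ]
  · rw [← integrable_indicator_iff hΩ]
    refine (Integrable.congr ?_ key)
    have := L2.integrable_inner (𝕜 := ℝ) (mul (Ω.indicator m) (cl g)) (cl h)
    refine this.congr (Eventually.of_forall fun x => ?_)
    simp [mul_comm]

/-- partial derivatives of the transported function -/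
theorem tfi_pd {Φ : P2 → P2} {Ω : Set P2} (hΦ : ContDiff ℝ ∞ Φ) (hΩ : IsOpen Ω)
    {φ : P2 → ℝ} (hφ : ContDiff ℝ ∞ φ) {x : P2} (hx : x ∈ Ω) (v : P2) :
    fderiv ℝ (Ω.indicator (φ ∘ Φ)) x v =
      pd1 φ (Φ x) * (fderiv ℝ Φ x v).1 + pd2 φ (Φ x) * (fderiv ℝ Φ x v).2 := by
  have h1 : Ω.indicator (φ ∘ Φ) =ᶠ[𝓝 x] φ ∘ Φ := by
    filter_upwards [hΩ.mem_nhds hx] with y hy
    exact Set.indicator_of_mem hy _
  rw [h1.fderiv_eq, fderiv_comp x ((hφ.differentiable (by simp)) _)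
    ((hΦ.differentiable (by simp)) _), ContinuousLinearMap.comp_apply, tfi_lin]
  rfl

/-- bounds for the coefficients -/
theorem tfi_bdd {Φ : P2 → P2} {Ω Ω' : Set P2} (hD : Diffeo Φ Ω Ω') :
    ∃ C c : ℝ, 0 < C ∧ 0 < c ∧ ∀ x ∈ Ω,
      |(fderiv ℝ Φ x (1, 0)).1| ≤ C ∧ |(fderiv ℝ Φ x (1, 0)).2| ≤ C ∧
      |(fderiv ℝ Φ x (0, 1)).1| ≤ C ∧ |(fderiv ℝ Φ x (0, 1)).2| ≤ C ∧
      c ≤ |det2 (fderiv ℝ Φ x (1, 0)) (fderiv ℝ Φ x (0, 1))| := by
  obtain ⟨C, hC⟩ := hD.bdd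
  obtain ⟨c, hc, hc'⟩ := hD.det
  refine ⟨|C| + 1, c, by positivity, hc, fun x hx => ?_⟩
  have h1 : ‖fderiv ℝ Φ x (1, 0)‖ ≤ |C| + 1 := by
    refine (ContinuousLinearMap.le_opNorm _ _).trans ?_
    have : ‖((1 : ℝ), (0 : ℝ))‖ = 1 := by simp [Prod.norm_def]
    rw [this, mul_one]
    exact (hC x hx).trans ((le_abs_self C).trans (by linarith))
  have h2 : ‖fderiv ℝ Φ x (0, 1)‖ ≤ |C| + 1 := by
    refine (ContinuousLinearMap.le_opNorm _ _).trans ?_
    have : ‖((0 : ℝ), (1 : ℝ))‖ = 1 := by simp [Prod.norm_def]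
    rw [this, mul_one]
    exact (hC x hx).trans ((le_abs_self C).trans (by linarith))
  have n1 : ∀ v : P2, |v.1| ≤ ‖v‖ := fun v => norm_fst_le v
  have n2 : ∀ v : P2, |v.2| ≤ ‖v‖ := fun v => norm_snd_le v
  exact ⟨(n1 _).trans h1, (n2 _).trans h1, (n1 _).trans h2, (n2 _).trans h2, hc' x hx⟩

theorem tfi_dot_le {C : ℝ} (hC : 0 < C) {u v : P2} (h1 : |u.1| ≤ C) (h2 : |u.2| ≤ C)
    (h3 : |v.1| ≤ C) (h4 : |v.2| ≤ C) : |dot2 u v| ≤ 2 * C ^ 2 ∧ |det2 u v| ≤ 2 * C ^ 2 := by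
  have a : ∀ s t : ℝ, |s| ≤ C → |t| ≤ C → |s * t| ≤ C ^ 2 := fun s t hs ht => by
    rw [abs_mul, pow_two]
    exact mul_le_mul hs ht (abs_nonneg _) hC.le
  constructor
  · unfold dot2
    have := abs_add_le (u.1 * v.1) (u.2 * v.2)
    have := a _ _ h1 h3
    have := a _ _ h2 h4
    linarith
  · unfold det2
    have := abs_sub (u.1 * v.2) (u.2 * v.1)
    have := a _ _ h1 h4
    have := a _ _ h2 h3
    linarith

theorem tfi_meas {Φ : P2 → P2} (hΦ : ContDiff ℝ ∞ Φ) (v : P2) :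
    Continuous (fun x => fderiv ℝ Φ x v) :=
  (hΦ.continuous_fderiv (by simp)).clm_apply continuous_const

theorem tfi_dot_cont {u v : P2 → P2} (hu : Continuous u) (hv : Continuous v) :
    Continuous (fun x => dot2 (u x) (v x)) := by
  unfold dot2
  fun_prop

theorem tfi_det_cont {u v : P2 → P2} (hu : Continuous u) (hv : Continuous v) :
    Continuous (fun x => det2 (u x) (v x)) := by
  unfold det2
  fun_prop

/-- the coefficients are bounded and measurable -/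
theorem tfi_memLp {Φ : P2 → P2} {Ω Ω' : Set P2} (hD : Diffeo Φ Ω Ω') :
    MemLp (Ω.indicator (jc (fun x => fderiv ℝ Φ x (1, 0)) (fun x => fderiv ℝ Φ x (0, 1)))) ⊤
      (volume : Measure P2) ∧
    MemLp (Ω.indicator (c11 (fun x => fderiv ℝ Φ x (1, 0)) (fun x => fderiv ℝ Φ x (0, 1)))) ⊤
      (volume : Measure P2) ∧
    MemLp (Ω.indicator (c12 (fun x => fderiv ℝ Φ x (1, 0)) (fun x => fderiv ℝ Φ x (0, 1)))) ⊤
      (volume : Measure P2) ∧
    MemLp (Ω.indicator (c22 (fun x => fderiv ℝ Φ x (1, 0)) (fun x => fderiv ℝ Φ x (0, 1)))) ⊤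
      (volume : Measure P2) := by
  obtain ⟨C, c, hC, hc, hb⟩ := tfi_bdd hD
  have m1 := tfi_meas hD.smooth (1, 0)
  have m2 := tfi_meas hD.smooth (0, 1)
  have mj : Continuous (jc (fun x => fderiv ℝ Φ x (1, 0)) (fun x => fderiv ℝ Φ x (0, 1))) :=
    (tfi_det_cont m1 m2).abs
  have hq : ∀ (u v : P2) (J : ℝ), |dot2 u v| ≤ 2 * C ^ 2 → c ≤ |J| →
      abs (dot2 u v / |J|) ≤ 2 * C ^ 2 / c := fun u v J h1 h2 => by
    rw [abs_div, abs_abs]
    exact div_le_div₀ (by positivity) h1 hc h2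
  refine ⟨?_, ?_, ?_, ?_⟩
  · refine memLp_top_ind hD.isOpen.measurableSet mj.measurable (C := 2 * C ^ 2) (by positivity) ?_
    intro x hx
    obtain ⟨h1, h2, h3, h4, h5⟩ := hb x hx
    rw [jc, abs_abs]
    exact (tfi_dot_le hC h1 h2 h3 h4).2
  · refine memLp_top_ind hD.isOpen.measurableSet
      ((tfi_dot_cont m2 m2).measurable.div mj.measurable) (C := 2 * C ^ 2 / c) (by positivity) ?_
    intro x hx
    obtain ⟨h1, h2, h3, h4, h5⟩ := hb x hx
    exact hq _ _ _ (tfi_dot_le hC h3 h4 h3 h4).1 h5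
  · refine memLp_top_ind hD.isOpen.measurableSet
      ((tfi_dot_cont m1 m2).neg.measurable.div mj.measurable) (C := 2 * C ^ 2 / c)
        (by positivity) ?_
    intro x hx
    obtain ⟨h1, h2, h3, h4, h5⟩ := hb x hx
    have := hq _ _ _ (tfi_dot_le hC h1 h2 h3 h4).1 h5
    simp only [c12, neg_div, abs_neg]
    exact this
  · refine memLp_top_ind hD.isOpen.measurableSet
      ((tfi_dot_cont m1 m1).measurable.div mj.measurable) (C := 2 * C ^ 2 / c) (by positivity) ?_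
    intro x hx
    obtain ⟨h1, h2, h3, h4, h5⟩ := hb x hx
    exact hq _ _ _ (tfi_dot_le hC h1 h2 h1 h2).1 h5

/-- change of variables -/
theorem tfi_cv {Φ : P2 → P2} {Ω Ω' : Set P2} (hD : Diffeo Φ Ω Ω') (f : P2 → ℝ)
    (hf : ∀ x, x ∉ Ω' → f x = 0) :
    ∫ x, f x = ∫ x in Ω, jc (fun x => fderiv ℝ Φ x (1, 0)) (fun x => fderiv ℝ Φ x (0, 1)) x *
      f (Φ x) := by
  have h1 : ∫ x, f x = ∫ x in Ω', f x :=
    (setIntegral_eq_integral_of_forall_compl_eq_zero hf).symm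
  have h2 := integral_image_eq_integral_abs_det_fderiv_smul (volume : Measure P2)
    hD.isOpen.measurableSet
    (fun x _ => ((hD.smooth.differentiable (by simp)) x).hasFDerivAt.hasFDerivWithinAt)
    hD.inj f
  rw [h1, ← hD.img, h2]
  refine setIntegral_congr_fun hD.isOpen.measurableSet fun x _ => ?_
  simp only [smul_eq_mul, tfi_det, jc]

theorem tfi_mul_zero : mul 0 = 0 := by
  have h : MemLp (0 : P2 → ℝ) ⊤ (volume : Measure P2) := MemLp.zero
  have := Pool.SqDrum.mul_smul 0 h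
  rwa [zero_smul, zero_smul] at this

theorem tfi_alg (p q : P2) (a b a' b' : ℝ) (h : |det2 p q| ≠ 0) :
    |det2 p q| * (a * a' + b * b') =
      dot2 q q / |det2 p q| * ((a * p.1 + b * p.2) * (a' * p.1 + b' * p.2)) +
      -dot2 p q / |det2 p q| * ((a * q.1 + b * q.2) * (a' * p.1 + b' * p.2)) +
      -dot2 p q / |det2 p q| * ((a * p.1 + b * p.2) * (a' * q.1 + b' * q.2)) +
      dot2 p p / |det2 p q| * ((a * q.1 + b * q.2) * (a' * q.1 + b' * q.2)) := by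
  field_simp
  rw [sq_abs]
  unfold det2 dot2
  ring

theorem tfi_inner {g h : P2 → ℝ} (hg : MemLp g 2 (volume : Measure P2))
    (hh : MemLp h 2 (volume : Measure P2)) : ⟪cl g, cl h⟫_ℝ = ∫ x, g x * h x := by
  rw [inner_eq]
  refine integral_congr_ae ?_
  filter_upwards [cl_coe hg, cl_coe hh] with x h1 h2
  rw [h1, h2]

theorem tfi_sum4 {μ : Measure P2} {f1 f2 f3 f4 : P2 → ℝ} (h1 : Integrable f1 μ)
    (h2 : Integrable f2 μ) (h3 : Integrable f3 μ) (h4 : Integrable f4 μ) :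
    ∫ x, f1 x ∂μ + ∫ x, f2 x ∂μ + ∫ x, f3 x ∂μ + ∫ x, f4 x ∂μ =
      ∫ x, (f1 x + f2 x + f3 x + f4 x) ∂μ := by
  rw [integral_add (f := fun x => f1 x + f2 x + f3 x) ((h1.add h2).add h3) h4,
    integral_add (f := fun x => f1 x + f2 x) (h1.add h2) h3, integral_add h1 h2]

theorem tfi (hT : TfnStatement) : TfiStatement := by
  intro Φ Ω Ω' hD φ ψ hφ hψ F G hF hG
  obtain ⟨_, hT, _⟩ := hT Φ Ω Ω' hD
  have tφ := hT φ hφ
  have tψ := hT ψ hψ
  obtain ⟨mj, m1, m2, m3⟩ := tfi_memLp hD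
  have hΩ := hD.isOpen.measurableSet
  obtain ⟨C, c, hC, hc, hb⟩ := tfi_bdd hD
  have d1 : ∀ {χ : P2 → ℝ}, Test Ω' χ → ∀ x ∈ Ω, pd1 (Ω.indicator (χ ∘ Φ)) x =
      pd1 χ (Φ x) * (fderiv ℝ Φ x (1, 0)).1 + pd2 χ (Φ x) * (fderiv ℝ Φ x (1, 0)).2 :=
    fun hχ x hx => tfi_pd hD.smooth hD.isOpen hχ.smooth hx _
  have d2 : ∀ {χ : P2 → ℝ}, Test Ω' χ → ∀ x ∈ Ω, pd2 (Ω.indicator (χ ∘ Φ)) x =
      pd1 χ (Φ x) * (fderiv ℝ Φ x (0, 1)).1 + pd2 χ (Φ x) * (fderiv ℝ Φ x (0, 1)).2 :=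
    fun hχ x hx => tfi_pd hD.smooth hD.isOpen hχ.smooth hx _
  constructor
  · rw [mss, frm_inner, hF, hG]
    simp only [jet, trip_zero, trip_one, trip_two, Set.indicator_zero', tfi_mul_zero,
      _root_.zero_apply, inner_zero_left, zero_add]
    rw [(tfi_form hΩ mj tφ.memLp tψ.memLp).1, tfi_inner hφ.memLp hψ.memLp,
      tfi_cv hD _ (fun x hx => by rw [hφ.eq_zero hx, zero_mul])]
    refine setIntegral_congr_fun hΩ fun x hx => ?_
    simp only [Set.indicator_of_mem hx, Function.comp]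
  · rw [stf, frm_inner, hF, hG]
    simp only [jet, trip_zero, trip_one, trip_two, Set.indicator_zero', tfi_mul_zero,
      _root_.zero_apply, inner_zero_left, add_zero]
    obtain ⟨a1, b1⟩ := tfi_form hΩ m1 tφ.pd1_memLp tψ.pd1_memLp
    obtain ⟨a2, b2⟩ := tfi_form hΩ m2 tφ.pd2_memLp tψ.pd1_memLp
    obtain ⟨a3, b3⟩ := tfi_form hΩ m2 tφ.pd1_memLp tψ.pd2_memLp
    obtain ⟨a4, b4⟩ := tfi_form hΩ m3 tφ.pd2_memLp tψ.pd2_memLp
    rw [a1, a2, a3, a4, tfi_inner hφ.pd1_memLp hψ.pd1_memLp,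
      tfi_inner hφ.pd2_memLp hψ.pd2_memLp, tfi_sum4 b1 b2 b3 b4, ← integral_add]
    · rw [tfi_cv hD _ (fun x hx => by
        simp only [hφ.pd1_eq_zero hx, hφ.pd2_eq_zero hx, zero_mul, add_zero])]
      refine setIntegral_congr_fun hΩ fun x hx => ?_
      simp only [d1 hφ x hx, d1 hψ x hx, d2 hφ x hx, d2 hψ x hx, c11, c12, c22, jc]
      refine tfi_alg _ _ _ _ _ _ ?_
      have := (hb x hx).2.2.2.2
      exact (hc.trans_le this).ne'
    · exact (hφ.pd1_cont.mul hψ.pd1_cont).integrable_of_hasCompactSupport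
        (hφ.pd1_compact.mul_right)
    · exact (hφ.pd2_cont.mul hψ.pd2_cont).integrable_of_hasCompactSupport
        (hφ.pd2_compact.mul_right)

end Pool.SqDrum
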