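import Pool.Agent.Lib.MP_2805c2_an.SQ.Iface

set_option autoImplicit false

/-!
# TFN: test functions and changes of variables
-/

namespace Pool.SqDrum

open MeasureTheory Set Filter Topology Asymptotics
open scoped ENNReal ContDiff InnerProductSpace

namespace Tfn

/-- Extension by zero gives test functions. -/
theorem test_indicator {U K : Set P2} (hU : IsOpen U) (hK : IsCompact K) (hKU : K ⊆ U)
    {f : P2 → ℝ} (hf : ∀ x ∈ U, ContDiffAt ℝ ∞ f x) (h0 : ∀ x ∈ U, x ∉ K → f x = 0) :
    Test U (U.indicator f) := by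
  have hz : ∀ x, x ∉ K → U.indicator f x = 0 := by
    intro x hx
    by_cases hxU : x ∈ U
    · rw [indicator_of_mem hxU]; exact h0 x hxU hx
    · exact indicator_of_notMem hxU _
  have hsup : tsupport (U.indicator f) ⊆ K := by
    refine closure_minimal (fun x hx => ?_) hK.isClosed
    by_contra hcon
    exact hx (hz x hcon)
  refine ⟨contDiff_iff_contDiffAt.2 fun x => ?_, HasCompactSupport.intro hK hz, hsup.trans hKU⟩
  by_cases hxU : x ∈ U
  · refine (hf x hxU).congr_of_eventuallyEq ?_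
    filter_upwards [hU.mem_nhds hxU] with y hy
    exact indicator_of_mem hy _
  · have hx : x ∉ K := fun h => hxU (hKU h)
    refine (contDiffAt_const (c := (0 : ℝ))).congr_of_eventuallyEq ?_
    filter_upwards [hK.isClosed.isOpen_compl.mem_nhds hx] with y hy
    exact hz y hy

/-- The derivative of a change of variables is invertible. -/
theorem exists_equiv {L : P2 →L[ℝ] P2} (h : det2 (L (1, 0)) (L (0, 1)) ≠ 0) :
    ∃ e : P2 ≃L[ℝ] P2, (e : P2 →L[ℝ] P2) = L := by
  have hL : ∀ v : P2, L v = v.1 • L (1, 0) + v.2 • L (0, 1) := by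
    intro v
    rw [← map_smul, ← map_smul, ← map_add]
    congr 1
    ext <;> simp
  have hinj : Function.Injective (L : P2 →ₗ[ℝ] P2) := by
    rw [← LinearMap.ker_eq_bot, LinearMap.ker_eq_bot']
    intro v hv
    have hv' : L v = 0 := hv
    rw [hL v] at hv'
    have h1 : v.1 * (L (1, 0)).1 + v.2 * (L (0, 1)).1 = 0 := by
      have := congrArg Prod.fst hv'
      simpa using this
    have h2 : v.1 * (L (1, 0)).2 + v.2 * (L (0, 1)).2 = 0 := by
      have := congrArg Prod.snd hv'
      simpa using this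
    unfold det2 at h
    have h3 : v.1 * ((L (1, 0)).1 * (L (0, 1)).2 - (L (1, 0)).2 * (L (0, 1)).1) = 0 := by
      linear_combination (L (0, 1)).2 * h1 - (L (0, 1)).1 * h2
    have h4 : v.2 * ((L (1, 0)).1 * (L (0, 1)).2 - (L (1, 0)).2 * (L (0, 1)).1) = 0 := by
      linear_combination (L (1, 0)).1 * h2 - (L (1, 0)).2 * h1
    have h5 : v.1 = 0 := (mul_eq_zero.1 h3).resolve_right h
    have h6 : v.2 = 0 := (mul_eq_zero.1 h4).resolve_right h
    exact Prod.ext h5 h6
  refine ⟨(LinearEquiv.ofInjectiveEndo (L : P2 →ₗ[ℝ] P2) hinj).toContinuousLinearEquiv, ?_⟩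
  ext <;> rfl

theorem exists_phom {Φ : P2 → P2} {Ω Ω' : Set P2} (h : Diffeo Φ Ω Ω') :
    ∃ E : OpenPartialHomeomorph P2 P2, E.source = Ω ∧ E.target = Ω' ∧ (∀ x, E x = Φ x) ∧
      ∀ y ∈ Ω', ContDiffAt ℝ ∞ E.symm y := by
  obtain ⟨c, hc, hdet⟩ := h.det
  have hd : ∀ x ∈ Ω, ∃ e : P2 ≃L[ℝ] P2, (e : P2 →L[ℝ] P2) = fderiv ℝ Φ x := by
    intro x hx
    apply exists_equiv
    intro h0
    have := hdet x hx
    rw [h0, abs_zero] at this
    linarith
  have hnh : ∀ x ∈ Ω, map Φ (𝓝 x) = 𝓝 (Φ x) := by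
    intro x hx
    obtain ⟨e, he⟩ := hd x hx
    have h1 : HasStrictFDerivAt Φ (e : P2 →L[ℝ] P2) x := by
      rw [he]
      exact h.smooth.contDiffAt.hasStrictFDerivAt (by simp)
    exact h1.map_nhds_eq_of_equiv
  have hopen : IsOpenMap (Ω.domRestrict Φ) := by
    rw [isOpenMap_iff_nhds_le]
    rintro ⟨x, hx⟩
    rw [Set.domRestrict_apply, ← hnh x hx, ← map_nhds_subtype_coe_eq_nhds hx (h.isOpen.mem_nhds hx),
      Filter.map_map]
    rfl
  let PE : PartialEquiv P2 P2 := h.inj.toPartialEquiv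
  let E : OpenPartialHomeomorph P2 P2 := OpenPartialHomeomorph.ofContinuousOpenRestrict PE
    h.smooth.continuous.continuousOn hopen h.isOpen
  have hE : ∀ x, E x = Φ x := fun x => rfl
  have hs : E.source = Ω := rfl
  have ht : E.target = Ω' := h.img
  refine ⟨E, hs, ht, hE, fun y hy => ?_⟩
  have hy' : y ∈ E.target := by rw [ht]; exact hy
  have hx : E.symm y ∈ Ω := E.map_target hy'
  obtain ⟨e, he⟩ := hd _ hx
  refine E.contDiffAt_symm (f₀' := e) hy' ?_ ?_
  · rw [he]
    exact (h.smooth.differentiable (by simp) _).hasFDerivAt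
  · exact h.smooth.contDiffAt

end Tfn

theorem tfn : TfnStatement := by
  intro Φ Ω Ω' h
  obtain ⟨E, hs, ht, hE, hsm⟩ := Tfn.exists_phom h
  have hO' : IsOpen Ω' := by rw [← ht]; exact E.open_target
  refine ⟨hO', fun φ hφ => ?_, fun ψ hψ => ?_⟩
  · refine Tfn.test_indicator (K := E.symm '' tsupport φ) h.isOpen ?_ ?_ ?_ ?_
    · refine hφ.compact.isCompact.image_of_continuousOn (E.continuousOn_symm.mono ?_)
      rw [ht]; exact hφ.sub
    · rintro _ ⟨y, hy, rfl⟩
      rw [← hs]
      exact E.map_target (by rw [ht]; exact hφ.sub hy)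
    · intro x _
      exact (hφ.smooth.comp h.smooth).contDiffAt
    · intro x hx hxK
      by_contra hcon
      apply hxK
      have h1 : Φ x ∈ tsupport φ := subset_tsupport φ hcon
      refine ⟨Φ x, h1, ?_⟩
      rw [← hE x]
      exact E.left_inv (by rw [hs]; exact hx)
  · refine ⟨Ω'.indicator (ψ ∘ E.symm), ?_, ?_⟩
    · refine Tfn.test_indicator (K := Φ '' tsupport ψ) hO' ?_ ?_ ?_ ?_
      · exact hψ.compact.isCompact.image h.smooth.continuous
      · rintro _ ⟨x, hx, rfl⟩
        rw [← h.img]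
        exact ⟨x, hψ.sub hx, rfl⟩
      · intro y hy
        exact hψ.smooth.contDiffAt.comp y (hsm y hy)
      · intro y hy hyK
        by_contra hcon
        apply hyK
        have h1 : E.symm y ∈ tsupport ψ := subset_tsupport ψ hcon
        refine ⟨E.symm y, h1, ?_⟩
        rw [← hE]
        exact E.right_inv (by rw [ht]; exact hy)
    · funext x
      by_cases hx : x ∈ Ω
      · have h1 : Φ x ∈ Ω' := by rw [← h.img]; exact ⟨x, hx, rfl⟩
        rw [indicator_of_mem hx, Function.comp_apply, indicator_of_mem h1, Function.comp_apply]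
        congr 1
        rw [← hE x]
        exact E.left_inv (by rw [hs]; exact hx)
      · rw [indicator_of_notMem hx]
        exact (hψ.eq_zero hx).symm

end Pool.SqDrum
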