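import Mathlib
import Pool.Agent.Lib.MP_2805c2_an.SQ.Iface

set_option autoImplicit false

namespace Pool.SqDrum

open MeasureTheory Set Filter Topology
open scoped ENNReal ContDiff InnerProductSpace

theorem tha (h1 : LcfStatement) (h2 : PtwStatement) (h3 : PsiStatement) : ThaStatement := by
  obtain ⟨C, hC, hP⟩ := h2
  obtain ⟨hb, hc, -⟩ := h3
  refine ⟨C, hC, fun x₀ M A hM hA hsub => ?_⟩
  have hM0 : 0 < M := by linarith
  have hfin : volume A ≠ ⊤ := by
    refine ne_top_of_le_ne_top ?_ (measure_mono hsub)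
    unfold Sq
    rw [Measure.volume_eq_prod, Measure.prod_prod, Real.volume_Ioo, Real.volume_Ioo]
    exact ENNReal.mul_ne_top ENNReal.ofReal_ne_top ENNReal.ofReal_ne_top
  have : IsFiniteMeasure (volume.restrict A) := ⟨by
    rw [Measure.restrict_apply_univ]; exact lt_top_iff_ne_top.2 hfin⟩
  have hmeas : Measurable (fun x : P2 => psi x.2) := (hc.comp continuous_snd).measurable
  have i1 : IntegrableOn (fun x : P2 => 1 - psi x.2) A := by
    refine Integrable.mono' (integrable_const (1 : ℝ))
      (measurable_const.sub hmeas).aestronglyMeasurable (Eventually.of_forall fun x => ?_)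
    rw [Real.norm_eq_abs, abs_le]
    have := hb x.2
    constructor <;> linarith [this.1, this.2]
  rw [h1 x₀ 0 M A hM0 hA, inter_eq_left.2 hsub]
  have e1 : ∀ k : ℕ × ℕ, ENNReal.ofReal (1 / (lam M k + 1) ^ 2) *
      ∫⁻ x in A, ENNReal.ofReal (ef x₀ 0 M k x ^ 2) =
      ∫⁻ x in A, ENNReal.ofReal (1 / (lam M k + 1) ^ 2) *
        ENNReal.ofReal (ef x₀ 0 M k x ^ 2) := fun k => by
    rw [lintegral_const_mul]
    unfold ef; fun_prop
  simp_rw [e1]
  rw [← lintegral_tsum (fun k => by unfold ef; fun_prop)]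
  have i2 : IntegrableOn (fun x : P2 => (1 - psi x.2) / (4 * Real.pi) + C / M ^ 2) A :=
    (i1.div_const _).add (integrable_const _)
  calc ∫⁻ x in A, ∑' k : ℕ × ℕ, ENNReal.ofReal (1 / (lam M k + 1) ^ 2) *
        ENNReal.ofReal (ef x₀ 0 M k x ^ 2) ≤
      ∫⁻ x in A, ENNReal.ofReal ((1 - psi x.2) / (4 * Real.pi) + C / M ^ 2) :=
        lintegral_mono fun x => hP x₀ M x hM
    _ = ENNReal.ofReal (∫ x in A, ((1 - psi x.2) / (4 * Real.pi) + C / M ^ 2)) := by
        rw [ofReal_integral_eq_lintegral_ofReal i2]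
        refine Eventually.of_forall fun x => ?_
        have h4 : 0 ≤ 1 - psi x.2 := by linarith [(hb x.2).2]
        have := Real.pi_pos
        simp only [Pi.zero_apply]
        positivity
    _ = _ := by
        rw [integral_add (i1.div_const _) (integrable_const _), integral_div, integral_const]
        congr 2
        rw [smul_eq_mul, measureReal_restrict_apply_univ]
        ring

end Pool.SqDrum
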