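import Mathlib
import Pool.Agent.Lib.MP_2805c2_an.SQ.Iface

set_option autoImplicit false

namespace Pool.SqDrum

open MeasureTheory Set Filter Topology
open scoped ENNReal ContDiff InnerProductSpace

theorem thb_ind_univ : ind (univ : Set P2) = ContinuousLinearMap.id ℝ L2 := by
  ext1 f
  refine Lp.ext ?_
  filter_upwards [ind_coe MeasurableSet.univ f] with x hx
  rw [hx]; simp

theorem thb_summ {c : ℝ} (hc : 0 < c) :
    Summable (fun n : ℤ => Real.exp (-(c * (n : ℝ) ^ 2))) := by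
  have h1 : Summable (fun n : ℤ => 1 / c * (1 / (n : ℝ) ^ 2)) :=
    (Real.summable_one_div_int_pow.2 (by norm_num)).mul_left _
  have h2 : Summable (fun n : ℤ => if n = 0 then (1 : ℝ) else 0) :=
    summable_of_ne_finset_zero (s := {0}) (by intro b hb; simp at hb; simp [hb])
  refine Summable.of_nonneg_of_le (fun n => (Real.exp_pos _).le) (fun n => ?_) (h1.add h2)
  by_cases hn : n = 0
  · subst hn; simp
  · have hn2 : (0 : ℝ) < (n : ℝ) ^ 2 := by positivity
    have h3 : 0 < c * (n : ℝ) ^ 2 := mul_pos hc hn2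
    rw [if_neg hn, add_zero, Real.exp_neg, ← one_div, one_div_mul_one_div]
    apply one_div_le_one_div_of_le h3
    have := Real.add_one_le_exp (c * (n : ℝ) ^ 2)
    linarith

/-- the theta function -/
noncomputable def thbT (L t : ℝ) : ℝ :=
  ∑' m : ℕ, Real.exp (-(Real.pi ^ 2 * ((m + 1 : ℕ) : ℝ) ^ 2 * t / L ^ 2))

theorem thbT_summ {L t : ℝ} (hL : 0 < L) (ht : 0 < t) :
    Summable (fun m : ℕ => Real.exp (-(Real.pi ^ 2 * ((m + 1 : ℕ) : ℝ) ^ 2 * t / L ^ 2))) := by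
  have hpi := Real.pi_pos
  have h := (thb_summ (c := Real.pi ^ 2 * t / L ^ 2) (by positivity)).comp_injective
    (i := fun m : ℕ => ((m + 1 : ℕ) : ℤ)) (fun a b hab => by simpa using hab)
  refine h.congr fun m => ?_
  simp only [Function.comp_apply, Int.cast_natCast]
  congr 1; ring

theorem thbT_nonneg (L t : ℝ) : 0 ≤ thbT L t := tsum_nonneg fun _ => (Real.exp_pos _).le

theorem thbT_ge {L t : ℝ} (hL : 0 < L) (ht : 0 < t) :
    L / Real.sqrt (Real.pi * t) ≤ 2 * thbT L t + 1 := by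
  have hpi := Real.pi_pos
  set a : ℝ := Real.pi * t / L ^ 2 with ha
  have ha0 : 0 < a := by positivity
  have hp := Real.tsum_exp_neg_mul_int_sq ha0
  have hs1 := thb_summ (c := Real.pi * a) (by positivity)
  have hs2 := thb_summ (c := Real.pi / a) (by positivity)
  have e1 : ∑' n : ℤ, Real.exp (-Real.pi * a * (n : ℝ) ^ 2) = 2 * thbT L t + 1 := by
    have e0 : ∀ n : ℤ, Real.exp (-Real.pi * a * (n : ℝ) ^ 2) =
        Real.exp (-(Real.pi * a * (n : ℝ) ^ 2)) := fun n => by congr 1; ring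
    simp_rw [e0]
    have hs3 : Summable (fun n : ℕ => Real.exp (-(Real.pi * a * ((n : ℤ) : ℝ) ^ 2))) :=
      hs1.comp_injective Nat.cast_injective
    have hs4 : Summable (fun n : ℕ => Real.exp (-(Real.pi * a * ((-(n + 1 : ℤ) : ℤ) : ℝ) ^ 2))) :=
      hs1.comp_injective (i := fun n : ℕ => (-(n + 1 : ℤ) : ℤ)) (fun a b hab => by simpa using hab)
    rw [tsum_of_nat_of_neg_add_one (f := fun n : ℤ => Real.exp (-(Real.pi * a * (n : ℝ) ^ 2)))
      hs3 hs4, hs3.tsum_eq_zero_add]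
    have e2 : ∑' n : ℕ, Real.exp (-(Real.pi * a * (((n + 1 : ℕ) : ℤ) : ℝ) ^ 2)) = thbT L t := by
      unfold thbT
      refine tsum_congr fun n => ?_
      rw [ha]; congr 1; push_cast; ring
    have e3 : ∑' n : ℕ, Real.exp (-(Real.pi * a * ((-(n + 1 : ℤ) : ℤ) : ℝ) ^ 2)) = thbT L t := by
      unfold thbT
      refine tsum_congr fun n => ?_
      rw [ha]; congr 1; push_cast; ring
    rw [e2, e3]
    simp
    ring
  have hrp : a ^ (1 / 2 : ℝ) = Real.sqrt (Real.pi * t) / L := by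
    rw [← Real.sqrt_eq_rpow, ha, Real.sqrt_div' _ (by positivity), Real.sqrt_sq hL.le]
  rw [e1, hrp] at hp
  have e4 : (1 : ℝ) ≤ ∑' n : ℤ, Real.exp (-Real.pi / a * (n : ℝ) ^ 2) := by
    have e0 : ∀ n : ℤ, Real.exp (-Real.pi / a * (n : ℝ) ^ 2) =
        Real.exp (-(Real.pi / a * (n : ℝ) ^ 2)) := fun n => by congr 1; ring
    simp_rw [e0]
    have := hs2.le_tsum 0 (fun n _ => (Real.exp_pos _).le)
    refine le_trans (le_of_eq ?_) this
    simp
  rw [hp]
  have h5 : 0 < L / Real.sqrt (Real.pi * t) := div_pos hL (Real.sqrt_pos.2 (by positivity))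
  have e5 : 1 / (Real.sqrt (Real.pi * t) / L) = L / Real.sqrt (Real.pi * t) := by
    rw [one_div_div]
  rw [e5]
  exact le_mul_of_one_le_right h5.le e4

theorem thb_lapl_int {r L : ℝ} (hr : 0 ≤ r) (hL : 0 < L) :
    IntegrableOn (fun t : ℝ => t ^ r * Real.exp (-(L * t))) (Ioi 0) := by
  have h := integrableOn_rpow_mul_exp_neg_mul_rpow (p := 1) (s := r) (b := L) (by linarith)
    (by norm_num) hL
  refine h.congr_fun (fun t ht => ?_) measurableSet_Ioi
  simp only [Real.rpow_one, neg_mul]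

theorem thb_lapl {L : ℝ} (hL : 0 < L) :
    ∫⁻ t in Ioi (0 : ℝ), ENNReal.ofReal (t * Real.exp (-(L * t))) =
      ENNReal.ofReal (1 / L ^ 2) := by
  have hi : IntegrableOn (fun t : ℝ => t * Real.exp (-(L * t))) (Ioi 0) := by
    refine (thb_lapl_int (r := 1) (by norm_num) hL).congr_fun (fun t ht => ?_) measurableSet_Ioi
    simp only [Real.rpow_one]
  have hv : ∫ t in Ioi (0 : ℝ), t * Real.exp (-(L * t)) = 1 / L ^ 2 := by
    have h := Real.integral_rpow_mul_exp_neg_mul_Ioi (a := 2) (r := L) (by norm_num) hL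
    have g2 : Real.Gamma 2 = 1 := by
      rw [show (2 : ℝ) = 1 + 1 by norm_num, Real.Gamma_add_one (by norm_num), Real.Gamma_one]
      norm_num
    rw [g2] at h
    have e : ∫ t in Ioi (0 : ℝ), t * Real.exp (-(L * t)) =
        ∫ t in Ioi (0 : ℝ), t ^ ((2 : ℝ) - 1) * Real.exp (-(L * t)) := by
      refine setIntegral_congr_fun measurableSet_Ioi fun t ht => ?_
      norm_num
    rw [e, h]
    norm_num
  rw [← ofReal_integral_eq_lintegral_ofReal hi, hv]
  refine (ae_restrict_iff' measurableSet_Ioi).2 (Eventually.of_forall fun t ht => ?_)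
  exact mul_nonneg (le_of_lt ht) (Real.exp_pos _).le

theorem thb_ofReal_integral {α : Type} [MeasurableSpace α] {μ : Measure α} {g : α → ℝ}
    (hg : Integrable g μ) : ENNReal.ofReal (∫ x, g x ∂μ) ≤ ∫⁻ x, ENNReal.ofReal (g x) ∂μ := by
  rw [integral_eq_lintegral_pos_part_sub_lintegral_neg_part hg]
  refine le_trans (ENNReal.ofReal_le_ofReal (sub_le_self _ ENNReal.toReal_nonneg)) ?_
  exact ENNReal.ofReal_toReal_le

theorem thb_Sq_fin (x₀ y₀ L : ℝ) : volume (Sq x₀ y₀ L) ≠ ⊤ := by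
  unfold Sq
  rw [Measure.volume_eq_prod, Measure.prod_prod, Real.volume_Ioo, Real.volume_Ioo]
  exact ENNReal.mul_ne_top ENNReal.ofReal_ne_top ENNReal.ofReal_ne_top

theorem thb_Sq_meas (x₀ y₀ L : ℝ) : MeasurableSet (Sq x₀ y₀ L) :=
  measurableSet_Ioo.prod measurableSet_Ioo

theorem thb_ef_cont (x₀ y₀ L : ℝ) (k : ℕ × ℕ) : Continuous (ef x₀ y₀ L k) := by
  unfold ef; fun_prop

theorem thb_memLp (x₀ y₀ : ℝ) {L : ℝ} (hL : 0 < L) (k : ℕ × ℕ) :
    MemLp ((Sq x₀ y₀ L).indicator (ef x₀ y₀ L k)) 2 (volume : Measure P2) := by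
  rw [memLp_indicator_iff_restrict (thb_Sq_meas _ _ _)]
  have : IsFiniteMeasure ((volume : Measure P2).restrict (Sq x₀ y₀ L)) := ⟨by
    rw [Measure.restrict_apply_univ]; exact lt_top_iff_ne_top.2 (thb_Sq_fin _ _ _)⟩
  refine MemLp.of_bound (thb_ef_cont x₀ y₀ L k).aestronglyMeasurable (2 / L)
    (Eventually.of_forall fun x => ?_)
  unfold ef
  rw [norm_mul, norm_mul, Real.norm_eq_abs, Real.norm_eq_abs, Real.norm_eq_abs,
    abs_of_pos (by positivity)]
  have h1 := Real.abs_sin_le_one (k.1 * Real.pi * (x.1 - x₀) / L)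
  have h2 := Real.abs_sin_le_one (k.2 * Real.pi * (x.2 - y₀) / L)
  have h3 : |Real.sin (k.1 * Real.pi * (x.1 - x₀) / L)| *
      |Real.sin (k.2 * Real.pi * (x.2 - y₀) / L)| ≤ 1 :=
    mul_le_one₀ h1 (abs_nonneg _) h2
  calc _ ≤ 2 / L * 1 := mul_le_mul_of_nonneg_left h3 (by positivity)
    _ = _ := mul_one _

theorem thb_norm (h : OrtStatement) (x₀ y₀ : ℝ) {L : ℝ} (hL : 0 < L) {k : ℕ × ℕ} (h1 : 0 < k.1)
    (h2 : 0 < k.2) : ∫⁻ x in Sq x₀ y₀ L, ENNReal.ofReal (ef x₀ y₀ L k x ^ 2) = 1 := by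
  have ho := h x₀ y₀ L hL k k
  rw [if_pos ⟨rfl, h1, h2⟩, inner_eq] at ho
  have hm := thb_memLp x₀ y₀ hL k
  have e1 : ∫ x, (ET x₀ y₀ L k 0) x * (ET x₀ y₀ L k 0) x =
      ∫ x in Sq x₀ y₀ L, ef x₀ y₀ L k x ^ 2 := by
    rw [← integral_indicator (thb_Sq_meas _ _ _)]
    refine integral_congr_ae ?_
    filter_upwards [cl_coe hm] with x hx
    have : (ET x₀ y₀ L k 0) x = cl ((Sq x₀ y₀ L).indicator (ef x₀ y₀ L k)) x := rfl
    rw [this, hx]
    by_cases hxs : x ∈ Sq x₀ y₀ L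
    · simp only [Set.indicator_of_mem hxs]; ring
    · simp only [Set.indicator_of_notMem hxs]; ring
  rw [e1] at ho
  have hi : IntegrableOn (fun x => ef x₀ y₀ L k x ^ 2) (Sq x₀ y₀ L) := by
    by_contra hc
    rw [integral_undef hc] at ho
    exact zero_ne_one ho
  rw [← ofReal_integral_eq_lintegral_ofReal hi (Eventually.of_forall fun x => sq_nonneg _), ho,
    ENNReal.ofReal_one]

theorem thb (h1 : LcfStatement) (h2 : OrtStatement) : ThbStatement := by
  intro x₀ y₀ L hL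
  have hpi := Real.pi_pos
  have hh := h1 x₀ y₀ L univ hL MeasurableSet.univ
  rw [thb_ind_univ, ContinuousLinearMap.id_comp, univ_inter] at hh
  rw [hh]
  have hinj : Function.Injective (fun k : ℕ × ℕ => ((k.1 + 1, k.2 + 1) : ℕ × ℕ)) := by
    intro a b hab
    simp only [Prod.mk.injEq, add_left_inj] at hab
    exact Prod.ext hab.1 hab.2
  refine le_trans ?_ (ENNReal.tsum_comp_le_tsum_of_injective hinj _)
  -- the terms
  have e1 : ∀ k : ℕ × ℕ, ENNReal.ofReal (1 / (lam L (k.1 + 1, k.2 + 1) + 1) ^ 2) *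
      ∫⁻ x in Sq x₀ y₀ L, ENNReal.ofReal (ef x₀ y₀ L (k.1 + 1, k.2 + 1) x ^ 2) =
      ∫⁻ t in Ioi (0 : ℝ), ENNReal.ofReal (t * Real.exp (-t)) *
        (ENNReal.ofReal (Real.exp (-(Real.pi ^ 2 * ((k.1 + 1 : ℕ) : ℝ) ^ 2 * t / L ^ 2))) *
          ENNReal.ofReal (Real.exp (-(Real.pi ^ 2 * ((k.2 + 1 : ℕ) : ℝ) ^ 2 * t / L ^ 2)))) := by
    intro k
    rw [thb_norm h2 x₀ y₀ hL (by simp) (by simp), mul_one]
    have hl : 0 < lam L (k.1 + 1, k.2 + 1) + 1 := by unfold lam; positivity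
    rw [← thb_lapl hl]
    refine setLIntegral_congr_fun measurableSet_Ioi fun t ht => ?_
    have ht0 : 0 < t := ht
    rw [← ENNReal.ofReal_mul (Real.exp_pos _).le, ← ENNReal.ofReal_mul (by positivity)]
    congr 1
    rw [mul_assoc, ← Real.exp_add, ← Real.exp_add]
    congr 2
    unfold lam
    ring
  simp_rw [e1]
  rw [← lintegral_tsum (fun k => by fun_prop)]
  -- the bound
  have iC : IntegrableOn (fun t : ℝ => t ^ (1 / 2 : ℝ) * Real.exp (-t)) (Ioi 0) := by
    refine (thb_lapl_int (r := 1 / 2) (L := 1) (by norm_num) one_pos).congr_fun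
      (fun t ht => ?_) measurableSet_Ioi
    simp only [one_mul]
  have iA : IntegrableOn (fun t : ℝ => Real.exp (-t)) (Ioi 0) := by
    have := exp_neg_integrableOn_Ioi 0 (b := 1) one_pos
    simpa using this
  have vA : ∫ t in Ioi (0 : ℝ), Real.exp (-t) = 1 := integral_exp_neg_Ioi_zero
  have vC : ∫ t in Ioi (0 : ℝ), t ^ (1 / 2 : ℝ) * Real.exp (-t) = Real.sqrt Real.pi / 2 := by
    have h := Real.Gamma_eq_integral (s := 3 / 2) (by norm_num)
    have g1 : Real.Gamma (3 / 2) = Real.sqrt Real.pi / 2 := by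
      rw [show (3 / 2 : ℝ) = 1 / 2 + 1 by norm_num, Real.Gamma_add_one (by norm_num),
        Real.Gamma_one_half_eq]
      ring
    rw [← g1, h]
    refine setIntegral_congr_fun measurableSet_Ioi fun t ht => ?_
    rw [mul_comm]
    norm_num
  have iG : IntegrableOn (fun t : ℝ => L ^ 2 / (4 * Real.pi) * Real.exp (-t) -
      L / (2 * Real.sqrt Real.pi) * (t ^ (1 / 2 : ℝ) * Real.exp (-t))) (Ioi 0) :=
    (iA.const_mul _).sub (iC.const_mul _)
  have hsp : 0 < Real.sqrt Real.pi := Real.sqrt_pos.2 hpi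
  have hval : L ^ 2 / (4 * Real.pi) - L / 4 = ∫ t in Ioi (0 : ℝ),
      (L ^ 2 / (4 * Real.pi) * Real.exp (-t) -
      L / (2 * Real.sqrt Real.pi) * (t ^ (1 / 2 : ℝ) * Real.exp (-t))) := by
    rw [integral_sub (iA.const_mul _) (iC.const_mul _), integral_const_mul, integral_const_mul,
      vA, vC]
    field_simp
    ring
  rw [hval]
  refine le_trans (thb_ofReal_integral iG) (setLIntegral_mono' measurableSet_Ioi fun t ht => ?_)
  have ht0 : 0 < t := ht
  rw [ENNReal.tsum_mul_left, ENNReal.tsum_prod (f := fun m n : ℕ =>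
    ENNReal.ofReal (Real.exp (-(Real.pi ^ 2 * ((m + 1 : ℕ) : ℝ) ^ 2 * t / L ^ 2))) *
      ENNReal.ofReal (Real.exp (-(Real.pi ^ 2 * ((n + 1 : ℕ) : ℝ) ^ 2 * t / L ^ 2))))]
  simp_rw [ENNReal.tsum_mul_left]
  rw [ENNReal.tsum_mul_right, ← ENNReal.ofReal_tsum_of_nonneg (fun _ => (Real.exp_pos _).le)
    (thbT_summ hL ht0)]
  have hθ : 0 ≤ thbT L t := thbT_nonneg L t
  have hfold : (∑' m : ℕ, Real.exp (-(Real.pi ^ 2 * ((m + 1 : ℕ) : ℝ) ^ 2 * t / L ^ 2))) =
    thbT L t := rfl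
  rw [hfold, ← ENNReal.ofReal_mul hθ, ← ENNReal.ofReal_mul (by positivity)]
  apply ENNReal.ofReal_le_ofReal
  have hge := thbT_ge hL ht0
  set y : ℝ := L / Real.sqrt (Real.pi * t) with hy
  have hq : 0 < Real.sqrt (Real.pi * t) := Real.sqrt_pos.2 (by positivity)
  have hy0 : 0 < y := div_pos hL hq
  have hkey : (y ^ 2 - 2 * y) / 4 ≤ thbT L t * thbT L t := by
    by_cases hy1 : 1 ≤ y
    · nlinarith
    · push Not at hy1
      nlinarith [mul_nonneg hθ hθ]
  have e6 : L ^ 2 / (4 * Real.pi) * Real.exp (-t) -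
      L / (2 * Real.sqrt Real.pi) * (t ^ (1 / 2 : ℝ) * Real.exp (-t)) =
      t * Real.exp (-t) * ((y ^ 2 - 2 * y) / 4) := by
    have hst : 0 < Real.sqrt t := Real.sqrt_pos.2 ht0
    have h8 : Real.sqrt t * Real.sqrt t = t := Real.mul_self_sqrt ht0.le
    have h9 : Real.sqrt Real.pi * Real.sqrt Real.pi = Real.pi := Real.mul_self_sqrt hpi.le
    have hy2 : y = L / (Real.sqrt Real.pi * Real.sqrt t) := by
      rw [hy, Real.sqrt_mul hpi.le]
    rw [← Real.sqrt_eq_rpow, hy2]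
    have e7 : t * (L / (Real.sqrt Real.pi * Real.sqrt t)) ^ 2 = L ^ 2 / Real.pi := by
      rw [div_pow, mul_pow, Real.sq_sqrt hpi.le, Real.sq_sqrt ht0.le]
      field_simp
    have e8 : t * (L / (Real.sqrt Real.pi * Real.sqrt t)) = L / Real.sqrt Real.pi * Real.sqrt t := by
      rw [div_mul_eq_mul_div, mul_div_assoc', div_eq_div_iff (by positivity) (by positivity)]
      calc t * L * Real.sqrt Real.pi = (Real.sqrt t * Real.sqrt t) * L * Real.sqrt Real.pi := by
            rw [h8]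
        _ = _ := by ring
    calc _ = Real.exp (-t) * ((L ^ 2 / Real.pi) - 2 * (L / Real.sqrt Real.pi * Real.sqrt t)) / 4 := by
          field_simp
          ring
      _ = Real.exp (-t) * (t * (L / (Real.sqrt Real.pi * Real.sqrt t)) ^ 2 -
            2 * (t * (L / (Real.sqrt Real.pi * Real.sqrt t)))) / 4 := by rw [e7, e8]
      _ = _ := by ring
  rw [e6]
  exact mul_le_mul_of_nonneg_left hkey (by positivity)

end Pool.SqDrum
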