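import Mathlib
import Pool.Agent.Lib.MP_2805c2_an.SQ.Iface

set_option autoImplicit false

namespace Pool.SqDrum

open MeasureTheory Set Filter Topology
open scoped ENNReal ContDiff InnerProductSpace

theorem tht_congr {ι : Type} {f g : ι → ℝ} {a b : ℝ} (hf : HasSum g b) (h : ∀ i, f i = g i)
    (e : a = b) : HasSum f a := by
  rw [funext h, e]; exact hf

theorem tht_summ {c : ℝ} (hc : 0 < c) :
    Summable (fun n : ℤ => Real.exp (-(c * (n : ℝ) ^ 2))) := by
  have h1 : Summable (fun n : ℤ => 1 / c * (1 / (n : ℝ) ^ 2)) :=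
    (Real.summable_one_div_int_pow.2 (by norm_num)).mul_left _
  have h2 : Summable (fun n : ℤ => if n = 0 then (1 : ℝ) else 0) :=
    summable_of_ne_finset_zero (s := {0}) (by intro b hb; simp at hb; simp [hb])
  refine Summable.of_nonneg_of_le (fun n => (Real.exp_pos _).le) (fun n => ?_) (h1.add h2)
  by_cases hn : n = 0
  · subst hn; simp
  · have hn2 : (0 : ℝ) < (n : ℝ) ^ 2 := by positivity
    have h3 : 0 < c * (n : ℝ) ^ 2 := mul_pos hc hn2
    rw [if_neg hn, add_zero, Real.exp_neg, ← one_div, one_div_mul_one_div]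
    apply one_div_le_one_div_of_le h3
    have := Real.add_one_le_exp (c * (n : ℝ) ^ 2)
    linarith

theorem tht_zeta : HasSum (fun n : ℤ => 1 / (n : ℝ) ^ 2) (Real.pi ^ 2 / 3) := by
  have h := hasSum_zeta_two
  have h2 : HasSum (fun n : ℤ => 1 / (n : ℝ) ^ 2)
      (Real.pi ^ 2 / 6 + Real.pi ^ 2 / 6 - 1 / ((0 : ℤ) : ℝ) ^ 2) := by
    refine HasSum.of_nat_of_neg (f := fun n : ℤ => 1 / (n : ℝ) ^ 2) ?_ ?_
    · simpa using h
    · simpa using h
  have e : Real.pi ^ 2 / 6 + Real.pi ^ 2 / 6 - 1 / ((0 : ℤ) : ℝ) ^ 2 = Real.pi ^ 2 / 3 := by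
    simp; ring
  rwa [e] at h2

theorem tht_bd {c : ℝ} (hc : 0 < c) :
    ∑' n : ℤ, Real.exp (-(c * (n : ℝ) ^ 2)) ≤ 1 + Real.pi ^ 2 / 3 / c := by
  have h1 : HasSum (fun n : ℤ => 1 / c * (1 / (n : ℝ) ^ 2)) (1 / c * (Real.pi ^ 2 / 3)) :=
    tht_zeta.mul_left _
  have h2 : HasSum (fun n : ℤ => if n = 0 then (1 : ℝ) else 0) 1 := hasSum_ite_eq 0 1
  have h3 := h2.add h1
  have e : 1 + 1 / c * (Real.pi ^ 2 / 3) = 1 + Real.pi ^ 2 / 3 / c := by ring
  rw [← e, ← h3.tsum_eq]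
  refine (tht_summ hc).tsum_le_tsum (fun n => ?_) h3.summable
  by_cases hn : n = 0
  · subst hn; simp
  · have hn2 : (0 : ℝ) < (n : ℝ) ^ 2 := by positivity
    have h3 : 0 < c * (n : ℝ) ^ 2 := mul_pos hc hn2
    rw [if_neg hn, zero_add, Real.exp_neg, ← one_div, one_div_mul_one_div]
    apply one_div_le_one_div_of_le h3
    have := Real.add_one_le_exp (c * (n : ℝ) ^ 2)
    linarith

theorem tht_poisson {a : ℝ} (ha : 0 < a) (u : ℝ) :
    ∑' n : ℤ, Real.exp (-(Real.pi * a * (n : ℝ) ^ 2)) * Real.cos (2 * Real.pi * u * n) =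
      1 / a ^ (1 / 2 : ℝ) * ∑' n : ℤ, Real.exp (-(Real.pi / a * ((n : ℝ) - u) ^ 2)) := by
  have h := Complex.tsum_exp_neg_quadratic (a := (a : ℂ)) (by simpa using ha) (Complex.I * u)
  have hs : Summable (fun n : ℤ => Complex.exp (-Real.pi * (a : ℂ) * n ^ 2 +
      2 * Real.pi * (Complex.I * u) * n)) := by
    refine Summable.of_norm ?_
    refine (tht_summ (c := Real.pi * a) (by positivity)).congr fun n => ?_
    rw [Complex.norm_exp]
    congr 1
    have : (-Real.pi * (a : ℂ) * n ^ 2 + 2 * Real.pi * (Complex.I * u) * n) =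
      ((-(Real.pi * a * (n : ℝ) ^ 2) : ℝ) : ℂ) + ((2 * Real.pi * u * n : ℝ) : ℂ) * Complex.I := by
      push_cast; ring
    rw [this, Complex.add_re, Complex.ofReal_re, Complex.re_ofReal_mul, Complex.I_re, mul_zero,
      add_zero]
  have hre := Complex.hasSum_re hs.hasSum
  have e1 : (fun n : ℤ => (Complex.exp (-Real.pi * (a : ℂ) * n ^ 2 +
      2 * Real.pi * (Complex.I * u) * n)).re) =
      fun n : ℤ => Real.exp (-(Real.pi * a * (n : ℝ) ^ 2)) * Real.cos (2 * Real.pi * u * n) := by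
    funext n
    have : (-Real.pi * (a : ℂ) * n ^ 2 + 2 * Real.pi * (Complex.I * u) * n) =
      ((-(Real.pi * a * (n : ℝ) ^ 2) : ℝ) : ℂ) + ((2 * Real.pi * u * n : ℝ) : ℂ) * Complex.I := by
      push_cast; ring
    have h1 : (((-(Real.pi * a * (n : ℝ) ^ 2) : ℝ) : ℂ) +
        ((2 * Real.pi * u * n : ℝ) : ℂ) * Complex.I).re = -(Real.pi * a * (n : ℝ) ^ 2) := by
      rw [Complex.add_re, Complex.ofReal_re, Complex.re_ofReal_mul, Complex.I_re, mul_zero,
        add_zero]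
    have h2 : (((-(Real.pi * a * (n : ℝ) ^ 2) : ℝ) : ℂ) +
        ((2 * Real.pi * u * n : ℝ) : ℂ) * Complex.I).im = 2 * Real.pi * u * n := by
      rw [Complex.add_im, Complex.ofReal_im, Complex.im_ofReal_mul, Complex.I_im, mul_one,
        zero_add]
    rw [this, Complex.exp_re, h1, h2]
  rw [e1] at hre
  rw [hre.tsum_eq, h]
  have e2 : (∑' n : ℤ, Complex.exp (-Real.pi / (a : ℂ) * (n + Complex.I * (Complex.I * u)) ^ 2)) =
      ((∑' n : ℤ, Real.exp (-(Real.pi / a * ((n : ℝ) - u) ^ 2)) : ℝ) : ℂ) := by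
    rw [Complex.ofReal_tsum]
    refine tsum_congr fun n => ?_
    rw [Complex.ofReal_exp]
    congr 1
    have : Complex.I * (Complex.I * u) = -(u : ℂ) := by
      rw [← mul_assoc, Complex.I_mul_I]; ring
    rw [this]
    push_cast
    ring
  rw [e2]
  have e3 : (1 / (a : ℂ) ^ (1 / 2 : ℂ)) = ((1 / a ^ (1 / 2 : ℝ) : ℝ) : ℂ) := by
    rw [Complex.ofReal_div, Complex.ofReal_one, Complex.ofReal_cpow ha.le]
    norm_num
  rw [e3, Complex.re_ofReal_mul, Complex.ofReal_re]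

theorem tht : ThtStatement := by
  intro M t x hM ht
  have hpi := Real.pi_pos
  set a : ℝ := Real.pi * t / M ^ 2 with ha
  have ha0 : 0 < a := by positivity
  have e0 : ∀ m : ℝ, Real.pi ^ 2 * m ^ 2 * t / M ^ 2 = Real.pi * a * m ^ 2 := by
    intro m; rw [ha]; ring
  -- the full sum over the integers
  have hS1 := tht_summ (c := Real.pi * a) (by positivity)
  have hS2 : Summable (fun n : ℤ => Real.exp (-(Real.pi * a * (n : ℝ) ^ 2)) *
      Real.cos (2 * Real.pi * (x / M) * n)) := by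
    refine Summable.of_norm_bounded hS1 fun n => ?_
    rw [norm_mul, Real.norm_eq_abs, Real.norm_eq_abs, abs_of_pos (Real.exp_pos _)]
    exact mul_le_of_le_one_right (Real.exp_pos _).le (Real.abs_cos_le_one _)
  have hsin : ∀ r : ℝ, Real.sin (r * Real.pi * x / M) ^ 2 =
      (1 - Real.cos (2 * Real.pi * (x / M) * r)) / 2 := by
    intro r
    have : 2 * Real.pi * (x / M) * r = 2 * (r * Real.pi * x / M) := by ring
    rw [this, Real.cos_two_mul, Real.cos_sq']
    ring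
  have hS3 : HasSum (fun n : ℤ => Real.exp (-(Real.pi * a * (n : ℝ) ^ 2)) *
      Real.sin (n * Real.pi * x / M) ^ 2)
      ((∑' n : ℤ, Real.exp (-(Real.pi * a * (n : ℝ) ^ 2)) -
        ∑' n : ℤ, Real.exp (-(Real.pi * a * (n : ℝ) ^ 2)) *
          Real.cos (2 * Real.pi * (x / M) * n)) / 2) := by
    have h := (hS1.hasSum.sub hS2.hasSum).div_const 2
    refine tht_congr h (fun n => ?_) rfl
    rw [hsin]; ring
  -- the sum over the natural numbers
  have hS4 : Summable (fun m : ℕ => Real.exp (-(Real.pi ^ 2 * (m : ℝ) ^ 2 * t / M ^ 2)) *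
      Real.sin (m * Real.pi * x / M) ^ 2) := by
    have := hS3.summable.comp_injective Nat.cast_injective
    refine this.congr fun m => ?_
    simp only [Function.comp_apply, Int.cast_natCast]
    rw [e0]
  refine ⟨hS4, ?_⟩
  have hS5 : HasSum (fun n : ℤ => Real.exp (-(Real.pi * a * (n : ℝ) ^ 2)) *
      Real.sin (n * Real.pi * x / M) ^ 2)
      (2 * ∑' m : ℕ, Real.exp (-(Real.pi ^ 2 * (m : ℝ) ^ 2 * t / M ^ 2)) *
        Real.sin (m * Real.pi * x / M) ^ 2) := by
    have hA : HasSum (fun n : ℕ => Real.exp (-(Real.pi * a * (((n : ℤ) : ℝ)) ^ 2)) *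
      Real.sin (((n : ℤ) : ℝ) * Real.pi * x / M) ^ 2)
      (∑' m : ℕ, Real.exp (-(Real.pi ^ 2 * (m : ℝ) ^ 2 * t / M ^ 2)) *
        Real.sin (m * Real.pi * x / M) ^ 2) := by
      refine tht_congr hS4.hasSum (fun n => ?_) rfl
      rw [e0]; simp
    have hB : HasSum (fun n : ℕ => Real.exp (-(Real.pi * a * (((-(n : ℤ) : ℤ) : ℝ)) ^ 2)) *
      Real.sin (((-(n : ℤ) : ℤ) : ℝ) * Real.pi * x / M) ^ 2)
      (∑' m : ℕ, Real.exp (-(Real.pi ^ 2 * (m : ℝ) ^ 2 * t / M ^ 2)) *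
        Real.sin (m * Real.pi * x / M) ^ 2) := by
      refine tht_congr hS4.hasSum (fun n => ?_) rfl
      rw [e0]
      push_cast
      rw [neg_mul, neg_mul, neg_div, Real.sin_neg]
      ring_nf
    have h := HasSum.of_nat_of_neg (f := fun n : ℤ => Real.exp (-(Real.pi * a * (n : ℝ) ^ 2)) *
      Real.sin (n * Real.pi * x / M) ^ 2) hA hB
    simp only [Int.cast_zero, zero_mul, zero_div, Real.sin_zero] at h
    refine tht_congr h (fun n => rfl) ?_
    ring
  have hu := hS5.unique hS3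
  have hp1 := tht_poisson ha0 (x / M)
  have hp0 := tht_poisson ha0 0
  simp only [mul_zero, zero_mul, Real.cos_zero, mul_one, sub_zero] at hp0
  rw [hp0, hp1, ← mul_sub] at hu
  have hpa : Real.pi / a = M ^ 2 / t := by
    rw [ha]; field_simp
  rw [hpa] at hu
  have hrp : a ^ (1 / 2 : ℝ) = Real.sqrt (Real.pi * t) / M := by
    rw [← Real.sqrt_eq_rpow, ha, Real.sqrt_div' _ (by positivity), Real.sqrt_sq hM.le]
  rw [hrp] at hu
  have hb1 := tht_bd (c := M ^ 2 / t) (by positivity)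
  have hb2 : Real.exp (-(x ^ 2 / t)) ≤
      ∑' n : ℤ, Real.exp (-(M ^ 2 / t * ((n : ℝ) - x / M) ^ 2)) := by
    have hsum : Summable (fun n : ℤ => Real.exp (-(M ^ 2 / t * ((n : ℝ) - x / M) ^ 2))) := by
      have h2 : Summable (fun n : ℤ => Real.exp ((x / M) ^ 2 * (M ^ 2 / t)) *
          Real.exp (-((M ^ 2 / t) / 2 * (n : ℝ) ^ 2))) :=
        (tht_summ (c := M ^ 2 / t / 2) (by positivity)).mul_left _
      refine Summable.of_nonneg_of_le (fun n => (Real.exp_pos _).le) (fun n => ?_) h2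
      rw [← Real.exp_add]
      apply Real.exp_le_exp.2
      have hc : 0 < M ^ 2 / t := by positivity
      nlinarith [mul_nonneg hc.le (sq_nonneg ((n : ℝ) - 2 * (x / M)))]
    have := hsum.le_tsum 0 (fun n _ => (Real.exp_pos _).le)
    refine le_trans (le_of_eq ?_) this
    congr 1
    push_cast
    field_simp
    ring
  have hsq : Real.sqrt (4 * Real.pi * t) = 2 * Real.sqrt (Real.pi * t) := by
    rw [show 4 * Real.pi * t = 2 ^ 2 * (Real.pi * t) by ring, Real.sqrt_mul (by norm_num),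
      Real.sqrt_sq (by norm_num)]
  rw [hsq]
  have hq : 0 < Real.sqrt (Real.pi * t) := Real.sqrt_pos.2 (by positivity)
  set S := ∑' m : ℕ, Real.exp (-(Real.pi ^ 2 * (m : ℝ) ^ 2 * t / M ^ 2)) *
        Real.sin (m * Real.pi * x / M) ^ 2 with hS
  have e4 : (2 / M) * S = (∑' n : ℤ, Real.exp (-(M ^ 2 / t * (n : ℝ) ^ 2)) -
      ∑' n : ℤ, Real.exp (-(M ^ 2 / t * ((n : ℝ) - x / M) ^ 2))) / (2 * Real.sqrt (Real.pi * t)) := by
    have : S = (2 * S) / 2 := by ring
    rw [this, hu]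
    field_simp
  rw [e4]
  apply div_le_div_of_nonneg_right _ (by positivity)
  have e5 : Real.pi ^ 2 / 3 * t / M ^ 2 = Real.pi ^ 2 / 3 / (M ^ 2 / t) := by
    field_simp
  rw [e5]
  linarith

end Pool.SqDrum
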