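import Mathlib
import Pool.Agent.Lib.MP_2805c2_an.SQ.Iface

set_option autoImplicit false

namespace Pool.SqDrum

open MeasureTheory Set Filter Topology

theorem tlb_Wm_one_zero (i k : ℕ × ℕ) : Wm 1 0 i k = Pm i k := by
  simp [Wm]

theorem tlb_Pm_mul_swap (i k : ℕ × ℕ) : Pm i k * Pm i.swap k.swap = 0 := by
  by_cases h1 : (k.1 + i.1) % 2 = 0 ∧ (k.2 + i.2) % 2 = 1
  · have h2 : ¬ ((k.swap.1 + i.swap.1) % 2 = 0 ∧ (k.swap.2 + i.swap.2) % 2 = 1) := by
      rintro ⟨h3, -⟩
      simp only [Prod.fst_swap] at h3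
      omega
    have : Pm i.swap k.swap = 0 := by
      unfold Pm
      rw [if_neg h2]
    rw [this, mul_zero]
  · have : Pm i k = 0 := by
      unfold Pm
      rw [if_neg h1]
    rw [this, zero_mul]

theorem tlb_Wm_sq (i k : ℕ × ℕ) : Wm 1 1 i k ^ 2 = Pm i k ^ 2 + Pm i.swap k.swap ^ 2 := by
  have h := tlb_Pm_mul_swap i k
  unfold Wm
  linear_combination 2 * h

theorem tlb_hasSum_Wm (h : NrgStatement) (i : ℕ × ℕ) (h1 : 0 < i.1) (h2 : 0 < i.2) :
    HasSum (fun k : ℕ × ℕ => Wm 1 1 i k ^ 2) (G2 i.1 i.2 + G2 i.2 i.1) := by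
  have e1 := h i h1 h2
  have e2 := h i.swap h2 h1
  have e3 := (Equiv.prodComm ℕ ℕ).hasSum_iff.2 e2
  have e4 := e1.add e3
  have e5 : (fun k : ℕ × ℕ => Wm 1 1 i k ^ 2) =
      fun k : ℕ × ℕ => Pm i k ^ 2 + ((fun k => Pm i.swap k ^ 2) ∘ (Equiv.prodComm ℕ ℕ)) k :=
    funext fun k => tlb_Wm_sq i k
  rw [e5]
  exact e4

/-- cutting a finite part off a series -/
theorem tlb_cut {ι : Type} [DecidableEq ι] {f : ι → ℝ} {a : ℝ} (h : HasSum f a) (S : Finset ι) :
    HasSum (fun k => if k ∈ S then 0 else f k) (a - ∑ k ∈ S, f k) := by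
  have e : HasSum (fun k => if k ∈ S then f k else 0) (∑ k ∈ S, f k) := by
    have h0 : HasSum (fun k => if k ∈ S then f k else 0)
        (∑ k ∈ S, (fun k => if k ∈ S then f k else 0) k) :=
      hasSum_sum_of_ne_finset_zero (fun b hb => by simp [hb])
    rwa [Finset.sum_congr rfl (fun x hx => by simp [hx] : ∀ x ∈ S,
      (fun k => if k ∈ S then f k else 0) x = f x)] at h0
  have e2 := h.sub e
  have e3 : (fun k => f k - if k ∈ S then f k else 0) = fun k => if k ∈ S then 0 else f k := by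
    funext k
    by_cases hk : k ∈ S <;> simp [hk]
  rwa [e3] at e2

theorem tlb (hN : NrgStatement) : TlbStatement := by
  classical
  refine ⟨?_, ?_⟩
  · intro m n S e hm hn he hS
    have e1 := tlb_cut (hN (m, n) hm hn) S
    simp only at e1
    set A : ℝ := G2 m n - ∑ k ∈ S, Pm (m, n) k ^ 2 with hA
    -- the tail
    have hg0 : ∀ k, 0 ≤ (if k ∈ S then 0 else Pm (m, n) k ^ 2 / En (m, n) k) ∧
        (if k ∈ S then 0 else Pm (m, n) k ^ 2 / En (m, n) k) ≤
          (if k ∈ S then 0 else Pm (m, n) k ^ 2) * e⁻¹ := by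
      intro k
      by_cases hk : k ∈ S
      · simp [hk]
      · simp only [hk, if_false]
        by_cases hP : Pm (m, n) k = 0
        · simp [hP]
        · have h3 := hS k hk hP
          have h4 : 0 < En (m, n) k := lt_of_lt_of_le he h3
          refine ⟨by positivity, ?_⟩
          rw [div_eq_mul_inv]
          exact mul_le_mul_of_nonneg_left (inv_anti₀ he h3) (sq_nonneg _)
    have e2 := e1.mul_right e⁻¹
    have hsum : Summable (fun k => if k ∈ S then 0 else Pm (m, n) k ^ 2 / En (m, n) k) :=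
      Summable.of_nonneg_of_le (fun k => (hg0 k).1) (fun k => (hg0 k).2) e2.summable
    obtain ⟨t, ht⟩ := hsum
    have ht0 : 0 ≤ t := ht.nonneg fun k => (hg0 k).1
    have ht1 : t ≤ A * e⁻¹ := hasSum_le (fun k => (hg0 k).2) ht e2
    have hfull : HasSum (fun k => Pm (m, n) k ^ 2 / En (m, n) k)
        (∑ k ∈ S, Pm (m, n) k ^ 2 / En (m, n) k + t) := by
      have h0 : HasSum (fun k => if k ∈ S then Pm (m, n) k ^ 2 / En (m, n) k else 0)
          (∑ k ∈ S, (fun k => if k ∈ S then Pm (m, n) k ^ 2 / En (m, n) k else 0) k) :=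
        hasSum_sum_of_ne_finset_zero (fun b hb => by simp [hb])
      rw [Finset.sum_congr rfl (fun x hx => by simp [hx] : ∀ x ∈ S,
        (fun k => if k ∈ S then Pm (m, n) k ^ 2 / En (m, n) k else 0) x =
          Pm (m, n) x ^ 2 / En (m, n) x)] at h0
      have h1 := h0.add ht
      have h2 : (fun k => (if k ∈ S then Pm (m, n) k ^ 2 / En (m, n) k else 0) +
          if k ∈ S then 0 else Pm (m, n) k ^ 2 / En (m, n) k) =
          fun k => Pm (m, n) k ^ 2 / En (m, n) k := by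
        funext k
        by_cases hk : k ∈ S <;> simp [hk]
      rwa [h2] at h1
    have hSS : SS 1 0 (m, n) (m, n) = ∑ k ∈ S, Pm (m, n) k ^ 2 / En (m, n) k + t := by
      unfold SS
      rw [← hfull.tsum_eq]
      refine tsum_congr fun k => ?_
      rw [tlb_Wm_one_zero, sq]
    rw [hSS]
    have h5 : A / (2 * e) = A * e⁻¹ / 2 := by field_simp
    rw [h5, abs_le]
    constructor <;> linarith
  · intro m n S e hm hn hmn he hS
    have e1 := tlb_cut (tlb_hasSum_Wm hN (m, n) hm hn) S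
    have e1' := tlb_cut (tlb_hasSum_Wm hN (n, m) hn hm) S
    simp only at e1 e1'
    have e2 := ((e1.add e1').mul_right (1 / 2)).mul_right e⁻¹
    have hle : ∀ k, ‖(if k ∈ S then (0 : ℝ) else
        Wm 1 1 (m, n) k * Wm 1 1 (n, m) k / En (m, n) k)‖ ≤
        ((if k ∈ S then 0 else Wm 1 1 (m, n) k ^ 2) +
          (if k ∈ S then 0 else Wm 1 1 (n, m) k ^ 2)) * (1 / 2) * e⁻¹ := by
      intro k
      by_cases hk : k ∈ S
      · simp [hk]
      · simp only [hk, if_false]
        by_cases hP : Wm 1 1 (m, n) k = 0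
        · rw [hP]; simp; positivity
        by_cases hP' : Wm 1 1 (n, m) k = 0
        · rw [hP']; simp; positivity
        have h3 := hS k hk hP hP'
        have h4 : 0 < En (m, n) k := lt_of_lt_of_le he h3
        rw [Real.norm_eq_abs, abs_div, abs_of_pos h4, div_eq_mul_inv]
        refine mul_le_mul ?_ (inv_anti₀ he h3) (by positivity) (by positivity)
        rw [abs_mul]
        nlinarith [sq_nonneg (|Wm 1 1 (m, n) k| - |Wm 1 1 (n, m) k|), sq_abs (Wm 1 1 (m, n) k),
          sq_abs (Wm 1 1 (n, m) k)]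
    have hsum : Summable (fun k => if k ∈ S then (0 : ℝ) else
        Wm 1 1 (m, n) k * Wm 1 1 (n, m) k / En (m, n) k) :=
      Summable.of_norm_bounded e2.summable hle
    obtain ⟨t, ht⟩ := hsum
    have ht1 : |t| ≤ (G2 m n + G2 n m - ∑ k ∈ S, Wm 1 1 (m, n) k ^ 2 +
        (G2 n m + G2 m n - ∑ k ∈ S, Wm 1 1 (n, m) k ^ 2)) * (1 / 2) * e⁻¹ := by
      rw [← Real.norm_eq_abs, ← ht.tsum_eq]
      exact tsum_of_norm_bounded e2 hle
    have hfull : HasSum (fun k => Wm 1 1 (m, n) k * Wm 1 1 (n, m) k / En (m, n) k)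
        (∑ k ∈ S, Wm 1 1 (m, n) k * Wm 1 1 (n, m) k / En (m, n) k + t) := by
      have h0 : HasSum (fun k => if k ∈ S then
          Wm 1 1 (m, n) k * Wm 1 1 (n, m) k / En (m, n) k else 0)
          (∑ k ∈ S, (fun k => if k ∈ S then
            Wm 1 1 (m, n) k * Wm 1 1 (n, m) k / En (m, n) k else 0) k) :=
        hasSum_sum_of_ne_finset_zero (fun b hb => by simp [hb])
      rw [Finset.sum_congr rfl (fun x hx => by simp [hx] : ∀ x ∈ S,
        (fun k => if k ∈ S then Wm 1 1 (m, n) k * Wm 1 1 (n, m) k / En (m, n) k else 0) x =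
          Wm 1 1 (m, n) x * Wm 1 1 (n, m) x / En (m, n) x)] at h0
      have h1 := h0.add ht
      have h2 : (fun k => (if k ∈ S then
          Wm 1 1 (m, n) k * Wm 1 1 (n, m) k / En (m, n) k else 0) +
          if k ∈ S then 0 else Wm 1 1 (m, n) k * Wm 1 1 (n, m) k / En (m, n) k) =
          fun k => Wm 1 1 (m, n) k * Wm 1 1 (n, m) k / En (m, n) k := by
        funext k
        by_cases hk : k ∈ S <;> simp [hk]
      rwa [h2] at h1
    have hSS : SS 1 1 (m, n) (n, m) =
        ∑ k ∈ S, Wm 1 1 (m, n) k * Wm 1 1 (n, m) k / En (m, n) k + t := by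
      unfold SS
      exact hfull.tsum_eq
    rw [hSS]
    have h6 : (∑ k ∈ S, (Wm 1 1 (m, n) k ^ 2 + Wm 1 1 (n, m) k ^ 2) / 2) =
        (∑ k ∈ S, Wm 1 1 (m, n) k ^ 2 + ∑ k ∈ S, Wm 1 1 (n, m) k ^ 2) / 2 := by
      rw [← Finset.sum_div, Finset.sum_add_distrib]
    rw [h6, add_sub_cancel_left]
    refine ht1.trans (le_of_eq ?_)
    field_simp
    ring

end Pool.SqDrum
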