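import Mathlib
import Pool.Agent.Lib.MP_2805c2_an.SQ.Iface
import Pool.Agent.Lib.MP_2805c2_an.SQ.Tfi

set_option autoImplicit false

namespace Pool.SqDrum

open MeasureTheory Set Filter Topology
open scoped ENNReal ContDiff InnerProductSpace

/-! ### abstract part -/

section abs

set_option linter.unusedSectionVars false

variable {E F : Type} [NormedAddCommGroup E] [NormedSpace ℝ E] [CompleteSpace E]
  [NormedAddCommGroup F] [NormedSpace ℝ F] [CompleteSpace F]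

theorem trf_extend (P : Submodule ℝ (E × F)) (hP : IsClosed (P : Set (E × F))) (K : ℝ)
    (hK : ∀ x ∈ P, ‖x.2‖ ≤ K * ‖x.1‖) (f : E)
    (hf : ∃ u : ℕ → E × F, (∀ n, u n ∈ P) ∧ Tendsto (fun n => (u n).1) atTop (𝓝 f)) :
    ∃ g, (f, g) ∈ P := by
  obtain ⟨u, hu, hlim⟩ := hf
  have hc : CauchySeq (fun n => (u n).1) := hlim.cauchySeq
  have hc2 : CauchySeq (fun n => (u n).2) := by
    rw [Metric.cauchySeq_iff] at hc ⊢
    intro ε hε
    obtain ⟨N, hN⟩ := hc (ε / (|K| + 1)) (by positivity)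
    refine ⟨N, fun m hm n hn => ?_⟩
    have h1 := hK _ (P.sub_mem (hu m) (hu n))
    have h2 := hN m hm n hn
    rw [dist_eq_norm] at h2 ⊢
    have h3 : ‖(u m).2 - (u n).2‖ ≤ K * ‖(u m).1 - (u n).1‖ := h1
    have h4 : K * ‖(u m).1 - (u n).1‖ ≤ (|K| + 1) * ‖(u m).1 - (u n).1‖ :=
      mul_le_mul_of_nonneg_right ((le_abs_self K).trans (by linarith)) (norm_nonneg _)
    have h5 : (|K| + 1) * ‖(u m).1 - (u n).1‖ < ε := by
      have : (0 : ℝ) < |K| + 1 := by positivity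
      rw [lt_div_iff₀ this] at h2
      linarith
    linarith
  obtain ⟨g, hg⟩ := cauchySeq_tendsto_of_complete hc2
  exact ⟨g, hP.mem_of_tendsto (hlim.prodMk_nhds hg) (Eventually.of_forall hu)⟩

theorem trf_unique (P : Submodule ℝ (E × F)) (K : ℝ)
    (hK : ∀ x ∈ P, ‖x.2‖ ≤ K * ‖x.1‖) (x : E × F) (hx : x ∈ P) (h : x.1 = 0) : x = 0 := by
  have := hK x hx
  rw [h, norm_zero, mul_zero] at this
  have h2 : x.2 = 0 := norm_le_zero_iff.1 this
  exact Prod.ext h h2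

/-- a closed subspace of the product, bounded both ways and with dense projections, is the graph
of a linear equivalence -/
theorem trf_equiv (P : Submodule ℝ (E × F)) (hP : IsClosed (P : Set (E × F))) (K K' : ℝ)
    (hK : ∀ x ∈ P, ‖x.2‖ ≤ K * ‖x.1‖) (hK' : ∀ x ∈ P, ‖x.1‖ ≤ K' * ‖x.2‖)
    (h1 : ∀ f : E, ∃ u : ℕ → E × F, (∀ n, u n ∈ P) ∧ Tendsto (fun n => (u n).1) atTop (𝓝 f))
    (h2 : ∀ g : F, ∃ u : ℕ → E × F, (∀ n, u n ∈ P) ∧ Tendsto (fun n => (u n).2) atTop (𝓝 g)) :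
    ∃ e : E ≃ₗ[ℝ] F, ∀ f, (f, e f) ∈ P := by
  have b1 : Function.Bijective ((LinearMap.fst ℝ E F).domRestrict P) := by
    constructor
    · rw [← LinearMap.ker_eq_bot, LinearMap.ker_eq_bot']
      intro x hx
      exact Subtype.ext (trf_unique P K hK x.1 x.2 hx)
    · intro f
      obtain ⟨g, hg⟩ := trf_extend P hP K hK f (h1 f)
      exact ⟨⟨(f, g), hg⟩, rfl⟩
  have b2 : Function.Bijective ((LinearMap.snd ℝ E F).domRestrict P) := by
    constructor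
    · rw [← LinearMap.ker_eq_bot, LinearMap.ker_eq_bot']
      intro x hx
      have hx' : x.1.2 = 0 := hx
      have := hK' x.1 x.2
      rw [hx', norm_zero, mul_zero] at this
      have h2 : x.1.1 = 0 := norm_le_zero_iff.1 this
      exact Subtype.ext (Prod.ext h2 hx')
    · intro g
      obtain ⟨u, hu, hlim⟩ := h2 g
      let Q : Submodule ℝ (F × E) := P.comap (LinearEquiv.prodComm ℝ F E).toLinearMap
      have hQ : IsClosed (Q : Set (F × E)) := hP.preimage continuous_swap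
      obtain ⟨f, hf⟩ := trf_extend Q hQ K' (fun x hx => hK' x.swap hx) g
        ⟨fun n => (u n).swap, fun n => by
          show (LinearEquiv.prodComm ℝ F E) (u n).swap ∈ P
          simpa using hu n, hlim⟩
      exact ⟨⟨(f, g), hf⟩, rfl⟩
  let e1 := LinearEquiv.ofBijective _ b1
  let e2 := LinearEquiv.ofBijective _ b2
  refine ⟨e1.symm.trans e2, fun f => ?_⟩
  have h3 : e1 (e1.symm f) = f := e1.apply_symm_apply f
  have h4 : (e1.symm f).1.1 = f := h3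
  have h5 : (e1.symm.trans e2) f = (e1.symm f).1.2 := rfl
  rw [h5]
  have : (f, (e1.symm f).1.2) = (e1.symm f).1 := Prod.ext h4.symm rfl
  rw [this]
  exact (e1.symm f).2

end abs

/-! ### coercivity -/

theorem trf_cl (f : L2) : cl (f : P2 → ℝ) = f := Lp.ext (cl_coe (Lp.memLp f))

theorem trf_alg {p q : P2} {c C ξ η ζ : ℝ} (hc : 0 < c) (hC : 0 < C)
    (h1 : |p.1| ≤ C) (h2 : |p.2| ≤ C) (h3 : |q.1| ≤ C) (h4 : |q.2| ≤ C)
    (hJ : c ≤ |det2 p q|) :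
    min (c / (4 * C ^ 2)) c * (ζ * ζ + ξ * ξ + η * η) ≤
      dot2 q q / |det2 p q| * (ξ * ξ) + -dot2 p q / |det2 p q| * (η * ξ) +
      -dot2 p q / |det2 p q| * (ξ * η) + dot2 p p / |det2 p q| * (η * η) +
      |det2 p q| * (ζ * ζ) := by
  set J := |det2 p q| with hJd
  have hJ0 : 0 < J := hc.trans_le hJ
  have hJ2 : J ^ 2 = det2 p q ^ 2 := sq_abs _
  have a : ∀ s : ℝ, |s| ≤ C → s ^ 2 ≤ C ^ 2 := fun s hs => by
    rw [← sq_abs s]; exact pow_le_pow_left₀ (abs_nonneg _) hs 2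
  have s1 := a _ h1
  have s2 := a _ h2
  have s3 := a _ h3
  have s4 := a _ h4
  -- the square of the vector `ξ q - η p`
  set V : ℝ := dot2 q q * (ξ * ξ) - 2 * dot2 p q * (ξ * η) + dot2 p p * (η * η) with hV
  have hV0 : V = (ξ * q.1 - η * p.1) ^ 2 + (ξ * q.2 - η * p.2) ^ 2 := by
    rw [hV]; unfold dot2; ring
  have hVn : 0 ≤ V := by rw [hV0]; positivity
  have e1 : (ξ ^ 2 + η ^ 2) * J ^ 2 ≤ (4 * C ^ 2) * V := by
    have e2 : (dot2 p p + dot2 q q) * V - (ξ ^ 2 + η ^ 2) * J ^ 2 =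
        (p.1 * (ξ * q.1 - η * p.1) + p.2 * (ξ * q.2 - η * p.2)) ^ 2 +
        (q.1 * (ξ * q.1 - η * p.1) + q.2 * (ξ * q.2 - η * p.2)) ^ 2 := by
      rw [hV0, hJ2]; unfold dot2 det2; ring
    have e3 : dot2 p p + dot2 q q ≤ 4 * C ^ 2 := by unfold dot2; nlinarith
    have e4 : (dot2 p p + dot2 q q) * V ≤ (4 * C ^ 2) * V := mul_le_mul_of_nonneg_right e3 hVn
    have e5 : 0 ≤ (dot2 p p + dot2 q q) * V - (ξ ^ 2 + η ^ 2) * J ^ 2 := by
      rw [e2]; positivity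
    linarith
  have e6 : c / (4 * C ^ 2) * (ξ * ξ + η * η) ≤ V / J := by
    rw [le_div_iff₀ hJ0, div_mul_eq_mul_div, div_mul_eq_mul_div, div_le_iff₀ (by positivity)]
    have h0 : 0 ≤ ξ * ξ + η * η := add_nonneg (mul_self_nonneg _) (mul_self_nonneg _)
    have : c * (ξ * ξ + η * η) * J ≤ J * (ξ * ξ + η * η) * J := by
      have : 0 ≤ (ξ * ξ + η * η) * J := mul_nonneg h0 hJ0.le
      nlinarith
    nlinarith
  have e7 : dot2 q q / J * (ξ * ξ) + -dot2 p q / J * (η * ξ) +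
      -dot2 p q / J * (ξ * η) + dot2 p p / J * (η * η) = V / J := by
    rw [hV]; ring
  have e8 : min (c / (4 * C ^ 2)) c * (ξ * ξ + η * η) ≤ c / (4 * C ^ 2) * (ξ * ξ + η * η) :=
    mul_le_mul_of_nonneg_right (min_le_left _ _)
      (add_nonneg (mul_self_nonneg _) (mul_self_nonneg _))
  have e9 : min (c / (4 * C ^ 2)) c * (ζ * ζ) ≤ J * (ζ * ζ) :=
    mul_le_mul_of_nonneg_right ((min_le_right _ _).trans hJ) (mul_self_nonneg _)
  rw [e7]
  linarith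

theorem trf_ind {Ω : Set P2} (hΩ : MeasurableSet Ω) (f : L2) (hf : ind Ω f = f) :
    ⟪f, f⟫_ℝ = ∫ x in Ω, f x * f x := by
  have h := (tfi_form (m := 1) hΩ (memLp_indicator_one hΩ) (Lp.memLp f) (Lp.memLp f)).1
  rw [trf_cl] at h
  simp only [Pi.one_apply, one_mul] at h
  rw [← h]
  show _ = ⟪ind Ω f, f⟫_ℝ
  rw [hf]

theorem trf_sum3 {μ : Measure P2} {f1 f2 f3 : P2 → ℝ} (h1 : Integrable f1 μ)
    (h2 : Integrable f2 μ) (h3 : Integrable f3 μ) :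
    ∫ x, f1 x ∂μ + ∫ x, f2 x ∂μ + ∫ x, f3 x ∂μ =
      ∫ x, (f1 x + f2 x + f3 x) ∂μ := by
  rw [integral_add (f := fun x => f1 x + f2 x) (h1.add h2) h3, integral_add h1 h2]

theorem trf_sum5 {μ : Measure P2} {f1 f2 f3 f4 f5 : P2 → ℝ} (h1 : Integrable f1 μ)
    (h2 : Integrable f2 μ) (h3 : Integrable f3 μ) (h4 : Integrable f4 μ)
    (h5 : Integrable f5 μ) :
    ∫ x, f1 x ∂μ + ∫ x, f2 x ∂μ + ∫ x, f3 x ∂μ + ∫ x, f4 x ∂μ + ∫ x, f5 x ∂μ =
      ∫ x, (f1 x + f2 x + f3 x + f4 x + f5 x) ∂μ := by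
  rw [integral_add (f := fun x => f1 x + f2 x + f3 x + f4 x) (((h1.add h2).add h3).add h4) h5,
    tfi_sum4 h1 h2 h3 h4]

theorem trf_coer (hV : VanStatement) {Φ : P2 → P2} {Ω Ω' : Set P2} (hD : Diffeo Φ Ω Ω') :
    ∃ κ : ℝ, 0 < κ ∧ ∀ F : H Ω, κ * ‖F‖ ^ 2 ≤
      ⟪stf Ω (fun x => fderiv ℝ Φ x (1, 0)) (fun x => fderiv ℝ Φ x (0, 1)) F, F⟫_ℝ +
      ⟪mss Ω (fun x => fderiv ℝ Φ x (1, 0)) (fun x => fderiv ℝ Φ x (0, 1)) F, F⟫_ℝ := by
  obtain ⟨C, c, hC, hc, hb⟩ := tfi_bdd hD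
  obtain ⟨mj, m1, m2, m3⟩ := tfi_memLp hD
  have hΩ := hD.isOpen.measurableSet
  refine ⟨min (c / (4 * C ^ 2)) c, lt_min (by positivity) hc, fun F => ?_⟩
  have v := hV Ω hD.isOpen F F.2
  have n1 : ‖F‖ ^ 2 = ⟪(F : LL), (F : LL)⟫_ℝ := by
    rw [real_inner_self_eq_norm_sq]; rfl
  have L : ∀ i : Fin 3, MemLp ((F : LL) i : P2 → ℝ) 2 (volume : Measure P2) :=
    fun i => Lp.memLp _
  have hcl : ∀ i : Fin 3, cl ((F : LL) i : P2 → ℝ) = (F : LL) i := fun i => trf_cl _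
  obtain ⟨a1, b1⟩ := tfi_form hΩ m1 (L 1) (L 1)
  obtain ⟨a2, b2⟩ := tfi_form hΩ m2 (L 2) (L 1)
  obtain ⟨a3, b3⟩ := tfi_form hΩ m2 (L 1) (L 2)
  obtain ⟨a4, b4⟩ := tfi_form hΩ m3 (L 2) (L 2)
  obtain ⟨a5, b5⟩ := tfi_form hΩ mj (L 0) (L 0)
  have d : ∀ i : Fin 3, IntegrableOn (fun x => (F : LL) i x * (F : LL) i x) Ω := fun i => by
    have := (tfi_form (m := 1) hΩ (memLp_indicator_one hΩ) (L i) (L i)).2
    simpa only [Pi.one_apply, one_mul] using this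
  rw [hcl] at a1 a2 a3 a4 a5
  rw [hcl] at a2 a3
  rw [stf, mss, frm_inner, frm_inner]
  simp only [Set.indicator_zero', tfi_mul_zero,
      _root_.zero_apply, inner_zero_left, zero_add, add_zero]
  rw [a1, a2, a3, a4, a5, trf_sum5 b1 b2 b3 b4 b5, n1, LL_inner, trf_ind hΩ _ (v 0),
    trf_ind hΩ _ (v 1), trf_ind hΩ _ (v 2), trf_sum3 (d 0) (d 1) (d 2),
    ← integral_const_mul]
  refine setIntegral_mono_on ?_ ?_ hΩ fun x hx => ?_
  · exact (((d 0).add (d 1)).add (d 2)).const_mul _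
  · exact ((((b1.add b2).add b3).add b4).add b5)
  · obtain ⟨h1, h2, h3, h4, h5⟩ := hb x hx
    have := trf_alg (ξ := (F : LL) 1 x) (η := (F : LL) 2 x) (ζ := (F : LL) 0 x) hc hC
      h1 h2 h3 h4 h5
    simpa only [c11, c12, c22, jc, Pi.add_apply] using this

/-! ### the graph -/

/-- the pairs of jets of test functions -/
def trfP (Φ : P2 → P2) (Ω Ω' : Set P2) : Submodule ℝ (H Ω × H Ω') where
  carrier := {x | ∃ φ, Test Ω' φ ∧ Test Ω (Ω.indicator (φ ∘ Φ)) ∧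
    (x.1 : LL) = jet (Ω.indicator (φ ∘ Φ)) ∧ (x.2 : LL) = jet φ}
  add_mem' := by
    rintro x y ⟨φ, h1, h2, h3, h4⟩ ⟨ψ, k1, k2, k3, k4⟩
    have e : Ω.indicator ((φ + ψ) ∘ Φ) = Ω.indicator (φ ∘ Φ) + Ω.indicator (ψ ∘ Φ) := by
      funext z
      by_cases hz : z ∈ Ω <;> simp [hz]
    refine ⟨φ + ψ, h1.add k1, ?_, ?_, ?_⟩
    · rw [e]; exact h2.add k2
    · rw [e, jet_add h2 k2, ← h3, ← k3]; rfl
    · rw [jet_add h1 k1, ← h4, ← k4]; rfl
  zero_mem' := by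
    have e : Ω.indicator (((0 : ℝ) • (0 : P2 → ℝ)) ∘ Φ) = (0 : ℝ) • (0 : P2 → ℝ) := by
      funext z
      by_cases hz : z ∈ Ω <;> simp [hz]
    refine ⟨(0 : ℝ) • 0, (test_zero Ω').smul 0, ?_, ?_, ?_⟩
    · rw [e]; exact (test_zero Ω).smul 0
    · rw [e, jet_smul 0 (test_zero Ω), zero_smul]; rfl
    · rw [jet_smul 0 (test_zero Ω), zero_smul]; rfl
  smul_mem' := by
    rintro c x ⟨φ, h1, h2, h3, h4⟩
    have e : Ω.indicator ((c • φ) ∘ Φ) = c • Ω.indicator (φ ∘ Φ) := by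
      funext z
      by_cases hz : z ∈ Ω <;> simp [hz]
    refine ⟨c • φ, h1.smul c, ?_, ?_, ?_⟩
    · rw [e]; exact h2.smul c
    · rw [e, jet_smul c h2, ← h3]; rfl
    · rw [jet_smul c h1, ← h4]; rfl

theorem trf_closure {E : Type} [TopologicalSpace E] (S : Set E) (B : E → E → ℝ)
    (h1 : ∀ y, Continuous fun x => B x y) (h2 : ∀ x, Continuous (B x))
    (h : ∀ x ∈ S, ∀ y ∈ S, B x y = 0) : ∀ x ∈ closure S, ∀ y ∈ closure S, B x y = 0 := by
  have a : ∀ y ∈ S, ∀ x ∈ closure S, B x y = 0 := fun y hy x hx => by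
    have : closure S ⊆ {x | B x y = 0} :=
      closure_minimal (fun z hz => h z hz y hy) (isClosed_eq (h1 y) continuous_const)
    exact this hx
  intro x hx y hy
  have : closure S ⊆ {y | B x y = 0} :=
    closure_minimal (fun z hz => a z hz x hx) (isClosed_eq (h2 x) continuous_const)
  exact this hy

theorem trf_graph (hT : TfnStatement) (hI : TfiStatement) (hV : VanStatement)
    {Φ : P2 → P2} {Ω Ω' : Set P2} (hD : Diffeo Φ Ω Ω') :
    ∃ e : H Ω ≃ₗ[ℝ] H Ω', ∀ F G : H Ω,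
      ⟪(e F : LL) 0, (e G : LL) 0⟫_ℝ =
        ⟪mss Ω (fun x => fderiv ℝ Φ x (1, 0)) (fun x => fderiv ℝ Φ x (0, 1)) F, G⟫_ℝ ∧
      ⟪(e F : LL) 1, (e G : LL) 1⟫_ℝ + ⟪(e F : LL) 2, (e G : LL) 2⟫_ℝ =
        ⟪stf Ω (fun x => fderiv ℝ Φ x (1, 0)) (fun x => fderiv ℝ Φ x (0, 1)) F, G⟫_ℝ := by
  set M := mss Ω (fun x => fderiv ℝ Φ x (1, 0)) (fun x => fderiv ℝ Φ x (0, 1)) with hM
  set S := stf Ω (fun x => fderiv ℝ Φ x (1, 0)) (fun x => fderiv ℝ Φ x (0, 1)) with hS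
  obtain ⟨_, hT1, hT2⟩ := hT Φ Ω Ω' hD
  set P := (trfP Φ Ω Ω').topologicalClosure with hP
  have hPc : IsClosed (P : Set (H Ω × H Ω')) := Submodule.isClosed_topologicalClosure _
  -- the identities on the closure
  have id0 : ∀ x ∈ P, ∀ y ∈ P, ⟪(x.2 : LL) 0, (y.2 : LL) 0⟫_ℝ - ⟪M x.1, y.1⟫_ℝ = 0 := by
    refine trf_closure (trfP Φ Ω Ω' : Set (H Ω × H Ω'))
      (fun x y => ⟪(x.2 : LL) 0, (y.2 : LL) 0⟫_ℝ - ⟪M x.1, y.1⟫_ℝ) ?_ ?_ ?_
    · intro y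
      exact (((co Ω' 0).continuous.comp continuous_snd).inner continuous_const).sub
        ((M.continuous.comp continuous_fst).inner continuous_const)
    · intro x
      exact (continuous_const.inner ((co Ω' 0).continuous.comp continuous_snd)).sub
        (continuous_const.inner continuous_fst)
    · rintro x ⟨φ, h1, h2, h3, h4⟩ y ⟨ψ, k1, k2, k3, k4⟩
      have := (hI Φ Ω Ω' hD φ ψ h1 k1 x.1 y.1 h3 k3).1
      rw [← hM] at this
      rw [h4, k4]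
      simp only [jet, trip_zero]
      linarith
  have id1 : ∀ x ∈ P, ∀ y ∈ P, ⟪(x.2 : LL) 1, (y.2 : LL) 1⟫_ℝ + ⟪(x.2 : LL) 2, (y.2 : LL) 2⟫_ℝ
      - ⟪S x.1, y.1⟫_ℝ = 0 := by
    refine trf_closure (trfP Φ Ω Ω' : Set (H Ω × H Ω'))
      (fun x y => ⟪(x.2 : LL) 1, (y.2 : LL) 1⟫_ℝ + ⟪(x.2 : LL) 2, (y.2 : LL) 2⟫_ℝ
        - ⟪S x.1, y.1⟫_ℝ) ?_ ?_ ?_
    · intro y
      exact ((((co Ω' 1).continuous.comp continuous_snd).inner continuous_const).add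
        (((co Ω' 2).continuous.comp continuous_snd).inner continuous_const)).sub
        ((S.continuous.comp continuous_fst).inner continuous_const)
    · intro x
      exact ((continuous_const.inner ((co Ω' 1).continuous.comp continuous_snd)).add
        (continuous_const.inner ((co Ω' 2).continuous.comp continuous_snd))).sub
        (continuous_const.inner continuous_fst)
    · rintro x ⟨φ, h1, h2, h3, h4⟩ y ⟨ψ, k1, k2, k3, k4⟩
      have := (hI Φ Ω Ω' hD φ ψ h1 k1 x.1 y.1 h3 k3).2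
      rw [← hS] at this
      rw [h4, k4]
      simp only [jet, trip_one, trip_two]
      linarith
  -- the bounds
  have nrm2 : ∀ x ∈ P, ‖x.2‖ ^ 2 = ⟪S x.1, x.1⟫_ℝ + ⟪M x.1, x.1⟫_ℝ := fun x hx => by
    have n1 : ‖x.2‖ ^ 2 = ⟪(x.2 : LL), (x.2 : LL)⟫_ℝ := by
      rw [real_inner_self_eq_norm_sq]; rfl
    rw [n1, LL_inner]
    have := id0 x hx x hx
    have := id1 x hx x hx
    linarith
  obtain ⟨κ, hκ, hcoer⟩ := trf_coer hV hD
  have hK : ∀ x ∈ P, ‖x.2‖ ≤ Real.sqrt (‖S‖ + ‖M‖) * ‖x.1‖ := fun x hx => by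
    have h1 := nrm2 x hx
    have h2 : ⟪S x.1, x.1⟫_ℝ ≤ ‖S‖ * ‖x.1‖ ^ 2 := by
      refine (real_inner_le_norm _ _).trans ?_
      rw [pow_two, ← mul_assoc]
      exact mul_le_mul_of_nonneg_right (S.le_opNorm _) (norm_nonneg _)
    have h3 : ⟪M x.1, x.1⟫_ℝ ≤ ‖M‖ * ‖x.1‖ ^ 2 := by
      refine (real_inner_le_norm _ _).trans ?_
      rw [pow_two, ← mul_assoc]
      exact mul_le_mul_of_nonneg_right (M.le_opNorm _) (norm_nonneg _)
    refine le_of_sq_le_sq ?_ (by positivity)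
    rw [mul_pow, Real.sq_sqrt (by positivity)]
    linarith
  have hK' : ∀ x ∈ P, ‖x.1‖ ≤ (Real.sqrt κ)⁻¹ * ‖x.2‖ := fun x hx => by
    have h1 := nrm2 x hx
    have h2 := hcoer x.1
    rw [← hM, ← hS, ← h1] at h2
    refine le_of_sq_le_sq ?_ (by positivity)
    rw [mul_pow, inv_pow, Real.sq_sqrt hκ.le, ← div_eq_inv_mul, le_div_iff₀ hκ]
    linarith
  -- density
  have hmem : ∀ φ, Test Ω' φ → ∀ (h1 : jet (Ω.indicator (φ ∘ Φ)) ∈ H Ω) (h2 : jet φ ∈ H Ω'),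
      ((⟨_, h1⟩ : H Ω), (⟨_, h2⟩ : H Ω')) ∈ P := fun φ hφ h1 h2 =>
    Submodule.le_topologicalClosure _ ⟨φ, hφ, hT1 φ hφ, rfl, rfl⟩
  have d1 : ∀ f : H Ω, ∃ u : ℕ → H Ω × H Ω', (∀ n, u n ∈ P) ∧
      Tendsto (fun n => (u n).1) atTop (𝓝 f) := fun f => by
    obtain ⟨ψ, hψ, hlim⟩ := exists_seq f.2
    choose φ hφ1 hφ2 using fun n => hT2 (ψ n) (hψ n)
    refine ⟨fun n => (⟨jet (Ω.indicator (φ n ∘ Φ)), jet_mem (hT1 _ (hφ1 n))⟩,
      ⟨jet (φ n), jet_mem (hφ1 n)⟩), fun n => hmem _ (hφ1 n) _ _, ?_⟩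
    rw [tendsto_subtype_rng]
    simp only [hφ2]
    exact hlim
  have d2 : ∀ g : H Ω', ∃ u : ℕ → H Ω × H Ω', (∀ n, u n ∈ P) ∧
      Tendsto (fun n => (u n).2) atTop (𝓝 g) := fun g => by
    obtain ⟨φ, hφ1, hlim⟩ := exists_seq g.2
    refine ⟨fun n => (⟨jet (Ω.indicator (φ n ∘ Φ)), jet_mem (hT1 _ (hφ1 n))⟩,
      ⟨jet (φ n), jet_mem (hφ1 n)⟩), fun n => hmem _ (hφ1 n) _ _, ?_⟩
    rw [tendsto_subtype_rng]
    exact hlim
  obtain ⟨e, he⟩ := trf_equiv P hPc _ _ hK hK' d1 d2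
  refine ⟨e, fun F G => ⟨?_, ?_⟩⟩
  · have := id0 _ (he F) _ (he G)
    simp only at this
    linarith
  · have := id1 _ (he F) _ (he G)
    simp only at this
    linarith

theorem trf (hT : TfnStatement) (hI : TfiStatement) (hV : VanStatement) : TrfStatement := by
  intro Φ Ω Ω' hD l
  obtain ⟨e, he⟩ := trf_graph hT hI hV hD
  set M := mss Ω (fun x => fderiv ℝ Φ x (1, 0)) (fun x => fderiv ℝ Φ x (0, 1)) with hM
  set S := stf Ω (fun x => fderiv ℝ Φ x (1, 0)) (fun x => fderiv ℝ Φ x (0, 1)) with hS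
  set K := LinearMap.ker ((S - l • M : H Ω →L[ℝ] H Ω) : H Ω →ₗ[ℝ] H Ω) with hK
  have hle : Eig Ω' l ≤ H Ω' := fun F hF => hF.1
  have key : ∀ F : H Ω, F ∈ K ↔ (e F : LL) ∈ Eig Ω' l := by
    intro F
    constructor
    · intro hF
      have hF' : S F - l • M F = 0 := hF
      refine ⟨(e F).2, fun G hG => ?_⟩
      obtain ⟨G', hG'⟩ := e.surjective ⟨G, hG⟩
      obtain ⟨h0, h1⟩ := he F G'
      rw [hG'] at h0 h1
      simp only at h0 h1
      rw [h0, h1, sub_eq_zero.1 hF']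
      exact real_inner_smul_left (M F) G' l
    · intro hF
      have h : ∀ G : H Ω, ⟪S F - l • M F, G⟫_ℝ = 0 := fun G => by
        obtain ⟨h0, h1⟩ := he F G
        have := hF.2 (e G) (e G).2
        have e3 : ⟪l • M F, G⟫_ℝ = l * ⟪M F, G⟫_ℝ := real_inner_smul_left (M F) G l
        rw [inner_sub_left, e3, ← h0, ← h1, this, sub_self]
      exact inner_self_eq_zero.1 (h _)
  have hmap : K.map (e : H Ω →ₗ[ℝ] H Ω') = (Eig Ω' l).comap (H Ω').subtype := by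
    ext G
    simp only [Submodule.mem_map, Submodule.mem_comap]
    constructor
    · rintro ⟨F, hF, rfl⟩
      exact (key F).1 hF
    · intro hG
      refine ⟨e.symm G, (key _).2 ?_, ?_⟩
      · rw [LinearEquiv.apply_symm_apply]; exact hG
      · exact LinearEquiv.apply_symm_apply e G
  rw [mult, ← LinearEquiv.finrank_map_eq e K, hmap]
  exact (Submodule.comapSubtypeEquivOfLe hle).finrank_eq.symm

end Pool.SqDrum
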