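import Mathlib
import Pool.Agent.Lib.MP_2805c2_an.SQ.Iface

set_option autoImplicit false

/-!
# TRG: integrals of trigonometric functions
-/

namespace Pool.SqDrum

open MeasureTheory Set Filter Topology

theorem trg_cos (c x : ℝ) : HasDerivAt (fun x => Real.cos (c * (x + 1/2)))
    (-(c * Real.sin (c * (x + 1/2)))) x := by
  have h : HasDerivAt (fun x : ℝ => c * (x + 1/2)) (c * 1) x :=
    ((hasDerivAt_id x).add_const (1/2 : ℝ)).const_mul c
  refine h.cos.congr_deriv ?_
  ring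

theorem trg_sin (c x : ℝ) : HasDerivAt (fun x => Real.sin (c * (x + 1/2)))
    (c * Real.cos (c * (x + 1/2))) x := by
  have h : HasDerivAt (fun x : ℝ => c * (x + 1/2)) (c * 1) x :=
    ((hasDerivAt_id x).add_const (1/2 : ℝ)).const_mul c
  refine h.sin.congr_deriv ?_
  ring

theorem trg_ftc {F f : ℝ → ℝ} (h : ∀ x, HasDerivAt F (f x) x) (hf : Continuous f) :
    ∫ x in (-1/2 : ℝ)..(1/2), f x = F (1/2) - F (-1/2) :=
  intervalIntegral.integral_eq_sub_of_hasDerivAt (fun x _ => h x) (hf.intervalIntegrable _ _)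

theorem trg_c0 {c : ℝ} (hc : c ≠ 0) :
    ∫ x in (-1/2 : ℝ)..(1/2), Real.cos (c * (x + 1/2)) = Real.sin c / c := by
  rw [trg_ftc (F := fun x => Real.sin (c * (x + 1/2)) / c)
    (fun x => ((trg_sin c x).div_const c).congr_deriv (by field_simp)) (by fun_prop)]
  norm_num

theorem trg_s0 {c : ℝ} (hc : c ≠ 0) :
    ∫ x in (-1/2 : ℝ)..(1/2), Real.sin (c * (x + 1/2)) = (1 - Real.cos c) / c := by
  rw [trg_ftc (F := fun x => -(Real.cos (c * (x + 1/2)) / c))
    (fun x => ((trg_cos c x).div_const c).neg.congr_deriv (by field_simp)) (by fun_prop)]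
  norm_num
  ring

theorem trg_c1 {c : ℝ} (hc : c ≠ 0) :
    ∫ x in (-1/2 : ℝ)..(1/2), x * Real.cos (c * (x + 1/2)) =
      Real.sin c / (2 * c) + (Real.cos c - 1) / c ^ 2 := by
  rw [trg_ftc (F := fun x => x * Real.sin (c * (x + 1/2)) / c + Real.cos (c * (x + 1/2)) / c ^ 2)
    (fun x => ((((hasDerivAt_id x).mul (trg_sin c x)).div_const c).add
      ((trg_cos c x).div_const (c ^ 2))).congr_deriv (by simp only [id]; field_simp; ring))
    (by fun_prop)]
  norm_num
  ring

theorem trg_s1 {c : ℝ} (hc : c ≠ 0) :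
    ∫ x in (-1/2 : ℝ)..(1/2), x * Real.sin (c * (x + 1/2)) =
      -(Real.cos c + 1) / (2 * c) + Real.sin c / c ^ 2 := by
  rw [trg_ftc (F := fun x => Real.sin (c * (x + 1/2)) / c ^ 2 - x * Real.cos (c * (x + 1/2)) / c)
    (fun x => (((trg_sin c x).div_const (c ^ 2)).sub
      (((hasDerivAt_id x).mul (trg_cos c x)).div_const c)).congr_deriv
        (by simp only [id]; field_simp; ring))
    (by fun_prop)]
  norm_num
  ring

theorem trg_sq (x : ℝ) : HasDerivAt (fun x : ℝ => x ^ 2) (2 * x) x := by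
  simpa using hasDerivAt_pow 2 x

theorem trg_c2 {c : ℝ} (hc : c ≠ 0) :
    ∫ x in (-1/2 : ℝ)..(1/2), x ^ 2 * Real.cos (c * (x + 1/2)) =
      Real.sin c / (4 * c) + (Real.cos c + 1) / c ^ 2 - 2 * Real.sin c / c ^ 3 := by
  rw [trg_ftc (F := fun x => x ^ 2 * Real.sin (c * (x + 1/2)) / c +
      2 * (x * Real.cos (c * (x + 1/2))) / c ^ 2 - 2 * Real.sin (c * (x + 1/2)) / c ^ 3)
    (fun x => (((((trg_sq x).mul (trg_sin c x)).div_const c).add
      ((((hasDerivAt_id x).mul (trg_cos c x)).const_mul 2).div_const (c ^ 2))).sub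
      (((trg_sin c x).const_mul 2).div_const (c ^ 3))).congr_deriv
        (by simp only [id]; field_simp; ring))
    (by fun_prop)]
  norm_num
  ring

theorem trg_s2 {c : ℝ} (hc : c ≠ 0) :
    ∫ x in (-1/2 : ℝ)..(1/2), x ^ 2 * Real.sin (c * (x + 1/2)) =
      (1 - Real.cos c) / (4 * c) + Real.sin c / c ^ 2 - 2 * (1 - Real.cos c) / c ^ 3 := by
  rw [trg_ftc (F := fun x => 2 * (x * Real.sin (c * (x + 1/2))) / c ^ 2 -
      x ^ 2 * Real.cos (c * (x + 1/2)) / c + 2 * Real.cos (c * (x + 1/2)) / c ^ 3)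
    (fun x => ((((((hasDerivAt_id x).mul (trg_sin c x)).const_mul 2).div_const (c ^ 2))).sub
      (((trg_sq x).mul (trg_cos c x)).div_const c)).add
      (((trg_cos c x).const_mul 2).div_const (c ^ 3)) |>.congr_deriv
        (by simp only [id]; field_simp; ring))
    (by fun_prop)]
  norm_num
  ring

theorem trg : TrgStatement := by
  intro m n hm hn
  have hπ := Real.pi_ne_zero
  have hm' : (m : ℝ) ≠ 0 := by exact_mod_cast hm.ne'
  have hn' : (n : ℝ) ≠ 0 := by exact_mod_cast hn.ne'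
  have hmn0 : (m : ℝ) + n ≠ 0 := by positivity
  set p : ℝ := ((m : ℝ) + n) * Real.pi with hp
  set q : ℝ := ((n : ℝ) - m) * Real.pi with hq
  have p0 : p ≠ 0 := mul_ne_zero hmn0 hπ
  have sp : Real.sin p = 0 := by
    have := Real.sin_nat_mul_pi (m + n)
    push_cast at this
    rw [hp, this]
  have cp : Real.cos p = (-1) ^ (m + n) := by
    have := Real.cos_nat_mul_pi (m + n)
    push_cast at this
    rw [hp, this]
  have qp : q = p - m * (2 * Real.pi) := by rw [hp, hq]; ring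
  have sq : Real.sin q = 0 := by rw [qp, Real.sin_sub_nat_mul_two_pi, sp]
  have cq : Real.cos q = (-1) ^ (m + n) := by rw [qp, Real.cos_sub_nat_mul_two_pi, cp]
  have q0 : m ≠ n → q ≠ 0 := fun h => mul_ne_zero (sub_ne_zero.2 fun h' => h (by exact_mod_cast h'.symm)) hπ
  have qz : m = n → q = 0 := fun h => by rw [hq, h, sub_self, zero_mul]
  have odd1 : (m + n) % 2 = 1 → ((-1 : ℝ)) ^ (m + n) = -1 := fun h =>
    (Nat.odd_iff.2 h).neg_one_pow
  have even1 : ¬ (m + n) % 2 = 1 → ((-1 : ℝ)) ^ (m + n) = 1 := fun h =>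
    (Nat.even_iff.2 (by omega)).neg_one_pow
  have hev : m = n → ¬ (m + n) % 2 = 1 := fun h => by omega
  have nm : m ≠ n → ((n : ℝ) - m) ≠ 0 := fun h => sub_ne_zero.2 fun h' => h (by exact_mod_cast h'.symm)
  have nm2 : m ≠ n → ((n : ℝ) ^ 2 - (m : ℝ) ^ 2) ≠ 0 := fun h => by
    have : (n : ℝ) ^ 2 - (m : ℝ) ^ 2 = (n - m) * (m + n) := by ring
    rw [this]; exact mul_ne_zero (nm h) hmn0
  have eA : ∀ x : ℝ, p * (x + 1/2) = n * Real.pi * (x + 1/2) + m * Real.pi * (x + 1/2) := fun x => by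
    rw [hp]; ring
  have eB : ∀ x : ℝ, q * (x + 1/2) = n * Real.pi * (x + 1/2) - m * Real.pi * (x + 1/2) := fun x => by
    rw [hq]; ring
  have ci : ∀ (f : ℝ → ℝ), Continuous f → IntervalIntegrable f volume (-1/2) (1/2) :=
    fun f hf => hf.intervalIntegrable _ _
  -- the integrals for `q`, also in the case `q = 0`
  have Qc0 : ∫ x in (-1/2 : ℝ)..(1/2), Real.cos (q * (x + 1/2)) = if m = n then 1 else 0 := by
    by_cases h : m = n
    · rw [if_pos h, qz h]; norm_num
    · rw [if_neg h, trg_c0 (q0 h), sq, zero_div]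
  have Qs0 : ∫ x in (-1/2 : ℝ)..(1/2), Real.sin (q * (x + 1/2)) =
      if m = n then 0 else (1 - (-1) ^ (m + n)) / q := by
    by_cases h : m = n
    · rw [if_pos h, qz h]; norm_num
    · rw [if_neg h, trg_s0 (q0 h), cq]
  have Qc1 : ∫ x in (-1/2 : ℝ)..(1/2), x * Real.cos (q * (x + 1/2)) =
      if m = n then 0 else ((-1) ^ (m + n) - 1) / q ^ 2 := by
    by_cases h : m = n
    · rw [if_pos h, qz h]; norm_num
    · rw [if_neg h, trg_c1 (q0 h), cq, sq]; ring
  have Qs1 : ∫ x in (-1/2 : ℝ)..(1/2), x * Real.sin (q * (x + 1/2)) =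
      if m = n then 0 else -((-1) ^ (m + n) + 1) / (2 * q) := by
    by_cases h : m = n
    · rw [if_pos h, qz h]; norm_num
    · rw [if_neg h, trg_s1 (q0 h), cq, sq]; ring
  have Qs2 : ∫ x in (-1/2 : ℝ)..(1/2), x ^ 2 * Real.sin (q * (x + 1/2)) =
      if m = n then 0 else (1 - (-1) ^ (m + n)) / (4 * q) - 2 * (1 - (-1) ^ (m + n)) / q ^ 3 := by
    by_cases h : m = n
    · rw [if_pos h, qz h]; norm_num
    · rw [if_neg h, trg_s2 (q0 h), cq, sq]; ring
  have x2 : ∫ x in (-1/2 : ℝ)..(1/2), x ^ 2 = 1 / 12 := by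
    rw [integral_pow]; norm_num
  have c2m : ∫ x in (-1/2 : ℝ)..(1/2), x ^ 2 * Real.cos (((m : ℝ) * (2 * Real.pi)) * (x + 1/2)) =
      1 / (2 * Real.pi ^ 2 * (m : ℝ) ^ 2) := by
    have e1 : Real.sin ((m : ℝ) * (2 * Real.pi)) = 0 := by
      have := Real.sin_nat_mul_pi (2 * m)
      push_cast at this
      rw [← this]; ring_nf
    rw [trg_c2 (by positivity), Real.cos_nat_mul_two_pi, e1]
    field_simp
    ring
  refine ⟨?_, ?_, ?_, ?_, ?_, ?_, ?_, ?_⟩
  · have e : ∀ x : ℝ, 2 * (Real.sin (m * Real.pi * (x + 1/2)) * Real.sin (n * Real.pi * (x + 1/2))) =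
        Real.cos (q * (x + 1/2)) - Real.cos (p * (x + 1/2)) := fun x => by
      rw [eA, eB, Real.cos_sub, Real.cos_add]; ring
    simp_rw [e]
    rw [intervalIntegral.integral_sub (ci _ (by fun_prop)) (ci _ (by fun_prop)), Qc0, trg_c0 p0, sp,
      zero_div, sub_zero]
  · have e : ∀ x : ℝ, 2 * (Real.cos (m * Real.pi * (x + 1/2)) * Real.cos (n * Real.pi * (x + 1/2))) =
        Real.cos (q * (x + 1/2)) + Real.cos (p * (x + 1/2)) := fun x => by
      rw [eA, eB, Real.cos_sub, Real.cos_add]; ring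
    simp_rw [e]
    rw [intervalIntegral.integral_add (ci _ (by fun_prop)) (ci _ (by fun_prop)), Qc0, trg_c0 p0, sp,
      zero_div, add_zero]
  · have e : ∀ x : ℝ, 2 * (Real.cos (m * Real.pi * (x + 1/2)) * Real.sin (n * Real.pi * (x + 1/2))) =
        Real.sin (p * (x + 1/2)) + Real.sin (q * (x + 1/2)) := fun x => by
      rw [eA, eB, Real.sin_sub, Real.sin_add]; ring
    simp_rw [e]
    rw [intervalIntegral.integral_add (ci _ (by fun_prop)) (ci _ (by fun_prop)), Qs0, trg_s0 p0, cp]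
    by_cases h : (m + n) % 2 = 1
    · have h1 : m ≠ n := fun h' => hev h' h
      rw [if_pos h, if_neg h1, odd1 h, I0, hp, hq]
      have := nm h1
      have := nm2 h1
      field_simp
      ring
    · rw [if_neg h, even1 h]
      split_ifs <;> simp
  · have e : ∀ x : ℝ, 2 * x * (Real.sin (m * Real.pi * (x + 1/2)) * Real.sin (n * Real.pi * (x + 1/2))) =
        x * Real.cos (q * (x + 1/2)) - x * Real.cos (p * (x + 1/2)) := fun x => by
      rw [eA, eB, Real.cos_sub, Real.cos_add]; ring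
    simp_rw [e]
    rw [intervalIntegral.integral_sub (ci _ (by fun_prop)) (ci _ (by fun_prop)), Qc1, trg_c1 p0, cp, sp]
    by_cases h : (m + n) % 2 = 1
    · have h1 : m ≠ n := fun h' => hev h' h
      rw [if_pos h, if_neg h1, odd1 h, hp, hq]
      have := nm h1
      have := nm2 h1
      field_simp
      ring
    · rw [if_neg h, even1 h]
      split_ifs <;> simp
  · have e : ∀ x : ℝ, 2 * x * (Real.cos (m * Real.pi * (x + 1/2)) * Real.sin (n * Real.pi * (x + 1/2))) =
        x * Real.sin (p * (x + 1/2)) + x * Real.sin (q * (x + 1/2)) := fun x => by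
      rw [eA, eB, Real.sin_sub, Real.sin_add]; ring
    simp_rw [e]
    rw [intervalIntegral.integral_add (ci _ (by fun_prop)) (ci _ (by fun_prop)), Qs1, trg_s1 p0, cp, sp]
    by_cases h : (m + n) % 2 = 1
    · rw [if_pos h, odd1 h]
      split_ifs <;> simp
    · rw [if_neg h, even1 h]
      by_cases h1 : m = n
      · rw [if_pos h1, if_pos h1, hp, ← h1]
        field_simp
        ring
      · rw [if_neg h1, if_neg h1, hp, hq]
        have := nm h1
        have := nm2 h1
        field_simp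
        ring
  · have e : ∀ x : ℝ, 2 * x ^ 2 * (Real.cos (m * Real.pi * (x + 1/2)) * Real.sin (n * Real.pi * (x + 1/2))) =
        x ^ 2 * Real.sin (p * (x + 1/2)) + x ^ 2 * Real.sin (q * (x + 1/2)) := fun x => by
      rw [eA, eB, Real.sin_sub, Real.sin_add]; ring
    simp_rw [e]
    rw [intervalIntegral.integral_add (ci _ (by fun_prop)) (ci _ (by fun_prop)), Qs2, trg_s2 p0, cp, sp]
    by_cases h : (m + n) % 2 = 1
    · have h1 : m ≠ n := fun h' => hev h' h
      rw [if_pos h, if_neg h1, odd1 h, I2, hp, hq]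
      have := nm h1
      have := nm2 h1
      rw [add_comm (n : ℝ) m]
      field_simp
      ring
    · rw [if_neg h, even1 h]
      split_ifs <;> simp
  · have e : ∀ x : ℝ, 2 * x ^ 2 * Real.cos (m * Real.pi * (x + 1/2)) ^ 2 =
        x ^ 2 + x ^ 2 * Real.cos (((m : ℝ) * (2 * Real.pi)) * (x + 1/2)) := fun x => by
      have : ((m : ℝ) * (2 * Real.pi)) * (x + 1/2) = 2 * (m * Real.pi * (x + 1/2)) := by ring
      rw [this, Real.cos_two_mul]; ring
    simp_rw [e]
    rw [intervalIntegral.integral_add (ci _ (by fun_prop)) (ci _ (by fun_prop)), x2, c2m]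
  · have e : ∀ x : ℝ, 2 * x ^ 2 * Real.sin (m * Real.pi * (x + 1/2)) ^ 2 =
        x ^ 2 - x ^ 2 * Real.cos (((m : ℝ) * (2 * Real.pi)) * (x + 1/2)) := fun x => by
      have : ((m : ℝ) * (2 * Real.pi)) * (x + 1/2) = 2 * (m * Real.pi * (x + 1/2)) := by ring
      rw [this, Real.cos_two_mul, Real.sin_sq]; ring
    simp_rw [e]
    rw [intervalIntegral.integral_sub (ci _ (by fun_prop)) (ci _ (by fun_prop)), x2, c2m]

end Pool.SqDrum
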