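import Pool.Agent.Lib.MP_2805c2_an.SQ.Iface

set_option autoImplicit false

/-!
# TRI: bound in a triangle over a side
-/

namespace Pool.SqDrum

open MeasureTheory Set Filter Topology
open scoped ENNReal

theorem tri_measurable (p q r h : ℝ) : MeasurableSet (tri p q r h) := by
  unfold tri
  have m1 : Measurable (fun x : P2 => x.2) := measurable_snd
  have m2 : Measurable (fun x : P2 => x.1) := measurable_fst
  refine MeasurableSet.inter (measurableSet_lt measurable_const m1)
    (MeasurableSet.inter (measurableSet_lt m1 measurable_const)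
      (MeasurableSet.inter (measurableSet_lt ?_ m2) (measurableSet_lt m2 ?_)))
  · exact measurable_const.add ((measurable_const.mul m1).div_const h)
  · exact measurable_const.add ((measurable_const.mul m1).div_const h)

theorem tri_slice {p q r h : ℝ} {y : ℝ} :
    {x : ℝ | (x, y) ∈ tri p q r h} =
      if y ∈ Ioo 0 h then Ioo (p + (r - p) * y / h) (q + (r - q) * y / h) else ∅ := by
  ext x
  by_cases hy : y ∈ Ioo 0 h
  · rw [if_pos hy]
    exact ⟨fun hx => ⟨hx.2.2.1, hx.2.2.2⟩, fun hx => ⟨hy.1, hy.2, hx.1, hx.2⟩⟩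
  · rw [if_neg hy]
    constructor
    · intro hx
      exact absurd ⟨hx.1, hx.2.1⟩ hy
    · intro hx
      exact absurd hx (notMem_empty x)

theorem tri_sub_compact {p q r h : ℝ} (hpq : p < q) (hh : 0 < h) :
    tri p q r h ⊆ Icc (min p r) (max q r) ×ˢ Icc 0 h := by
  rintro ⟨x, y⟩ ⟨h1, h2, h3, h4⟩
  simp only at h1 h2 h3 h4
  have ht0 : 0 < y / h := div_pos h1 hh
  have ht1 : y / h < 1 := (div_lt_one hh).2 h2
  have e1 : p + (r - p) * y / h = (1 - y / h) * p + y / h * r := by ring
  have e2 : q + (r - q) * y / h = (1 - y / h) * q + y / h * r := by ring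
  rw [e1] at h3
  rw [e2] at h4
  refine ⟨⟨?_, ?_⟩, ⟨h1.le, h2.le⟩⟩
  · have a1 := mul_le_mul_of_nonneg_left (min_le_left p r) (show 0 ≤ 1 - y / h by linarith)
    have a2 := mul_le_mul_of_nonneg_left (min_le_right p r) ht0.le
    simp only
    linarith
  · have a1 := mul_le_mul_of_nonneg_left (le_max_left q r) (show 0 ≤ 1 - y / h by linarith)
    have a2 := mul_le_mul_of_nonneg_left (le_max_right q r) ht0.le
    simp only
    linarith

/-- integral over the triangle of a function of the height -/
theorem tri_integral {p q r h : ℝ} (hpq : p < q) (hh : 0 < h) {f : ℝ → ℝ} (hf : Continuous f) :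
    ∫ x in tri p q r h, f x.2 = (q - p) * ∫ y in (0 : ℝ)..h, f y * (1 - y / h) := by
  have hA := tri_measurable p q r h
  have hcomp : IsCompact (Icc (min p r) (max q r) ×ˢ Icc (0 : ℝ) h) := isCompact_Icc.prod isCompact_Icc
  have hint : IntegrableOn (fun x : P2 => f x.2) (tri p q r h) volume :=
    ((hf.comp continuous_snd).continuousOn.integrableOn_compact hcomp).mono_set
      (tri_sub_compact hpq hh)
  have hint' : Integrable ((tri p q r h).indicator (fun x : P2 => f x.2))
      ((volume : Measure ℝ).prod (volume : Measure ℝ)) := (integrable_indicator_iff hA).2 hint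
  have h1 : ∫ x in tri p q r h, f x.2 =
      ∫ y : ℝ, ∫ x : ℝ, (tri p q r h).indicator (fun x : P2 => f x.2) (x, y) := by
    rw [← integral_indicator hA]
    exact integral_prod_symm _ hint'
  have h2 : ∀ y : ℝ, ∫ x : ℝ, (tri p q r h).indicator (fun x : P2 => f x.2) (x, y) =
      (Ioo 0 h).indicator (fun y => (q - p) * (f y * (1 - y / h))) y := by
    intro y
    have e : (fun x : ℝ => (tri p q r h).indicator (fun x : P2 => f x.2) (x, y)) =
        ({x : ℝ | (x, y) ∈ tri p q r h}).indicator (fun _ => f y) := by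
      funext x
      by_cases hx : (x, y) ∈ tri p q r h
      · rw [indicator_of_mem hx, indicator_of_mem (show x ∈ {x : ℝ | (x, y) ∈ tri p q r h} from hx)]
      · rw [indicator_of_notMem hx,
          indicator_of_notMem (show x ∉ {x : ℝ | (x, y) ∈ tri p q r h} from hx)]
    rw [e, tri_slice]
    by_cases hy : y ∈ Ioo 0 h
    · rw [if_pos hy, indicator_of_mem hy, integral_indicator measurableSet_Ioo, setIntegral_const,
        Real.volume_real_Ioo_of_le]
      · rw [smul_eq_mul]
        ring
      · have ht1 : y / h < 1 := (div_lt_one hh).2 hy.2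
        have : q + (r - q) * y / h - (p + (r - p) * y / h) = (q - p) * (1 - y / h) := by ring
        have h3 : 0 ≤ (q - p) * (1 - y / h) := mul_nonneg (by linarith) (by linarith)
        linarith
    · rw [if_neg hy, indicator_of_notMem hy]
      simp
  rw [h1]
  simp_rw [h2]
  rw [integral_indicator measurableSet_Ioo, ← integral_Ioc_eq_integral_Ioo,
    ← intervalIntegral.integral_of_le hh.le, intervalIntegral.integral_const_mul]

theorem tri' (tha : ThaStatement) (mon : MonStatement) (hsd : HsdStatement) (psi' : PsiStatement) :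
    TriStatement := by
  intro Q p q r h hQ hb hpos hpq hh hsub
  obtain ⟨C, hC0, hC⟩ := tha
  obtain ⟨hpsi01, hpsic, hpsi⟩ := psi'
  have hA := tri_measurable p q r h
  obtain ⟨B, hB⟩ := hb.exists_norm_le
  -- the bound for every large `M`
  have key : ∀ M : ℝ, max 1 (2 * B + 1) ≤ M →
      hs ((ind (tri p q r h)).comp (res Q)) ≤
        ENNReal.ofReal ((∫ x in tri p q r h, (1 - psi x.2)) / (4 * Real.pi) +
          C * volume.real (tri p q r h) / M ^ 2) := by
    intro M hM
    have hM1 : 1 ≤ M := (le_max_left _ _).trans hM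
    have hM2 : 2 * B + 1 ≤ M := (le_max_right _ _).trans hM
    have hQs : Q ⊆ Sq (-(M / 2)) 0 M := by
      intro x hx
      have h1 := hB x hx
      have h2 : |x.1| ≤ B := (norm_fst_le x).trans h1
      have h3 : |x.2| ≤ B := (norm_snd_le x).trans h1
      have h4 := abs_le.1 h2
      have h5 := abs_le.1 h3
      refine ⟨⟨?_, ?_⟩, ⟨hpos x hx, ?_⟩⟩ <;> linarith
    have hopen : IsOpen (Sq (-(M / 2)) 0 M) := isOpen_Ioo.prod isOpen_Ioo
    refine (hsd (res Q) (res (Sq (-(M / 2)) 0 M)) (fun f g hf hg => ?_) _ hA).trans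
      (hC (-(M / 2)) M _ hM1 hA (hsub.trans hQs))
    exact mon Q (Sq (-(M / 2)) 0 M) hQ hopen hQs f g hf hg
  -- the limit
  have hlim : Tendsto (fun M : ℝ => (∫ x in tri p q r h, (1 - psi x.2)) / (4 * Real.pi) +
      C * volume.real (tri p q r h) / M ^ 2) atTop
      (𝓝 ((∫ x in tri p q r h, (1 - psi x.2)) / (4 * Real.pi) + 0)) := by
    refine tendsto_const_nhds.add ?_
    exact tendsto_const_nhds.div_atTop (tendsto_pow_atTop (by norm_num))
  rw [add_zero] at hlim
  have h1 : hs ((ind (tri p q r h)).comp (res Q)) ≤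
      ENNReal.ofReal ((∫ x in tri p q r h, (1 - psi x.2)) / (4 * Real.pi)) :=
    ge_of_tendsto (ENNReal.tendsto_ofReal hlim)
      ((eventually_ge_atTop (max 1 (2 * B + 1))).mono key)
  refine h1.trans (ENNReal.ofReal_le_ofReal ?_)
  apply div_le_div_of_nonneg_right _ (by positivity)
  have h2 := tri_integral (r := r) hpq hh (f := fun y => 1 - psi y) (continuous_const.sub hpsic)
  rw [h2]
  have h3 : ∫ y in (0 : ℝ)..h, (1 - psi y) * (1 - y / h) =
      (∫ y in (0 : ℝ)..h, (1 - y / h)) - ∫ y in (0 : ℝ)..h, psi y * (1 - y / h) := by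
    rw [← intervalIntegral.integral_sub]
    · refine intervalIntegral.integral_congr fun y _ => ?_
      ring
    · exact (by fun_prop : Continuous fun y : ℝ => 1 - y / h).intervalIntegrable _ _
    · exact (hpsic.mul (by fun_prop)).intervalIntegrable _ _
  have h4 : ∫ y in (0 : ℝ)..h, (1 - y / h) = h / 2 := by
    rw [intervalIntegral.integral_sub (by simp) ((by fun_prop : Continuous fun y : ℝ => y / h).intervalIntegrable _ _)]
    rw [intervalIntegral.integral_div, integral_id, intervalIntegral.integral_const]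
    simp only [smul_eq_mul]
    field_simp
    ring
  rw [h3, h4]
  have h5 := mul_le_mul_of_nonneg_left (hpsi h hh) (show 0 ≤ q - p by linarith)
  linarith

end Pool.SqDrum
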