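import Pool.Agent.Lib.MP_2805c2_an.SQ.Iface

set_option autoImplicit false

/-!
# UPA: bound in the triangle over a side
-/

namespace Pool.SqDrum

open MeasureTheory Set Filter Topology
open scoped ENNReal ContDiff InnerProductSpace

theorem upa_nonneg {q : Fin 4 → P2} (hq : Ccw q) (j k : Fin 4) :
    0 ≤ det2 (q (j + 1) - q j) (q k - q j) := by
  by_cases h1 : k = j
  · subst h1; simp [det2]
  by_cases h2 : k = j + 1
  · subst h2; apply le_of_eq; simp only [det2]; ring
  exact (hq j k h1 h2).le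

theorem upa_pos {q : Fin 4 → P2} (hq : Ccw q) (j : Fin 4) :
    0 < det2 (q (j + 1) - q j) (q (j + 2) - q j) :=
  hq j (j + 2) (by fin_cases j <;> decide) (by fin_cases j <;> decide)

theorem upa_qc {q : Fin 4 → P2} (hq : Ccw q) (j : Fin 4) :
    0 < det2 (q (j + 1) - q j) (qc q - q j) := by
  have h : det2 (q (j + 1) - q j) (qc q - q j) =
      (1 / 4) * ∑ k, det2 (q (j + 1) - q j) (q k - q j) := by
    simp only [Fin.sum_univ_four, det2, qc, Prod.fst_sub, Prod.snd_sub, Prod.fst_add,
      Prod.snd_add, Prod.smul_fst, Prod.smul_snd, smul_eq_mul]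
    ring
  rw [h]
  have h2 := upa_pos hq j
  have h3 : det2 (q (j + 1) - q j) (q (j + 2) - q j) ≤
      ∑ k, det2 (q (j + 1) - q j) (q k - q j) :=
    Finset.single_le_sum (f := fun k => det2 (q (j + 1) - q j) (q k - q j))
      (fun k _ => upa_nonneg hq j k) (Finset.mem_univ (j + 2))
  linarith

/-- barycentric coordinates -/
theorem upa_bary (a b c x s t : P2) :
    det2 (b - a) (c - a) * det2 s (x - t) =
      det2 (b - a) (x - a) * det2 s (c - t) + det2 (a - c) (x - c) * det2 s (b - t) +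
        det2 (x - c) (b - c) * det2 s (a - t) := by
  simp only [det2, Prod.fst_sub, Prod.snd_sub]
  ring

theorem upa_sub (hQda : QdaStatement) {q : Fin 4 → P2} (hq : Ccw q) (i : Fin 4) :
    sect q i ⊆ quad q := by
  intro x hx
  obtain ⟨h1, h2, h3⟩ := hx
  rw [(hQda q hq).2.2.2.2 x]
  intro j
  have hD := upa_qc hq i
  have key := upa_bary (q i) (q (i + 1)) (qc q) x (q (j + 1) - q j) (q j)
  have e1 := mul_pos h1 (upa_qc hq j)
  have e2 := mul_nonneg h2.le (upa_nonneg hq j (i + 1))
  have e3 := mul_nonneg h3.le (upa_nonneg hq j i)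
  have : 0 < det2 (q (i + 1) - q i) (qc q - q i) * det2 (q (j + 1) - q j) (x - q j) := by
    rw [key]; linarith
  exact (pos_iff_pos_of_mul_pos this).1 hD

/-- the isometry which maps `q i` to the origin -/
noncomputable def upa_rho (a u x : P2) : P2 :=
  (u.1 * (x.1 - a.1) + u.2 * (x.2 - a.2), u.1 * (x.2 - a.2) - u.2 * (x.1 - a.1))

noncomputable def upa_inv (a u y : P2) : P2 :=
  (a.1 + u.1 * y.1 - u.2 * y.2, a.2 + u.2 * y.1 + u.1 * y.2)

theorem upa_li {a u : P2} (hu : u.1 ^ 2 + u.2 ^ 2 = 1) (x : P2) :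
    upa_inv a u (upa_rho a u x) = x := by
  apply Prod.ext
  · simp only [upa_inv, upa_rho]
    linear_combination (x.1 - a.1) * hu
  · simp only [upa_inv, upa_rho]
    linear_combination (x.2 - a.2) * hu

theorem upa_ri {a u : P2} (hu : u.1 ^ 2 + u.2 ^ 2 = 1) (y : P2) :
    upa_rho a u (upa_inv a u y) = y := by
  apply Prod.ext
  · simp only [upa_inv, upa_rho]
    linear_combination y.1 * hu
  · simp only [upa_inv, upa_rho]
    linear_combination y.2 * hu

theorem upa_img {a u : P2} (hu : u.1 ^ 2 + u.2 ^ 2 = 1) (S : Set P2) :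
    upa_rho a u '' S = upa_inv a u ⁻¹' S := by
  ext y
  constructor
  · rintro ⟨x, hx, rfl⟩
    rw [mem_preimage, upa_li hu]
    exact hx
  · intro hy
    exact ⟨_, hy, upa_ri hu y⟩

theorem upa_det {a u : P2} (hu : u.1 ^ 2 + u.2 ^ 2 = 1) (x y z w : P2) :
    det2 (x - y) (z - w) = det2 (upa_rho a u x - upa_rho a u y)
      (upa_rho a u z - upa_rho a u w) := by
  simp only [det2, upa_rho, Prod.fst_sub, Prod.snd_sub]
  linear_combination (-((x.1 - y.1) * (z.2 - w.2) - (x.2 - y.2) * (z.1 - w.1))) * hu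

theorem upa_sim {a u : P2} (hu : u.1 ^ 2 + u.2 ^ 2 = 1) : Sim 1 (upa_rho a u) := by
  refine ⟨u.1, -u.2, -(u.1 * a.1 + u.2 * a.2), u.2 * a.1 - u.1 * a.2, 1, Or.inl rfl, ?_, ?_⟩
  · rw [neg_sq, hu, one_pow]
  · intro x
    apply Prod.ext <;> simp only [upa_rho] <;> ring

theorem upa_sect_open (q : Fin 4 → P2) (i : Fin 4) : IsOpen (sect q i) := by
  have h1 : IsOpen {x : P2 | 0 < det2 (q (i + 1) - q i) (x - q i)} :=
    isOpen_lt continuous_const (by unfold det2; fun_prop)
  have h2 : IsOpen {x : P2 | 0 < det2 (q i - qc q) (x - qc q)} :=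
    isOpen_lt continuous_const (by unfold det2; fun_prop)
  have h3 : IsOpen {x : P2 | 0 < det2 (x - qc q) (q (i + 1) - qc q)} :=
    isOpen_lt continuous_const (by unfold det2; fun_prop)
  exact h1.inter (h2.inter h3)

theorem upa (hTri : TriStatement) (hIso : IsoStatement) (hQda : QdaStatement) :
    UpaStatement := by
  intro q hq i l h hl hh
  have hv := upa_pos hq i
  have hv0 : 0 < dot2 (q (i + 1) - q i) (q (i + 1) - q i) := by
    have h0 : 0 ≤ dot2 (q (i + 1) - q i) (q (i + 1) - q i) :=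
      add_nonneg (mul_self_nonneg _) (mul_self_nonneg _)
    refine lt_of_le_of_ne h0 fun h1 => ?_
    have h2 : (q (i + 1) - q i).1 * (q (i + 1) - q i).1 = 0 := by
      have := mul_self_nonneg (q (i + 1) - q i).1
      have := mul_self_nonneg (q (i + 1) - q i).2
      simp only [dot2] at h1
      linarith
    have h3 : (q (i + 1) - q i).2 * (q (i + 1) - q i).2 = 0 := by
      have := mul_self_nonneg (q (i + 1) - q i).1
      have := mul_self_nonneg (q (i + 1) - q i).2
      simp only [dot2] at h1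
      linarith
    have h4 := mul_self_eq_zero.1 h2
    have h5 := mul_self_eq_zero.1 h3
    simp only [det2, h4, h5] at hv
    simp at hv
  have hl0 : 0 < l := by
    rw [hl]; exact Real.sqrt_pos.2 hv0
  have hl2 : l ^ 2 = dot2 (q (i + 1) - q i) (q (i + 1) - q i) := by
    rw [hl]; exact Real.sq_sqrt hv0.le
  have hh0 : 0 < h := by
    rw [hh]; exact div_pos (upa_qc hq i) hl0
  refine ⟨hl0, hh0, ?_⟩
  have hl1 : l ≠ 0 := hl0.ne'
  have hh1 : h ≠ 0 := hh0.ne'
  set u : P2 := (((q (i + 1)).1 - (q i).1) / l, ((q (i + 1)).2 - (q i).2) / l) with hu'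
  have hu : u.1 ^ 2 + u.2 ^ 2 = 1 := by
    rw [hu']
    simp only
    rw [div_pow, div_pow, ← add_div, div_eq_one_iff_eq (pow_ne_zero 2 hl1), hl2]
    simp only [dot2, Prod.fst_sub, Prod.snd_sub]
    ring
  have ra : upa_rho (q i) u (q i) = (0, 0) := by
    apply Prod.ext <;> simp [upa_rho]
  have rb : upa_rho (q i) u (q (i + 1)) = (l, 0) := by
    apply Prod.ext
    · simp only [upa_rho, hu']
      rw [div_mul_eq_mul_div, div_mul_eq_mul_div, ← add_div, div_eq_iff hl1, ← pow_two, ← pow_two,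
        ← pow_two, hl2]
      simp only [dot2, Prod.fst_sub, Prod.snd_sub]
      ring
    · simp only [upa_rho, hu']
      ring
  obtain ⟨r, rc⟩ : ∃ r, upa_rho (q i) u (qc q) = (r, h) := by
    refine ⟨_, Prod.ext rfl ?_⟩
    rw [hh]
    simp only [upa_rho, hu', det2, Prod.fst_sub, Prod.snd_sub]
    ring
  have himg : upa_rho (q i) u '' sect q i = tri 0 l r h := by
    rw [upa_img hu]
    ext y
    have e1 : det2 (q (i + 1) - q i) (upa_inv (q i) u y - q i) = l * y.2 := by
      rw [upa_det (a := q i) hu, upa_ri hu, ra, rb]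
      simp [det2]
    have e2 : det2 (q i - qc q) (upa_inv (q i) u y - qc q) = h * y.1 - r * y.2 := by
      rw [upa_det (a := q i) hu, upa_ri hu, ra, rc]
      simp only [det2, Prod.fst_sub, Prod.snd_sub]
      ring
    have e3 : det2 (upa_inv (q i) u y - qc q) (q (i + 1) - qc q) =
        h * l - h * y.1 - (l - r) * y.2 := by
      rw [upa_det (a := q i) hu, upa_ri hu, rb, rc]
      simp only [det2, Prod.fst_sub, Prod.snd_sub]
      ring
    have e4 : l + (r - l) * y.2 / h = (l * h + (r - l) * y.2) / h := by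
      field_simp
    simp only [mem_preimage, sect, tri, mem_setOf_eq, e1, e2, e3, e4, zero_add, sub_zero,
      div_lt_iff₀ hh0, lt_div_iff₀ hh0]
    constructor
    · rintro ⟨h1, h2, h3⟩
      have h4 : 0 < l * (h - y.2) := by linarith
      exact ⟨(pos_iff_pos_of_mul_pos h1).1 hl0, sub_pos.1 ((pos_iff_pos_of_mul_pos h4).1 hl0),
        by linarith, by linarith⟩
    · rintro ⟨h1, -, h3, h4⟩
      exact ⟨mul_pos hl0 h1, by linarith, by linarith⟩
  have hcont : Continuous (upa_rho (q i) u) := by unfold upa_rho; fun_prop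
  have hcont' : Continuous (upa_inv (q i) u) := by unfold upa_inv; fun_prop
  have hQo : IsOpen (quad q) := isOpen_interior
  have hopen : IsOpen (upa_rho (q i) u '' quad q) := by
    rw [upa_img hu]; exact hQo.preimage hcont'
  have hbdd : Bornology.IsBounded (upa_rho (q i) u '' quad q) := by
    have h1 := (hQda q hq).2.2.2.1
    have h2 : IsCompact (closure (quad q)) := h1.isCompact_closure
    exact (h2.image hcont).isBounded.subset (image_mono subset_closure)
  have hupper : ∀ y ∈ upa_rho (q i) u '' quad q, 0 < y.2 := by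
    rintro _ ⟨x, hx, rfl⟩
    have h1 := ((hQda q hq).2.2.2.2 x).1 hx i
    rw [upa_det (a := q i) hu, ra, rb] at h1
    have h2 : det2 (((l, 0) : P2) - (0, 0)) (upa_rho (q i) u x - (0, 0)) =
        l * (upa_rho (q i) u x).2 := by
      simp [det2]
    rw [h2] at h1
    exact (pos_iff_pos_of_mul_pos h1).1 hl0
  have hsub : tri 0 l r h ⊆ upa_rho (q i) u '' quad q := by
    rw [← himg]; exact image_mono (upa_sub hQda hq i)
  have h1 := hTri (upa_rho (q i) u '' quad q) 0 l r h hopen hbdd hupper hl0 hh0 hsub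
  have h2 := hIso (upa_rho (q i) u) (quad q) (sect q i) (upa_sim hu) hQo
    (upa_sect_open q i).measurableSet
  rw [himg] at h2
  rw [← h2]
  simpa only [sub_zero] using h1

end Pool.SqDrum
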