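import Pool.Agent.Lib.MP_2805c2_an.SQ.Iface

set_option autoImplicit false

/-!
# UPG: the four triangles of a convex quadrilateral
-/

namespace Pool.SqDrum

open MeasureTheory Set Filter Topology

namespace UpgAux

theorem forall4 {P : Fin 4 → Prop} (h0 : P 0) (h1 : P 1) (h2 : P 2) (h3 : P 3) : ∀ i, P i := by
  intro i
  fin_cases i
  · exact h0
  · exact h1
  · exact h2
  · exact h3

/-- four points in convex position, counterclockwise -/
structure Cyc (a b c d : P2) : Prop where
  abc : 0 < det2 (b - a) (c - a)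
  abd : 0 < det2 (b - a) (d - a)
  bcd : 0 < det2 (c - b) (d - b)
  acd : 0 < det2 (d - c) (a - c)

theorem Cyc.rot {a b c d : P2} (h : Cyc a b c d) : Cyc b c d a := by
  obtain ⟨h1, h2, h3, h4⟩ := h
  simp only [det2, Prod.fst_sub, Prod.snd_sub] at h1 h2 h3 h4
  refine ⟨?_, ?_, ?_, ?_⟩ <;> simp only [det2, Prod.fst_sub, Prod.snd_sub] <;> linarith

/-- the centre -/
noncomputable def cen (a b c d : P2) : P2 := (1/4 : ℝ) • (a + b + c + d)

theorem cen_pos {a b c d : P2} (h : Cyc a b c d) : 0 < det2 (b - a) (cen a b c d - a) := by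
  obtain ⟨h1, h2, h3, h4⟩ := h
  have e : det2 (b - a) (cen a b c d - a) = 1/4 * (det2 (b - a) (c - a) + det2 (b - a) (d - a)) := by
    simp only [det2, cen, Prod.fst_sub, Prod.snd_sub, Prod.smul_fst, Prod.smul_snd, smul_eq_mul,
      Prod.fst_add, Prod.snd_add]
    ring
  rw [e]
  linarith

/-- the triangle over the side `a b` -/
def InS (a b O x : P2) : Prop :=
  0 < det2 (b - a) (x - a) ∧ 0 < det2 (a - O) (x - O) ∧ 0 < det2 (x - O) (b - O)

theorem cen_rot (a b c d : P2) : cen b c d a = cen a b c d := by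
  simp only [cen]
  congr 1
  abel

theorem sub_quad {a b c d x : P2} (h : Cyc a b c d) (hx : InS a b (cen a b c d) x) :
    0 < det2 (b - a) (x - a) ∧ 0 < det2 (c - b) (x - b) ∧ 0 < det2 (d - c) (x - c) ∧
      0 < det2 (a - d) (x - d) := by
  have hO1 := cen_pos h
  have hO2 := cen_pos h.rot
  have hO3 := cen_pos h.rot.rot
  have hO4 := cen_pos h.rot.rot.rot
  rw [cen_rot] at hO2
  rw [cen_rot, cen_rot] at hO3
  rw [cen_rot, cen_rot, cen_rot] at hO4
  obtain ⟨x1, x2, x3⟩ := hx
  obtain ⟨h1, h2, h3, h4⟩ := h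
  set O := cen a b c d
  have hD : 0 < det2 (a - O) (b - O) := by
    have : det2 (a - O) (b - O) = det2 (b - a) (O - a) := by
      simp only [det2, Prod.fst_sub, Prod.snd_sub]
      ring
    rw [this]
    exact hO1
  -- barycentric coordinates
  have key : ∀ u v : P2, det2 (a - O) (b - O) * det2 u (x - v) =
      det2 (b - a) (x - a) * det2 u (O - v) + det2 (a - O) (x - O) * det2 u (b - v) +
        det2 (x - O) (b - O) * det2 u (a - v) := by
    intro u v
    simp only [det2, Prod.fst_sub, Prod.snd_sub]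
    ring
  have fin : ∀ u v : P2, 0 < det2 u (O - v) → 0 ≤ det2 u (b - v) → 0 ≤ det2 u (a - v) →
      0 < det2 u (x - v) := by
    intro u v k1 k2 k3
    have := key u v
    have m1 := mul_pos x1 k1
    have m2 := mul_nonneg x2.le k2
    have m3 := mul_nonneg x3.le k3
    have : 0 < det2 (a - O) (b - O) * det2 u (x - v) := by linarith
    exact (pos_iff_pos_of_mul_pos this).1 hD
  refine ⟨x1, fin _ _ hO2 ?_ ?_, fin _ _ hO3 ?_ ?_, fin _ _ hO4 ?_ ?_⟩ <;>
    simp only [det2, Prod.fst_sub, Prod.snd_sub] at h1 h2 h3 h4 ⊢ <;> nlinarith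

/-- opposite sectors are disjoint -/
theorem opp {a b c d x : P2} (h : Cyc a b c d) (hx : InS a b (cen a b c d) x)
    (hx' : InS c d (cen a b c d) x) : False := by
  have hO1 := cen_pos h
  have hO2 := cen_pos h.rot
  have hO3 := cen_pos h.rot.rot
  have hO4 := cen_pos h.rot.rot.rot
  rw [cen_rot] at hO2
  rw [cen_rot, cen_rot] at hO3
  rw [cen_rot, cen_rot, cen_rot] at hO4
  set O := cen a b c d
  obtain ⟨-, s0, s1⟩ := hx
  obtain ⟨-, s2, s3⟩ := hx'
  have d01 : 0 < det2 (a - O) (b - O) := by
    have : det2 (a - O) (b - O) = det2 (b - a) (O - a) := by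
      simp only [det2, Prod.fst_sub, Prod.snd_sub]
      ring
    rw [this]; exact hO1
  have d12 : 0 < det2 (b - O) (c - O) := by
    have : det2 (b - O) (c - O) = det2 (c - b) (O - b) := by
      simp only [det2, Prod.fst_sub, Prod.snd_sub]
      ring
    rw [this]; exact hO2
  have d23 : 0 < det2 (c - O) (d - O) := by
    have : det2 (c - O) (d - O) = det2 (d - c) (O - c) := by
      simp only [det2, Prod.fst_sub, Prod.snd_sub]
      ring
    rw [this]; exact hO3
  have d30 : 0 < det2 (d - O) (a - O) := by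
    have : det2 (d - O) (a - O) = det2 (a - d) (O - d) := by
      simp only [det2, Prod.fst_sub, Prod.snd_sub]
      ring
    rw [this]; exact hO4
  have p1 : -(det2 (a - O) (c - O)) * det2 (x - O) (b - O) =
      det2 (a - O) (b - O) * det2 (c - O) (x - O) + det2 (b - O) (c - O) * det2 (a - O) (x - O) := by
    simp only [det2, Prod.fst_sub, Prod.snd_sub]
    ring
  have p2 : det2 (a - O) (c - O) * det2 (x - O) (d - O) =
      det2 (c - O) (d - O) * det2 (a - O) (x - O) + det2 (d - O) (a - O) * det2 (c - O) (x - O) := by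
    simp only [det2, Prod.fst_sub, Prod.snd_sub]
    ring
  have q1 : 0 < -(det2 (a - O) (c - O)) * det2 (x - O) (b - O) := by
    rw [p1]
    positivity
  have q2 : 0 < det2 (a - O) (c - O) * det2 (x - O) (d - O) := by
    rw [p2]
    positivity
  have r1 : 0 < -(det2 (a - O) (c - O)) := (pos_iff_pos_of_mul_pos q1).2 s1
  have r2 : 0 < det2 (a - O) (c - O) := (pos_iff_pos_of_mul_pos q2).2 s3
  linarith

/-- neighbouring sectors are disjoint -/
theorem nbr {a b c O x : P2} (hx : InS a b O x) (hx' : InS b c O x) : False := by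
  obtain ⟨-, -, s1⟩ := hx
  obtain ⟨-, s2, -⟩ := hx'
  have : det2 (x - O) (b - O) = -det2 (b - O) (x - O) := by
    simp only [det2, Prod.fst_sub, Prod.snd_sub]
    ring
  linarith

/-! ### null lines -/

/-- `x ↦ det2 v x` -/
def detL (v : P2) : P2 →ₗ[ℝ] ℝ where
  toFun x := det2 v x
  map_add' x y := by
    simp only [det2, Prod.fst_add, Prod.snd_add]
    ring
  map_smul' c x := by
    simp only [det2, Prod.smul_fst, Prod.smul_snd, smul_eq_mul, RingHom.id_apply]
    ring

theorem null_line (v O : P2) (hv : v ≠ 0) : volume {x : P2 | det2 v (x - O) = 0} = 0 := by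
  have h1 : volume ((LinearMap.ker (detL v) : Submodule ℝ P2) : Set P2) = 0 := by
    apply Measure.addHaar_submodule
    intro htop
    have h := LinearMap.ker_eq_top.1 htop
    apply hv
    have e1 : det2 v (0, 1) = 0 := by
      have : detL v (0, 1) = 0 := by rw [h]; rfl
      exact this
    have e2 : det2 v (1, 0) = 0 := by
      have : detL v (1, 0) = 0 := by rw [h]; rfl
      exact this
    simp only [det2, mul_one, mul_zero, sub_zero, zero_sub] at e1 e2
    ext
    · exact e1
    · exact neg_eq_zero.1 e2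
  have h2 : {x : P2 | det2 v (x - O) = 0} =
      (fun x => x + (-O)) ⁻¹' ((LinearMap.ker (detL v) : Submodule ℝ P2) : Set P2) := by
    ext x
    simp only [mem_preimage, SetLike.mem_coe, LinearMap.mem_ker, ← sub_eq_add_neg]
    rfl
  rw [h2, measure_preimage_add_right]
  exact h1

/-! ### lengths -/

theorem dot2_self_nonneg (u : P2) : 0 ≤ dot2 u u := by
  simp only [dot2]
  nlinarith [mul_self_nonneg u.1, mul_self_nonneg u.2]

theorem nrm_nonneg (u : P2) : 0 ≤ nrm u := Real.sqrt_nonneg _

theorem nrm_sq (u : P2) : nrm u * nrm u = dot2 u u := Real.mul_self_sqrt (dot2_self_nonneg u)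

theorem abs_dot2_le (u v : P2) : |dot2 u v| ≤ nrm u * nrm v := by
  have h : dot2 u v ^ 2 ≤ (nrm u * nrm v) ^ 2 := by
    have e : (nrm u * nrm v) ^ 2 = dot2 u u * dot2 v v := by
      rw [← nrm_sq, ← nrm_sq]
      ring
    rw [e]
    simp only [dot2]
    nlinarith [sq_nonneg (u.1 * v.2 - u.2 * v.1)]
  exact abs_le_of_sq_le_sq h (mul_nonneg (nrm_nonneg u) (nrm_nonneg v))

theorem area_le {a b c d : P2} (h : Cyc a b c d) {A p : ℝ}
    (hA : 2 * A = det2 (c - a) (d - b))
    (hp : p = nrm (b - a) + nrm (c - b) + nrm (d - c) + nrm (a - d)) :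
    2 * nrm (b - a) * A ≤ 4 * det2 (b - a) (cen a b c d - a) * p := by
  have hO : 4 * det2 (b - a) (cen a b c d - a) = det2 (b - a) (c - a) + det2 (b - a) (d - a) := by
    simp only [det2, cen, Prod.fst_sub, Prod.snd_sub, Prod.smul_fst, Prod.smul_snd, smul_eq_mul,
      Prod.fst_add, Prod.snd_add]
    ring
  rw [hO]
  obtain ⟨h1, h2, -, -⟩ := h
  set l := nrm (b - a) with hl
  set Y2 := det2 (b - a) (c - a) with hY2
  set Y3 := det2 (b - a) (d - a) with hY3
  set X2 := dot2 (b - a) (c - a) with hX2
  set X3 := dot2 (b - a) (d - a) with hX3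
  have hl0 : 0 ≤ l := nrm_nonneg _
  have hll : l * l = dot2 (b - a) (b - a) := nrm_sq _
  have c1 : |l * l - X2| ≤ l * nrm (c - b) := by
    have e : l * l - X2 = -dot2 (b - a) (c - b) := by
      rw [hll, hX2]
      simp only [dot2, Prod.fst_sub, Prod.snd_sub]
      ring
    rw [e, abs_neg]
    exact abs_dot2_le _ _
  have c2 : |X2 - X3| ≤ l * nrm (d - c) := by
    have e : X2 - X3 = -dot2 (b - a) (d - c) := by
      rw [hX2, hX3]
      simp only [dot2, Prod.fst_sub, Prod.snd_sub]
      ring
    rw [e, abs_neg]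
    exact abs_dot2_le _ _
  have c3 : |X3| ≤ l * nrm (a - d) := by
    have e : X3 = -dot2 (b - a) (a - d) := by
      rw [hX3]
      simp only [dot2, Prod.fst_sub, Prod.snd_sub]
      ring
    rw [e, abs_neg]
    exact abs_dot2_le _ _
  have e : l * l * (2 * A) = (l * l - X2) * Y2 + (X2 - X3) * (Y2 + Y3) + X3 * Y3 := by
    rw [hA, hll, hX2, hX3, hY2, hY3]
    simp only [dot2, det2, Prod.fst_sub, Prod.snd_sub]
    ring
  have m1 : (l * l - X2) * Y2 ≤ (l * nrm (c - b)) * (Y2 + Y3) := by
    have := (le_abs_self (l * l - X2)).trans c1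
    calc (l * l - X2) * Y2 ≤ (l * nrm (c - b)) * Y2 := mul_le_mul_of_nonneg_right this h1.le
      _ ≤ (l * nrm (c - b)) * (Y2 + Y3) := mul_le_mul_of_nonneg_left (by linarith)
          (mul_nonneg hl0 (nrm_nonneg _))
  have m2 : (X2 - X3) * (Y2 + Y3) ≤ (l * nrm (d - c)) * (Y2 + Y3) :=
    mul_le_mul_of_nonneg_right ((le_abs_self _).trans c2) (by linarith)
  have m3 : X3 * Y3 ≤ (l * nrm (a - d)) * (Y2 + Y3) := by
    have := (le_abs_self X3).trans c3
    calc X3 * Y3 ≤ (l * nrm (a - d)) * Y3 := mul_le_mul_of_nonneg_right this h2.le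
      _ ≤ (l * nrm (a - d)) * (Y2 + Y3) := mul_le_mul_of_nonneg_left (by linarith)
          (mul_nonneg hl0 (nrm_nonneg _))
  have m4 : 0 ≤ (l * l) * (Y2 + Y3) := mul_nonneg (mul_nonneg hl0 hl0) (by linarith)
  have tot : l * (l * (2 * A)) ≤ l * ((Y2 + Y3) * p) := by
    rw [hp]
    nlinarith
  have hlpos : 0 < l := by
    rcases hl0.lt_or_eq with h | h
    · exact h
    · exfalso
      have hz : dot2 (b - a) (b - a) = 0 := by rw [← hll, ← h]; ring
      simp only [dot2] at hz
      have z1 : (b - a).1 = 0 := by nlinarith [mul_self_nonneg (b - a).1, mul_self_nonneg (b - a).2]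
      have z2 : (b - a).2 = 0 := by nlinarith [mul_self_nonneg (b - a).1, mul_self_nonneg (b - a).2]
      rw [hY2] at h1
      simp only [det2, z1, z2] at h1
      linarith
  have := le_of_mul_le_mul_left tot hlpos
  linarith

theorem cyc_of {q : Fin 4 → P2} (h : Ccw q) : Cyc (q 0) (q 1) (q 2) (q 3) :=
  ⟨h 0 2 (by decide) (by decide), h 0 3 (by decide) (by decide), h 1 3 (by decide) (by decide),
    h 2 0 (by decide) (by decide)⟩

theorem qc_eq (q : Fin 4 → P2) : qc q = cen (q 0) (q 1) (q 2) (q 3) := rfl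

theorem e1 : (1 : Fin 4) + 1 = 2 := rfl
theorem e2 : (2 : Fin 4) + 1 = 3 := rfl
theorem e3 : (3 : Fin 4) + 1 = 0 := rfl

theorem cont_det (u v : P2) : Continuous fun x : P2 => det2 u (x - v) := by
  unfold det2
  fun_prop

theorem cont_det' (u v : P2) : Continuous fun x : P2 => det2 (x - v) u := by
  unfold det2
  fun_prop

end UpgAux

open UpgAux in
/-- UPG -/
theorem upg (hq : QdaStatement) : UpgStatement := by
  intro q h
  obtain ⟨-, -, -, -, hquad⟩ := hq q h
  have hc := cyc_of h
  have hc1 := hc.rot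
  have hc2 := hc1.rot
  have hc3 := hc2.rot
  have o1 : cen (q 1) (q 2) (q 3) (q 0) = qc q := by rw [cen_rot, qc_eq]
  have o2 : cen (q 2) (q 3) (q 0) (q 1) = qc q := by rw [cen_rot, o1]
  have o3 : cen (q 3) (q 0) (q 1) (q 2) = qc q := by rw [cen_rot, o2]
  have k0 := cen_pos hc
  have k1 := cen_pos hc1
  have k2 := cen_pos hc2
  have k3 := cen_pos hc3
  rw [← qc_eq] at k0
  rw [o1] at k1
  rw [o2] at k2
  rw [o3] at k3
  have area : 2 * det2 (qa q) (qb q) = det2 (q 2 - q 0) (q 3 - q 1) := by
    simp only [qa, qb, det2, Prod.fst_sub, Prod.snd_sub, Prod.smul_fst, Prod.smul_snd, smul_eq_mul,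
      Prod.fst_add, Prod.snd_add]
    ring
  have hper : per q = nrm (q 1 - q 0) + nrm (q 2 - q 1) + nrm (q 3 - q 2) + nrm (q 0 - q 3) := by
    simp only [per, Fin.sum_univ_four, zero_add, e1, e2, e3]
  refine ⟨?_, ?_, ?_, ?_, ?_, ?_, ?_⟩
  · intro i
    exact ((isOpen_lt continuous_const (cont_det _ _)).inter
      ((isOpen_lt continuous_const (cont_det _ _)).inter
        (isOpen_lt continuous_const (cont_det' _ _))))
  · refine forall4 ?_ ?_ ?_ ?_
    · intro x hx
      rw [hquad]
      obtain ⟨a0, a1, a2, a3⟩ := sub_quad hc hx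
      exact forall4 a0 a1 a2 a3
    · intro x hx
      rw [hquad]
      have hx' : InS (q 1) (q 2) (cen (q 1) (q 2) (q 3) (q 0)) x := by
        rw [o1]
        exact hx
      obtain ⟨a1, a2, a3, a0⟩ := sub_quad hc1 hx'
      exact forall4 a0 a1 a2 a3
    · intro x hx
      rw [hquad]
      have hx' : InS (q 2) (q 3) (cen (q 2) (q 3) (q 0) (q 1)) x := by
        rw [o2]
        exact hx
      obtain ⟨a2, a3, a0, a1⟩ := sub_quad hc2 hx'
      exact forall4 a0 a1 a2 a3
    · intro x hx
      rw [hquad]
      have hx' : InS (q 3) (q 0) (cen (q 3) (q 0) (q 1) (q 2)) x := by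
        rw [o3]
        exact hx
      obtain ⟨a3, a0, a1, a2⟩ := sub_quad hc3 hx'
      exact forall4 a0 a1 a2 a3
  · have n01 : ∀ x, x ∈ sect q 0 → x ∈ sect q 1 → False := fun x h0 h1 => nbr h0 h1
    have n12 : ∀ x, x ∈ sect q 1 → x ∈ sect q 2 → False := fun x h0 h1 => nbr h0 h1
    have n23 : ∀ x, x ∈ sect q 2 → x ∈ sect q 3 → False := fun x h0 h1 => nbr h0 h1
    have n30 : ∀ x, x ∈ sect q 3 → x ∈ sect q 0 → False := fun x h0 h1 => nbr h0 h1
    have n02 : ∀ x, x ∈ sect q 0 → x ∈ sect q 2 → False := fun x h0 h1 => opp hc h0 h1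
    have n13 : ∀ x, x ∈ sect q 1 → x ∈ sect q 3 → False := fun x h0 h1 => by
      have h0' : InS (q 1) (q 2) (cen (q 1) (q 2) (q 3) (q 0)) x := by
        rw [o1]
        exact h0
      have h1' : InS (q 3) (q 0) (cen (q 1) (q 2) (q 3) (q 0)) x := by
        rw [o1]
        exact h1
      exact opp hc1 h0' h1'
    intro i j hij
    rw [Set.disjoint_left]
    intro x hi hj
    fin_cases i <;> fin_cases j <;> first
      | exact hij rfl
      | exact n01 x hi hj
      | exact n01 x hj hi
      | exact n12 x hi hj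
      | exact n12 x hj hi
      | exact n23 x hi hj
      | exact n23 x hj hi
      | exact n30 x hi hj
      | exact n30 x hj hi
      | exact n02 x hi hj
      | exact n02 x hj hi
      | exact n13 x hi hj
      | exact n13 x hj hi
  · have hsub : quad q \ ⋃ i, sect q i ⊆ ⋃ i, {x : P2 | det2 (q i - qc q) (x - qc q) = 0} := by
      rintro x ⟨hx, hn⟩
      rw [hquad] at hx
      by_contra hcon
      simp only [mem_iUnion, Set.mem_ofPred_eq, not_exists] at hcon hn
      have s0 := hcon 0
      have s1 := hcon 1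
      have s2 := hcon 2
      have s3 := hcon 3
      have hsum : det2 (q 0 - qc q) (x - qc q) + det2 (q 1 - qc q) (x - qc q) +
          det2 (q 2 - qc q) (x - qc q) + det2 (q 3 - qc q) (x - qc q) = 0 := by
        simp only [qc, det2, Prod.fst_sub, Prod.snd_sub, Prod.smul_fst, Prod.smul_snd, smul_eq_mul,
          Prod.fst_add, Prod.snd_add]
        ring
      have flip : ∀ u v : P2, det2 (x - u) (v - u) = -det2 (v - u) (x - u) := by
        intro u v
        simp only [det2]
        ring
      have t0 : 0 < det2 (q 0 - qc q) (x - qc q) → 0 < det2 (q 1 - qc q) (x - qc q) := by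
        intro hp
        by_contra hneg
        apply hn 0
        refine ⟨hx 0, hp, ?_⟩
        have : det2 (x - qc q) (q (0 + 1) - qc q) = -det2 (q 1 - qc q) (x - qc q) := flip _ _
        rw [this]
        rcases lt_trichotomy (det2 (q 1 - qc q) (x - qc q)) 0 with h | h | h
        · linarith
        · exact absurd h s1
        · exact absurd h hneg
      have t1 : 0 < det2 (q 1 - qc q) (x - qc q) → 0 < det2 (q 2 - qc q) (x - qc q) := by
        intro hp
        by_contra hneg
        apply hn 1
        refine ⟨hx 1, hp, ?_⟩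
        have : det2 (x - qc q) (q (1 + 1) - qc q) = -det2 (q 2 - qc q) (x - qc q) := flip _ _
        rw [this]
        rcases lt_trichotomy (det2 (q 2 - qc q) (x - qc q)) 0 with h | h | h
        · linarith
        · exact absurd h s2
        · exact absurd h hneg
      have t2 : 0 < det2 (q 2 - qc q) (x - qc q) → 0 < det2 (q 3 - qc q) (x - qc q) := by
        intro hp
        by_contra hneg
        apply hn 2
        refine ⟨hx 2, hp, ?_⟩
        have : det2 (x - qc q) (q (2 + 1) - qc q) = -det2 (q 3 - qc q) (x - qc q) := flip _ _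
        rw [this]
        rcases lt_trichotomy (det2 (q 3 - qc q) (x - qc q)) 0 with h | h | h
        · linarith
        · exact absurd h s3
        · exact absurd h hneg
      have t3 : 0 < det2 (q 3 - qc q) (x - qc q) → 0 < det2 (q 0 - qc q) (x - qc q) := by
        intro hp
        by_contra hneg
        apply hn 3
        refine ⟨hx 3, hp, ?_⟩
        have : det2 (x - qc q) (q (3 + 1) - qc q) = -det2 (q 0 - qc q) (x - qc q) := flip _ _
        rw [this]
        rcases lt_trichotomy (det2 (q 0 - qc q) (x - qc q)) 0 with h | h | h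
        · linarith
        · exact absurd h s0
        · exact absurd h hneg
      rcases lt_or_gt_of_ne s0 with h0 | h0
      · -- all are negative or one is positive
        have h3 : ¬ 0 < det2 (q 3 - qc q) (x - qc q) := fun h => absurd (t3 h) (by linarith)
        have h2 : ¬ 0 < det2 (q 2 - qc q) (x - qc q) := fun h => h3 (t2 h)
        have h1 : ¬ 0 < det2 (q 1 - qc q) (x - qc q) := fun h => h2 (t1 h)
        push Not at h1 h2 h3
        linarith
      · have h1 := t0 h0
        have h2 := t1 h1
        have h3 := t2 h2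
        linarith
    refine measure_mono_null hsub ?_
    rw [measure_iUnion_null_iff]
    intro i
    apply null_line
    -- `q i ≠ qc q`
    intro hz
    have hz' : q i = qc q := sub_eq_zero.1 hz
    revert hz'
    revert i
    refine forall4 ?_ ?_ ?_ ?_
    · intro _ hz'
      rw [← hz'] at k0
      simp [det2] at k0
    · intro _ hz'
      rw [← hz'] at k1
      simp [det2] at k1
    · intro _ hz'
      rw [← hz'] at k2
      simp [det2] at k2
    · intro _ hz'
      rw [← hz'] at k3
      simp [det2] at k3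
  · simp only [Fin.sum_univ_four, zero_add, e1, e2, e3, qc, qa, qb, det2, Prod.fst_sub,
      Prod.snd_sub, Prod.smul_fst, Prod.smul_snd, smul_eq_mul, Prod.fst_add, Prod.snd_add]
    ring
  · exact forall4 k0 k1 k2 k3
  · refine forall4 ?_ ?_ ?_ ?_
    · exact area_le hc area hper
    · have := area_le hc1 (A := det2 (qa q) (qb q)) (p := per q) (by
        rw [area]
        simp only [det2, Prod.fst_sub, Prod.snd_sub]
        ring) (by rw [hper]; ring)
      rw [o1] at this
      exact this
    · have := area_le hc2 (A := det2 (qa q) (qb q)) (p := per q) (by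
        rw [area]
        simp only [det2, Prod.fst_sub, Prod.snd_sub]
        ring) (by rw [hper]; ring)
      rw [o2] at this
      exact this
    · have := area_le hc3 (A := det2 (qa q) (qb q)) (p := per q) (by
        rw [area]
        simp only [det2, Prod.fst_sub, Prod.snd_sub]
        ring) (by rw [hper]; ring)
      rw [o3] at this
      exact this

end Pool.SqDrum
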