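import Mathlib
import Pool.Agent.Lib.MP_2805c2_an.SQ.Iface

set_option autoImplicit false

namespace Pool.SqDrum

open MeasureTheory Set Filter Topology
open scoped ENNReal ContDiff InnerProductSpace

theorem upq_res (hV : VanStatement) {Ω : Set P2} (hΩ : IsOpen Ω) :
    (ind Ω).comp (res Ω) = res Ω := by
  ext1 f
  exact hV Ω hΩ _ ((co Ω 0).adjoint f).2 0

theorem upq_union (hI : HsiStatement) (S : Fin 4 → Set P2) (hS : ∀ i, MeasurableSet (S i))
    (hd : ∀ i j, i ≠ j → Disjoint (S i) (S j)) (K : L2 →L[ℝ] L2) :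
    hs ((ind (⋃ i, S i)).comp K) = ∑ i, hs ((ind (S i)).comp K) := by
  obtain ⟨h1, -, -⟩ := hI
  have e : (⋃ i, S i) = ((S 0 ∪ S 1) ∪ S 2) ∪ S 3 := by
    ext x
    simp only [mem_iUnion, mem_union, Fin.exists_fin_succ]
    simp only [Fin.succ_zero_eq_one, Fin.succ_one_eq_two]
    have : (Fin.succ 2 : Fin 4) = 3 := rfl
    simp only [IsEmpty.exists_iff, or_false]
    tauto
  rw [e, h1 K _ _ (((hS 0).union (hS 1)).union (hS 2)) (hS 3)
      (((hd 0 3 (by decide)).union_left (hd 1 3 (by decide))).union_left (hd 2 3 (by decide))),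
    h1 K _ _ ((hS 0).union (hS 1)) (hS 2) ((hd 0 2 (by decide)).union_left (hd 1 2 (by decide))),
    h1 K _ _ (hS 0) (hS 1) (hd 0 1 (by decide)), Fin.sum_univ_four]

theorem upq (hA : UpaStatement) (hG : UpgStatement) (hI : HsiStatement) (hV : VanStatement) :
    UpqStatement := by
  intro q hq
  obtain ⟨g1, g2, g3, g4, g5, g6, g7⟩ := hG q hq
  have hopen : IsOpen (quad q) := isOpen_interior
  set A : ℝ := det2 (qa q) (qb q) with hAdef
  have hApos : 0 < A := by
    rw [← g5]
    exact Finset.sum_pos (fun i _ => half_pos (g6 i)) ⟨0, Finset.mem_univ _⟩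
  let l : Fin 4 → ℝ := fun i => nrm (q (i + 1) - q i)
  let h : Fin 4 → ℝ := fun i => det2 (q (i + 1) - q i) (qc q - q i) / l i
  have hu := fun i => hA q hq i (l i) (h i) rfl rfl
  have hl : ∀ i, 0 < l i := fun i => (hu i).1
  have hh : ∀ i, 0 < h i := fun i => (hu i).2.1
  have hb := fun i => (hu i).2.2
  have hlh : ∀ i, l i * h i = det2 (q (i + 1) - q i) (qc q - q i) := fun i => by
    simp only [h]
    field_simp [(hl i).ne']
  have hper : per q = ∑ i, l i := rfl
  -- the norm is the sum over the four triangles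
  have e1 : hs (res (quad q)) = ∑ i, hs ((ind (sect q i)).comp (res (quad q))) := by
    have hae : (quad q : Set P2) =ᵐ[volume] (⋃ i, sect q i : Set P2) := by
      rw [ae_eq_set]
      refine ⟨g4, ?_⟩
      rw [sdiff_eq_empty.2 (iUnion_subset g2), measure_empty]
    have e0 : ind (quad q) = ind (⋃ i, sect q i) :=
      hI.2.2 _ _ hopen.measurableSet (MeasurableSet.iUnion fun i => (g1 i).measurableSet) hae
    rw [← upq_union hI _ (fun i => (g1 i).measurableSet) g3, ← e0, upq_res hV hopen]
  have hpi := Real.pi_pos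
  have hpi4 := Real.pi_lt_four
  -- the terms are nonnegative
  let X : Fin 4 → ℝ := fun i =>
    (l i * h i / 2 - l i * (Real.pi / 4 - 1 / (2 * h i))) / (4 * Real.pi)
  have hX0 : ∀ i, 0 ≤ X i := by
    intro i
    have hi := hh i
    have li := hl i
    have e : X i = l i * ((h i - 1) ^ 2 + (4 - Real.pi) / 2 * h i) /
        (2 * h i * (4 * Real.pi)) := by
      simp only [X]
      field_simp
      ring
    rw [e]
    have : 0 < 4 - Real.pi := by linarith
    positivity
  have hXle : ∀ i, X i ≤ (l i * h i / 2 - l i * Real.pi / 4 + l i * (per q / A)) /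
      (4 * Real.pi) := by
    intro i
    have hi := hh i
    have li := hl i
    have h7 := g7 i
    have h7' : 2 * l i * A ≤ 4 * (l i * h i) * per q := by rw [hlh i]; exact h7
    have h8 : A ≤ 2 * h i * per q := by
      have : 0 ≤ 2 * l i * (2 * h i * per q - A) := by nlinarith
      nlinarith [nonneg_of_mul_nonneg_right this (by positivity : 0 < 2 * l i)]
    have h9 : 1 / (2 * h i) ≤ per q / A := by
      rw [div_le_div_iff₀ (by positivity) hApos]
      linarith
    refine div_le_div_of_nonneg_right ?_ (by positivity)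
    have : l i * (1 / (2 * h i)) ≤ l i * (per q / A) := mul_le_mul_of_nonneg_left h9 li.le
    nlinarith
  rw [e1]
  calc ∑ i, hs ((ind (sect q i)).comp (res (quad q))) ≤ ∑ i, ENNReal.ofReal (X i) :=
        Finset.sum_le_sum fun i _ => hb i
    _ = ENNReal.ofReal (∑ i, X i) := (ENNReal.ofReal_sum_of_nonneg fun i _ => hX0 i).symm
    _ ≤ _ := by
        refine ENNReal.ofReal_le_ofReal ?_
        refine (Finset.sum_le_sum fun i _ => hXle i).trans (le_of_eq ?_)
        rw [← Finset.sum_div, Finset.sum_add_distrib, Finset.sum_sub_distrib]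
        have s1 : ∑ i, l i * h i / 2 = A := by
          rw [← g5]
          exact Finset.sum_congr rfl fun i _ => by rw [hlh i]
        have s2 : ∑ i, l i * Real.pi / 4 = per q * Real.pi / 4 := by
          rw [hper, Finset.sum_mul, Finset.sum_div]
        have s3 : ∑ i, l i * (per q / A) = per q * (per q / A) := by
          rw [← Finset.sum_mul, ← hper]
        rw [s1, s2, s3]
        field_simp
        ring

end Pool.SqDrum
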