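import Mathlib
import Pool.Agent.Lib.MP_2805c2_an.SQ.Iface

set_option autoImplicit false

namespace Pool.SqDrum

open MeasureTheory Set Filter Topology
open scoped ENNReal ContDiff InnerProductSpace

theorem upv_ind_res (h : VanStatement) {Ω : Set P2} (hΩ : IsOpen Ω) :
    (ind Ω).comp (res Ω) = res Ω := by
  ext1 f
  have := h Ω hΩ (((co Ω 0).adjoint f : H Ω) : LL) (((co Ω 0).adjoint f : H Ω)).2 0
  exact this

theorem upv (h1 : ThaStatement) (h2 : MonStatement) (h3 : HsdStatement) (h4 : VanStatement)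
    (h5 : IsoStatement) (h6 : PsiStatement) : UpvStatement := by
  intro Ω hΩ hbd
  obtain ⟨C, hC, hT⟩ := h1
  obtain ⟨hpsi, hpc, -⟩ := h6
  obtain ⟨R, hR⟩ := hbd.subset_ball (0 : P2)
  have hR' : ∀ x ∈ Ω, |x.1| < |R| + 1 ∧ |x.2| < |R| + 1 := by
    intro x hx
    have h := hR hx
    rw [mem_ball_zero_iff, Prod.norm_def, max_lt_iff] at h
    simp only [Real.norm_eq_abs] at h
    have := le_abs_self R
    constructor <;> linarith [h.1, h.2]
  set r : ℝ := |R| + 1 with hr
  have hr0 : 0 < r := by positivity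
  set v : P2 := (0, r) with hv
  have hSim : Sim 1 (fun x : P2 => x + v) := by
    refine ⟨1, 0, 0, r, 1, Or.inl rfl, by norm_num, fun x => ?_⟩
    ext <;> simp [hv]
  set Ω' : Set P2 := (fun x : P2 => x + v) '' Ω with hΩ'
  have hpre : Ω' = (fun x : P2 => x + -v) ⁻¹' Ω := by
    rw [hΩ', Set.image_add_right]
  have hop : IsOpen Ω' := by
    rw [hpre]; exact hΩ.preimage (by fun_prop)
  have hvol : volume Ω' = volume Ω := by
    rw [hpre]; exact measure_preimage_add_right volume (-v) Ω
  have hiso := h5 (fun x : P2 => x + v) Ω Ω hSim hΩ hΩ.measurableSet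
  rw [← hΩ', upv_ind_res h4 hop, upv_ind_res h4 hΩ] at hiso
  rw [← hiso]
  have hsub : ∀ M : ℝ, 2 * r ≤ M → Ω' ⊆ Sq (-r) 0 M := by
    rintro M hM _ ⟨x, hx, rfl⟩
    obtain ⟨a1, a2⟩ := hR' x hx
    rw [abs_lt] at a1 a2
    refine ⟨⟨?_, ?_⟩, ⟨?_, ?_⟩⟩ <;> simp only [hv, Prod.fst_add, Prod.snd_add] <;>
      linarith [a1.1, a1.2, a2.1, a2.2]
  have hfin : volume Ω' ≠ ⊤ := by
    rw [hvol]; exact hbd.measure_lt_top.ne
  have : IsFiniteMeasure ((volume : Measure P2).restrict Ω') := ⟨by
    rw [Measure.restrict_apply_univ]; exact lt_top_iff_ne_top.2 hfin⟩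
  have hmeas : Measurable (fun x : P2 => psi x.2) := (hpc.comp continuous_snd).measurable
  have i1 : IntegrableOn (fun x : P2 => 1 - psi x.2) Ω' := by
    refine Integrable.mono' (integrable_const (1 : ℝ))
      (measurable_const.sub hmeas).aestronglyMeasurable (Eventually.of_forall fun x => ?_)
    rw [Real.norm_eq_abs, abs_le]
    have := hpsi x.2
    constructor <;> linarith [this.1, this.2]
  have hint : ∫ x in Ω', (1 - psi x.2) ≤ volume.real Ω := by
    calc ∫ x in Ω', (1 - psi x.2) ≤ ∫ x in Ω', (1 : ℝ) :=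
          setIntegral_mono_on i1 (integrable_const _) hop.measurableSet
            fun x _ => by linarith [(hpsi x.2).1]
      _ = volume.real Ω' := by simp
      _ = volume.real Ω := by rw [Measure.real, Measure.real, hvol]
  have hreal : volume.real Ω' = volume.real Ω := by rw [Measure.real, Measure.real, hvol]
  have hbound : ∀ᶠ M : ℝ in atTop, hs (res Ω') ≤
      ENNReal.ofReal (volume.real Ω / (4 * Real.pi) + C * volume.real Ω / M ^ 2) := by
    filter_upwards [eventually_ge_atTop (max 1 (2 * r))] with M hM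
    have hM1 : 1 ≤ M := le_trans (le_max_left _ _) hM
    have hM2 : 2 * r ≤ M := le_trans (le_max_right _ _) hM
    have hSqo : IsOpen (Sq (-r) 0 M) := isOpen_Ioo.prod isOpen_Ioo
    calc hs (res Ω') = hs ((ind Ω').comp (res Ω')) := by rw [upv_ind_res h4 hop]
      _ ≤ hs ((ind Ω').comp (res (Sq (-r) 0 M))) :=
          h3 _ _ (fun f g hf hg => h2 Ω' (Sq (-r) 0 M) hop hSqo (hsub M hM2) f g hf hg) Ω'
            hop.measurableSet
      _ ≤ _ := hT (-r) M Ω' hM1 hop.measurableSet (hsub M hM2)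
      _ ≤ _ := by
          apply ENNReal.ofReal_le_ofReal
          rw [hreal]
          have := Real.pi_pos
          gcongr
  have hlim : Tendsto (fun M : ℝ => ENNReal.ofReal (volume.real Ω / (4 * Real.pi) +
      C * volume.real Ω / M ^ 2)) atTop (𝓝 (ENNReal.ofReal (volume.real Ω / (4 * Real.pi)))) := by
    apply ENNReal.tendsto_ofReal
    have h7 : Tendsto (fun M : ℝ => C * volume.real Ω / M ^ 2) atTop (𝓝 0) :=
      tendsto_const_nhds.div_atTop (tendsto_pow_atTop (by norm_num))
    simpa using tendsto_const_nhds.add h7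
  exact ge_of_tendsto hlim hbound

end Pool.SqDrum
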