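import Mathlib
import Pool.Agent.Lib.MP_2805c2_an.SQ.Iface

set_option autoImplicit false

namespace Pool.SqDrum

open MeasureTheory Set Filter Topology
open scoped ENNReal ContDiff InnerProductSpace

theorem van_aux {Ω : Set P2} (hΩ : IsOpen Ω) {g : P2 → ℝ} (hg : MemLp g 2 (volume : Measure P2))
    (h : ∀ x, x ∉ Ω → g x = 0) : ind Ω (cl g) = cl g := by
  refine Lp.ext ?_
  filter_upwards [ind_coe hΩ.measurableSet (cl g), cl_coe hg] with x h1 h2
  rw [h1]
  by_cases hx : x ∈ Ω
  · simp [hx]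
  · rw [Set.indicator_of_notMem hx, h2, h x hx]

theorem van : VanStatement := by
  intro Ω hΩ F hF i
  refine H_induction (P := fun F => ind Ω (F i) = F i)
    (isClosed_eq ((ind Ω).continuous.comp (PiLp.continuous_apply 2 _ i))
      (PiLp.continuous_apply 2 _ i)) ?_ hF
  intro φ hφ
  fin_cases i
  · exact van_aux hΩ hφ.memLp fun x hx => hφ.eq_zero hx
  · exact van_aux hΩ hφ.pd1_memLp fun x hx => hφ.pd1_eq_zero hx
  · exact van_aux hΩ hφ.pd2_memLp fun x hx => hφ.pd2_eq_zero hx

end Pool.SqDrum
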