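import Pool.Agent.Lib.MP_2805c2_an.SQ.Iface

set_option autoImplicit false

/-!
# WCL: bounded sequences in a Hilbert space have a weak limit point
-/

namespace Pool.SqDrum

open MeasureTheory Set Filter Topology Asymptotics
open scoped ENNReal ContDiff InnerProductSpace

theorem wcl : WclStatement := by
  intro E _ _ _ u R hR
  -- closed convex hulls of the tails
  let C : ℕ → Set E := fun n => closure (convexHull ℝ (u '' Ici n))
  have hCc : ∀ n, Convex ℝ (C n) := fun n => (convex_convexHull ℝ _).closure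
  have hCcl : ∀ n, IsClosed (C n) := fun n => isClosed_closure
  have hCu : ∀ n m, n ≤ m → u m ∈ C n := fun n m h =>
    subset_closure (subset_convexHull ℝ _ ⟨m, h, rfl⟩)
  have hCm : ∀ n m, n ≤ m → C m ⊆ C n := fun n m h =>
    closure_mono (convexHull_mono (image_mono (Ici_subset_Ici.2 h)))
  have hex : ∀ n, ∃ k ∈ C n, ∀ w ∈ C n, ‖k‖ ≤ ‖w‖ := by
    intro n
    obtain ⟨k, hk, hk'⟩ := exists_norm_eq_iInf_of_complete_convex ⟨u n, hCu n n le_rfl⟩
      (hCcl n).isComplete (hCc n) (0 : E)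
    refine ⟨k, hk, fun w hw => ?_⟩
    have h1 : ‖(0 : E) - k‖ ≤ ‖(0 : E) - w‖ := by
      rw [hk']
      exact ciInf_le ⟨0, by rintro _ ⟨w, rfl⟩; exact norm_nonneg _⟩ (⟨w, hw⟩ : C n)
    simpa using h1
  choose k hk hkm using hex
  have hmono : Monotone fun n => ‖k n‖ ^ 2 := by
    intro n m h
    have := hkm n (k m) (hCm n m h (hk m))
    exact pow_le_pow_left₀ (norm_nonneg _) this 2
  have hbd : ∀ n, ‖k n‖ ^ 2 ≤ R ^ 2 := fun n =>
    pow_le_pow_left₀ (norm_nonneg _) ((hkm n (u n) (hCu n n le_rfl)).trans (hR n)) 2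
  have hbdd : BddAbove (range fun n => ‖k n‖ ^ 2) := ⟨R ^ 2, by rintro _ ⟨n, rfl⟩; exact hbd n⟩
  have hpar : ∀ n m, n ≤ m → ‖k m - k n‖ ^ 2 ≤ 2 * (‖k m‖ ^ 2 - ‖k n‖ ^ 2) := by
    intro n m h
    have h1 := parallelogram_law_with_norm ℝ (k m) (k n)
    have h2 : (2 : ℝ)⁻¹ • (k m + k n) ∈ C n := by
      have := (hCc n) (hCm n m h (hk m)) (hk n) (a := (2 : ℝ)⁻¹) (b := (2 : ℝ)⁻¹)
        (by norm_num) (by norm_num) (by norm_num)
      rwa [← smul_add] at this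
    have h3 := hkm n _ h2
    rw [norm_smul] at h3
    have h4 : ‖(2 : ℝ)⁻¹‖ = 2⁻¹ := by norm_num
    rw [h4] at h3
    have h5 : 0 ≤ ‖k n‖ := norm_nonneg _
    have h6 : (2 * ‖k n‖) ^ 2 ≤ ‖k m + k n‖ ^ 2 := by
      apply pow_le_pow_left₀ (by positivity)
      linarith
    nlinarith [h1, h6]
  set L := ⨆ n, ‖k n‖ ^ 2 with hL
  have htend : Tendsto (fun n => ‖k n‖ ^ 2) atTop (𝓝 L) := tendsto_atTop_ciSup hmono hbdd
  have hcau : CauchySeq k := by
    rw [Metric.cauchySeq_iff']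
    intro ε hε
    have h1 : ∀ᶠ n in atTop, L - ε ^ 2 / 2 < ‖k n‖ ^ 2 :=
      htend.eventually_const_lt (by nlinarith [sq_pos_of_pos hε])
    obtain ⟨N, hN⟩ := h1.exists
    refine ⟨N, fun n hn => ?_⟩
    have h2 := hpar N n hn
    have h3 : ‖k n‖ ^ 2 ≤ L := le_ciSup hbdd n
    rw [dist_eq_norm]
    refine lt_of_pow_lt_pow_left₀ 2 hε.le ?_
    linarith
  obtain ⟨K, hK⟩ := cauchySeq_tendsto_of_complete hcau
  refine ⟨K, fun S hS hS' hu => ?_⟩
  obtain ⟨N, hN⟩ := eventually_atTop.1 hu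
  refine hS.mem_of_tendsto hK ?_
  filter_upwards [eventually_ge_atTop N] with n hn
  have h1 : C n ⊆ S := by
    refine closure_minimal (convexHull_min ?_ hS') hS
    rintro _ ⟨m, hm, rfl⟩
    exact hN m (hn.trans hm)
  exact h1 (hk n)

end Pool.SqDrum
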