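import Mathlib
import Pool.Agent.Lib.MP_2805c2_an.SQ.Iface

set_option autoImplicit false

namespace Pool.SqDrum

open Filter Topology

/-- the coefficients -/
noncomputable def wrd_c {n : ℕ} (p : FormalMultilinearSeries ℝ (Fin n → ℝ) ℝ)
    (w : Σ k : ℕ, (Fin k → Fin n)) : ℝ :=
  p w.1 (fun i => Pi.single (w.2 i) 1)

theorem wrd_c_le {n : ℕ} (p : FormalMultilinearSeries ℝ (Fin n → ℝ) ℝ)
    (w : Σ k : ℕ, (Fin k → Fin n)) : |wrd_c p w| ≤ ‖p w.1‖ := by
  have h := (p w.1).le_opNorm (fun i => (Pi.single (w.2 i) 1 : Fin n → ℝ))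
  have h1 : ∏ i, ‖(Pi.single (w.2 i) 1 : Fin n → ℝ)‖ ≤ 1 := by
    refine Finset.prod_le_one (fun i _ => norm_nonneg _) (fun i _ => ?_)
    rw [Pi.norm_single]; simp
  calc |wrd_c p w| ≤ ‖p w.1‖ * ∏ i, ‖(Pi.single (w.2 i) 1 : Fin n → ℝ)‖ := h
    _ ≤ ‖p w.1‖ * 1 := mul_le_mul_of_nonneg_left h1 (norm_nonneg _)
    _ = ‖p w.1‖ := mul_one _

theorem wrd_eval {n : ℕ} (p : FormalMultilinearSeries ℝ (Fin n → ℝ) ℝ) (k : ℕ)
    (z : Fin n → ℝ) :
    p k (fun _ => z) = ∑ w : Fin k → Fin n, wrd_c p ⟨k, w⟩ * ∏ i, z (w i) := by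
  have hz : (fun _ : Fin k => z) = fun _ : Fin k => ∑ j, z j • (Pi.single j 1 : Fin n → ℝ) := by
    funext _
    funext l
    simp [Finset.sum_apply, Pi.single_apply]
  rw [hz, ContinuousMultilinearMap.map_sum]
  refine Finset.sum_congr rfl fun w _ => ?_
  rw [ContinuousMultilinearMap.map_smul_univ, smul_eq_mul, mul_comm]
  rfl

theorem wrd : WrdStatement := by
  intro n f hf
  obtain ⟨p, R, hp⟩ := hf
  obtain ⟨ρ, hρ0, hρR⟩ := ENNReal.lt_iff_exists_nnreal_btwn.1 hp.r_pos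
  have hρ0' : (0 : ℝ) < ρ := by exact_mod_cast hρ0
  have hρr : (ρ : ENNReal) < p.radius := lt_of_lt_of_le hρR hp.r_le
  have hsum := p.summable_norm_mul_pow hρr
  set r : ℝ := ρ / (n + 1) with hr
  have hn : (0 : ℝ) < n + 1 := by positivity
  have hr0 : 0 < r := div_pos hρ0' hn
  have hrle : r ≤ ρ := by
    rw [hr, div_le_iff₀ hn]
    nlinarith [Nat.cast_nonneg (α := ℝ) n]
  have key : Summable (fun w : Σ k : ℕ, (Fin k → Fin n) => |wrd_c p w| * r ^ w.1) := by
    rw [summable_sigma_of_nonneg (fun w => by positivity)]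
    refine ⟨fun k => (hasSum_fintype _).summable, ?_⟩
    refine Summable.of_nonneg_of_le (fun k => tsum_nonneg fun w => by positivity) (fun k => ?_) hsum
    rw [tsum_fintype]
    calc ∑ w : Fin k → Fin n, |wrd_c p ⟨k, w⟩| * r ^ k
        ≤ ∑ _w : Fin k → Fin n, ‖p k‖ * r ^ k :=
          Finset.sum_le_sum fun w _ => mul_le_mul_of_nonneg_right (wrd_c_le p ⟨k, w⟩) (by positivity)
      _ = ‖p k‖ * ((n : ℝ) ^ k * r ^ k) := by
          rw [Finset.sum_const, Finset.card_univ, Fintype.card_fun, Fintype.card_fin,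
            Fintype.card_fin, nsmul_eq_mul]
          push_cast
          ring
      _ ≤ ‖p k‖ * (ρ : ℝ) ^ k := by
          refine mul_le_mul_of_nonneg_left ?_ (norm_nonneg _)
          rw [← mul_pow]
          refine pow_le_pow_left₀ (by positivity) ?_ k
          rw [hr, ← mul_div_assoc, div_le_iff₀ hn]
          nlinarith [Nat.cast_nonneg (α := ℝ) n]
  refine ⟨wrd_c p, r, hr0, key, fun z hz => ?_⟩
  have hs : Summable (fun w : Σ k : ℕ, (Fin k → Fin n) => wrd_c p w * ∏ i, z (w.2 i)) := by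
    refine Summable.of_norm_bounded key fun w => ?_
    rw [norm_mul, Real.norm_eq_abs, norm_prod]
    refine mul_le_mul_of_nonneg_left ?_ (abs_nonneg _)
    calc ∏ i, ‖z (w.2 i)‖ ≤ ∏ _i : Fin w.1, r :=
          Finset.prod_le_prod (fun i _ => norm_nonneg _)
            fun i _ => (norm_le_pi_norm z (w.2 i)).trans hz
      _ = r ^ w.1 := by simp
  have hzR : z ∈ Metric.eball (0 : Fin n → ℝ) R := by
    rw [Metric.mem_eball, edist_zero_right]
    refine lt_of_le_of_lt ?_ hρR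
    rw [← ofReal_norm, ← ENNReal.ofReal_coe_nnreal]
    exact ENNReal.ofReal_le_ofReal (hz.trans hrle)
  have h1 := hp.hasSum hzR
  rw [zero_add] at h1
  have h2 := hs.hasSum
  have h3 := h2.sigma (fun k => hasSum_fintype _)
  have h4 : (fun k => ∑ w : Fin k → Fin n, wrd_c p ⟨k, w⟩ * ∏ i, z (w i)) =
      fun k => p k (fun _ => z) := by
    funext k; exact (wrd_eval p k z).symm
  simp only at h3
  rw [h4] at h3
  rw [h1.unique h3]
  exact h2

end Pool.SqDrum
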