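import Pool.Agent.Lib.MP_2805c2_an.SQ.Brg
import Pool.Agent.Lib.MP_2805c2_an.SQ.Tfn
import Pool.Agent.Lib.MP_2805c2_an.SQ.Tfi
import Pool.Agent.Lib.MP_2805c2_an.SQ.Van
import Pool.Agent.Lib.MP_2805c2_an.SQ.Trf
import Pool.Agent.Lib.MP_2805c2_an.SQ.Sim
import Pool.Agent.Lib.MP_2805c2_an.SQ.Cyc
import Pool.Agent.Lib.MP_2805c2_an.SQ.Qda
import Pool.Agent.Lib.MP_2805c2_an.SQ.Gla
import Pool.Agent.Lib.MP_2805c2_an.SQ.S1d
import Pool.Agent.Lib.MP_2805c2_an.SQ.Ort
import Pool.Agent.Lib.MP_2805c2_an.SQ.Cpl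
import Pool.Agent.Lib.MP_2805c2_an.SQ.Ibp
import Pool.Agent.Lib.MP_2805c2_an.SQ.Eig
import Pool.Agent.Lib.MP_2805c2_an.SQ.Sin
import Pool.Agent.Lib.MP_2805c2_an.SQ.Hsb
import Pool.Agent.Lib.MP_2805c2_an.SQ.Dia
import Pool.Agent.Lib.MP_2805c2_an.SQ.Lcf
import Pool.Agent.Lib.MP_2805c2_an.SQ.Tht
import Pool.Agent.Lib.MP_2805c2_an.SQ.Ptw
import Pool.Agent.Lib.MP_2805c2_an.SQ.Psi
import Pool.Agent.Lib.MP_2805c2_an.SQ.Tha
import Pool.Agent.Lib.MP_2805c2_an.SQ.Wcl
import Pool.Agent.Lib.MP_2805c2_an.SQ.Inj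
import Pool.Agent.Lib.MP_2805c2_an.SQ.Pos
import Pool.Agent.Lib.MP_2805c2_an.SQ.Lat
import Pool.Agent.Lib.MP_2805c2_an.SQ.Mon
import Pool.Agent.Lib.MP_2805c2_an.SQ.Hsd
import Pool.Agent.Lib.MP_2805c2_an.SQ.Tri
import Pool.Agent.Lib.MP_2805c2_an.SQ.Iso
import Pool.Agent.Lib.MP_2805c2_an.SQ.Upa
import Pool.Agent.Lib.MP_2805c2_an.SQ.Upg
import Pool.Agent.Lib.MP_2805c2_an.SQ.Hsi
import Pool.Agent.Lib.MP_2805c2_an.SQ.Upq
import Pool.Agent.Lib.MP_2805c2_an.SQ.Cmp
import Pool.Agent.Lib.MP_2805c2_an.SQ.Fsp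
import Pool.Agent.Lib.MP_2805c2_an.SQ.Sup
import Pool.Agent.Lib.MP_2805c2_an.SQ.Grd
import Pool.Agent.Lib.MP_2805c2_an.SQ.Upv
import Pool.Agent.Lib.MP_2805c2_an.SQ.Thb
import Pool.Agent.Lib.MP_2805c2_an.SQ.Are
import Pool.Agent.Lib.MP_2805c2_an.SQ.Qdb
import Pool.Agent.Lib.MP_2805c2_an.SQ.Glb
import Pool.Agent.Lib.MP_2805c2_an.SQ.Geo
import Pool.Agent.Lib.MP_2805c2_an.SQ.Nfm
import Pool.Agent.Lib.MP_2805c2_an.SQ.Evd
import Pool.Agent.Lib.MP_2805c2_an.SQ.Ana
import Pool.Agent.Lib.MP_2805c2_an.SQ.Fre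
import Pool.Agent.Lib.MP_2805c2_an.SQ.Ift
import Pool.Agent.Lib.MP_2805c2_an.SQ.Ker
import Pool.Agent.Lib.MP_2805c2_an.SQ.Grm
import Pool.Agent.Lib.MP_2805c2_an.SQ.Lin
import Pool.Agent.Lib.MP_2805c2_an.SQ.Sec
import Pool.Agent.Lib.MP_2805c2_an.SQ.Opx
import Pool.Agent.Lib.MP_2805c2_an.SQ.Bil
import Pool.Agent.Lib.MP_2805c2_an.SQ.Gel
import Pool.Agent.Lib.MP_2805c2_an.SQ.Trg
import Pool.Agent.Lib.MP_2805c2_an.SQ.Mel
import Pool.Agent.Lib.MP_2805c2_an.SQ.Ser
import Pool.Agent.Lib.MP_2805c2_an.SQ.Clx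
import Pool.Agent.Lib.MP_2805c2_an.SQ.Kev
import Pool.Agent.Lib.MP_2805c2_an.SQ.Nrg
import Pool.Agent.Lib.MP_2805c2_an.SQ.Ssm
import Pool.Agent.Lib.MP_2805c2_an.SQ.Ine
import Pool.Agent.Lib.MP_2805c2_an.SQ.Ino
import Pool.Agent.Lib.MP_2805c2_an.SQ.Clo
import Pool.Agent.Lib.MP_2805c2_an.SQ.Wrd
import Pool.Agent.Lib.MP_2805c2_an.SQ.Psa
import Pool.Agent.Lib.MP_2805c2_an.SQ.Iva
import Pool.Agent.Lib.MP_2805c2_an.SQ.Ivb
import Pool.Agent.Lib.MP_2805c2_an.SQ.Exe
import Pool.Agent.Lib.MP_2805c2_an.SQ.Exo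
import Pool.Agent.Lib.MP_2805c2_an.SQ.Exu
import Pool.Agent.Lib.MP_2805c2_an.SQ.Sep
import Pool.Agent.Lib.MP_2805c2_an.SQ.Orb
import Pool.Agent.Lib.MP_2805c2_an.SQ.Sym
import Pool.Agent.Lib.MP_2805c2_an.SQ.Tlb
import Pool.Agent.Lib.MP_2805c2_an.SQ.Nua
import Pool.Agent.Lib.MP_2805c2_an.SQ.Nub
import Pool.Agent.Lib.MP_2805c2_an.SQ.Nuc
import Pool.Agent.Lib.MP_2805c2_an.SQ.Nud
import Pool.Agent.Lib.MP_2805c2_an.SQ.Nue
import Pool.Agent.Lib.MP_2805c2_an.SQ.Nuf
import Pool.Agent.Lib.MP_2805c2_an.SQ.Loc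
import Pool.Agent.Lib.MP_2805c2_an.SQ.Fin

/-!
Assembly of the module theorems of project SQ (MP_2805c2_an): a convex quadrilateral which has the
same Dirichlet spectrum as a quadrilateral close to a square is congruent to it.
-/

set_option autoImplicit false

namespace Pool.SqDrum

theorem all : FinStatement := by
  have hBrg : BrgStatement := brg
  have hTfn : TfnStatement := tfn
  have hTfi : TfiStatement := tfi hTfn
  have hVan : VanStatement := van
  have hTrf : TrfStatement := trf hTfn hTfi hVan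
  have hSim : SimStatement := sim hTrf hVan
  have hCyc : CycStatement := cyc
  have hQda : QdaStatement := qda
  have hGla : GlaStatement := gla hQda
  have hS1d : S1dStatement := s1d
  have hOrt : OrtStatement := ort
  have hCpl : CplStatement := cpl hS1d hOrt
  have hIbp : IbpStatement := ibp
  have hEig : EigStatement := eig hIbp
  have hSin : SinStatement := sin
  have hHsb : HsbStatement := hsb
  have hDia : DiaStatement := dia hHsb
  have hLcf : LcfStatement := lcf hCpl hVan hEig hSin hOrt hDia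
  have hTht : ThtStatement := tht
  have hPtw : PtwStatement := ptw hTht
  have hPsi : PsiStatement := psi_thm
  have hTha : ThaStatement := tha hLcf hPtw hPsi
  have hWcl : WclStatement := wcl
  have hInj : InjStatement := inj hIbp
  have hPos : PosStatement := pos hInj hWcl
  have hLat : LatStatement := lat hWcl hPos
  have hMon : MonStatement := mon hLat
  have hHsd : HsdStatement := hsd hHsb
  have hTri : TriStatement := tri' hTha hMon hHsd hPsi
  have hIso : IsoStatement := iso hHsb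
  have hUpa : UpaStatement := upa hTri hIso hQda
  have hUpg : UpgStatement := upg hQda
  have hHsi : HsiStatement := hsi
  have hUpq : UpqStatement := upq hUpa hUpg hHsi hVan
  have hCmp : CmpStatement := cmp hCpl hVan hEig hSin hOrt
  have hFsp : FspStatement := fsp hCmp hDia hInj
  have hSup : SupStatement := sup hMon hHsd hHsi hVan
  have hGrd : GrdStatement := grd
  have hUpv : UpvStatement := upv hTha hMon hHsd hVan hIso hPsi
  have hThb : ThbStatement := thb hLcf hOrt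
  have hAre : AreStatement := are hFsp hSim hSup hGrd hUpv hThb
  have hQdb : QdbStatement := qdb hQda
  have hGlb : GlbStatement := glb hGla hUpq hFsp hSim hAre hQda hQdb hSup hThb
  have hGeo : GeoStatement := geo
  have hNfm : NfmStatement := nfm hQda
  have hEvd : EvdStatement := evd hSin hEig hOrt hCpl hVan
  have hAna : AnaStatement := ana
  have hFre : FreStatement := fre hEvd hAna hVan hInj hCmp
  have hIft : IftStatement := ift
  have hKer : KerStatement := ker
  have hGrm : GrmStatement := grm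
  have hLin : LinStatement := lin
  have hSec : SecStatement := sec
  have hOpx : OpxStatement := opx
  have hBil : BilStatement := bil_thm hTrf hQda hQdb
  have hGel : GelStatement := gel hIbp hEvd
  have hTrg : TrgStatement := trg
  have hMel : MelStatement := mel hTrg
  have hSer : SerStatement := ser hGel hMel hEvd
  have hClx : ClxStatement := clx hFre hIft hKer hGrm hLin hSec hOpx hBil hGel hMel hEvd hSer
  have hKev : KevStatement := kev hEvd hTrg
  have hNrg : NrgStatement := nrg hMel hCpl hTrg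
  have hSsm : SsmStatement := ssm hNrg
  have hIne : IneStatement := ine hClx hKev hSsm
  have hIno : InoStatement := ino hClx hKev hSsm
  have hClo : CloStatement := clo hFre hIft hKer hSec hOpx hBil hGel hMel hEvd hSer hKev
  have hWrd : WrdStatement := wrd
  have hPsa : PsaStatement := psa
  have hIva : IvaStatement := iva hWrd hPsa
  have hIvb : IvbStatement := ivb hIva hWrd hPsa
  have hExe : ExeStatement := exe
  have hExo : ExoStatement := exo
  have hExu : ExuStatement := exu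
  have hSep : SepStatement := sep
  have hOrb : OrbStatement := orb
  have hSym : SymStatement := sym
  have hTlb : TlbStatement := tlb hNrg
  have hNua : NuaStatement := nua hTlb
  have hNub : NubStatement := nub hTlb
  have hNuc : NucStatement := nuc hTlb
  have hNud : NudStatement := nud hTlb
  have hNue : NueStatement := nue hTlb
  have hNuf : NufStatement := nuf hTlb
  have hLoc : LocStatement := loc hIne hIno hClo hIvb hExe hExo hExu hSep hOrb hSym hAre hBil hSim hNua hNub hNuc hNud hNue hNuf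
  exact fin hBrg hSim hCyc hQda hGlb hGeo hNfm hLoc

end Pool.SqDrum
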