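import Pool.Agent.Lib.MP_2805c2_an.SQ.Iface

set_option autoImplicit false

/-!
# BRG: the spectrum over `EuclideanSpace ℝ (Fin 2)` and over `ℝ × ℝ`
-/

namespace Pool.SqDrum

open MeasureTheory Set Filter Topology
open scoped ENNReal ContDiff InnerProductSpace

noncomputable section

/-- coordinates -/
def brg_c : E.E2 ≃L[ℝ] P2 :=
  (EuclideanSpace.equiv (Fin 2) ℝ).trans (ContinuousLinearEquiv.finTwoArrow ℝ ℝ)

theorem brg_c_apply (x : E.E2) : brg_c x = (x 0, x 1) := rfl

theorem brg_mp : MeasurePreserving brg_c (volume : Measure E.E2) (volume : Measure P2) := by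
  have h1 := EuclideanSpace.volume_preserving_symm_measurableEquiv_toLp (Fin 2)
  have h2 := volume_preserving_finTwoArrow ℝ
  exact h2.comp h1

theorem brg_mp_symm :
    MeasurePreserving brg_c.symm (volume : Measure P2) (volume : Measure E.E2) := by
  have h := brg_mp.symm (e := brg_c.toHomeomorph.toMeasurableEquiv)
  exact h

/-- real square integrable functions on the Euclidean plane -/
abbrev brg_L : Type := Lp ℝ 2 (volume : Measure E.E2)

/-- composition with the coordinates -/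
def brg_V : L2 ≃ₗᵢ[ℝ] brg_L where
  toFun := Lp.compMeasurePreserving brg_c brg_mp
  invFun := Lp.compMeasurePreserving brg_c.symm brg_mp_symm
  map_add' := map_add _
  map_smul' := (Lp.compMeasurePreservingₗᵢ ℝ brg_c brg_mp).map_smul
  left_inv f := by
    refine Lp.ext ?_
    have h1 := Lp.coeFn_compMeasurePreserving (Lp.compMeasurePreserving brg_c brg_mp f) brg_mp_symm
    have h2 := Lp.coeFn_compMeasurePreserving f brg_mp
    have h3 := brg_mp_symm.quasiMeasurePreserving.ae h2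
    filter_upwards [h1, h3] with x e1 e3
    rw [e1, Function.comp_apply, e3, Function.comp_apply, ContinuousLinearEquiv.apply_symm_apply]
  right_inv f := by
    refine Lp.ext ?_
    have h1 := Lp.coeFn_compMeasurePreserving (Lp.compMeasurePreserving brg_c.symm brg_mp_symm f)
      brg_mp
    have h2 := Lp.coeFn_compMeasurePreserving f brg_mp_symm
    have h3 := brg_mp.quasiMeasurePreserving.ae h2
    filter_upwards [h1, h3] with x e1 e3
    rw [e1, Function.comp_apply, e3, Function.comp_apply, ContinuousLinearEquiv.symm_apply_apply]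
  norm_map' := (Lp.compMeasurePreservingₗᵢ ℝ brg_c brg_mp).norm_map

theorem brg_V_coe (f : L2) : brg_V f =ᵐ[volume] f ∘ brg_c :=
  Lp.coeFn_compMeasurePreserving f brg_mp

theorem brg_cls {φ : P2 → ℝ} (h : MemLp φ 2 (volume : Measure P2)) :
    E.cls (φ ∘ brg_c) = brg_V (cl φ) := by
  have h' : MemLp (φ ∘ brg_c) 2 (volume : Measure E.E2) := h.comp_measurePreserving brg_mp
  have e1 : E.cls (φ ∘ brg_c) =ᵐ[volume] φ ∘ brg_c := by
    simp only [E.cls, dif_pos h']
    exact h'.coeFn_toLp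
  refine Lp.ext ?_
  have e2 := brg_V_coe (cl φ)
  have e3 := brg_mp.quasiMeasurePreserving.ae (cl_coe h)
  filter_upwards [e1, e2, e3] with x h1 h2 h3
  rw [h1, h2, Function.comp_apply, Function.comp_apply, h3]

/-- composition with the coordinates, for triples -/
def brg_W : LL ≃ₗᵢ[ℝ] PiLp 2 (fun _ : Fin 3 => brg_L) :=
  LinearIsometryEquiv.piLpCongrRight 2 (fun _ => brg_V)

theorem brg_W_apply (F : LL) (i : Fin 3) : brg_W F i = brg_V (F i) := rfl

theorem brg_jet {Ω : Set P2} {φ : P2 → ℝ} (h : Test Ω φ) :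
    E.jet (φ ∘ brg_c) = brg_W (jet φ) := by
  have hd : ∀ x v, fderiv ℝ (φ ∘ brg_c) x v = fderiv ℝ φ (brg_c x) (brg_c v) := fun x v => by
    rw [ContinuousLinearEquiv.comp_right_fderiv]; rfl
  have e1 : (fun x => fderiv ℝ (φ ∘ brg_c) x (EuclideanSpace.single 0 1)) = pd1 φ ∘ brg_c := by
    funext x
    rw [hd, Function.comp_apply, pd1, brg_c_apply (EuclideanSpace.single 0 1)]
    simp
  have e2 : (fun x => fderiv ℝ (φ ∘ brg_c) x (EuclideanSpace.single 1 1)) = pd2 φ ∘ brg_c := by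
    funext x
    rw [hd, Function.comp_apply, pd2, brg_c_apply (EuclideanSpace.single 1 1)]
    simp
  unfold E.jet
  rw [e1, e2, brg_cls h.memLp, brg_cls h.pd1_memLp, brg_cls h.pd2_memLp]
  ext i : 1
  rw [brg_W_apply]
  fin_cases i <;> rfl

theorem brg_test {Ω : Set E.E2} {φ : P2 → ℝ} :
    E.TestFun Ω (φ ∘ brg_c) ↔ Test (brg_c '' Ω) φ := by
  have hts : tsupport (φ ∘ brg_c) = brg_c ⁻¹' tsupport φ :=
    tsupport_comp_eq_preimage φ brg_c.toHomeomorph
  constructor
  · rintro ⟨h1, h2, h3⟩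
    refine ⟨?_, ?_, ?_⟩
    · have := h1.comp brg_c.symm.contDiff
      have e : (φ ∘ brg_c) ∘ brg_c.symm = φ := by funext x; simp
      rwa [e] at this
    · have := h2.comp_homeomorph brg_c.symm.toHomeomorph
      have e : (φ ∘ brg_c) ∘ brg_c.symm.toHomeomorph = φ := by funext x; simp
      rwa [e] at this
    · intro y hy
      refine ⟨brg_c.symm y, h3 ?_, by simp⟩
      rw [hts]; simpa using hy
  · intro h
    refine ⟨h.smooth.comp brg_c.contDiff, h.compact.comp_homeomorph brg_c.toHomeomorph, ?_⟩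
    rw [hts]
    intro x hx
    obtain ⟨y, hy, hyx⟩ := h.sub hx
    rwa [← brg_c.injective hyx]

theorem brg_H (Ω : Set E.E2) :
    E.H10 Ω = (H (brg_c '' Ω)).map (brg_W.toLinearEquiv : LL →ₗ[ℝ] _) := by
  have hS : {F | ∃ φ, E.TestFun Ω φ ∧ F = E.jet φ} =
      (brg_W.toLinearEquiv : LL →ₗ[ℝ] _) '' {F : LL | ∃ φ, Test (brg_c '' Ω) φ ∧ F = jet φ} := by
    ext F
    constructor
    · rintro ⟨ψ, hψ, rfl⟩
      have e : (ψ ∘ brg_c.symm) ∘ brg_c = ψ := by funext x; simp
      have ht : Test (brg_c '' Ω) (ψ ∘ brg_c.symm) := brg_test.1 (by rwa [e])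
      refine ⟨jet (ψ ∘ brg_c.symm), ⟨_, ht, rfl⟩, ?_⟩
      have := brg_jet ht
      rw [e] at this
      exact this.symm
    · rintro ⟨_, ⟨φ, hφ, rfl⟩, rfl⟩
      exact ⟨φ ∘ brg_c, brg_test.2 hφ, (brg_jet hφ).symm⟩
  refine SetLike.coe_injective ?_
  unfold E.H10 H
  rw [hS, ← Submodule.map_span, Submodule.topologicalClosure_coe, Submodule.map_coe,
    Submodule.map_coe, Submodule.topologicalClosure_coe]
  exact (brg_W.toHomeomorph.image_closure _).symm

theorem brg_Eig (Ω : Set E.E2) (l : ℝ) :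
    E.eigenspace Ω l = (Eig (brg_c '' Ω) l).map (brg_W.toLinearEquiv : LL →ₗ[ℝ] _) := by
  have hin : ∀ (F G : LL) (i : Fin 3), ⟪(brg_W F) i, (brg_W G) i⟫_ℝ = ⟪F i, G i⟫_ℝ :=
    fun F G i => by rw [brg_W_apply, brg_W_apply, brg_V.inner_map_map]
  ext F
  constructor
  · rintro ⟨hF, h⟩
    rw [brg_H] at hF
    obtain ⟨F', hF', rfl⟩ := hF
    refine ⟨F', ⟨hF', fun G hG => ?_⟩, rfl⟩
    have := h (brg_W G) (by rw [brg_H]; exact ⟨G, hG, rfl⟩)
    have e : ((brg_W.toLinearEquiv : LL →ₗ[ℝ] _) F') = brg_W F' := rfl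
    rw [e, hin, hin, hin] at this
    exact this
  · rintro ⟨F', ⟨hF', h⟩, rfl⟩
    refine ⟨by rw [brg_H]; exact ⟨F', hF', rfl⟩, fun G hG => ?_⟩
    rw [brg_H] at hG
    obtain ⟨G', hG', rfl⟩ := hG
    have e : ∀ F', ((brg_W.toLinearEquiv : LL →ₗ[ℝ] _) F') = brg_W F' := fun _ => rfl
    rw [e, e, hin, hin, hin]
    exact h G' hG'

/-- **BRG** -/
theorem brg : BrgStatement := by
  intro Ω l _
  have e : (fun x : E.E2 => ((x 0, x 1) : P2)) '' Ω = brg_c '' Ω := rfl
  rw [e, E.mult, mult, brg_Eig]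
  exact LinearEquiv.finrank_map_eq brg_W.toLinearEquiv _

end

end Pool.SqDrum
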