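import Pool.Agent.Lib.MP_2805c2_an.SQ.Drum
import Pool.Agent.Lib.MP_2805c2_an.SQ.Plane

set_option autoImplicit false

/-!
The definitions of `SQ/Drum.lean` and of `SQ/Plane.lean` agree.
-/

namespace Pool.SqDrum.Drum

theorem cls_eq (g : E2 → ℝ) : (cls g : DL2) = (E.cls g : DL2) := rfl

theorem jet_eq (φ : E2 → ℝ) : (jet φ : DTrip) = (E.jet φ : DTrip) := rfl

theorem mult_eq (Ω : Set E2) (μ : ℝ) : mult Ω μ = E.mult Ω μ := rfl

end Pool.SqDrum.Drum
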