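import Mathlib
import Pool.Agent.Lib.MP_2805c2_an.SQ.Iface

set_option autoImplicit false

namespace Pool.SqDrum

open MeasureTheory Set Filter Topology Asymptotics
open scoped ENNReal ContDiff InnerProductSpace

/-! ### vanishing matrix elements -/

theorem clx_P1 {i k : ℕ × ℕ} (hi : 0 < i.1) (hk : k.1 = 0) : Pm i k = 0 := by
  unfold Pm
  split_ifs with h1 h2
  · omega
  · rw [hk]; simp
  · rfl

theorem clx_P2 {i k : ℕ × ℕ} (hk : k.2 = 0) : Pm i k = 0 := by
  unfold Pm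
  split_ifs with h1 h2
  · rw [hk]; simp
  · rw [hk]; simp
  · rfl

theorem clx_Psame (i : ℕ × ℕ) : Pm i i = 0 := by
  unfold Pm
  rw [if_neg]
  rintro ⟨-, h⟩
  omega

theorem clx_Pswap (i : ℕ × ℕ) : Pm i i.swap = 0 := by
  unfold Pm
  rw [if_neg]
  simp only [Prod.fst_swap, Prod.snd_swap]
  rintro ⟨h1, h2⟩
  omega

theorem clx_W {m n : ℕ} (hm : 0 < m) (hn : 0 < n) (hu : Uniq m n) (a b : ℝ) {i : ℕ × ℕ}
    (hi : i = (m, n) ∨ i = (n, m)) (k : ℕ × ℕ) (hk : lam 1 k = lam 1 i) : Wm a b i k = 0 := by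
  have hpos : 0 < i.1 ∧ 0 < i.2 := by rcases hi with rfl | rfl <;> exact ⟨by simpa, by simpa⟩
  have hsq : (k.1 : ℝ) ^ 2 + (k.2 : ℝ) ^ 2 = (i.1 : ℝ) ^ 2 + (i.2 : ℝ) ^ 2 := by
    unfold lam at hk
    have hpi : (0 : ℝ) < Real.pi ^ 2 := by positivity
    simp only [one_pow, div_one] at hk
    exact mul_left_cancel₀ hpi.ne' hk
  have hnat : k.1 ^ 2 + k.2 ^ 2 = i.1 ^ 2 + i.2 ^ 2 := by exact_mod_cast hsq
  unfold Wm
  rcases Nat.eq_zero_or_pos k.1 with h1 | h1
  · rw [clx_P1 hpos.1 h1, clx_P2 (i := i.swap) (k := k.swap) h1]; simp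
  rcases Nat.eq_zero_or_pos k.2 with h2 | h2
  · rw [clx_P2 h2, clx_P1 (i := i.swap) (k := k.swap) hpos.2 h2]; simp
  have hmn : k.1 ^ 2 + k.2 ^ 2 = m ^ 2 + n ^ 2 := by
    rcases hi with rfl | rfl
    · exact hnat
    · rw [hnat]; ring
  have hki : k = i ∨ k = i.swap := by
    rcases hu k.1 k.2 h1 h2 hmn with ⟨e1, e2⟩ | ⟨e1, e2⟩ <;> rcases hi with rfl | rfl
    · exact Or.inl (Prod.ext e1 e2)
    · exact Or.inr (Prod.ext e1 e2)
    · exact Or.inr (Prod.ext e1 e2)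
    · exact Or.inl (Prod.ext e1 e2)
  rcases hki with rfl | rfl
  · rw [clx_Psame, clx_Psame]; simp
  · rw [clx_Pswap, clx_Pswap]; simp

theorem clx_lam (m n : ℕ) : lam 1 (n, m) = lam 1 (m, n) := by
  unfold lam; simp only; ring

theorem clx_SS (a b : ℝ) (m n : ℕ) : SS a b (n, m) (m, n) = SS a b (m, n) (n, m) := by
  unfold SS
  refine tsum_congr fun k => ?_
  have : En (n, m) k = En (m, n) k := by unfold En; simp only; ring
  rw [this, mul_comm]

theorem clx_K2 (a b δ τ : ℝ) (i j : ℕ × ℕ) :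
    ⟪ev i, K2 a b δ τ (ev j)⟫_ℝ = ⟪ev j, K2 a b δ τ (ev i)⟫_ℝ := by
  unfold K2
  rw [real_inner_comm, frm_symm]

/-! ### asymptotics -/

theorem clx_mul {A B : ℝ → ℝ} {a b : ℝ}
    (hA : (fun t => A t - t ^ 2 * a) =O[𝓝 0] (fun t : ℝ => t ^ 3))
    (hB : (fun t => B t - t ^ 2 * b) =O[𝓝 0] (fun t : ℝ => t ^ 3)) :
    (fun t => A t * B t - t ^ 4 * (a * b)) =O[𝓝 0] (fun t : ℝ => t ^ 5) := by
  have h32 : (fun t : ℝ => t ^ 3) =O[𝓝 0] (fun t : ℝ => t ^ 2) := by
    refine IsBigO.of_bound 1 ?_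
    have : ∀ᶠ t : ℝ in 𝓝 0, ‖t‖ < 1 := by
      have := Metric.ball_mem_nhds (0 : ℝ) one_pos
      filter_upwards [this] with t ht
      simpa using ht
    filter_upwards [this] with t ht
    rw [norm_pow, norm_pow, one_mul]
    exact pow_le_pow_of_le_one (norm_nonneg _) ht.le (by norm_num)
  have hB2 : B =O[𝓝 0] (fun t : ℝ => t ^ 2) := by
    have h1 := hB.trans h32
    have h2 : (fun t : ℝ => t ^ 2 * b) =O[𝓝 0] (fun t : ℝ => t ^ 2) := by
      simpa [mul_comm] using (isBigO_refl (fun t : ℝ => t ^ 2) (𝓝 0)).const_mul_left b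
    have := h1.add h2
    simpa using this
  have h3 := hA.mul hB2
  have h4 := ((isBigO_refl (fun t : ℝ => t ^ 2) (𝓝 0)).const_mul_left a).mul hB
  have h5 : (fun t : ℝ => t ^ 3 * t ^ 2) = fun t : ℝ => t ^ 5 := by funext t; ring
  have h6 : (fun t : ℝ => t ^ 2 * t ^ 3) = fun t : ℝ => t ^ 5 := by funext t; ring
  rw [h5] at h3
  rw [h6] at h4
  refine (h3.add h4).congr_left fun t => ?_
  ring

theorem clx_curve (a b δ τ : ℝ) : AnalyticAt ℝ (curve a b δ τ) 0 := by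
  rw [analyticAt_pi_iff]
  intro i
  have hid : AnalyticAt ℝ (fun t : ℝ => t) 0 := analyticAt_id
  fin_cases i
  · exact analyticAt_const
  · exact analyticAt_const.mul (hid.pow 2)
  · exact analyticAt_const.mul (hid.pow 2)
  · exact analyticAt_const.mul hid
  · exact analyticAt_const.mul hid

theorem clx_curve0 (a b δ τ : ℝ) : curve a b δ τ 0 = 0 := by
  funext i; fin_cases i <;> simp [curve]

/-! ### the theorem -/

theorem clx (hFRE : FreStatement) (hIFT : IftStatement) (hKER : KerStatement)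
    (hGRM : GrmStatement) (hLIN : LinStatement) (hSEC : SecStatement) (hOPX : OpxStatement)
    (hBIL : BilStatement) (hGEL : GelStatement) (hMEL : MelStatement) (hEVD : EvdStatement)
    (hSER : SerStatement) : ClxStatement := by
  intro m n hm hmn hu
  have hn : 0 < n := hm.trans hmn
  set l := lam 1 (m, n) with hl
  have hyp : LSHyp AA BB l ![ev (m, n), ev (n, m)] := (hFRE m n hm hn hu).1 hmn.ne
  obtain ⟨X, Lm, sol⟩ := hIFT (H D) 2 AA BB l _ hyp
  have hLc : ContinuousAt Lm 0 := sol.anL.continuousAt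
  have an : ∀ i j, AnalyticAt ℝ (fun z => Lm z i j) 0 := fun i j =>
    (analyticAt_pi_iff.1 ((analyticAt_pi_iff.1 sol.anL) i)) j
  refine ⟨fun z => (Lm z 0 0 - Lm z 1 1) ^ 2 + 4 * Lm z 0 1 * Lm z 1 0, ?_, ?_, ?_, ?_, ?_⟩
  · exact (((an 0 0).sub (an 1 1)).pow 2).add ((analyticAt_const.mul (an 0 1)).mul (an 1 0))
  · simp only [sol.L0]; simp
  · obtain ⟨ε, hε, hker⟩ := hKER (H D) 2 AA BB l _ X Lm hyp sol
    have hgrm := hGRM (H D) 2 AA BB l _ X Lm hyp sol
    have hclose : ∀ᶠ z in 𝓝 (0 : Z5), ∀ i j, |Lm z i j - (if i = j then l else 0)| < ε / 4 := by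
      rw [eventually_all]; intro i
      rw [eventually_all]; intro j
      have hc : ContinuousAt (fun z => Lm z i j - (if i = j then l else 0)) 0 :=
        (an i j).continuousAt.sub continuousAt_const
      have h0 : Lm 0 i j - (if i = j then l else 0) = 0 := by rw [sol.L0]; simp
      have := hc.tendsto.abs
      rw [h0, abs_zero] at this
      exact this.eventually_lt_const (by linarith)
    have t1 : Tendsto (fun p : Z5 × Z5 => p.1) (𝓝 ((0, 0) : Z5 × Z5)) (𝓝 0) :=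
      continuous_fst.tendsto _
    have t2 : Tendsto (fun p : Z5 × Z5 => p.2) (𝓝 ((0, 0) : Z5 × Z5)) (𝓝 0) :=
      continuous_snd.tendsto _
    filter_upwards [t1.eventually hker, t2.eventually hker, t1.eventually hgrm,
      t2.eventually hgrm, t1.eventually hclose, t2.eventually hclose, t1.eventually hBIL,
      t2.eventually hBIL] with p k1 k2 g1 g2 c1 c2 b1 b2 hiso
    obtain ⟨G, hG, hGs⟩ := g1
    obtain ⟨G', hG', hGs'⟩ := g2
    exact hLIN (Matrix.of (Lm p.1)) (Matrix.of (Lm p.2)) G G' l ε hG hG' hGs hGs' c1 c2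
      (fun l' hl' => by
        rw [← k1 l' hl', ← k2 l' hl', ← b1.2.2.2 l', ← b2.2.2.2 l']
        exact hiso l')
  · -- first order
    have hc : AnalyticAt ℝ (fun t : ℝ => (![t, 0, 0, 0, 0] : Z5)) 0 := by
      rw [analyticAt_pi_iff]
      intro i
      fin_cases i
      · exact analyticAt_id
      all_goals exact analyticAt_const
    have h0 : (![(0 : ℝ), 0, 0, 0, 0] : Z5) = 0 := by
      funext i; fin_cases i <;> rfl
    have hO : ∀ i j, (fun t : ℝ => Lm ![t, 0, 0, 0, 0] i j - (if i = j then l else 0)) =O[𝓝 0]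
        (fun t : ℝ => t) := by
      intro i j
      have ha : AnalyticAt ℝ (fun t : ℝ => Lm ![t, 0, 0, 0, 0] i j) 0 := by
        have := an i j
        rw [← h0] at this
        exact this.fun_comp_of_eq hc rfl
      have hd := ha.differentiableAt.isBigO_sub
      simp only [h0, sol.L0, sub_zero] at hd
      exact hd
    have h1 := (hO 0 0).sub (hO 1 1)
    have h2 := hO 0 1
    have h3 := hO 1 0
    simp only [if_true, Fin.zero_eq_one_iff, if_false, sub_zero,
      Fin.one_eq_zero_iff, sub_sub_sub_cancel_right, OfNat.ofNat_ne_one] at h1 h2 h3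
    have h4 := (h1.mul h1).add ((h2.const_mul_left 4).mul h3)
    have e : (fun t : ℝ => t * t) = fun t : ℝ => t ^ 2 := by funext t; ring
    rw [e] at h4
    refine h4.congr_left fun t => ?_
    ring
  · intro a b δ τ
    -- the first order form vanishes
    have hidx : ∀ j : Fin 2, ∃ k : ℕ × ℕ, (k = (m, n) ∨ k = (n, m)) ∧
        (![ev (m, n), ev (n, m)] : Fin 2 → H D) j = ev k ∧ (k = if j = 0 then (m, n) else (n, m)) := by
      intro j
      fin_cases j
      · exact ⟨(m, n), Or.inl rfl, rfl, rfl⟩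
      · exact ⟨(n, m), Or.inr rfl, rfl, rfl⟩
    have hpos : ∀ k : ℕ × ℕ, (k = (m, n) ∨ k = (n, m)) → 0 < k.1 ∧ 0 < k.2 ∧ lam 1 k = l := by
      rintro k (rfl | rfl)
      · exact ⟨hm, hn, rfl⟩
      · exact ⟨hn, hm, clx_lam m n⟩
    have hK1 : ∀ k k' : ℕ × ℕ, (k = (m, n) ∨ k = (n, m)) → (k' = (m, n) ∨ k' = (n, m)) →
        ⟪ev k, K1 l a b (ev k')⟫_ℝ = 0 := by
      intro k k' hk hk'
      obtain ⟨p1, p2, p3⟩ := hpos k' hk'
      rw [real_inner_comm, ← p3, hGEL k' a b (ev k), hEVD.1 k, hMEL k' k a b p1 p2]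
      exact clx_W hm hn hu a b hk' k (by rw [(hpos k hk).2.2, p3])
    have hT0 : AA 0 - l • BB 0 = K0 l := by
      have := hOPX l a b δ τ
      obtain ⟨C, hC⟩ := this.bound
      have h0 := hC.self_of_nhds
      rw [clx_curve0] at h0
      have h1 : ‖(AA 0 - l • BB 0) - (K0 l + (0:ℝ) • K1 l a b + (0:ℝ) ^ 2 • K2 a b δ τ)‖ ≤ 0 := by
        simpa using h0
      refine ContinuousLinearMap.ext fun y => ?_
      have h2 := ((AA 0 - l • BB 0) - (K0 l + (0:ℝ) • K1 l a b +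
        (0:ℝ) ^ 2 • K2 a b δ τ)).le_opNorm y
      have h3 : ‖((AA 0 - l • BB 0) - (K0 l + (0:ℝ) • K1 l a b +
        (0:ℝ) ^ 2 • K2 a b δ τ)) y‖ ≤ 0 :=
        h2.trans (mul_nonpos_of_nonpos_of_nonneg h1 (norm_nonneg _))
      have h4 := norm_le_zero_iff.1 h3
      change (AA 0 - l • BB 0) y - (K0 l y + (0:ℝ) • K1 l a b y +
        (0:ℝ) ^ 2 • K2 a b δ τ y) = 0 at h4
      rw [zero_smul, zero_pow (by norm_num), zero_smul, add_zero, add_zero] at h4
      exact sub_eq_zero.1 h4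
    have hx : ∀ j : Fin 2, ∃ x : H D,
        K0 l x = -K1 l a b ((![ev (m, n), ev (n, m)] : Fin 2 → H D) j) := by
      intro j
      obtain ⟨x, hx⟩ := hyp.rng (-K1 l a b ((![ev (m, n), ev (n, m)] : Fin 2 → H D) j)) (by
        intro i
        obtain ⟨k, hk, e, -⟩ := hidx i
        obtain ⟨k', hk', e', -⟩ := hidx j
        rw [e, e', inner_neg_right, hK1 k k' hk hk', neg_zero])
      refine ⟨x, ?_⟩
      rw [← hT0, ← hx]
      rfl
    choose x hx using hx
    have hsec := hSEC (H D) 2 AA BB l _ X Lm hyp sol (curve a b δ τ) (K0 l) (K1 l a b)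
      (K2 a b δ τ) (clx_curve a b δ τ) (clx_curve0 a b δ τ) (hOPX l a b δ τ) (by
        intro i j
        obtain ⟨k, hk, e, -⟩ := hidx i
        obtain ⟨k', hk', e', -⟩ := hidx j
        rw [e, e', hK1 k k' hk hk']) x hx
    have hser : ∀ i j : Fin 2, ∀ k k' : ℕ × ℕ, (k = (m, n) ∨ k = (n, m)) →
        (k' = (m, n) ∨ k' = (n, m)) → (![ev (m, n), ev (n, m)] : Fin 2 → H D) i = ev k →
        (![ev (m, n), ev (n, m)] : Fin 2 → H D) j = ev k' →
        ⟪(![ev (m, n), ev (n, m)] : Fin 2 → H D) i, K1 l a b (x j)⟫_ℝ =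
          -SS a b k k' / Real.pi ^ 2 := by
      intro i j k k' hk hk' e e'
      obtain ⟨p1, p2, p3⟩ := hpos k hk
      obtain ⟨q1, q2, q3⟩ := hpos k' hk'
      rw [e, ← p3]
      refine hSER k k' a b p1 p2 q1 q2 (p3.trans q3.symm) (fun r hr => clx_W hm hn hu a b hk r hr)
        (x j) ?_
      rw [p3, hx j, e']
    have H00 := hsec 0 0
    have H11 := hsec 1 1
    have H01 := hsec 0 1
    have H10 := hsec 1 0
    rw [hser 0 0 (m, n) (m, n) (Or.inl rfl) (Or.inl rfl) rfl rfl] at H00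
    rw [hser 1 1 (n, m) (n, m) (Or.inr rfl) (Or.inr rfl) rfl rfl] at H11
    rw [hser 0 1 (m, n) (n, m) (Or.inl rfl) (Or.inr rfl) rfl rfl] at H01
    rw [hser 1 0 (n, m) (m, n) (Or.inr rfl) (Or.inl rfl) rfl rfl, clx_SS] at H10
    have e0 : (![ev (m, n), ev (n, m)] : Fin 2 → H D) 0 = ev (m, n) := rfl
    have e1 : (![ev (m, n), ev (n, m)] : Fin 2 → H D) 1 = ev (n, m) := rfl
    rw [e0] at H00
    rw [e1] at H11
    rw [e0, e1] at H01 H10
    rw [clx_K2 a b δ τ (n, m) (m, n)] at H10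
    set M00 := ⟪ev (m, n), K2 a b δ τ (ev (m, n))⟫_ℝ - SS a b (m, n) (m, n) / Real.pi ^ 2
      with hM00
    set M11 := ⟪ev (n, m), K2 a b δ τ (ev (n, m))⟫_ℝ - SS a b (n, m) (n, m) / Real.pi ^ 2
      with hM11
    set M01 := ⟪ev (m, n), K2 a b δ τ (ev (n, m))⟫_ℝ - SS a b (m, n) (n, m) / Real.pi ^ 2
      with hM01
    have A : (fun t : ℝ => (Lm (curve a b δ τ t) 0 0 - Lm (curve a b δ τ t) 1 1) -
        t ^ 2 * (M00 - M11)) =O[𝓝 0] (fun t : ℝ => t ^ 3) := by
      refine (H00.sub H11).congr_left fun t => ?_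
      rw [hM00, hM11, if_pos rfl, if_pos rfl]
      ring
    have B : (fun t : ℝ => Lm (curve a b δ τ t) 0 1 - t ^ 2 * M01) =O[𝓝 0]
        (fun t : ℝ => t ^ 3) := by
      refine H01.congr_left fun t => ?_
      rw [hM01, if_neg (by decide)]
      ring
    have C : (fun t : ℝ => Lm (curve a b δ τ t) 1 0 - t ^ 2 * M01) =O[𝓝 0]
        (fun t : ℝ => t ^ 3) := by
      refine H10.congr_left fun t => ?_
      rw [hM01, if_neg (by decide)]
      ring
    refine ((clx_mul A A).add ((clx_mul B C).const_mul_left 4)).congr_left fun t => ?_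
    ring

end Pool.SqDrum
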