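import Mathlib

set_option autoImplicit false

/-!
# The Dirichlet spectrum of plane domains

The same definitions as in `SQ/Plane.lean`, over named Hilbert spaces (`DL2` is `L²(ℝ²)` and
`DTrip` is `L²(ℝ²)³`).
-/

namespace Pool.SqDrum.Drum

open MeasureTheory Set
open scoped ContDiff InnerProductSpace

noncomputable section

/-- the Euclidean plane -/
abbrev E2 : Type := EuclideanSpace ℝ (Fin 2)

/-- the real Hilbert space `L²(ℝ²)` -/
def DL2 : Type := Lp ℝ 2 (volume : Measure E2)

instance instNormedL2 : NormedAddCommGroup DL2 :=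
  (Lp.instNormedAddCommGroup : NormedAddCommGroup (Lp ℝ 2 (volume : Measure E2)))

instance instInnerL2 : InnerProductSpace ℝ DL2 :=
  (L2.innerProductSpace : InnerProductSpace ℝ (Lp ℝ 2 (volume : Measure E2)))

/-- the real Hilbert space `L²(ℝ²)³` -/
def DTrip : Type := PiLp 2 (fun _ : Fin 3 => DL2)

instance instNormedTrip : NormedAddCommGroup DTrip :=
  (PiLp.normedAddCommGroup 2 (fun _ : Fin 3 => DL2))

instance instInnerTrip : InnerProductSpace ℝ DTrip :=
  (PiLp.innerProductSpace (fun _ : Fin 3 => DL2))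

/-- the components of a triple -/
def part (i : Fin 3) (F : DTrip) : DL2 := WithLp.ofLp F i

theorem part_add (i : Fin 3) (F G : DTrip) : part i (F + G) = part i F + part i G := rfl

theorem part_smul (i : Fin 3) (c : ℝ) (F : DTrip) : part i (c • F) = c • part i F := rfl

theorem part_zero (i : Fin 3) : part i 0 = 0 := rfl

/-- the class in `L²(ℝ²)` of a function (zero if it is not square integrable) -/
def cls (g : E2 → ℝ) : DL2 := by
  classical
  exact if h : MemLp g 2 (volume : Measure E2) then h.toLp g else 0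

/-- smooth functions with compact support in `Ω` -/
def TestFun (Ω : Set E2) (φ : E2 → ℝ) : Prop :=
  ContDiff ℝ ∞ φ ∧ HasCompactSupport φ ∧ tsupport φ ⊆ Ω

/-- the triple `(φ, ∂₁φ, ∂₂φ)` in `L² × L² × L²` -/
def jet (φ : E2 → ℝ) : DTrip :=
  WithLp.toLp 2 ![cls φ, cls (fun x => fderiv ℝ φ x (EuclideanSpace.single 0 1)),
    cls (fun x => fderiv ℝ φ x (EuclideanSpace.single 1 1))]

/-- `H¹₀(Ω)`: the closure of the test functions for the norm of `H¹`; its elements are the
triples `(u, ∂₁u, ∂₂u)` -/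
def H10 (Ω : Set E2) : Submodule ℝ DTrip :=
  (Submodule.span ℝ {F | ∃ φ, TestFun Ω φ ∧ F = jet φ}).topologicalClosure

/-- `F = (u, ∂₁u, ∂₂u)` is in `H¹₀(Ω)` and `-Δu = μu` in `Ω`:
`∫ ∇u·∇v = μ ∫ u v` for all `v ∈ H¹₀(Ω)` -/
def IsSolution (Ω : Set E2) (μ : ℝ) (F : DTrip) : Prop :=
  F ∈ H10 Ω ∧ ∀ G ∈ H10 Ω,
    ⟪part 1 F, part 1 G⟫_ℝ + ⟪part 2 F, part 2 G⟫_ℝ = μ * ⟪part 0 F, part 0 G⟫_ℝ

theorem IsSolution.add {Ω : Set E2} {μ : ℝ} {F F' : DTrip} (hF : IsSolution Ω μ F)
    (hF' : IsSolution Ω μ F') : IsSolution Ω μ (F + F') := by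
  refine ⟨(H10 Ω).add_mem hF.1 hF'.1, fun G hG => ?_⟩
  have e1 := hF.2 G hG
  have e2 := hF'.2 G hG
  simp only [part_add, inner_add_left]
  linarith

theorem isSolution_zero (Ω : Set E2) (μ : ℝ) : IsSolution Ω μ 0 :=
  ⟨(H10 Ω).zero_mem, fun G _ => by simp only [part_zero, inner_zero_left]; ring⟩

theorem IsSolution.smul {Ω : Set E2} {μ : ℝ} (c : ℝ) {F : DTrip} (hF : IsSolution Ω μ F) :
    IsSolution Ω μ (c • F) := by
  refine ⟨(H10 Ω).smul_mem c hF.1, fun G hG => ?_⟩
  have e1 := hF.2 G hG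
  simp only [part_smul, real_inner_smul_left]
  rw [← mul_add, e1]
  ring

/-- the space of the solutions of `-Δu = μu` in `H¹₀(Ω)` -/
def eigenspace (Ω : Set E2) (μ : ℝ) : Submodule ℝ DTrip where
  carrier := {F | IsSolution Ω μ F}
  add_mem' := IsSolution.add
  zero_mem' := isSolution_zero Ω μ
  smul_mem' := fun c _ hF => IsSolution.smul c hF

/-- the multiplicity of `μ` in the Dirichlet spectrum of `Ω` (zero if `μ` is not an
eigenvalue) -/
def mult (Ω : Set E2) (μ : ℝ) : ℕ := Module.finrank ℝ (eigenspace Ω μ)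

/-- the open domain bounded by the quadrilateral with vertices `p` -/
def drum (p : Fin 4 → E2) : Set E2 := interior (convexHull ℝ (Set.range p))

/-- convex position: the four points are the vertices of a convex quadrilateral -/
def ConvexPosition (p : Fin 4 → E2) : Prop := ∀ i, p i ∉ convexHull ℝ (p '' {j | j ≠ i})

/-- the corners of the unit square with centre `0` -/
def corner : Fin 4 → E2 := ![!₂[-1/2, -1/2], !₂[1/2, -1/2], !₂[1/2, 1/2], !₂[-1/2, 1/2]]

end

end Pool.SqDrum.Drum
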