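import Pool.Agent.Lib.MP_2805c2_an.SQ.Iface

set_option autoImplicit false

/-!
Common lemmas for EXE, EXO, EXU.
-/

namespace Pool.SqDrum

open Filter Topology Asymptotics

/-- comparison of coefficients -/
theorem exl_coeff {c : ℝ} {k : ℕ}
    (h : (fun t : ℝ => c * t ^ k) =O[𝓝 0] (fun t : ℝ => t ^ (k + 1))) : c = 0 := by
  by_contra hc
  obtain ⟨K, hK⟩ := h.bound
  have h1 : ∀ᶠ t : ℝ in 𝓝[>] 0, |c| ≤ K * t := by
    have h2 : ∀ᶠ t : ℝ in 𝓝[>] 0, ‖c * t ^ k‖ ≤ K * ‖t ^ (k + 1)‖ :=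
      hK.filter_mono nhdsWithin_le_nhds
    filter_upwards [h2, self_mem_nhdsWithin] with t ht ht0
    have ht0' : (0 : ℝ) < t := ht0
    rw [norm_mul, norm_pow, norm_pow, Real.norm_eq_abs, Real.norm_eq_abs,
      abs_of_pos ht0', pow_succ] at ht
    have h3 : 0 < t ^ k := pow_pos ht0' k
    have h4 : |c| * t ^ k ≤ (K * t) * t ^ k := by linarith
    exact le_of_mul_le_mul_right h4 h3
  have h2 : Tendsto (fun t : ℝ => K * t) (𝓝[>] 0) (𝓝 (K * 0)) :=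
    ((continuous_const.mul continuous_id).tendsto 0).mono_left nhdsWithin_le_nhds
  have h3 : |c| ≤ K * 0 := ge_of_tendsto h2 h1
  rw [mul_zero] at h3
  exact hc (abs_nonpos_iff.1 h3)

theorem exl_pow {k l : ℕ} (h : l ≤ k) :
    (fun t : ℝ => t ^ k) =O[𝓝 0] (fun t : ℝ => t ^ l) := by
  obtain ⟨n, rfl⟩ := Nat.exists_eq_add_of_le h
  have h1 : (fun t : ℝ => t ^ n) =O[𝓝 0] (fun _ : ℝ => (1 : ℝ)) :=
    (continuous_pow n).continuousAt.isBigO_one ℝ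
  have h2 := (isBigO_refl (fun t : ℝ => t ^ l) (𝓝 0)).mul h1
  simpa [pow_add] using h2

theorem exl_const (c : ℝ) {k l : ℕ} (h : l ≤ k) :
    (fun t : ℝ => c * t ^ k) =O[𝓝 0] (fun t : ℝ => t ^ l) := (exl_pow h).const_mul_left c

/-- Taylor expansion along the curves -/
theorem exl_taylor {Φ : (Fin 7 → ℝ) → ℝ} (hΦ : AnalyticAt ℝ Φ 0) :
    ∃ q : ℝ, (∀ (c : ℝ) (w : Fin 7 → ℝ), (fun t : ℝ => Φ (t ^ 2 • (c • Pi.single 1 1) + t ^ 4 • w)
      - Φ 0 - t ^ 2 * (c * fderiv ℝ Φ 0 (Pi.single 1 1))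
        - t ^ 4 * (fderiv ℝ Φ 0 w + c ^ 2 * q)) =O[𝓝 0] (fun t : ℝ => t ^ 5)) ∧
      (fun t : ℝ => Φ (t • Pi.single 0 1) - Φ 0 - t * fderiv ℝ Φ 0 (Pi.single 0 1)) =O[𝓝 0]
        (fun t : ℝ => t ^ 2) := by
  obtain ⟨p, hp⟩ := hΦ
  have h0 : ∀ v : Fin 0 → (Fin 7 → ℝ), p 0 v = Φ 0 := fun v => hp.coeff_zero v
  have h1 : ∀ v : Fin 7 → ℝ, p 1 (fun _ => v) = fderiv ℝ Φ 0 v := by
    intro v
    rw [hp.fderiv_eq]
    rfl
  have hb := hp.isBigO_sub_partialSum_pow 3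
  have hb2 := hp.isBigO_sub_partialSum_pow 2
  simp only [zero_add, FormalMultilinearSeries.partialSum, Finset.sum_range_succ,
    Finset.sum_range_zero, h0, h1] at hb hb2
  refine ⟨p 2 (fun _ => Pi.single 1 1), fun c w => ?_, ?_⟩
  · have hg : ∀ t : ℝ, t ^ 2 • (c • (Pi.single 1 1 : Fin 7 → ℝ)) + t ^ 4 • w =
        t ^ 2 • (c • (Pi.single 1 1 : Fin 7 → ℝ) + t ^ 2 • w) := fun t => by
      rw [smul_add, smul_smul (t ^ 2) (t ^ 2) w]
      ring_nf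
    have hcont : Continuous fun t : ℝ => c • (Pi.single 1 1 : Fin 7 → ℝ) + t ^ 2 • w :=
      continuous_const.add ((continuous_pow 2).smul continuous_const)
    have hbg : (fun t : ℝ => t ^ 2 • (c • (Pi.single 1 1 : Fin 7 → ℝ)) + t ^ 4 • w) =O[𝓝 0]
        (fun t : ℝ => t ^ 2) := by
      have e1 : (fun t : ℝ => c • (Pi.single 1 1 : Fin 7 → ℝ) + t ^ 2 • w) =O[𝓝 0]
          (fun _ : ℝ => (1 : ℝ)) := hcont.continuousAt.isBigO_one ℝ
      have e2 := (isBigO_refl (fun t : ℝ => t ^ 2) (𝓝 0)).smul e1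
      simp only [smul_eq_mul, mul_one] at e2
      refine e2.congr_left fun t => ?_
      exact (hg t).symm
    have hlim : Tendsto (fun t : ℝ => t ^ 2 • (c • (Pi.single 1 1 : Fin 7 → ℝ)) + t ^ 4 • w)
        (𝓝 0) (𝓝 0) := by
      have e1 : Continuous (fun t : ℝ =>
          t ^ 2 • (c • (Pi.single 1 1 : Fin 7 → ℝ)) + t ^ 4 • w) :=
        ((continuous_pow 2).smul continuous_const).add ((continuous_pow 4).smul continuous_const)
      have e2 := e1.tendsto 0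
      simpa using e2
    have e3 := hb.comp_tendsto hlim
    have e4 : (fun t : ℝ => ‖t ^ 2 • (c • (Pi.single 1 1 : Fin 7 → ℝ)) + t ^ 4 • w‖ ^ 3) =O[𝓝 0]
        (fun t : ℝ => t ^ 5) := by
      have e5 := hbg.norm_left.pow 3
      refine e5.trans ?_
      have : (fun t : ℝ => (t ^ 2) ^ 3) = fun t : ℝ => t ^ 6 := by
        funext t; ring
      rw [this]
      exact exl_pow (by norm_num)
    have e6 := e3.trans e4
    -- the quadratic term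
    have hdiff : DifferentiableAt ℝ
        (fun t : ℝ => p 2 (fun _ => c • (Pi.single 1 1 : Fin 7 → ℝ) + t ^ 2 • w)) 0 := by
      have d1 : ContDiff ℝ 1 (fun v : Fin 2 → (Fin 7 → ℝ) => p 2 v) :=
        ContinuousMultilinearMap.contDiff _
      have d2 : ContDiff ℝ 1 (fun t : ℝ => (fun _ : Fin 2 =>
          c • (Pi.single 1 1 : Fin 7 → ℝ) + t ^ 2 • w)) :=
        contDiff_pi.2 fun _ => contDiff_const.add ((contDiff_id.pow 2).smul contDiff_const)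
      exact ((d1.comp d2).differentiable (by simp)) 0
    have e7 := hdiff.isBigO_sub
    simp only [sub_zero] at e7
    have e8 := (isBigO_refl (fun t : ℝ => t ^ 4) (𝓝 0)).mul e7
    have e9 : (fun t : ℝ => t ^ 4 * t) = fun t : ℝ => t ^ 5 := by funext t; ring
    rw [e9] at e8
    refine (e6.add e8).congr_left fun t => ?_
    have q1 : p 2 (fun _ => t ^ 2 • (c • (Pi.single 1 1 : Fin 7 → ℝ)) + t ^ 4 • w) =
        t ^ 4 * p 2 (fun _ => c • (Pi.single 1 1 : Fin 7 → ℝ) + t ^ 2 • w) := by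
      rw [hg t]
      have := (p 2).map_smul_univ (fun _ => t ^ 2)
        (fun _ => c • (Pi.single 1 1 : Fin 7 → ℝ) + t ^ 2 • w)
      rw [this]
      simp only [Finset.prod_const, Finset.card_univ, Fintype.card_fin, smul_eq_mul]
      ring
    have q2 : p 2 (fun _ => c • (Pi.single 1 1 : Fin 7 → ℝ)) =
        c ^ 2 * p 2 (fun _ => (Pi.single 1 1 : Fin 7 → ℝ)) := by
      have := (p 2).map_smul_univ (fun _ => c) (fun _ => (Pi.single 1 1 : Fin 7 → ℝ))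
      rw [this]
      simp only [Finset.prod_const, Finset.card_univ, Fintype.card_fin, smul_eq_mul]
    simp only [Function.comp_apply, q1, map_add, map_smul, smul_eq_mul, ne_eq,
      OfNat.ofNat_ne_zero, not_false_eq_true, zero_pow, zero_smul, add_zero, q2]
    ring
  · have hlim : Tendsto (fun t : ℝ => t • (Pi.single 0 1 : Fin 7 → ℝ)) (𝓝 0) (𝓝 0) := by
      have e1 : Continuous (fun t : ℝ => t • (Pi.single 0 1 : Fin 7 → ℝ)) :=
        continuous_id.smul continuous_const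
      have e2 := e1.tendsto 0
      simpa using e2
    have e3 := hb2.comp_tendsto hlim
    have e4 : (fun t : ℝ => ‖t • (Pi.single 0 1 : Fin 7 → ℝ)‖ ^ 2) =O[𝓝 0]
        (fun t : ℝ => t ^ 2) := by
      have e5 : (fun t : ℝ => t • (Pi.single 0 1 : Fin 7 → ℝ)) =O[𝓝 0] (fun t : ℝ => t) := by
        have := (isBigO_refl (fun t : ℝ => t) (𝓝 0)).smul
          (isBigO_refl (fun _ : ℝ => (Pi.single 0 1 : Fin 7 → ℝ)) (𝓝 0))
        refine this.trans ?_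
        refine IsBigO.of_bound ‖(Pi.single 0 1 : Fin 7 → ℝ)‖ (Eventually.of_forall fun t => ?_)
        rw [norm_smul, mul_comm]
      exact e5.norm_left.pow 2
    refine (e3.trans e4).congr_left fun t => ?_
    simp only [Function.comp_apply, map_smul, smul_eq_mul]
    ring

/-- a linear functional in coordinates -/
theorem exl_lin (l : (Fin 7 → ℝ) →L[ℝ] ℝ) (v : Fin 7 → ℝ) :
    l v = v 0 * l (Pi.single 0 1) + v 1 * l (Pi.single 1 1) + v 2 * l (Pi.single 2 1) +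
      v 3 * l (Pi.single 3 1) + v 4 * l (Pi.single 4 1) + v 5 * l (Pi.single 5 1) +
      v 6 * l (Pi.single 6 1) := by
  have h : v = ∑ i, v i • (Pi.single i 1 : Fin 7 → ℝ) := by
    funext j
    simp [Finset.sum_apply, Pi.single_apply]
  conv_lhs => rw [h]
  rw [map_sum]
  simp only [map_smul, smul_eq_mul, Fin.sum_univ_seven]

theorem exl_gen1 (s t : ℝ) : gen (curve 1 0 s 0 t) =
    t ^ 2 • ((1 : ℝ) • (Pi.single 1 1 : Fin 7 → ℝ)) + t ^ 4 • ![0, 0, 0, 0, s ^ 2, s, 1] := by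
  funext i
  fin_cases i <;> simp [gen, curve] <;> ring

theorem exl_gen2 (s t : ℝ) : gen (curve 1 1 0 s t) =
    t ^ 2 • ((2 : ℝ) • (Pi.single 1 1 : Fin 7 → ℝ)) + t ^ 4 • ![0, 0, s ^ 2, s, 0, 0, 0] := by
  funext i
  fin_cases i <;> simp [gen, curve] <;> ring

theorem exl_gen0 (t : ℝ) : gen ![t, 0, 0, 0, 0] = t • (Pi.single 0 1 : Fin 7 → ℝ) := by
  funext i
  fin_cases i <;> simp [gen]

theorem exl_gen_zero : gen 0 = 0 := by
  funext i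
  fin_cases i <;> simp [gen]

theorem exl_curve_tendsto (a b δ τ : ℝ) : Tendsto (fun t : ℝ => curve a b δ τ t) (𝓝 0) (𝓝 0) := by
  rw [tendsto_pi_nhds]
  intro i
  have h : Continuous fun t : ℝ => curve a b δ τ t i := by
    fin_cases i <;> simp [curve] <;> fun_prop
  have h2 := h.tendsto 0
  have h3 : curve a b δ τ 0 i = 0 := by fin_cases i <;> simp [curve]
  rwa [h3] at h2

theorem exl_line_tendsto : Tendsto (fun t : ℝ => (![t, 0, 0, 0, 0] : Z5)) (𝓝 0) (𝓝 0) := by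
  rw [tendsto_pi_nhds]
  intro i
  have h : Continuous fun t : ℝ => (![t, 0, 0, 0, 0] : Z5) i := by
    fin_cases i <;> simp <;> fun_prop
  have h2 := h.tendsto 0
  have h3 : (![0, 0, 0, 0, 0] : Z5) i = 0 := by fin_cases i <;> simp
  rwa [h3] at h2

/-- two coefficients -/
theorem exl_two {A B : ℝ}
    (h : (fun t : ℝ => A * t ^ 2 + B * t ^ 4) =O[𝓝 0] (fun t : ℝ => t ^ 5)) : A = 0 ∧ B = 0 := by
  have h1 : (fun t : ℝ => A * t ^ 2) =O[𝓝 0] (fun t : ℝ => t ^ 3) := by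
    have e1 := (h.trans (exl_pow (k := 5) (l := 3) (by norm_num))).sub
      (exl_const B (k := 4) (l := 3) (by norm_num))
    exact e1.congr_left fun t => by ring
  have hA : A = 0 := exl_coeff (k := 2) h1
  refine ⟨hA, exl_coeff (k := 4) (h.congr_left fun t => ?_)⟩
  rw [hA]; ring

/-- first curve -/
theorem exl_one {f : Z5 → ℝ} {Φ : (Fin 7 → ℝ) → ℝ} {q T : ℝ} (hf : ∀ᶠ z in 𝓝 (0 : Z5), f z = Φ (gen z))
    (hΦ0 : Φ 0 = 0) (s : ℝ)
    (hT : ∀ (c : ℝ) (w : Fin 7 → ℝ), (fun t : ℝ => Φ (t ^ 2 • (c • Pi.single 1 1) + t ^ 4 • w)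
      - Φ 0 - t ^ 2 * (c * fderiv ℝ Φ 0 (Pi.single 1 1))
        - t ^ 4 * (fderiv ℝ Φ 0 w + c ^ 2 * q)) =O[𝓝 0] (fun t : ℝ => t ^ 5))
    (h : (fun t : ℝ => f (curve 1 0 s 0 t) - t ^ 4 * T) =O[𝓝 0] (fun t : ℝ => t ^ 5)) :
    fderiv ℝ Φ 0 (Pi.single 1 1) = 0 ∧
      s ^ 2 * fderiv ℝ Φ 0 (Pi.single 4 1) + s * fderiv ℝ Φ 0 (Pi.single 5 1) +
        fderiv ℝ Φ 0 (Pi.single 6 1) + q = T := by
  have e1 := hT 1 ![0, 0, 0, 0, s ^ 2, s, 1]
  have e2 : ∀ᶠ t : ℝ in 𝓝 0, f (curve 1 0 s 0 t) =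
      Φ (t ^ 2 • ((1 : ℝ) • (Pi.single 1 1 : Fin 7 → ℝ)) + t ^ 4 • ![0, 0, 0, 0, s ^ 2, s, 1]) := by
    filter_upwards [(exl_curve_tendsto 1 0 s 0).eventually hf] with t ht
    rw [ht, exl_gen1]
  have e3 := h.sub e1
  have e4 : (fun t : ℝ => fderiv ℝ Φ 0 (Pi.single 1 1) * t ^ 2 +
      (s ^ 2 * fderiv ℝ Φ 0 (Pi.single 4 1) + s * fderiv ℝ Φ 0 (Pi.single 5 1) +
        fderiv ℝ Φ 0 (Pi.single 6 1) + q - T) * t ^ 4) =O[𝓝 0] (fun t : ℝ => t ^ 5) := by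
    refine e3.congr' ?_ (EventuallyEq.refl _ _)
    filter_upwards [e2] with t ht
    rw [ht, hΦ0, exl_lin (fderiv ℝ Φ 0) ![0, 0, 0, 0, s ^ 2, s, 1]]
    simp
    ring
  obtain ⟨h1, h2⟩ := exl_two e4
  exact ⟨h1, by linarith⟩

/-- second curve -/
theorem exl_snd {f : Z5 → ℝ} {Φ : (Fin 7 → ℝ) → ℝ} {q T : ℝ} (hf : ∀ᶠ z in 𝓝 (0 : Z5), f z = Φ (gen z))
    (hΦ0 : Φ 0 = 0) (s : ℝ)
    (hT : ∀ (c : ℝ) (w : Fin 7 → ℝ), (fun t : ℝ => Φ (t ^ 2 • (c • Pi.single 1 1) + t ^ 4 • w)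
      - Φ 0 - t ^ 2 * (c * fderiv ℝ Φ 0 (Pi.single 1 1))
        - t ^ 4 * (fderiv ℝ Φ 0 w + c ^ 2 * q)) =O[𝓝 0] (fun t : ℝ => t ^ 5))
    (h : (fun t : ℝ => f (curve 1 1 0 s t) - t ^ 4 * T) =O[𝓝 0] (fun t : ℝ => t ^ 5)) :
    fderiv ℝ Φ 0 (Pi.single 1 1) = 0 ∧
      s ^ 2 * fderiv ℝ Φ 0 (Pi.single 2 1) + s * fderiv ℝ Φ 0 (Pi.single 3 1) + 4 * q = T := by
  have e1 := hT 2 ![0, 0, s ^ 2, s, 0, 0, 0]
  have e2 : ∀ᶠ t : ℝ in 𝓝 0, f (curve 1 1 0 s t) =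
      Φ (t ^ 2 • ((2 : ℝ) • (Pi.single 1 1 : Fin 7 → ℝ)) + t ^ 4 • ![0, 0, s ^ 2, s, 0, 0, 0]) := by
    filter_upwards [(exl_curve_tendsto 1 1 0 s).eventually hf] with t ht
    rw [ht, exl_gen2]
  have e3 := h.sub e1
  have e4 : (fun t : ℝ => (2 * fderiv ℝ Φ 0 (Pi.single 1 1)) * t ^ 2 +
      (s ^ 2 * fderiv ℝ Φ 0 (Pi.single 2 1) + s * fderiv ℝ Φ 0 (Pi.single 3 1) + 4 * q - T)
        * t ^ 4) =O[𝓝 0] (fun t : ℝ => t ^ 5) := by
    refine e3.congr' ?_ (EventuallyEq.refl _ _)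
    filter_upwards [e2] with t ht
    rw [ht, hΦ0, exl_lin (fderiv ℝ Φ 0) ![0, 0, s ^ 2, s, 0, 0, 0]]
    simp
    ring
  obtain ⟨h1, h2⟩ := exl_two e4
  exact ⟨by linarith, by linarith⟩

/-- the value at zero and the first coordinate -/
theorem exl_start {f : Z5 → ℝ} {Φ : (Fin 7 → ℝ) → ℝ} (hf : ∀ᶠ z in 𝓝 (0 : Z5), f z = Φ (gen z))
    (hf0 : f 0 = 0)
    (hT0 : (fun t : ℝ => Φ (t • Pi.single 0 1) - Φ 0 - t * fderiv ℝ Φ 0 (Pi.single 0 1)) =O[𝓝 0]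
        (fun t : ℝ => t ^ 2))
    (h : (fun t : ℝ => f ![t, 0, 0, 0, 0]) =O[𝓝 0] (fun t : ℝ => t ^ 2)) :
    Φ 0 = 0 ∧ fderiv ℝ Φ 0 (Pi.single 0 1) = 0 := by
  have hΦ0 : Φ 0 = 0 := by
    have := hf.self_of_nhds
    rw [exl_gen_zero, hf0] at this
    exact this.symm
  refine ⟨hΦ0, exl_coeff (k := 1) ?_⟩
  have e3 := h.sub hT0
  refine e3.congr' ?_ (EventuallyEq.refl _ _)
  filter_upwards [exl_line_tendsto.eventually hf] with t ht
  rw [ht, exl_gen0, hΦ0]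
  ring

end Pool.SqDrum
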