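import Pool.Agent.Lib.MP_2805c2_an.SQ.ExL

set_option autoImplicit false

/-!
EXO: the differential of `Φ`, clusters with `m ≢ n`.
-/

namespace Pool.SqDrum

open Filter Topology Asymptotics

theorem exo : ExoStatement := by
  intro f Φ κ₁ κ₂ hΦ hf hf0 h1 h2 v v4 v5 v6
  obtain ⟨q, hT, hT0⟩ := exl_taylor hΦ
  obtain ⟨hΦ0, c0⟩ := exl_start hf hf0 hT0 h1
  have B : ∀ s : ℝ, _ := fun s => exl_snd hf hΦ0 s hT (h2 s)
  obtain ⟨c1, b0⟩ := B 0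
  have b1 := (B 1).2
  have b2 := (B (-1)).2
  rw [exl_lin (fderiv ℝ Φ 0) v, c0, c1, v4, v5, v6]
  have c2 : fderiv ℝ Φ 0 (Pi.single 2 1) = 4 * κ₁ ^ 2 := by linarith
  have c3 : fderiv ℝ Φ 0 (Pi.single 3 1) = 8 * (κ₁ * κ₂) := by linarith
  rw [c2, c3]
  ring

end Pool.SqDrum
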