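import Mathlib
import Pool.Agent.Lib.MP_2805c2_an.SQ.Evd

set_option autoImplicit false

/-!
# FRE: the Lyapunov–Schmidt data at the eigenvalues of the unit square
-/

namespace Pool.SqDrum

open MeasureTheory Set Filter Topology
open scoped ENNReal ContDiff InnerProductSpace

/-- Fredholm alternative on the orthogonal complement of an eigenspace -/
theorem fre_fred {E : Type} [NormedAddCommGroup E] [InnerProductSpace ℝ E] [CompleteSpace E]
    (T : E →L[ℝ] E) (hT : IsCompactOperator T) (hs : ∀ x y, ⟪T x, y⟫_ℝ = ⟪x, T y⟫_ℝ) {μ : ℝ}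
    (hμ : μ ≠ 0) (N : Submodule ℝ E) [N.HasOrthogonalProjection] (h1 : ∀ x ∈ N, T x = μ • x)
    (h2 : ∀ x, T x = μ • x → x ∈ N) (u : E) (hu : u ∈ Nᗮ) : ∃ x, μ • x - T x = u := by
  have hinv : ∀ x ∈ Nᗮ, T x ∈ Nᗮ := by
    intro x hx
    rw [Submodule.mem_orthogonal] at hx ⊢
    intro y hy
    rw [← hs, h1 y hy, real_inner_smul_left, hx y hy, mul_zero]
  let P : E →L[ℝ] E := N.starProjection
  let S : E →L[ℝ] E := T.comp (1 - P)
  have hSapp : ∀ x, S x = T (x - P x) := fun x => rfl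
  have hP : ∀ x, x - P x ∈ Nᗮ := fun x => N.sub_starProjection_mem_orthogonal x
  have hSN : ∀ x, S x ∈ Nᗮ := fun x => by rw [hSapp]; exact hinv _ (hP x)
  have hP0 : ∀ x ∈ Nᗮ, P x = 0 := fun x hx =>
    (Submodule.starProjection_apply_eq_zero_iff N).2 hx
  have hST : ∀ x ∈ Nᗮ, S x = T x := fun x hx => by rw [hSapp, hP0 x hx, sub_zero]
  have hSc : IsCompactOperator S := hT.comp_clm (1 - P)
  have hmem : ∀ x, μ • x ∈ Nᗮ → x ∈ Nᗮ := fun x hx => by
    have := Nᗮ.smul_mem μ⁻¹ hx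
    rwa [smul_smul, inv_mul_cancel₀ hμ, one_smul] at this
  have hne : ¬ Module.End.HasEigenvalue (S : Module.End ℝ E) μ := by
    intro h
    obtain ⟨x, hx⟩ := h.exists_hasEigenvector
    have hx1 : S x = μ • x := hx.apply_eq_smul
    have hx2 : x ∈ Nᗮ := hmem x (hx1 ▸ hSN x)
    have hx3 : x ∈ N := h2 x (by rw [← hST x hx2, hx1])
    have hx4 : ⟪x, x⟫_ℝ = 0 := (Submodule.mem_orthogonal N x).1 hx2 x hx3
    exact hx.2 (inner_self_eq_zero.1 hx4)
  have hres := (hSc.hasEigenvalue_or_mem_resolventSet hμ).resolve_left hne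
  rw [spectrum.mem_resolventSet_iff, ContinuousLinearMap.isUnit_iff_bijective] at hres
  obtain ⟨x, hx⟩ := hres.2 u
  have hx1 : μ • x - S x = u := by
    rw [← hx]; rfl
  have hx2 : x ∈ Nᗮ := by
    refine hmem x ?_
    have : μ • x = u + S x := by rw [← hx1]; abel
    rw [this]
    exact Nᗮ.add_mem hu (hSN x)
  exact ⟨x, by rw [← hST x hx2]; exact hx1⟩

theorem fre_pp : px 0 = fun _ => ((1, 0) : P2) := by
  funext x
  simp [px, va, vw]

theorem fre_py : py 0 = fun _ => ((0, 1) : P2) := by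
  funext x
  simp [py, vb, vw]

theorem fre_jc : jc (px 0) (py 0) = fun _ => 1 := by
  funext x
  rw [fre_pp, fre_py]
  simp [jc, det2]

theorem fre_c11 : c11 (px 0) (py 0) = 1 := by
  funext x
  simp only [c11, fre_jc]
  rw [fre_py]
  simp [dot2]

theorem fre_c12 : c12 (px 0) (py 0) = 0 := by
  funext x
  simp only [c12, fre_jc]
  rw [fre_py, fre_pp]
  simp [dot2]

theorem fre_c22 : c22 (px 0) (py 0) = 1 := by
  funext x
  simp only [c22, fre_jc]
  rw [fre_pp]
  simp [dot2]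

theorem fre_AA (hV : VanStatement) (F G : H D) :
    ⟪AA 0 F, G⟫_ℝ = ⟪(F : LL) 1, (G : LL) 1⟫_ℝ + ⟪(F : LL) 2, (G : LL) 2⟫_ℝ := by
  have hv : ∀ i : Fin 3, ind D ((F : LL) i) = (F : LL) i := fun i => hV D evd_open F F.2 i
  unfold AA stf
  rw [frm_inner, fre_c11, fre_c12, fre_c22, evd_one, evd_zero, hv, hv]
  simp

theorem fre_BB (hV : VanStatement) (F G : H D) :
    ⟪BB 0 F, G⟫_ℝ = ⟪(F : LL) 0, (G : LL) 0⟫_ℝ := by
  have hv : ∀ i : Fin 3, ind D ((F : LL) i) = (F : LL) i := fun i => hV D evd_open F F.2 i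
  have h1 : mul (D.indicator (jc (px 0) (py 0))) = ind D := by
    rw [fre_jc]; rfl
  unfold BB mss
  rw [frm_inner, h1, evd_zero, hv]
  simp

theorem fre_ext {F G : H D} (h : ∀ K : H D, ⟪F, K⟫_ℝ = ⟪G, K⟫_ℝ) : F = G := ext_inner_right ℝ h

theorem fre_T (F G : H D) : ⟪T D F, G⟫_ℝ = ⟪(F : LL) 0, (G : LL) 0⟫_ℝ := by
  unfold T
  rw [ContinuousLinearMap.comp_apply, ContinuousLinearMap.adjoint_inner_left]
  rfl

theorem fre_BB_eq (hV : VanStatement) (F : H D) : BB 0 F = T D F :=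
  fre_ext fun K => by rw [fre_BB hV, fre_T]

theorem fre_AA_eq (hV : VanStatement) (F : H D) : AA 0 F = F - T D F :=
  fre_ext fun K => by
    rw [fre_AA hV, inner_sub_left, fre_T]
    have h1 : ⟪F, K⟫_ℝ = ⟪(F : LL), (K : LL)⟫_ℝ := rfl
    rw [h1, LL_inner]
    ring

theorem fre_lam_pos (k : ℕ × ℕ) : 0 < lam 1 k + 1 := by
  have : 0 ≤ lam 1 k := by unfold lam; positivity
  linarith

theorem fre_gen (hEV : EvdStatement) (hAN : AnaStatement) (hV : VanStatement)
    (hIN : InjStatement) (hC : CmpStatement) {l : ℝ} (hl : 0 < l + 1) {r : ℕ}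
    (c : Fin r → ℕ × ℕ) (hinj : Function.Injective c) (hpos : ∀ i, 0 < (c i).1 ∧ 0 < (c i).2)
    (hlam : ∀ i, lam 1 (c i) = l)
    (hall : ∀ k : ℕ × ℕ, 0 < k.1 → 0 < k.2 → lam 1 k = l → ∃ i, k = c i) :
    LSHyp AA BB l (fun i => ev (c i)) := by
  obtain ⟨e1, e2, -, e4, e5⟩ := hEV
  have he : ∀ k, ((ev k : H D) : LL) 0 = ET (-1/2) (-1/2) 1 k 0 := fun k => by rw [e1 k]
  have hzero : ∀ k : ℕ × ℕ, ¬ (0 < k.1 ∧ 0 < k.2) → ((ev k : H D) : LL) 0 = 0 := by
    intro k hk
    have h1 := e4 k k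
    rw [if_neg fun h => hk h.2] at h1
    exact inner_self_eq_zero.1 h1
  -- eigenvectors of `T D`
  have hTev : ∀ i, T D (ev (c i)) = (1 / (l + 1)) • (ev (c i) : H D) := by
    intro i
    refine fre_ext fun K => ?_
    have h1 : ⟪(1 / (l + 1)) • (ev (c i) : H D), K⟫_ℝ = (1 / (l + 1)) * ⟪(ev (c i) : H D), K⟫_ℝ :=
      real_inner_smul_left (ev (c i)) K (1 / (l + 1))
    rw [fre_T, h1, e2 (c i) K, hlam i, he]
    field_simp
  -- the kernel
  have hker : ∀ x : H D, T D x = (1 / (l + 1)) • x →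
      x ∈ Submodule.span ℝ (Set.range fun i => (ev (c i) : H D)) := by
    intro x hx
    have h1 : ∀ k : ℕ × ℕ, ⟪((ev k : H D) : LL) 0, (x : LL) 0⟫_ℝ ≠ 0 → ∃ i, k = c i := by
      intro k hk
      by_cases hk' : 0 < k.1 ∧ 0 < k.2
      · refine hall k hk'.1 hk'.2 ?_
        have h2 := e2 k x
        rw [← he] at h2
        have h3 : ⟪T D x, (ev k : H D)⟫_ℝ = (1 / (l + 1)) * ⟪x, (ev k : H D)⟫_ℝ := by
          rw [hx]; exact real_inner_smul_left x (ev k) (1 / (l + 1))
        have h4 : ⟪x, (ev k : H D)⟫_ℝ = ⟪(ev k : H D), x⟫_ℝ := real_inner_comm _ _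
        rw [fre_T, h4, h2, real_inner_comm] at h3
        have h5 : (l + 1) * ⟪((ev k : H D) : LL) 0, (x : LL) 0⟫_ℝ =
            (lam 1 k + 1) * ⟪((ev k : H D) : LL) 0, (x : LL) 0⟫_ℝ := by
          have h7 : (l + 1) * (1 / (l + 1) * ((lam 1 k + 1) *
              ⟪((ev k : H D) : LL) 0, (x : LL) 0⟫_ℝ)) =
              (lam 1 k + 1) * ⟪((ev k : H D) : LL) 0, (x : LL) 0⟫_ℝ := by
            field_simp
          rw [← h7, ← h3]
        have h6 := mul_right_cancel₀ hk h5
        linarith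
      · exact absurd (by rw [hzero k hk', inner_zero_left]) hk
    -- the expansion
    set y : H D := x - ∑ i, ⟪((ev (c i) : H D) : LL) 0, (x : LL) 0⟫_ℝ • (ev (c i) : H D) with hy
    have hy0 : (y : LL) 0 = 0 := by
      have h2 : (y : LL) 0 = (x : LL) 0 - ∑ i, ⟪((ev (c i) : H D) : LL) 0, (x : LL) 0⟫_ℝ •
          ((ev (c i) : H D) : LL) 0 := by
        have h3 : co D 0 y = co D 0 x - ∑ i, ⟪((ev (c i) : H D) : LL) 0, (x : LL) 0⟫_ℝ •
            co D 0 (ev (c i) : H D) := by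
          rw [hy, map_sub, map_sum]
          simp only [map_smul]
        exact h3
      rw [h2, sub_eq_zero]
      refine ext_inner_right ℝ fun f => ?_
      have h3 := e5 x f
      have h4 : HasSum (fun k : ℕ × ℕ =>
          ⟪((ev k : H D) : LL) 0, (x : LL) 0⟫_ℝ * ⟪((ev k : H D) : LL) 0, f⟫_ℝ)
          (∑ k ∈ Finset.univ.image c,
            ⟪((ev k : H D) : LL) 0, (x : LL) 0⟫_ℝ * ⟪((ev k : H D) : LL) 0, f⟫_ℝ) := by
        refine hasSum_sum_of_ne_finset_zero fun k hk => ?_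
        by_contra hne
        obtain ⟨i, hi⟩ := h1 k (left_ne_zero_of_mul hne)
        exact hk (Finset.mem_image.2 ⟨i, Finset.mem_univ _, hi.symm⟩)
      rw [h3.unique h4, Finset.sum_image fun i _ j _ h => hinj h, sum_inner]
      exact Finset.sum_congr rfl fun i _ => by rw [real_inner_smul_left]
    have hy1 : (y : LL) = 0 := hIN y (H_mono (subset_univ D) y.2) hy0
    have hy2 : y = 0 := Subtype.ext hy1
    have hy3 : x = ∑ i, ⟪((ev (c i) : H D) : LL) 0, (x : LL) 0⟫_ℝ • (ev (c i) : H D) := by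
      rw [hy, sub_eq_zero] at hy2
      exact hy2
    rw [hy3]
    exact Submodule.sum_mem _ fun i _ => Submodule.smul_mem _ _ (Submodule.subset_span ⟨i, rfl⟩)
  have hTs : ∀ x y : H D, ⟪T D x, y⟫_ℝ = ⟪x, T D y⟫_ℝ := by
    intro x y
    have h1 : ⟪x, T D y⟫_ℝ = ⟪T D y, x⟫_ℝ := real_inner_comm _ _
    rw [h1, fre_T, fre_T, real_inner_comm]
  have hkey : ∀ x : H D, AA 0 x - l • BB 0 x = x - (l + 1) • T D x := by
    intro x
    rw [fre_AA_eq hV, fre_BB_eq hV]
    module
  refine ⟨hAN.1, hAN.2, ?_, ?_, ?_, ?_, ?_, ?_⟩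
  · intro z x y
    exact frm_symm _ _ _ _ _ x y
  · intro z x y
    exact frm_symm _ _ _ _ _ x y
  · intro i j
    have h1 : ⟪(ev (c i) : H D), BB 0 (ev (c j) : H D)⟫_ℝ =
        ⟪BB 0 (ev (c j) : H D), (ev (c i) : H D)⟫_ℝ := real_inner_comm _ _
    rw [h1, fre_BB hV, e4]
    by_cases hij : i = j
    · rw [if_pos hij, if_pos ⟨by rw [hij], hpos j⟩]
    · rw [if_neg hij, if_neg fun h => hij (hinj h.1).symm]
  · intro i
    have h1 := hkey (ev (c i))
    have h2 : (l + 1) • T D (ev (c i) : H D) = (ev (c i) : H D) := by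
      rw [hTev i, smul_smul]
      have : (l + 1) * (1 / (l + 1)) = 1 := by field_simp
      rw [this, one_smul]
    rw [h2, sub_self, sub_eq_zero] at h1
    exact h1
  · intro x hx
    refine hker x ?_
    have h1 := hkey x
    rw [hx, sub_self] at h1
    have h2 : x = (l + 1) • T D x := (sub_eq_zero.1 h1.symm)
    have h3 : (1 / (l + 1)) • x = (1 / (l + 1)) • ((l + 1) • T D x) := congrArg _ h2
    rw [h3, smul_smul]
    have : (1 / (l + 1)) * (l + 1) = 1 := by field_simp
    rw [this, one_smul]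
  · intro u hu
    have hfin : FiniteDimensional ℝ (Submodule.span ℝ (Set.range fun i => (ev (c i) : H D))) :=
      FiniteDimensional.span_of_finite ℝ (Set.finite_range _)
    have hTc : IsCompactOperator (T D) := by
      have h1 : IsCompactOperator (co D 0) := hC D evd_open (by
        unfold D Sq
        exact (Metric.isBounded_Ioo _ _).prod (Metric.isBounded_Ioo _ _))
      exact h1.clm_comp (co D 0).adjoint
    have hu' : ((1 / (l + 1)) • u) ∈ (Submodule.span ℝ (Set.range fun i => (ev (c i) : H D)))ᗮ := by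
      refine Submodule.smul_mem _ _ ?_
      rw [Submodule.mem_orthogonal]
      intro y hy
      refine Submodule.span_induction (p := fun y _ => ⟪y, u⟫_ℝ = 0) ?_ ?_ ?_ ?_ hy
      · rintro _ ⟨i, rfl⟩
        exact hu i
      · exact inner_zero_left _
      · intro a b _ _ ha hb
        rw [inner_add_left, ha, hb, add_zero]
      · intro a b _ hb
        have : ⟪a • b, u⟫_ℝ = a * ⟪b, u⟫_ℝ := real_inner_smul_left b u a
        rw [this, hb, mul_zero]
    obtain ⟨x, hx⟩ := fre_fred (T D) hTc hTs (μ := 1 / (l + 1)) (by positivity)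
      (Submodule.span ℝ (Set.range fun i => (ev (c i) : H D))) (by
        intro y hy
        refine Submodule.span_induction
          (p := fun y _ => T D y = (1 / (l + 1)) • y) ?_ ?_ ?_ ?_ hy
        · rintro _ ⟨i, rfl⟩
          exact hTev i
        · rw [map_zero, smul_zero]
        · intro a b _ _ ha hb
          rw [map_add, ha, hb, smul_add]
        · intro a b _ hb
          rw [map_smul, hb, smul_comm]) hker _ hu'
    refine ⟨x, ?_⟩
    rw [hkey x]
    have h1 : (l + 1) • ((1 / (l + 1)) • x - T D x) = (l + 1) • ((1 / (l + 1)) • u) :=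
      congrArg _ hx
    rw [smul_sub, smul_smul, smul_smul] at h1
    have : (l + 1) * (1 / (l + 1)) = 1 := by field_simp
    rwa [this, one_smul, one_smul] at h1

theorem fre_lam_eq {m n : ℕ} {k : ℕ × ℕ} (h : lam 1 k = lam 1 (m, n)) :
    k.1 ^ 2 + k.2 ^ 2 = m ^ 2 + n ^ 2 := by
  unfold lam at h
  have hpi : (0 : ℝ) < Real.pi ^ 2 := by positivity
  simp only [one_pow, div_one] at h
  have h1 := mul_left_cancel₀ hpi.ne' h
  exact_mod_cast h1

theorem fre (hEV : EvdStatement) (hAN : AnaStatement) (hV : VanStatement)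
    (hIN : InjStatement) (hC : CmpStatement) : FreStatement := by
  intro m n hm hn hU
  constructor
  · intro hmn
    have h1 := fre_gen hEV hAN hV hIN hC (l := lam 1 (m, n)) (fre_lam_pos _)
      ![(m, n), (n, m)] (by
        intro i j hij
        fin_cases i <;> fin_cases j <;> simp_all) (by
        intro i; fin_cases i <;> simp [hm, hn]) (by
        intro i; fin_cases i
        · rfl
        · simp [lam, add_comm]) (by
        intro k hk1 hk2 hk
        rcases hU k.1 k.2 hk1 hk2 (fre_lam_eq hk) with h | h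
        · exact ⟨0, Prod.ext h.1 h.2⟩
        · exact ⟨1, Prod.ext h.1 h.2⟩)
    have h2 : (fun i => ev ((![(m, n), (n, m)] : Fin 2 → ℕ × ℕ) i)) =
        ![ev (m, n), ev (n, m)] := by
      funext i; fin_cases i <;> rfl
    rw [h2] at h1
    exact h1
  · intro hmn
    subst hmn
    have h1 := fre_gen hEV hAN hV hIN hC (l := lam 1 (m, m)) (fre_lam_pos _)
      ![(m, m)] (by
        intro i j _
        exact Subsingleton.elim _ _) (by
        intro i; fin_cases i; simp [hm]) (by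
        intro i; fin_cases i; rfl) (by
        intro k hk1 hk2 hk
        rcases hU k.1 k.2 hk1 hk2 (fre_lam_eq hk) with h | h
        · exact ⟨0, Prod.ext h.1 h.2⟩
        · exact ⟨0, Prod.ext h.1 h.2⟩)
    have h2 : (fun i => ev ((![(m, m)] : Fin 1 → ℕ × ℕ) i)) = ![ev (m, m)] := by
      funext i; fin_cases i; rfl
    rw [h2] at h1
    exact h1

end Pool.SqDrum
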