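import Mathlib
import Pool.Agent.Lib.MP_2805c2_an.SQ.Iface

set_option autoImplicit false

namespace Pool.SqDrum

open MeasureTheory Set Filter Topology Module
open scoped ENNReal ContDiff InnerProductSpace

section abstract

variable {E : Type} [NormedAddCommGroup E] [InnerProductSpace ℝ E] [CompleteSpace E]

theorem fsp_T (c : E →L[ℝ] L2) (F G : E) : ⟪(c.adjoint.comp c) F, G⟫_ℝ = ⟪c F, c G⟫_ℝ := by
  rw [ContinuousLinearMap.comp_apply, ContinuousLinearMap.adjoint_inner_left]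

theorem fsp_symm (c : E →L[ℝ] L2) : ((c.adjoint.comp c : E →L[ℝ] E) : E →ₗ[ℝ] E).IsSymmetric := by
  intro F G
  show ⟪(c.adjoint.comp c) F, G⟫_ℝ = ⟪F, (c.adjoint.comp c) G⟫_ℝ
  rw [fsp_T, real_inner_comm ((c.adjoint.comp c) G) F, fsp_T, real_inner_comm]

theorem fsp_pos (c : E →L[ℝ] L2) {κ : ℝ} {F : E} (hF : (c.adjoint.comp c) F = κ • F)
    (h1 : ‖F‖ = 1) (hκ : κ ≠ 0) : 0 < κ := by
  have h2 : κ * ‖F‖ ^ 2 = ‖c F‖ ^ 2 := by
    rw [← real_inner_self_eq_norm_sq, ← real_inner_self_eq_norm_sq, ← fsp_T, hF,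
      real_inner_smul_left]
  rw [h1] at h2
  have h3 : 0 ≤ κ := by nlinarith [sq_nonneg ‖c F‖]
  exact lt_of_le_of_ne h3 hκ.symm

theorem fsp_abs (hDIA : DiaStatement) (c : E →L[ℝ] L2) (hc : IsCompactOperator c)
    (hinj : ∀ F, c F = 0 → F = 0) (m : ℕ) (hm : 0 < m) :
    hs ((c.comp c.adjoint) ^ m) =
      ∑' κ : {κ : ℝ // κ ≠ 0},
        (finrank ℝ (End.eigenspace ((c.adjoint.comp c : E →L[ℝ] E) : End ℝ E) κ.1) : ℝ≥0∞) *
          ENNReal.ofReal ((κ : ℝ) ^ (2 * m)) := by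
  set Tc := c.adjoint.comp c with hTcdef
  have hTc : IsCompactOperator Tc := hc.clm_comp c.adjoint
  have fd : ∀ κ : {κ : ℝ // κ ≠ 0},
      FiniteDimensional ℝ (End.eigenspace (Tc : End ℝ E) κ.1) := fun κ =>
    ContinuousLinearMap.finite_dimensional_eigenspace hTc κ.1 κ.2
  let B : ∀ κ : {κ : ℝ // κ ≠ 0}, OrthonormalBasis
      (Fin (finrank ℝ (End.eigenspace (Tc : End ℝ E) κ.1))) ℝ
      (End.eigenspace (Tc : End ℝ E) κ.1) := fun κ => by
    haveI := fd κ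
    exact stdOrthonormalBasis ℝ (End.eigenspace (Tc : End ℝ E) κ.1)
  let v : (Σ κ : {κ : ℝ // κ ≠ 0},
      Fin (finrank ℝ (End.eigenspace (Tc : End ℝ E) κ.1))) → E :=
    fun i => (B i.1 i.2 : E)
  have hTv : ∀ i, Tc (v i) = (i.1 : ℝ) • v i := fun i =>
    End.mem_eigenspace_iff.1 (B i.1 i.2).2
  have hv : Orthonormal ℝ v := by
    have := OrthogonalFamily.orthonormal_sigma_orthonormal
      ((fsp_symm c).orthogonalFamily_eigenspaces.comp
        (Subtype.coe_injective (p := fun κ : ℝ => κ ≠ 0)))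
      (v_family := fun κ => B κ) (fun κ => (B κ).orthonormal)
    exact this
  have hpos : ∀ i : (Σ κ : {κ : ℝ // κ ≠ 0},
      Fin (finrank ℝ (End.eigenspace (Tc : End ℝ E) κ.1))), 0 < (i.1 : ℝ) :=
    fun i => fsp_pos c (hTv i) (hv.1 i) i.1.2
  have hsp : (Submodule.span ℝ (Set.range v))ᗮ = ⊥ := by
    have h := ContinuousLinearMap.orthogonalComplement_iSup_eigenspaces_eq_bot hTc (fsp_symm c)
    rw [eq_bot_iff, ← h]
    refine Submodule.orthogonal_le (iSup_le fun κ => ?_)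
    by_cases hκ : κ = 0
    · intro F hF
      have h0 : Tc F = 0 := by
        have := End.mem_eigenspace_iff.1 hF
        rw [hκ, zero_smul] at this
        exact this
      have h1 : ⟪c F, c F⟫_ℝ = 0 := by rw [← fsp_T, ← hTcdef, h0, inner_zero_left]
      rw [hinj F (inner_self_eq_zero.1 h1)]
      exact Submodule.zero_mem _
    · intro F hF
      have h1 := (B ⟨κ, hκ⟩).sum_repr ⟨F, hF⟩
      have h2 := congrArg (fun u : End.eigenspace (Tc : End ℝ E) κ => (u : E)) h1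
      simp only [Submodule.coe_sum, Submodule.coe_smul] at h2
      rw [← h2]
      refine Submodule.sum_mem _ fun j _ => Submodule.smul_mem _ _ (Submodule.subset_span ?_)
      exact ⟨⟨⟨κ, hκ⟩, j⟩, rfl⟩
  let b := HilbertBasis.mkOfOrthogonalEqBot hv hsp
  have hbv : ∀ i, b i = v i := fun i => by
    rw [HilbertBasis.coe_mkOfOrthogonalEqBot]
  let u : (Σ κ : {κ : ℝ // κ ≠ 0},
      Fin (finrank ℝ (End.eigenspace (Tc : End ℝ E) κ.1))) → L2 :=
    fun i => (Real.sqrt (i.1 : ℝ))⁻¹ • (c (v i))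
  have huu : ∀ i j : (Σ κ : {κ : ℝ // κ ≠ 0},
      Fin (finrank ℝ (End.eigenspace (Tc : End ℝ E) κ.1))), ⟪c (v i), c (v j)⟫_ℝ = if i = j then (i.1 : ℝ) else 0 := by
    intro i j
    rw [← fsp_T, ← hTcdef, hTv, real_inner_smul_left, orthonormal_iff_ite.1 hv i j]
    split_ifs with h
    · simp
    · simp
  have hu : ∀ i j, ⟪u i, u j⟫_ℝ = if i = j then 1 else 0 := by
    intro i j
    show ⟪(Real.sqrt (i.1 : ℝ))⁻¹ • (c (v i)), (Real.sqrt (j.1 : ℝ))⁻¹ • (c (v j))⟫_ℝ = _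
    rw [real_inner_smul_left, real_inner_smul_right, huu]
    split_ifs with h
    · rw [h]
      have h1 := Real.sqrt_pos.2 (hpos j)
      have h2 := Real.mul_self_sqrt (hpos j).le
      field_simp
      rw [sq, h2]
    · simp
  have hres : ∀ f, HasSum (fun i => ((i.1 : ℝ) * ⟪u i, f⟫_ℝ) • u i) ((c.comp c.adjoint) f) := by
    intro f
    have h1 := b.hasSum_repr (c.adjoint f)
    have h2 := h1.mapL c
    have h3 : c (c.adjoint f) = (c.comp c.adjoint) f := rfl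
    rw [h3] at h2
    refine h2.congr_fun fun i => ?_
    rw [map_smul, b.repr_apply_apply, hbv, ContinuousLinearMap.adjoint_inner_right]
    show ((i.1 : ℝ) * ⟪(Real.sqrt (i.1 : ℝ))⁻¹ • (c (v i)), f⟫_ℝ) •
      (Real.sqrt (i.1 : ℝ))⁻¹ • (c (v i)) = _
    rw [real_inner_smul_left, smul_smul]
    congr 1
    have h1 := Real.sqrt_pos.2 (hpos i)
    have h2 := Real.mul_self_sqrt (hpos i).le
    field_simp
    rw [sq, h2]
  have hresu : ∀ i, (c.comp c.adjoint) (u i) = (i.1 : ℝ) • u i := by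
    intro i
    refine (hres (u i)).unique ?_
    have := hasSum_ite_eq i ((i.1 : ℝ) • u i)
    refine this.congr_fun fun j => ?_
    rw [hu]
    by_cases h : j = i
    · subst h; simp
    · simp [h]
  have hrsymm : ∀ f g : L2, ⟪(c.comp c.adjoint) f, g⟫_ℝ = ⟪f, (c.comp c.adjoint) g⟫_ℝ := by
    intro f g
    show ⟪c (c.adjoint f), g⟫_ℝ = ⟪f, c (c.adjoint g)⟫_ℝ
    exact (ContinuousLinearMap.adjoint_inner_right c (c.adjoint f) g).symm.trans
      (ContinuousLinearMap.adjoint_inner_left c (c.adjoint g) f)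
  have hpow : ∀ (n : ℕ) (i) (f : L2),
      ⟪u i, ((c.comp c.adjoint) ^ n) f⟫_ℝ = (i.1 : ℝ) ^ n * ⟪u i, f⟫_ℝ := by
    intro n i
    induction n with
    | zero => intro f; simp
    | succ n ih =>
      intro f
      have e : ((c.comp c.adjoint) ^ (n + 1)) f =
          (c.comp c.adjoint) (((c.comp c.adjoint) ^ n) f) := by
        rw [pow_succ']; rfl
      rw [e, ← hrsymm, hresu, real_inner_smul_left, ih]
      ring
  obtain ⟨n, rfl⟩ : ∃ n, m = n + 1 := ⟨m - 1, by omega⟩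
  have hexp : ∀ f, HasSum (fun i => ((i.1 : ℝ) ^ (n + 1) * ⟪u i, f⟫_ℝ) • u i)
      (((c.comp c.adjoint) ^ (n + 1)) f) := by
    intro f
    have e : ((c.comp c.adjoint) ^ (n + 1)) f =
        (c.comp c.adjoint) (((c.comp c.adjoint) ^ n) f) := by
      rw [pow_succ']; rfl
    rw [e]
    refine (hres (((c.comp c.adjoint) ^ n) f)).congr_fun fun i => ?_
    rw [hpow]
    congr 1
    ring
  have hun : ∀ i, ‖u i‖ = 1 := fun i => by
    have := hu i i
    rw [if_pos rfl, real_inner_self_eq_norm_sq] at this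
    have h0 := norm_nonneg (u i)
    nlinarith
  have hdia := hDIA _ u (fun i => (i.1 : ℝ) ^ (n + 1)) ((c.comp c.adjoint) ^ (n + 1))
    (ContinuousLinearMap.id ℝ L2)
    (fun i j hij => by rw [hu, if_neg hij]) (fun i => Or.inr (hun i)) hexp
  rw [ContinuousLinearMap.id_comp] at hdia
  rw [hdia]
  have h1 : ∀ i, ‖(i.1 : ℝ) ^ (n + 1)‖ₑ ^ 2 * ‖ContinuousLinearMap.id ℝ L2 (u i)‖ₑ ^ 2 =
      ENNReal.ofReal ((i.1 : ℝ) ^ (2 * (n + 1))) := by
    intro i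
    have h3 : ‖u i‖ₑ = 1 := by
      rw [← ofReal_norm, hun i, ENNReal.ofReal_one]
    rw [ContinuousLinearMap.id_apply, h3, one_pow, mul_one, Real.enorm_eq_ofReal_abs,
      ← ENNReal.ofReal_pow (abs_nonneg _), sq_abs, ← pow_mul, mul_comm 2 (n + 1)]
  rw [tsum_congr h1, ENNReal.tsum_sigma']
  refine tsum_congr fun κ => ?_
  rw [tsum_fintype]
  show ∑ _b : Fin (finrank ℝ (End.eigenspace (Tc : End ℝ E) κ.1)),
    ENNReal.ofReal ((κ : ℝ) ^ (2 * (n + 1))) = _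
  rw [Finset.sum_const, Finset.card_univ, Fintype.card_fin, nsmul_eq_mul]

end abstract

theorem fsp_Tin (Ω : Set P2) (F G : H Ω) : ⟪T Ω F, G⟫_ℝ = ⟪(F : LL) 0, (G : LL) 0⟫_ℝ :=
  fsp_T (co Ω 0) F G

theorem fsp_finrank (Ω : Set P2) {κ : ℝ} (hκ : κ ≠ 0) :
    finrank ℝ (End.eigenspace ((T Ω : H Ω →L[ℝ] H Ω) : End ℝ (H Ω)) κ) =
      mult Ω (1 / κ - 1) := by
  unfold mult
  have hmap : (End.eigenspace ((T Ω : H Ω →L[ℝ] H Ω) : End ℝ (H Ω)) κ).map (H Ω).subtype =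
      Eig Ω (1 / κ - 1) := by
    ext F
    constructor
    · rintro ⟨G, hG, rfl⟩
      refine ⟨G.2, fun K hK => ?_⟩
      have hG' : T Ω G = κ • G := End.mem_eigenspace_iff.1 hG
      have e1 : ⟪T Ω G, (⟨K, hK⟩ : H Ω)⟫_ℝ = κ * ⟪(G : LL), K⟫_ℝ := by
        rw [hG']
        show ⟪κ • (G : LL), K⟫_ℝ = _
        rw [real_inner_smul_left]
      rw [fsp_Tin, LL_inner] at e1
      have e2 : ⟪(G : LL) 0, K 0⟫_ℝ = κ * (⟪(G : LL) 0, K 0⟫_ℝ + ⟪(G : LL) 1, K 1⟫_ℝ +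
        ⟪(G : LL) 2, K 2⟫_ℝ) := e1
      show ⟪(G : LL) 1, K 1⟫_ℝ + ⟪(G : LL) 2, K 2⟫_ℝ = (1 / κ - 1) * ⟪(G : LL) 0, K 0⟫_ℝ
      field_simp
      linarith
    · rintro ⟨hF, h⟩
      refine ⟨⟨F, hF⟩, ?_, rfl⟩
      rw [SetLike.mem_coe, End.mem_eigenspace_iff]
      refine ext_inner_right ℝ fun K => ?_
      show ⟪T Ω ⟨F, hF⟩, K⟫_ℝ = ⟪κ • (⟨F, hF⟩ : H Ω), K⟫_ℝ
      rw [fsp_Tin]
      show ⟪F 0, (K : LL) 0⟫_ℝ = ⟪κ • F, (K : LL)⟫_ℝ
      rw [real_inner_smul_left, LL_inner]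
      have e := h K K.2
      have e2 : κ * (⟪F 1, (K : LL) 1⟫_ℝ + ⟪F 2, (K : LL) 2⟫_ℝ) =
          (1 - κ) * ⟪F 0, (K : LL) 0⟫_ℝ := by
        rw [e]; field_simp
      linarith
  rw [← hmap]
  exact (Submodule.equivMapOfInjective (H Ω).subtype (H Ω).injective_subtype _).finrank_eq

theorem fsp_gen (hCMP : CmpStatement) (hDIA : DiaStatement) (hINJ : InjStatement) {Ω : Set P2}
    (hΩ : IsOpen Ω) (hb : Bornology.IsBounded Ω) (m : ℕ) (hm : 0 < m) :
    hs ((res Ω) ^ m) =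
      ∑' l : ℝ, (mult Ω l : ℝ≥0∞) * ENNReal.ofReal ((1 / (l + 1)) ^ (2 * m)) := by
  have habs := fsp_abs hDIA (co Ω 0) (hCMP Ω hΩ hb) (fun F hF =>
    Subtype.ext (hINJ F (H_mono (Set.subset_univ Ω) F.2) hF)) m hm
  have e0 : (co Ω 0).comp (co Ω 0).adjoint = res Ω := rfl
  have e1 : (co Ω 0).adjoint.comp (co Ω 0) = T Ω := rfl
  rw [e0, e1] at habs
  rw [habs]
  obtain ⟨n, rfl⟩ : ∃ n, m = n + 1 := ⟨m - 1, by omega⟩
  have h4 : ∀ κ : {κ : ℝ // κ ≠ 0}, (finrank ℝ (End.eigenspace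
      ((T Ω : H Ω →L[ℝ] H Ω) : End ℝ (H Ω)) κ.1) : ℝ≥0∞) *
        ENNReal.ofReal ((κ : ℝ) ^ (2 * (n + 1))) =
      (mult Ω (1 / (κ : ℝ) - 1) : ℝ≥0∞) *
        ENNReal.ofReal ((1 / ((1 / (κ : ℝ) - 1) + 1)) ^ (2 * (n + 1))) := by
    intro κ
    rw [fsp_finrank Ω κ.2, sub_add_cancel, one_div_one_div]
  rw [tsum_congr h4]
  -- reindex
  let φ : {κ : ℝ // κ ≠ 0} ≃ {l : ℝ // l ≠ -1} :=
    { toFun := fun κ => ⟨1 / κ.1 - 1, by
        intro h
        have := κ.2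
        have h' : 1 / κ.1 = 0 := by linarith
        exact one_div_ne_zero this h'⟩
      invFun := fun l => ⟨1 / (l.1 + 1), by
        have : l.1 + 1 ≠ 0 := fun h => l.2 (by linarith)
        exact one_div_ne_zero this⟩
      left_inv := fun κ => by
        apply Subtype.ext
        show 1 / (1 / κ.1 - 1 + 1) = κ.1
        rw [sub_add_cancel, one_div_one_div]
      right_inv := fun l => by
        apply Subtype.ext
        show 1 / (1 / (l.1 + 1)) - 1 = l.1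
        rw [one_div_one_div, add_sub_cancel_right] }
  have h5 := φ.tsum_eq (fun l : {l : ℝ // l ≠ -1} => (mult Ω l.1 : ℝ≥0∞) *
    ENNReal.ofReal ((1 / (l.1 + 1)) ^ (2 * (n + 1))))
  have h6 : ∑' c : {κ : ℝ // κ ≠ 0}, (mult Ω (1 / (c : ℝ) - 1) : ℝ≥0∞) *
        ENNReal.ofReal ((1 / ((1 / (c : ℝ) - 1) + 1)) ^ (2 * (n + 1))) =
      ∑' l : {l : ℝ // l ≠ -1}, (mult Ω l.1 : ℝ≥0∞) *
        ENNReal.ofReal ((1 / (l.1 + 1)) ^ (2 * (n + 1))) := h5
  rw [h6]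
  have h7 := tsum_subtype_eq_of_support_subset (s := {l : ℝ | l ≠ -1})
    (f := fun l : ℝ => (mult Ω l : ℝ≥0∞) * ENNReal.ofReal ((1 / (l + 1)) ^ (2 * (n + 1))))
    (by
      intro l hl
      by_contra h
      have h' : l = -1 := by
        by_contra h''
        exact h h''
      apply hl
      show (mult Ω l : ℝ≥0∞) * ENNReal.ofReal ((1 / (l + 1)) ^ (2 * (n + 1))) = 0
      rw [h']
      simp)
  exact h7

theorem fsp (hCMP : CmpStatement) (hDIA : DiaStatement) (hINJ : InjStatement) :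
    FspStatement := by
  intro Ω Ω' hΩ hΩ' hb hb' hiso
  have h1 := fsp_gen hCMP hDIA hINJ hΩ hb 1 one_pos
  have h2 := fsp_gen hCMP hDIA hINJ hΩ' hb' 1 one_pos
  rw [pow_one] at h1 h2
  rw [h1, h2]
  exact tsum_congr fun l => by rw [hiso l]

end Pool.SqDrum
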