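import Mathlib
import Pool.Agent.Lib.MP_2805c2_an.SQ.Iface

set_option autoImplicit false

namespace Pool.SqDrum

open MeasureTheory Set Filter Topology
open scoped ENNReal ContDiff InnerProductSpace

theorem inj_aux {f : L2} (h : ∀ g : P2 → ℝ, ContDiff ℝ ∞ g → HasCompactSupport g →
    ⟪cl g, f⟫_ℝ = 0) : f = 0 := by
  refine Lp.ext ?_
  have hf : LocallyIntegrable f (volume : Measure P2) :=
    (Lp.memLp f).locallyIntegrable one_le_two
  have h1 := ae_eq_zero_of_integral_contDiff_smul_eq_zero hf (fun g hg hgc => by
    have h2 := h g hg hgc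
    rw [inner_eq] at h2
    rw [← h2]
    refine integral_congr_ae ?_
    filter_upwards [cl_coe (hg.continuous.memLp_of_hasCompactSupport hgc)] with x hx
    rw [hx, smul_eq_mul])
  filter_upwards [h1, Lp.coeFn_zero ℝ 2 (volume : Measure P2)] with x hx hx0
  rw [hx, hx0]
  rfl

theorem inj (hI : IbpStatement) : InjStatement := by
  intro F hF h0
  have h1 : F 1 = 0 := inj_aux fun g hg hgc => by
    have h := (hI Set.univ g isOpen_univ hg (Or.inr hgc) F hF).1
    rw [Set.indicator_univ, h0, inner_zero_right, neg_zero] at h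
    exact h
  have h2 : F 2 = 0 := inj_aux fun g hg hgc => by
    have h := (hI Set.univ g isOpen_univ hg (Or.inr hgc) F hF).2
    rw [Set.indicator_univ, h0, inner_zero_right, neg_zero] at h
    exact h
  ext i : 1
  fin_cases i
  · exact h0
  · exact h1
  · exact h2

end Pool.SqDrum
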