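import Mathlib
import Pool.Agent.Lib.MP_2805c2_an.SQ.Iface

set_option autoImplicit false

namespace Pool.SqDrum

open MeasureTheory Set Filter Topology Asymptotics
open scoped ENNReal ContDiff InnerProductSpace

theorem loc_uniq {m n N : ℕ} (hN : m ^ 2 + n ^ 2 = N) (hN' : N < 36)
    (h : ∀ k : Fin 6, ∀ l : Fin 6, 0 < k.1 → 0 < l.1 → k.1 ^ 2 + l.1 ^ 2 = N →
      (k.1 = m ∧ l.1 = n) ∨ (k.1 = n ∧ l.1 = m)) :
    Uniq m n := by
  intro k l hk hl e
  have hk' : k < 6 := by nlinarith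
  have hl' : l < 6 := by nlinarith
  exact h ⟨k, hk'⟩ ⟨l, hl'⟩ hk hl (e.trans hN)

theorem loc_u12 : Uniq 1 2 := loc_uniq (N := 5) (by norm_num) (by norm_num) (by decide)
theorem loc_u14 : Uniq 1 4 := loc_uniq (N := 17) (by norm_num) (by norm_num) (by decide)
theorem loc_u13 : Uniq 1 3 := loc_uniq (N := 10) (by norm_num) (by norm_num) (by decide)
theorem loc_u24 : Uniq 2 4 := loc_uniq (N := 20) (by norm_num) (by norm_num) (by decide)
theorem loc_u15 : Uniq 1 5 := loc_uniq (N := 26) (by norm_num) (by norm_num) (by decide)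

theorem loc_iso (hSIM : SimStatement) {Ω Ω' : Set P2} (hΩ : IsOpen Ω) (h : Cong Ω Ω') :
    IsoSp Ω' Ω := by
  obtain ⟨ρ, hρ, rfl⟩ := h
  intro l
  rw [hSIM 1 ρ Ω one_pos hρ hΩ l, one_pow, one_mul]

theorem loc_tend {s : Z5 → Z5} (hs : Continuous s) (h0 : s 0 = 0) :
    Tendsto (fun z : Z5 => (s z, z)) (𝓝 0) (𝓝 ((0, 0) : Z5 × Z5)) := by
  have : Continuous fun z : Z5 => (s z, z) := hs.prodMk continuous_id
  have h := this.tendsto 0
  rw [h0] at h
  exact h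

theorem loc_inv (hSIM : SimStatement) (hBIL : BilStatement) {s : Z5 → Z5} (hs : Continuous s)
    (h0 : s 0 = 0) (hc : ∀ z, Cong (dom z) (dom (s z))) {f : Z5 → ℝ}
    (hf : ∀ᶠ p in 𝓝 ((0, 0) : Z5 × Z5), IsoSp (dom p.1) (dom p.2) → f p.1 = f p.2) :
    ∀ᶠ z in 𝓝 (0 : Z5), f (s z) = f z := by
  filter_upwards [(loc_tend hs h0).eventually hf, hBIL] with z h1 h2
  exact h1 (loc_iso hSIM h2.1 (hc z))

theorem loc_contX : Continuous symX := by
  refine continuous_pi fun i => ?_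
  fin_cases i <;> simp [symX] <;> fun_prop

theorem loc_contY : Continuous symY := by
  refine continuous_pi fun i => ?_
  fin_cases i <;> simp [symY] <;> fun_prop

theorem loc_contS : Continuous symS := by
  refine continuous_pi fun i => ?_
  fin_cases i <;> simp [symS] <;> fun_prop

theorem loc_X0 : symX 0 = 0 := by
  funext i; fin_cases i <;> simp [symX]

theorem loc_Y0 : symY 0 = 0 := by
  funext i; fin_cases i <;> simp [symY]

theorem loc_S0 : symS 0 = 0 := by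
  funext i; fin_cases i <;> simp [symS]

theorem loc_contG : Continuous gen := by
  refine continuous_pi fun i => ?_
  fin_cases i <;> simp [gen] <;> fun_prop

theorem loc_G0 : gen 0 = 0 := by
  funext i; fin_cases i <;> simp [gen]

theorem loc_phi (hSIM : SimStatement) (hBIL : BilStatement) (hSYM : SymStatement)
    (hIVB : IvbStatement) {f : Z5 → ℝ} (hfa : AnalyticAt ℝ f 0)
    (hf : ∀ᶠ p in 𝓝 ((0, 0) : Z5 × Z5), IsoSp (dom p.1) (dom p.2) → f p.1 = f p.2) :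
    ∃ Φ : (Fin 7 → ℝ) → ℝ, AnalyticAt ℝ Φ 0 ∧ ∀ᶠ z in 𝓝 (0 : Z5), f z = Φ (gen z) :=
  hIVB f hfa (loc_inv hSIM hBIL loc_contX loc_X0 (fun z => (hSYM z).1) hf)
    (loc_inv hSIM hBIL loc_contY loc_Y0 (fun z => (hSYM z).2.1) hf)
    (loc_inv hSIM hBIL loc_contS loc_S0 (fun z => (hSYM z).2.2) hf)

theorem loc_sim_comp {ρ ρ' : P2 → P2} (h : Sim 1 ρ) (h' : Sim 1 ρ') : Sim 1 (ρ' ∘ ρ) := by
  obtain ⟨a, b, p, q, e, he, hab, hρ⟩ := h
  obtain ⟨a', b', p', q', e', he', hab', hρ'⟩ := h'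
  refine ⟨a' * a - e' * b' * b, b' * a + e' * a' * b, a' * p - e' * b' * q + p',
    b' * p + e' * a' * q + q', e' * e, ?_, ?_, fun x => ?_⟩
  · rcases he with rfl | rfl <;> rcases he' with rfl | rfl <;> norm_num
  · have h1 : e' ^ 2 = 1 := by rcases he' with rfl | rfl <;> norm_num
    have : (a' * a - e' * b' * b) ^ 2 + (b' * a + e' * a' * b) ^ 2
      = (a' ^ 2 + b' ^ 2) * a ^ 2 + e' ^ 2 * (a' ^ 2 + b' ^ 2) * b ^ 2 := by ring
    rw [this, h1, hab']
    rw [one_pow, one_mul, one_mul, one_mul, hab]; norm_num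
  · have h1 : e' * e' = 1 := by rcases he' with rfl | rfl <;> norm_num
    rw [Function.comp_apply, hρ, hρ']
    refine Prod.ext ?_ ?_
    · show a' * (a * x.1 - e * b * x.2 + p) - e' * b' * (b * x.1 + e * a * x.2 + q) + p' =
        (a' * a - e' * b' * b) * x.1 - e' * e * (b' * a + e' * a' * b) * x.2 +
          (a' * p - e' * b' * q + p')
      linear_combination (e * a' * b * x.2) * h1
    · show b' * (a * x.1 - e * b * x.2 + p) + e' * a' * (b * x.1 + e * a * x.2 + q) + q' =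
        (b' * a + e' * a' * b) * x.1 + e' * e * (a' * a - e' * b' * b) * x.2 +
          (b' * p + e' * a' * q + q')
      linear_combination (e * b' * b * x.2) * h1

theorem loc_cong_trans {A B C : Set P2} (h : Cong A B) (h' : Cong B C) : Cong A C := by
  obtain ⟨ρ, hρ, rfl⟩ := h
  obtain ⟨ρ', hρ', rfl⟩ := h'
  exact ⟨ρ' ∘ ρ, loc_sim_comp hρ hρ', Set.image_comp _ _ _⟩

theorem loc_cong_refl (A : Set P2) : Cong A A :=
  ⟨id, ⟨1, 0, 0, 0, 1, Or.inl rfl, by norm_num, fun x => by simp⟩, Set.image_id _⟩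

theorem loc_orb (hSYM : SymStatement) {z z' : Z5}
    (h : Relation.ReflTransGen (fun u v => v = symX u ∨ v = symY u ∨ v = symS u) z z') :
    Cong (dom z) (dom z') := by
  induction h with
  | refl => exact loc_cong_refl _
  | tail _ hbc ih =>
    refine loc_cong_trans ih ?_
    rcases hbc with rfl | rfl | rfl
    · exact (hSYM _).1
    · exact (hSYM _).2.1
    · exact (hSYM _).2.2

theorem loc (hINE : IneStatement) (hINO : InoStatement) (hCLO : CloStatement)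
    (hIVB : IvbStatement) (hEXE : ExeStatement) (hEXO : ExoStatement) (hEXU : ExuStatement)
    (hSEP : SepStatement) (hORB : OrbStatement) (hSYM : SymStatement) (hARE : AreStatement)
    (hBIL : BilStatement) (hSIM : SimStatement) (hA : NuaStatement) (hB : NubStatement)
    (hC : NucStatement) (hD : NudStatement) (hE : NueStatement) (hF : NufStatement) :
    LocStatement := by
  obtain ⟨f1, a1, i1, c1⟩ := hCLO
  obtain ⟨f2, a2, z2, i2, o2, c2⟩ := hINO 1 2 (by norm_num) (by norm_num) (by norm_num) loc_u12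
  obtain ⟨f3, a3, z3, i3, o3, c3⟩ := hINO 1 4 (by norm_num) (by norm_num) (by norm_num) loc_u14
  obtain ⟨f4, b4, a4, z4, i4, o4, c4, d4⟩ :=
    hINE 1 3 (by norm_num) (by norm_num) (by norm_num) loc_u13
  obtain ⟨f5, b5, a5, z5, i5, o5, c5, d5⟩ :=
    hINE 2 4 (by norm_num) (by norm_num) (by norm_num) loc_u24
  obtain ⟨f6, b6, a6, z6, i6, o6, c6, d6⟩ :=
    hINE 1 5 (by norm_num) (by norm_num) (by norm_num) loc_u15
  obtain ⟨Φ1, p1, e1⟩ := loc_phi hSIM hBIL hSYM hIVB a1 i1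
  obtain ⟨Φ2, p2, e2⟩ := loc_phi hSIM hBIL hSYM hIVB a2 i2
  obtain ⟨Φ3, p3, e3⟩ := loc_phi hSIM hBIL hSYM hIVB a3 i3
  obtain ⟨Φ4, p4, e4⟩ := loc_phi hSIM hBIL hSYM hIVB a4 i4
  obtain ⟨Φ5, p5, e5⟩ := loc_phi hSIM hBIL hSYM hIVB a5 i5
  obtain ⟨Φ6, p6, e6⟩ := loc_phi hSIM hBIL hSYM hIVB a6 i6
  have pi2 : 0 < Real.pi ^ 2 := by positivity
  have al13 : al 1 3 = 16 * Real.pi ^ 2 := by unfold al; push_cast; ring
  have al24 : al 2 4 = 24 * Real.pi ^ 2 := by unfold al; push_cast; ring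
  have al15 : al 1 5 = 48 * Real.pi ^ 2 := by unfold al; push_cast; ring
  have k12 : ka1 1 2 = -256 / 9 := by unfold ka1; push_cast; norm_num
  have k14 : ka1 1 4 = -1024 / 225 := by unfold ka1; push_cast; norm_num
  have p0 : AnalyticAt ℝ (fun g : Fin 7 → ℝ => (1 + g 0) ^ 2 - g 4 - g 2) 0 := by
    have h : ∀ i : Fin 7, AnalyticAt ℝ (fun g : Fin 7 → ℝ => g i) 0 := fun i =>
      (ContinuousLinearMap.proj (R := ℝ) (φ := fun _ : Fin 7 => ℝ) i).analyticAt 0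
    exact ((((analyticAt_const).add (h 0)).pow 2).sub (h 4)).sub (h 2)
  have hB1 : al 1 3 / 20 < be 1 3 := hB.1
  have hB2 : be 1 3 < al 1 3 / 10 := hB.2
  have hC1 : be 2 4 < 0 := hC
  have hD1 : al 1 5 / 5 < be 1 5 := hD
  have hE1 : ka1 1 2 / 2 < ka2 1 2 := hE
  have hF1 : ka2 1 4 < ka1 1 4 := hF
  have key := hSEP ![fun g => (1 + g 0) ^ 2 - g 4 - g 2, Φ1, Φ2, Φ3, Φ4, Φ5, Φ6]
    ![al 1 3, al 2 4, al 1 5] ![be 1 3, be 2 4, be 1 5] ![ka1 1 2, ka1 1 4] ![ka2 1 2, ka2 1 4]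
    (BN 1 1)
    (by intro i; fin_cases i
        · exact p0
        · exact p1
        · exact p2
        · exact p3
        · exact p4
        · exact p5
        · exact p6)
    (fun g => rfl)
    (fun v h0 h2 h3 h4 h5 h6 => hEXU f1 Φ1 (BN 1 1) p1 e1 c1 v h0 h2 h3 h4 h5 h6)
    (ne_of_gt hA)
    (fun v h4 h5 h6 => hEXO f2 Φ2 (ka1 1 2) (ka2 1 2) p2 e2 z2 o2 c2 v h4 h5 h6)
    (fun v h4 h5 h6 => hEXO f3 Φ3 (ka1 1 4) (ka2 1 4) p3 e3 z3 o3 c3 v h4 h5 h6)
    (by show ka1 1 2 ≠ 0; rw [k12]; norm_num)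
    (by show ka1 1 4 ≠ 0; rw [k14]; norm_num)
    (by
      show ka1 1 2 * ka2 1 4 ≠ ka1 1 4 * ka2 1 2
      rw [k12] at hE1
      rw [k14] at hF1
      rw [k12, k14]
      intro h
      nlinarith)
    (by
      intro i v
      fin_cases i
      · exact hEXE f4 Φ4 (al 1 3) (be 1 3) b4 p4 e4 z4 o4 c4 d4 v
      · exact hEXE f5 Φ5 (al 2 4) (be 2 4) b5 p5 e5 z5 o5 c5 d5 v
      · exact hEXE f6 Φ6 (al 1 5) (be 1 5) b6 p6 e6 z6 o6 c6 d6 v)
    (by
      intro i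
      fin_cases i
      · show al 1 3 ≠ 0; rw [al13]; positivity
      · show al 2 4 ≠ 0; rw [al24]; positivity
      · show al 1 5 ≠ 0; rw [al15]; positivity)
    (by
      rw [al13] at hB1 hB2
      rw [al15] at hD1
      have q1 : al 1 3 * be 2 4 ≠ al 2 4 * be 1 3 := by
        rw [al13, al24]; intro h; nlinarith
      have q2 : al 1 3 * be 1 5 ≠ al 1 5 * be 1 3 := by
        rw [al13, al15]; intro h; nlinarith
      have q3 : al 2 4 * be 1 5 ≠ al 1 5 * be 2 4 := by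
        rw [al24, al15]; intro h; nlinarith
      intro i j hij
      fin_cases i <;> fin_cases j
      · exact absurd rfl hij
      · exact q1
      · exact q2
      · exact fun h => q1 h.symm
      · exact absurd rfl hij
      · exact q3
      · exact fun h => q2 h.symm
      · exact fun h => q3 h.symm
      · exact absurd rfl hij)
  have tG : Tendsto (fun p : Z5 × Z5 => (gen p.1, gen p.2)) (𝓝 (0, 0))
      (𝓝 ((0, 0) : (Fin 7 → ℝ) × (Fin 7 → ℝ))) := by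
    have : Continuous fun p : Z5 × Z5 => (gen p.1, gen p.2) :=
      (loc_contG.comp continuous_fst).prodMk (loc_contG.comp continuous_snd)
    have h := this.tendsto (0, 0)
    simp only [loc_G0] at h
    exact h
  have t1 : Tendsto (fun p : Z5 × Z5 => p.1) (𝓝 ((0, 0) : Z5 × Z5)) (𝓝 0) :=
    continuous_fst.tendsto _
  have t2 : Tendsto (fun p : Z5 × Z5 => p.2) (𝓝 ((0, 0) : Z5 × Z5)) (𝓝 0) :=
    continuous_snd.tendsto _
  have eall : ∀ᶠ z in 𝓝 (0 : Z5), f1 z = Φ1 (gen z) ∧ f2 z = Φ2 (gen z) ∧ f3 z = Φ3 (gen z) ∧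
      f4 z = Φ4 (gen z) ∧ f5 z = Φ5 (gen z) ∧ f6 z = Φ6 (gen z) := by
    filter_upwards [e1, e2, e3, e4, e5, e6] with z h1 h2 h3 h4 h5 h6
    exact ⟨h1, h2, h3, h4, h5, h6⟩
  filter_upwards [tG.eventually key, t1.eventually hBIL, t2.eventually hBIL, t1.eventually eall,
    t2.eventually eall, i1, i2, i3, i4, i5, i6] with p hk hb1 hb2 g1 g2 j1 j2 j3 j4 j5 j6 hiso
  have harea : det2 (va p.1) (vb p.1) = det2 (va p.2) (vb p.2) := by
    rw [← hb1.2.2.1, ← hb2.2.2.1]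
    exact hARE _ _ hb1.1 hb2.1 hb1.2.1 hb2.2.1 hiso
  have hgen : gen p.1 = gen p.2 := by
    refine hk ?_
    intro i
    fin_cases i
    · show (1 + gen p.1 0) ^ 2 - gen p.1 4 - gen p.1 2 =
        (1 + gen p.2 0) ^ 2 - gen p.2 4 - gen p.2 2
      have ee : ∀ z : Z5, (1 + gen z 0) ^ 2 - gen z 4 - gen z 2 = det2 (va z) (vb z) := by
        intro z
        show (1 + z 0) ^ 2 - z 1 ^ 2 - z 2 ^ 2 = (1 + z 0 + z 1) * (1 + z 0 - z 1) - z 2 * z 2
        ring
      rw [ee, ee, harea]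
    · show Φ1 (gen p.1) = Φ1 (gen p.2)
      rw [← g1.1, ← g2.1]; exact j1 hiso
    · show Φ2 (gen p.1) = Φ2 (gen p.2)
      rw [← g1.2.1, ← g2.2.1]; exact j2 hiso
    · show Φ3 (gen p.1) = Φ3 (gen p.2)
      rw [← g1.2.2.1, ← g2.2.2.1]; exact j3 hiso
    · show Φ4 (gen p.1) = Φ4 (gen p.2)
      rw [← g1.2.2.2.1, ← g2.2.2.2.1]; exact j4 hiso
    · show Φ5 (gen p.1) = Φ5 (gen p.2)
      rw [← g1.2.2.2.2.1, ← g2.2.2.2.2.1]; exact j5 hiso
    · show Φ6 (gen p.1) = Φ6 (gen p.2)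
      rw [← g1.2.2.2.2.2, ← g2.2.2.2.2.2]; exact j6 hiso
  exact loc_orb hSYM (hORB _ _ hgen)

end Pool.SqDrum
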