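import Pool.Agent.Lib.MP_2805c2_an.SQ.All

/-!
The statements of the modules of the folder `SQ`, proved without hypotheses.
-/

set_option autoImplicit false

namespace Pool.SqDrum.Thm

open Pool.SqDrum

theorem tVan : VanStatement := Pool.SqDrum.van

theorem tIbp : IbpStatement := Pool.SqDrum.ibp

theorem tInj : InjStatement := Pool.SqDrum.inj tIbp

theorem tWcl : WclStatement := Pool.SqDrum.wcl

theorem tPos : PosStatement := Pool.SqDrum.pos tInj tWcl

theorem tLat : LatStatement := Pool.SqDrum.lat tWcl tPos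

theorem tMon : MonStatement := Pool.SqDrum.mon tLat

theorem tHsb : HsbStatement := Pool.SqDrum.hsb

theorem tHsi : HsiStatement := Pool.SqDrum.hsi

theorem tHsd : HsdStatement := Pool.SqDrum.hsd tHsb

theorem tDia : DiaStatement := Pool.SqDrum.dia tHsb

theorem tTfn : TfnStatement := Pool.SqDrum.tfn

theorem tTfi : TfiStatement := Pool.SqDrum.tfi tTfn

theorem tTrf : TrfStatement := Pool.SqDrum.trf tTfn tTfi tVan

theorem tSim : SimStatement := Pool.SqDrum.sim tTrf tVan

theorem tIso : IsoStatement := Pool.SqDrum.iso tHsb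

theorem tBrg : BrgStatement := Pool.SqDrum.brg

theorem tS1d : S1dStatement := Pool.SqDrum.s1d

theorem tSin : SinStatement := Pool.SqDrum.sin

theorem tEig : EigStatement := Pool.SqDrum.eig tIbp

theorem tOrt : OrtStatement := Pool.SqDrum.ort

theorem tCpl : CplStatement := Pool.SqDrum.cpl tS1d tOrt

theorem tLcf : LcfStatement := Pool.SqDrum.lcf tCpl tVan tEig tSin tOrt tDia

theorem tCmp : CmpStatement := Pool.SqDrum.cmp tCpl tVan tEig tSin tOrt

theorem tFsp : FspStatement := Pool.SqDrum.fsp tCmp tDia tInj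

theorem tTht : ThtStatement := Pool.SqDrum.tht

theorem tPtw : PtwStatement := Pool.SqDrum.ptw tTht

theorem tPsi : PsiStatement := Pool.SqDrum.psi_thm

theorem tTha : ThaStatement := Pool.SqDrum.tha tLcf tPtw tPsi

theorem tThb : ThbStatement := Pool.SqDrum.thb tLcf tOrt

theorem tSup : SupStatement := Pool.SqDrum.sup tMon tHsd tHsi tVan

theorem tGrd : GrdStatement := Pool.SqDrum.grd

theorem tUpv : UpvStatement := Pool.SqDrum.upv tTha tMon tHsd tVan tIso tPsi

theorem tAre : AreStatement := Pool.SqDrum.are tFsp tSim tSup tGrd tUpv tThb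

theorem tTri : TriStatement := Pool.SqDrum.tri' tTha tMon tHsd tPsi

theorem tQda : QdaStatement := Pool.SqDrum.qda

theorem tQdb : QdbStatement := Pool.SqDrum.qdb tQda

theorem tUpa : UpaStatement := Pool.SqDrum.upa tTri tIso tQda

theorem tUpg : UpgStatement := Pool.SqDrum.upg tQda

theorem tUpq : UpqStatement := Pool.SqDrum.upq tUpa tUpg tHsi tVan

theorem tGla : GlaStatement := Pool.SqDrum.gla tQda

theorem tGlb : GlbStatement := Pool.SqDrum.glb tGla tUpq tFsp tSim tAre tQda tQdb tSup tThb

theorem tGeo : GeoStatement := Pool.SqDrum.geo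

theorem tNfm : NfmStatement := Pool.SqDrum.nfm tQda

theorem tCyc : CycStatement := Pool.SqDrum.cyc

theorem tIft : IftStatement := Pool.SqDrum.ift

theorem tKer : KerStatement := Pool.SqDrum.ker

theorem tGrm : GrmStatement := Pool.SqDrum.grm

theorem tLin : LinStatement := Pool.SqDrum.lin

theorem tSec : SecStatement := Pool.SqDrum.sec

theorem tAna : AnaStatement := Pool.SqDrum.ana

theorem tOpx : OpxStatement := Pool.SqDrum.opx

theorem tEvd : EvdStatement := Pool.SqDrum.evd tSin tEig tOrt tCpl tVan

theorem tFre : FreStatement := Pool.SqDrum.fre tEvd tAna tVan tInj tCmp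

theorem tTrg : TrgStatement := Pool.SqDrum.trg

theorem tGel : GelStatement := Pool.SqDrum.gel tIbp tEvd

theorem tMel : MelStatement := Pool.SqDrum.mel tTrg

theorem tNrg : NrgStatement := Pool.SqDrum.nrg tMel tCpl tTrg

theorem tSer : SerStatement := Pool.SqDrum.ser tGel tMel tEvd

theorem tKev : KevStatement := Pool.SqDrum.kev tEvd tTrg

theorem tBil : BilStatement := Pool.SqDrum.bil_thm tTrf tQda tQdb

theorem tClx : ClxStatement := Pool.SqDrum.clx tFre tIft tKer tGrm tLin tSec tOpx tBil tGel tMel tEvd tSer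

theorem tClo : CloStatement := Pool.SqDrum.clo tFre tIft tKer tSec tOpx tBil tGel tMel tEvd tSer tKev

theorem tSsm : SsmStatement := Pool.SqDrum.ssm tNrg

theorem tIne : IneStatement := Pool.SqDrum.ine tClx tKev tSsm

theorem tIno : InoStatement := Pool.SqDrum.ino tClx tKev tSsm

theorem tWrd : WrdStatement := Pool.SqDrum.wrd

theorem tPsa : PsaStatement := Pool.SqDrum.psa

theorem tIva : IvaStatement := Pool.SqDrum.iva tWrd tPsa

theorem tIvb : IvbStatement := Pool.SqDrum.ivb tIva tWrd tPsa

theorem tExe : ExeStatement := Pool.SqDrum.exe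

theorem tExo : ExoStatement := Pool.SqDrum.exo

theorem tExu : ExuStatement := Pool.SqDrum.exu

theorem tSym : SymStatement := Pool.SqDrum.sym

theorem tOrb : OrbStatement := Pool.SqDrum.orb

theorem tTlb : TlbStatement := Pool.SqDrum.tlb tNrg

theorem tNua : NuaStatement := Pool.SqDrum.nua tTlb

theorem tNub : NubStatement := Pool.SqDrum.nub tTlb

theorem tNuc : NucStatement := Pool.SqDrum.nuc tTlb

theorem tNud : NudStatement := Pool.SqDrum.nud tTlb

theorem tNue : NueStatement := Pool.SqDrum.nue tTlb

theorem tNuf : NufStatement := Pool.SqDrum.nuf tTlb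

theorem tSep : SepStatement := Pool.SqDrum.sep

theorem tLoc : LocStatement := Pool.SqDrum.loc tIne tIno tClo tIvb tExe tExo tExu tSep tOrb tSym tAre tBil tSim tNua tNub tNuc tNud tNue tNuf

theorem tFin : FinStatement := Pool.SqDrum.fin tBrg tSim tCyc tQda tGlb tGeo tNfm tLoc

end Pool.SqDrum.Thm
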